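import Pool.Agent.HCO.St2

/-!
# Case A
-/

set_option autoImplicit false

open Set Topology Cardinal Ordinal Order Filter

universe u v w

namespace Pool.Agent.HCO

theorem thm_A (hBM : St_BigMin.{u}) (hA1 : St_A1cof.{u}) (hC1 : St_C1.{u}) (hC3 : St_C3.{u})
    (hC2 : St_C2.{u}) : St_A.{u} := by
  intro hMM X _ _ _ _ x r hmin K hK hx
  have h2 := hC2 hMM X x r hmin ⟨K, hK, hx⟩
  push Not at h2
  obtain ⟨K0, hK0, hbig⟩ := h2
  set K1 : ℕ → Set X := fun n => ⋃ m ∈ Finset.range (n + 1), K0 m with hK1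
  have hK1u : (⋃ n, K1 n) = ⋃ n, K0 n := by
    ext z
    simp only [hK1, mem_iUnion, Finset.mem_range]
    constructor
    · rintro ⟨n, m, _, hm⟩
      exact ⟨m, hm⟩
    · rintro ⟨n, hn⟩
      exact ⟨n, n, Nat.lt_succ_self n, hn⟩
  have hK1s : Sig x K1 := by
    intro n
    constructor
    · exact (Finset.range (n + 1)).finite_toSet.isClopen_biUnion (fun m _ => (hK0 m).1)
    · simp only [hK1, mem_iUnion, Finset.mem_range]
      rintro ⟨m, _, hm⟩
      exact (hK0 m).2 hm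
  have hK1m : Monotone K1 := by
    intro a b hab z hz
    simp only [hK1, mem_iUnion, Finset.mem_range] at hz ⊢
    obtain ⟨m, hm, hz⟩ := hz
    exact ⟨m, by omega, hz⟩
  rw [← hK1u] at hbig
  set F : Set X := closure (⋃ n, K1 n) with hF
  have hFc : IsClosed F := isClosed_closure
  have hxF : x ∈ F := by
    have := hbig
    rw [der] at this
    exact this.1
  have : CompactSpace F := isCompact_iff_compactSpace.mp hFc.isCompact
  have hminF : Min F ⟨x, hxF⟩ r := hBM X x r hmin F hFc hbig hxF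
  set K2 : ℕ → Set F := fun n => Subtype.val ⁻¹' (K1 n) with hK2
  have hK2s : Sig (⟨x, hxF⟩ : F) K2 := fun n =>
    ⟨(hK1s n).1.preimage continuous_subtype_val, (hK1s n).2⟩
  have hK2m : Monotone K2 := fun a b hab z hz => hK1m hab hz
  have hdense : Dense (⋃ n, K2 n) := by
    intro z
    rw [mem_closure_iff]
    rintro O hO hzO
    obtain ⟨O', hO', rfl⟩ := isOpen_induced_iff.mp hO
    have hz : (z : X) ∈ closure (⋃ n, K1 n) := z.2
    obtain ⟨y, hyO, hy⟩ := mem_closure_iff.mp hz O' hO' hzO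
    refine ⟨⟨y, subset_closure hy⟩, hyO, ?_⟩
    obtain ⟨n, hn⟩ := mem_iUnion.mp hy
    exact mem_iUnion.mpr ⟨n, hn⟩
  have hcof : r.cof = ℵ₁ := hA1 F ⟨x, hxF⟩ r hminF K2 hK2s hdense
  have hw : w1 ≤ r := by
    rw [w1, Cardinal.ord_le]
    rw [← hcof]
    exact Ordinal.cof_le_card r
  rcases hw.lt_or_eq with h | h
  · exact hC3 hMM F ⟨x, hxF⟩ r hminF h K2 hK2s hK2m hdense
  · subst h
    exact hC1 hMM F ⟨x, hxF⟩ hminF K2 hK2s hdense

end Pool.Agent.HCO
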