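import Pool.Agent.HCO.St4

/-!
# A1cnt: points outside a dense countable union of compact open sets are of countable character
-/

set_option autoImplicit false

universe u v w

open Set Topology Cardinal Ordinal Order Filter

namespace Pool.Agent.HCO

theorem thm_A1cnt (hD : St_Der.{u}) (hO : St_OCnt.{u}) : St_A1cnt.{u} := by
  intro X _ _ _ _ x r hM K hK hd p hp hpx
  obtain ⟨N, hN, hpN, hNx⟩ := compact_exists_isClopen_in_isOpen
    (isOpen_compl_singleton : IsOpen ({x}ᶜ : Set X)) (show p ∈ ({x}ᶜ : Set X) from hpx)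
  have hxN : x ∉ N := fun h => hNx h rfl
  have hord : IsOrd N := hM.small N hN.isClosed (fun h => hxN ((hD.iff X N r x).1 h).1)
  obtain ⟨O, hO1, hO2⟩ := hO X N p K hN.isClosed hord hpN
    (fun n => ⟨(hK n).1.isClosed, fun h => hp (mem_iUnion.2 ⟨n, h⟩)⟩)
    (hd.open_subset_closure_inter hN.isOpen hpN)
  exact ⟨fun n => O n ∩ N, fun n => ⟨(hO1 n).1.inter hN, (hO1 n).2, hpN⟩,
    fun z _ hz => hO2 z (hz 0).2 (fun n => (hz n).1)⟩

end Pool.Agent.HCO
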