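import Pool.Agent.HCO.St4

/-! Case A: the rank has cofinality `ℵ₁`. -/

set_option autoImplicit false

open Set Topology Cardinal Ordinal Order Filter

universe u v w

namespace Pool.Agent.HCO

/-- Let `⋃ K n` be dense. Then `r.cof = ℵ₁`. -/
theorem thm_A1cof (hD : St_Der.{u}) (hS : St_Small.{u}) (hA : St_A1cnt.{u}) (hR : St_R1.{u})
    (hZ : St_Z1.{u}) (hC : St_Club.{u}) : St_A1cof.{u} := by
  intro X _ _ _ _ x r hM K hK hden
  have hr : ℵ₀ < r.cof := hZ X x r hM
  have h1 : ∀ n, ∃ s < r, ∀ z ∈ K n, z ∉ der (univ : Set X) s := by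
    intro n
    obtain ⟨s, hs, h, _⟩ := hS X x r hM (K n) (hK n).1.1 (hK n).2
    exact ⟨s, hs, h⟩
  choose f hf1 hf2 using h1
  obtain ⟨s, hsr, hs⟩ := hC.supN r f hr hf1
  have hcnt : ∀ p ∈ der (univ : Set X) s, p ≠ x → Cnt (der (univ : Set X) s) p := by
    intro p hp hpx
    have h2 : p ∉ ⋃ n, K n := by
      intro h
      obtain ⟨n, hn⟩ := mem_iUnion.1 h
      exact hf2 n p hn (hD.sub X univ _ _ (hs n).le hp)
    obtain ⟨O, hO1, hO2⟩ := hA X x r hM K hK hden p h2 hpx
    exact ⟨O, hO1, fun z _ h => hO2 z (mem_univ z) h⟩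
  have h2 := hR X x (der (univ : Set X) s) hM.scat (hD.closed X _ _ isClosed_univ) hcnt
  rw [hD.add] at h2
  have hxr : x ∈ der (univ : Set X) r := by
    rw [hM.top]
    exact rfl
  have h3 : r ≤ s + w1 := by
    by_contra hc
    have h4 : s + (w1 + 1) ≤ r := by
      rw [← add_assoc, ← Order.succ_eq_add_one]
      exact Order.succ_le_of_lt (not_le.1 hc)
    exact h2 (hD.sub X univ _ _ h4 hxr)
  have h4 : s + (r - s) = r := Ordinal.add_sub_cancel_of_le hsr.le
  have h5 : r - s ≤ w1 := by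
    rw [← h4] at h3
    exact (add_le_add_iff_left s).1 h3
  have h6 : r - s ≠ 0 := by
    intro h
    rw [h, add_zero] at h4
    exact hsr.ne h4
  have h7 : (r - s).cof = r.cof := by
    conv_rhs => rw [← h4]
    exact (cof_add s h6).symm
  rcases h5.lt_or_eq with h8 | h8
  · exfalso
    rw [← h7] at hr
    have h9 : (r - s).card < ℵ₁ := by
      rw [← Cardinal.lt_ord]
      exact h8
    have h10 : (r - s).card ≤ ℵ₀ := by
      rw [← succ_aleph0] at h9
      exact Order.lt_succ_iff.1 h9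
    exact absurd hr (not_lt.2 ((cof_le_card _).trans h10))
  · rw [← h7, h8]
    exact isRegular_aleph_one.cof_ord

end Pool.Agent.HCO
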