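import Pool.Agent.HCO.St3

/-!
# Case B: a minimal counterexample with a filtration
-/

set_option autoImplicit false

open Set Topology Cardinal Ordinal Order Filter

universe u v w

namespace Pool.Agent.HCO

theorem thm_B (hBM : St_BigMin.{u}) (hB2 : St_B2.{u}) (hB3 : St_B3.{u}) (hTH : St_TH.{u}) :
    St_B.{u} := by
  intro X _ _ _ _ x r hmin hNB
  obtain ⟨μ, K, hreg, hunc, hpre, hx, hcl⟩ := hB3 X x r hmin hNB
  set U : Set X := Uu K μ.ord with hU
  have hxU : x ∉ U := by
    rintro ⟨a, ha, hxa⟩
    exact hpre.notin a ha hxa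
  have hUo : IsOpen U := by
    have : U = ⋃ a ∈ Iio μ.ord, K a := by
      ext z
      simp only [hU, Uu, mem_ofPred_eq, mem_iUnion, mem_Iio, exists_prop]
    rw [this]
    exact isOpen_biUnion (fun a ha => (hpre.clopen a ha).2)
  set G : Set X := insert x U with hG
  have hGU : G \ {x} = U := by
    ext z
    simp only [hG, Set.mem_sdiff, mem_insert_iff, mem_singleton_iff]
    constructor
    · rintro ⟨h | h, h'⟩
      · exact absurd h h'
      · exact h
    · intro h
      exact ⟨Or.inr h, fun e => hxU (e ▸ h)⟩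
  have hacc : AccPt x (𝓟 G) := by
    rw [accPt_iff_frequently]
    rw [mem_closure_iff_frequently] at hx
    refine hx.mono ?_
    intro y hy
    exact ⟨fun e => hxU (e ▸ hy), Or.inr hy⟩
  have hbig : x ∈ der G r := hB2 X x r hmin hNB G hcl (by rw [hGU]; exact hUo) hacc
  have hxG : x ∈ G := Or.inl rfl
  have : CompactSpace G := isCompact_iff_compactSpace.mp hcl.isCompact
  have hminG : Min G ⟨x, hxG⟩ r := hBM X x r hmin G hcl hbig hxG
  set K' : Ordinal.{u} → Set G := fun a => Subtype.val ⁻¹' (K a) with hK'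
  have hfilt : Filt (⟨x, hxG⟩ : G) μ K' := by
    refine ⟨⟨?_, ?_, ?_, ?_⟩, hreg, hunc, ?_⟩
    · intro a ha
      exact (hpre.clopen a ha).preimage continuous_subtype_val
    · intro a ha h
      exact hpre.notin a ha h
    · intro a b hab hb z hz
      exact hpre.mono a b hab hb hz
    · intro l hl z hz
      apply hpre.cl l hl
      have h1 : (z : X) ∈ closure (Subtype.val '' (Uu K' l)) := by
        exact image_closure_subset_closure_image continuous_subtype_val ⟨z, hz, rfl⟩
      refine closure_mono ?_ h1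
      rintro _ ⟨w, ⟨a, ha, hw⟩, rfl⟩
      exact ⟨a, ha, hw⟩
    · intro z hz
      have hz' : (z : X) ∈ U := by
        rcases z.2 with h | h
        · exact absurd (Subtype.ext h) hz
        · exact h
      obtain ⟨a, ha, hw⟩ := hz'
      exact ⟨a, ha, hw⟩
  obtain ⟨_, K'', hK''⟩ := hTH G ⟨x, hxG⟩ r μ K' hminG hfilt
  exact ⟨G, inferInstance, inferInstance, inferInstance, inferInstance, ⟨x, hxG⟩, μ, K'', hminG,
    hK''⟩

end Pool.Agent.HCO
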