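import Pool.Agent.HCO.St4

/-!
# Module B2: no small noncompact clopen piece
-/

set_option autoImplicit false

open Set Topology Cardinal Ordinal Order Filter

universe u v w

namespace Pool.Agent.HCO

section gen

variable {X : Type u} [TopologicalSpace X]

private theorem B2_acc_mono {x : X} {A B : Set X} (h : AccPt x (𝓟 A)) (hAB : A ⊆ B) :
    AccPt x (𝓟 B) := h.mono (principal_mono.mpr hAB)

private theorem B2_acc_self {x : X} {A : Set X} (hA : A ⊆ {x}) : ¬ AccPt x (𝓟 A) := by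
  intro h
  obtain ⟨y, ⟨_, hy⟩, hyx⟩ := accPt_iff_nhds.mp h univ univ_mem
  exact hyx (hA hy)

private theorem B2_acc_mem {x : X} {A : Set X} (hA : IsClosed A) (h : AccPt x (𝓟 A)) : x ∈ A := by
  by_contra hcon
  obtain ⟨y, ⟨hy1, hy2⟩, _⟩ := accPt_iff_nhds.mp h _ (hA.isOpen_compl.mem_nhds hcon)
  exact hy1 hy2

private theorem B2_acc_inter {x : X} {A U : Set X} (h : AccPt x (𝓟 A)) (hU : IsOpen U)
    (hx : x ∈ U) : AccPt x (𝓟 (A ∩ U)) := by
  rw [accPt_iff_nhds] at h ⊢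
  intro V hV
  obtain ⟨y, ⟨⟨hy1, hy2⟩, hy3⟩, hy4⟩ := h (V ∩ U) (inter_mem hV (hU.mem_nhds hx))
  exact ⟨y, ⟨hy1, hy3, hy2⟩, hy4⟩

/-- no countable character in a set which accumulates at `x` -/
private theorem B2_notCnt {x : X} {H : Set X} (hNB : NB X x) (h : AccPt x (𝓟 H)) :
    ¬ Cnt H x := by
  rintro ⟨O, hO, hO2⟩
  apply hNB (fun n => (O n)ᶜ) (fun n => ⟨(hO n).1.compl, fun hx => hx (hO n).2⟩)
  rw [mem_closure_iff]
  intro V hV hxV
  obtain ⟨y, ⟨hy1, hy2⟩, hy3⟩ := accPt_iff_nhds.mp h V (hV.mem_nhds hxV)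
  refine ⟨y, hy1, ?_⟩
  by_contra hcon
  apply hy3
  apply hO2 y hy2
  intro n
  by_contra hn
  exact hcon (mem_iUnion.mpr ⟨n, hn⟩)

/-- the part of `F` which is mapped to `G` -/
private def B2_pre {F U : Set X} (e : F ≃ₜ U) (G : Set X) : Set X :=
  {z | ∃ h : z ∈ F, ((e ⟨z, h⟩ : U) : X) ∈ G}

private theorem B2_closed {F U : Set X} (e : F ≃ₜ U) {G : Set X} (hF : IsClosed F)
    (hG : IsClosed G) : IsClosed (B2_pre e G) := by
  have h1 : B2_pre e G = (fun z : F => (z : X)) '' {z : F | ((e z : U) : X) ∈ G} := by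
    ext z
    constructor
    · rintro ⟨h, h2⟩
      exact ⟨⟨z, h⟩, h2, rfl⟩
    · rintro ⟨z', hz', rfl⟩
      exact ⟨z'.2, hz'⟩
  rw [h1]
  apply hF.isClosedEmbedding_subtypeVal.isClosedMap
  exact hG.preimage (continuous_subtype_val.comp e.continuous)

/-- the restricted homeomorphism -/
private def B2_homeo {F U : Set X} (e : F ≃ₜ U) (G : Set X) :
    B2_pre e G ≃ₜ (G ∩ U : Set X) where
  toFun z := ⟨((e ⟨z.1, z.2.1⟩ : U) : X), z.2.2, (e ⟨z.1, z.2.1⟩).2⟩
  invFun w := ⟨((e.symm ⟨w.1, w.2.2⟩ : F) : X), (e.symm ⟨w.1, w.2.2⟩).2, by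
    have h : e ⟨((e.symm ⟨w.1, w.2.2⟩ : F) : X), (e.symm ⟨w.1, w.2.2⟩).2⟩ = ⟨w.1, w.2.2⟩ :=
      e.apply_symm_apply _
    rw [h]
    exact w.2.1⟩
  left_inv z := by
    apply Subtype.ext
    change ((e.symm (e ⟨z.1, z.2.1⟩) : F) : X) = z.1
    rw [e.symm_apply_apply]
  right_inv w := by
    apply Subtype.ext
    change ((e (e.symm ⟨w.1, w.2.2⟩) : U) : X) = w.1
    rw [e.apply_symm_apply]
  continuous_toFun := by
    refine Continuous.subtype_mk ?_ _
    refine continuous_subtype_val.comp (e.continuous.comp ?_)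
    exact Continuous.subtype_mk continuous_subtype_val _
  continuous_invFun := by
    refine Continuous.subtype_mk ?_ _
    refine continuous_subtype_val.comp (e.symm.continuous.comp ?_)
    exact Continuous.subtype_mk continuous_subtype_val _

end gen

theorem thm_B2 (hDer : St_Der.{u}) (hBig : St_Big.{u}) (hOAcc : St_OAcc.{u}) : St_B2.{u} := by
  classical
  intro X _ _ _ _ x r hMin hNB G hG hGo hacc
  by_contra hsm
  have hxG : x ∈ G := B2_acc_mem hG hacc
  have hG' : IsClosed ((G \ {x})ᶜ) := hGo.isClosed_compl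
  have hxG' : x ∈ ((G \ {x})ᶜ : Set X) := fun h => h.2 rfl
  have hun : G ∪ (G \ {x})ᶜ = (Set.univ : Set X) := by
    rw [eq_univ_iff_forall]
    intro z
    by_cases hz : z ∈ G
    · exact Or.inl hz
    · exact Or.inr fun h => hz h.1
  have hbig : x ∈ der ((G \ {x})ᶜ) r := by
    have h1 := hDer.union X G _ r hG hG'
    rw [hun, hMin.top] at h1
    have h2 : x ∈ der G r ∪ der ((G \ {x})ᶜ) r := by
      rw [← h1]
      rfl
    exact h2.resolve_left hsm
  obtain ⟨U, e, hU, hxU, hex⟩ := hBig X x r hMin _ hG' hbig hxG'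
  have hpre : IsClosed (B2_pre e G) := B2_closed e hG' hG
  have hxpre : x ∈ B2_pre e G := ⟨hxG', by rw [hex]; exact hxG⟩
  have hmap : ((B2_homeo e G ⟨x, hxpre⟩ : (G ∩ U : Set X)) : X) = x := hex
  -- the preimage is small
  have hsm2 : x ∉ der (B2_pre e G) r := by
    intro h
    have h1 := (hDer.homeo X X (B2_pre e G) (G ∩ U) (B2_homeo e G) r ⟨x, hxpre⟩).mp h
    rw [hmap] at h1
    exact hsm (hDer.mono X _ _ r inter_subset_left h1)
  -- and accumulates at `x`
  have hacc2 : AccPt x (𝓟 (B2_pre e G)) := by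
    have h1 : x ∈ der (G ∩ U) 1 := by
      rw [hDer.iff]
      refine ⟨⟨hxG, hxU⟩, ?_⟩
      intro e' he'
      have h0 : e' = 0 := by
        rw [← Order.lt_one_iff]
        exact he'
      rw [h0, hDer.zero]
      exact B2_acc_inter hacc hU.isOpen hxU
    have h2 : x ∈ der (B2_pre e G) 1 := by
      have h3 := (hDer.homeo X X (B2_pre e G) (G ∩ U) (B2_homeo e G) 1 ⟨x, hxpre⟩).mpr
      rw [hmap] at h3
      exact h3 h1
    have h3 := ((hDer.iff X _ 1 x).mp h2).2 0 zero_lt_one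
    rw [hDer.zero] at h3
    exact h3
  have hint : G ∩ B2_pre e G ⊆ {x} := by
    rintro z ⟨hz1, hz2, _⟩
    by_contra hcon
    exact hz2 ⟨hz1, hcon⟩
  have hH : IsClosed (G ∪ B2_pre e G) := hG.union hpre
  have hHord : IsOrd (G ∪ B2_pre e G) := by
    apply hMin.small _ hH
    rw [hDer.union X G _ r hG hpre]
    rintro (h | h)
    · exact hsm h
    · exact hsm2 h
  have hHacc : AccPt x (𝓟 (G ∪ B2_pre e G)) := B2_acc_mono hacc subset_union_left
  have h1 := hOAcc X (G ∪ B2_pre e G) x (fun n => if n = 0 then G else B2_pre e G) hH hHord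
    (Or.inl hxG) (B2_notCnt hNB hHacc) (by
      intro n
      by_cases hn : n = 0
      · simp only [if_pos hn]
        refine ⟨hG, B2_acc_mono hacc fun z hz => ⟨Or.inl hz, hz⟩⟩
      · simp only [if_neg hn]
        refine ⟨hpre, B2_acc_mono hacc2 fun z hz => ⟨Or.inr hz, hz⟩⟩)
  refine B2_acc_self ?_ h1
  rintro z ⟨_, hz⟩
  rw [mem_iInter] at hz
  have hz0 := hz 0
  have hz1 := hz 1
  simp only [if_true] at hz0
  simp only [if_neg one_ne_zero] at hz1
  exact hint ⟨hz0, hz1⟩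

end Pool.Agent.HCO
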