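import Pool.Agent.HCO.St4

set_option autoImplicit false

open Set Topology Cardinal Ordinal Order Filter

universe u v w

namespace Pool.Agent.HCO

theorem thm_B3 (h1 : St_Chain.{u}) (h2 : St_FB.{u}) : St_B3.{u} := by
  intro X _ _ _ _ x r hMin hNB
  obtain ⟨μ, K, hreg, hunc, hpre, hx⟩ := h1 X x r hMin hNB
  have hcof : ℵ₀ < μ.ord.cof := by
    rw [hreg.cof_ord]
    exact hunc
  have hfin : (Bd K μ.ord \ {x}).Finite := by
    by_contra hinf
    have hinf : (Bd K μ.ord \ {x}).Infinite := hinf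
    let f := hinf.natEmbedding
    have hV : ∀ n, ∃ V : Set X, IsClopen V ∧ (f n : X) ∈ V ∧ V ⊆ {x}ᶜ := fun n =>
      compact_exists_isClopen_in_isOpen isOpen_compl_singleton (fun h => (f n).2.2 h)
    choose V hV1 hV2 hV3 using hV
    have hA : (range fun n => (f n : X)).Infinite :=
      infinite_range_of_injective (Subtype.val_injective.comp f.injective)
    have hAx := h2 X x r hMin μ.ord K hpre hcof (range fun n => (f n : X))
      (by
        rintro _ ⟨n, rfl⟩
        exact (f n).2.1) hA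
    refine hNB V (fun n => ⟨hV1 n, fun h => hV3 n h rfl⟩) (closure_mono ?_ hAx)
    rintro _ ⟨n, rfl⟩
    exact mem_iUnion.mpr ⟨n, hV2 n⟩
  obtain ⟨V, hV1, hV2, hV3⟩ := compact_exists_isClopen_in_isOpen hfin.isClosed.isOpen_compl
    (fun h : x ∈ Bd K μ.ord \ {x} => h.2 rfl)
  have hU : ∀ l, Uu (fun a => K a ∩ V) l = Uu K l ∩ V := by
    intro l
    ext z
    constructor
    · rintro ⟨a, ha, hz⟩
      exact ⟨⟨a, ha, hz.1⟩, hz.2⟩
    · rintro ⟨⟨a, ha, hz⟩, hzV⟩
      exact ⟨a, ha, hz, hzV⟩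
  have hclo : ∀ l, closure (Uu (fun a => K a ∩ V) l) ⊆ closure (Uu K l) ∩ V := by
    intro l z hz
    rw [hU] at hz
    exact ⟨closure_mono inter_subset_left hz,
      closure_minimal inter_subset_right hV1.isClosed hz⟩
  refine ⟨μ, fun a => K a ∩ V, hreg, hunc, ⟨fun a ha => (hpre.clopen a ha).inter hV1,
    fun a ha h => hpre.notin a ha h.1, fun a b hab hb z hz => ⟨hpre.mono a b hab hb hz.1, hz.2⟩,
    fun l hl z hz => ?_⟩, ?_, ?_⟩
  · have h := hclo l hz
    exact ⟨hpre.cl l hl h.1, h.2⟩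
  · rw [mem_closure_iff]
    intro O hO hxO
    obtain ⟨z, hz, hz'⟩ := mem_closure_iff.mp hx (O ∩ V) (hO.inter hV1.isOpen) ⟨hxO, hV2⟩
    refine ⟨z, hz.1, ?_⟩
    rw [hU]
    exact ⟨hz', hz.2⟩
  · refine isClosed_of_closure_subset ?_
    rw [insert_eq, closure_union, closure_singleton]
    rintro z (hz | hz)
    · exact Or.inl hz
    · have h := hclo μ.ord hz
      by_cases hzU : z ∈ Uu K μ.ord
      · right
        rw [hU]
        exact ⟨hzU, h.2⟩
      · left
        by_contra hzx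
        exact hV3 h.2 ⟨⟨h.1, hzU⟩, hzx⟩

end Pool.Agent.HCO
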