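import Pool.Agent.HCO.St4

/-!
# HCO [BL]: boundaries of uncountable cofinality in filtrations are finite
-/

set_option autoImplicit false

open Set Topology Cardinal Ordinal Order Filter

universe u v w

namespace Pool.Agent.HCO

theorem thm_BL (h1 : St_FB.{u}) (h2 : St_Filt.{u}) : St_BL.{u} := by
  intro X _ _ _ _ x r μ K hMin hK l hl hcof
  by_contra hinf
  have hpre : PreFilt x l K :=
    { clopen := fun a ha => hK.clopen a (ha.trans hl)
      notin := fun a ha => hK.notin a (ha.trans hl)
      mono := fun a b hab hb => hK.mono a b hab (hb.trans hl)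
      cl := fun a ha => hK.cl a (ha.trans hl) }
  have h3 := h1 X x r hMin l K hpre hcof (Bd K l) subset_rfl hinf
  rw [(h2.closedBd X x μ.ord K hK.toPreFilt l hl.le).closure_eq] at h3
  exact hK.notin l hl (hK.cl l hl h3.1)

end Pool.Agent.HCO
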