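import Pool.Agent.HCO.St4

set_option autoImplicit false

open Set Topology Cardinal Ordinal Order Filter

universe u v w

namespace Pool.Agent.HCO

private theorem Big_finite {X : Type u} [TopologicalSpace X] [T2Space X] [Finite X] :
    IsOrd (univ : Set X) := by
  refine ⟨fun z => ((Finite.equivFin X z : ℕ) : Ordinal.{u}), ?_, ?_⟩
  · intro a _ b _ h
    have h1 : ((Finite.equivFin X a : ℕ) : Ordinal.{u}) = ((Finite.equivFin X b : ℕ)) := h
    have h2 := Nat.cast_injective h1
    exact (Finite.equivFin X).injective (Fin.ext h2)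
  · intro a _
    refine ⟨{z | ((Finite.equivFin X z : ℕ) : Ordinal.{u}) ≤ ((Finite.equivFin X a : ℕ))}, ?_, ?_⟩
    · exact isClopen_discrete _
    · intro z _
      exact Iff.rfl

theorem thm_Big (hD : St_Der.{u}) : St_Big.{u} := by
  intro X _ _ _ _ x r hmin F hF hx hxF
  have hinf : (univ : Set X).Infinite := by
    intro hfin
    have : Finite X := Set.finite_univ_iff.1 hfin
    exact hmin.nord Big_finite
  have hco := hmin.hco univ isClosed_univ hinf
  let h : (univ : Set X) ≃ₜ X := Homeomorph.Set.univ X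
  obtain ⟨U', hU', ⟨e'⟩⟩ := hco (h.symm '' F) ((h.symm.isClosedMap) F hF)
  let e : F ≃ₜ (h '' U' : Set X) := (h.symm.image F).trans (e'.trans (h.image U'))
  have hU : IsClopen (h '' U') := ⟨h.isClosedMap _ hU'.1, h.isOpenMap _ hU'.2⟩
  have h1 := (hD.homeo X X F (h '' U') e r ⟨x, hxF⟩).1 hx
  have h2 := hD.mono X (h '' U') univ r (subset_univ _) h1
  rw [hmin.top] at h2
  have h3 : ((e ⟨x, hxF⟩ : (h '' U' : Set X)) : X) = x := h2
  refine ⟨h '' U', e, hU, ?_, h3⟩
  have h4 := (e ⟨x, hxF⟩).2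
  rw [h3] at h4
  exact h4

end Pool.Agent.HCO
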