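import Pool.Agent.HCO.St4

set_option autoImplicit false

open Set Topology Cardinal Ordinal Order Filter

universe u v w

namespace Pool.Agent.HCO

private theorem BigMin_co (Z W : Type u) [TopologicalSpace Z] [TopologicalSpace W] (e : Z ≃ₜ W)
    (h : IsCO Z) : IsCO W := by
  intro F hF
  obtain ⟨U, hU, ⟨f⟩⟩ := h (e ⁻¹' F) (hF.preimage e.continuous)
  refine ⟨e '' U, ⟨e.isClosedMap U hU.isClosed, e.isOpenMap U hU.isOpen⟩, ⟨?_⟩⟩
  have h1 : e '' (e ⁻¹' F) = F := image_preimage_eq F e.surjective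
  have g1 : F ≃ₜ (e '' (e ⁻¹' F) : Set W) := Homeomorph.setCongr h1.symm
  exact (g1.trans (e.isEmbedding.homeomorphImage (e ⁻¹' F)).symm).trans
    (f.trans (e.isEmbedding.homeomorphImage U))

theorem thm_BigMin (hD : St_Der.{u}) (hB : St_BigNot.{u}) (hT : St_OTr.{u}) :
    St_BigMin.{u} := by
  intro X _ _ _ _ x r hmin F hF hxr hx _
  have hemb : IsEmbedding (Subtype.val : F → X) := IsEmbedding.subtypeVal
  have hcl : ∀ G : Set F, IsClosed G → IsClosed (Subtype.val '' G : Set X) := fun G hG =>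
    hF.isClosedEmbedding_subtypeVal.isClosedMap G hG
  refine ⟨?_, ?_, ?_, ?_, ?_⟩
  · intro G hG hGi
    have h1 : (Subtype.val '' G : Set X).Infinite :=
      hGi.image Subtype.val_injective.injOn
    exact BigMin_co _ _ (hemb.homeomorphImage G).symm (hmin.hco _ (hcl G hG) h1)
  · intro G hG hGn
    obtain ⟨z, hz, hacc⟩ := hmin.scat _ (hcl G hG) (hGn.image _)
    obtain ⟨y, hy, rfl⟩ := hz
    refine ⟨y, hy, fun h => hacc ?_⟩
    rw [accPt_iff_nhds] at h ⊢
    intro U hU
    obtain ⟨w, hw, hwy⟩ := h (Subtype.val ⁻¹' U) (continuous_subtype_val.continuousAt hU)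
    exact ⟨w, ⟨hw.1, w, hw.2, rfl⟩, fun h => hwy (Subtype.ext h)⟩
  · ext z
    rw [hD.emb X F univ r z, image_univ, Subtype.range_coe, mem_singleton_iff]
    constructor
    · intro hz
      have h1 := hD.mono X F univ r (subset_univ _) hz
      rw [hmin.top] at h1
      exact Subtype.ext h1
    · intro hz
      rw [hz]
      exact hxr
  · intro h
    exact hB X x r hmin F hF hxr
      (hT F X univ F isClosed_univ hF (Homeomorph.Set.univ F) h)
  · intro G hG hxG
    have h1 : x ∉ der (Subtype.val '' G : Set X) r := by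
      intro h
      exact hxG ((hD.emb X F G r ⟨x, hx⟩).2 h)
    exact hT X F _ G (hcl G hG) hG (hemb.homeomorphImage G).symm (hmin.small _ (hcl G hG) h1)

end Pool.Agent.HCO
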