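import Pool.Agent.HCO.St4

set_option autoImplicit false

open Set Topology Cardinal Ordinal Order Filter

universe u v w

namespace Pool.Agent.HCO

theorem thm_BigNot (hD : St_Der.{u}) (hB : St_Big.{u}) (hT : St_OTr.{u}) (hU : St_OUnion.{u}) :
    St_BigNot.{u} := by
  intro X _ _ _ _ x r hmin F hF hx hord
  have hxF : x ∈ F := ((hD.iff X F r x).1 hx).1
  obtain ⟨U, e, hUc, hxU, _⟩ := hB X x r hmin F hF hx hxF
  have h1 : IsOrd U := hT X X F U hF hUc.1 e hord
  have h2 : IsOrd Uᶜ := hmin.small Uᶜ hUc.2.isClosed_compl fun hc =>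
    (((hD.iff X Uᶜ r x).1 hc).1) hxU
  have h3 := hU X U Uᶜ hUc.1 hUc.2.isClosed_compl disjoint_compl_right h1 h2
  rw [union_compl_self] at h3
  exact hmin.nord h3

end Pool.Agent.HCO
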