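import Pool.Agent.HCO.St4

/-!
# [C1] the case of rank `ω₁`
-/

set_option autoImplicit false

open Set Topology Cardinal Ordinal Order Filter

universe u v w

namespace Pool.Agent.HCO

private theorem c1_card {s : Ordinal.{u}} (hs : s < w1) : s.card ≤ ℵ₀ := by
  have h3 : s.card < Cardinal.aleph 1 := Cardinal.lt_ord.1 hs
  rw [← Cardinal.succ_aleph0] at h3
  exact Order.lt_succ_iff.mp h3

private theorem c1_Iio (b : Ordinal.{u}) (hb : b < w1) : (Iio b).Countable := by
  rw [← Cardinal.le_aleph0_iff_set_countable, Cardinal.mk_Iio_ordinal]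
  rw [← Cardinal.lift_aleph0.{u+1, u}]
  exact Cardinal.lift_le.mpr (c1_card hb)

private theorem c1_ctbl (hS : St_Small.{u}) (X : Type u) [TopologicalSpace X] [CompactSpace X]
    [T2Space X] [TotallyDisconnectedSpace X] (x : X) (hm : Min X x w1) (A : Set X)
    (hA : IsClosed A) (hx : x ∉ A) : A.Countable := by
  obtain ⟨s, hs, -, h⟩ := hS X x w1 hm A hA hx
  rw [← Cardinal.le_aleph0_iff_set_countable]
  exact h.trans (max_le (c1_card hs) le_rfl)

/-- A clopen neighbourhood missing `x`. -/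
private theorem c1_nb {X : Type u} [TopologicalSpace X] [CompactSpace X] [T2Space X]
    [TotallyDisconnectedSpace X] (x y : X) (h : y ≠ x) :
    ∃ V : Set X, IsClopen V ∧ y ∈ V ∧ x ∉ V := by
  obtain ⟨V, hV, hy, hsub⟩ := compact_exists_isClopen_in_isOpen
    (isOpen_compl_singleton (x := x)) (show y ∈ ({x}ᶜ : Set X) from h)
  exact ⟨V, hV, hy, fun hx => hsub hx rfl⟩

private noncomputable def c1_seq {X : Type u} [TopologicalSpace X] (x : X) :
    Ordinal.{u} → X × Set X :=
  open Classical in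
  WellFounded.fix Ordinal.lt_wf fun a ih =>
    if h : ∃ p : X × Set X, (IsClopen p.2 ∧ p.1 ∈ p.2 ∧ x ∉ p.2) ∧
      ∀ b (hb : b < a), p.1 ∉ (ih b hb).2 then h.choose else (x, ∅)

private theorem c1_seq_spec {X : Type u} [TopologicalSpace X] (x : X) (a : Ordinal.{u})
    (h : ∃ p : X × Set X, (IsClopen p.2 ∧ p.1 ∈ p.2 ∧ x ∉ p.2) ∧
      ∀ b < a, p.1 ∉ (c1_seq x b).2) :
    (IsClopen (c1_seq x a).2 ∧ (c1_seq x a).1 ∈ (c1_seq x a).2 ∧ x ∉ (c1_seq x a).2) ∧
      ∀ b < a, (c1_seq x a).1 ∉ (c1_seq x b).2 := by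
  have h1 : c1_seq x a = h.choose := by
    conv_lhs => rw [c1_seq, WellFounded.fix_eq]
    exact dif_pos h
  rw [h1]
  exact h.choose_spec

private theorem c1_all (hN : St_NSig.{u}) (X : Type u) [TopologicalSpace X]
    [CompactSpace X] [T2Space X] [TotallyDisconnectedSpace X] (x : X) (hm : Min X x w1) :
    ∀ a : Ordinal.{u}, a < w1 →
    (IsClopen (c1_seq x a).2 ∧ (c1_seq x a).1 ∈ (c1_seq x a).2 ∧ x ∉ (c1_seq x a).2) ∧
      ∀ b < a, (c1_seq x a).1 ∉ (c1_seq x b).2 := by
  intro a
  induction a using WellFoundedLT.induction with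
  | ind a ih =>
    intro ha
    apply c1_seq_spec
    by_contra hcon
    -- all points are covered
    have hcov : ∀ z, z ≠ x → ∃ b < a, z ∈ (c1_seq x b).2 := by
      intro z hz
      by_contra h2
      push Not at h2
      obtain ⟨V, hV, hzV, hxV⟩ := c1_nb x z hz
      exact hcon ⟨(z, V), ⟨hV, hzV, hxV⟩, h2⟩
    by_cases h0 : (Iio a).Nonempty
    · obtain ⟨e, he⟩ := (c1_Iio a ha).exists_eq_range h0
      have hea : ∀ n, e n < a := fun n => by
        have : e n ∈ Iio a := he ▸ Set.mem_range_self n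
        exact this
      apply hN X x w1 hm
      refine ⟨fun n => (c1_seq x (e n)).2, fun n => ?_, fun z hz => ?_⟩
      · have h3 := (ih (e n) (hea n) ((hea n).trans ha)).1
        exact ⟨h3.1.1, h3.2.2⟩
      · obtain ⟨b, hb, hzb⟩ := hcov z hz
        have h4 : b ∈ Set.range e := he ▸ (show b ∈ Iio a from hb)
        obtain ⟨n, rfl⟩ := h4
        exact ⟨n, hzb⟩
    · apply hN X x w1 hm
      refine ⟨fun _ => ∅, fun n => ⟨isClosed_empty, fun h => h⟩, fun z hz => ?_⟩
      obtain ⟨b, hb, -⟩ := hcov z hz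
      exact absurd ⟨b, hb⟩ h0

theorem thm_C1 (hct : St_C1ct.{u}) (hpow : St_CTpow.{u}) (hszm : St_Szm.{u}) (hS : St_Small.{u})
    (hN : St_NSig.{u}) (hB : St_Big.{u}) (hD : St_Der.{u}) (hO : St_OSize.{u}) : St_C1.{u} := by
  intro hMM X _ _ _ _ x hm K hK hdense
  obtain ⟨y, V, hVc, hyV⟩ : ∃ (y : Ordinal.{u} → X) (V : Ordinal.{u} → Set X),
      (∀ a < w1, IsClopen (V a) ∧ y a ∈ V a ∧ x ∉ V a) ∧
      ∀ a b, a < b → b < w1 → y b ∉ V a :=
    ⟨fun a => (c1_seq x a).1, fun a => (c1_seq x a).2, fun a ha => (c1_all hN X x hm a ha).1,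
      fun a b hab hb => (c1_all hN X x hm b hb).2 a hab⟩
  obtain ⟨A, hA1, hA2, hA3⟩ := hszm hMM X (hpow X (hct X x hm K hK hdense)) y V
    (fun a ha => ⟨(hVc a ha).1, (hVc a ha).2.1⟩) hyV
  -- injectivity
  have hinj : Set.InjOn y A := by
    intro a ha b hb hab
    rcases lt_trichotomy a b with h | h | h
    · exact absurd (hab ▸ (hVc a (hA1 ha)).2.1) (hyV a b h (hA1 hb))
    · exact h
    · exact absurd (hab.symm ▸ (hVc b (hA1 hb)).2.1) (hyV b a h (hA1 ha))
  have hunc : ¬ (y '' A).Countable := fun h => hA2 (Set.countable_of_injective_of_countable_image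
    hinj h)
  -- the closed set
  set F : Set X := insert x (closure (y '' A)) with hF
  have hFc : IsClosed F := by
    rw [hF, Set.insert_eq]
    exact isClosed_singleton.union isClosed_closure
  have hxF : x ∈ F := Set.mem_insert _ _
  have hsub : y '' A ⊆ F := subset_closure.trans (Set.subset_insert _ _)
  have hiso : ∀ b ∈ A, ∀ z ∈ F, z ∈ V b → z = y b := by
    intro b hb z hz hzV
    have hVb := hVc b (hA1 hb)
    rcases hz with h | h
    · exact absurd (h ▸ hzV) hVb.2.2
    · have h1 : z ∈ closure (V b ∩ y '' A) :=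
        hVb.1.2.inter_closure ⟨hzV, h⟩
      have h2 : V b ∩ y '' A ⊆ {y b} := by
        rintro _ ⟨h3, a, ha, rfl⟩
        rcases lt_trichotomy a b with h4 | h4 | h4
        · exact absurd h3 (hA3 a ha b hb h4)
        · rw [h4]
          exact Set.mem_singleton _
        · exact absurd h3 (hyV b a h4 (hA1 ha))
      have h3 := closure_mono h2 h1
      rw [closure_singleton] at h3
      exact h3
  -- `F` is big
  have hbig : x ∈ der F w1 := by
    by_contra hcon
    have h1 : der F w1 = ∅ := by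
      rw [Set.eq_empty_iff_forall_notMem]
      intro z hz
      have h2 : z ∈ der (Set.univ : Set X) w1 := hD.mono X F Set.univ w1 (Set.subset_univ _) hz
      rw [hm.top] at h2
      rw [Set.mem_singleton_iff] at h2
      exact hcon (h2 ▸ hz)
    have hlim : IsSuccLimit (w1.{u}) := Cardinal.isSuccLimit_ord
      (Cardinal.isRegular_aleph_one).aleph0_le
    obtain ⟨s, hs, h2⟩ := hD.compact X F w1 hFc hlim h1
    have h3 := hO X F s hFc (hm.small F hFc hcon) h2
    have h4 : F.Countable := by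
      rw [← Cardinal.le_aleph0_iff_set_countable]
      exact h3.trans (max_le (c1_card hs) le_rfl)
    exact hunc (h4.mono hsub)
  obtain ⟨U, e, hU, -, -⟩ := hB X x w1 hm F hFc hbig hxF
  -- the countable dense set contains all isolated points
  have hKc : (⋃ n, K n).Countable :=
    Set.countable_iUnion fun n => c1_ctbl hS X x hm (K n) (hK n).1.1 (hK n).2
  apply hunc
  have hmaps : ∀ z ∈ y '' A, ∃ h : z ∈ F, ((e ⟨z, h⟩ : U) : X) ∈ ⋃ n, K n := by
    rintro _ ⟨b, hb, rfl⟩
    have hz : y b ∈ F := hsub ⟨b, hb, rfl⟩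
    refine ⟨hz, ?_⟩
    have ho1 : IsOpen ({⟨y b, hz⟩} : Set F) := by
      have h5 : ({⟨y b, hz⟩} : Set F) = Subtype.val ⁻¹' (V b) := by
        ext w
        rw [Set.mem_singleton_iff, Set.mem_preimage, Subtype.ext_iff]
        constructor
        · intro h6
          rw [h6]
          exact (hVc b (hA1 hb)).2.1
        · intro h6
          exact hiso b hb w.1 w.2 h6
      rw [h5]
      exact (hVc b (hA1 hb)).1.2.preimage continuous_subtype_val
    have ho2 : IsOpen (Subtype.val '' (e '' ({⟨y b, hz⟩} : Set F)) : Set X) :=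
      hU.2.isOpenMap_subtype_val _ (e.isOpenMap _ ho1)
    rw [Set.image_singleton, Set.image_singleton] at ho2
    obtain ⟨w, hw1, hw2⟩ := hdense.inter_open_nonempty _ ho2 (Set.singleton_nonempty _)
    rw [Set.mem_singleton_iff] at hw1
    rw [← hw1]
    exact hw2
  -- countability
  have hcj : (Subtype.val '' (e ⁻¹' (Subtype.val ⁻¹' (⋃ n, K n))) : Set X).Countable := by
    refine Set.Countable.image ?_ _
    refine Set.Countable.preimage_of_injOn ?_ e.injective.injOn
    exact hKc.preimage_of_injOn Subtype.val_injective.injOn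
  refine hcj.mono ?_
  intro z hz
  obtain ⟨h, h'⟩ := hmaps z hz
  exact ⟨⟨z, h⟩, h', rfl⟩

end Pool.Agent.HCO
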