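import Pool.Agent.HCO.St4

/-! # [C1ct] countable tightness for rank `ω₁` -/

set_option autoImplicit false

open Set Topology Cardinal Ordinal Order Filter

universe u v w

namespace Pool.Agent.HCO

private theorem C1ct_card {s : Ordinal.{u}} (hs : s < w1) : max s.card ℵ₀ = ℵ₀ := by
  refine max_eq_right ?_
  have h1 : s.card < Cardinal.aleph 1 := Cardinal.lt_ord.1 hs
  rw [← Order.lt_succ_iff, Cardinal.succ_aleph0]
  exact h1

private theorem C1ct_ctble {X : Type u} {A : Set X} {s : Ordinal.{u}} (hs : s < w1)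
    (hA : #A ≤ max s.card ℵ₀) : A.Countable := by
  rw [C1ct_card hs] at hA
  exact Cardinal.mk_le_aleph0_iff.1 hA

theorem thm_C1ct (hDer : St_Der.{u}) (hSmall : St_Small.{u}) (hOSize : St_OSize.{u})
    (hBig : St_Big.{u}) : St_C1ct.{u} := by
  intro X _ _ _ _ x hM K hK hd
  -- closed sets missing `x` are countable
  have hcl : ∀ A : Set X, IsClosed A → x ∉ A → A.Countable := by
    intro A hA hx
    obtain ⟨s, hs, -, h⟩ := hSmall X x w1 hM A hA hx
    exact C1ct_ctble hs h
  have hQ : (⋃ n, K n).Countable := countable_iUnion fun n => hcl _ (hK n).1.1 (hK n).2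
  intro F hF
  have hp : ∀ p ∈ closure F, p ≠ x → p ∈ F := by
    intro p hpF hpx
    obtain ⟨N, hN1, hN2⟩ : ∃ N : Set X, IsClopen N ∧ p ∈ N ∧ x ∉ N := by
      obtain ⟨N, hN, hN1, hN2⟩ := exists_isClopen_of_totally_separated hpx
      exact ⟨N, hN, hN1, fun h => hN2 h⟩
    have h1 : p ∈ closure (F ∩ N) := by
      rw [mem_closure_iff] at hpF ⊢
      intro O hO hpO
      obtain ⟨z, hz1, hz2⟩ := hpF (O ∩ N) (hO.inter hN1.2) ⟨hpO, hN2.1⟩
      exact ⟨z, hz1.1, hz2, hz1.2⟩
    exact hF (F ∩ N) inter_subset_left ((hcl N hN1.1 hN2.2).mono inter_subset_right) h1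
  rw [← closure_subset_iff_isClosed]
  intro p hpF
  by_cases hpx : p = x
  swap
  · exact hp p hpF hpx
  subst hpx
  by_contra hxF
  have hx' : p ∈ closure F := hpF
  by_cases hsmall : p ∈ der (closure F) w1
  · -- big
    obtain ⟨U, e, hU, hxU, hex⟩ := hBig X p w1 hM (closure F) isClosed_closure hsmall hx'
    obtain ⟨A, hAdef⟩ : ∃ A : Set X, A = {z | ∃ hz : z ∈ closure F, z ≠ p ∧
      ((e ⟨z, hz⟩ : U) : X) ∈ ⋃ n, K n} := ⟨_, rfl⟩
    have hAF : A ⊆ F := by
      rw [hAdef]
      rintro z ⟨hz, hzx, -⟩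
      exact hp z hz hzx
    have hAc : A.Countable := by
      have h1 : A ⊆ (fun z : U => ((e.symm z : closure F) : X)) '' {z : U | (z : X) ∈ ⋃ n, K n} := by
        rw [hAdef]
        rintro z ⟨hz, hzx, hzK⟩
        refine ⟨e ⟨z, hz⟩, hzK, ?_⟩
        simp
      refine Countable.mono h1 (Countable.image ?_ _)
      exact hQ.preimage Subtype.coe_injective
    refine hxF (hF A hAF hAc ?_)
    rw [mem_closure_iff]
    intro O hO hpO
    -- a point of `F` near `p`
    obtain ⟨z0, hz0, hz0F⟩ := mem_closure_iff.1 hpF O hO hpO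
    have hz0p : z0 ≠ p := fun h => hxF (h ▸ hz0F)
    have hW : IsOpen {z : closure F | (z : X) ∈ O ∧ (z : X) ≠ p} :=
      (hO.inter isOpen_ne).preimage continuous_subtype_val
    have hW2 : IsOpen (e '' {z : closure F | (z : X) ∈ O ∧ (z : X) ≠ p}) := e.isOpen_image.2 hW
    have hW3 : IsOpen ((↑) '' (e '' {z : closure F | (z : X) ∈ O ∧ (z : X) ≠ p}) : Set X) :=
      hU.2.isOpenMap_subtype_val _ hW2
    obtain ⟨q, hq1, hq2⟩ := hd.inter_open_nonempty _ hW3
      ⟨_, mem_image_of_mem _ (mem_image_of_mem _ (show (⟨z0, subset_closure hz0F⟩ : closure F) ∈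
        {z : closure F | (z : X) ∈ O ∧ (z : X) ≠ p} from ⟨hz0, hz0p⟩))⟩
    obtain ⟨_, ⟨z, ⟨hz1, hz2⟩, rfl⟩, rfl⟩ := hq1
    refine ⟨z, hz1, ?_⟩
    rw [hAdef]
    exact ⟨z.2, hz2, hq2⟩
  · -- small
    have hemp : der (closure F) w1 = ∅ := by
      rw [eq_empty_iff_forall_notMem]
      intro z hz
      have h1 : z ∈ der (univ : Set X) w1 := hDer.mono X _ _ w1 (subset_univ _) hz
      rw [hM.top, mem_singleton_iff] at h1
      exact hsmall (h1 ▸ hz)
    have hlim : IsSuccLimit w1.{u} := by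
      have h1 := Cardinal.isSuccLimit_ord (c := Cardinal.aleph.{u} 1) (Cardinal.aleph0_le_aleph 1)
      exact h1
    obtain ⟨s, hs, hes⟩ := hDer.compact X (closure F) w1 isClosed_closure hlim hemp
    have hord : IsOrd (closure F) := hM.small _ isClosed_closure hsmall
    have hc : (closure F).Countable :=
      C1ct_ctble hs (hOSize X (closure F) s isClosed_closure hord hes)
    exact hxF (hF F subset_rfl (hc.mono subset_closure) hpF)

end Pool.Agent.HCO
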