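import Pool.Agent.HCO.St4

/-!
# HCO / C2a
-/

set_option autoImplicit false

open Set Topology Cardinal Ordinal Order Filter

universe u v w

namespace Pool.Agent.HCO

/-- a decreasing sequence of clopen sets and compactness -/
theorem c2a_dec {X : Type u} [TopologicalSpace X] [CompactSpace X] {R : Set X} {x : X}
    (hR : IsClosed R) (h : Cnt R x) :
    ∃ O : ℕ → Set X, Antitone O ∧ (∀ n, IsClopen (O n) ∧ x ∈ O n) ∧
      ∀ C : Set X, IsClosed C → x ∉ C → ∃ m, R ∩ C ∩ O m = ∅ := by
  obtain ⟨O, hO, hz⟩ := h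
  refine ⟨fun n => ⋂ k ∈ Finset.range (n + 1), O k, ?_, fun n => ⟨?_, ?_⟩, fun C hC hxC => ?_⟩
  · intro m n hmn z hzn
    simp only [Finset.mem_range, Set.mem_iInter] at hzn ⊢
    intro k hk
    exact hzn k (by omega)
  · exact isClopen_biInter_finset fun k _ => (hO k).1
  · simp only [Finset.mem_range, Set.mem_iInter]
    exact fun k _ => (hO k).2
  · by_contra hcon
    push Not at hcon
    have hdir : Directed (fun a b : Set X => a ⊇ b) fun n : ℕ =>
        R ∩ C ∩ ⋂ k ∈ Finset.range (n + 1), O k := by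
      refine directed_of_isDirected_le fun m n hmn => ?_
      refine Set.inter_subset_inter_right _ ?_
      intro z hzn
      simp only [Finset.mem_range, Set.mem_iInter] at hzn ⊢
      intro k hk
      exact hzn k (by omega)
    have hcl : ∀ n : ℕ, IsClosed (R ∩ C ∩ ⋂ k ∈ Finset.range (n + 1), O k) := fun n =>
      (hR.inter hC).inter (isClopen_biInter_finset fun k _ => (hO k).1).isClosed
    obtain ⟨z, hz2⟩ := IsCompact.nonempty_iInter_of_directed_nonempty_isCompact_isClosed _ hdir
      (fun n => hcon n) (fun n => (hcl n).isCompact) hcl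
    rw [Set.mem_iInter] at hz2
    have h1 : z ∈ R ∩ C := (hz2 0).1
    have h2 : ∀ n, z ∈ O n := by
      intro n
      have h3 := (hz2 n).2
      simp only [Finset.mem_range, Set.mem_iInter] at h3
      exact h3 n (by omega)
    have h4 := hz z h1.1 h2
    rw [h4] at h1
    exact hxC h1.2

theorem thm_C2a (hO : St_OCnt.{u}) (hD : St_Der.{u}) : St_C2a.{u} := by
  intro X _ _ _ _ x r hmin ⟨K, hK, hx⟩ hsm R hR hxR
  have hS := hsm K hK
  have hu := hD.union X R (closure (⋃ n, K n)) r hR isClosed_closure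
  have hxu : x ∉ der (R ∪ closure (⋃ n, K n)) r := by
    rw [hu]
    rintro (h | h)
    · exact hxR h
    · exact hS h
  have hcl : IsClosed (R ∪ closure (⋃ n, K n)) := hR.union isClosed_closure
  have hord := hmin.small _ hcl hxu
  have hsub : (⋃ n, K n) ⊆ (R ∪ closure (⋃ n, K n)) ∩ ⋃ n, K n :=
    fun z hz => ⟨Or.inr (subset_closure hz), hz⟩
  obtain ⟨O, hO1, hO2⟩ := hO X (R ∪ closure (⋃ n, K n)) x K hcl hord (Or.inr hx)
    (fun n => ⟨(hK n).1.isClosed, (hK n).2⟩) (closure_mono hsub hx)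
  exact ⟨O, hO1, fun z hz => hO2 z (Or.inl hz)⟩

end Pool.Agent.HCO
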