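import Pool.Agent.HCO.St4
import Pool.Agent.HCO.C2a

/-!
# HCO / C2
-/

set_option autoImplicit false

open Set Topology Cardinal Ordinal Order Filter

universe u v w

namespace Pool.Agent.HCO

theorem thm_C2 (hA : St_C2a.{u}) (hB : St_C2b.{u}) (hP : St_PID.{u}) (hN : St_NA.{u})
    (hS : St_NSig.{u}) (hD : St_Der.{u}) : St_C2.{u} := by
  intro hMM X _ _ _ _ x r hmin hK hsm
  set Y : Type u := {z : X // z ≠ x} with hY
  set J : Set (Set Y) := {A | A.Countable ∧ ∀ C : Set X, IsClosed C → x ∉ C →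
    (((↑) '' A : Set X) ∩ C).Finite} with hJ
  -- clopen sets
  have hcov : ∀ y : Y, ∃ K : Set X, IsClopen K ∧ (y : X) ∈ K ∧ x ∉ K := by
    intro y
    have ho : IsOpen ({x}ᶜ : Set X) := isClosed_singleton.isOpen_compl
    obtain ⟨K, hK1, hK2, hK3⟩ := compact_exists_isClopen_in_isOpen ho
      (show (y : X) ∈ ({x}ᶜ : Set X) from y.2)
    exact ⟨K, hK1, hK2, fun h => hK3 h rfl⟩
  choose Kf hKf1 hKf2 hKf3 using hcov
  -- closures of countable sets are small
  have hcsm : ∀ A : Set Y, A.Countable → x ∉ der (closure ((↑) '' A : Set X)) r := by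
    intro A hAc h
    rcases A.eq_empty_or_nonempty with hAe | hAne
    · subst hAe
      rw [Set.image_empty, closure_empty] at h
      have h1 := hD.sub X ∅ 0 r (zero_le) h
      rw [hD.zero] at h1
      exact h1
    · obtain ⟨f, hf⟩ := hAc.exists_eq_range hAne
      refine hsm (fun n => Kf (f n)) (fun n => ⟨hKf1 _, hKf3 _⟩) (hD.mono X _ _ r ?_ h)
      refine closure_mono ?_
      rintro _ ⟨y, hy, rfl⟩
      rw [hf] at hy
      obtain ⟨n, rfl⟩ := hy
      exact Set.mem_iUnion.2 ⟨n, hKf2 _⟩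
  have j1 : ∀ A ∈ J, ∀ B ⊆ A, B ∈ J := by
    intro A hAJ B hBA
    exact ⟨hAJ.1.mono hBA, fun C hC hxC => (hAJ.2 C hC hxC).subset
      (Set.inter_subset_inter_left _ (Set.image_mono hBA))⟩
  have j2 : ∀ A ∈ J, ∀ B ∈ J, A ∪ B ∈ J := by
    intro A hAJ B hBJ
    refine ⟨hAJ.1.union hBJ.1, fun C hC hxC => ?_⟩
    rw [Set.image_union, Set.union_inter_distrib_right]
    exact (hAJ.2 C hC hxC).union (hBJ.2 C hC hxC)
  have j3 : ∀ y, {y} ∈ J := by
    intro y
    refine ⟨Set.countable_singleton y, fun C _ _ => ?_⟩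
    exact ((Set.finite_singleton y).image _).subset Set.inter_subset_left
  have j4 : ∀ A : ℕ → Set Y, (∀ n, A n ∈ J) → ∃ B ∈ J, ∀ n, (A n \ B).Finite := by
    intro A hAJ
    have hcu : (⋃ n, A n).Countable := Set.countable_iUnion fun n => (hAJ n).1
    have hcnt := hA X x r hmin hK hsm _ isClosed_closure (hcsm _ hcu)
    obtain ⟨O, hanti, hO, hC⟩ := c2a_dec isClosed_closure hcnt
    have hmem : ∀ n, ∀ y ∈ A n, (y : X) ∈ closure ((↑) '' (⋃ n, A n) : Set X) := fun n y hy =>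
      subset_closure ⟨y, Set.mem_iUnion.2 ⟨n, hy⟩, rfl⟩
    refine ⟨⋃ n, A n ∩ (↑) ⁻¹' O n, ⟨?_, fun C hCc hxC => ?_⟩, fun n => ?_⟩
    · exact Set.countable_iUnion fun n => (hAJ n).1.mono Set.inter_subset_left
    · obtain ⟨m, hm⟩ := hC C hCc hxC
      refine (Set.Finite.biUnion (Set.finite_Iio m) fun n _ => (hAJ n).2 C hCc hxC).subset ?_
      rintro _ ⟨⟨y, hy, rfl⟩, hyC⟩
      obtain ⟨n, hyn, hyO⟩ := Set.mem_iUnion.1 hy
      refine Set.mem_biUnion (x := n) ?_ ⟨⟨y, hyn, rfl⟩, hyC⟩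
      by_contra hcon
      have h1 : m ≤ n := not_lt.1 hcon
      have h2 : (y : X) ∈ closure ((↑) '' (⋃ n, A n) : Set X) ∩ C ∩ O m :=
        ⟨⟨hmem n y hyn, hyC⟩, hanti h1 hyO⟩
      rw [hm] at h2
      exact h2
    · have h1 := (hAJ n).2 (O n)ᶜ (hO n).1.isOpen.isClosed_compl (fun h => h (hO n).2)
      refine (h1.preimage (f := (Subtype.val : Y → X)) Subtype.val_injective.injOn).subset ?_
      rintro y ⟨hy1, hy2⟩
      refine ⟨⟨y, hy1, rfl⟩, fun h => hy2 ?_⟩
      exact Set.mem_iUnion.2 ⟨n, hy1, h⟩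
  rcases hP hMM Y J (fun A h => h.1) j1 j2 j3 j4 with ⟨Z, hZ1, hZ2⟩ | ⟨T, hT1, hT2⟩
  · -- first alternative
    have h1 := hN X x hmin.hco ((↑) '' Z : Set X) (by
      rintro ⟨z, -, hz⟩
      exact z.2 hz) (fun C hC hxC => ?_)
    · exact hZ1 (Set.countable_of_injective_of_countable_image
        (Subtype.val_injective.injOn) h1)
    · by_contra hinf
      obtain ⟨A0, hA0, hA0c, hA0i⟩ : ∃ A0 : Set X, A0 ⊆ ((↑) '' Z : Set X) ∩ C ∧
          A0.Countable ∧ A0.Infinite := by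
        have hinf' : (((↑) '' Z : Set X) ∩ C).Infinite := hinf
        refine ⟨Set.range fun n => ((hinf'.natEmbedding _ n : _) : X), ?_,
          Set.countable_range _, ?_⟩
        · rintro _ ⟨n, rfl⟩
          exact (hinf'.natEmbedding _ n).2
        · refine Set.infinite_range_of_injective ?_
          exact Subtype.val_injective.comp (hinf'.natEmbedding _).injective
      have hA1 : ((↑) ⁻¹' A0 : Set Y) ⊆ Z := by
        intro y hy
        obtain ⟨z, hz, hzy⟩ := (hA0 hy).1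
        rwa [← Subtype.val_injective hzy]
      have hA2 : ((↑) ⁻¹' A0 : Set Y).Countable :=
        hA0c.preimage Subtype.val_injective
      have hA3 := (hZ2 _ hA1 hA2).2 C hC hxC
      refine hA0i (hA3.subset fun z hz => ?_)
      obtain ⟨⟨y, hy, rfl⟩, hzC⟩ := hA0 hz
      exact ⟨⟨y, hz, rfl⟩, hzC⟩
  · -- second alternative
    refine hS X x r hmin ⟨fun n => closure ((↑) '' T n : Set X), fun n =>
      ⟨isClosed_closure, fun hx => ?_⟩, fun z hz => ?_⟩
    · obtain ⟨A, hA1, hA2, hA3, hA4⟩ := hB X x r hmin hK hsm ((↑) '' T n : Set X) (by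
        rintro ⟨z, -, hz⟩
        exact z.2 hz) hx
      have himg : ((↑) '' ((↑) ⁻¹' A : Set Y) : Set X) = A := by
        rw [Set.image_preimage_eq_iff]
        intro z hz
        obtain ⟨y, -, rfl⟩ := hA1 hz
        exact ⟨y, rfl⟩
      have h1 : ((↑) ⁻¹' A : Set Y) ∈ J := by
        refine ⟨hA2.preimage Subtype.val_injective, fun C hC hxC => ?_⟩
        rw [himg]
        exact hA4 C hC hxC
      have h2 : ((↑) ⁻¹' A : Set Y) ⊆ T n := by
        intro y hy
        obtain ⟨z, hz, hzy⟩ := hA1 hy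
        rwa [← Subtype.val_injective hzy]
      have h3 := (hT2 n _ h1 h2).image (Subtype.val : Y → X)
      rw [himg] at h3
      exact hA3 h3
    · obtain ⟨n, hn⟩ := hT1 ⟨z, hz⟩
      exact ⟨n, subset_closure ⟨_, hn, rfl⟩⟩

end Pool.Agent.HCO
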