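import Pool.Agent.HCO.St4
import Pool.Agent.HCO.C2a

/-!
# HCO / C2b
-/

set_option autoImplicit false

open Set Topology Cardinal Ordinal Order Filter

universe u v w

namespace Pool.Agent.HCO

/-- the case of small closure -/
private theorem c2b_small {X : Type u} [TopologicalSpace X] [CompactSpace X] [T2Space X]
    {x : X} {S : Set X} (hxS : x ∉ S) (hx : x ∈ closure S) (h : Cnt (closure S) x) :
    ∃ A ⊆ S, A.Countable ∧ A.Infinite ∧ ∀ C : Set X, IsClosed C → x ∉ C → (A ∩ C).Finite := by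
  obtain ⟨O, hanti, hO, hC⟩ := c2a_dec isClosed_closure h
  have hne : ∀ n, (O n ∩ S).Nonempty := fun n =>
    mem_closure_iff.1 hx (O n) (hO n).1.isOpen (hO n).2
  choose s hs using hne
  have hfin : ∀ C : Set X, IsClosed C → x ∉ C → (Set.range s ∩ C).Finite := by
    intro C hCc hxC
    obtain ⟨m, hm⟩ := hC C hCc hxC
    refine (Set.finite_Iio m |>.image s).subset ?_
    rintro _ ⟨⟨n, rfl⟩, hn⟩
    refine ⟨n, ?_, rfl⟩
    by_contra hcon
    have h1 : m ≤ n := not_lt.1 hcon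
    have h2 : s n ∈ closure S ∩ C ∩ O m :=
      ⟨⟨subset_closure (hs n).2, hn⟩, hanti h1 (hs n).1⟩
    rw [hm] at h2
    exact h2
  refine ⟨Set.range s, ?_, Set.countable_range s, fun hfin2 => ?_, hfin⟩
  · rintro _ ⟨n, rfl⟩
    exact (hs n).2
  · have hcl : IsClosed (Set.range s) := hfin2.isClosed
    have hxr : x ∉ Set.range s := by
      rintro ⟨n, hn⟩
      exact hxS (hn ▸ (hs n).2)
    obtain ⟨m, hm⟩ := hC _ hcl hxr
    have h2 : s m ∈ closure S ∩ Set.range s ∩ O m :=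
      ⟨⟨subset_closure (hs m).2, ⟨m, rfl⟩⟩, (hs m).1⟩
    rw [hm] at h2
    exact h2

theorem thm_C2b (hA : St_C2a.{u}) (hB : St_Big.{u}) (hD : St_Der.{u}) : St_C2b.{u} := by
  intro X _ _ _ _ x r hmin hK hsm S hxS hxc
  by_cases hbig : x ∈ der (closure S) r
  swap
  · exact c2b_small hxS hxc (hA X x r hmin hK hsm _ isClosed_closure hbig)
  obtain ⟨K, hKs, hKx⟩ := hK
  obtain ⟨U, e, hU, hxU, hex⟩ := hB X x r hmin (closure S) isClosed_closure hbig hxc
  -- the traces
  set G' : Set (closure S) := e ⁻¹' ((↑) ⁻¹' (⋃ n, K n)) with hG'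
  set R' : Set (closure S) := closure G' with hR'
  have hG'o : IsOpen G' := by
    refine IsOpen.preimage e.continuous (IsOpen.preimage continuous_subtype_val ?_)
    exact isOpen_iUnion fun n => (hKs n).1.isOpen
  -- the image of `R'` is small
  have hsub1 : ((↑) '' (e '' R') : Set X) ⊆ closure (⋃ n, U ∩ K n) := by
    rw [Set.image_image]
    refine (image_closure_subset_closure_image
      (continuous_subtype_val.comp e.continuous)).trans (closure_mono ?_)
    rintro _ ⟨z, hz, rfl⟩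
    have hz2 : ((e z : U) : X) ∈ ⋃ n, K n := hz
    obtain ⟨n, hn⟩ := Set.mem_iUnion.1 hz2
    exact Set.mem_iUnion.2 ⟨n, (e z).2, hn⟩
  have hsig : Sig x fun n => U ∩ K n := fun n =>
    ⟨hU.inter (hKs n).1, fun h => (hKs n).2 h.2⟩
  have hRsm : x ∉ der ((↑) '' R' : Set X) r := by
    intro h
    have h1 : (⟨x, hxc⟩ : closure S) ∈ der R' r :=
      (hD.emb X (closure S) R' r ⟨x, hxc⟩).2 h
    have hmem : (⟨x, hxc⟩ : closure S) ∈ R' := by
      have h2 := hD.sub (closure S) R' 0 r (zero_le)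
      rw [hD.zero] at h2
      exact h2 h1
    have h3 := (hD.homeo (closure S) U R' (e '' R') (e.image R') r ⟨⟨x, hxc⟩, hmem⟩).1 h1
    have h4 := (hD.emb X U (e '' R') r _).1 h3
    have h5 : ((((e.image R') ⟨⟨x, hxc⟩, hmem⟩ : (e '' R' : Set U)) : U) : X) = x := hex
    rw [h5] at h4
    exact hsm _ hsig (hD.mono X _ _ r hsub1 h4)
  -- the set
  set S2 : Set X := S ∩ ((↑) '' G' : Set X) with hS2
  have hS2x : x ∉ S2 := fun h => hxS h.1
  have hclR : IsClosed ((↑) '' R' : Set X) :=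
    (isClosed_closure (s := S)).isClosedEmbedding_subtypeVal.isClosedMap _ isClosed_closure
  have hS2R : closure S2 ⊆ ((↑) '' R' : Set X) := by
    refine closure_minimal ?_ hclR
    exact fun z hz => Set.image_mono subset_closure hz.2
  have hS2c : x ∈ closure S2 := by
    rw [mem_closure_iff]
    intro N hN hxN
    -- a point of the image near `x`
    have h1 : (⟨x, hxc⟩ : closure S) ∈ closure G' := by
      have h2 : (⟨x, hxU⟩ : U) ∈ closure ((↑) ⁻¹' (⋃ n, K n) : Set U) := by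
        rw [mem_closure_iff]
        intro V hV hxV
        obtain ⟨V', hV', rfl⟩ := isOpen_induced_iff.1 hV
        obtain ⟨z, hz1, hz2⟩ := mem_closure_iff.1 hKx (V' ∩ U) (hV'.inter hU.isOpen) ⟨hxV, hxU⟩
        exact ⟨⟨z, hz1.2⟩, hz1.1, hz2⟩
      have h3 : e ⟨x, hxc⟩ = ⟨x, hxU⟩ := Subtype.ext hex
      rw [hG', ← e.preimage_closure, Set.mem_preimage, h3]
      exact h2
    obtain ⟨z, hz1, hz2⟩ := mem_closure_iff.1 h1 (Subtype.val ⁻¹' N)
      (hN.preimage continuous_subtype_val) hxN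
    obtain ⟨W, hW, hWG⟩ := isOpen_induced_iff.1 hG'o
    have hzW : (z : X) ∈ W := by
      have : z ∈ ((↑) ⁻¹' W : Set (closure S)) := by
        rw [hWG]
        exact hz2
      exact this
    obtain ⟨s, hs1, hs2⟩ := mem_closure_iff.1 z.2 (N ∩ W) (hN.inter hW) ⟨hz1, hzW⟩
    refine ⟨s, hs1.1, hs2, ⟨s, subset_closure hs2⟩, ?_, rfl⟩
    rw [← hWG]
    exact hs1.2
  have hS2sm : x ∉ der (closure S2) r := fun h => hRsm (hD.mono X _ _ r hS2R h)
  obtain ⟨A, hA1, hA2, hA3, hA4⟩ := c2b_small hS2x hS2c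
    (hA X x r hmin ⟨K, hKs, hKx⟩ hsm _ isClosed_closure hS2sm)
  exact ⟨A, fun z hz => (hA1 hz).1, hA2, hA3, hA4⟩

end Pool.Agent.HCO
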