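import Pool.Agent.HCO.St4

/-!
# HCO [C3]
-/

set_option autoImplicit false

open Set Topology Cardinal Ordinal Order Filter

universe u v w

namespace Pool.Agent.HCO

lemma C3_cof : (w1 : Ordinal.{u}).cof = ℵ₁ := by
  unfold w1
  exact Cardinal.isRegular_aleph_one.cof_ord

lemma C3_iio {c : Ordinal.{u}} (hc : c < w1) : (Iio c).Countable := by
  rw [← Cardinal.le_aleph0_iff_set_countable, Cardinal.mk_Iio_ordinal]
  rw [Cardinal.lift_le_aleph0]
  have h1 : c.card < ℵ₁ := Cardinal.lt_ord.1 hc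
  exact Cardinal.lt_aleph_one_iff.1 h1

/-- countable subsets of `ω₁` are bounded -/
lemma C3_bdd (hClub : St_Club.{u}) {S : Set Ordinal.{u}} (hS : S.Countable) (h : S ⊆ Iio w1) :
    ∃ c < w1, ∀ a ∈ S, a < c := by
  have hpos : (0 : Ordinal.{u}) < w1 := by
    unfold w1
    exact Cardinal.ord_pos.2 (Cardinal.aleph_pos 1)
  rcases S.eq_empty_or_nonempty with rfl | hne
  · exact ⟨0, hpos, by simp⟩
  · obtain ⟨f, rfl⟩ := hS.exists_eq_range hne
    obtain ⟨c, hc, hc'⟩ := hClub.supN w1 f (by rw [C3_cof]; exact Cardinal.aleph0_lt_aleph_one)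
      (fun i => h ⟨i, rfl⟩)
    refine ⟨c, hc, ?_⟩
    rintro _ ⟨i, rfl⟩
    exact hc' i

/-- uncountable subsets of `ω₁` are unbounded -/
lemma C3_unb {A : Set Ordinal.{u}} (h : ¬ A.Countable) {c : Ordinal.{u}}
    (hc : c < w1) : ∃ a ∈ A, c < a := by
  by_contra hcon
  push Not at hcon
  apply h
  have hs : IsSuccLimit (w1 : Ordinal.{u}) := by
    unfold w1
    exact Cardinal.isSuccLimit_ord (Cardinal.aleph0_le_aleph 1)
  have h1 : A ⊆ Iio (succ c) := fun a ha => Order.lt_succ_of_le (hcon a ha)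
  exact (C3_iio (hs.succ_lt hc)).mono h1

/-- a closed set covered by increasing open sets -/
lemma C3_cover {X : Type u} [TopologicalSpace X] [CompactSpace X] {K : ℕ → Set X}
    (hK : ∀ n, IsOpen (K n)) (hm : Monotone K) {S : Set X} (hS : IsClosed S)
    (h : S ⊆ ⋃ n, K n) : ∃ n, S ⊆ K n :=
  hS.isCompact.elim_directed_cover K hK h hm.directed_le

theorem thm_C3 (hpc : St_C3pc.{u}) (hmm : St_C3mm.{u}) (hK2 : St_KU2.{u}) (hK3 : St_KU3.{u})
    (hBig : St_Big.{u}) (hcof : St_A1cof.{u}) (hClub : St_Club.{u}) :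
    St_C3.{u} := by
  classical
  intro hMM X _ _ _ _ x r hMin hr K hSig hmono hdense
  have hrc : r.cof = ℵ₁ := hcof X x r hMin K hSig hdense
  have hr' : r.cof.ord < r := by rw [hrc]; exact hr
  have hKo : ∀ n, IsOpen (K n) := fun n => (hSig n).1.isOpen
  have hxK : x ∉ ⋃ n, K n := by
    rw [mem_iUnion]
    rintro ⟨n, hn⟩
    exact (hSig n).2 hn
  obtain ⟨b, D, l, hbinj, hb, hbc, hD, hDc⟩ := hpc X x r hMin hr K hSig hmono hdense
  have hbD : ∀ a < w1, b a ∈ D a := fun a ha => ((hD a ha).2.2 (b a) (hb a ha).1).2 rfl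
  have hbK : ∀ a < w1, ∀ n, b a ∉ K n := fun a ha n hn => (hb a ha).1 (mem_iUnion.2 ⟨n, hn⟩)
  -- choice of `t`
  have ht0 : ∀ a < w1, ∀ k : ℕ, ∃ z, z ∈ D a ∧ z ∉ K (max k l) ∧ z ∈ ⋃ n, K n := by
    intro a ha k
    have ho : IsOpen (D a \ K (max k l)) := (hD a ha).1.isOpen.sdiff (hSig _).1.isClosed
    obtain ⟨z, hz1, hz2⟩ := hdense.inter_open_nonempty _ ho ⟨b a, hbD a ha, hbK a ha _⟩
    exact ⟨z, hz1.1, hz1.2, hz2⟩
  obtain ⟨t, ht⟩ : ∃ t : Ordinal.{u} → ℕ → X, ∀ a < w1, ∀ k, t a k ∈ D a ∧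
      t a k ∉ K (max k l) ∧ t a k ∈ ⋃ n, K n := by
    refine ⟨fun a k => if h : a < w1 then (ht0 a h k).choose else x, ?_⟩
    intro a ha k
    simp only [dif_pos ha]
    exact (ht0 a ha k).choose_spec
  have hev : ∀ a < w1, ∀ b' < w1, a ≠ b' → ∃ m : ℕ, ∀ k ≥ m, t a k ∉ D b' := by
    intro a ha b' hb' hne
    have hsub : D a ∩ D b' ⊆ ⋃ n, K n := by
      rintro z ⟨hz1, hz2⟩
      by_contra hz
      have e1 := ((hD a ha).2.2 z hz).1 hz1
      have e2 := ((hD b' hb').2.2 z hz).1 hz2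
      exact hne (hbinj ha hb' (e1.symm.trans e2))
    obtain ⟨n, hn⟩ := C3_cover hKo hmono ((hD a ha).1.isClosed.inter (hD b' hb').1.isClosed) hsub
    refine ⟨n, fun k hk hmem => ?_⟩
    have h1 := hn ⟨(ht a ha k).1, hmem⟩
    exact (ht a ha k).2.1 (hmono (hk.trans (le_max_left k l)) h1)
  obtain ⟨A, J, hA, hAu, hJ, hAJ⟩ := hmm hMM X D (fun n => K n \ K l) t
    (fun a ha => (hD a ha).1)
    (fun n => (hSig n).1.isClosed.sdiff (hSig l).1.isOpen)
    (fun m n hmn => sdiff_subset_sdiff_left (hmono hmn))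
    (by
      intro a ha k
      obtain ⟨h1, h2, h3⟩ := ht a ha k
      obtain ⟨n, hn⟩ := mem_iUnion.1 h3
      exact ⟨n, hn, fun h => h2 (hmono (le_max_right k l) h)⟩)
    (by
      intro n z hz
      exact hDc z (mem_iUnion.2 ⟨n, hz.1⟩) hz.2)
    hev
  -- the countable parts
  set Q : Ordinal.{u} → Set X := fun c => {z | ∃ a < c, ∃ k, z = t a k} with hQ
  have hQc : ∀ c < w1, (Q c).Countable := by
    intro c hc
    have h1 : Q c ⊆ ⋃ a ∈ Iio c, range (t a) := by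
      rintro z ⟨a, ha, k, rfl⟩
      exact mem_biUnion (mem_Iio.2 ha) ⟨k, rfl⟩
    exact ((C3_iio hc).biUnion fun a _ => countable_range _).mono h1
  have hxQ : ∀ c < w1, x ∉ closure (Q c) := by
    intro c hc
    refine hK3 X x r hMin hrc hr (Q c) (hQc c hc) ?_
    rintro ⟨a, ha, k, hk⟩
    apply hxK
    rw [hk]
    exact (ht a (ha.trans hc) k).2.2
  have hφ0 : ∀ c < w1, ∃ e < w1, ∀ a, (a < w1 ∧ b a ∈ closure (Q c)) → a < e := by
    intro c hc
    exact C3_bdd hClub (hbc _ isClosed_closure (hxQ c hc)) fun a ha => ha.1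
  have hξ0 : ∀ c < w1, ∃ ξ ∈ A, c < ξ ∧ b ξ ∉ closure (Q c) := by
    intro c hc
    obtain ⟨e, he, he'⟩ := hφ0 c hc
    obtain ⟨ξ, hξ, hξ'⟩ := C3_unb hAu (max_lt hc he)
    refine ⟨ξ, hξ, (le_max_left c e).trans_lt hξ', fun h => ?_⟩
    have h1 := he' ξ ⟨hA hξ, h⟩
    exact absurd ((le_max_right c e).trans_lt hξ') (not_lt.2 h1.le)
  obtain ⟨ξ, hξ⟩ : ∃ ξ : Ordinal.{u} → Ordinal.{u}, ∀ c < w1, ξ c ∈ A ∧ c < ξ c ∧
      b (ξ c) ∉ closure (Q c) := by
    refine ⟨fun c => if h : c < w1 then (hξ0 c h).choose else 0, ?_⟩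
    intro c hc
    simp only [dif_pos hc]
    exact (hξ0 c hc).choose_spec
  have hs : IsSuccLimit (w1 : Ordinal.{u}) := by
    unfold w1
    exact Cardinal.isSuccLimit_ord (Cardinal.aleph0_le_aleph 1)
  have hξw : ∀ c < w1, ξ c < w1 := fun c hc => hA (hξ c hc).1
  set η : Ordinal.{u} → Ordinal.{u} := fun c => succ (ξ c) with hη
  have hηw : ∀ c < w1, η c < w1 := fun c hc => hs.succ_lt (hξw c hc)
  have hξη : ∀ c, ξ c < η c := fun c => Order.lt_succ _
  have hCl := hClub.fn ℵ₁ η Cardinal.isRegular_aleph_one Cardinal.aleph0_lt_aleph_one hηw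
  set C' : Set Ordinal.{u} := {a | a < (ℵ₁ : Cardinal.{u}).ord ∧ IsSuccLimit a ∧
    ∀ b < a, η b < a} with hC'
  have hC'w : ∀ c ∈ C', c < w1 := fun c hc => hc.1
  have hC'u : ∀ e < w1, ∃ c ∈ C', e < c := hCl.2.1
  -- the set `F`
  set T : Set X := {z | ∃ c ∈ C', ∃ k ∈ J (η c), z = t (η c) k} with hT
  set B : Set X := (⋃ n, K n)ᶜ with hB
  have hBcl : IsClosed B := (isOpen_iUnion hKo).isClosed_compl
  set F : Set X := closure T ∪ B with hF
  have hFcl : IsClosed F := isClosed_closure.union hBcl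
  have hTK : T ⊆ ⋃ n, K n := by
    rintro z ⟨c, hc, k, hk, rfl⟩
    exact (ht _ (hηw c (hC'w c hc)) k).2.2
  have hTD : ∀ c ∈ C', T ∩ D (ξ c) ⊆ Q c := by
    rintro c hc z ⟨⟨c', hc', k, hk, rfl⟩, hz⟩
    have hcw := hC'w c hc
    have hcw' := hC'w c' hc'
    by_cases hlt : c' < c
    · exact ⟨η c', hc.2.2 c' hlt, k, rfl⟩
    · exfalso
      refine hAJ (ξ c) (hξ c hcw).1 (η c') (hηw c' hcw') ?_ k hk hz
      rcases (not_lt.1 hlt).eq_or_lt with h | h
      · rw [← h]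
        exact hξη c
      · exact (hξη c).trans ((hc'.2.2 c h).trans ((hξ c' hcw').2.1.trans (hξη c')))
  -- isolated points
  have hiso : ∀ c ∈ C', (D (ξ c) \ closure (Q c)) ∩ F = {b (ξ c)} := by
    intro c hc
    have hcw := hC'w c hc
    have hξw' := hξw c hcw
    apply Subset.antisymm
    · rintro z ⟨⟨hz1, hz2⟩, hz3⟩
      rcases hz3 with hz3 | hz3
      · exfalso
        apply hz2
        have h1 : z ∈ closure (T ∩ D (ξ c)) := by
          rw [mem_closure_iff]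
          intro o ho hzo
          obtain ⟨y, hy1, hy2⟩ := mem_closure_iff.1 hz3 (o ∩ D (ξ c))
            (ho.inter (hD _ hξw').1.isOpen) ⟨hzo, hz1⟩
          exact ⟨y, hy1.1, hy2, hy1.2⟩
        exact closure_mono (hTD c hc) h1
      · exact ((hD _ hξw').2.2 z hz3).1 hz1
    · rintro z rfl
      exact ⟨⟨hbD _ hξw', (hξ c hcw).2.2⟩, Or.inr (hb _ hξw').1⟩
  -- `x` is in the closure of `T`
  have hbT : ∀ c ∈ C', b (η c) ∈ closure T := by
    intro c hc
    have hηc := hηw c (hC'w c hc)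
    rw [mem_closure_iff]
    intro o ho hbo
    have h1 : D (η c) \ o ⊆ ⋃ n, K n := by
      rintro z ⟨hz1, hz2⟩
      by_contra hz
      apply hz2
      rw [((hD _ hηc).2.2 z hz).1 hz1]
      exact hbo
    obtain ⟨n, hn⟩ := C3_cover hKo hmono ((hD _ hηc).1.isClosed.sdiff ho) h1
    obtain ⟨k, hk, hk'⟩ := (hJ (η c) hηc).exists_gt n
    refine ⟨t (η c) k, ?_, c, hc, k, hk, rfl⟩
    by_contra ho'
    exact (ht _ hηc k).2.1 (hmono (hk'.le.trans (le_max_left k l)) (hn ⟨(ht _ hηc k).1, ho'⟩))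
  have hxT : x ∈ closure T := by
    by_contra hx
    have h1 := hbc _ isClosed_closure hx
    obtain ⟨e, he, he'⟩ := C3_bdd hClub h1 fun a ha => ha.1
    obtain ⟨c, hc, hec⟩ := hC'u e he
    have h2 := he' (η c) ⟨hηw c (hC'w c hc), hbT c hc⟩
    exact absurd (hec.trans ((hξ c (hC'w c hc)).2.1.trans (hξη c))) (not_lt.2 h2.le)
  -- `F` is big
  have hxF : x ∈ der F r := by
    by_contra hx
    refine hK2 X x r hMin hr' F hFcl hx K (fun n => ⟨(hSig n).1.isClosed, (hSig n).2⟩) ?_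
    have h1 : T ⊆ F ∩ ⋃ n, K n := fun z hz => ⟨Or.inl (subset_closure hz), hTK hz⟩
    exact closure_mono h1 hxT
  have hxF' : x ∈ F := Or.inl hxT
  obtain ⟨V, e, hV, hxV, hex⟩ := hBig X x r hMin F hFcl hxF hxF'
  -- the pieces
  have hG : ∀ n, {a | a < w1 ∧ b a ∈ ((↑) '' {z : F | ((e z : V) : X) ∈ K n} : Set X)}.Countable := by
    intro n
    refine hbc _ ?_ ?_
    · apply hFcl.isClosedEmbedding_subtypeVal.isClosedMap
      exact (hSig n).1.isClosed.preimage (continuous_subtype_val.comp e.continuous)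
    · rintro ⟨z, hz, hzx⟩
      have h1 : z = ⟨x, hxF'⟩ := Subtype.ext hzx
      rw [mem_ofPred_eq, h1, hex] at hz
      exact (hSig n).2 hz
  have hall : ∀ c ∈ C', ∃ n, b (ξ c) ∈ ((↑) '' {z : F | ((e z : V) : X) ∈ K n} : Set X) := by
    intro c hc
    have hcw := hC'w c hc
    have hmem : b (ξ c) ∈ F := Or.inr (hb _ (hξw c hcw)).1
    set p : F := ⟨b (ξ c), hmem⟩ with hp
    have h1 : IsOpen ({p} : Set F) := by
      have h2 : IsOpen (((↑) : F → X) ⁻¹' (D (ξ c) \ closure (Q c))) :=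
        ((hD _ (hξw c hcw)).1.isOpen.sdiff isClosed_closure).preimage continuous_subtype_val
      have h3 : ((↑) : F → X) ⁻¹' (D (ξ c) \ closure (Q c)) = {p} := by
        ext z
        rw [mem_preimage, mem_singleton_iff]
        constructor
        · intro hz
          have h4 : (z : X) ∈ (D (ξ c) \ closure (Q c)) ∩ F := ⟨hz, z.2⟩
          rw [hiso c hc] at h4
          exact Subtype.ext h4
        · rintro rfl
          have h4 : b (ξ c) ∈ (D (ξ c) \ closure (Q c)) ∩ F := by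
            rw [hiso c hc]; rfl
          exact h4.1
      rwa [h3] at h2
    have h2 : IsOpen ({e p} : Set V) := by
      have h3 := e.isOpenMap _ h1
      rwa [image_singleton] at h3
    have h3 : IsOpen ({((e p : V) : X)} : Set X) := by
      have h4 := hV.isOpen.isOpenMap_subtype_val _ h2
      rwa [image_singleton] at h4
    obtain ⟨y, hy1, hy2⟩ := hdense.inter_open_nonempty _ h3 ⟨_, rfl⟩
    rw [mem_singleton_iff] at hy1
    rw [hy1] at hy2
    obtain ⟨n, hn⟩ := mem_iUnion.1 hy2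
    exact ⟨n, p, hn, rfl⟩
  have hcount : (⋃ n, {a | a < w1 ∧
      b a ∈ ((↑) '' {z : F | ((e z : V) : X) ∈ K n} : Set X)}).Countable :=
    countable_iUnion hG
  obtain ⟨e', he', he''⟩ := C3_bdd hClub hcount (by
    intro a ha
    obtain ⟨n, hn⟩ := mem_iUnion.1 ha
    exact hn.1)
  obtain ⟨c, hc, hec⟩ := hC'u e' he'
  obtain ⟨n, hn⟩ := hall c hc
  have h2 := he'' (ξ c) (mem_iUnion.2 ⟨n, hξw c (hC'w c hc), hn⟩)
  exact absurd (hec.trans (hξ c (hC'w c hc)).2.1) (not_lt.2 h2.le)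

end Pool.Agent.HCO
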