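import Pool.Agent.HCO.C3

/-!
# HCO [C3B]
-/

set_option autoImplicit false

open Set Topology Cardinal Ordinal Order Filter

universe u v w

namespace Pool.Agent.HCO

/-- an uncountable set contains an injective image of `ω₁` -/
lemma C3B_inj {α : Type v} {S : Set α} (h : ¬ S.Countable) :
    ∃ b : Ordinal.{u} → α, Set.InjOn b (Iio w1) ∧ ∀ a < w1, b a ∈ S := by
  classical
  have hne : S.Nonempty := by
    rcases S.eq_empty_or_nonempty with h' | h'
    · exact absurd (h' ▸ countable_empty) h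
    · exact h'
  have h1 : ℵ₁ ≤ #S := by
    rw [← Cardinal.le_aleph0_iff_set_countable, not_le] at h
    rw [← not_lt, Cardinal.lt_aleph_one_iff, not_le]
    exact h
  have h2 : Cardinal.lift.{v} #(Iio (w1 : Ordinal.{u})) ≤ Cardinal.lift.{u + 1} #S := by
    rw [Cardinal.mk_Iio_ordinal]
    have h3 : (w1 : Ordinal.{u}).card = ℵ₁ := by
      unfold w1
      exact Cardinal.card_ord _
    rw [h3]
    have h4 := Cardinal.lift_le.{u + 1}.2 h1
    refine le_trans (le_of_eq ?_) h4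
    simp
  obtain ⟨f⟩ := Cardinal.lift_mk_le'.1 h2
  refine ⟨fun a => if ha : a < w1 then (f ⟨a, ha⟩ : α) else hne.some, ?_, ?_⟩
  · intro a ha a' ha' hab
    simp only [mem_Iio] at ha ha'
    simp only [dif_pos ha, dif_pos ha'] at hab
    have := f.injective (Subtype.ext hab)
    exact congrArg Subtype.val this
  · intro a ha
    simp only [dif_pos ha]
    exact (f ⟨a, ha⟩).2

/-- closed sets missing `x` have countably many points outside the dense union -/
lemma C3B_cnt (hcnt : St_A1cnt.{u}) (hO : St_OCtble.{u}) (hDer : St_Der.{u}) (X : Type u)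
    [TopologicalSpace X] [CompactSpace X] [T2Space X] [TotallyDisconnectedSpace X]
    (x : X) (r : Ordinal.{u}) (hMin : Min X x r) (K : ℕ → Set X) (hSig : Sig x K)
    (hdense : Dense (⋃ n, K n)) (A : Set X) (hA : IsClosed A) (hx : x ∉ A) :
    (A ∩ (⋃ n, K n)ᶜ).Countable := by
  have hBcl : IsClosed (⋃ n, K n)ᶜ := (isOpen_iUnion fun n => (hSig n).1.isOpen).isClosed_compl
  have hcl : IsClosed (A ∩ (⋃ n, K n)ᶜ) := hA.inter hBcl
  refine hO X _ hcl (hMin.small _ hcl ?_) ?_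
  · intro h
    exact hx (((hDer.iff X _ _ _).1 h).1.1)
  · intro p hp
    obtain ⟨O, hO1, hO2⟩ := hcnt X x r hMin K hSig hdense p hp.2 (by
      rintro rfl
      exact hx hp.1)
    exact ⟨O, hO1, fun z _ hz' => hO2 z (mem_univ z) hz'⟩

theorem thm_C3B (hcnt : St_A1cnt.{u}) (hcof : St_A1cof.{u}) (hNS : St_NSig.{u})
    (hO : St_OCtble.{u}) (hK3 : St_KU3.{u}) (hDer : St_Der.{u}) : St_C3B.{u} := by
  classical
  intro X _ _ _ _ x r hMin hr K hSig hdense
  have hrc : r.cof = ℵ₁ := hcof X x r hMin K hSig hdense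
  set B : Set X := (⋃ n, K n)ᶜ with hB
  have hBcl : IsClosed B := (isOpen_iUnion fun n => (hSig n).1.isOpen).isClosed_compl
  have hxB : x ∈ B := by
    rw [hB, mem_compl_iff, mem_iUnion]
    rintro ⟨n, hn⟩
    exact (hSig n).2 hn
  -- `x` is not isolated in `B`
  have hacc : AccPt x (𝓟 B) := by
    by_contra hacc
    rw [accPt_iff_nhds] at hacc
    push Not at hacc
    obtain ⟨O, hO, hO'⟩ := hacc
    obtain ⟨O1, hO1, hO2, hO3⟩ := mem_nhds_iff.1 hO
    refine hNS X x r hMin ⟨fun n => Nat.casesOn n O1ᶜ K, ?_, ?_⟩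
    · intro n
      cases n with
      | zero => exact ⟨hO2.isClosed_compl, fun h => h hO3⟩
      | succ n => exact ⟨(hSig n).1.isClosed, (hSig n).2⟩
    · intro z hz
      by_cases hzK : z ∈ ⋃ n, K n
      · obtain ⟨n, hn⟩ := mem_iUnion.1 hzK
        exact ⟨n + 1, hn⟩
      · exact ⟨0, fun h => hz (hO' z ⟨hO1 h, hzK⟩)⟩
  set I : Set X := {p | p ∈ B ∧ p ≠ x ∧ ¬ AccPt p (𝓟 B)} with hI
  have hxI : x ∈ closure I := by
    rw [mem_closure_iff_nhds]
    intro N hN
    obtain ⟨z, hz, hzx⟩ := accPt_iff_nhds.1 hacc (interior N) (interior_mem_nhds.2 hN)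
    obtain ⟨M, hM, hzM, hMN⟩ := compact_exists_isClopen_in_isOpen
      (isOpen_interior.inter (isOpen_compl_singleton (x := x))) ⟨hz.1, hzx⟩
    obtain ⟨p, hp, hp'⟩ := hMin.scat (B ∩ M) (hBcl.inter hM.isClosed) ⟨z, hz.2, hzM⟩
    have hpx : p ≠ x := (hMN hp.2).2
    refine ⟨p, interior_subset (hMN hp.2).1, hp.1, hpx, ?_⟩
    intro hacc'
    apply hp'
    rw [accPt_iff_nhds] at hacc' ⊢
    intro W hW
    obtain ⟨y, hy, hyp⟩ := hacc' (W ∩ M) (Filter.inter_mem hW (hM.isOpen.mem_nhds hp.2))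
    exact ⟨y, ⟨hy.1.1, hy.2, hy.1.2⟩, hyp⟩
  have hIu : ¬ I.Countable := by
    intro hc
    exact hK3 X x r hMin hrc hr I hc (fun h => h.2.1 rfl) hxI
  obtain ⟨b, hb, hb'⟩ := C3B_inj.{u} hIu
  refine ⟨b, hb, ?_, ?_⟩
  · intro a ha
    exact hb' a ha
  · intro A hA hxA
    have h1 := C3B_cnt hcnt hO hDer X x r hMin K hSig hdense A hA hxA
    refine countable_of_injective_of_countable_image (hb.mono fun a ha => ha.1) (h1.mono ?_)
    rintro _ ⟨a, ⟨ha, ha'⟩, rfl⟩
    exact ⟨ha', (hb' a ha).1⟩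

end Pool.Agent.HCO
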