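import Pool.Agent.HCO.St4

/-!
# HCO [C3mm]
-/

set_option autoImplicit false

open Set Topology Cardinal Ordinal Order Filter

universe u v w

namespace Pool.Agent.HCO

private theorem C3mm_cof : ℵ₀ < (w1 : Ordinal.{u}).cof := by
  unfold w1
  rw [isRegular_aleph_one.cof_ord]
  exact aleph0_lt_aleph_one

private theorem C3mm_Iio {a : Ordinal.{u}} (h : a < w1) : (Iio a).Countable := by
  rw [← Cardinal.le_aleph0_iff_set_countable, Cardinal.mk_Iio_ordinal,
    Cardinal.lift_le_aleph0, ← Cardinal.lt_aleph_one_iff]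
  exact lt_ord.1 h

private theorem C3mm_pos : (0 : Ordinal.{u}) < w1 := by
  unfold w1
  rw [lt_ord, Ordinal.card_zero]
  exact lt_trans Cardinal.aleph0_pos aleph0_lt_aleph_one

/-- a countable set of countable ordinals is bounded -/
private theorem C3mm_bdd (hC : St_Club.{u}) {A : Set Ordinal.{u}} (hA : A.Countable)
    (h : ∀ a ∈ A, a < w1) : ∃ c < w1, ∀ a ∈ A, a < c := by
  rcases A.eq_empty_or_nonempty with rfl | hne
  · exact ⟨0, C3mm_pos, fun a ha => absurd ha (Set.notMem_empty a)⟩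
  · obtain ⟨f, hf⟩ := hA.exists_eq_range hne
    obtain ⟨c, hc, hfc⟩ := hC.supN w1 f C3mm_cof (fun i => h _ (by rw [hf]; exact mem_range_self i))
    refine ⟨c, hc, fun a ha => ?_⟩
    rw [hf] at ha
    obtain ⟨i, rfl⟩ := ha
    exact hfc i

/-- pigeonhole -/
private theorem C3mm_pigeon {α : Type v} {β : Type w} {I : Set α} (hI : ¬ I.Countable) (g : α → β)
    {B : Set β} (hB : B.Countable) (hg : ∀ i ∈ I, g i ∈ B) :
    ∃ b : β, ¬ {i | i ∈ I ∧ g i = b}.Countable := by
  by_contra hcon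
  simp only [not_exists, not_not] at hcon
  apply hI
  have h1 : I ⊆ ⋃ b ∈ B, {i | i ∈ I ∧ g i = b} := by
    intro i hi
    rw [mem_iUnion₂]
    exact ⟨g i, hg i hi, hi, rfl⟩
  exact (hB.biUnion (fun b _ => hcon b)).mono h1

/-- the finite subsets of a countable set -/
private theorem C3mm_fin {α : Type v} {S : Set α} (hS : S.Countable) :
    {F : Finset α | (F : Set α) ⊆ S}.Countable := by
  have h1 := Set.countable_ofPred_finite_subset hS
  refine MapsTo.countable_of_injOn (f := fun F : Finset α => (F : Set α)) ?_ ?_ h1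
  · intro F hF
    exact ⟨F.finite_toSet, hF⟩
  · exact Finset.coe_injective.injOn

section

variable {X : Type u} (D : Ordinal.{u} → Set X) (t : Ordinal.{u} → ℕ → X)

/-- conditions -/
private def C3mm_ok (p : Finset Ordinal.{u} × Finset (Ordinal.{u} × ℕ)) : Prop :=
  (∀ b ∈ p.1, b < w1) ∧ (∀ q ∈ p.2, q.1 < w1) ∧
    ∀ b ∈ p.1, ∀ q ∈ p.2, b < q.1 → t q.1 q.2 ∉ D b

/-- the poset -/
private def C3mm_P : Type (u + 1) :=
  {p : Finset Ordinal.{u} × Finset (Ordinal.{u} × ℕ) // C3mm_ok D t p}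

private instance C3mm_pre : Preorder (C3mm_P D t) where
  le p q := q.1.1 ⊆ p.1.1 ∧ q.1.2 ⊆ p.1.2
  le_refl p := ⟨Finset.Subset.refl _, Finset.Subset.refl _⟩
  le_trans p q r h1 h2 := ⟨h2.1.trans h1.1, h2.2.trans h1.2⟩

private theorem C3mm_le {p q : C3mm_P D t} : p ≤ q ↔ q.1.1 ⊆ p.1.1 ∧ q.1.2 ⊆ p.1.2 := Iff.rfl

private instance C3mm_small : Small.{u} (C3mm_P D t) := by
  let g : C3mm_P D t → Set (Iio (w1 : Ordinal.{u})) × Set (Iio (w1 : Ordinal.{u}) × ℕ) :=
    fun p => ({x | x.1 ∈ p.1.1}, {x | (x.1.1, x.2) ∈ p.1.2})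
  refine small_of_injective (f := g) ?_
  intro p q hpq
  have h1 : {x : Iio (w1 : Ordinal.{u}) | x.1 ∈ p.1.1} = {x | x.1 ∈ q.1.1} :=
    congrArg Prod.fst hpq
  have h2 : {x : Iio (w1 : Ordinal.{u}) × ℕ | (x.1.1, x.2) ∈ p.1.2} =
      {x | (x.1.1, x.2) ∈ q.1.2} := congrArg Prod.snd hpq
  apply Subtype.ext
  apply Prod.ext
  · ext b
    constructor
    · intro hb
      have hb1 := p.2.1 b hb
      have : (⟨b, hb1⟩ : Iio (w1 : Ordinal.{u})) ∈ {x : Iio (w1 : Ordinal.{u}) | x.1 ∈ p.1.1} := hb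
      rw [h1] at this
      exact this
    · intro hb
      have hb1 := q.2.1 b hb
      have : (⟨b, hb1⟩ : Iio (w1 : Ordinal.{u})) ∈ {x : Iio (w1 : Ordinal.{u}) | x.1 ∈ q.1.1} := hb
      rw [← h1] at this
      exact this
  · ext b
    constructor
    · intro hb
      have hb1 := p.2.2.1 b hb
      have : ((⟨b.1, hb1⟩, b.2) : Iio (w1 : Ordinal.{u}) × ℕ) ∈
        {x : Iio (w1 : Ordinal.{u}) × ℕ | (x.1.1, x.2) ∈ p.1.2} := hb
      rw [h2] at this
      exact this
    · intro hb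
      have hb1 := q.2.2.1 b hb
      have : ((⟨b.1, hb1⟩, b.2) : Iio (w1 : Ordinal.{u}) × ℕ) ∈
        {x : Iio (w1 : Ordinal.{u}) × ℕ | (x.1.1, x.2) ∈ q.1.2} := hb
      rw [← h2] at this
      exact this

/-- the support of a condition -/
private noncomputable def C3mm_supp (p : C3mm_P D t) : Finset Ordinal.{u} :=
  p.1.1 ∪ p.1.2.image Prod.fst

private theorem C3mm_supp_lt (p : C3mm_P D t) : ∀ z ∈ C3mm_supp D t p, z < w1 := by
  intro z hz
  unfold C3mm_supp at hz
  rcases Finset.mem_union.1 hz with h | h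
  · exact p.2.1 z h
  · obtain ⟨q, hq, rfl⟩ := Finset.mem_image.1 h
    exact p.2.2.1 q hq

/-- a union of two conditions -/
private theorem C3mm_union {p q : C3mm_P D t} {r : Finset Ordinal.{u}}
    (h1 : p.1.1 ∩ r = q.1.1 ∩ r) (h2 : p.1.2.filter (fun x => x.1 ∈ r) =
      q.1.2.filter (fun x => x.1 ∈ r))
    (h3 : ∀ y ∈ C3mm_supp D t p, y ∉ r → ∀ z ∈ C3mm_supp D t q, z ∉ r → y < z)
    (h4 : ¬ ∃ s, s ≤ p ∧ s ≤ q) :
    ∃ x ∈ q.1.2, x.1 ∉ r ∧ ∃ b ∈ p.1.1, b ∉ r ∧ t x.1 x.2 ∈ D b := by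
  by_contra hcon
  apply h4
  have hok : C3mm_ok D t (p.1.1 ∪ q.1.1, p.1.2 ∪ q.1.2) := by
    refine ⟨?_, ?_, ?_⟩
    · intro b hb
      rcases Finset.mem_union.1 hb with h | h
      · exact p.2.1 b h
      · exact q.2.1 b h
    · intro b hb
      rcases Finset.mem_union.1 hb with h | h
      · exact p.2.2.1 b h
      · exact q.2.2.1 b h
    · intro b hb x hx hlt
      have hb' : b ∈ p.1.1 ∨ b ∈ q.1.1 := Finset.mem_union.1 hb
      have hx' : x ∈ p.1.2 ∨ x ∈ q.1.2 := Finset.mem_union.1 hx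
      have hrb : b ∈ r → (b ∈ p.1.1 ↔ b ∈ q.1.1) := by
        intro hr
        constructor
        · intro h
          have : b ∈ p.1.1 ∩ r := Finset.mem_inter.2 ⟨h, hr⟩
          rw [h1] at this
          exact (Finset.mem_inter.1 this).1
        · intro h
          have : b ∈ q.1.1 ∩ r := Finset.mem_inter.2 ⟨h, hr⟩
          rw [← h1] at this
          exact (Finset.mem_inter.1 this).1
      have hrx : x.1 ∈ r → (x ∈ p.1.2 ↔ x ∈ q.1.2) := by
        intro hr
        constructor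
        · intro h
          have : x ∈ p.1.2.filter (fun x => x.1 ∈ r) := Finset.mem_filter.2 ⟨h, hr⟩
          rw [h2] at this
          exact (Finset.mem_filter.1 this).1
        · intro h
          have : x ∈ q.1.2.filter (fun x => x.1 ∈ r) := Finset.mem_filter.2 ⟨h, hr⟩
          rw [← h2] at this
          exact (Finset.mem_filter.1 this).1
      rcases hb' with hb' | hb' <;> rcases hx' with hx' | hx'
      · exact p.2.2.2 b hb' x hx' hlt
      · by_cases hxr : x.1 ∈ r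
        · exact p.2.2.2 b hb' x ((hrx hxr).2 hx') hlt
        · by_cases hbr : b ∈ r
          · exact q.2.2.2 b ((hrb hbr).1 hb') x hx' hlt
          · intro hmem
            exact hcon ⟨x, hx', hxr, b, hb', hbr, hmem⟩
      · by_cases hbr : b ∈ r
        · exact p.2.2.2 b ((hrb hbr).2 hb') x hx' hlt
        · by_cases hxr : x.1 ∈ r
          · exact q.2.2.2 b hb' x ((hrx hxr).1 hx') hlt
          · exfalso
            have hs1 : x.1 ∈ C3mm_supp D t p :=
              Finset.mem_union_right _ (Finset.mem_image_of_mem _ hx')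
            have hs2 : b ∈ C3mm_supp D t q := Finset.mem_union_left _ hb'
            exact lt_asymm hlt (h3 x.1 hs1 hxr b hs2 hbr)
      · exact q.2.2.2 b hb' x hx' hlt
  exact ⟨⟨_, hok⟩, (C3mm_le D t).2 ⟨Finset.subset_union_left, Finset.subset_union_left⟩,
    (C3mm_le D t).2 ⟨Finset.subset_union_right, Finset.subset_union_right⟩⟩

end

/-- the countable chain condition -/
private theorem C3mm_ccc (hDe : St_Delta.{u}) {X : Type u}
    [TopologicalSpace X] [CompactSpace X]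
    (D : Ordinal.{u} → Set X) (C : ℕ → Set X) (t : Ordinal.{u} → ℕ → X)
    (hD : ∀ a < w1, IsClopen (D a)) (hCc : ∀ n, IsClosed (C n)) (hCm : Monotone C)
    (ht : ∀ a < w1, ∀ k, ∃ n, t a k ∈ C n)
    (hz : ∀ n, ∀ z ∈ C n, {a | a < w1 ∧ z ∈ D a}.Countable) : Ccc.{u, u + 1} (C3mm_P D t) := by
  classical
  intro f
  by_contra hcon
  have hinc : ∀ i < w1, ∀ j < w1, i < j → ¬ ∃ s, s ≤ f i ∧ s ≤ f j :=
    fun i _ j hj hij h => hcon ⟨i, j, hij, hj, h⟩
  obtain ⟨I, r, n, hI, hIc, hIr, hIs⟩ := hDe (fun a => C3mm_supp D t (f a))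
    (fun a _ z hz => C3mm_supp_lt D t (f a) z hz)
  -- a common level for the points of a condition
  have hlev : ∀ i : Ordinal.{u}, ∃ m : ℕ, ∀ x ∈ (f i).1.2, t x.1 x.2 ∈ C m := by
    intro i
    have h1 : ∀ x ∈ (f i).1.2, ∀ᶠ m in atTop, t x.1 x.2 ∈ C m := by
      intro x hx
      obtain ⟨n, hn⟩ := ht x.1 ((f i).2.2.1 x hx) x.2
      filter_upwards [eventually_ge_atTop n] with m hm
      exact hCm hm hn
    exact ((Filter.eventually_all_finset (f i).1.2).2 h1).exists
  choose lev hlev using hlev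
  set g : Ordinal.{u} → (Finset Ordinal.{u} × Finset (Ordinal.{u} × ℕ)) × (ℕ × ℕ) := fun i =>
    (((f i).1.1 ∩ r, (f i).1.2.filter (fun x => x.1 ∈ r)),
      (((f i).1.2.filter (fun x => x.1 ∉ r)).card, lev i)) with hg
  obtain ⟨val, hval⟩ := C3mm_pigeon hIc g
    (B := ({F : Finset Ordinal.{u} | (F : Set Ordinal.{u}) ⊆ (r : Set Ordinal.{u})} ×ˢ
      {F : Finset (Ordinal.{u} × ℕ) | (F : Set (Ordinal.{u} × ℕ)) ⊆
        (r : Set Ordinal.{u}) ×ˢ (Set.univ : Set ℕ)}) ×ˢ (Set.univ : Set (ℕ × ℕ)))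
    (((C3mm_fin r.countable_toSet).prod
      (C3mm_fin (r.countable_toSet.prod countable_univ))).prod countable_univ)
    (by
      intro i _
      refine ⟨⟨?_, ?_⟩, mem_univ _⟩
      · intro x hx
        exact Finset.mem_coe.2 (Finset.mem_inter.1 (Finset.mem_coe.1 hx)).2
      · intro x hx
        exact ⟨Finset.mem_coe.2 (Finset.mem_filter.1 (Finset.mem_coe.1 hx)).2, mem_univ _⟩)
  set I' : Set Ordinal.{u} := {i | i ∈ I ∧ g i = val} with hI'
  have hI'w : ∀ i ∈ I', i < w1 := fun i hi => hI hi.1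
  set p : ℕ := val.2.1 with hp
  set m : ℕ := val.2.2 with hm
  have hcard : ∀ i ∈ I', ((f i).1.2.filter (fun x => x.1 ∉ r)).card = p := by
    intro i hi
    rw [hp, ← hi.2]
  have hm' : ∀ i ∈ I', ∀ x ∈ (f i).1.2, t x.1 x.2 ∈ C m := by
    intro i hi x hx
    have : lev i = m := by rw [hm, ← hi.2]
    rw [← this]
    exact hlev i x hx
  have hbad : ∀ i ∈ I', ∀ j ∈ I', i < j → ∃ x ∈ (f j).1.2, x.1 ∉ r ∧
      ∃ b ∈ (f i).1.1, b ∉ r ∧ t x.1 x.2 ∈ D b := by
    intro i hi j hj hij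
    have hgij : g i = g j := hi.2.trans hj.2.symm
    have e1 : (f i).1.1 ∩ r = (f j).1.1 ∩ r := congrArg (fun z => z.1.1) hgij
    have e2 : (f i).1.2.filter (fun x => x.1 ∈ r) = (f j).1.2.filter (fun x => x.1 ∈ r) :=
      congrArg (fun z => z.1.2) hgij
    exact C3mm_union D t e1 e2 (hIs i hi.1 j hj.1 hij) (hinc i (hI hi.1) j (hI hj.1) hij)
  -- enumeration of the points
  have henum : ∀ j : Ordinal.{u}, ∃ z : Fin p → X, j ∈ I' →
      (∀ k, z k ∈ C m) ∧ ∀ x ∈ (f j).1.2, x.1 ∉ r → ∃ k, z k = t x.1 x.2 := by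
    intro j
    by_cases hj : j ∈ I'
    · have hc := hcard j hj
      have e : {x // x ∈ (f j).1.2.filter (fun x => x.1 ∉ r)} ≃ Fin p :=
        Finset.equivFinOfCardEq hc
      refine ⟨fun k => t (e.symm k).1.1 (e.symm k).1.2, fun _ => ⟨?_, ?_⟩⟩
      · intro k
        exact hm' j hj _ (Finset.mem_filter.1 (e.symm k).2).1
      · intro x hx hxr
        refine ⟨e ⟨x, Finset.mem_filter.2 ⟨hx, hxr⟩⟩, ?_⟩
        show t (e.symm (e ⟨x, _⟩)).1.1 (e.symm (e ⟨x, _⟩)).1.2 = _
        rw [Equiv.symm_apply_apply]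
    · by_cases hX : Nonempty X
      · exact ⟨fun _ => hX.some, fun h => absurd h hj⟩
      · have hp0 : p = 0 := by
          by_contra hp0
          have hne : I'.Nonempty := by
            rw [nonempty_iff_ne_empty]
            intro h
            exact hval (by rw [h]; exact countable_empty)
          obtain ⟨i, hi⟩ := hne
          have := hcard i hi
          have hpos : 0 < ((f i).1.2.filter (fun x => x.1 ∉ r)).card := by omega
          obtain ⟨x, _⟩ := Finset.card_pos.1 hpos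
          exact hX ⟨t x.1 x.2⟩
        refine ⟨fun k => absurd k.2 (by omega), fun h => absurd h hj⟩
  choose z hz1 using henum
  set O : Ordinal.{u} → Set X := fun i => ⋃ b ∈ (f i).1.1.filter (fun b => b ∉ r), D b with hO
  have hOc : ∀ i, IsClosed (O i) := by
    intro i
    refine isClosed_biUnion_finset (fun b hb => ?_)
    exact (hD b ((f i).2.1 b (Finset.mem_filter.1 hb).1)).1
  have hWc : ∀ i, IsClosed {u : Fin p → X | ∃ k, u k ∈ O i} := by
    intro i
    have : {u : Fin p → X | ∃ k, u k ∈ O i} = ⋃ k, (fun u : Fin p → X => u k) ⁻¹' (O i) := by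
      ext u
      simp only [mem_ofPred_eq, mem_iUnion, mem_preimage]
    rw [this]
    exact isClosed_iUnion_of_finite (fun k => (hOc i).preimage (continuous_apply k))
  have hEc : IsClosed {u : Fin p → X | ∀ k, u k ∈ C m} := by
    have : {u : Fin p → X | ∀ k, u k ∈ C m} = ⋂ k, (fun u : Fin p → X => u k) ⁻¹' (C m) := by
      ext u
      simp only [mem_ofPred_eq, mem_iInter, mem_preimage]
    rw [this]
    exact isClosed_iInter (fun k => (hCc m).preimage (continuous_apply k))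
  -- `I'` is unbounded
  have hunb : ∀ i ∈ I', ∃ j ∈ I', i < j := by
    intro i hi
    by_contra hno
    apply hval
    have hs : I' ⊆ Iio i ∪ {i} := by
      intro j hj
      rcases lt_trichotomy j i with h | h | h
      · exact Or.inl h
      · exact Or.inr h
      · exact absurd ⟨j, hj, h⟩ hno
    exact ((C3mm_Iio (hI'w i hi)).union (countable_singleton i)).mono hs
  have hne : I'.Nonempty := by
    rw [nonempty_iff_ne_empty]
    intro h
    exact hval (by rw [h]; exact countable_empty)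
  have : Nonempty I' := hne.to_subtype
  set F : Filter (Fin p → X) := Filter.map (fun j : I' => z j.1) atTop with hF
  have : NeBot F := Filter.map_neBot
  obtain ⟨u, hu⟩ := exists_clusterPt_of_compactSpace F
  have hclu : ∀ W : Set (Fin p → X), IsClosed W → (∀ᶠ j : I' in atTop, z j.1 ∈ W) → u ∈ W := by
    intro W hW hev
    refine isClosed_iff_clusterPt.1 hW u (hu.mono ?_)
    rw [Filter.le_principal_iff, hF, Filter.mem_map]
    exact hev
  have huE : ∀ k, u k ∈ C m :=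
    hclu _ hEc (Filter.Eventually.of_forall (fun j => (hz1 j.1 j.2).1))
  have huW : ∀ i ∈ I', ∃ k, u k ∈ O i := by
    intro i hi
    refine hclu _ (hWc i) ?_
    obtain ⟨i', hi', hlt⟩ := hunb i hi
    filter_upwards [Filter.eventually_ge_atTop (⟨i', hi'⟩ : I')] with j hj
    have hij : i < j.1 := lt_of_lt_of_le hlt hj
    obtain ⟨x, hx, hxr, b, hb, hbr, hmem⟩ := hbad i hi j.1 j.2 hij
    obtain ⟨k, hk⟩ := (hz1 j.1 j.2).2 x hx hxr
    refine ⟨k, ?_⟩
    rw [hk]
    exact mem_biUnion (Finset.mem_coe.2 (Finset.mem_filter.2 ⟨hb, hbr⟩)) hmem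
  have huW' : ∀ i : Ordinal.{u}, ∃ k : Option (Fin p), i ∈ I' → ∃ k', k = some k' ∧ u k' ∈ O i := by
    intro i
    by_cases hi : i ∈ I'
    · obtain ⟨k, hk⟩ := huW i hi
      exact ⟨some k, fun _ => ⟨k, rfl, hk⟩⟩
    · exact ⟨none, fun h => absurd h hi⟩
  choose kk hkk using huW'
  obtain ⟨k0, hk0⟩ := C3mm_pigeon hval kk (B := Set.univ) (Set.to_countable _)
    (fun i _ => mem_univ _)
  have hk1 : ∃ k : Fin p, k0 = some k := by
    have hne0 : {i | i ∈ I' ∧ kk i = k0}.Nonempty := by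
      rw [nonempty_iff_ne_empty]
      intro h
      exact hk0 (by rw [h]; exact countable_empty)
    obtain ⟨i, hi, hik⟩ := hne0
    obtain ⟨k', hk', _⟩ := hkk i hi
    exact ⟨k', by rw [← hik, hk']⟩
  obtain ⟨k, rfl⟩ := hk1
  have hbb : ∀ i : Ordinal.{u}, ∃ b : Ordinal.{u}, i ∈ I' → kk i = some k →
      b ∈ (f i).1.1 ∧ b ∉ r ∧ u k ∈ D b := by
    intro i
    by_cases hi : i ∈ I' ∧ kk i = some k
    · obtain ⟨k', hk', hu'⟩ := hkk i hi.1
      have : k' = k := Option.some.inj (hk'.symm.trans hi.2)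
      subst this
      rw [hO] at hu'
      obtain ⟨b, hb, hub⟩ := mem_iUnion₂.1 hu'
      exact ⟨b, fun _ _ => ⟨(Finset.mem_filter.1 hb).1, (Finset.mem_filter.1 hb).2, hub⟩⟩
    · exact ⟨0, fun h1 h2 => absurd ⟨h1, h2⟩ hi⟩
  choose bb hbb using hbb
  apply hk0
  refine MapsTo.countable_of_injOn (f := bb) ?_ ?_ (hz m (u k) (huE k))
  · intro i hi
    obtain ⟨h1, _, h3⟩ := hbb i hi.1 hi.2
    exact ⟨(f i).2.1 _ h1, h3⟩
  · intro i hi j hj hij
    by_contra hne'
    obtain ⟨h1, h2, _⟩ := hbb i hi.1 hi.2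
    obtain ⟨h1', h2', _⟩ := hbb j hj.1 hj.2
    rcases lt_or_gt_of_ne hne' with hlt | hlt
    · exact absurd hij (ne_of_lt (hIs i hi.1.1 j hj.1.1 hlt (bb i)
        (Finset.mem_union_left _ h1) h2 (bb j) (Finset.mem_union_left _ h1') h2'))
    · exact absurd hij.symm (ne_of_lt (hIs j hj.1.1 i hi.1.1 hlt (bb j)
        (Finset.mem_union_left _ h1') h2' (bb i) (Finset.mem_union_left _ h1) h2))

private theorem C3mm_idx {a a' : Ordinal.{u}} {m m' : ℕ} (h : ω * a + m = ω * a' + m') :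
    a = a' ∧ m = m' := by
  have h1 : a = a' := by
    have h2 : (ω * a + (m : Ordinal.{u})) / ω = a := by
      rw [Ordinal.mul_add_div a Ordinal.omega0_ne_zero,
        Ordinal.div_eq_zero_of_lt (Ordinal.natCast_lt_omega0 m), add_zero]
    have h3 : (ω * a' + (m' : Ordinal.{u})) / ω = a' := by
      rw [Ordinal.mul_add_div a' Ordinal.omega0_ne_zero,
        Ordinal.div_eq_zero_of_lt (Ordinal.natCast_lt_omega0 m'), add_zero]
    rw [← h2, h, h3]
  subst h1
  refine ⟨rfl, ?_⟩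
  have h4 : (m : Ordinal.{u}) = (m' : Ordinal.{u}) := add_left_cancel h
  exact_mod_cast h4

private theorem C3mm_idx_lt {a : Ordinal.{u}} (ha : a < w1) (m : ℕ) :
    ω * a + (m : Ordinal.{u}) < w1 := by
  have hw : (ω : Ordinal.{u}) < w1 := by
    unfold w1
    rw [lt_ord, Ordinal.card_omega0]
    exact aleph0_lt_aleph_one
  have h1 : ω * a < w1 := Ordinal.isPrincipal_mul_ord (Cardinal.aleph0_le_aleph 1) hw ha
  have h2 : (m : Ordinal.{u}) < w1 := lt_trans (Ordinal.natCast_lt_omega0 m) hw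
  exact Ordinal.isPrincipal_add_ord (Cardinal.aleph0_le_aleph 1) h1 h2

theorem thm_C3mm (hC : St_Club.{u}) (hDe : St_Delta.{u}) (hCcc : St_Ccc.{u, u + 1}) :
    St_C3mm.{u} := by
  classical
  intro hMM X _ _ _ D C t hD hCc hCm ht hz hlast
  have hccc := C3mm_ccc hDe D C t hD hCc hCm ht hz
  have hok0 : C3mm_ok D t (∅, ∅) :=
    ⟨fun b hb => absurd hb (Finset.notMem_empty b), fun b hb => absurd hb (Finset.notMem_empty b),
      fun b hb => absurd hb (Finset.notMem_empty b)⟩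
  have hok1 : ∀ a < w1, C3mm_ok D t ({a}, ∅) := by
    intro a ha
    refine ⟨fun b hb => ?_, fun b hb => absurd hb (Finset.notMem_empty b),
      fun b _ q hq => absurd hq (Finset.notMem_empty q)⟩
    rw [Finset.mem_singleton.1 hb]
    exact ha
  set f : Ordinal.{u} → C3mm_P D t := fun a =>
    if h : a < w1 then ⟨({a}, ∅), hok1 a h⟩ else ⟨(∅, ∅), hok0⟩ with hf
  set Dn : Ordinal.{u} → Set (C3mm_P D t) := fun i =>
    {p | ∀ (a : Ordinal.{u}) (m : ℕ), a < w1 → i = ω * a + m → ∃ k, m ≤ k ∧ (a, k) ∈ p.1.2}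
    with hDn
  have hdense : ∀ i < w1, DenseP (Dn i) := by
    intro i _ p
    by_cases hex : ∃ (a : Ordinal.{u}) (m : ℕ), a < w1 ∧ i = ω * a + m
    · obtain ⟨a, m, ha, hi⟩ := hex
      have h1 : ∀ b ∈ p.1.1, ∀ᶠ k in atTop, b < a → t a k ∉ D b := by
        intro b hb
        by_cases hba : b = a
        · subst hba
          exact Filter.Eventually.of_forall (fun k h => absurd h (lt_irrefl b))
        · obtain ⟨m', hm'⟩ := hlast a ha b (p.2.1 b hb) (Ne.symm hba)
          filter_upwards [eventually_ge_atTop m'] with k hk _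
          exact hm' k hk
      obtain ⟨k, hk1, hk2⟩ := (((Filter.eventually_all_finset p.1.1).2 h1).and
        (eventually_ge_atTop m)).exists
      have hok : C3mm_ok D t (p.1.1, insert (a, k) p.1.2) := by
        refine ⟨p.2.1, ?_, ?_⟩
        · intro q hq
          rcases Finset.mem_insert.1 hq with rfl | hq
          · exact ha
          · exact p.2.2.1 q hq
        · intro b hb q hq hlt
          rcases Finset.mem_insert.1 hq with rfl | hq
          · exact hk1 b hb hlt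
          · exact p.2.2.2 b hb q hq hlt
      refine ⟨⟨_, hok⟩, (C3mm_le D t).2 ⟨Finset.Subset.refl _, Finset.subset_insert _ _⟩, ?_⟩
      intro a' m' _ hi'
      obtain ⟨rfl, rfl⟩ := C3mm_idx (hi.symm.trans hi')
      exact ⟨k, hk2, Finset.mem_insert_self _ _⟩
    · refine ⟨p, le_refl p, ?_⟩
      intro a m ha hi
      exact absurd ⟨a, m, ha, hi⟩ hex
  obtain ⟨G, hG, hGd, hGf⟩ := hCcc hMM (C3mm_P D t) hccc f Dn hdense
  refine ⟨{b | ∃ p ∈ G, b ∈ p.1.1}, fun a => {k | ∃ p ∈ G, (a, k) ∈ p.1.2}, ?_, ?_, ?_, ?_⟩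
  · rintro b ⟨p, _, hb⟩
    exact p.2.1 b hb
  · intro hcount
    obtain ⟨c, hc, hcb⟩ := C3mm_bdd hC hcount (by
      rintro b ⟨p, _, hb⟩
      exact p.2.1 b hb)
    obtain ⟨b, hcb', hb, hfb⟩ := hGf c hc
    have hmem : b ∈ {b | ∃ p ∈ G, b ∈ p.1.1} := by
      refine ⟨f b, hfb, ?_⟩
      rw [hf]
      show b ∈ (if h : b < w1 then (⟨({b}, ∅), hok1 b h⟩ : C3mm_P D t) else ⟨(∅, ∅), hok0⟩).1.1
      rw [dif_pos hb]
      exact Finset.mem_singleton_self b
    exact absurd (hcb b hmem) (not_lt.2 hcb')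
  · intro a ha
    rw [Set.infinite_iff_exists_gt]
    intro m
    obtain ⟨p, hpG, hp⟩ := hGd (ω * a + ((m + 1 : ℕ) : Ordinal.{u})) (C3mm_idx_lt ha (m + 1))
    obtain ⟨k, hk, hk'⟩ := hp a (m + 1) ha rfl
    exact ⟨k, ⟨p, hpG, hk'⟩, hk⟩
  · rintro b ⟨p, hpG, hb⟩ a ha hba k ⟨q, hqG, hk⟩
    obtain ⟨s, _, hsp, hsq⟩ := hG.2.2 p hpG q hqG
    exact s.2.2.2 b (hsp.1 hb) (a, k) (hsq.2 hk) hba

end Pool.Agent.HCO
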