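import Pool.Agent.HCO.C3size

/-!
# HCO [C3pc]
-/

set_option autoImplicit false

open Set Topology Cardinal Ordinal Order Filter

universe u v w

namespace Pool.Agent.HCO

/-- an injection of a set of size at most `ℵ₁` into `ω₁` -/
lemma C3pc_emb {X : Type u} {S : Set X} (h : #S ≤ ℵ₁) :
    ∃ j : X → Ordinal.{u}, Set.InjOn j S ∧ ∀ z ∈ S, j z < w1 := by
  classical
  have h3 : (w1 : Ordinal.{u}).card = ℵ₁ := by
    unfold w1
    exact Cardinal.card_ord _
  have h1 : #S ≤ #((w1 : Ordinal.{u}).ToType) := by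
    rw [Cardinal.mk_toType, h3]
    exact h
  obtain ⟨f⟩ := h1
  refine ⟨fun z => if hz : z ∈ S then ((Ordinal.ToType.mk.symm (f ⟨z, hz⟩)).1 : Ordinal.{u})
    else 0, ?_, ?_⟩
  · intro z hz z' hz' hzz
    simp only [dif_pos hz, dif_pos hz'] at hzz
    have h2 := Ordinal.ToType.mk.symm.injective (Subtype.ext hzz)
    exact congrArg Subtype.val (f.injective h2)
  · intro z hz
    simp only [dif_pos hz]
    exact (Ordinal.ToType.mk.symm (f ⟨z, hz⟩)).2

theorem thm_C3pc (hB : St_C3B.{u}) (hsize : St_C3size.{u}) (hK3 : St_KU3.{u})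
    (hcof : St_A1cof.{u}) (hClub : St_Club.{u}) : St_C3pc.{u} := by
  classical
  intro X _ _ _ _ x r hMin hr K hSig hmono hdense
  have hrc : r.cof = ℵ₁ := hcof X x r hMin K hSig hdense
  have hKo : ∀ n, IsOpen (K n) := fun n => (hSig n).1.isOpen
  have hxK : x ∉ ⋃ n, K n := by
    rw [mem_iUnion]
    rintro ⟨n, hn⟩
    exact (hSig n).2 hn
  obtain ⟨b, hbinj, hb, hbc⟩ := hB X x r hMin hr K hSig hdense
  have hD0 : ∀ a < w1, ∃ D : Set X, IsClopen D ∧ x ∉ D ∧ ∀ z ∈ (⋃ n, K n)ᶜ, (z ∈ D ↔ z = b a) :=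
    fun a ha => C3size_D (hb a ha).1 (hb a ha).2.1 (hb a ha).2.2
  choose! D hDc hDx hDz using hD0
  -- the claim
  have hclaim : ∃ l : ℕ, ∀ A : Set X, A.Countable → A ⊆ (⋃ n, K n) \ K l →
      ¬ {a | a < w1 ∧ Disjoint (D a) A}.Countable := by
    by_contra hcon
    push Not at hcon
    choose A hAc hAK hAD using hcon
    set Q : Set X := ⋃ l, A l with hQ
    have hQc : Q.Countable := countable_iUnion hAc
    have hxQ : x ∉ closure Q := by
      refine hK3 X x r hMin hrc hr Q hQc ?_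
      intro h
      obtain ⟨l, hl⟩ := mem_iUnion.1 h
      exact hxK (hAK l hl).1
    have h1 : {a | a < w1 ∧ b a ∈ closure Q}.Countable := hbc _ isClosed_closure hxQ
    have h2 : (⋃ l, {a | a < w1 ∧ Disjoint (D a) (A l)}).Countable := countable_iUnion hAD
    have h3 : Iio (w1 : Ordinal.{u}) ⊆ {a | a < w1 ∧ b a ∈ closure Q} ∪
        ⋃ l, {a | a < w1 ∧ Disjoint (D a) (A l)} := by
      intro a ha
      by_cases h : ∃ l, Disjoint (D a) (A l)
      · obtain ⟨l, hl⟩ := h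
        exact Or.inr (mem_iUnion.2 ⟨l, ha, hl⟩)
      · push Not at h
        left
        refine ⟨ha, C3size_cl hKo hmono (hDc a ha).isClosed
          (fun z hz hzD => (hDz a ha z hz).1 hzD) ?_⟩
        intro n
        obtain ⟨z, hz1, hz2⟩ := Set.not_disjoint_iff.1 (h n)
        exact ⟨z, mem_iUnion.2 ⟨n, hz2⟩, hz1, (hAK n hz2).2⟩
    have h4 : (Iio (w1 : Ordinal.{u})).Countable := (h1.union h2).mono h3
    rw [← Cardinal.le_aleph0_iff_set_countable, Cardinal.mk_Iio_ordinal, Cardinal.lift_le_aleph0]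
      at h4
    have h5 : (w1 : Ordinal.{u}).card = ℵ₁ := by
      unfold w1
      exact Cardinal.card_ord _
    rw [h5] at h4
    exact absurd h4 (not_le.2 Cardinal.aleph0_lt_aleph_one)
  obtain ⟨l, hl⟩ := hclaim
  obtain ⟨j, hj, hjw⟩ := C3pc_emb (S := (⋃ n, K n) \ K l)
    ((Cardinal.mk_le_mk_of_subset sdiff_subset).trans (hsize X x r hMin hr K hSig hmono hdense))
  -- countable initial parts
  have hA : ∀ c < w1, ({z | z ∈ (⋃ n, K n) \ K l ∧ j z < c} : Set X).Countable := by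
    intro c hc
    refine countable_of_injective_of_countable_image (hj.mono fun z hz => hz.1)
      ((C3_iio hc).mono ?_)
    rintro _ ⟨z, hz, rfl⟩
    exact hz.2
  have hg0 : ∀ c < w1, ∃ a < w1, c < a ∧ Disjoint (D a) {z | z ∈ (⋃ n, K n) \ K l ∧ j z < c} := by
    intro c hc
    obtain ⟨a, ha, hca⟩ := C3_unb (hl _ (hA c hc) fun z hz => hz.1) hc
    exact ⟨a, ha.1, hca, ha.2⟩
  choose! g hgw hgc hgD using hg0
  have hCl := hClub.fn ℵ₁ g Cardinal.isRegular_aleph_one Cardinal.aleph0_lt_aleph_one hgw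
  set C' : Set Ordinal.{u} := {a | a < (ℵ₁ : Cardinal.{u}).ord ∧ IsSuccLimit a ∧
    ∀ b < a, g b < a} with hC'
  have hC'w : ∀ c ∈ C', c < w1 := fun c hc => hc.1
  have hC'u : ∀ e < w1, ∃ c ∈ C', e < c := hCl.2.1
  have hginj : Set.InjOn g C' := by
    intro c hc c' hc' h
    rcases lt_trichotomy c c' with hlt | heq | hlt
    · exact absurd (h ▸ ((hc'.2.2 c hlt).trans (hgc c' (hC'w c' hc')))) (lt_irrefl _)
    · exact heq
    · exact absurd (h ▸ ((hc.2.2 c' hlt).trans (hgc c (hC'w c hc)))) (lt_irrefl _)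
  have hC'c : ¬ C'.Countable := by
    intro h
    obtain ⟨e, he, he'⟩ := C3_bdd hClub h fun c hc => hC'w c hc
    obtain ⟨c, hc, hec⟩ := hC'u e he
    exact absurd hec (not_lt.2 (he' c hc).le)
  obtain ⟨e, heinj, he⟩ := C3B_inj.{u} hC'c
  have hew : ∀ a < w1, e a < w1 := fun a ha => hC'w _ (he a ha)
  have hgew : ∀ a < w1, g (e a) < w1 := fun a ha => hgw _ (hew a ha)
  have hgeinj : Set.InjOn (fun a => g (e a)) (Iio w1) := by
    intro a ha a' ha' h
    exact heinj ha ha' (hginj (he a ha) (he a' ha') h)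
  refine ⟨fun a => b (g (e a)), fun a => D (g (e a)), l, ?_, ?_, ?_, ?_, ?_⟩
  · intro a ha a' ha' h
    exact hgeinj ha ha' (hbinj (hgew a ha) (hgew a' ha') h)
  · intro a ha
    exact ⟨(hb _ (hgew a ha)).1, (hb _ (hgew a ha)).2.1⟩
  · intro A hAcl hxA
    refine countable_of_injective_of_countable_image (f := fun a => g (e a))
      (hgeinj.mono fun a ha => ha.1) ((hbc A hAcl hxA).mono ?_)
    rintro _ ⟨a, ha, rfl⟩
    exact ⟨hgew a ha.1, ha.2⟩
  · intro a ha
    exact ⟨hDc _ (hgew a ha), hDx _ (hgew a ha), fun z hz => hDz _ (hgew a ha) z hz⟩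
  · intro z hz hzl
    have hjz := hjw z ⟨hz, hzl⟩
    refine countable_of_injective_of_countable_image (f := e)
      (heinj.mono fun a ha => ha.1) ?_
    have hs : IsSuccLimit (w1 : Ordinal.{u}) := by
      unfold w1
      exact Cardinal.isSuccLimit_ord (Cardinal.aleph0_le_aleph 1)
    refine (C3_iio (hs.succ_lt hjz)).mono ?_
    rintro _ ⟨a, ha, rfl⟩
    rw [mem_Iio, Order.lt_succ_iff]
    by_contra hcon
    rw [not_le] at hcon
    exact Set.disjoint_left.1 (hgD (e a) (hew a ha.1)) ha.2 ⟨⟨hz, hzl⟩, hcon⟩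

end Pool.Agent.HCO
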