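import Pool.Agent.HCO.C3B

/-!
# HCO [C3size]
-/

set_option autoImplicit false

open Set Topology Cardinal Ordinal Order Filter

universe u v w

namespace Pool.Agent.HCO

/-- a clopen set around an isolated point of the complement of the union -/
lemma C3size_D {X : Type u} [TopologicalSpace X] [CompactSpace X] [T2Space X]
    [TotallyDisconnectedSpace X] {x p : X} {B : Set X} (hp : p ∈ B) (hpx : p ≠ x)
    (h : ¬ AccPt p (𝓟 B)) :
    ∃ D : Set X, IsClopen D ∧ x ∉ D ∧ ∀ z ∈ B, (z ∈ D ↔ z = p) := by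
  rw [accPt_iff_nhds] at h
  push Not at h
  obtain ⟨O, hO, hO'⟩ := h
  obtain ⟨M, hM, hpM, hMN⟩ := compact_exists_isClopen_in_isOpen
    ((isOpen_interior (s := O)).inter (isOpen_compl_singleton (x := x)))
    ⟨mem_interior_iff_mem_nhds.2 hO, hpx⟩
  refine ⟨M, hM, fun hx => (hMN hx).2 rfl, ?_⟩
  intro z hz
  constructor
  · intro hzM
    exact hO' z ⟨interior_subset (hMN hzM).1, hz⟩
  · rintro rfl
    exact hpM

/-- the isolated point is a limit of points of the sets `K n` -/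
lemma C3size_cl {X : Type u} [TopologicalSpace X] [CompactSpace X] {K : ℕ → Set X}
    (hK : ∀ n, IsOpen (K n)) (hm : Monotone K) {D S : Set X} {p : X} (hD : IsClosed D)
    (h : ∀ z, z ∉ (⋃ n, K n) → z ∈ D → z = p) (hS : ∀ n, ∃ z ∈ S, z ∈ D ∧ z ∉ K n) :
    p ∈ closure S := by
  rw [mem_closure_iff]
  intro o ho hpo
  have h1 : D \ o ⊆ ⋃ n, K n := by
    rintro z ⟨hz1, hz2⟩
    by_contra hz
    exact hz2 (h z hz hz1 ▸ hpo)
  obtain ⟨n, hn⟩ := C3_cover hK hm (hD.sdiff ho) h1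
  obtain ⟨z, hz, hzD, hzK⟩ := hS n
  exact ⟨z, by_contra fun hzo => hzK (hn ⟨hzD, hzo⟩), hz⟩

/-- a family indexed by `ω₁ × ℕ` has at most `ℵ₁` members -/
lemma C3size_card {X : Type u} (y : Ordinal.{u} → ℕ → X) :
    #{z : X | ∃ a < w1, ∃ n, z = y a n} ≤ ℵ₁ := by
  have h1 : {z : X | ∃ a < w1, ∃ n, z = y a n} ⊆
      range (fun p : (w1 : Ordinal.{u}).ToType × ℕ => y (Ordinal.ToType.mk.symm p.1).1 p.2) := by
    rintro z ⟨a, ha, n, rfl⟩
    refine ⟨(Ordinal.ToType.mk ⟨a, ha⟩, n), ?_⟩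
    simp
  refine (Cardinal.mk_le_mk_of_subset h1).trans (Cardinal.mk_range_le.trans ?_)
  rw [Cardinal.mk_prod, Cardinal.mk_toType]
  have h3 : (w1 : Ordinal.{u}).card = ℵ₁ := by
    unfold w1
    exact Cardinal.card_ord _
  rw [h3]
  simp

theorem thm_C3size (hB : St_C3B.{u}) (hK2 : St_KU2.{u}) (hLS : St_LS.{u}) (hCl : St_OClos.{u})
    (hSm : St_Small.{u}) (hcof : St_A1cof.{u}) (hDer : St_Der.{u}) : St_C3size.{u} := by
  classical
  intro X _ _ _ _ x r hMin hr K hSig hmono hdense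
  have hrc : r.cof = ℵ₁ := hcof X x r hMin K hSig hdense
  have hKo : ∀ n, IsOpen (K n) := fun n => (hSig n).1.isOpen
  obtain ⟨b, hbinj, hb, hbc⟩ := hB X x r hMin hr K hSig hdense
  have hD0 : ∀ a < w1, ∃ D : Set X, IsClopen D ∧ x ∉ D ∧ ∀ z ∈ (⋃ n, K n)ᶜ, (z ∈ D ↔ z = b a) :=
    fun a ha => C3size_D (hb a ha).1 (hb a ha).2.1 (hb a ha).2.2
  choose! D hDc hDx hDz using hD0
  have hbK : ∀ a < w1, ∀ n, b a ∉ K n := fun a ha n hn => (hb a ha).1 (mem_iUnion.2 ⟨n, hn⟩)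
  have hy0 : ∀ a < w1, ∀ n : ℕ, ∃ z, z ∈ D a ∧ z ∉ K n ∧ z ∈ ⋃ n, K n := by
    intro a ha n
    obtain ⟨z, hz1, hz2⟩ := hdense.inter_open_nonempty _
      ((hDc a ha).isOpen.sdiff (hSig n).1.isClosed)
      ⟨b a, (hDz a ha (b a) (hb a ha).1).2 rfl, hbK a ha n⟩
    exact ⟨z, hz1.1, hz1.2, hz2⟩
  obtain ⟨y, hy⟩ : ∃ y : Ordinal.{u} → ℕ → X, ∀ a < w1, ∀ k, y a k ∈ D a ∧
      y a k ∉ K k ∧ y a k ∈ ⋃ n, K n := by
    refine ⟨fun a k => if h : a < w1 then (hy0 a h k).choose else x, ?_⟩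
    intro a ha k
    simp only [dif_pos ha]
    exact (hy0 a ha k).choose_spec
  set T0 : Set X := {z | ∃ a < w1, ∃ n, z = y a n} with hT0
  have hT0K : T0 ⊆ ⋃ n, K n := by
    rintro z ⟨a, ha, n, rfl⟩
    exact (hy a ha n).2.2
  have hbT : ∀ a < w1, b a ∈ closure T0 := by
    intro a ha
    refine C3size_cl hKo hmono (hDc a ha).isClosed (fun z hz hzD => (hDz a ha z hz).1 hzD) ?_
    intro n
    exact ⟨y a n, ⟨a, ha, n, rfl⟩, (hy a ha n).1, (hy a ha n).2.1⟩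
  have hxT : x ∈ closure T0 := by
    by_contra hx
    have h1 := hbc _ isClosed_closure hx
    have h0 : Iio (w1 : Ordinal.{u}) ⊆ {a | a < w1 ∧ b a ∈ closure T0} :=
      fun a ha => ⟨ha, hbT a ha⟩
    have h2 : (Iio (w1 : Ordinal.{u})).Countable := h1.mono h0
    rw [← Cardinal.le_aleph0_iff_set_countable, Cardinal.mk_Iio_ordinal, Cardinal.lift_le_aleph0]
      at h2
    have h3 : (w1 : Ordinal.{u}).card = ℵ₁ := by
      unfold w1
      exact Cardinal.card_ord _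
    rw [h3] at h2
    exact absurd h2 (not_le.2 Cardinal.aleph0_lt_aleph_one)
  have hloc : ∀ N : Set X, IsClopen N → x ∉ N → #(closure T0 ∩ N : Set X) < ℵ_ 2 := by
    intro N hN hxN
    have h1 : closure T0 ∩ N ⊆ closure (T0 ∩ N) := hN.isOpen.closure_inter
    have h2 : IsOrd N := hMin.small N hN.isClosed fun h => hxN ((hDer.iff X _ _ _).1 h).1
    have h3 := hCl X N (T0 ∩ N) hN.isClosed h2 inter_subset_right
    have h4 : #(T0 ∩ N : Set X) ≤ ℵ₁ :=
      (Cardinal.mk_le_mk_of_subset inter_subset_left).trans (C3size_card y)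
    have h5 : ℵ₁ < ℵ_ 2 := Cardinal.aleph_lt_aleph.2 (by norm_num)
    exact ((Cardinal.mk_le_mk_of_subset h1).trans (h3.trans
      (max_le h4 Cardinal.aleph0_lt_aleph_one.le))).trans_lt h5
  have hder := hLS X x (closure T0) (ℵ_ 2) hMin.scat isClosed_closure hloc
  have hr2 : r < (ℵ_ 2 : Cardinal.{u}).ord := by
    by_contra hcon
    rw [not_lt] at hcon
    have hne : (ℵ_ 2 : Cardinal.{u}).ord ≠ r := by
      intro h
      have h1 : (ℵ_ 2 : Cardinal.{u}).ord.cof = ℵ_ 2 := by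
        have : (ℵ_ 2 : Cardinal.{u}).IsRegular := by
          have h2 := Cardinal.isRegular_aleph_add_one (1 : Ordinal.{u})
          rwa [one_add_one_eq_two] at h2
        exact this.cof_ord
      rw [h, hrc] at h1
      exact absurd h1 (Cardinal.aleph_lt_aleph.2 (by norm_num)).ne
    have hlt := lt_of_le_of_ne hcon hne
    have hsm : x ∉ der (closure T0) r := by
      intro hx
      have h1 : (ℵ_ 2 : Cardinal.{u}).ord + 1 ≤ r := Order.succ_le_of_lt hlt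
      have h2 := hDer.sub X (closure T0) _ _ h1 hx
      rw [hDer.succ] at h2
      obtain ⟨z, hz, hzx⟩ := accPt_iff_nhds.1 h2.2 univ univ_mem
      exact hzx (hder hz.2)
    refine hK2 X x r hMin (by rw [hrc]; exact hr) (closure T0) isClosed_closure hsm K
      (fun n => ⟨(hSig n).1.isClosed, (hSig n).2⟩) ?_
    have h1 : T0 ⊆ closure T0 ∩ ⋃ n, K n := fun z hz => ⟨subset_closure hz, hT0K hz⟩
    exact closure_mono h1 hxT
  have hKc : ∀ n, #(K n) ≤ ℵ₁ := by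
    intro n
    obtain ⟨s, hs, -, hs'⟩ := hSm X x r hMin (K n) (hSig n).1.isClosed (hSig n).2
    refine hs'.trans (max_le ?_ Cardinal.aleph0_lt_aleph_one.le)
    have h1 : s.card < ℵ_ 2 := Cardinal.lt_ord.1 (hs.trans hr2)
    have h2 : (ℵ_ 2 : Cardinal.{u}) = succ ℵ₁ := by
      rw [Cardinal.succ_aleph, one_add_one_eq_two]
    rw [h2] at h1
    exact Order.lt_succ_iff.1 h1
  have h1 : (⋃ n, K n) = ⋃ n : ULift.{u} ℕ, K n.down := by
    ext z
    simp
  rw [h1]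
  refine (Cardinal.mk_iUnion_le _).trans ?_
  refine (mul_le_mul' (show #(ULift.{u} ℕ) ≤ ℵ₀ by simp)
    (ciSup_le' fun n : ULift.{u} ℕ => hKc n.down)).trans ?_
  rw [Cardinal.aleph0_mul_aleph]

end Pool.Agent.HCO
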