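import Pool.Agent.HCO.St4

set_option autoImplicit false

open Set Topology Cardinal Ordinal Order Filter

universe u v w

namespace Pool.Agent.HCO

theorem thm_C4 (h1 : St_P4ssp.{u}) (h2 : St_P4one.{u}) (h3 : St_OE.{u}) (h4 : St_C4b.{u})
    (h5 : St_Small.{u}) (h6 : St_BigNot.{u}) (h7 : St_Filt.{u}) (h8 : St_Der.{u}) :
    St_C4.{u} := by
  classical
  intro hMM X _ _ _ _ x K hMin hFF
  have hF : Filt x ℵ₁ K := hFF.toFilt
  have hw : (ℵ₁ : Cardinal.{u}).ord = w1 := rfl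
  have hw0 : (0 : Ordinal.{u}) < w1 := by
    rw [← hw]
    exact Cardinal.ord_pos.mpr (Cardinal.aleph_pos 1)
  have hct : ∀ a < w1, (K a).Countable := by
    intro a ha
    obtain ⟨s, hs, -, hsz⟩ := h5 X x w1 hMin (K a) (hF.clopen a ha).isClosed (hF.notin a ha)
    rw [← Cardinal.le_aleph0_iff_set_countable]
    refine hsz.trans (max_le ?_ le_rfl)
    have h9 : s.card < ℵ₁ := Cardinal.lt_ord.mp hs
    rw [← Order.lt_succ_iff, Cardinal.succ_aleph0]
    exact h9
  have hacc : AccPt x (𝓟 (univ : Set X)) := by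
    have h9 : x ∈ der (univ : Set X) w1 := by
      rw [hMin.top]
      exact mem_singleton x
    have h10 := ((h8.iff X univ w1 x).mp h9).2 0 hw0
    rwa [h8.zero] at h10
  have hOE : OE1 X x := by
    refine ⟨hacc, fun F G hF' hG' h9 h10 => h3 X x ℵ₁ K hMin hF ?_ F G hF' hG' h9 h10⟩
    intro C hC
    obtain ⟨c, hc, -⟩ := hC.2.1 0 hw0
    refine ⟨c, hc, (hct c (hC.1 c hc)).mono ?_⟩
    exact sdiff_subset.trans (hF.cl c (hC.1 c hc))
  let D : Ordinal.{u} → Set (P4 x K) := fun b => {q | ∃ z ∈ q.c, z ∉ K b}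
  have hD : ∀ b < w1, DenseP (D b) := by
    intro b hb p
    obtain ⟨q, hq, z, hz, hzb⟩ := h2 X x K hF hct hOE p b hb
    exact ⟨q, hq, z, hz, hzb⟩
  have : Nonempty (P4 x K) := ⟨⟨∅, ∅, isClosed_empty, countable_empty, fun h => h,
    injOn_empty _, countable_empty, fun f hf => hf.elim⟩⟩
  obtain ⟨G, hG, hGD⟩ := hMM (P4 x K) (h1 X x K hF hct hOE) D hD
  -- heights
  have hht : ∀ z, z ≠ x → ht K z < w1 ∧ z ∈ K (ht K z) := by
    intro z hz
    obtain ⟨a, ha, hza⟩ := hF.cover z hz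
    have hmem : z ∈ K (ht K z) := csInf_mem (s := {a | z ∈ K a}) ⟨a, hza⟩
    exact ⟨(csInf_le' (show a ∈ {a | z ∈ K a} from hza)).trans_lt ha, hmem⟩
  have hle : ∀ z b, z ∈ K b → ht K z ≤ b := fun z b hz =>
    csInf_le' (show b ∈ {a | z ∈ K a} from hz)
  have hlt : ∀ z b, z ≠ x → b < w1 → z ∉ K b → b < ht K z := by
    intro z b hz hb hzb
    by_contra hcon
    exact hzb (hF.mono _ _ (not_lt.mp hcon) hb (hht z hz).2)
  set C : Set X := {x} ∪ ⋃ p ∈ G, p.c with hC
  have hne : ∀ p : P4 x K, ∀ z ∈ p.c, z ≠ x := by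
    intro p z hz h
    rw [h] at hz
    exact p.nx hz
  have hkey : ∀ b < w1, ∀ p ∈ G, p ∈ D b → ∀ w ∈ C, w ∈ K b → w ∈ p.c := by
    rintro b hb p hp ⟨z0, hz0, hz0b⟩ w hwC hwb
    rcases hwC with hwx | hwC
    · rw [mem_singleton_iff] at hwx
      rw [hwx] at hwb
      exact absurd hwb (hF.notin b hb)
    · simp only [mem_iUnion] at hwC
      obtain ⟨q, hq, hwq⟩ := hwC
      obtain ⟨r, -, hrp, hrq⟩ := hG.2.2 p hp q hq
      by_contra hwp
      have g1 : ht K z0 < ht K w := hrp.2.1 w (hrq.1 hwq) hwp z0 hz0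
      have g2 := hle w b hwb
      have g3 := hlt z0 b (hne p z0 hz0) hb hz0b
      exact absurd (g1.trans_le g2) (not_lt.mpr g3.le)
  have hCx : x ∈ C := Or.inl rfl
  have hCc : IsClosed C := by
    refine isClosed_of_closure_subset fun z hz => ?_
    by_contra hzC
    have hzx : z ≠ x := by
      rintro rfl
      exact hzC hCx
    obtain ⟨b, hb, hzb⟩ := hF.cover z hzx
    obtain ⟨p, hp, hpD⟩ := hGD b hb
    have hzp : z ∉ p.c := fun h => hzC (Or.inr (mem_biUnion hp h))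
    obtain ⟨w, ⟨hw1, hw2⟩, hwC⟩ := mem_closure_iff.mp hz (K b ∩ (p.c)ᶜ)
      ((hF.clopen b hb).isOpen.inter p.closed.isOpen_compl) ⟨hzb, hzp⟩
    exact hw2 (hkey b hb p hp hpD w hwC hw1)
  have hCacc : AccPt x (𝓟 C) := by
    rw [accPt_iff_nhds]
    intro U hU
    obtain ⟨O, hOU, hO, hxO⟩ := mem_nhds_iff.mp hU
    obtain ⟨a, ha, hOa⟩ := h7.cpt X x ℵ₁ K hF (Oᶜ) hO.isClosed_compl (fun h => h hxO)
    obtain ⟨p, hp, z, hz, hza⟩ := hGD a ha
    refine ⟨z, ⟨hOU ?_, Or.inr (mem_biUnion hp hz)⟩, hne p z hz⟩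
    by_contra hzO
    exact hza (hOa hzO)
  have hbig : x ∈ der C w1 := h4 X x ℵ₁ K hF C hCc hCacc
  refine h6 X x w1 hMin C hCc hbig ⟨fun z => if z = x then w1 else ht K z, ?_, ?_⟩
  · intro z hz z' hz' he
    simp only at he
    by_cases hzx : z = x
    · by_cases hzx' : z' = x
      · rw [hzx, hzx']
      · rw [if_pos hzx, if_neg hzx'] at he
        exact absurd he (hht z' hzx').1.ne'
    · by_cases hzx' : z' = x
      · rw [if_neg hzx, if_pos hzx'] at he
        exact absurd he (hht z hzx).1.ne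
      · rw [if_neg hzx, if_neg hzx'] at he
        have h9 : ∀ w ∈ C, w ≠ x → ∃ p ∈ G, w ∈ p.c := by
          intro w hwC hwx
          rcases hwC with h | h
          · exact absurd h hwx
          · simp only [mem_iUnion] at h
            obtain ⟨q, hq, hwq⟩ := h
            exact ⟨q, hq, hwq⟩
        obtain ⟨p, hp, hzp⟩ := h9 z hz hzx
        obtain ⟨q, hq, hzq⟩ := h9 z' hz' hzx'
        obtain ⟨r, -, hrp, hrq⟩ := hG.2.2 p hp q hq
        exact r.inj (hrp.1 hzp) (hrq.1 hzq) he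
  · intro a haC
    by_cases hax : a = x
    · refine ⟨univ, isClopen_univ, fun z _ => ⟨fun _ => ?_, fun _ => mem_univ z⟩⟩
      simp only
      rw [if_pos hax]
      by_cases hzx : z = x
      · rw [if_pos hzx]
      · rw [if_neg hzx]
        exact (hht z hzx).1.le
    · refine ⟨K (ht K a), hF.clopen _ (hht a hax).1, fun z _ => ?_⟩
      simp only
      rw [if_neg hax]
      by_cases hzx : z = x
      · rw [if_pos hzx, hzx]
        exact ⟨fun h => absurd h (hF.notin _ (hht a hax).1),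
          fun h => absurd h (not_le.mpr (hht a hax).1)⟩
      · rw [if_neg hzx]
        exact ⟨fun h => hle z _ h, fun h => hF.mono _ _ h (hht a hax).1 (hht z hzx).2⟩

end Pool.Agent.HCO
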