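import Pool.Agent.HCO.St4

/-!
# HCO / C4b: closed sets accumulating at `x` have large rank
-/

set_option autoImplicit false

open Set Topology Cardinal Ordinal Order Filter

universe u v w

namespace Pool.Agent.HCO

theorem C4b_acc {X : Type u} [TopologicalSpace X] {G : Set X} {x : X} :
    AccPt x (𝓟 G) ↔ x ∈ closure (G \ {x}) := by
  rw [accPt_principal_iff_clusterPt, mem_closure_iff_clusterPt]

theorem thm_C4b (hFi : St_Filt.{u}) (hC : St_Club.{u}) (hD : St_Der.{u}) : St_C4b.{u} := by
  intro X _ _ _ _ x μ K hf F hF hFx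
  have hμc : μ.ord.cof = μ := hf.reg.cof_ord
  have hμ : ℵ₀ < μ.ord.cof := by rw [hμc]; exact hf.unc
  have key : ∀ d, d < μ.ord → AccPt x (𝓟 (der F d)) := by
    intro d
    induction d using WellFoundedLT.induction with
    | _ d ih =>
      intro hd
      rcases eq_or_ne d 0 with rfl | hd0
      · rw [hD.zero]; exact hFx
      have hcl : ∀ e, ∃ C, e < d → Club μ.ord C ∧ ∀ l ∈ C, IsSuccLimit l ∧
          (∀ b < l, ∃ z ∈ der F e, z ∈ Uu K l ∧ z ∉ K b) ∧
          ∃ z ∈ Bd K l, z ∈ closure (der F e ∩ Uu K l) := by
        intro e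
        by_cases he : e < d
        · obtain ⟨C, h⟩ := hFi.acc X x μ K hf (der F e) (ih e he (he.trans hd))
          exact ⟨C, fun _ => h⟩
        · exact ⟨∅, fun h => absurd h he⟩
      choose C hCe using hcl
      have hCC := hC.inters μ.ord d C hμ (by rw [hμc]; exact Cardinal.lt_ord.1 hd)
        (fun e he => (hCe e he).1)
      -- points of `der F d` in boundaries
      have hpt : ∀ l, l < μ.ord → (∀ e < d, l ∈ C e) → ∃ z ∈ Bd K l, z ∈ der F d := by
        intro l hl hlC
        have hBc : IsClosed (Bd K l) := hFi.closedBd X x μ.ord K hf.toPreFilt l hl.le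
        have hd0' : 0 < d := pos_iff_ne_zero.2 hd0
        have : Nonempty (Iio d) := ⟨⟨0, hd0'⟩⟩
        have h1 := IsCompact.nonempty_iInter_of_directed_nonempty_isCompact_isClosed
          (fun e : Iio d => closure (der F e.1 ∩ Uu K l) ∩ Bd K l)
          (by
            intro e e'
            refine ⟨max e e', ?_, ?_⟩
            · exact inter_subset_inter_left _ (closure_mono (inter_subset_inter_left _
                (hD.sub X F _ _ (le_max_left e e'))))
            · exact inter_subset_inter_left _ (closure_mono (inter_subset_inter_left _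
                (hD.sub X F _ _ (le_max_right e e')))))
          (fun e => by
            obtain ⟨-, -, z, hz1, hz2⟩ := (hCe e.1 e.2).2 l (hlC e.1 e.2)
            exact ⟨z, hz2, hz1⟩)
          (fun e => (isClosed_closure.inter hBc).isCompact)
          (fun e => isClosed_closure.inter hBc)
        obtain ⟨z, hz⟩ := h1
        rw [mem_iInter] at hz
        have hzB : z ∈ Bd K l := (hz ⟨0, hd0'⟩).2
        refine ⟨z, hzB, ?_⟩
        have hcl' : ∀ e < d, z ∈ closure (der F e ∩ Uu K l) := fun e he => (hz ⟨e, he⟩).1
        rw [hD.iff]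
        constructor
        · have h2 := hcl' 0 hd0'
          rw [hD.zero] at h2
          exact hF.closure_subset ((closure_mono inter_subset_left) h2)
        · intro e he
          rw [C4b_acc]
          have h2 : der F e ∩ Uu K l ⊆ der F e \ {z} := by
            rintro w ⟨hw1, hw2⟩
            refine ⟨hw1, fun h => hzB.2 ?_⟩
            rw [mem_singleton_iff] at h
            exact h ▸ hw2
          exact closure_mono h2 (hcl' e he)
      by_contra hcon
      rw [C4b_acc] at hcon
      have hGc : IsClosed (der F d) := hD.closed X F d hF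
      obtain ⟨a, ha, haK⟩ := hFi.cpt X x μ K hf (closure (der F d \ {x})) isClosed_closure hcon
      obtain ⟨l, ⟨hl, hlC⟩, hal⟩ := hCC.2.1 a ha
      obtain ⟨z, hzB, hzd⟩ := hpt l hl hlC
      have hzx : z ≠ x := by
        rintro rfl
        exact hf.notin l hl (hf.cl l hl hzB.1)
      exact hzB.2 ⟨a, hal, haK (subset_closure ⟨hzd, hzx⟩)⟩
  rw [hD.iff]
  exact ⟨isClosed_iff_accPt.1 hF x hFx, key⟩

end Pool.Agent.HCO
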