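import Pool.Agent.HCO.St4

/-!
# HCO module C5: the case `ω₁ < r < ω₂`, `μ = ℵ₁`
-/

set_option autoImplicit false

open Set Topology Cardinal Ordinal Order Filter

universe u v w

namespace Pool.Agent.HCO

private theorem C5_lim : IsSuccLimit (w1.{u}) :=
  Cardinal.isSuccLimit_ord (Cardinal.aleph0_le_aleph 1)

private theorem C5_add {a : Ordinal.{u}} (h : a < w1) : a + 1 < w1 := by
  rw [← Order.succ_eq_add_one]; exact C5_lim.succ_lt h

/-- enumeration of a set of size at most `ℵ₁` starting at a given point -/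
private theorem C5_enum {X : Type u} (W : Set X) (z : X) (hz : z ∈ W) (hW : #W ≤ ℵ₁) :
    ∃ q : Ordinal.{u} → X, (∀ i, q i ∈ W) ∧ q 0 = z ∧ ∀ w ∈ W, ∃ i < w1, q i = w := by
  classical
  have h1 : Cardinal.lift.{u+1, u} #W ≤ Cardinal.lift.{u, u+1} #(Iio (w1.{u})) := by
    rw [Cardinal.mk_Iio_ordinal, Cardinal.lift_lift]
    have h2 : (w1.{u}).card = ℵ₁ := Cardinal.card_ord _
    rw [h2]
    exact Cardinal.lift_le.2 hW
  obtain ⟨g⟩ := Cardinal.lift_mk_le'.1 h1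
  refine ⟨fun i => if h : ∃ w : W, (g w : Ordinal) + 1 = i then (h.choose : X) else z, ?_, ?_, ?_⟩
  · intro i
    by_cases h : ∃ w : W, (g w : Ordinal) + 1 = i
    · simp only [dif_pos h]
      exact h.choose.2
    · simp only [dif_neg h]
      exact hz
  · have h : ¬ ∃ w : W, (g w : Ordinal) + 1 = 0 := by
      rintro ⟨w, hw⟩
      rw [← Order.succ_eq_add_one] at hw
      exact (Order.bot_lt_succ (g w : Ordinal)).ne' hw
    simp only [dif_neg h]
  · intro w hw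
    refine ⟨(g ⟨w, hw⟩ : Ordinal) + 1, C5_add (g ⟨w, hw⟩).2, ?_⟩
    have h : ∃ w' : W, (g w' : Ordinal) + 1 = (g ⟨w, hw⟩ : Ordinal) + 1 := ⟨_, rfl⟩
    simp only [dif_pos h]
    have h3 : succ (g h.choose : Ordinal) = succ (g ⟨w, hw⟩ : Ordinal) := by
      rw [Order.succ_eq_add_one, Order.succ_eq_add_one]
      exact h.choose_spec
    have h4 := g.injective (Subtype.ext (Order.succ_injective h3))
    exact congrArg Subtype.val h4

/-- enumeration of a countable limit ordinal -/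
private theorem C5_seq {l : Ordinal.{u}} (hl : l < w1) (hl' : IsSuccLimit l) :
    ∃ g : ℕ → Ordinal.{u}, (∀ n, g n < l) ∧ ∀ a < l, ∃ n, g n = a := by
  have h1 : (Iio l).Countable := by
    rw [← Cardinal.le_aleph0_iff_set_countable, Cardinal.mk_Iio_ordinal,
      Cardinal.lift_le_aleph0]
    have h2 : l.card < ℵ₁ := Cardinal.lt_ord.1 hl
    rwa [← Cardinal.succ_aleph0, Order.lt_succ_iff] at h2
  have h0 : (Iio l).Nonempty := ⟨0, hl'.bot_lt⟩
  obtain ⟨g, hg⟩ := h1.exists_eq_range h0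
  exact ⟨g, fun n => by
    have : g n ∈ Iio l := by rw [hg]; exact ⟨n, rfl⟩
    exact this, fun a ha => by
    have : a ∈ range g := by rw [← hg]; exact ha
    exact this⟩

/-- a point of maximal rank of a clopen set missing `x` -/
private theorem C5_top (hDer : St_Der.{u}) (hSmall : St_Small.{u}) {X : Type u}
    [TopologicalSpace X] [CompactSpace X] [T2Space X] [TotallyDisconnectedSpace X] {x : X}
    {r : Ordinal.{u}} (hM : Min X x r) {W : Set X} (hW : IsClopen W) (hx : x ∉ W)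
    (hne : W.Nonempty) :
    ∃ z ∈ W, ∀ s, (der (univ : Set X) s ∩ W).Nonempty → z ∈ der (univ : Set X) s := by
  obtain ⟨s0, _, hs0, _⟩ := hSmall X x r hM W hW.1 hx
  obtain ⟨t, ht⟩ := exists_minimal_of_wellFoundedLT
    (fun s => ∀ z ∈ W, z ∉ der (univ : Set X) s) ⟨s0, hs0⟩
  have hlt : ∀ s, (der (univ : Set X) s ∩ W).Nonempty → s < t := by
    rintro s ⟨z, hz1, hz2⟩
    by_contra hcon
    exact ht.prop z hz2 (hDer.sub X _ _ _ (not_lt.1 hcon) hz1)
  rcases Ordinal.zero_or_succ_or_isSuccLimit t with h | ⟨t', h⟩ | h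
  · exfalso
    obtain ⟨z, hz⟩ := hne
    have h1 := ht.prop z hz
    rw [h, hDer.zero X] at h1
    exact h1 (mem_univ z)
  · have h1 : t' < t := by
      rw [← h]
      exact Order.lt_succ t'
    have h2 : ¬ ∀ z ∈ W, z ∉ der (univ : Set X) t' := fun h2 =>
      absurd (ht.le_of_le h2 h1.le) (not_le.2 h1)
    push Not at h2
    obtain ⟨z, hz1, hz2⟩ := h2
    refine ⟨z, hz1, fun s hs => ?_⟩
    have h3 := hlt s hs
    rw [← h] at h3
    exact hDer.sub X _ _ _ (Order.lt_succ_iff.1 h3) hz2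
  · exfalso
    have h1 : der W t = ∅ := by
      have h2 := hDer.inter X univ W t hW.2
      rw [univ_inter] at h2
      rw [h2]
      ext z
      constructor
      · rintro ⟨h3, h4⟩
        exact (ht.prop z h4 h3).elim
      · exact fun h3 => h3.elim
    obtain ⟨a, ha, h2⟩ := hDer.compact X W t hW.1 h h1
    have h3 : ∀ z ∈ W, z ∉ der (univ : Set X) a := by
      intro z hz hz2
      have h4 := hDer.inter X univ W a hW.2
      rw [univ_inter, h2] at h4
      have h5 : z ∈ der (univ : Set X) a ∩ W := ⟨hz2, hz⟩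
      rw [← h4] at h5
      exact h5
    exact absurd (ht.le_of_le h3 ha.le) (not_le.2 ha)

/-- the clopen sets to be removed at a boundary -/
private theorem C5_loc (hOCnt : St_OCnt.{u}) {X : Type u}
    [TopologicalSpace X] [CompactSpace X] [T2Space X] [TotallyDisconnectedSpace X] {x : X}
    {r : Ordinal.{u}} (hM : Min X x r) {K : Ordinal.{u} → Set X} (hK : Filt x ℵ₁ K)
    {l : Ordinal.{u}} (hl : l < w1) (hlim : IsSuccLimit l) {e : X} (he : e ∈ Bd K l)
    (q : Ordinal.{u} → Ordinal.{u} → X)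
    (hq : ∀ O : Set X, IsClopen O → e ∈ O →
      ∃ b < l, ∀ a, b ≤ a → a < l → ∀ i < l, q a i ∈ O) :
    ∃ V : Ordinal.{u} → Set X, (∀ a < l, IsClopen (V a)) ∧ (∀ a < l, ∀ i < l, q a i ∉ V a) ∧
      ∀ O : Set X, IsClopen O → e ∈ O →
        ∃ b < l, ∀ a, b ≤ a → a < l → (K (a + 1) \ K a) \ V a ⊆ O := by
  classical
  obtain ⟨g, hg1, hg2⟩ := C5_seq hl hlim
  have hKl := hK.clopen l hl
  have hxl := hK.notin l hl
  have heK : e ∈ K l := hK.cl l hl he.1
  have hord : IsOrd (K l) := hM.small (K l) hKl.1 (fun h => hxl (by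
    rw [der] at h
    exact h.1))
  have hcnt : Cnt (K l) e := by
    refine hOCnt X (K l) e (fun n => K (g n)) hKl.1 hord heK ?_ ?_
    · intro n
      exact ⟨(hK.clopen (g n) ((hg1 n).trans hl)).1, fun h => he.2 ⟨g n, hg1 n, h⟩⟩
    · refine closure_mono ?_ he.1
      rintro z ⟨a, ha, hz⟩
      refine ⟨hK.mono a l ha.le hl hz, ?_⟩
      obtain ⟨n, hn⟩ := hg2 a ha
      exact mem_iUnion.2 ⟨n, by rw [hn]; exact hz⟩
  obtain ⟨O, hO1, hO2⟩ := hcnt
  choose b hb1 hb2 using fun k => hq (O k) (hO1 k).1 (hO1 k).2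
  let b' : ℕ → Ordinal.{u} := fun k => (Finset.range (k + 1)).sup fun j => max (b j) (g j + 1)
  have hb'1 : ∀ k, b' k < l := by
    intro k
    refine (Finset.sup_lt_iff hlim.bot_lt).2 fun j _ => max_lt (hb1 j) ?_
    rw [← Order.succ_eq_add_one]
    exact hlim.succ_lt (hg1 j)
  have hb'0 : ∀ k, max (b k) (g k + 1) ≤ b' k := fun k =>
    Finset.le_sup (f := fun j => max (b j) (g j + 1)) (Finset.mem_range.2 (Nat.lt_succ_self k))
  have hb'm : Monotone b' := by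
    intro k k' hk
    exact Finset.sup_mono (Finset.range_mono (by omega))
  have hb'3 : ∀ c < l, ∃ k, c < b' k := by
    intro c hc
    obtain ⟨n, hn⟩ := hg2 c hc
    refine ⟨n, lt_of_lt_of_le ?_ ((le_max_right _ _).trans (hb'0 n))⟩
    rw [hn, ← Order.succ_eq_add_one]
    exact Order.lt_succ c
  refine ⟨fun a => ⋃ k ∈ {k | b' k ≤ a}, (O k)ᶜ, ?_, ?_, ?_⟩
  · intro a ha
    have hfin : {k | b' k ≤ a}.Finite := by
      obtain ⟨k0, hk0⟩ := hb'3 a ha
      refine (Set.finite_Iio k0).subset fun k hk => ?_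
      by_contra hcon
      exact absurd (hk0.trans_le ((hb'm (not_lt.1 hcon)).trans hk)) (lt_irrefl _)
    exact hfin.isClopen_biUnion fun k _ => (hO1 k).1.compl
  · intro a ha i hi h
    obtain ⟨k, hk, hk2⟩ := mem_iUnion₂.1 h
    exact hk2 (hb2 k a (((le_max_left _ _).trans (hb'0 k)).trans hk) ha i hi)
  · intro O' hO' heO'
    have hcomp : IsCompact (K l \ O') := (hKl.1.sdiff hO'.2).isCompact
    obtain ⟨s, hs⟩ := hcomp.elim_finite_subfamily_closed O (fun k => (hO1 k).1.1) (by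
      ext z
      constructor
      · rintro ⟨⟨h1, h2⟩, h3⟩
        have h4 := hO2 z h1 (fun n => mem_iInter.1 h3 n)
        exact (h2 (h4 ▸ heO')).elim
      · exact fun h => h.elim)
    refine ⟨b' (s.sup id), hb'1 _, fun a ha hal z hz => ?_⟩
    by_contra hcon
    have h1 : z ∈ K l := by
      refine hK.mono (a + 1) l ?_ hl hz.1.1
      rw [← Order.succ_eq_add_one]
      exact Order.succ_le_of_lt hal
    have h2 : z ∈ K l \ O' ∩ ⋂ k ∈ s, O k := by
      refine ⟨⟨h1, hcon⟩, mem_iInter₂.2 fun k hk => ?_⟩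
      by_contra hk2
      refine hz.2 (mem_iUnion₂.2 ⟨k, ?_, hk2⟩)
      exact (hb'm (Finset.le_sup (f := id) hk)).trans ha
    rw [hs] at h2
    exact h2

theorem thm_C5 (hC5a : St_C5a.{u}) (hC5b : St_C5b.{u}) (hFC : St_FC.{u})
    (hSmall : St_Small.{u}) (hOCnt : St_OCnt.{u}) (hClub : St_Club.{u}) (hDer : St_Der.{u}) :
    St_C5.{u} := by
  classical
  intro hMM X _ _ _ _ x r K hM hK hr hr2
  have hF : Filt x ℵ₁ K := hK.toFilt
  have hcard : ∀ a < w1, #(K a) ≤ ℵ₁ := by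
    intro a ha
    obtain ⟨s, hs, _, h⟩ := hSmall X x r hM (K a) (hF.clopen a ha).1 (hF.notin a ha)
    refine h.trans (max_le ?_ (Cardinal.aleph0_le_aleph 1))
    have h1 : s.card < Cardinal.aleph 2 := Cardinal.lt_ord.1 (hs.trans hr2)
    have h2 : Cardinal.aleph.{u} 2 = succ ℵ₁ := by
      rw [Cardinal.succ_aleph]
      congr 1
      exact one_add_one_eq_two.symm
    rw [h2] at h1
    exact Order.lt_succ_iff.1 h1
  have hWc : ∀ a < w1, IsClopen (K (a + 1) \ K a) := fun a ha =>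
    (hF.clopen _ (C5_add ha)).diff (hF.clopen a ha)
  have hWx : ∀ a < w1, x ∉ K (a + 1) \ K a := fun a ha h => hF.notin _ (C5_add ha) h.1
  have hq0 : ∀ a, ∃ q : Ordinal.{u} → X, a < w1 → ((∀ i, q i ∈ K (a + 1) \ K a) ∧
      (∀ s, (der (univ : Set X) s ∩ (K (a + 1) \ K a)).Nonempty → q 0 ∈ der (univ : Set X) s) ∧
      ∀ w ∈ K (a + 1) \ K a, ∃ i < w1, q i = w) := by
    intro a
    by_cases ha : a < w1
    · obtain ⟨z, hz1, hz2⟩ := C5_top hDer hSmall hM (hWc a ha) (hWx a ha) (hK.strict a ha)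
      obtain ⟨q, h1, h2, h3⟩ := C5_enum (K (a + 1) \ K a) z hz1
        ((Cardinal.mk_le_mk_of_subset sdiff_subset).trans (hcard _ (C5_add ha)))
      exact ⟨q, fun _ => ⟨h1, by rw [h2]; exact hz2, h3⟩⟩
    · exact ⟨fun _ => x, fun h => (ha h).elim⟩
  choose q hq using hq0
  obtain ⟨e, he⟩ := hC5a hMM X x r K hM hK hr
  obtain ⟨C, hC, hCe⟩ := he q (fun a ha i _ => (hq a ha).1 i)
  have hV0 : ∀ l, ∃ V : Ordinal.{u} → Set X, l ∈ C → ((∀ a < l, IsClopen (V a)) ∧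
      (∀ a < l, ∀ i < l, q a i ∉ V a) ∧ ∀ O : Set X, IsClopen O → e l ∈ O →
        ∃ b < l, ∀ a, b ≤ a → a < l → (K (a + 1) \ K a) \ V a ⊆ O) := by
    intro l
    by_cases hl : l ∈ C
    · obtain ⟨h1, h2, h3⟩ := hCe l hl
      obtain ⟨V, hV⟩ := C5_loc hOCnt hM hF (hC.1 l hl) h1 h2 q h3
      exact ⟨V, fun _ => hV⟩
    · exact ⟨fun _ => ∅, fun h => (hl h).elim⟩
  choose V hV using hV0
  have hD0 : ∀ a, ∃ D : Set Ordinal.{u}, a < w1 → (Club w1 D ∧
      ∀ s, q a 0 ∈ der (univ : Set X) s →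
        q a 0 ∈ der ((K (a + 1) \ K a) \ ⋃ l ∈ D, V l a) s) := by
    intro a
    by_cases ha : a < w1
    · have hCa : Club w1 (C ∩ Ioi a) := by
        refine ⟨fun l hl => hC.1 l hl.1, ?_, ?_⟩
        · intro b hb
          obtain ⟨c, hc1, hc2⟩ := hC.2.1 (max a b) (max_lt ha hb)
          exact ⟨c, ⟨hc1, (le_max_left _ _).trans_lt hc2⟩, (le_max_right _ _).trans_lt hc2⟩
        · intro l hl hlim h
          obtain ⟨c, hc1, _, hc3⟩ := h 0 hlim.bot_lt
          refine ⟨hC.2.2 l hl hlim fun b hb => ?_, lt_trans hc1.2 hc3⟩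
          obtain ⟨c, hc1, hc2⟩ := h b hb
          exact ⟨c, hc1.1, hc2⟩
      have hord : IsOrd (K (a + 1) \ K a) := hM.small _ (hWc a ha).1 (fun h => hWx a ha (by
        rw [der] at h
        exact h.1))
      have hVa : ∀ l ∈ C ∩ Ioi a, IsClopen (V l a) ∧ ∀ i < l, q a i ∉ V l a := fun l hl =>
        ⟨(hV l hl.1).1 a hl.2, fun i hi => (hV l hl.1).2.1 a hl.2 i hi⟩
      obtain ⟨D, _, h2, h3⟩ := hC5b X (K (a + 1) \ K a) (q a) (fun l => V l a)
        (C ∩ Ioi a) hM.scat (hWc a ha) hord (fun i _ => (hq a ha).1 i) (hq a ha).2.2 hCa hVa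
      exact ⟨D, fun _ => ⟨h2, h3⟩⟩
    · exact ⟨∅, fun h => (ha h).elim⟩
  choose D hD using hD0
  have hreg : (ℵ₁ : Cardinal.{u}).IsRegular := hF.reg
  have hcof : ℵ₀ < (w1.{u}).cof := by
    have h1 : (w1.{u}).cof = ℵ₁ := hreg.cof_ord
    rw [h1]
    exact hF.unc
  have hDD : Club w1 (C ∩ {l | l < w1 ∧ ∀ a < l, l ∈ D a}) :=
    hClub.inter w1 _ _ hcof hC (hClub.diag ℵ₁ D hreg hF.unc fun i hi => (hD i hi).1)
  have hkey : ∀ a < w1, ∀ s, q a 0 ∈ der (univ : Set X) s →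
      q a 0 ∈ der ((K (a + 1) \ K a) \
        ⋃ l ∈ {l | l ∈ C ∩ {l | l < w1 ∧ ∀ a < l, l ∈ D a} ∧ a < l}, V l a) s := by
    intro a ha s hs
    refine hDer.mono X _ _ s ?_ ((hD a ha).2 s hs)
    refine sdiff_subset_sdiff_right ?_
    refine iUnion₂_subset fun l hl => ?_
    exact subset_iUnion₂_of_subset l (hl.1.2.2 a hl.2) subset_rfl
  refine hFC X x r ℵ₁ K hM hF (C ∩ {l | l < w1 ∧ ∀ a < l, l ∈ D a})
    (fun a => (K (a + 1) \ K a) \
      ⋃ l ∈ {l | l ∈ C ∩ {l | l < w1 ∧ ∀ a < l, l ∈ D a} ∧ a < l}, V l a) e hDD ?_ ?_ ?_ ?_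
  · intro a ha
    have haw : a < w1 := hC.1 a ha.1
    refine ⟨(hWc a haw).1.sdiff (isOpen_biUnion fun l hl => ((hV l hl.1.1).1 a hl.2).2), ?_, ?_⟩
    · have h1 := hkey a haw 0 (by rw [hDer.zero X]; exact mem_univ _)
      rw [hDer.zero X] at h1
      exact ⟨_, h1⟩
    · rw [Set.disjoint_left]
      exact fun z hz hz2 => hz.1.2 hz2
  · intro a ha b hb hab z hz
    refine hF.mono (a + 1) b ?_ (hC.1 b hb.1) hz.1.1
    rw [← Order.succ_eq_add_one]
    exact Order.succ_le_of_lt hab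
  · intro l hl _ _ O hO heO
    obtain ⟨b, hb, h⟩ := (hV l hl.1).2.2 O hO heO
    refine ⟨b, hb, fun a _ hba hal z hz => h a hba.le hal ⟨hz.1, fun hz2 => hz.2 ?_⟩⟩
    exact mem_iUnion₂.2 ⟨l, ⟨hl, hal⟩, hz2⟩
  · intro s hs b hb
    obtain ⟨b', hb', h⟩ := hK.full s hs
    obtain ⟨a, ha1, ha2⟩ := hDD.2.1 (max b b') (max_lt hb hb')
    have haw : a < w1 := hC.1 a ha1.1
    refine ⟨a, ha1, (le_max_left _ _).trans_lt ha2, ⟨q a 0, hkey a haw s ?_⟩⟩
    exact (hq a haw).2.1 s (h a ((le_max_right _ _).trans_lt ha2).le haw)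

end Pool.Agent.HCO
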