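import Pool.Agent.HCO.St4

/-!
# Module C5a: strong convergence
-/

set_option autoImplicit false

open Set Topology Cardinal Ordinal Order Filter

universe u v w

namespace Pool.Agent.HCO

private theorem C5a_countable {a : Ordinal.{u}} (ha : a < w1) : (Set.Iio a).Countable := by
  have h1 : a.card < Cardinal.aleph 1 := Cardinal.lt_ord.mp ha
  have h2 : a.card ≤ ℵ₀ := by
    rw [← Cardinal.aleph_zero]
    by_contra hcon
    rw [not_le] at hcon
    have h3 : Cardinal.aleph (0 + 1) ≤ a.card := by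
      rw [← Cardinal.succ_aleph]
      exact Order.succ_le_of_lt hcon
    rw [zero_add] at h3
    exact absurd h1 (not_lt.mpr h3)
  have h3 : Countable a.ToType := by
    rw [← Cardinal.mk_le_aleph0_iff, Cardinal.mk_toType]
    exact h2
  have e : (Set.Iio a) ≃o a.ToType := Ordinal.ToType.mk
  exact e.toEquiv.injective.countable

/-- A strictly increasing cofinal sequence with a property. -/
private theorem C5a_seq {l : Ordinal.{u}} (hl : l < w1) (hlim : IsSuccLimit l)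
    (P : Ordinal.{u} → Ordinal.{u} → Prop)
    (h : ∀ b < l, ∃ a, b ≤ a ∧ a < l ∧ ∃ i < l, P a i) :
    ∃ d i : ℕ → Ordinal.{u}, StrictMono d ∧ (∀ n, d n < l) ∧ (∀ b < l, ∃ n, b < d n) ∧
      (∀ n, i n < l) ∧ ∀ n, P (d n) (i n) := by
  have h0 : 0 < l := by
    rcases eq_or_ne l 0 with h1 | h1
    · exact absurd (h1 ▸ hlim) (by simp)
    · exact pos_iff_ne_zero.mpr h1
  have hne : (Set.Iio l).Nonempty := ⟨0, h0⟩
  obtain ⟨s, hs⟩ := (C5a_countable hl).exists_eq_range hne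
  have hsl : ∀ n, s n < l := fun n => by
    have : s n ∈ Set.Iio l := by
      rw [hs]
      exact mem_range_self n
    exact this
  have hch : ∀ b : Ordinal.{u}, ∃ p : Ordinal.{u} × Ordinal.{u}, b < l →
      b ≤ p.1 ∧ p.1 < l ∧ p.2 < l ∧ P p.1 p.2 := by
    intro b
    by_cases hb : b < l
    · obtain ⟨a, h1, h2, i, h3, h4⟩ := h b hb
      exact ⟨(a, i), fun _ => ⟨h1, h2, h3, h4⟩⟩
    · exact ⟨(0, 0), fun h1 => absurd h1 hb⟩
  choose p hp using hch
  let f : ℕ → Ordinal.{u} := fun n => Nat.rec (s 0) (fun k b => max ((p b).1 + 1) (s (k + 1) + 1)) n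
  have hfs : ∀ n, f (n + 1) = max ((p (f n)).1 + 1) (s (n + 1) + 1) := fun n => rfl
  have hfl : ∀ n, f n < l := by
    intro n
    induction n with
    | zero => exact hsl 0
    | succ n ih =>
      rw [hfs]
      exact max_lt (hlim.add_one_lt (hp _ ih).2.1) (hlim.add_one_lt (hsl _))
  refine ⟨fun n => (p (f n)).1, fun n => (p (f n)).2, ?_, ?_, ?_, ?_, ?_⟩
  · refine strictMono_nat_of_lt_succ fun n => ?_
    have h1 : (p (f n)).1 < f (n + 1) := by
      rw [hfs]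
      exact lt_of_lt_of_le (lt_add_one _) (le_max_left _ _)
    exact lt_of_lt_of_le h1 (hp _ (hfl (n + 1))).1
  · exact fun n => (hp _ (hfl n)).2.1
  · intro b hb
    have hb' : b ∈ Set.Iio l := hb
    rw [hs] at hb'
    obtain ⟨n, hn⟩ := hb'
    refine ⟨n + 1, ?_⟩
    cases n with
    | zero =>
      have h1 : s 0 ≤ (p (f 0)).1 := (hp _ (hfl 0)).1
      have h2 : (p (f 0)).1 < f (0 + 1) := by
        rw [hfs]
        exact lt_of_lt_of_le (lt_add_one _) (le_max_left _ _)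
      rw [← hn]
      exact lt_of_le_of_lt h1 (lt_of_lt_of_le h2 (hp _ (hfl (0 + 1))).1)
    | succ n =>
      have h1 : s (n + 1) < f (n + 1) := by
        rw [hfs]
        exact lt_of_lt_of_le (lt_add_one _) (le_max_right _ _)
      have h2 : f (n + 1) ≤ (p (f (n + 1))).1 := (hp _ (hfl (n + 1))).1
      have h3 : (p (f (n + 1))).1 < f (n + 1 + 1) := by
        rw [hfs (n + 1)]
        exact lt_of_lt_of_le (lt_add_one _) (le_max_left _ _)
      rw [← hn]
      exact lt_of_lt_of_le h1 (h2.trans (h3.le.trans (hp _ (hfl (n + 1 + 1))).1))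
  · exact fun n => (hp _ (hfl n)).2.2.1
  · exact fun n => (hp _ (hfl n)).2.2.2

theorem thm_C5a (hCV : St_CV.{u}) (hLU : St_LU.{u}) (hClub : St_Club.{u}) : St_C5a.{u} := by
  classical
  intro hMM X _ _ _ _ x r K hMin hF hr
  have hreg : (Cardinal.aleph 1 : Cardinal.{u}).IsRegular := Cardinal.isRegular_aleph_one
  obtain ⟨e, he⟩ := hCV X x r (Cardinal.aleph 1) K hMin hF hr
  refine ⟨e, ?_⟩
  intro q hq
  let Q : Ordinal.{u} → Set X → Prop := fun l O => IsClopen O ∧ e l ∈ O ∧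
    ∀ b < l, ∃ a, b ≤ a ∧ a < l ∧ ∃ i < l, q a i ∉ O
  let S : Set Ordinal.{u} := {l | l < w1 ∧ IsSuccLimit l ∧ ∃ O, Q l O}
  have hex : ∀ l : Ordinal.{u}, ∃ (O : Set X) (d i : ℕ → Ordinal.{u}), l ∈ S →
      Q l O ∧ StrictMono d ∧ (∀ n, d n < l) ∧ (∀ b < l, ∃ n, b < d n) ∧
      (∀ n, i n < l) ∧ ∀ n, q (d n) (i n) ∉ O := by
    intro l
    by_cases hl : l ∈ S
    · obtain ⟨hl1, hl2, O, hO⟩ := hl
      obtain ⟨d, i, h⟩ := C5a_seq hl1 hl2 (fun a i => q a i ∉ O) hO.2.2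
      exact ⟨O, d, i, fun _ => ⟨hO, h⟩⟩
    · exact ⟨∅, fun _ => 0, fun _ => 0, fun h => absurd h hl⟩
  choose O d i hODI using hex
  obtain ⟨g, C, hg, hC, hgC⟩ := hLU hMM S d (fun l n => i l n + 1) (by
    intro l hl _
    obtain ⟨_, h1, h2, h3, h4, _⟩ := hODI l hl
    exact ⟨hl.2.1, h1, h2, h3, fun n => hl.2.1.add_one_lt (h4 n)⟩)
  have hA : ∀ a < (Cardinal.aleph 1).ord, {z : X | ∃ j < g a, q a j = z} ⊆ K (a + 1) \ K a ∧
      #({z : X | ∃ j < g a, q a j = z} : Set X) < Cardinal.aleph 1 := by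
    intro a ha
    refine ⟨?_, ?_⟩
    · rintro z ⟨j, hj, rfl⟩
      exact hq a ha j (hj.trans (hg a ha))
    · have h1 : ({z : X | ∃ j < g a, q a j = z} : Set X).Countable := by
        have h2 := (C5a_countable (hg a ha)).image (q a)
        refine h2.mono ?_
        rintro z ⟨j, hj, rfl⟩
        exact ⟨j, hj, rfl⟩
      refine lt_of_le_of_lt (Cardinal.mk_le_aleph0_iff.mpr h1.to_subtype) ?_
      exact Cardinal.aleph0_lt_aleph_one
  obtain ⟨C', hC', hC2'⟩ := he (Cardinal.aleph 1) (fun a => {z : X | ∃ j < g a, q a j = z})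
    hreg le_rfl hr hA
  have hcof : ℵ₀ < (w1.{u}).cof := by
    unfold w1
    rw [hreg.cof_ord]
    exact Cardinal.aleph0_lt_aleph_one
  refine ⟨C ∩ C', hClub.inter w1 C C' hcof hC hC', ?_⟩
  rintro l ⟨hl, hl'⟩
  obtain ⟨hlim, hBd, hconv⟩ := hC2' l hl'
  refine ⟨hlim, hBd, ?_⟩
  have hlw : l < w1 := hC.1 l hl
  intro O' hO' heO'
  by_contra hcon
  have hlS : l ∈ S := by
    refine ⟨hlw, hlim, O', hO', heO', ?_⟩
    intro b hb
    by_contra hcon2
    apply hcon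
    refine ⟨b, hb, fun a hba hal j hj => ?_⟩
    by_contra hcon3
    exact hcon2 ⟨a, hba, hal, j, hj, hcon3⟩
  obtain ⟨⟨hO1, hO2, _⟩, hd1, hd2, hd3, hi1, hi2⟩ := hODI l hlS
  obtain ⟨b, hb, hbA⟩ := hconv (O l) hO1 hO2
  obtain ⟨n, hn⟩ := hd3 b hb
  obtain ⟨k, hk, hmk⟩ := hgC l hl hlS n
  have h1 : b ≤ d l k := hn.le.trans (hd1.monotone hk)
  have h2 : i l k < g (d l k) := lt_of_lt_of_le (lt_add_one _) hmk
  exact hi2 k (hbA (d l k) h1 (hd2 k) ⟨i l k, h2, rfl⟩)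

end Pool.Agent.HCO
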