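import Pool.Agent.HCO.St4

/-!
# HCO: the module C5b
-/

set_option autoImplicit false

open Set Topology Cardinal Ordinal Order Filter

universe u v w

namespace Pool.Agent.HCO

/-! ## Countable sets below `w1` -/

private theorem C5b_cof : ℵ₀ < (w1.{u}).cof := by
  have h : (w1.{u}).cof = ℵ₁ := Cardinal.isRegular_aleph_one.cof_ord
  rw [h]; exact Cardinal.aleph0_lt_aleph_one

private theorem C5b_pos : (0 : Ordinal.{u}) < w1 := by
  have := C5b_cof.{u}
  rcases eq_or_ne (w1.{u}) 0 with h | h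
  · rw [h] at this; simp at this
  · exact pos_iff_ne_zero.mpr h

private theorem C5b_bd (hC : St_Club.{u}) (A : Set Ordinal.{u}) (hA : A.Countable)
    (h : ∀ a ∈ A, a < w1) : ∃ c < w1, ∀ a ∈ A, a < c := by
  rcases A.eq_empty_or_nonempty with rfl | hne
  · exact ⟨0, C5b_pos, by simp⟩
  · obtain ⟨f, hf⟩ := hA.exists_eq_range hne
    obtain ⟨c, hc, hc2⟩ := hC.supN w1 f C5b_cof (fun i => h _ (by rw [hf]; exact ⟨i, rfl⟩))
    refine ⟨c, hc, fun a ha => ?_⟩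
    rw [hf] at ha
    obtain ⟨i, rfl⟩ := ha
    exact hc2 i

private theorem C5b_ctble (b : Ordinal.{u}) (hb : b < w1) : (Iio b).Countable := by
  rw [← Cardinal.le_aleph0_iff_set_countable]
  rw [Cardinal.mk_Iio_ordinal]
  have h : b.card < ℵ₁ := Cardinal.lt_ord.mp hb
  have h3 : b.card ≤ ℵ₀ := by
    have h4 : (ℵ₁ : Cardinal.{u}) = succ ℵ₀ := Cardinal.succ_aleph0.symm
    rw [h4] at h
    exact Order.lt_succ_iff.mp h
  exact Cardinal.lift_le_aleph0.mpr h3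

/-! ## Ranks -/

variable {X : Type u} [TopologicalSpace X] [CompactSpace X] [T2Space X]
  [TotallyDisconnectedSpace X]

private theorem C5b_empty (hD : St_Der.{u}) (hS : Scat X) :
    ∃ s : Ordinal.{u}, der (univ : Set X) s = ∅ := by
  by_contra hcon
  push_neg at hcon
  have h : ∀ s : Ordinal.{u}, ∃ z ∈ der (univ : Set X) s,
      ¬ AccPt z (𝓟 (der (univ : Set X) s)) := fun s =>
    hS _ (hD.closed X univ s isClosed_univ) (hcon s)
  choose g hg1 hg2 using h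
  refine not_injective_of_ordinal g (fun a b hab => ?_)
  by_contra hne
  rcases lt_or_gt_of_ne hne with hlt | hlt
  · have h1 : g b ∈ der (univ : Set X) b := hg1 b
    have h2 := ((hD.iff X univ b (g b)).1 h1).2 a hlt
    rw [← hab] at h2
    exact hg2 a h2
  · have h1 : g a ∈ der (univ : Set X) a := hg1 a
    have h2 := ((hD.iff X univ a (g a)).1 h1).2 b hlt
    rw [hab] at h2
    exact hg2 b h2

/-- exact rank of a point -/
private theorem C5b_rank (hD : St_Der.{u}) (hS : Scat X) (z : X) :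
    ∃ s : Ordinal.{u}, z ∈ der (univ : Set X) s ∧ ¬ AccPt z (𝓟 (der (univ : Set X) s)) := by
  obtain ⟨s, hs⟩ := C5b_empty hD hS
  by_contra hcon
  push_neg at hcon
  have h : ∀ s : Ordinal.{u}, z ∈ der (univ : Set X) s := by
    intro s
    induction s using WellFoundedLT.induction with
    | _ s ih =>
      rw [hD.iff]
      exact ⟨mem_univ _, fun e he => hcon e (ih e he)⟩
  have := h s
  rw [hs] at this
  exact this

/-- a point of maximal rank -/
private theorem C5b_max (hD : St_Der.{u}) (hS : Scat X) (A : Set X) (hA : IsClopen A)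
    (hne : A.Nonempty) :
    ∃ p ∈ A, ∀ t : Ordinal.{u}, (der (univ : Set X) t ∩ A).Nonempty →
      p ∈ der (univ : Set X) t := by
  obtain ⟨s, hs⟩ := C5b_empty hD hS
  have hex : ∃ s : Ordinal.{u}, der A s = ∅ := by
    refine ⟨s, ?_⟩
    have := hD.mono X A univ s (subset_univ _)
    rw [hs] at this
    exact subset_empty_iff.mp this
  have hint : ∀ t : Ordinal.{u}, der A t = der (univ : Set X) t ∩ A := by
    intro t
    have := hD.inter X univ A t hA.isOpen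
    rwa [univ_inter] at this
  classical
  let s0 : Ordinal.{u} := sInf {s | der A s = ∅}
  have hs0 : der A s0 = ∅ := csInf_mem (s := {s : Ordinal.{u} | der A s = ∅}) hex
  have hmin : ∀ t < s0, der A t ≠ ∅ := fun t ht h => by
    have : s0 ≤ t := csInf_le (OrderBot.bddBelow _) h
    exact absurd ht (not_lt.mpr this)
  rcases Ordinal.zero_or_succ_or_isSuccLimit s0 with h0 | ⟨t, ht⟩ | hl
  · rw [h0, hD.zero] at hs0
    exact absurd hs0 hne.ne_empty
  · have ht' : s0 = t + 1 := ht.symm.trans (Order.succ_eq_add_one t)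
    have h1 : der A t ≠ ∅ := hmin t (by rw [ht']; exact lt_add_one t)
    obtain ⟨p, hp⟩ := nonempty_iff_ne_empty.mpr h1
    have hp2 := hp
    rw [hint] at hp2
    refine ⟨p, hp2.2, fun r hr => ?_⟩
    have hrt : r ≤ t := by
      by_contra hlt
      push_neg at hlt
      have : s0 ≤ r := by rw [ht']; exact Order.add_one_le_of_lt hlt
      have h2 := hD.sub X A s0 r this
      rw [hs0] at h2
      obtain ⟨y, hy⟩ := hr
      rw [← hint] at hy
      exact h2 hy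
    exact hD.sub X univ r t hrt hp2.1
  · obtain ⟨a, ha, ha2⟩ := hD.compact X A s0 hA.isClosed hl hs0
    exact absurd ha2 (hmin a ha)

/-- case of countable character -/
private theorem C5b_cnt (hD : St_Der.{u}) (hS : Scat X) (W : Set X) (hW : IsClopen W) (w : X)
    (hw : w ∈ W) (hc : Cnt W w) : ∃ p : ℕ → X, (∀ n, p n ∈ W) ∧
      ∀ t : Ordinal.{u}, AccPt w (𝓟 (der (univ : Set X) t)) → ∀ N ∈ 𝓝 w,
        ∃ n, p n ∈ N ∧ p n ∈ der (univ : Set X) t ∧ p n ≠ w := by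
  obtain ⟨O, hO, hO2⟩ := hc
  set P : ℕ → Set X := fun n => {z | z ∈ W ∧ ∀ m ≤ n, z ∈ O m} with hP
  have hPc : ∀ n, IsClopen (P n) := by
    intro n
    induction n with
    | zero =>
      have : P 0 = W ∩ O 0 := by
        ext z; simp [hP]
      rw [this]; exact hW.inter (hO 0).1
    | succ n ih =>
      have : P (n + 1) = P n ∩ O (n + 1) := by
        ext z
        simp only [hP, mem_setOf_eq, mem_inter_iff]
        constructor
        · rintro ⟨h1, h2⟩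
          exact ⟨⟨h1, fun m hm => h2 m (by omega)⟩, h2 _ le_rfl⟩
        · rintro ⟨⟨h1, h2⟩, h3⟩
          refine ⟨h1, fun m hm => ?_⟩
          rcases Nat.lt_or_ge m (n + 1) with h | h
          · exact h2 m (by omega)
          · have : m = n + 1 := le_antisymm hm h
            rw [this]; exact h3
      rw [this]; exact ih.inter (hO (n + 1)).1
  have hanti : ∀ m n, m ≤ n → P n ⊆ P m := fun m n hmn z hz =>
    ⟨hz.1, fun k hk => hz.2 k (hk.trans hmn)⟩
  have hwP : ∀ n, w ∈ P n := fun n => ⟨hw, fun m _ => (hO m).2⟩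
  have hch : ∀ n : ℕ, ∃ p ∈ W, (P n \ P (n + 1)).Nonempty → p ∈ P n \ P (n + 1) ∧
      ∀ t : Ordinal.{u}, (der (univ : Set X) t ∩ (P n \ P (n + 1))).Nonempty →
      p ∈ der (univ : Set X) t := by
    intro n
    by_cases hne : (P n \ P (n + 1)).Nonempty
    · obtain ⟨p, hp, hp2⟩ := C5b_max hD hS (P n \ P (n + 1)) ((hPc n).diff (hPc (n + 1))) hne
      exact ⟨p, hp.1.1, fun _ => ⟨hp, hp2⟩⟩
    · exact ⟨w, hw, fun h => absurd h hne⟩
  choose p hpW hp using hch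
  refine ⟨p, hpW, fun t ht N hN => ?_⟩
  obtain ⟨n0, hn0⟩ : ∃ n, P n ⊆ N := by
    refine exists_subset_nhds_of_isCompact (V := P) ?_ (fun n => (hPc n).isClosed.isCompact) ?_
    · intro a b
      exact ⟨max a b, hanti _ _ (le_max_left _ _), hanti _ _ (le_max_right _ _)⟩
    · intro z hz
      have hzw : z = w := hO2 z (mem_iInter.1 hz 0).1 (fun n => (mem_iInter.1 hz n).2 n le_rfl)
      rw [hzw]; exact hN
  rw [accPt_iff_nhds] at ht
  obtain ⟨y, ⟨hy1, hy2⟩, hy3⟩ := ht (P n0) ((hPc n0).isOpen.mem_nhds (hwP n0))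
  -- the last n with y in P n
  have hex : ∃ n, y ∉ P n := by
    by_contra hcon
    push_neg at hcon
    exact hy3 (hO2 y hy1.1 (fun n => (hcon n).2 n le_rfl))
  obtain ⟨k, hfs, hfm⟩ : ∃ k, y ∉ P k ∧ ∀ m < k, y ∈ P m := by
    classical
    exact ⟨Nat.find hex, Nat.find_spec hex, fun m h => not_not.mp (Nat.find_min hex h)⟩
  have hk0 : n0 < k := by
    by_contra hcon
    exact hfs (hanti k n0 (not_lt.mp hcon) hy1)
  obtain ⟨n, rfl⟩ : ∃ n, k = n + 1 := ⟨k - 1, by omega⟩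
  have hyn : y ∈ P n := hfm n (by omega)
  have h1 := hp n ⟨y, hyn, hfs⟩
  refine ⟨n, hn0 (hanti n0 n (by omega) h1.1.1), h1.2 t ⟨y, hy2, hyn, hfs⟩, ?_⟩
  intro h
  apply h1.1.2
  rw [h]
  exact hwP (n + 1)

/-- a small final segment below a point -/
private theorem C5b_below (W : Set X) (hW : IsClopen W) (f : X → Ordinal.{u}) (hf : OrdOn W f)
    (w : X) (hw : w ∈ W) (hne : ∃ z ∈ W, f z < f w) (N : Set X) (hN : N ∈ 𝓝 w) :
    ∃ z0 ∈ W, f z0 < f w ∧ ∀ z ∈ W, f z0 < f z → f z ≤ f w → z ∈ N := by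
  obtain ⟨N', hN'N, hN'o, hwN'⟩ := mem_nhds_iff.1 hN
  obtain ⟨O, hO, hO2⟩ := hf.2 w hw
  set A : Set X := (W ∩ O) \ N' with hA
  have hAc : IsCompact A := ((hW.isClosed.inter hO.isClosed).sdiff hN'o).isCompact
  have hAlt : ∀ z ∈ A, f z < f w := by
    intro z hz
    refine lt_of_le_of_ne ((hO2 z hz.1.1).1 hz.1.2) (fun h => ?_)
    have := hf.1 hz.1.1 hw h
    exact hz.2 (this ▸ hwN')
  have hU : ∀ z : X, ∃ U : Set X, z ∈ A → (U ∈ 𝓝 z ∧ ∀ y ∈ W, y ∈ U → f y ≤ f z) := by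
    intro z
    by_cases hz : z ∈ A
    · obtain ⟨U, hU, hU2⟩ := hf.2 z hz.1.1
      exact ⟨U, fun _ => ⟨hU.isOpen.mem_nhds ((hU2 z hz.1.1).2 le_rfl),
        fun y hy hyU => (hU2 y hy).1 hyU⟩⟩
    · exact ⟨∅, fun h => absurd h hz⟩
  choose U hU using hU
  obtain ⟨T, hT1, hT2⟩ := hAc.elim_nhds_subcover U (fun z hz => (hU z hz).1)
  rcases T.eq_empty_or_nonempty with hTe | hTn
  · obtain ⟨z0, hz0, hz0w⟩ := hne
    refine ⟨z0, hz0, hz0w, fun z hz _ hzw => ?_⟩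
    by_contra hcon
    have : z ∈ A := ⟨⟨hz, (hO2 z hz).2 hzw⟩, fun h => hcon (hN'N h)⟩
    have := hT2 this
    rw [hTe] at this
    simp at this
  · obtain ⟨z0, hz0, hz0m⟩ := T.exists_max_image f hTn
    refine ⟨z0, (hT1 z0 hz0).1.1, hAlt z0 (hT1 z0 hz0), fun z hz hlt hzw => ?_⟩
    by_contra hcon
    have hzA : z ∈ A := ⟨⟨hz, (hO2 z hz).2 hzw⟩, fun h => hcon (hN'N h)⟩
    have := hT2 hzA
    rw [mem_iUnion₂] at this
    obtain ⟨y, hy, hzy⟩ := this
    have h1 := (hU y (hT1 y hy)).2 z hz hzy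
    exact absurd (h1.trans (hz0m y hy)) (not_le.mpr hlt)

/-- the general case -/
private theorem C5b_gen (hD : St_Der.{u}) (hS : Scat X) (W : Set X) (hW : IsClopen W)
    (f : X → Ordinal.{u}) (hf : OrdOn W f) (w : X) (hw : w ∈ W) (t : Ordinal.{u})
    (ht : AccPt w (𝓟 (der (univ : Set X) t))) (N : Set X) (hN : N ∈ 𝓝 w) :
    ∃ k ∈ W, ∃ v ∈ W, f k < f w ∧ (∀ z ∈ W, f k < f z → f z ≤ f w → z ∈ N) ∧
      v ∈ der (univ : Set X) t ∧ ∀ Z : Set X, IsClosed Z → w ∉ Z →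
        ∃ w' ∈ W, f k < f w' ∧ f w' < f w ∧ w' ∉ Z ∧
          ∀ s : Ordinal.{u}, v ∈ der (univ : Set X) s → w' ∈ der (univ : Set X) s := by
  obtain ⟨s, hs1, hs2⟩ := C5b_rank hD hS w
  rw [accPt_iff_nhds] at hs2 ht
  push_neg at hs2
  obtain ⟨N1, hN1, hN1s⟩ := hs2
  obtain ⟨O, hO, hO2⟩ := hf.2 w hw
  have hOW : W ∩ O ∈ 𝓝 w := (hW.inter hO).isOpen.mem_nhds ⟨hw, (hO2 w hw).2 le_rfl⟩
  have hlt : ∀ y ∈ W ∩ O, y ≠ w → f y < f w := fun y hy hyw =>
    lt_of_le_of_ne ((hO2 y hy.1).1 hy.2) (fun h => hyw (hf.1 hy.1 hw h))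
  obtain ⟨y0, ⟨hy0, _⟩, hy0w⟩ := ht (W ∩ O) hOW
  obtain ⟨k, hk, hkw, hkN⟩ := C5b_below W hW f hf w hw ⟨y0, hy0.1, hlt y0 hy0 hy0w⟩ (N ∩ N1)
    (inter_mem hN hN1)
  obtain ⟨Ok, hOk, hOk2⟩ := hf.2 k hk
  set B : Set X := (W ∩ O) \ Ok with hB
  have hBn : B ∈ 𝓝 w := by
    refine ((hW.inter hO).diff hOk).isOpen.mem_nhds ⟨⟨hw, (hO2 w hw).2 le_rfl⟩, fun h => ?_⟩
    exact absurd ((hOk2 w hw).1 h) (not_le.mpr hkw)
  have hBk : ∀ y ∈ B, f k < f y := fun y hy => by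
    by_contra hcon
    exact hy.2 ((hOk2 y hy.1.1).2 (not_lt.mp hcon))
  obtain ⟨v, ⟨hvB, hvt⟩, hvw⟩ := ht B hBn
  have hvN := hkN v hvB.1.1 (hBk v hvB) ((hO2 v hvB.1.1).1 hvB.1.2)
  have hvs : v ∉ der (univ : Set X) s := fun h => hvw (hN1s v ⟨hvN.2, h⟩)
  refine ⟨k, hk, v, hvB.1.1, hkw, fun z hz h1 h2 => (hkN z hz h1 h2).1, hvt, ?_⟩
  intro Z hZ hwZ
  obtain ⟨ρ, hρ1, hρ2⟩ := C5b_rank hD hS v
  have hρs : ρ < s := by
    by_contra hcon
    exact hvs (hD.sub X univ s ρ (not_lt.mp hcon) hρ1)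
  have hacc := ((hD.iff X univ s w).1 hs1).2 ρ hρs
  rw [accPt_iff_nhds] at hacc
  obtain ⟨w', ⟨⟨hw'B, hw'Z⟩, hw'ρ⟩, hw'w⟩ := hacc (B ∩ Zᶜ)
    (inter_mem hBn (hZ.isOpen_compl.mem_nhds hwZ))
  refine ⟨w', hw'B.1.1, hBk w' hw'B, hlt w' hw'B.1 hw'w, hw'Z, fun r hr => ?_⟩
  have hrρ : r ≤ ρ := by
    by_contra hcon
    exact hρ2 (((hD.iff X univ r v).1 hr).2 ρ (not_le.mp hcon))
  exact hD.sub X univ r ρ hrρ hw'ρ

/-! ## The recursion -/

/-- the sequence `d` -/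
private noncomputable def C5b_d (C : Set Ordinal.{u}) (G : Set Ordinal.{u} → Ordinal.{u})
    (j : Ordinal.{u}) : Ordinal.{u} :=
  sInf {c | c ∈ C ∧ ∀ a : Iio j, G {x | ∃ b : Iio j, b.1 ≤ a.1 ∧ x = C5b_d C G b.1} ≤ c}
termination_by j
decreasing_by exact b.2

private theorem C5b_rec (hC : St_Club.{u}) (C : Set Ordinal.{u}) (hCl : Club w1 C)
    (G : Set Ordinal.{u} → Ordinal.{u})
    (hG : ∀ S : Set Ordinal.{u}, S.Countable → (∀ s ∈ S, s < w1) → G S < w1)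
    (hGS : ∀ S : Set Ordinal.{u}, S.Countable → (∀ s ∈ S, s < w1) → ∀ s ∈ S, s < G S) :
    ∃ d : Ordinal.{u} → Ordinal.{u}, (∀ j < w1, d j ∈ C) ∧ (∀ i j, i < j → j < w1 → d i < d j) ∧
      (∀ i j, i < j → j < w1 → G {x | ∃ b ≤ i, x = d b} ≤ d j) ∧
      Club w1 {x | ∃ j < w1, x = d j} := by
  have hset : ∀ (j : Ordinal.{u}) (a : Iio j),
      {x | ∃ b : Iio j, b.1 ≤ a.1 ∧ x = C5b_d C G b.1} = {x | ∃ b ≤ a.1, x = C5b_d C G b} := by
    intro j a
    ext x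
    constructor
    · rintro ⟨b, hb, rfl⟩; exact ⟨b.1, hb, rfl⟩
    · rintro ⟨b, hb, rfl⟩; exact ⟨⟨b, lt_of_le_of_lt hb a.2⟩, hb, rfl⟩
  have hunf : ∀ j : Ordinal.{u}, C5b_d C G j =
      sInf {c | c ∈ C ∧ ∀ a < j, G {x | ∃ b ≤ a, x = C5b_d C G b} ≤ c} := by
    intro j
    rw [C5b_d]
    congr 1
    ext c
    constructor
    · rintro ⟨h1, h2⟩
      refine ⟨h1, fun a ha => ?_⟩
      have := h2 ⟨a, ha⟩
      rwa [hset] at this
    · rintro ⟨h1, h2⟩
      refine ⟨h1, fun a => ?_⟩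
      rw [hset]
      exact h2 a.1 a.2
  have hcS : ∀ i < w1, ({x | ∃ b ≤ i, x = C5b_d C G b} : Set Ordinal.{u}).Countable := by
    intro i hi
    have hlim : IsSuccLimit (w1.{u}) := Cardinal.isSuccLimit_ord (Cardinal.aleph0_le_aleph 1)
    have h1 : (Iio (i + 1)).Countable := C5b_ctble _ (by
      rw [← Order.succ_eq_add_one]; exact hlim.succ_lt hi)
    refine (h1.image (C5b_d C G)).mono ?_
    rintro x ⟨b, hb, rfl⟩
    exact ⟨b, Order.lt_add_one_iff.mpr hb, rfl⟩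
  have hmem : ∀ j < w1, C5b_d C G j ∈ C ∧ ∀ a < j, G {x | ∃ b ≤ a, x = C5b_d C G b} ≤
      C5b_d C G j := by
    intro j
    induction j using WellFoundedLT.induction with
    | _ j ih =>
      intro hj
      have hGlt : ∀ a < j, G {x | ∃ b ≤ a, x = C5b_d C G b} < w1 := by
        intro a ha
        refine hG _ (hcS a (ha.trans hj)) ?_
        rintro x ⟨b, hb, rfl⟩
        exact hCl.1 _ (ih b (lt_of_le_of_lt hb ha) ((lt_of_le_of_lt hb ha).trans hj)).1
      obtain ⟨c, hc, hc2⟩ := C5b_bd hC ((fun a => G {x | ∃ b ≤ a, x = C5b_d C G b}) '' Iio j)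
        ((C5b_ctble j hj).image _) (by
          rintro _ ⟨a, ha, rfl⟩
          exact hGlt a ha)
      obtain ⟨c', hc', hcc'⟩ := hCl.2.1 c hc
      have hne : {c | c ∈ C ∧ ∀ a < j, G {x | ∃ b ≤ a, x = C5b_d C G b} ≤ c}.Nonempty :=
        ⟨c', hc', fun a ha => ((hc2 _ ⟨a, ha, rfl⟩).trans hcc').le⟩
      rw [hunf j]
      exact csInf_mem hne
  have hGlt : ∀ a < w1, ∀ b ≤ a, C5b_d C G b < G {x | ∃ b ≤ a, x = C5b_d C G b} := by
    intro a ha b hb
    refine hGS _ (hcS a ha) ?_ _ ⟨b, hb, rfl⟩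
    rintro x ⟨e, he, rfl⟩
    exact hCl.1 _ (hmem e (lt_of_le_of_lt he ha)).1
  have hmono : ∀ i j, i < j → j < w1 → C5b_d C G i < C5b_d C G j := fun i j hij hj =>
    lt_of_lt_of_le (hGlt i (hij.trans hj) i le_rfl) ((hmem j hj).2 i hij)
  have hge : ∀ j < w1, j ≤ C5b_d C G j := by
    intro j
    induction j using WellFoundedLT.induction with
    | _ j ih =>
      intro hj
      by_contra hcon
      push_neg at hcon
      have h1 := hmono _ j hcon hj
      exact absurd (ih _ hcon (hcon.trans hj)) (not_le.mpr h1)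
  have hlim : IsSuccLimit (w1.{u}) := Cardinal.isSuccLimit_ord (Cardinal.aleph0_le_aleph 1)
  refine ⟨C5b_d C G, fun j hj => (hmem j hj).1, hmono, fun i j hij hj => (hmem j hj).2 i hij,
    ?_, ?_, ?_⟩
  · rintro a ⟨j, hj, rfl⟩
    exact hCl.1 _ (hmem j hj).1
  · intro b hb
    have hb1 : b + 1 < w1 := by rw [← Order.succ_eq_add_one]; exact hlim.succ_lt hb
    exact ⟨_, ⟨b + 1, hb1, rfl⟩, lt_of_lt_of_le (lt_add_one b) (hge _ hb1)⟩
  · intro l hl hll hlc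
    have hex : ∃ j, j < w1 ∧ l ≤ C5b_d C G j := ⟨l, hl, hge l hl⟩
    let j0 : Ordinal.{u} := sInf {j | j < w1 ∧ l ≤ C5b_d C G j}
    have hj0 : j0 < w1 ∧ l ≤ C5b_d C G j0 :=
      csInf_mem (s := {j : Ordinal.{u} | j < w1 ∧ l ≤ C5b_d C G j}) hex
    have hmin : ∀ j < j0, C5b_d C G j < l := by
      intro j hj
      by_contra hcon
      push_neg at hcon
      have : j0 ≤ j := csInf_le (OrderBot.bddBelow _) ⟨hj.trans hj0.1, hcon⟩
      exact absurd hj (not_lt.mpr this)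
    refine ⟨j0, hj0.1, le_antisymm hj0.2 ?_⟩
    rw [hunf]
    refine csInf_le (OrderBot.bddBelow _) ⟨?_, ?_⟩
    · refine hCl.2.2 l hl hll (fun b hb => ?_)
      obtain ⟨c, ⟨j, hj, rfl⟩, hc1, hc2⟩ := hlc b hb
      exact ⟨_, (hmem j hj).1, hc1, hc2⟩
    · intro a ha
      obtain ⟨c, ⟨j, hj, rfl⟩, hc1, hc2⟩ := hlc _ (hmin a ha)
      have haj : a < j := by
        by_contra hcon
        rcases (not_lt.mp hcon).lt_or_eq with h | h
        · exact absurd (hmono j a h (ha.trans hj0.1)) (not_lt.mpr hc1.le)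
        · rw [h] at hc1; exact lt_irrefl _ hc1
      exact ((hmem j hj).2 a haj).trans hc2.le

/-! ## The theorem -/

private theorem C5b_limpos {a : Ordinal.{u}} (h : IsSuccLimit a) : 0 < a := by
  rcases eq_or_ne a 0 with h0 | h0
  · rw [h0] at h
    exact absurd isMin_bot h.1
  · exact pos_iff_ne_zero.mpr h0

theorem thm_C5b (hD : St_Der.{u}) (hO : St_OCnt.{u}) (hC : St_Club.{u}) : St_C5b.{u} := by
  intro X _ _ _ _ W q V C hS hW hWo hq hqs hCl hV
  obtain ⟨f, hf⟩ := hWo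
  classical
  -- closure property (b)
  have hb : ∀ i : Ordinal.{u}, ∃ h : Ordinal.{u}, h < w1 ∧ (i < w1 → Cnt W (q i) →
      ∀ t : Ordinal.{u}, AccPt (q i) (𝓟 (der (univ : Set X) t)) → ∀ N ∈ 𝓝 (q i),
        ∃ i' < h, q i' ∈ N ∧ q i' ∈ der (univ : Set X) t ∧ q i' ≠ q i) := by
    intro i
    by_cases hi : i < w1 ∧ Cnt W (q i)
    · obtain ⟨p, hp, hp2⟩ := C5b_cnt hD hS W hW (q i) (hq i hi.1) hi.2
      choose idx hidx hidx2 using fun n => hqs (p n) (hp n)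
      obtain ⟨c, hc, hc2⟩ := hC.supN w1 idx C5b_cof hidx
      refine ⟨c, hc, fun _ _ t ht N hN => ?_⟩
      obtain ⟨n, hn1, hn2, hn3⟩ := hp2 t ht N hN
      refine ⟨idx n, hc2 n, ?_, ?_, ?_⟩
      · rw [hidx2]; exact hn1
      · rw [hidx2]; exact hn2
      · rw [hidx2]; exact hn3
    · exact ⟨0, C5b_pos, fun h1 h2 => absurd ⟨h1, h2⟩ hi⟩
  choose h hh1 hh2 using hb
  have hfn : Club w1 {a | a < w1 ∧ IsSuccLimit a ∧ ∀ b < a, h b < a} :=
    hC.fn (Cardinal.aleph 1) h Cardinal.isRegular_aleph_one Cardinal.aleph0_lt_aleph_one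
      (fun a _ => hh1 a)
  have hCl' := hC.inter w1 C _ C5b_cof hCl hfn
  set C' : Set Ordinal.{u} := C ∩ {a | a < w1 ∧ IsSuccLimit a ∧ ∀ b < a, h b < a} with hC'
  -- closure property (a)
  set Z : Set Ordinal.{u} → Set X := fun S => closure (⋃ l ∈ S, V l) with hZ
  set Q : Set Ordinal.{u} → Ordinal.{u} → Ordinal.{u} → Ordinal.{u} → X → Prop :=
    fun S i k v w' => w' ∈ W ∧ f (q k) < f w' ∧ f w' < f (q i) ∧ w' ∉ Z S ∧
      ∀ s : Ordinal.{u}, q v ∈ der (univ : Set X) s → w' ∈ der (univ : Set X) s with hQ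
  set Pp : Set Ordinal.{u} → Ordinal.{u} → Prop := fun S c => (∀ s ∈ S, s < c) ∧
    ∀ i k v, (∃ s ∈ S, i < s) → (∃ s ∈ S, k < s) → (∃ s ∈ S, v < s) → (∃ w', Q S i k v w') →
      ∃ i' < c, Q S i k v (q i') with hPp
  have hPex : ∀ S : Set Ordinal.{u}, S.Countable → (∀ s ∈ S, s < w1) → ∃ c, c < w1 ∧ Pp S c := by
    intro S hSc hSw
    obtain ⟨b, hb, hb2⟩ := C5b_bd hC S hSc hSw
    have hwit : ∀ x : Ordinal.{u} × Ordinal.{u} × Ordinal.{u}, ∃ i' < w1,
        (∃ w', Q S x.1 x.2.1 x.2.2 w') → Q S x.1 x.2.1 x.2.2 (q i') := by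
      intro x
      by_cases hx : ∃ w', Q S x.1 x.2.1 x.2.2 w'
      · obtain ⟨w', hw'⟩ := hx
        obtain ⟨i', hi', rfl⟩ := hqs w' hw'.1
        exact ⟨i', hi', fun _ => hw'⟩
      · exact ⟨0, C5b_pos, fun h => absurd h hx⟩
    choose wit hwit1 hwit2 using hwit
    have hIc := C5b_ctble b hb
    obtain ⟨c, hc, hc2⟩ := C5b_bd hC
      (wit '' (Iio b ×ˢ (Iio b ×ˢ Iio b)) ∪ S)
      (((hIc.prod (hIc.prod hIc)).image wit).union hSc) (by
        rintro a (⟨x, _, rfl⟩ | ha)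
        · exact hwit1 x
        · exact hSw a ha)
    refine ⟨c, hc, fun s hs => hc2 s (Or.inr hs), ?_⟩
    rintro i k v ⟨s1, hs1, hi⟩ ⟨s2, hs2, hk⟩ ⟨s3, hs3, hv⟩ hex
    refine ⟨wit (i, k, v), hc2 _ (Or.inl ⟨(i, k, v), ⟨hi.trans (hb2 s1 hs1),
      hk.trans (hb2 s2 hs2), hv.trans (hb2 s3 hs3)⟩, rfl⟩), hwit2 (i, k, v) hex⟩
  set G : Set Ordinal.{u} → Ordinal.{u} := fun S =>
    if hx : ∃ c, c < w1 ∧ Pp S c then Classical.choose hx else 0 with hG
  have hGs : ∀ S : Set Ordinal.{u}, S.Countable → (∀ s ∈ S, s < w1) →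
      G S < w1 ∧ Pp S (G S) := by
    intro S h1 h2
    have hx := hPex S h1 h2
    have : G S = Classical.choose hx := by simp only [hG]; rw [dif_pos hx]
    rw [this]
    exact Classical.choose_spec hx
  obtain ⟨d, hdC, hdm, hdG, hdCl⟩ := C5b_rec hC C' hCl' G (fun S h1 h2 => (hGs S h1 h2).1)
    (fun S h1 h2 => (hGs S h1 h2).2.1)
  have hlim : IsSuccLimit (w1.{u}) := Cardinal.isSuccLimit_ord (Cardinal.aleph0_le_aleph 1)
  have hsucc : ∀ i < w1, i + 1 < w1 := fun i hi => by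
    rw [← Order.succ_eq_add_one]; exact hlim.succ_lt hi
  have hdw : ∀ j < w1, d j < w1 := fun j hj => hCl'.1 _ (hdC j hj)
  have hdle : ∀ i j, i ≤ j → j < w1 → d i ≤ d j := by
    intro i j hij hj
    rcases hij.lt_or_eq with h | h
    · exact (hdm i j h hj).le
    · rw [h]
  refine ⟨{x | ∃ j < w1, x = d j}, ?_, hdCl, ?_⟩
  · rintro x ⟨j, hj, rfl⟩; exact (hdC j hj).1
  set T : Set X := W \ ⋃ l ∈ {x | ∃ j < w1, x = d j}, V l with hT
  set Good : X → Prop := fun w => ∃ j < w1, (∃ i < d j, q i = w) ∧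
    w ∉ Z {x | ∃ b < j, x = d b} with hGood
  have hGT : ∀ w, Good w → w ∈ T := by
    rintro w ⟨j, hj, ⟨i, hi, rfl⟩, hw⟩
    refine ⟨hq i (hi.trans (hdw j hj)), ?_⟩
    rw [mem_iUnion₂]
    rintro ⟨l, ⟨b, hb, rfl⟩, hl⟩
    rcases lt_or_ge b j with hbj | hbj
    · exact hw (subset_closure (mem_iUnion₂.2 ⟨_, ⟨b, hbj, rfl⟩, hl⟩))
    · exact (hV _ (hdC b hb).1).2 i (lt_of_lt_of_le hi (hdle j b hbj hb)) hl
  have key : ∀ s : Ordinal.{u}, ∀ w, Good w → w ∈ der (univ : Set X) s → w ∈ der T s := by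
    intro s
    induction s using WellFoundedLT.induction with
    | _ s ih =>
      intro w hw hws
      rw [hD.iff]
      refine ⟨hGT w hw, fun t ht => ?_⟩
      have hacc := ((hD.iff X univ s w).1 hws).2 t ht
      rw [accPt_iff_nhds]
      intro N hN
      obtain ⟨j0, hj0, ⟨i, hi, hiw⟩, hwZ⟩ := hw
      have hiw1 : i < w1 := hi.trans (hdw j0 hj0)
      have hwW : w ∈ W := hiw ▸ hq i hiw1
      by_cases hc : Cnt W w
      · subst hiw
        obtain ⟨i', hi', hN', ht', hne'⟩ := hh2 i hiw1 hc t hacc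
          (N ∩ (Z {x | ∃ b < j0, x = d b})ᶜ)
          (inter_mem hN (isClosed_closure.isOpen_compl.mem_nhds hwZ))
        refine ⟨q i', ⟨hN'.1, ih t ht (q i') ⟨j0, hj0, ⟨i', ?_, rfl⟩, hN'.2⟩ ht'⟩, hne'⟩
        exact hi'.trans ((hdC j0 hj0).2.2.2 i hi)
      · obtain ⟨k, hkW, v, hvW, hkw, hkN, hvt, hrest⟩ := C5b_gen hD hS W hW f hf w hwW t hacc N hN
        obtain ⟨k', hk', rfl⟩ := hqs k hkW
        obtain ⟨v', hv', rfl⟩ := hqs v hvW
        -- a large j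
        obtain ⟨e, ⟨j1, hj1, rfl⟩, hej⟩ := hdCl.2.1 (max k' v') (max_lt hk' hv')
        set j := max j0 j1 with hj
        have hjw : j < w1 := max_lt hj0 hj1
        have hdi : i < d j := lt_of_lt_of_le hi (hdle j0 j (le_max_left _ _) hjw)
        have hdk : k' < d j := lt_of_lt_of_le (lt_of_le_of_lt (le_max_left _ _) hej)
          (hdle j1 j (le_max_right _ _) hjw)
        have hdv : v' < d j := lt_of_lt_of_le (lt_of_le_of_lt (le_max_right _ _) hej)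
          (hdle j1 j (le_max_right _ _) hjw)
        have hZj : w ∉ Z {x | ∃ b ≤ j, x = d b} := by
          intro hcon
          apply hc
          -- the countable family
          let 𝒜 : Set (Set X) := insert (Z {x | ∃ b < j0, x = d b})
            ((fun b => V (d b)) '' {b | j0 ≤ b ∧ b ≤ j})
          have h𝒜 : 𝒜.Countable := by
            refine Set.Countable.insert _ (Set.Countable.image ?_ _)
            exact (C5b_ctble (j + 1) (hsucc j hjw)).mono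
              (fun b hb => Order.lt_add_one_iff.mpr hb.2)
          obtain ⟨A, hA⟩ := h𝒜.exists_eq_range ⟨_, mem_insert _ _⟩
          have hAprop : ∀ B ∈ 𝒜, IsClosed B ∧ w ∉ B := by
            rintro B (rfl | ⟨b, ⟨hb1, hb2⟩, rfl⟩)
            · exact ⟨isClosed_closure, hwZ⟩
            · have hbw : b < w1 := lt_of_le_of_lt hb2 hjw
              have h1 := hV _ (hdC b hbw).1
              refine ⟨h1.1.isClosed, ?_⟩
              rw [← hiw]
              exact h1.2 i (lt_of_lt_of_le hi (hdle j0 b hb1 hbw))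
          refine hO X W w A hW.isClosed ⟨f, hf⟩ hwW
            (fun n => hAprop _ (by rw [hA]; exact ⟨n, rfl⟩)) ?_
          have hsub : (⋃ l ∈ {x | ∃ b ≤ j, x = d b}, V l) ⊆ ⋃ n, A n := by
            intro z hz
            obtain ⟨l, ⟨b, hb, rfl⟩, hzl⟩ := mem_iUnion₂.1 hz
            have : ∃ B ∈ 𝒜, z ∈ B := by
              rcases lt_or_ge b j0 with h | h
              · exact ⟨_, mem_insert _ _, subset_closure (mem_iUnion₂.2 ⟨_, ⟨b, h, rfl⟩, hzl⟩)⟩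
              · exact ⟨_, mem_insert_of_mem _ ⟨b, ⟨h, hb⟩, rfl⟩, hzl⟩
            obtain ⟨B, hB, hzB⟩ := this
            rw [hA] at hB
            obtain ⟨n, rfl⟩ := hB
            exact mem_iUnion.2 ⟨n, hzB⟩
          have hcl : w ∈ closure (⋃ n, A n) := closure_mono hsub hcon
          rw [mem_closure_iff_nhds] at hcl ⊢
          intro U hU
          obtain ⟨z, ⟨hz1, hz2⟩, hz3⟩ := hcl (U ∩ W) (inter_mem hU (hW.isOpen.mem_nhds hwW))
          exact ⟨z, hz1, hz2, hz3⟩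
        have hS1 : ({x | ∃ b ≤ j, x = d b} : Set Ordinal.{u}).Countable := by
          refine ((C5b_ctble (j + 1) (hsucc j hjw)).image d).mono ?_
          rintro x ⟨b, hb, rfl⟩
          exact ⟨b, Order.lt_add_one_iff.mpr hb, rfl⟩
        have hS2 : ∀ s ∈ ({x | ∃ b ≤ j, x = d b} : Set Ordinal.{u}), s < w1 := by
          rintro x ⟨b, hb, rfl⟩
          exact hdw b (lt_of_le_of_lt hb hjw)
        have hmax : d j ∈ ({x | ∃ b ≤ j, x = d b} : Set Ordinal.{u}) := ⟨j, le_rfl, rfl⟩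
        obtain ⟨i', hi', hQ'⟩ := (hGs _ hS1 hS2).2.2 i k' v' ⟨_, hmax, hdi⟩ ⟨_, hmax, hdk⟩
          ⟨_, hmax, hdv⟩ (by
            obtain ⟨w', hw1, hw2, hw3, hw4, hw5⟩ := hrest _ isClosed_closure hZj
            exact ⟨w', hw1, hw2, by rw [hiw]; exact hw3, hw4, hw5⟩)
        obtain ⟨hq1, hq2, hq3, hq4, hq5⟩ := hQ'
        rw [hiw] at hq3
        have hjs := hsucc j hjw
        have hdj1 : i' < d (j + 1) := lt_of_lt_of_le hi' (hdG j (j + 1) (lt_add_one j) hjs)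
        refine ⟨q i', ⟨hkN _ hq1 hq2 hq3.le, ih t ht (q i') ⟨j + 1, hjs, ⟨i', hdj1, rfl⟩, ?_⟩
          (hq5 t hvt)⟩, fun h => ?_⟩
        · have : ({x | ∃ b < j + 1, x = d b} : Set Ordinal.{u}) = {x | ∃ b ≤ j, x = d b} := by
            ext x
            simp only [Order.lt_add_one_iff]
          rw [this]; exact hq4
        · rw [h] at hq3; exact lt_irrefl _ hq3
  intro s hs
  refine key s (q 0) ⟨0, C5b_pos, ⟨0, C5b_limpos (hdC 0 C5b_pos).2.2.1, rfl⟩, ?_⟩ hs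
  simp [hZ]

end Pool.Agent.HCO
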