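import Pool.Agent.HCO.St4

/-!
# HCO [C6]: the case `ℵ₁ < μ`, `μ.ord < r` is impossible
-/

set_option autoImplicit false

open Set Topology Cardinal Ordinal Order Filter

universe u v w

namespace Pool.Agent.HCO

theorem thm_C6 (hC : St_Club.{u}) (hC6a : St_C6a.{u}) (hPL : St_PL.{u}) (hRP2 : St_RP2.{u})
    (hFB1 : St_FB1.{u}) (hRetr : St_Retr.{u}) : St_C6.{u} := by
  classical
  intro hMM X _ _ _ _ x r μ K hmin hK hμ hr
  have hreg := hK.reg
  have hμ0 : ℵ₀ < μ := hK.unc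
  have hcof : μ.ord.cof = μ := hreg.cof_ord
  have hcof0 : ℵ₀ < μ.ord.cof := by rw [hcof]; exact hμ0
  obtain ⟨C, hCl, hCs⟩ := hC6a X x r μ K hmin hK hr
  -- retractions
  let c : Ordinal.{u} → X → X := fun a =>
    if h : a < μ.ord ∧ IsSuccLimit a ∧ (Bd K a).Finite then
      (hRetr X x r μ K hK a h.1 h.2.1 h.2.2).choose else fun z => z
  have hc : ∀ a < μ.ord, IsSuccLimit a → (Bd K a).Finite → Retr K a (c a) := by
    intro a ha hl hf
    have h : a < μ.ord ∧ IsSuccLimit a ∧ (Bd K a).Finite := ⟨ha, hl, hf⟩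
    have e : c a = (hRetr X x r μ K hK a h.1 h.2.1 h.2.2).choose := dif_pos h
    rw [e]
    exact (hRetr X x r μ K hK a h.1 h.2.1 h.2.2).choose_spec
  obtain ⟨C', hCl', hCs'⟩ := hRP2 hMM μ (fun a => (Bd K a).Subsingleton) C hreg hμ hCl (by
    intro l hl hlc
    have hlc0 : ℵ₀ < l.cof := by
      rw [hlc]
      exact Cardinal.aleph0_lt_aleph_one
    obtain ⟨E, hE, hE'⟩ := hPL X x r μ K hmin hK c hc l (hCl.1 l hl) hlc0
    refine ⟨E, hE, fun a ha => ?_⟩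
    obtain ⟨_, hfin, hnc, _⟩ := hE' a ha
    have h1 : (Bd K l).ncard ≤ 1 := by
      have h2 := hCs l hl hlc0
      exact (Set.ncard_le_one h2.finite).2 (fun p hp q hq => h2 hp hq)
    rw [← hnc] at h1
    exact fun p hp q hq => (Set.ncard_le_one hfin).1 h1 p hp q hq)
  refine hFB1 X x r μ K hmin hK _ (hC.inter _ _ _ hcof0 (hC.inter _ _ _ hcof0 hCl hCl')
    (hC.lim _ _ hcof0 hCl)) ?_
  rintro l ⟨⟨hlC, hlC'⟩, _, hlim, _⟩
  have h1 : ℵ₀ ≤ l.cof := by
    rw [Ordinal.aleph0_le_cof_iff, Ordinal.one_lt_cof_iff]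
    exact hlim
  rcases h1.eq_or_lt with h2 | h2
  · exact hCs' l hlC' h2.symm
  · exact hCs l hlC h2

end Pool.Agent.HCO
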