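import Pool.Agent.HCO.St4

/-!
# Module C6a: boundaries of uncountable cofinality are points on a club, if `μ.ord < r`
-/

set_option autoImplicit false

open Set Topology Cardinal Ordinal Order Filter

universe u v w

namespace Pool.Agent.HCO

section gen

variable {X : Type u} [TopologicalSpace X]

private theorem C6a_club (μ : Cardinal.{u}) (hμ : ℵ₀ ≤ μ) (b : Ordinal.{u}) (hb : b < μ.ord) :
    Club μ.ord {a | b < a ∧ a < μ.ord} := by
  have hlim : IsSuccLimit μ.ord := isSuccLimit_ord hμ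
  refine ⟨fun a ha => ha.2, ?_, ?_⟩
  · intro b' hb'
    refine ⟨max b b' + 1, ⟨?_, ?_⟩, ?_⟩
    · exact lt_of_le_of_lt (le_max_left b b') (lt_add_one _)
    · exact hlim.add_one_lt (max_lt hb hb')
    · exact lt_of_le_of_lt (le_max_right b b') (lt_add_one _)
  · intro l hl hlim2 h
    have h0 : 0 < l := by
      rcases eq_or_ne l 0 with h1 | h1
      · exact absurd (h1 ▸ hlim2) (by simp)
      · exact pos_iff_ne_zero.mpr h1
    obtain ⟨c, hc, _, hcl⟩ := h 0 h0
    exact ⟨hc.1.trans hcl, hl⟩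

private theorem C6a_bd_sub {x : X} {o : Ordinal.{u}} {K : Ordinal.{u} → Set X}
    (hK : PreFilt x o K) {a : Ordinal.{u}} (ha : a < o) : Bd K a ⊆ K a :=
  fun _ hz => hK.cl a ha hz.1

private theorem C6a_bd_notin {K : Ordinal.{u} → Set X} {a b : Ordinal.{u}} (hb : b < a) {z : X}
    (hz : z ∈ Bd K a) : z ∉ K b := fun h => hz.2 ⟨b, hb, h⟩

/-- the union of the finite boundaries -/
private def C6a_R0 (μ : Cardinal.{u}) (K : Ordinal.{u} → Set X) : Set X :=
  {z | ∃ a < μ.ord, IsSuccLimit a ∧ (Bd K a).Finite ∧ z ∈ Bd K a}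

private theorem C6a_card {μ : Cardinal.{u}} {K : Ordinal.{u} → Set X} (hreg : μ.IsRegular)
    (hunc : ℵ₀ < μ) {N : Set X} {b : Ordinal.{u}} (hb : b < μ.ord) (hN : N ⊆ K b) :
    #(C6a_R0 μ K ∩ N : Set X) < μ := by
  classical
  have hlim : IsSuccLimit μ.ord := isSuccLimit_ord hunc.le
  have hb1 : b + 1 < μ.ord := hlim.add_one_lt hb
  let S : Ordinal.{u} → Set X := fun a => if (Bd K a).Finite then Bd K a else ∅
  have hS : ∀ a, (S a).Finite := by
    intro a
    by_cases h : (Bd K a).Finite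
    · simp only [S, if_pos h]
      exact h
    · simp only [S, if_neg h]
      exact finite_empty
  let e : (Set.Iio (b + 1)) ≃o (b + 1).ToType := Ordinal.ToType.mk
  have hsub : (C6a_R0 μ K ∩ N : Set X) ⊆ ⋃ i : (b + 1).ToType, S (e.symm i : Set.Iio (b + 1)).1 := by
    rintro z ⟨⟨a, ha, _, hfin, hza⟩, hzN⟩
    have hab : a < b + 1 := by
      rw [Order.lt_add_one_iff]
      by_contra hcon
      exact C6a_bd_notin (not_le.mp hcon) hza (hN hzN)
    refine mem_iUnion.mpr ⟨e ⟨a, hab⟩, ?_⟩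
    rw [OrderIso.symm_apply_apply]
    simp only [S, if_pos hfin]
    exact hza
  refine lt_of_le_of_lt (Cardinal.mk_le_mk_of_subset hsub) ?_
  refine lt_of_le_of_lt Cardinal.mk_iUnion_le_sum_mk ?_
  refine Cardinal.sum_lt_of_isRegular hreg ?_ ?_
  · rw [Cardinal.mk_toType]
    exact Cardinal.lt_ord.mp hb1
  · intro i
    exact lt_trans (Cardinal.lt_aleph0_iff_finite.mpr (hS _).to_subtype) hunc

/-- the trace on a clopen set of the closure -/
private theorem C6a_trace (A N : Set X) (hN : IsOpen N) : closure A ∩ N ⊆ closure (A ∩ N) := by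
  rintro z ⟨h1, h2⟩
  rw [inter_comm A N]
  exact hN.inter_closure ⟨h2, h1⟩

end gen

/-- surjectivity of the retraction on lower boundaries -/
private theorem C6a_surj {X : Type u} [TopologicalSpace X] {K : Ordinal.{u} → Set X} {x : X}
    {o a l b : Ordinal.{u}} (hK : PreFilt x o K) (hal : a < l) (hlo : l < o) (hba : b < a)
    {ca cl : X → X} (hRa : Retr K a ca) (hRl : Retr K l cl)
    (hfl : (Bd K l).Finite) (hcard : (Bd K a).ncard = (Bd K l).ncard)
    (hcoh : ∀ z ∈ Uu K a, ∀ w ∈ Uu K a, z ∉ K b → w ∉ K b → (ca z = ca w ↔ cl z = cl w))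
    {p : X} (hp : p ∈ Bd K l) : ∃ p' ∈ Bd K a, cl p' = p := by
  have hao : a < o := hal.trans hlo
  have hbo : b < o := hba.trans hao
  have hmaps : ∀ z ∈ Bd K a, z ∈ closure (Uu K l) := by
    intro z hz
    exact subset_closure ⟨a, hal, C6a_bd_sub hK hao hz⟩
  -- points near a point of the boundary
  have hnear : ∀ z ∈ Bd K a, ∀ N : Set X, IsOpen N → z ∈ N →
      ∃ v ∈ Uu K a, v ∉ K b ∧ v ∈ N ∧ ca v = z ∧ cl v = cl z := by
    intro z hz N hN hzN
    obtain ⟨N1, hN1, hN1'⟩ := hRa.2.2 z hz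
    have hcz : cl z ∈ Bd K l := hRl.2.1 z (hmaps z hz)
    obtain ⟨N2, hN2, hN2'⟩ := hRl.2.2 (cl z) hcz
    have hz1 : z ∈ N1 := (hN1' z hz.1).mpr (hRa.1 z hz)
    have hz2 : z ∈ N2 := (hN2' z (hmaps z hz)).mpr rfl
    have hz3 : z ∈ (K b)ᶜ := C6a_bd_notin hba hz
    have hopen : IsOpen (N ∩ (N1 ∩ (N2 ∩ (K b)ᶜ))) :=
      hN.inter (hN1.isOpen.inter (hN2.isOpen.inter (hK.clopen b hbo).compl.isOpen))
    obtain ⟨v, ⟨hv0, hv1, hv2, hv3⟩, hv4⟩ := mem_closure_iff.mp hz.1 _ hopen ⟨hzN, hz1, hz2, hz3⟩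
    obtain ⟨a', ha', hva'⟩ := hv4
    refine ⟨v, ⟨a', ha', hva'⟩, hv3, hv0, (hN1' v (subset_closure ⟨a', ha', hva'⟩)).mp hv1, ?_⟩
    exact (hN2' v (subset_closure ⟨a', ha'.trans hal, hva'⟩)).mp hv2
  have hinj : ∀ z ∈ Bd K a, ∀ w ∈ Bd K a, cl z = cl w → z = w := by
    intro z hz w hw hzw
    obtain ⟨v, hv, hvb, _, hv1, hv2⟩ := hnear z hz univ isOpen_univ (mem_univ _)
    obtain ⟨v', hv', hvb', _, hv1', hv2'⟩ := hnear w hw univ isOpen_univ (mem_univ _)
    have h := (hcoh v hv v' hv' hvb hvb').mpr (by rw [hv2, hv2', hzw])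
    rw [hv1, hv1'] at h
    exact h
  obtain ⟨p', hp', hpp⟩ := Set.surj_on_of_inj_on_of_ncard_le (s := Bd K a) (t := Bd K l)
    (fun z _ => cl z) (fun z hz => hRl.2.1 z (hmaps z hz)) (fun z w hz hw h => hinj z hz w hw h)
    hcard.ge hfl p hp
  exact ⟨p', hp', hpp.symm⟩

theorem thm_C6a (hPL : St_PL.{u}) (hCMP : St_CMP.{u}) (hBL : St_BL.{u}) (hRetr : St_Retr.{u})
    (hLS : St_LS.{u}) (hOClos : St_OClos.{u}) (hFilt : St_Filt.{u}) (hDer : St_Der.{u}) :
    St_C6a.{u} := by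
  classical
  intro X _ _ _ _ x r μ K hMin hF hμr
  have hreg : μ.IsRegular := hF.toFilt.reg
  have hunc : ℵ₀ < μ := hF.toFilt.unc
  have hPre : PreFilt x μ.ord K := hF.toFilt.toPreFilt
  have hlimμ : IsSuccLimit μ.ord := isSuccLimit_ord hunc.le
  have hcofμ : ℵ₀ < μ.ord.cof := by
    rw [hreg.cof_ord]
    exact hunc
  -- clopen sets missing `x` are ordinal
  have hord : ∀ N : Set X, IsClosed N → x ∉ N → IsOrd N := by
    intro N hN hxN
    exact hMin.small N hN fun h => hxN ((hDer.iff X N r x).mp h).1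
  have hR0N : ∀ N : Set X, IsClopen N → x ∉ N → #(closure (C6a_R0 μ K) ∩ N : Set X) < μ := by
    intro N hN hxN
    obtain ⟨b, hb, hNb⟩ := hFilt.cpt X x μ K hF.toFilt N hN.isClosed hxN
    have h1 := C6a_card hreg hunc hb hNb
    have h2 : #(closure (C6a_R0 μ K ∩ N) : Set X) ≤ max #(C6a_R0 μ K ∩ N : Set X) ℵ₀ :=
      hOClos X N _ hN.isClosed (hord N hN.isClosed hxN) inter_subset_right
    exact lt_of_le_of_lt ((Cardinal.mk_le_mk_of_subset (C6a_trace _ _ hN.isOpen)).trans h2)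
      (max_lt h1 hunc)
  have hRcl : IsClosed (closure (C6a_R0 μ K)) := isClosed_closure
  have hder : der (closure (C6a_R0 μ K)) μ.ord ⊆ {x} :=
    hLS X x _ μ hMin.scat hRcl hR0N
  have hRord : IsOrd (closure (C6a_R0 μ K)) := by
    apply hMin.small _ hRcl
    intro h
    have h1 := ((hDer.iff X _ r x).mp h).2 μ.ord hμr
    obtain ⟨y, ⟨_, hy⟩, hyx⟩ := accPt_iff_nhds.mp h1 univ univ_mem
    exact hyx (hder hy)
  by_cases hacc : AccPt x (𝓟 (closure (C6a_R0 μ K)))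
  · -- main case
    have hxR : x ∈ closure (C6a_R0 μ K) := by
      by_contra hcon
      obtain ⟨y, ⟨hy1, hy2⟩, _⟩ := accPt_iff_nhds.mp hacc _ (hRcl.isOpen_compl.mem_nhds hcon)
      exact hy1 hy2
    obtain ⟨C, hC, hC2⟩ := hCMP X x μ.ord K _ hRcl hRord hxR hacc hcofμ hPre
      (fun z _ hz => hF.toFilt.cover z hz)
    refine ⟨C, hC, ?_⟩
    intro l hl hcof
    obtain ⟨hlim, e, he⟩ := hC2 l hl
    have hlμ : l < μ.ord := hC.1 l hl
    have hfl : (Bd K l).Finite := hBL X x r μ K hMin hF.toFilt l hlμ hcof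
    -- retractions
    have hex : ∀ a : Ordinal.{u}, ∃ c : X → X, a < μ.ord → IsSuccLimit a → (Bd K a).Finite →
        Retr K a c := by
      intro a
      by_cases h : a < μ.ord ∧ IsSuccLimit a ∧ (Bd K a).Finite
      · obtain ⟨c, hc⟩ := hRetr X x r μ K hF a h.1 h.2.1 h.2.2
        exact ⟨c, fun _ _ _ => hc⟩
      · exact ⟨id, fun h1 h2 h3 => absurd ⟨h1, h2, h3⟩ h⟩
    choose c hc using hex
    obtain ⟨C', hC', hC2'⟩ := hPL X x r μ K hMin hF c (fun a h1 h2 h3 => hc a h1 h2 h3) l hlμ hcof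
    have hcl := hc l hlμ hlim hfl
    have key : ∀ p ∈ Bd K l, p = e := by
      intro p hp
      have hpcl : p ∈ closure (closure (C6a_R0 μ K) ∩ Uu K l) := by
        rw [mem_closure_iff]
        intro O hO hpO
        obtain ⟨Np, hNp, hNp'⟩ := hcl.2.2 p hp
        have hAcl : IsClosed (closure (Uu K l) ∩ Np ∩ Oᶜ) :=
          (isClosed_closure.inter hNp.isClosed).inter hO.isClosed_compl
        have hAU : closure (Uu K l) ∩ Np ∩ Oᶜ ⊆ Uu K l := by
          rintro z ⟨⟨hz1, hz2⟩, hz3⟩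
          by_contra hcon
          have h1 : c l z = z := hcl.1 z ⟨hz1, hcon⟩
          have h2 : c l z = p := (hNp' z hz1).mp hz2
          rw [h1] at h2
          rw [h2] at hz3
          exact hz3 hpO
        obtain ⟨ξ, hξ, hAξ⟩ := hFilt.bd X x μ.ord K hPre l hlμ.le hlim _ hAcl hAU
        obtain ⟨a, haC, hξa⟩ := hC'.2.1 ξ hξ
        have hal : a < l := hC'.1 a haC
        obtain ⟨halim, hafin, hacard, b, hb, hcoh⟩ := hC2' a haC
        have haμ : a < μ.ord := hal.trans hlμ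
        obtain ⟨p', hp', hpp⟩ := C6a_surj hPre hal hlμ hb (hc a haμ halim hafin) hcl hfl
          hacard hcoh hp
        have h1 : p' ∈ Uu K l := ⟨a, hal, C6a_bd_sub hPre haμ hp'⟩
        have h2 : p' ∈ closure (Uu K l) := subset_closure h1
        refine ⟨p', ?_, subset_closure ⟨a, haμ, halim, hafin, hp'⟩, h1⟩
        by_contra hpO'
        exact C6a_bd_notin hξa hp' (hAξ ⟨⟨h2, (hNp' p' h2).mpr hpp⟩, hpO'⟩)
      have h3 : p ∈ closure (closure (C6a_R0 μ K) ∩ Uu K l) \ Uu K l := ⟨hpcl, hp.2⟩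
      rw [he] at h3
      exact h3
    intro p hp q hq
    rw [key p hp, key q hq]
  · -- `x` does not accumulate the finite boundaries
    rw [accPt_iff_nhds] at hacc
    push Not at hacc
    obtain ⟨U, hU, hU2⟩ := hacc
    obtain ⟨O, hOU, hO, hxO⟩ := mem_nhds_iff.mp hU
    obtain ⟨b, hb, hOb⟩ := hFilt.cpt X x μ K hF.toFilt Oᶜ hO.isClosed_compl (fun h => h hxO)
    refine ⟨{a | b < a ∧ a < μ.ord}, C6a_club μ hunc.le b hb, ?_⟩
    rintro l ⟨hbl, hlμ⟩ hcof
    exfalso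
    have hlim : IsSuccLimit l := by
      rw [← Ordinal.one_lt_cof_iff]
      exact lt_trans Cardinal.one_lt_aleph0 hcof
    have hfin : (Bd K l).Finite := hBL X x r μ K hMin hF.toFilt l hlμ hcof
    obtain ⟨z, hz⟩ := hFilt.ne X x r μ K hF l hlμ hlim
    have hzR : z ∈ closure (C6a_R0 μ K) := subset_closure ⟨l, hlμ, hlim, hfin, hz⟩
    have hzK : z ∉ K b := C6a_bd_notin hbl hz
    have hzO : z ∈ O := by
      by_contra hcon
      exact hzK (hOb hcon)
    have hzx : z = x := hU2 z ⟨hOU hzO, hzR⟩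
    exact hPre.notin l hlμ (hzx ▸ C6a_bd_sub hPre hlμ hz)

end Pool.Agent.HCO
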