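import Pool.Agent.HCO.St4

/-!
# C7: the case `r = μ.ord`, `ℵ₁ < μ` is impossible
-/

set_option autoImplicit false

universe u v w

open Set Topology Cardinal Ordinal Order Filter

namespace Pool.Agent.HCO

theorem thm_C7 (hC7n : St_C7n.{u}) (hOE : St_OE.{u}) (hRP2 : St_RP2.{u}) (hPL : St_PL.{u})
    (hBL : St_BL.{u}) (hFB1 : St_FB1.{u}) (hRetr : St_Retr.{u}) (hClub : St_Club.{u}) :
    St_C7.{u} := by
  classical
  intro hMM X _ _ _ _ x μ K hMin hF hμ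
  have hcofμ : μ.ord.cof = μ := hF.reg.cof_ord
  have hlimμ : IsSuccLimit μ.ord := by
    rw [← aleph0_le_cof, hcofμ]
    exact hF.unc.le
  have hcofμ' : ℵ₀ < μ.ord.cof := by
    rw [hcofμ]
    exact hF.unc
  have hfin : ∀ l < μ.ord, ℵ₀ < l.cof → (Bd K l).Finite := hBL X x μ.ord μ K hMin hF.toFilt
  -- one-endedness
  have hone : ∀ F G : Set X, IsClosed F → IsClosed G → AccPt x (𝓟 F) → AccPt x (𝓟 G) →
      ∃ z, z ∈ F ∧ z ∈ G ∧ z ≠ x := by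
    refine hOE X x μ K hMin hF.toFilt fun C hC => ?_
    obtain ⟨a, haC, ha, -, hacof⟩ := hClub.cofw1 μ C hF.reg hμ hC
    exact ⟨a, haC, (hfin a ha (by rw [hacof]; exact aleph0_lt_aleph_one)).countable⟩
  -- retractions
  have hex : ∀ a, ∃ c : X → X, a < μ.ord → IsSuccLimit a → (Bd K a).Finite → Retr K a c := by
    intro a
    by_cases h : a < μ.ord ∧ IsSuccLimit a ∧ (Bd K a).Finite
    · obtain ⟨c, hc⟩ := hRetr X x μ.ord μ K hF a h.1 h.2.1 h.2.2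
      exact ⟨c, fun _ _ _ => hc⟩
    · exact ⟨id, fun h1 h2 h3 => absurd ⟨h1, h2, h3⟩ h⟩
  choose c hc using hex
  have hPL' : ∀ l < μ.ord, ℵ₀ < l.cof → ∃ C, Club l C ∧ ∀ a ∈ C, (Bd K a).Finite ∧
      (Bd K a).ncard = (Bd K l).ncard := by
    intro l hl hlc
    obtain ⟨C, hC, h⟩ := hPL X x μ.ord μ K hMin hF c (fun a h1 h2 h3 => hc a h1 h2 h3) l hl hlc
    exact ⟨C, hC, fun a ha => ⟨(h a ha).2.1, (h a ha).2.2.1⟩⟩
  -- finite boundaries in cofinality `ω`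
  obtain ⟨C1, hC1, hC1f⟩ := hRP2 hMM μ (fun a => (Bd K a).Finite) (Iio μ.ord) hF.reg hμ
    (hClub.univ μ.ord hlimμ) (by
      intro l hl hlc
      obtain ⟨E, hE, h⟩ := hPL' l hl (by rw [hlc]; exact aleph0_lt_aleph_one)
      exact ⟨E, hE, fun a ha => (h a ha).1⟩)
  -- boundaries with `n` points
  have hn : ∀ n : ℕ, ∃ D, Club μ.ord D ∧ ∀ a ∈ D, 2 ≤ n → IsSuccLimit a → a.cof = ℵ₀ →
      (Bd K a).Finite → (Bd K a).ncard ≠ n := by
    intro n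
    by_cases h2 : 2 ≤ n
    · have h := hC7n hMM X x μ K hMin hF hμ hone n h2
      unfold Stat at h
      push Not at h
      obtain ⟨D, hD, hD'⟩ := h
      refine ⟨D, hD, fun a ha _ h3 h4 h5 h6 => ?_⟩
      exact hD' a ⟨hD.1 a ha, h3, h4, h5, h6⟩ ha
    · exact ⟨Iio μ.ord, hClub.univ μ.ord hlimμ, fun a _ h => absurd h h2⟩
  choose D hD hDn using hn
  have hDD := hClub.intersN μ.ord D hcofμ' hD
  -- all limit elements of the club `C2` of cofinality `ω` have one point boundaries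
  set C2 : Set Ordinal.{u} := C1 ∩ {a | a < μ.ord ∧ ∀ i, a ∈ D i} with hC2def
  have hC2 : Club μ.ord C2 := hClub.inter μ.ord _ _ hcofμ' hC1 hDD
  have hC2n : ∀ a ∈ C2, IsSuccLimit a → a.cof = ℵ₀ → (Bd K a).Finite ∧ (Bd K a).ncard ≤ 1 := by
    rintro a ⟨ha1, ha2⟩ hlim hcof
    have h1 := hC1f a ha1 hcof
    refine ⟨h1, ?_⟩
    by_contra hlt
    exact hDn (Bd K a).ncard a (ha2.2 _) (by omega) hlim hcof h1 rfl
  have hsub : ∀ a, (Bd K a).Finite → (Bd K a).ncard ≤ 1 → (Bd K a).Subsingleton := by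
    intro a h1 h2 y hy z hz
    exact (ncard_le_one h1).1 h2 y hy z hz
  have hC3 := hClub.lim μ.ord C2 hcofμ' hC2
  refine hFB1 X x μ.ord μ K hMin hF _ hC3 ?_
  rintro l ⟨hl, hlim, hlC⟩
  have hlC2 : l ∈ C2 := hC2.2.2 l hl hlim hlC
  have h0 : ℵ₀ ≤ l.cof := aleph0_le_cof.2 hlim
  rcases h0.eq_or_lt with h | h
  · obtain ⟨h1, h2⟩ := hC2n l hlC2 hlim h.symm
    exact hsub l h1 h2
  · obtain ⟨E, hE, hEa⟩ := hPL' l hl h
    have hE2 : Club l (C2 ∩ Iio l) := by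
      refine ⟨fun a ha => ha.2, fun b hb => ?_, fun l' hl' hlim' h' => ⟨?_, hl'⟩⟩
      · obtain ⟨d, hd, h1, h2⟩ := hlC b hb
        exact ⟨d, ⟨hd, h2⟩, h1⟩
      · refine hC2.2.2 l' (hl'.trans hl) hlim' fun b hb => ?_
        obtain ⟨d, hd, h1, h2⟩ := h' b hb
        exact ⟨d, hd.1, h1, h2⟩
    obtain ⟨a, ⟨haE, haC, -⟩, -, halim, hacof⟩ := hClub.cofw l (E ∩ (C2 ∩ Iio l)) h
      (hClub.inter l E _ h hE hE2)
    have h1 := (hC2n a haC halim hacof).2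
    rw [(hEa a haE).2] at h1
    exact hsub l (hfin l hl h) h1

end Pool.Agent.HCO
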