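import Pool.Agent.HCO.St4

/-!
# Module C7n
-/

set_option autoImplicit false

open Set Topology Cardinal Ordinal Order Filter

universe u v w

namespace Pool.Agent.HCO

private theorem C7n_cof_w1 : (w1.{u}).cof = ℵ₁ := isRegular_aleph_one.cof_ord

private theorem C7n_lim_w1 : IsSuccLimit w1.{u} := by
  rw [← aleph0_le_cof, C7n_cof_w1]
  exact aleph0_le_aleph 1

private theorem C7n_aleph0_lt : ℵ₀ < (w1.{u}).cof := by
  rw [C7n_cof_w1]
  exact aleph0_lt_aleph_one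

/-- stationary subsets of `ω₁` are uncountable -/
private theorem C7n_unc (hClub : St_Club.{u}) {A : Set Ordinal.{u}} (hA : Stat w1 A)
    (hA1 : ∀ a ∈ A, a < w1) : ¬ A.Countable := by
  intro hc
  have hne : A.Nonempty := by
    obtain ⟨a, ha, -⟩ := hA _ (hClub.univ w1 C7n_lim_w1)
    exact ⟨a, ha⟩
  obtain ⟨f, hf⟩ := hc.exists_eq_range hne
  obtain ⟨c, hc, hcf⟩ := hClub.supN w1 f C7n_aleph0_lt (fun i => hA1 _ (by rw [hf]; exact ⟨i, rfl⟩))
  obtain ⟨a, haA, hac⟩ := hA {a | c < a ∧ a < w1} ⟨fun a ha => ha.2, fun b hb => by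
    refine ⟨max b c + 1, ⟨?_, ?_⟩, ?_⟩
    · exact (le_max_right _ _).trans_lt (lt_add_one _)
    · exact C7n_lim_w1.add_one_lt (max_lt hb hc)
    · exact (le_max_left _ _).trans_lt (lt_add_one _), fun l hl hlim h => by
    refine ⟨?_, hl⟩
    obtain ⟨c', hc', -, hc'l⟩ := h 0 hlim.bot_lt
    exact hc'.1.trans hc'l⟩
  rw [hf] at haA
  obtain ⟨i, rfl⟩ := haA
  exact absurd (hcf i) (not_lt.2 hac.1.le)

theorem thm_C7n (hSP : St_SP.{u}) (h4 : St_C7t4.{u}) (h5 : St_C7t5.{u}) (hPL : St_PL.{u})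
    (hRetr : St_Retr.{u}) (hClub : St_Club.{u}) : St_C7n.{u} := by
  intro hMM X _ _ _ _ x μ K hMin hF hμ hone n hn hStat
  classical
  set S : Set Ordinal.{u} := {a | a < μ.ord ∧ IsSuccLimit a ∧ a.cof = ℵ₀ ∧ (Bd K a).Finite ∧
      (Bd K a).ncard = n} with hS
  have hmono : ∀ a b, a ≤ b → b < μ.ord → K a ⊆ K b := hF.mono
  have hUu : ∀ a b, a ≤ b → Uu K a ⊆ Uu K b := by
    rintro a b hab z ⟨e, he, hz⟩
    exact ⟨e, he.trans_le hab, hz⟩
  -- retractions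
  have hex : ∀ a, ∃ c : X → X, a < μ.ord → IsSuccLimit a → (Bd K a).Finite → Retr K a c := by
    intro a
    by_cases h : a < μ.ord ∧ IsSuccLimit a ∧ (Bd K a).Finite
    · obtain ⟨c, hc⟩ := hRetr X x μ.ord μ K hF a h.1 h.2.1 h.2.2
      exact ⟨c, fun _ _ _ => hc⟩
    · exact ⟨id, fun h1 h2 h3 => absurd ⟨h1, h2, h3⟩ h⟩
  choose c hc using hex
  obtain ⟨c', hc1, hc2, hc3, hc4⟩ := hSP hMM μ S (Coh K c) hF.reg hμ hStat
    (fun a ha => ⟨ha.1, ha.2.1, ha.2.2.1⟩)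
    (fun z a b h => ⟨h.1, h.2.1⟩)
    (by
      intro z a _ b _ d _ h1 h2
      refine ⟨h1.1, h1.2.1.trans h2.2.1, fun v hv w hw hvz hwz => ?_⟩
      exact (h1.2.2 v hv w hw hvz hwz).trans
        (h2.2.2 v (hUu a b h1.2.1.le hv) w (hUu a b h1.2.1.le hw) hvz hwz))
    (by
      intro z a _ b _ d _ hab h1 h2
      refine ⟨h1.1, hab, fun v hv w hw hvz hwz => ?_⟩
      exact (h1.2.2 v hv w hw hvz hwz).trans
        (h2.2.2 v (hUu a b hab.le hv) w (hUu a b hab.le hw) hvz hwz).symm)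
    (by
      intro z z' a ha b _ h1 hzz hz'a
      refine ⟨hz'a, h1.2.1, fun v hv w hw hvz hwz => ?_⟩
      have hsub := hmono z z' hzz (hz'a.trans ha.1)
      exact h1.2.2 v hv w hw (fun h => hvz (hsub h)) (fun h => hwz (hsub h)))
    (by
      intro z hz A hA hAcof hcoh
      exact h4 X x μ.ord μ K hF hone c A z (fun a ha => ⟨(hA ha).1, (hA ha).2.1,
        (hA ha).2.2.2.1, by rw [(hA ha).2.2.2.2]; exact hn,
        hc a (hA ha).1 (hA ha).2.1 (hA ha).2.2.2.1⟩) hAcof hz hcoh)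
    (by
      intro g hg b hb hgb z hz
      exact h5 X x μ.ord μ K hF c S n (fun a ha => ⟨ha.1, ha.2.1, ha.2.2.2.1, ha.2.2.2.2,
        hc a ha.1 ha.2.1 ha.2.2.2.1⟩) g hg b hb hgb z hz)
  -- the supremum
  set l : Ordinal.{u} := ⨆ i : Iio w1.{u}, (c' i + 1) with hl
  have hmonoc : StrictMono (fun i : Iio w1.{u} => c' i) := fun i j hij => hc2 i j hij j.2
  have hcof : l.cof = ℵ₁ := by
    rw [hl, Ordinal.cof_iSup_Iio_add_one hmonoc, C7n_cof_w1]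
  have hlt : ∀ i < w1, c' i < l := by
    intro i hi
    have h1 : c' i + 1 ≤ l := by
      rw [hl]
      exact le_ciSup (f := fun i : Iio w1.{u} => c' i + 1) (Ordinal.bddAbove_of_small) ⟨i, hi⟩
    exact (lt_add_one _).trans_le h1
  have hcofl : ∀ b < l, ∃ i < w1, b < c' i := by
    intro b hb
    rw [hl, Ordinal.lt_iSup_iff] at hb
    obtain ⟨i, hi⟩ := hb
    refine ⟨i + 1, C7n_lim_w1.add_one_lt i.2, ?_⟩
    exact (lt_add_one_iff.1 hi).trans_lt (hc2 i (i + 1) (lt_add_one _) (C7n_lim_w1.add_one_lt i.2))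
  have hlμ : l < μ.ord := by
    have hcard : (w1.{u}).card < μ.ord.cof := by
      rw [hF.reg.cof_ord]
      unfold w1
      rw [card_ord]
      exact hμ
    have hlim : IsSuccLimit μ.ord := by
      rw [← aleph0_le_cof, hF.reg.cof_ord]
      exact hF.unc.le
    obtain ⟨e, he, hee⟩ := hClub.sup μ.ord w1 c' hcard (fun i hi => (hc1 i hi).1) hlim
    refine lt_of_le_of_lt ?_ he
    rw [hl]
    refine Ordinal.iSup_le fun i => ?_
    exact add_one_le_iff.2 (hee i i.2)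
  obtain ⟨C, hC, hCp⟩ := hPL X x μ.ord μ K hMin hF c (fun a ha1 ha2 ha3 => hc a ha1 ha2 ha3) l hlμ
    (by rw [hcof]; exact aleph0_lt_aleph_one)
  -- club of indices
  have hh : ∀ j, ∃ i, j < w1 → i < w1 ∧ ∃ e ∈ C, c' j < e ∧ e < c' i := by
    intro j
    by_cases hj : j < w1
    · obtain ⟨e, heC, hje⟩ := hC.2.1 (c' j) (hlt j hj)
      obtain ⟨i, hi, hei⟩ := hcofl e (hC.1 e heC)
      exact ⟨i, fun _ => ⟨hi, e, heC, hje, hei⟩⟩
    · exact ⟨0, fun h => absurd h hj⟩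
  choose h hh using hh
  set D : Set Ordinal.{u} := {a | a < (ℵ₁ : Cardinal.{u}).ord ∧ IsSuccLimit a ∧
    ∀ b < a, h b < a} with hD
  have hDclub : Club w1 D := hClub.fn ℵ₁ h isRegular_aleph_one aleph0_lt_aleph_one
    (fun a ha => (hh a ha).1)
  have hDC : ∀ i ∈ D, c' i ∈ C := by
    intro i hi
    have hi1 : i < w1 := hi.1
    refine hC.2.2 (c' i) (hlt i hi1) (hc1 i hi1).2.1 ?_
    intro b hb
    obtain ⟨j, hj, hbj⟩ := hc3 i hi1 hi.2.1 b hb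
    obtain ⟨hh1, e, heC, hje, hei⟩ := hh j (hj.trans hi1)
    exact ⟨e, heC, hbj.trans hje, hei.trans (hc2 _ _ (hi.2.2 j hj) hi1)⟩
  -- the pressing down function
  have hex2 : ∀ i, ∃ j, i ∈ D → j < i ∧ ∀ z ∈ Uu K (c' i), ∀ w ∈ Uu K (c' i), z ∉ K (c' j) →
      w ∉ K (c' j) → (c (c' i) z = c (c' i) w ↔ c l z = c l w) := by
    intro i
    by_cases hi : i ∈ D
    · obtain ⟨-, -, -, b, hb, hbz⟩ := hCp (c' i) (hDC i hi)
      obtain ⟨j, hj, hbj⟩ := hc3 i hi.1 hi.2.1 b hb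
      refine ⟨j, fun _ => ⟨hj, fun z hz w hw hzj hwj => ?_⟩⟩
      have hsub : K b ⊆ K (c' j) := hmono b (c' j) hbj.le (hc1 j (hj.trans hi.1)).1
      exact hbz z hz w hw (fun h => hzj (hsub h)) (fun h => hwj (hsub h))
    · exact ⟨0, fun h => absurd h hi⟩
  choose jf hjf using hex2
  have hDstat : Stat w1 D := by
    intro E hE
    obtain ⟨a, ha, -⟩ := (hClub.inter w1 D E C7n_aleph0_lt hDclub hE).2.1 0
      C7n_lim_w1.bot_lt
    exact ⟨a, ha.1, ha.2⟩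
  obtain ⟨j0, hj0, hA⟩ := hClub.fodor ℵ₁ D jf isRegular_aleph_one aleph0_lt_aleph_one hDstat
    (fun a ha => (hjf a ha).1)
  refine hc4 (c' j0) {a | a ∈ D ∧ jf a = j0} (fun a ha => ha.1.1)
    (C7n_unc hClub hA (fun a ha => ha.1.1)) ?_
  rintro i ⟨hi, hij⟩ i' ⟨hi', hij'⟩ hii'
  obtain ⟨h1, h2⟩ := hjf i hi
  obtain ⟨h1', h2'⟩ := hjf i' hi'
  rw [hij] at h1 h2
  rw [hij'] at h1' h2'
  refine ⟨hc2 j0 i h1 hi.1, hc2 i i' hii' hi'.1, fun v hv w hw hvz hwz => ?_⟩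
  have hsub := hUu (c' i) (c' i') (hc2 i i' hii' hi'.1).le
  exact (h2 v hv w hw hvz hwz).trans (h2' v (hsub hv) w (hsub hw) hvz hwz).symm

end Pool.Agent.HCO
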