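import Pool.Agent.HCO.St4

/-!
# HCO [C7t4]: no cofinal coherent sequence of partitions
-/

set_option autoImplicit false

open Set Topology Cardinal Ordinal Order Filter

universe u v w

namespace Pool.Agent.HCO

section

variable {X : Type u} [TopologicalSpace X]

/-- the class of `u` -/
private def C7t4H (K : Ordinal.{u} → Set X) (c : Ordinal.{u} → X → X) (A : Set Ordinal.{u})
    (z a₀ : Ordinal.{u}) (u : X) : Set X :=
  {v | v ∉ K z ∧ ∃ b ∈ A, a₀ < b ∧ v ∈ Uu K b ∧ c b v = c b u}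

private theorem C7t4_sub {x : X} {o : Ordinal.{u}} {K : Ordinal.{u} → Set X}
    (hK : PreFilt x o K) {a b : Ordinal.{u}} (hab : a < b) : K a ⊆ Uu K b :=
  fun _ hz => ⟨a, hab, hz⟩

private theorem C7t4_uu {K : Ordinal.{u} → Set X} {a b : Ordinal.{u}} (hab : a ≤ b) :
    Uu K a ⊆ Uu K b := fun _ ⟨e, he, hz⟩ => ⟨e, he.trans_le hab, hz⟩

private theorem C7t4_open {x : X} {o : Ordinal.{u}} {K : Ordinal.{u} → Set X}
    (hK : PreFilt x o K) {b : Ordinal.{u}} (hb : b ≤ o) : IsOpen (Uu K b) := by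
  have e : Uu K b = ⋃ a ∈ Iio b, K a := by
    ext z
    simp only [Uu, mem_iUnion, mem_Iio, exists_prop]
    rfl
  rw [e]
  exact isOpen_biUnion (fun a ha => (hK.clopen a (lt_of_lt_of_le ha hb)).isOpen)

private theorem C7t4_x {x : X} {o : Ordinal.{u}} {K : Ordinal.{u} → Set X}
    (hK : PreFilt x o K) {b : Ordinal.{u}} (hb : b ≤ o) : x ∉ Uu K b := by
  rintro ⟨a, ha, hx⟩
  exact hK.notin a (ha.trans_le hb) hx

/-- points of `Uu K b` near a boundary point -/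
private theorem C7t4_near {x : X} {o : Ordinal.{u}} {K : Ordinal.{u} → Set X}
    (hK : PreFilt x o K) {b e : Ordinal.{u}} (hb : b ≤ o) (he : e < b) {c : X → X}
    (hc : Retr K b c) {q : X} (hq : q ∈ Bd K b) : ∃ w ∈ Uu K b, w ∉ K e ∧ c w = q := by
  obtain ⟨N, hN, hNq⟩ := hc.2.2 q hq
  have h1 : q ∈ N ∩ (K e)ᶜ := by
    refine ⟨(hNq q hq.1).2 (hc.1 q hq), fun h => hq.2 (C7t4_sub hK he h)⟩
  have h2 : IsOpen (N ∩ (K e)ᶜ) :=
    hN.isOpen.inter (hK.clopen e (he.trans_le hb)).compl.isOpen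
  obtain ⟨w, hw1, hw2⟩ := mem_closure_iff.1 hq.1 _ h2 h1
  exact ⟨w, hw2, hw1.2, (hNq w (subset_closure hw2)).1 hw1.1⟩

end

theorem thm_C7t4 (hFilt : St_Filt.{u}) : St_C7t4.{u} := by
  intro X _ _ _ _ x r μ K hK hOE c A z hA hunb hz hcoh
  have hP : PreFilt x μ.ord K := hK.toPreFilt
  obtain ⟨a₀, ha₀, hza₀⟩ := hunb z hz
  obtain ⟨ha₀μ, ha₀l, ha₀f, ha₀n, ha₀r⟩ := hA a₀ ha₀
  -- independence of the ordinal
  have hind : ∀ u ∈ Uu K a₀, u ∉ K z → ∀ b ∈ A, ∀ b' ∈ A, a₀ < b → a₀ < b' → ∀ v, v ∉ K z →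
      v ∈ Uu K b → v ∈ Uu K b' → (c b v = c b u ↔ c b' v = c b' u) := by
    intro u hu huz b hb b' hb' h1 h2 v hv hvb hvb'
    have hub : u ∈ Uu K b := C7t4_uu h1.le hu
    have hub' : u ∈ Uu K b' := C7t4_uu h2.le hu
    rcases lt_trichotomy b b' with h | h | h
    · exact (hcoh b hb b' hb' (hza₀.trans h1) h).2.2 v hvb u hub hv huz
    · rw [h]
    · exact ((hcoh b' hb' b hb (hza₀.trans h2) h).2.2 v hvb' u hub' hv huz).symm
  have hval : ∀ u ∈ Uu K a₀, ∀ b ∈ A, a₀ < b → c b u ∈ Bd K b := fun u hu b hb h1 =>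
    (hA b hb).2.2.2.2.2.1 u (subset_closure (C7t4_uu h1.le hu))
  -- the classes with `x` added are closed and accumulate at `x`
  have hcl : ∀ u ∈ Uu K a₀, u ∉ K z → IsClosed (insert x (C7t4H K c A z a₀ u)) := by
    intro u hu huz
    rw [← isOpen_compl_iff, isOpen_iff_forall_mem_open]
    intro v hv
    have hvx : v ≠ x := fun h => hv (Or.inl h)
    have hvH : v ∉ C7t4H K c A z a₀ u := fun h => hv (Or.inr h)
    obtain ⟨a, ha, hva⟩ := hK.cover v hvx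
    obtain ⟨b, hb, hab⟩ := hunb (max a a₀) (max_lt ha ha₀μ)
    have hab' : a < b := (le_max_left _ _).trans_lt hab
    have ha₀b : a₀ < b := (le_max_right _ _).trans_lt hab
    have hbμ := (hA b hb).1
    obtain ⟨N, hN, hNq⟩ := (hA b hb).2.2.2.2.2.2 (c b u) (hval u hu b hb ha₀b)
    have hvb : v ∈ Uu K b := C7t4_sub hP hab' hva
    refine ⟨Uu K b ∩ (Nᶜ ∪ K z), ?_, (C7t4_open hP hbμ.le).inter
      (hN.compl.isOpen.union (hK.clopen z hz).isOpen), hvb, ?_⟩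
    · rintro w ⟨hwb, hw⟩ (h | ⟨h1, b', hb', h2, h3, h4⟩)
      · rw [h] at hwb
        exact C7t4_x hP hbμ.le hwb
      · rcases hw with hw | hw
        · exact hw ((hNq w (subset_closure hwb)).2
            ((hind u hu huz b hb b' hb' ha₀b h2 w h1 hwb h3).2 h4))
        · exact h1 hw
    · by_contra h
      rw [mem_union, not_or, mem_compl_iff, not_not] at h
      exact hvH ⟨h.2, b, hb, ha₀b, hvb, (hNq v (subset_closure hvb)).1 h.1⟩
  have hacc : ∀ u ∈ Uu K a₀, u ∉ K z → AccPt x (𝓟 (insert x (C7t4H K c A z a₀ u))) := by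
    intro u hu huz
    rw [accPt_iff_nhds]
    intro O hO
    obtain ⟨O', hO'O, hO', hxO'⟩ := mem_nhds_iff.1 hO
    obtain ⟨a, ha, haO⟩ := hFilt.cpt X x μ K hK.toFilt O'ᶜ hO'.isClosed_compl
      (fun h => h hxO')
    obtain ⟨b, hb, hab⟩ := hunb (max (max a a₀) z) (max_lt (max_lt ha ha₀μ) hz)
    have hab' : a < b := (le_max_left _ _).trans_lt ((le_max_left _ _).trans_lt hab)
    have ha₀b : a₀ < b := (le_max_right _ _).trans_lt ((le_max_left _ _).trans_lt hab)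
    have hzb : z < b := (le_max_right _ _).trans_lt hab
    have hbμ := (hA b hb).1
    have hm : max a z < b := max_lt hab' hzb
    obtain ⟨w, hw1, hw2, hw3⟩ := C7t4_near hP hbμ.le hm (hA b hb).2.2.2.2
      (hval u hu b hb ha₀b)
    have hmμ : max a z < μ.ord := hm.trans hbμ
    have hwa : w ∉ K a := fun h => hw2 (hK.mono a _ (le_max_left _ _) hmμ h)
    have hwz : w ∉ K z := fun h => hw2 (hK.mono z _ (le_max_right _ _) hmμ h)
    refine ⟨w, ⟨hO'O ?_, Or.inr ⟨hwz, b, hb, ha₀b, hw1, hw3⟩⟩, ?_⟩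
    · by_contra h
      exact hwa (haO h)
    · rintro rfl
      exact C7t4_x hP hbμ.le hw1
  -- two classes
  obtain ⟨p, hp, p', hp', hpp'⟩ := (Set.one_lt_ncard ha₀f).1 (lt_of_lt_of_le one_lt_two ha₀n)
  obtain ⟨u, hu1, hu2, hu3⟩ := C7t4_near hP ha₀μ.le hza₀ ha₀r hp
  obtain ⟨u', hu1', hu2', hu3'⟩ := C7t4_near hP ha₀μ.le hza₀ ha₀r hp'
  obtain ⟨v, hv, hv', hvx⟩ := hOE _ _ (hcl u hu1 hu2) (hcl u' hu1' hu2') (hacc u hu1 hu2)
    (hacc u' hu1' hu2')
  rcases hv with hv | ⟨hvz, b, hb, h1, h2, h3⟩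
  · exact hvx hv
  rcases hv' with hv' | ⟨_, b', hb', h1', h2', h3'⟩
  · exact hvx hv'
  have h4 : c b v = c b u' := (hind u' hu1' hu2' b hb b' hb' h1 h1' v hvz h2 h2').2 h3'
  have h5 : c b u = c b u' := h3.symm.trans h4
  have h6 := ((hcoh a₀ ha₀ b hb hza₀ h1).2.2 u hu1 u' hu1' hu2 hu2').2 h5
  rw [hu3, hu3'] at h6
  exact hpp' h6

end Pool.Agent.HCO
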