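import Pool.Agent.HCO.St4

/-!
# Module C7t5
-/

set_option autoImplicit false

open Set Topology Cardinal Ordinal Order Filter

universe u v w

namespace Pool.Agent.HCO

private theorem C7t5_sub {X : Type u} (K : Ordinal.{u} → Set X) {a b : Ordinal.{u}}
    (hab : a ≤ b) : Uu K a ⊆ Uu K b := by
  rintro z ⟨e, he, hz⟩
  exact ⟨e, he.trans_le hab, hz⟩

theorem thm_C7t5 (hFilt : St_Filt.{u}) : St_C7t5.{u} := by
  intro X _ _ _ _ x r μ K hF c S n hS g hg b hb hgb z hz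
  classical
  rcases hgb.eq_or_lt with rfl | hgb
  · exact ⟨z, le_rfl, hz, fun a _ _ _ h => h⟩
  obtain ⟨hgμ, hglim, hgfin, hgn, hgR⟩ := hS g hg
  obtain ⟨hbμ, hblim, hbfin, hbn, hbR⟩ := hS b hb
  have hclg : closure (Uu K g) ⊆ K g := hF.cl g hgμ
  have hKg : K g ⊆ Uu K b := fun v hv => ⟨g, hgb, hv⟩
  have hclb : ∀ v ∈ closure (Uu K g), v ∈ closure (Uu K b) := fun v hv =>
    subset_closure (hKg (hclg hv))
  -- clopen sets
  have hNg : ∀ p, ∃ N : Set X, p ∈ Bd K g → IsClopen N ∧ ∀ z ∈ closure (Uu K g),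
      (z ∈ N ↔ c g z = p) := by
    intro p
    by_cases hp : p ∈ Bd K g
    · obtain ⟨N, hN⟩ := hgR.2.2 p hp
      exact ⟨N, fun _ => hN⟩
    · exact ⟨∅, fun h => absurd h hp⟩
  choose N hN using hNg
  have hNb : ∀ p, ∃ N : Set X, p ∈ Bd K b → IsClopen N ∧ ∀ z ∈ closure (Uu K b),
      (z ∈ N ↔ c b z = p) := by
    intro p
    by_cases hp : p ∈ Bd K b
    · obtain ⟨N, hN⟩ := hbR.2.2 p hp
      exact ⟨N, fun _ => hN⟩
    · exact ⟨∅, fun h => absurd h hp⟩
  choose N' hN' using hNb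
  have hcbp : ∀ p ∈ Bd K g, c b p ∈ Bd K b := fun p hp => hbR.2.1 p (hclb p hp.1)
  set A : Set X := closure (Uu K g) ∩ ⋃ p ∈ Bd K g, (N p \ N' (c b p)) with hA
  have hAcl : IsClosed A := by
    refine isClosed_closure.inter (hgfin.isClosed_biUnion fun p hp => ?_)
    exact ((hN p hp).1.diff (hN' (c b p) (hcbp p hp)).1).1
  have hAmem : ∀ v ∈ closure (Uu K g), c b v ≠ c b (c g v) → v ∈ A := by
    intro v hv hne
    have hp : c g v ∈ Bd K g := hgR.2.1 v hv
    refine ⟨hv, mem_biUnion hp ⟨((hN _ hp).2 v hv).2 rfl, fun h => ?_⟩⟩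
    exact hne (((hN' _ (hcbp _ hp)).2 v (hclb v hv)).1 h)
  have hAsub : A ⊆ Uu K g := by
    rintro v ⟨hv, hv'⟩
    by_contra hvU
    have hvB : v ∈ Bd K g := ⟨hv, hvU⟩
    simp only [mem_iUnion] at hv'
    obtain ⟨p, hp, hvN, hvN'⟩ := hv'
    have h1 : c g v = p := ((hN p hp).2 v hv).1 hvN
    rw [hgR.1 v hvB] at h1
    subst h1
    exact hvN' (((hN' _ (hcbp v hp)).2 v (hclb v hv)).2 rfl)
  obtain ⟨z1, hz1, hAz1⟩ := hFilt.bd X x μ.ord K hF.toPreFilt g hgμ.le hglim A hAcl hAsub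
  have hz'g : max z z1 < g := max_lt hz hz1
  have hKz : K z ⊆ K (max z z1) := hF.mono _ _ (le_max_left _ _) (hz'g.trans hgμ)
  have hKz1 : K z1 ⊆ K (max z z1) := hF.mono _ _ (le_max_right _ _) (hz'g.trans hgμ)
  have key : ∀ v ∈ closure (Uu K g), v ∉ K (max z z1) → c b v = c b (c g v) := by
    intro v hv hvz
    by_contra hne
    exact hvz (hKz1 (hAz1 (hAmem v hv hne)))
  refine ⟨max z z1, le_max_left _ _, hz'g, ?_⟩
  intro a ha hza hag hcoh
  have hUag : Uu K a ⊆ Uu K g := C7t5_sub K hag.le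
  by_cases hinj : InjOn (c b) (Bd K g)
  · refine ⟨hza, hag, fun v hv w hw hvz hwz => ?_⟩
    have hv1 := subset_closure (hUag hv)
    have hw1 := subset_closure (hUag hw)
    rw [hcoh.2.2 v hv w hw (fun h => hvz (hKz h)) (fun h => hwz (hKz h)), key v hv1 hvz,
      key w hw1 hwz]
    constructor
    · intro h
      exact hinj (hgR.2.1 v hv1) (hgR.2.1 w hw1) h
    · intro h
      rw [h]
  · exfalso
    obtain ⟨haμ, halim, hafin, han, haR⟩ := hS a ha
    have hex : ∀ q, ∃ v, q ∈ Bd K a → v ∈ Uu K a ∧ v ∉ K (max z z1) ∧ c a v = q := by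
      intro q
      by_cases hq : q ∈ Bd K a
      · obtain ⟨M, hM, hMz⟩ := haR.2.2 q hq
        have hqM : q ∈ M := (hMz q hq.1).2 (haR.1 q hq)
        have hqK : q ∉ K (max z z1) := fun h => hq.2 ⟨_, hza, h⟩
        have hopen : IsOpen (M \ K (max z z1)) :=
          (hM.diff (hF.clopen _ (hz'g.trans hgμ))).2
        obtain ⟨v, hv1, hv2⟩ := mem_closure_iff.1 hq.1 _ hopen ⟨hqM, hqK⟩
        exact ⟨v, fun _ => ⟨hv2, hv1.2, (hMz v (subset_closure hv2)).1 hv1.1⟩⟩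
      · exact ⟨q, fun h => absurd h hq⟩
    choose V hV using hex
    have hle : (Bd K a).ncard ≤ (c b '' Bd K g).ncard := by
      refine Set.ncard_le_ncard_of_injOn (fun q => c b (V q)) ?_ ?_ (hgfin.image _)
      · intro q hq
        obtain ⟨h1, h2, h3⟩ := hV q hq
        have h4 := subset_closure (hUag h1)
        show c b (V q) ∈ _
        rw [key _ h4 h2]
        exact ⟨_, hgR.2.1 _ h4, rfl⟩
      · intro q hq q' hq' h
        obtain ⟨h1, h2, h3⟩ := hV q hq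
        obtain ⟨h1', h2', h3'⟩ := hV q' hq'
        have h5 := (hcoh.2.2 _ h1 _ h1' (fun h => h2 (hKz h)) (fun h => h2' (hKz h))).2 h
        rw [h3, h3'] at h5
        exact h5
    have hge : (c b '' Bd K g).ncard ≤ (Bd K g).ncard := Set.ncard_image_le hgfin
    apply hinj
    refine Set.injOn_of_ncard_image_eq ?_ hgfin
    omega

end Pool.Agent.HCO
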