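import Pool.Agent.HCO.St4

/-!
# HCO, module C8: the case `μ⁺ < r`
-/

set_option autoImplicit false

open Set Topology Cardinal Ordinal Order Filter

universe u v w

namespace Pool.Agent.HCO

theorem thm_C8 (hCV : St_CV.{u}) (hFC : St_FC.{u}) (hCl : St_Club.{u}) (hD : St_Der.{u}) :
    St_C8.{u} := by
  classical
  intro X _ _ _ _ x r μ K hM hF hr
  have hreg := hF.reg
  have hunc := hF.unc
  have hlim : IsSuccLimit μ.ord := Cardinal.isSuccLimit_ord hreg.aleph0_le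
  have hμr : μ.ord < r := (Cardinal.ord_lt_ord.2 (Order.lt_succ μ)).trans hr
  have hcof : ℵ₀ < μ.ord.cof := by rw [hreg.cof_eq]; exact hunc
  have hsucc : ∀ a < μ.ord, a + 1 < μ.ord := fun a ha => by
    rw [← Order.succ_eq_add_one]
    exact hlim.succ_lt ha
  obtain ⟨e, he⟩ := hCV X x r μ K hM hF hμr
  let S : Set Ordinal.{u} := {l | l < μ.ord ∧ ∃ O : Set X, IsClopen O ∧ e l ∈ O ∧
    ∀ b < l, ∃ a, b ≤ a ∧ a < l ∧ ¬ (K (a + 1) \ K a ⊆ O)}
  by_cases hS : Stat μ.ord S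
  · -- a stationary set of bad points
    have hch : ∀ l, ∃ O : Set X, l ∈ S → IsClopen O ∧ e l ∈ O ∧
        ∀ b < l, ∃ a, b ≤ a ∧ a < l ∧ ¬ (K (a + 1) \ K a ⊆ O) := by
      intro l
      by_cases hl : l ∈ S
      · obtain ⟨_, O, h⟩ := hl
        exact ⟨O, fun _ => h⟩
      · exact ⟨∅, fun h => absurd h hl⟩
    choose O hO using hch
    have hv : ∀ l a, ∃ v : X, ¬ (K (a + 1) \ K a ⊆ O l) → v ∈ K (a + 1) \ K a ∧ v ∉ O l := by
      intro l a
      by_cases h : K (a + 1) \ K a ⊆ O l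
      · exact ⟨x, fun h' => absurd h h'⟩
      · obtain ⟨v, hv1, hv2⟩ := Set.not_subset.1 h
        exact ⟨v, fun _ => ⟨hv1, hv2⟩⟩
    choose v hv using hv
    let A : Ordinal.{u} → Set X := fun a =>
      {z | z ∈ K (a + 1) \ K a ∧ ∃ l, l < μ.ord ∧ v l a = z}
    have hA : ∀ a < μ.ord, A a ⊆ K (a + 1) \ K a ∧ #(A a) < Order.succ μ := by
      intro a _
      refine ⟨fun z hz => hz.1, ?_⟩
      rw [Order.lt_succ_iff]
      have h1 : A a ⊆ (fun l => v l a) '' (Iio μ.ord) := by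
        rintro z ⟨_, l, hl, rfl⟩
        exact ⟨l, hl, rfl⟩
      have h2 : Cardinal.lift.{u + 1} #((fun l => v l a) '' (Iio μ.ord)) ≤
          Cardinal.lift.{u} #(Iio μ.ord) := Cardinal.mk_image_le_lift
      have h3 : #(A a) ≤ #((fun l => v l a) '' (Iio μ.ord)) := Cardinal.mk_le_mk_of_subset h1
      rw [Cardinal.mk_Iio_ordinal, Cardinal.card_ord] at h2
      have h4 : Cardinal.lift.{u + 1} #((fun l => v l a) '' (Iio μ.ord)) ≤
          Cardinal.lift.{u + 1} μ := by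
        simpa using h2
      exact h3.trans (Cardinal.lift_le.1 h4)
    obtain ⟨C, hC, hC'⟩ := he (Order.succ μ) A (Cardinal.isRegular_succ hreg.aleph0_le)
      (Order.le_succ μ) hr hA
    obtain ⟨l, hlS, hlC⟩ := hS C hC
    obtain ⟨hO1, hO2, hO3⟩ := hO l hlS
    obtain ⟨b, hb, hb'⟩ := (hC' l hlC).2.2 (O l) hO1 hO2
    obtain ⟨a, hba, hal, hna⟩ := hO3 b hb
    obtain ⟨h1, h2⟩ := hv l a hna
    exact h2 (hb' a hba hal ⟨h1, l, hlS.1, rfl⟩)
  · -- a club of good points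
    have hS' : ∃ C, Club μ.ord C ∧ ∀ a ∈ C, a ∉ S := by
      by_contra hcon
      apply hS
      intro C hC
      by_contra hcon2
      apply hcon
      exact ⟨C, hC, fun a ha haS => hcon2 ⟨a, haS, ha⟩⟩
    obtain ⟨C, hC, hCS⟩ := hS'
    let D : Set Ordinal.{u} := {a | a < μ.ord ∧ IsSuccLimit a ∧ ∀ b < a, ∃ c ∈ C, b < c ∧ c < a}
    have hDC : Club μ.ord D := hCl.lim μ.ord C hcof hC
    have hDsub : ∀ a ∈ D, a ∈ C := fun a ha => hC.2.2 a ha.1 ha.2.1 ha.2.2
    have hcl : ∀ a < μ.ord, IsClopen (K (a + 1) \ K a) := fun a ha =>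
      (hF.clopen (a + 1) (hsucc a ha)).diff (hF.clopen a ha)
    refine hFC X x r μ K hM hF.toFilt D (fun a => K (a + 1) \ K a) e hDC ?_ ?_ ?_ ?_
    · intro a ha
      exact ⟨(hcl a ha.1).isClosed, hF.strict a ha.1, disjoint_sdiff_left⟩
    · intro a _ b hb hab z hz
      exact hF.mono (a + 1) b (by rw [← Order.succ_eq_add_one]; exact Order.succ_le_of_lt hab)
        hb.1 hz.1
    · intro l hl _ _ O hO heO
      have hlS := hCS l (hDsub l hl)
      by_contra hcon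
      apply hlS
      refine ⟨hl.1, O, hO, heO, fun b hb => ?_⟩
      by_contra hcon2
      apply hcon
      refine ⟨b, hb, fun a _ hba hal => ?_⟩
      by_contra hcon3
      exact hcon2 ⟨a, hba.le, hal, hcon3⟩
    · intro s hs b hb
      obtain ⟨b', hb', hfull⟩ := hF.full s hs
      obtain ⟨a, haD, hba⟩ := hDC.2.1 (max b b') (max_lt hb hb')
      refine ⟨a, haD, (le_max_left _ _).trans_lt hba, ?_⟩
      have h1 := hfull a ((le_max_right _ _).trans hba.le) haD.1
      have h2 := hD.inter X univ (K (a + 1) \ K a) s (hcl a haD.1).isOpen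
      rw [univ_inter] at h2
      rw [h2]
      exact h1

end Pool.Agent.HCO
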