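import Pool.Agent.HCO.St4

/-!
# Countable closed sets with trace in a stationary set
-/

set_option autoImplicit false

open Set Topology Cardinal Ordinal Order Filter

universe u v w

namespace Pool.Agent.HCO

/-- closure of `B` under the operation `F` -/
def CCex_cl {T : Type v} (F : List T → Set T) (B : Set T) : Set T :=
  ⋂₀ {M | B ⊆ M ∧ ∀ l : List T, (∀ x ∈ l, x ∈ M) → F l ⊆ M}

theorem CCex_cl_sub {T : Type v} (F : List T → Set T) (B : Set T) : B ⊆ CCex_cl F B := by
  intro x hx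
  rw [CCex_cl, Set.mem_sInter]
  intro M hM
  exact hM.1 hx

theorem CCex_cl_closed {T : Type v} (F : List T → Set T) (B : Set T) (l : List T)
    (hl : ∀ x ∈ l, x ∈ CCex_cl F B) : F l ⊆ CCex_cl F B := by
  intro y hy
  rw [CCex_cl, Set.mem_sInter]
  intro M hM
  refine hM.2 l (fun x hx => ?_) hy
  have := hl x hx
  rw [CCex_cl, Set.mem_sInter] at this
  exact this M hM

theorem CCex_cl_least {T : Type v} (F : List T → Set T) (B M : Set T) (h1 : B ⊆ M)
    (h2 : ∀ l : List T, (∀ x ∈ l, x ∈ M) → F l ⊆ M) : CCex_cl F B ⊆ M :=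
  Set.sInter_subset_of_mem ⟨h1, h2⟩

theorem CCex_cl_mono {T : Type v} (F : List T → Set T) (B C : Set T) (h : B ⊆ C) :
    CCex_cl F B ⊆ CCex_cl F C :=
  CCex_cl_least F B _ (h.trans (CCex_cl_sub F C)) (CCex_cl_closed F C)

private theorem CCex_list {T : Type v} {ι : Type w} [Nonempty ι] (M : ι → Set T)
    (hd : Directed (· ⊆ ·) M) (l : List T) (hl : ∀ x ∈ l, x ∈ ⋃ i, M i) :
    ∃ i, ∀ x ∈ l, x ∈ M i := by
  induction l with
  | nil => exact ⟨Classical.arbitrary ι, by simp⟩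
  | cons a l ih =>
    obtain ⟨i, hi⟩ := ih (fun x hx => hl x (List.mem_cons_of_mem _ hx))
    obtain ⟨j, hj⟩ := Set.mem_iUnion.1 (hl a List.mem_cons_self)
    obtain ⟨k, hik, hjk⟩ := hd i j
    refine ⟨k, fun x hx => ?_⟩
    rcases List.mem_cons.1 hx with rfl | hx
    · exact hjk hj
    · exact hik (hi x hx)

theorem CCex_cl_iUnion {T : Type v} {ι : Type w} [Nonempty ι] (F : List T → Set T)
    (B : ι → Set T) (hd : Directed (· ⊆ ·) B) : CCex_cl F (⋃ i, B i) = ⋃ i, CCex_cl F (B i) := by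
  apply Set.Subset.antisymm
  · apply CCex_cl_least
    · exact Set.iUnion_mono fun i => CCex_cl_sub F (B i)
    · intro l hl
      have hd' : Directed (· ⊆ ·) (fun i => CCex_cl F (B i)) := by
        intro i j
        obtain ⟨k, h1, h2⟩ := hd i j
        exact ⟨k, CCex_cl_mono F _ _ h1, CCex_cl_mono F _ _ h2⟩
      obtain ⟨i, hi⟩ := CCex_list _ hd' l hl
      exact (CCex_cl_closed F (B i) l hi).trans (Set.subset_iUnion (fun i => CCex_cl F (B i)) i)
  · exact Set.iUnion_subset fun i => CCex_cl_mono F _ _ (Set.subset_iUnion B i)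

private def CCex_step {T : Type v} (F : List T → Set T) (B : Set T) : ℕ → Set T
  | 0 => B
  | n + 1 => CCex_step F B n ∪ ⋃ l : List (CCex_step F B n), F (l.map Subtype.val)

theorem CCex_cl_card {T : Type v} (F : List T → Set T) (hF : ∀ l, (F l).Countable) (B : Set T) :
    #(CCex_cl F B) ≤ max #B ℵ₀ := by
  have hc : ∀ n, #(CCex_step F B n) ≤ max #B ℵ₀ := by
    intro n
    induction n with
    | zero => exact le_max_left _ _
    | succ n ih =>
      have h1 : #(List (CCex_step F B n)) ≤ max #B ℵ₀ :=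
        (Cardinal.mk_list_le_max _).trans (max_le (le_max_right _ _) ih)
      have h2 : #(⋃ l : List (CCex_step F B n), F (l.map Subtype.val) : Set T) ≤ max #B ℵ₀ := by
        refine (Cardinal.mk_iUnion_le _).trans ?_
        refine (mul_le_mul' h1 (ciSup_le' (a := max #B ℵ₀) fun l => ?_)).trans ?_
        · exact (Cardinal.le_aleph0_iff_set_countable.2 (hF _)).trans (le_max_right _ _)
        · exact (Cardinal.mul_eq_self (le_max_right _ _)).le
      refine (Cardinal.mk_union_le _ _).trans ?_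
      exact (add_le_add ih h2).trans (Cardinal.add_eq_self (le_max_right _ _)).le
  have hmono : Monotone (CCex_step F B) := by
    apply monotone_nat_of_le_succ
    intro n
    exact Set.subset_union_left
  have hsub : CCex_cl F B ⊆ ⋃ n, CCex_step F B n := by
    apply CCex_cl_least
    · exact Set.subset_iUnion (CCex_step F B) 0
    · intro l hl
      obtain ⟨n, hn⟩ := CCex_list (CCex_step F B) hmono.directed_le l hl
      refine Set.Subset.trans ?_ (Set.subset_iUnion (CCex_step F B) (n + 1))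
      refine Set.Subset.trans ?_ Set.subset_union_right
      refine Set.Subset.trans ?_ (Set.subset_iUnion
        (fun l : List (CCex_step F B n) => F (l.map Subtype.val)) (l.pmap Subtype.mk hn))
      simp [List.map_pmap]
  refine (Cardinal.mk_le_mk_of_subset hsub).trans ?_
  have h := Cardinal.mk_iUnion_le_lift (CCex_step F B)
  simp only [Cardinal.lift_uzero, Cardinal.mk_nat, Cardinal.lift_aleph0] at h
  refine h.trans ?_
  refine (mul_le_mul' (le_max_right #B ℵ₀) (ciSup_le' (a := max #B ℵ₀) fun n => hc n)).trans ?_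
  exact (Cardinal.mul_eq_self (le_max_right _ _)).le

theorem CCex_cl_countable {T : Type v} (F : List T → Set T) (hF : ∀ l, (F l).Countable)
    (B : Set T) (hB : B.Countable) : (CCex_cl F B).Countable := by
  rw [← Cardinal.le_aleph0_iff_set_countable]
  refine (CCex_cl_card F hF B).trans (max_le ?_ le_rfl)
  exact Cardinal.le_aleph0_iff_set_countable.2 hB

private theorem CCex_w1cof : (w1 : Ordinal.{u}).cof = ℵ₁ := by
  rw [w1, Cardinal.isRegular_aleph_one.cof_ord]

private theorem CCex_count (d : Ordinal.{u}) (hd : d < w1) : (Iio d).Countable := by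
  rw [← Cardinal.le_aleph0_iff_set_countable, Cardinal.mk_Iio_ordinal]
  have : d.card < ℵ₁ := Cardinal.lt_ord.1 hd
  rw [← Cardinal.succ_aleph0, Order.lt_succ_iff] at this
  exact Cardinal.lift_le_aleph0.2 this

/-- the main lemma: given an increasing family `M ξ` with countable traces, the closed unbounded
set of `ξ` with `e a ∈ M ξ ↔ a < ξ` -/
theorem CCex_main (hC : St_Club.{u}) {T : Type v} (e : Ordinal.{u} → T)
    (F : List T → Set T) (hF : ∀ l, (F l).Countable) (A : Set T) (hA : A.Countable)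
    (he : Set.InjOn e (Iio w1)) :
    ∃ C, Club w1 C ∧ ∀ ξ ∈ C, ξ < w1 ∧ IsSuccLimit ξ ∧ (CCex_cl F (A ∪ e '' Iio ξ)).Countable ∧
      ∀ a < w1, (e a ∈ CCex_cl F (A ∪ e '' Iio ξ) ↔ a < ξ) := by
  have hcof : ℵ₀ < (w1 : Ordinal.{u}).cof := by
    rw [CCex_w1cof]; exact Cardinal.aleph0_lt_aleph_one
  have hM : ∀ ξ < w1, (CCex_cl F (A ∪ e '' Iio ξ)).Countable := fun ξ hξ =>
    CCex_cl_countable F hF _ (hA.union ((CCex_count ξ hξ).image e))
  have hmono : ∀ a b, a ≤ b → CCex_cl F (A ∪ e '' Iio a) ⊆ CCex_cl F (A ∪ e '' Iio b) :=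
    fun a b hab => CCex_cl_mono F _ _ (Set.union_subset_union_right _ (Set.image_mono
      (Set.Iio_subset_Iio hab)))
  -- bounds
  have hb : ∀ ξ < w1, ∃ c < w1, ∀ a < w1, e a ∈ CCex_cl F (A ∪ e '' Iio ξ) → a < c := by
    intro ξ hξ
    have hcnt : {a | a < w1 ∧ e a ∈ CCex_cl F (A ∪ e '' Iio ξ)}.Countable := by
      have h1 : (e '' {a | a < w1 ∧ e a ∈ CCex_cl F (A ∪ e '' Iio ξ)}).Countable := by
        refine (hM ξ hξ).mono ?_
        rintro _ ⟨a, ha, rfl⟩
        exact ha.2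
      refine (Set.countable_of_injective_of_countable_image ?_ h1)
      intro a ha b hb hab
      exact he ha.1 hb.1 hab
    rcases Set.eq_empty_or_nonempty {a | a < w1 ∧ e a ∈ CCex_cl F (A ∪ e '' Iio ξ)} with h0 | hne
    · refine ⟨ξ, hξ, fun a ha hea => ?_⟩
      have : a ∈ {a | a < w1 ∧ e a ∈ CCex_cl F (A ∪ e '' Iio ξ)} := ⟨ha, hea⟩
      rw [h0] at this
      exact this.elim
    · obtain ⟨f, hf⟩ := hcnt.exists_eq_range hne
      obtain ⟨c, hc, hfc⟩ := hC.supN w1 f hcof (fun i => by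
        have : f i ∈ {a | a < w1 ∧ e a ∈ CCex_cl F (A ∪ e '' Iio ξ)} := by
          rw [hf]; exact Set.mem_range_self i
        exact this.1)
      refine ⟨c, hc, fun a ha hea => ?_⟩
      have : a ∈ {a | a < w1 ∧ e a ∈ CCex_cl F (A ∪ e '' Iio ξ)} := ⟨ha, hea⟩
      rw [hf] at this
      obtain ⟨i, rfl⟩ := this
      exact hfc i
  let c : Ordinal.{u} → Ordinal.{u} := fun ξ =>
    sInf {c | ∀ a < w1, e a ∈ CCex_cl F (A ∪ e '' Iio ξ) → a < c}
  have hc1 : ∀ ξ, ∀ a < w1, e a ∈ CCex_cl F (A ∪ e '' Iio ξ) → a < c ξ := by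
    intro ξ
    have : c ξ ∈ {c | ∀ a < w1, e a ∈ CCex_cl F (A ∪ e '' Iio ξ) → a < c} :=
      csInf_mem ⟨w1, fun a ha _ => ha⟩
    exact this
  have hc2 : ∀ ξ < w1, c ξ < w1 := by
    intro ξ hξ
    obtain ⟨d, hd, h⟩ := hb ξ hξ
    exact lt_of_le_of_lt (csInf_le' h) hd
  have hc3 : ∀ a b, a ≤ b → b < w1 → c a ≤ c b := by
    intro a b hab _
    apply csInf_le'
    intro x hx hea
    exact hc1 b x hx (hmono a b hab hea)
  refine ⟨_, hC.fnm w1 c hcof hc2 hc3, ?_⟩
  rintro ξ ⟨h1, h2, h3⟩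
  refine ⟨h1, h2, hM ξ h1, fun a ha => ⟨fun hea => ?_, fun haξ => ?_⟩⟩
  · have : Nonempty (Iio ξ) := ⟨⟨0, h2.bot_lt⟩⟩
    have hU : A ∪ e '' Iio ξ = ⋃ b : Iio ξ, (A ∪ e '' Iio b.1) := by
      ext x
      constructor
      · rintro (hx | ⟨b, hb, rfl⟩)
        · exact Set.mem_iUnion.2 ⟨⟨0, h2.bot_lt⟩, Or.inl hx⟩
        · exact Set.mem_iUnion.2 ⟨⟨succ b, h2.succ_lt hb⟩, Or.inr ⟨b, lt_succ b, rfl⟩⟩
      · intro hx
        obtain ⟨b, hb⟩ := Set.mem_iUnion.1 hx
        rcases hb with hb | ⟨y, hy, rfl⟩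
        · exact Or.inl hb
        · exact Or.inr ⟨y, (show y < b.1 from hy).trans b.2, rfl⟩
    have hd : Directed (· ⊆ ·) (fun b : Iio ξ => A ∪ e '' Iio b.1) := by
      apply Monotone.directed_le
      intro b b' hbb
      exact Set.union_subset_union_right _ (Set.image_mono (Set.Iio_subset_Iio hbb))
    rw [hU, CCex_cl_iUnion F _ hd] at hea
    obtain ⟨b, hb⟩ := Set.mem_iUnion.1 hea
    exact (hc1 b.1 a ha hb).trans (h3 b.1 b.2)
  · exact CCex_cl_sub F _ (Or.inr ⟨a, haξ, rfl⟩)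

theorem thm_CCex (hC : St_Club.{u}) : St_CCex.{u, v} := by
  intro T A e S he hS hA
  obtain ⟨F, hF, h⟩ := hA
  obtain ⟨C, hCl, hC2⟩ := CCex_main hC e F hF ∅ Set.countable_empty he
  obtain ⟨d, hdS, hdC⟩ := hS C hCl
  obtain ⟨h1, h2, h3, h4⟩ := hC2 d hdC
  exact ⟨_, h3, h _ h3 (CCex_cl_closed F _), d, hdS, h1, h2, h4⟩

end Pool.Agent.HCO
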