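import Pool.Agent.HCO.CCex

/-!
# Countable closed sets with two prescribed traces
-/

set_option autoImplicit false

open Set Topology Cardinal Ordinal Order Filter

universe u v w

namespace Pool.Agent.HCO

private theorem CCex2_card {T : Type v} (e : Ordinal.{u} → T) (ξ : Ordinal.{u}) :
    Cardinal.lift.{u + 1, v} #(e '' Iio ξ : Set T) ≤ Cardinal.lift.{max (u + 1) v, u} ξ.card := by
  have h := Cardinal.mk_image_le_lift (f := e) (s := Iio ξ)
  rw [Cardinal.mk_Iio_ordinal, Cardinal.lift_lift] at h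
  exact h

private theorem CCex2_bound {T : Type v} (e2 : Ordinal.{u} → T) (μ : Cardinal.{u})
    (hμ : μ.IsRegular) (he : Set.InjOn e2 (Iio μ.ord)) (N : Set T)
    (hN : Cardinal.lift.{u + 1, v} #N < Cardinal.lift.{max (u + 1) v, u} μ) :
    ∃ c < μ.ord, ∀ a < μ.ord, e2 a ∈ N → a < c := by
  let s : Set Ordinal.{u} := {a | a < μ.ord ∧ e2 a ∈ N}
  have hs : #s < (Ordinal.lift.{u + 1} μ.ord).cof := by
    rw [← Ordinal.lift_cof, hμ.cof_ord]
    have h1 : Cardinal.lift.{v, u + 1} #s ≤ Cardinal.lift.{u + 1, v} #N := by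
      refine Cardinal.lift_mk_le_lift_mk_of_injective (f := fun a : s => (⟨e2 a.1, a.2.2⟩ : N)) ?_
      intro a b hab
      have h2 : e2 a.1 = e2 b.1 := congrArg Subtype.val hab
      exact Subtype.ext (he a.2.1 b.2.1 h2)
    have h2 := h1.trans_lt hN
    rw [← Cardinal.lift_lt.{u + 1, v}, Cardinal.lift_lift]
    exact h2
  refine ⟨sSup ((· + 1) '' s), Ordinal.sSup_add_one_lt_of_lt_cof hs (fun i hi => hi.1), ?_⟩
  intro a ha hea
  have hb : BddAbove ((· + 1) '' s) := by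
    refine ⟨μ.ord, ?_⟩
    rintro _ ⟨b, hb, rfl⟩
    exact Order.add_one_le_of_lt hb.1
  exact lt_of_lt_of_le (lt_add_one a) (le_csSup hb ⟨a, ⟨ha, hea⟩, rfl⟩)

private theorem CCex2_cofinal (g : Ordinal.{u}) (hg : g.cof = ℵ₀) :
    ∃ s : Set Ordinal.{u}, s.Countable ∧ (∀ a ∈ s, a < g) ∧ ∀ b < g, ∃ a ∈ s, b ≤ a := by
  obtain ⟨s, hs, hc⟩ := Order.exists_cof_eq (Iio g)
  rw [Ordinal.cof_Iio, ← Ordinal.lift_cof, hg, Cardinal.lift_aleph0] at hc
  refine ⟨Subtype.val '' s, ?_, ?_, ?_⟩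
  · exact (Cardinal.le_aleph0_iff_set_countable.1 hc.le).image _
  · rintro _ ⟨a, _, rfl⟩
    exact a.2
  · intro b hb
    obtain ⟨a, ha, hab⟩ := hs ⟨b, hb⟩
    exact ⟨a.1, ⟨a, ha, rfl⟩, hab⟩

theorem thm_CCex2 (hC : St_Club.{u}) : St_CCex2.{u, v} := by
  intro T A e e2 μ S S2 he he2 hμ hu hS hS2 hlim hA
  obtain ⟨F, hF, hFA⟩ := hA
  have hu0 : ℵ₀ < μ := Cardinal.aleph0_lt_aleph_one.trans hu
  have hcof : ℵ₀ < μ.ord.cof := by rw [hμ.cof_ord]; exact hu0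
  let N : Ordinal.{u} → Set T := fun ξ => CCex_cl F (e '' Iio w1 ∪ e2 '' Iio ξ)
  have hNm : ∀ a b, a ≤ b → N a ⊆ N b := fun a b hab =>
    CCex_cl_mono F _ _ (Set.union_subset_union_right _ (Set.image_mono (Set.Iio_subset_Iio hab)))
  have hNc : ∀ ξ < μ.ord, Cardinal.lift.{u + 1, v} #(N ξ) <
      Cardinal.lift.{max (u + 1) v, u} μ := by
    intro ξ hξ
    have h1 : #(N ξ) ≤ max (#(e '' Iio w1 : Set T) + #(e2 '' Iio ξ : Set T)) ℵ₀ :=
      (CCex_cl_card F hF _).trans (max_le_max_right _ (Cardinal.mk_union_le _ _))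
    refine (Cardinal.lift_le.{u + 1}.2 h1).trans_lt ?_
    rw [Cardinal.lift_max, Cardinal.lift_add, Cardinal.lift_aleph0]
    have h0 : ℵ₀ < Cardinal.lift.{max (u + 1) v, u} μ := by
      rw [Cardinal.aleph0_lt_lift]; exact hu0
    refine max_lt (Cardinal.add_lt_of_lt h0.le ?_ ?_) h0
    · refine (CCex2_card e w1).trans_lt ?_
      rw [Cardinal.lift_lt, w1, Cardinal.card_ord]
      exact hu
    · refine (CCex2_card e2 ξ).trans_lt ?_
      rw [Cardinal.lift_lt]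
      exact Cardinal.lt_ord.1 hξ
  let c : Ordinal.{u} → Ordinal.{u} := fun ξ => sInf {c | ∀ a < μ.ord, e2 a ∈ N ξ → a < c}
  have hc1 : ∀ ξ, ∀ a < μ.ord, e2 a ∈ N ξ → a < c ξ := by
    intro ξ
    have : c ξ ∈ {c | ∀ a < μ.ord, e2 a ∈ N ξ → a < c} :=
      csInf_mem ⟨μ.ord, fun a ha _ => ha⟩
    exact this
  have hc2 : ∀ ξ < μ.ord, c ξ < μ.ord := by
    intro ξ hξ
    obtain ⟨d, hd, h⟩ := CCex2_bound e2 μ hμ he2 (N ξ) (hNc ξ hξ)
    exact lt_of_le_of_lt (csInf_le' h) hd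
  have hc3 : ∀ a b, a ≤ b → b < μ.ord → c a ≤ c b := by
    intro a b hab _
    apply csInf_le'
    intro x hx hea
    exact hc1 b x hx (hNm a b hab hea)
  obtain ⟨g, hgS, hg1, hg2, hg3⟩ := hS2 _ (hC.fnm μ.ord c hcof hc2 hc3)
  -- the trace of `N g`
  have hNg : ∀ a < μ.ord, e2 a ∈ N g → a < g := by
    intro a ha hea
    have : Nonempty (Iio g) := ⟨⟨0, hg2.bot_lt⟩⟩
    have hU : e '' Iio w1 ∪ e2 '' Iio g = ⋃ b : Iio g, (e '' Iio w1 ∪ e2 '' Iio b.1) := by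
      ext x
      constructor
      · rintro (hx | ⟨b, hb, rfl⟩)
        · exact Set.mem_iUnion.2 ⟨⟨0, hg2.bot_lt⟩, Or.inl hx⟩
        · exact Set.mem_iUnion.2 ⟨⟨succ b, hg2.succ_lt hb⟩, Or.inr ⟨b, lt_succ b, rfl⟩⟩
      · intro hx
        obtain ⟨b, hb⟩ := Set.mem_iUnion.1 hx
        rcases hb with hb | ⟨y, hy, rfl⟩
        · exact Or.inl hb
        · exact Or.inr ⟨y, (show y < b.1 from hy).trans b.2, rfl⟩
    have hd : Directed (· ⊆ ·) (fun b : Iio g => e '' Iio w1 ∪ e2 '' Iio b.1) := by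
      apply Monotone.directed_le
      intro b b' hbb
      exact Set.union_subset_union_right _ (Set.image_mono (Set.Iio_subset_Iio hbb))
    have hea' : e2 a ∈ CCex_cl F (e '' Iio w1 ∪ e2 '' Iio g) := hea
    rw [hU, CCex_cl_iUnion F _ hd] at hea'
    obtain ⟨b, hb⟩ := Set.mem_iUnion.1 hea'
    exact (hc1 b.1 a ha hb).trans (hg3 b.1 b.2)
  obtain ⟨s, hsc, hsg, hscof⟩ := CCex2_cofinal g (hlim g hgS).2
  obtain ⟨C, hCl, hC2⟩ := CCex_main hC e F hF (e2 '' s) (hsc.image e2) he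
  obtain ⟨d, hdS, hdC⟩ := hS C hCl
  obtain ⟨h1, h2, h3, h4⟩ := hC2 d hdC
  refine ⟨_, h3, hFA _ h3 (CCex_cl_closed F _), ⟨d, hdS, h1, h2, h4⟩, g, hgS, hg1, ?_, ?_⟩
  · intro a ha hea
    refine hNg a ha (CCex_cl_mono F _ _ ?_ hea)
    refine Set.union_subset ?_ ?_
    · exact (Set.image_mono (fun a ha => hsg a ha)).trans Set.subset_union_right
    · exact (Set.image_mono (Set.Iio_subset_Iio h1.le)).trans Set.subset_union_left
  · intro b hb
    obtain ⟨a, ha, hba⟩ := hscof (succ b) (hg2.succ_lt hb)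
    exact ⟨a, (lt_succ b).trans_le hba, hsg a ha, CCex_cl_sub F _ (Or.inl ⟨a, ha, rfl⟩)⟩

end Pool.Agent.HCO
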