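import Pool.Agent.HCO.St4

set_option autoImplicit false

open Set Topology Cardinal Ordinal Order Filter

universe u v w

namespace Pool.Agent.HCO

/-- compactness: a closed set covered by an increasing family of open sets indexed by ordinals
below a nonzero limit is in one of them -/
private theorem CMP_cover {X : Type u} [TopologicalSpace X] [CompactSpace X]
    {l : Ordinal.{u}} (hl : IsSuccLimit l) (K : Ordinal.{u} → Set X)
    (hop : ∀ a < l, IsOpen (K a)) (hmono : ∀ a b, a ≤ b → b < l → K a ⊆ K b)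
    {A : Set X} (hA : IsClosed A) (hc : ∀ z ∈ A, ∃ a < l, z ∈ K a) : ∃ a < l, A ⊆ K a := by
  classical
  have h0 : (0 : Ordinal.{u}) < l := by
    rcases eq_or_ne l 0 with h | h
    · exact (hl.1 (by rw [h]; exact isMin_bot)).elim
    · exact pos_iff_ne_zero.2 h
  obtain ⟨t, ht⟩ := hA.isCompact.elim_finite_subcover (fun a : Set.Iio l => K a.1)
    (fun a => hop a.1 a.2) (by
      intro z hz
      obtain ⟨a, ha, hza⟩ := hc z hz
      exact mem_iUnion.2 ⟨⟨a, ha⟩, hza⟩)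
  refine ⟨t.sup (fun a => a.1), ?_, ?_⟩
  · rw [Finset.sup_lt_iff (by simpa using h0)]
    intro a _
    exact a.2
  · intro z hz
    obtain ⟨a, ha⟩ := mem_iUnion.1 (ht hz)
    obtain ⟨hat, hza⟩ := mem_iUnion.1 ha
    refine hmono a.1 _ (Finset.le_sup (f := fun a : Set.Iio l => a.1) hat) ?_ hza
    rw [Finset.sup_lt_iff (by simpa using h0)]
    intro b _
    exact b.2

theorem thm_CMP (hClub : St_Club.{u}) : St_CMP.{u} := by
  classical
  intro X _ _ _ _ p o K G hG hOrd hpG hacc hcof hK hcov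
  obtain ⟨f, hinj, hf⟩ := hOrd
  have hO' : ∀ a : X, ∃ O : Set X, a ∈ G → IsClopen O ∧ ∀ z ∈ G, (z ∈ O ↔ f z ≤ f a) := by
    intro a
    by_cases ha : a ∈ G
    · obtain ⟨O, h1, h2⟩ := hf a ha
      exact ⟨O, fun _ => ⟨h1, h2⟩⟩
    · exact ⟨∅, fun h => (ha h).elim⟩
  choose O hO using hO'
  -- the limit ordinal o
  have hol : IsSuccLimit o := by
    exact Ordinal.one_lt_cof_iff.1 (Cardinal.one_lt_aleph0.trans hcof)
  have ho0 : (0 : Ordinal.{u}) < o := by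
    rcases eq_or_ne o 0 with h | h
    · exact (hol.1 (by rw [h]; exact isMin_bot)).elim
    · exact pos_iff_ne_zero.2 h
  set L : Set X := {z | z ∈ G ∧ f z < f p} with hL
  -- initial segments are closed and miss p
  have hIclosed : ∀ z ∈ G, IsClosed (G ∩ O z) := fun z hz => hG.inter (hO z hz).1.1
  -- points of L accumulate at p
  have haccL : ∀ N : Set X, IsOpen N → p ∈ N → ∃ w ∈ L, w ∈ N := by
    intro N hN hpN
    have hN' : N ∩ O p ∈ 𝓝 p := by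
      refine (hN.inter (hO p hpG).1.2).mem_nhds ⟨hpN, ((hO p hpG).2 p hpG).2 le_rfl⟩
    obtain ⟨w, ⟨hw1, hw2⟩, hw3⟩ := accPt_iff_nhds.1 hacc _ hN'
    refine ⟨w, ⟨hw2, ?_⟩, hw1.1⟩
    refine lt_of_le_of_ne (((hO p hpG).2 w hw2).1 hw1.2) ?_
    intro h
    exact hw3 (hinj hw2 hpG h)
  -- lemma A
  have hAL : ∀ A : Set X, IsClosed A → A ⊆ L → ∃ z ∈ L, A ⊆ O z := by
    intro A hA hAL
    obtain ⟨t, ht⟩ := hA.isCompact.elim_finite_subcover (fun a : L => O a.1)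
      (fun a => (hO a.1 a.2.1).1.2) (by
        intro z hz
        exact mem_iUnion.2 ⟨⟨z, hAL hz⟩, ((hO z (hAL hz).1).2 z (hAL hz).1).2 le_rfl⟩)
    rcases t.eq_empty_or_nonempty with h | h
    · obtain ⟨w, hw, _⟩ := haccL univ isOpen_univ (mem_univ _)
      refine ⟨w, hw, ?_⟩
      intro z hz
      have := ht hz
      simp [h] at this
    · obtain ⟨m, hm, hmax⟩ := t.exists_max_image (fun a => f a.1) h
      refine ⟨m.1, m.2, ?_⟩
      intro z hz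
      obtain ⟨a, ha⟩ := mem_iUnion.1 (ht hz)
      obtain ⟨hat, hza⟩ := mem_iUnion.1 ha
      have h1 : f z ≤ f a.1 := ((hO a.1 a.2.1).2 z (hAL hz).1).1 hza
      exact ((hO m.1 m.2.1).2 z (hAL hz).1).2 (h1.trans (hmax a hat))
  -- lemma B
  have hBK : ∀ A : Set X, IsClosed A → A ⊆ G → p ∉ A → ∃ a < o, A ⊆ K a := by
    intro A hA hAG hpA
    refine CMP_cover hol K (fun a ha => (hK.clopen a ha).2) hK.mono hA ?_
    intro z hz
    refine hcov z (hAG hz) ?_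
    rintro rfl
    exact hpA hz
  obtain ⟨x0, hx0, hx0K⟩ : ∃ a < o, G \ O p ⊆ K a := by
    refine hBK _ (hG.sdiff (hO p hpG).1.2) sdiff_subset ?_
    intro h
    exact h.2 (((hO p hpG).2 p hpG).2 le_rfl)
  -- the function
  let Q : Ordinal.{u} → Set Ordinal.{u} := fun ξ => {η | ξ < η ∧ x0 < η ∧ η < o ∧
    (∃ z ∈ L, L ∩ K ξ ⊆ O z ∧ G ∩ O z ⊆ K η) ∧ ∃ w ∈ L, w ∈ K η ∧ w ∉ K ξ}
  have hQne : ∀ ξ < o, (Q ξ).Nonempty := by
    intro ξ hξ
    obtain ⟨z, hz, hAz⟩ := hAL (G ∩ K ξ ∩ O p)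
      ((hG.inter (hK.clopen ξ hξ).1).inter (hO p hpG).1.1) (by
        rintro w ⟨⟨hwG, hwK⟩, hwO⟩
        refine ⟨hwG, lt_of_le_of_ne (((hO p hpG).2 w hwG).1 hwO) ?_⟩
        intro h
        have := hinj hwG hpG h
        exact hK.notin ξ hξ (this ▸ hwK))
    obtain ⟨η1, hη1, hη1K⟩ := hBK (G ∩ O z) (hIclosed z hz.1) inter_subset_left (by
      intro h
      exact absurd (((hO z hz.1).2 p hpG).1 h.2) (not_le.2 hz.2))
    obtain ⟨w, hwL, hwK⟩ := haccL (K ξ)ᶜ (hK.clopen ξ hξ).1.isOpen_compl (hK.notin ξ hξ)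
    obtain ⟨η2, hη2, hη2K⟩ := hcov w hwL.1 (by
      rintro rfl
      exact lt_irrefl _ hwL.2)
    refine ⟨max (max (succ ξ) (succ x0)) (max η1 η2), ?_, ?_, ?_, ?_, ?_⟩
    · exact (lt_succ ξ).trans_le ((le_max_left _ _).trans (le_max_left _ _))
    · exact (lt_succ x0).trans_le ((le_max_right _ _).trans (le_max_left _ _))
    · exact max_lt (max_lt (hol.succ_lt hξ) (hol.succ_lt hx0)) (max_lt hη1 hη2)
    · refine ⟨z, hz, ?_, ?_⟩
      · rintro w ⟨hwL, hwK⟩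
        exact hAz ⟨⟨hwL.1, hwK⟩, ((hO p hpG).2 w hwL.1).2 hwL.2.le⟩
      · refine hη1K.trans (hK.mono _ _ ((le_max_left _ _).trans (le_max_right _ _)) ?_)
        exact max_lt (max_lt (hol.succ_lt hξ) (hol.succ_lt hx0)) (max_lt hη1 hη2)
    · refine ⟨w, hwL, ?_, hwK⟩
      refine hK.mono _ _ ((le_max_right _ _).trans (le_max_right _ _)) ?_ hη2K
      exact max_lt (max_lt (hol.succ_lt hξ) (hol.succ_lt hx0)) (max_lt hη1 hη2)
  let φ : Ordinal.{u} → Ordinal.{u} := fun ξ => sInf (Q ξ)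
  have hφ : ∀ ξ < o, φ ξ ∈ Q ξ := fun ξ hξ => csInf_mem (hQne ξ hξ)
  have hφmono : ∀ a b, a ≤ b → b < o → φ a ≤ φ b := by
    intro a b hab hb
    refine csInf_le' ?_
    obtain ⟨h1, h2, h3, ⟨z, hz, h4, h5⟩, w, hw, h6, h7⟩ := hφ b hb
    exact ⟨hab.trans_lt h1, h2, h3, ⟨z, hz, (inter_subset_inter_right _
      (hK.mono a b hab hb)).trans h4, h5⟩, w, hw, h6, fun h => h7 (hK.mono a b hab hb h)⟩
  refine ⟨_, hClub.fnm o φ hcof (fun a ha => (hφ a ha).2.2.1) hφmono, ?_⟩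
  rintro l ⟨hlo, hlim, hlφ⟩
  refine ⟨hlim, ?_⟩
  have hl0 : (0 : Ordinal.{u}) < l := by
    rcases eq_or_ne l 0 with h | h
    · exact (hlim.1 (by rw [h]; exact isMin_bot)).elim
    · exact pos_iff_ne_zero.2 h
  have hx0l : x0 < l := (hφ 0 (hl0.trans hlo)).2.1.trans (hlφ 0 hl0)
  -- claim 1
  have c1 : ∀ z ∈ L, z ∈ Uu K l → ∀ w ∈ G, f w ≤ f z → w ∈ Uu K l := by
    rintro z hz ⟨ξ, hξ, hzK⟩ w hw hwz
    obtain ⟨_, _, _, ⟨z', hz', h4, h5⟩, _⟩ := hφ ξ (hξ.trans hlo)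
    refine ⟨φ ξ, hlφ ξ hξ, h5 ⟨hw, ?_⟩⟩
    exact ((hO z' hz'.1).2 w hw).2 (hwz.trans (((hO z' hz'.1).2 z hz.1).1 (h4 ⟨hz, hzK⟩)))
  have hpU : p ∉ Uu K l := by
    rintro ⟨a, ha, h⟩
    exact hK.notin a (ha.trans hlo) h
  -- claim 2
  have c2 : (L \ Uu K l).Nonempty := by
    by_contra h
    rw [not_nonempty_iff_eq_empty, sdiff_eq_empty] at h
    have h1 : p ∈ closure (Uu K l) := by
      rw [mem_closure_iff]
      intro N hN hpN
      obtain ⟨w, hw, hwN⟩ := haccL N hN hpN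
      exact ⟨w, hwN, h hw⟩
    exact hK.notin l hlo (hK.cl l hlo h1)
  obtain ⟨e, ⟨heL, heU⟩, hemin⟩ : ∃ e ∈ L \ Uu K l, ∀ w ∈ L \ Uu K l, f e ≤ f w := by
    obtain ⟨e, he, hmin⟩ := (InvImage.wf f Ordinal.lt_wf).has_min _ c2
    exact ⟨e, he, fun w hw => not_lt.1 (hmin w hw)⟩
  -- claim 3
  have c3 : ∀ w ∈ G, (w ∈ L ∧ w ∈ Uu K l) ↔ f w < f e := by
    intro w hw
    constructor
    · rintro ⟨h1, h2⟩
      by_contra h
      exact heU (c1 w h1 h2 e heL.1 (not_lt.1 h))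
    · intro h
      have hwL : w ∈ L := ⟨hw, h.trans heL.2⟩
      refine ⟨hwL, ?_⟩
      by_contra h'
      exact absurd (hemin w ⟨hwL, h'⟩) (not_le.2 h)
  have hsub : G ∩ Uu K l ⊆ (G ∩ O e) ∪ (G \ O p) := by
    rintro w ⟨hwG, hwU⟩
    by_cases hwp : w ∈ O p
    · left
      have hwL : w ∈ L := by
        refine ⟨hwG, lt_of_le_of_ne (((hO p hpG).2 w hwG).1 hwp) ?_⟩
        intro h
        exact hpU ((hinj hwG hpG h) ▸ hwU)
      exact ⟨hwG, ((hO e heL.1).2 w hwG).2 ((c3 w hwG).1 ⟨hwL, hwU⟩).le⟩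
    · right
      exact ⟨hwG, hwp⟩
  refine ⟨e, ?_⟩
  apply Subset.antisymm
  · rintro z ⟨hzc, hzU⟩
    have hz : z ∈ (G ∩ O e) ∪ (G \ O p) := by
      refine (closure_minimal hsub ?_) hzc
      exact (hIclosed e heL.1).union (hG.sdiff (hO p hpG).1.2)
    rcases hz with ⟨hzG, hzO⟩ | hz
    · have h1 : f z ≤ f e := ((hO e heL.1).2 z hzG).1 hzO
      rcases h1.lt_or_eq with h | h
      · exact (hzU ((c3 z hzG).2 h).2).elim
      · exact hinj hzG heL.1 h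
    · exact (hzU ⟨x0, hx0l, hx0K hz⟩).elim
  · intro e' he'
    rw [mem_singleton_iff.1 he']
    refine ⟨?_, heU⟩
    by_contra hec
    -- then L ∩ U is closed
    have hcl : IsClosed (L ∩ Uu K l) := by
      rw [← closure_subset_iff_isClosed]
      intro z hz
      have hz1 : z ∈ G ∩ O e := by
        refine closure_minimal ?_ (hIclosed e heL.1) hz
        rintro w ⟨hwL, hwU⟩
        exact ⟨hwL.1, ((hO e heL.1).2 w hwL.1).2 ((c3 w hwL.1).1 ⟨hwL, hwU⟩).le⟩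
      have h1 : f z ≤ f e := ((hO e heL.1).2 z hz1.1).1 hz1.2
      rcases h1.lt_or_eq with h | h
      · exact (c3 z hz1.1).2 h
      · exfalso
        have hze : z = e := hinj hz1.1 heL.1 h
        apply hec
        rw [← hze]
        exact closure_mono (s := L ∩ Uu K l) (t := G ∩ Uu K l) (fun w hw => ⟨hw.1.1, hw.2⟩) hz
    obtain ⟨ξ, hξ, hξK⟩ := CMP_cover hlim K (fun a ha => (hK.clopen a (ha.trans hlo)).2)
      (fun a b hab hb => hK.mono a b hab (hb.trans hlo)) hcl (fun z hz => hz.2)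
    obtain ⟨_, _, _, _, w, hwL, hw1, hw2⟩ := hφ ξ (hξ.trans hlo)
    exact hw2 (hξK ⟨hwL, φ ξ, hlφ ξ hξ, hw1⟩)

end Pool.Agent.HCO
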