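import Pool.Agent.HCO.St4

/-! # [CTpow] finite powers of countably tight compact spaces are countably tight -/

set_option autoImplicit false

open Set Topology Cardinal Ordinal Order Filter

universe u v w

namespace Pool.Agent.HCO

private theorem CTpow_prod {X Z : Type u} [TopologicalSpace X] [TopologicalSpace Z]
    [CompactSpace X] [CompactSpace Z] [T2Space X] [T2Space Z] (hX : CTp X) (hZ : CTp Z) :
    CTp (X × Z) := by
  intro F hF
  rw [← closure_subset_iff_isClosed]
  rintro ⟨u, w⟩ huw
  by_contra hn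
  -- the fibre
  have hfib : IsClosed {z : Z | (u, z) ∈ F} := by
    refine hZ _ fun A hA hAc z hz => ?_
    have h1 : closure ((fun z : Z => (u, z)) '' A) ⊆ F := by
      refine hF _ ?_ (hAc.image _)
      rintro _ ⟨a, ha, rfl⟩
      exact hA ha
    refine h1 ?_
    have h2 : Continuous fun z : Z => (u, z) := by fun_prop
    exact image_closure_subset_closure_image h2 ⟨z, hz, rfl⟩
  have hw : {z : Z | (u, z) ∈ F}ᶜ ∈ 𝓝 w := hfib.isOpen_compl.mem_nhds hn
  obtain ⟨N, hN, hNc, hNF⟩ := exists_mem_nhds_isClosed_subset hw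
  have hG : IsClosed (Prod.fst '' (F ∩ Prod.snd ⁻¹' N)) := by
    refine hX _ fun A hA hAc => ?_
    obtain ⟨B, hB, hBc, hBA⟩ : ∃ B ⊆ F ∩ Prod.snd ⁻¹' N, B.Countable ∧ Prod.fst '' B = A := by
      choose g hg using fun a : A => hA a.2
      have : Countable A := hAc
      refine ⟨range g, ?_, countable_range g, ?_⟩
      · rintro _ ⟨a, rfl⟩
        exact (hg a).1
      · ext x
        constructor
        · rintro ⟨_, ⟨a, rfl⟩, rfl⟩
          rw [(hg a).2]
          exact a.2
        · intro hx
          exact ⟨g ⟨x, hx⟩, ⟨_, rfl⟩, (hg ⟨x, hx⟩).2⟩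
    have h1 : closure B ⊆ F ∩ Prod.snd ⁻¹' N := by
      refine subset_inter (hF B (hB.trans inter_subset_left) hBc) ?_
      exact closure_minimal (hB.trans inter_subset_right) (hNc.preimage continuous_snd)
    have h2 : IsClosed (Prod.fst '' closure B) :=
      (isClosed_closure.isCompact.image continuous_fst).isClosed
    rw [← hBA]
    exact (closure_minimal (image_mono subset_closure) h2).trans (image_mono h1)
  have hu : u ∉ Prod.fst '' (F ∩ Prod.snd ⁻¹' N) := by
    rintro ⟨⟨a, b⟩, ⟨h1, h2⟩, rfl⟩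
    exact hNF h2 h1
  have hV : (Prod.fst '' (F ∩ Prod.snd ⁻¹' N))ᶜ ∈ 𝓝 u := hG.isOpen_compl.mem_nhds hu
  obtain ⟨⟨a, b⟩, hab, habF⟩ := mem_closure_iff_nhds.1 huw _ (prod_mem_nhds hV hN)
  exact hab.1 ⟨(a, b), ⟨habF, hab.2⟩, rfl⟩

private def CTpow_homeo (X : Type u) [TopologicalSpace X] (n : ℕ) :
    (Fin (n + 1) → X) ≃ₜ X × (Fin n → X) where
  toFun w := (w 0, fun i => w i.succ)
  invFun p := Fin.cons p.1 p.2
  left_inv w := Fin.cons_self_tail w
  right_inv p := by
    refine Prod.ext ?_ ?_
    · rfl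
    · funext i
      rfl
  continuous_toFun := by fun_prop
  continuous_invFun := by
    refine continuous_pi fun i => ?_
    refine Fin.cases ?_ (fun j => ?_) i
    · exact continuous_fst
    · exact (continuous_apply j).comp continuous_snd

private theorem CTpow_tr {Z Z' : Type u} [TopologicalSpace Z] [TopologicalSpace Z']
    (e : Z' ≃ₜ Z) (h : CTp Z) : CTp Z' := by
  intro F hF
  have h1 : IsClosed (e '' F) := by
    refine h _ fun A hA hAc => ?_
    have h2 : closure (e.symm '' A) ⊆ F := by
      refine hF _ ?_ (hAc.image _)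
      rintro _ ⟨a, ha, rfl⟩
      obtain ⟨z, hz, rfl⟩ := hA ha
      rw [e.symm_apply_apply]
      exact hz
    rw [← e.symm.image_closure] at h2
    intro a ha
    exact ⟨e.symm a, h2 ⟨a, ha, rfl⟩, e.apply_symm_apply a⟩
  exact (e.isClosed_image).1 h1

theorem thm_CTpow : St_CTpow.{u} := by
  intro X _ _ _ hX n
  induction n with
  | zero =>
    intro F _
    exact (Set.toFinite F).isClosed
  | succ n ih => exact CTpow_tr (CTpow_homeo X n) (CTpow_prod hX ih)

end Pool.Agent.HCO
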