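import Pool.Agent.HCO.St4

set_option autoImplicit false

open Set Topology Cardinal Ordinal Order Filter

universe u v w

namespace Pool.Agent.HCO

/-- fewer than `ν` sets of size `< ν` -/
private theorem CV_union {X : Type u} (ν : Cardinal.{u}) (hν : ν.IsRegular) (b : Ordinal.{u})
    (hb : b.card < ν) (B : Ordinal.{u} → Set X) (hB : ∀ a < b, #(B a) < ν) :
    #({z | ∃ a < b, z ∈ B a} : Set X) < ν := by
  have h1 : ({z | ∃ a < b, z ∈ B a} : Set X) = ⋃ i : b.ToType, B (Ordinal.ToType.mk.symm i).1 := by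
    ext z
    simp only [Set.mem_ofPred_eq, Set.mem_iUnion]
    constructor
    · rintro ⟨a, ha, hz⟩
      exact ⟨Ordinal.ToType.mk ⟨a, ha⟩, by simpa using hz⟩
    · rintro ⟨i, hz⟩
      exact ⟨_, (Ordinal.ToType.mk.symm i).2, hz⟩
  rw [h1]
  rw [Cardinal.card_iUnion_lt_iff_forall_of_isRegular hν (by rw [Cardinal.mk_toType]; exact hb)]
  intro i
  exact hB _ (Ordinal.ToType.mk.symm i).2

/-- `x` is not in a high derivative of a closed set whose `ν`-th derivative is at most `{x}` -/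
private theorem CV_small (hDer : St_Der.{u}) {X : Type u} [TopologicalSpace X] (x : X)
    (r n : Ordinal.{u}) (hn : n < r) (T : Set X) (hT : der T n ⊆ {x}) : x ∉ der T r := by
  intro hx
  have h1 : x ∈ der T (n + 1) := by
    refine hDer.sub X T (n + 1) r ?_ hx
    rw [← Order.succ_eq_add_one]
    exact Order.succ_le_of_lt hn
  have h2 : AccPt x (𝓟 (der T n)) := ((hDer.succ X T n x).1 h1).2
  rw [accPt_iff_nhds] at h2
  obtain ⟨y, hy, hyx⟩ := h2 Set.univ Filter.univ_mem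
  exact hyx (hT hy.2)

/-- the main step: the closure of a union of small pieces of the differences -/
private theorem CV_main (hCMP : St_CMP.{u}) (hLS : St_LS.{u}) (hOClos : St_OClos.{u})
    (hFilt : St_Filt.{u}) (hDer : St_Der.{u}) {X : Type u} [TopologicalSpace X]
    [CompactSpace X] [T2Space X] [TotallyDisconnectedSpace X] (x : X) (r : Ordinal.{u})
    (μ : Cardinal.{u}) (K : Ordinal.{u} → Set X) (hMin : Min X x r) (hK : Filt x μ K)
    (ν : Cardinal.{u}) (hν : ν.IsRegular) (hμν : μ ≤ ν) (hνr : ν.ord < r)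
    (B : Ordinal.{u} → Set X) (hB : ∀ a < μ.ord, B a ⊆ K (a + 1) \ K a ∧ #(B a) < ν)
    (hne : ∀ a < μ.ord, (B a).Nonempty) :
    ∃ C, Club μ.ord C ∧ ∀ l ∈ C, IsSuccLimit l ∧ ∃ e,
      closure (closure {z | ∃ a < μ.ord, z ∈ B a} ∩ Uu K l) \ Uu K l = {e} := by
  set Z : Set X := {z | ∃ a < μ.ord, z ∈ B a} with hZ
  have hlim : IsSuccLimit μ.ord := Cardinal.isSuccLimit_ord hK.unc.le
  have hsucc : ∀ a < μ.ord, a + 1 < μ.ord := by
    intro a ha
    rw [← Order.succ_eq_add_one]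
    exact hlim.succ_lt ha
  have hcof : ℵ₀ < μ.ord.cof := by rw [hK.reg.cof_ord]; exact hK.unc
  -- clopen sets missing x
  have hsize : ∀ N : Set X, IsClopen N → x ∉ N → #(closure Z ∩ N : Set X) < ν := by
    intro N hN hxN
    obtain ⟨b, hb, hNb⟩ := hFilt.cpt X x μ K hK N hN.1 hxN
    have hord : IsOrd N := by
      refine hMin.small N hN.1 ?_
      intro h
      exact hxN (((hDer.iff X N r x).1 h).1)
    have h1 : closure Z ∩ N ⊆ closure (Z ∩ N) := hN.2.closure_inter
    have h2 : #(Z ∩ N : Set X) < ν := by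
      have h3 : Z ∩ N ⊆ {z | ∃ a < b, z ∈ B a} := by
        rintro z ⟨⟨a, ha, hz⟩, hzN⟩
        refine ⟨a, ?_, hz⟩
        by_contra hab
        have hab' : b ≤ a := not_lt.1 hab
        exact ((hB a ha).1 hz).2 (hK.mono b a hab' ha (hNb hzN))
      refine (Cardinal.mk_le_mk_of_subset h3).trans_lt ?_
      refine CV_union ν hν b ?_ B (fun a ha => (hB a (ha.trans hb)).2)
      exact (Cardinal.lt_ord.1 hb).trans_le hμν
    refine (Cardinal.mk_le_mk_of_subset h1).trans_lt ?_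
    refine (hOClos X N (Z ∩ N) hN.1 hord Set.inter_subset_right).trans_lt ?_
    exact max_lt h2 (hK.unc.trans_le hμν)
  have hder : der (closure Z) ν.ord ⊆ {x} := hLS X x (closure Z) ν hMin.scat isClosed_closure hsize
  have hord : IsOrd (closure Z) :=
    hMin.small _ isClosed_closure (CV_small hDer x r ν.ord hνr _ hder)
  have hacc : AccPt x (𝓟 (closure Z)) := by
    rw [accPt_iff_nhds]
    intro U hU
    obtain ⟨V, hVU, hVo, hxV⟩ := mem_nhds_iff.1 hU
    obtain ⟨b, hb, hVb⟩ := hFilt.cpt X x μ K hK Vᶜ hVo.isClosed_compl (fun h => h hxV)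
    obtain ⟨y, hy⟩ := hne b hb
    have hy' := (hB b hb).1 hy
    refine ⟨y, ⟨hVU ?_, subset_closure ⟨b, hb, hy⟩⟩, ?_⟩
    · by_contra hyV
      exact hy'.2 (hVb hyV)
    · intro hyx
      rw [hyx] at hy'
      exact hK.notin (b + 1) (hsucc b hb) hy'.1
  have hxmem : x ∈ closure Z := by
    have h := mem_closure_iff_clusterPt.2 hacc.clusterPt
    rwa [closure_closure] at h
  exact hCMP X x μ.ord K (closure Z) isClosed_closure hord hxmem hacc hcof hK.toPreFilt
    (fun z _ hzx => hK.cover z hzx)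

theorem thm_CV (hCMP : St_CMP.{u}) (hLS : St_LS.{u}) (hOClos : St_OClos.{u})
    (hFilt : St_Filt.{u}) (hClub : St_Club.{u}) (hDer : St_Der.{u}) : St_CV.{u} := by
  classical
  intro X _ _ _ _ x r μ K hMin hF hμr
  have hK : Filt x μ K := hF.toFilt
  have hlim : IsSuccLimit μ.ord := Cardinal.isSuccLimit_ord hK.unc.le
  have hcof : ℵ₀ < μ.ord.cof := by rw [hK.reg.cof_ord]; exact hK.unc
  have hy0 : ∀ a : Ordinal.{u}, ∃ y : X, a < μ.ord → y ∈ K (a + 1) \ K a := by
    intro a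
    by_cases ha : a < μ.ord
    · obtain ⟨y, hy⟩ := hF.strict a ha
      exact ⟨y, fun _ => hy⟩
    · exact ⟨x, fun h => (ha h).elim⟩
  choose y hy using hy0
  obtain ⟨CE, hCE, hCE2⟩ := CV_main hCMP hLS hOClos hFilt hDer x r μ K hMin hK μ hK.reg le_rfl hμr
    (fun a => {y a}) (fun a ha => ⟨by
        intro z hz
        rw [Set.mem_singleton_iff] at hz
        rw [hz]
        exact hy a ha, by
        rw [Cardinal.mk_singleton]
        exact Cardinal.one_lt_aleph0.trans hK.unc⟩)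
    (fun a _ => ⟨y a, rfl⟩)
  have he0 : ∀ l : Ordinal.{u}, ∃ e : X, l ∈ CE →
      closure (closure {z | ∃ a < μ.ord, z ∈ ({y a} : Set X)} ∩ Uu K l) \ Uu K l = {e} := by
    intro l
    by_cases hl : l ∈ CE
    · obtain ⟨e, he⟩ := (hCE2 l hl).2
      exact ⟨e, fun _ => he⟩
    · exact ⟨x, fun h => (hl h).elim⟩
  choose e he using he0
  refine ⟨e, ?_⟩
  intro ν A hν hμν hνr hA
  obtain ⟨CT, hCT, hCT2⟩ := CV_main hCMP hLS hOClos hFilt hDer x r μ K hMin hK ν hν hμν hνr
    (fun a => A a ∪ {y a}) (fun a ha => ⟨by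
        intro z hz
        rcases hz with hz | hz
        · exact (hA a ha).1 hz
        · rw [Set.mem_singleton_iff] at hz
          rw [hz]
          exact hy a ha, by
        refine (Cardinal.mk_union_le _ _).trans_lt ?_
        refine Cardinal.add_lt_of_lt hν.aleph0_le (hA a ha).2 ?_
        rw [Cardinal.mk_singleton]
        exact Cardinal.one_lt_aleph0.trans (hK.unc.trans_le hμν)⟩)
    (fun a _ => ⟨y a, Or.inr rfl⟩)
  refine ⟨CE ∩ CT, hClub.inter μ.ord CE CT hcof hCE hCT, ?_⟩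
  rintro l ⟨hlE, hlT⟩
  have hll : IsSuccLimit l := (hCE2 l hlE).1
  have hlμ : l < μ.ord := hCE.1 l hlE
  obtain ⟨e', he'⟩ := (hCT2 l hlT).2
  set Z : Set X := {z | ∃ a < μ.ord, z ∈ (A a ∪ {y a} : Set X)} with hZ
  have hsub : ({z | ∃ a < μ.ord, z ∈ ({y a} : Set X)} : Set X) ⊆ Z := by
    rintro z ⟨a, ha, hz⟩
    exact ⟨a, ha, Or.inr hz⟩
  have hee : e l = e' := by
    have h1 : e l ∈ closure (closure {z | ∃ a < μ.ord, z ∈ ({y a} : Set X)} ∩ Uu K l) \ Uu K l := by
      rw [he l hlE]; rfl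
    have h2 : e l ∈ closure (closure Z ∩ Uu K l) \ Uu K l :=
      ⟨closure_mono (Set.inter_subset_inter_left _ (closure_mono hsub)) h1.1, h1.2⟩
    rw [he'] at h2
    exact h2
  have hmemT : e l ∈ closure (closure Z ∩ Uu K l) \ Uu K l := by
    rw [he', hee]; rfl
  refine ⟨hll, ⟨closure_mono Set.inter_subset_right hmemT.1, hmemT.2⟩, ?_⟩
  intro O hO heO
  obtain ⟨b, hb, hbK⟩ := hFilt.bd X x μ.ord K hK.toPreFilt l hlμ.le hll
    (closure (closure Z ∩ Uu K l) \ O) (isClosed_closure.sdiff hO.2) (by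
      rintro z ⟨hz, hzO⟩
      by_contra hzU
      have h3 : z ∈ closure (closure Z ∩ Uu K l) \ Uu K l := ⟨hz, hzU⟩
      rw [he', ← hee] at h3
      rw [Set.mem_singleton_iff] at h3
      rw [h3] at hzO
      exact hzO heO)
  refine ⟨b, hb, ?_⟩
  intro a hba hal z hz
  by_contra hzO
  have haμ : a < μ.ord := hal.trans hlμ
  have hzA := (hA a haμ).1 hz
  have ha1 : a + 1 < l := by
    rw [← Order.succ_eq_add_one]
    exact hll.succ_lt hal
  have h4 : z ∈ closure (closure Z ∩ Uu K l) \ O := by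
    refine ⟨subset_closure ⟨subset_closure ⟨a, haμ, Or.inl hz⟩, ⟨a + 1, ha1, hzA.1⟩⟩, hzO⟩
  exact hzA.2 (hK.mono b a hba haμ (hbK h4))

end Pool.Agent.HCO
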