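import Pool.Agent.HCO.St4

set_option autoImplicit false

open Set Topology Cardinal Ordinal Order Filter

universe u v w

namespace Pool.Agent.HCO

private theorem Ccc_reg : (Cardinal.aleph.{u} 1).IsRegular := Cardinal.isRegular_aleph_one

private theorem Ccc_cof : (w1.{u}).cof = Cardinal.aleph 1 := Ccc_reg.cof_ord

private theorem Ccc_lim : IsSuccLimit w1.{u} :=
  Cardinal.isSuccLimit_ord Ccc_reg.aleph0_le

private theorem Ccc_sup (h : St_Club.{u}) (b : Ordinal.{u}) (hb : b < w1) (f : Ordinal.{u} → Ordinal.{u})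
    (hf : ∀ i < b, f i < w1) : ∃ c < w1, ∀ i < b, f i < c := by
  refine h.sup w1 b f ?_ hf Ccc_lim
  rw [Ccc_cof]
  exact Cardinal.lt_ord.1 hb

/-- a sequence growing fast -/
private noncomputable def Ccc_s (β : Ordinal.{u} → Ordinal.{u}) (x : Ordinal.{u}) : Ordinal.{u} :=
  sInf {y | ∀ e : Set.Iio x, β (Ccc_s β e.1) < y}
termination_by x
decreasing_by exact e.2

private theorem Ccc_s_spec (h : St_Club.{u}) (β : Ordinal.{u} → Ordinal.{u})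
    (hβ : ∀ c < w1, β c < w1) (x : Ordinal.{u}) (hx : x < w1) :
    Ccc_s β x < w1 ∧ ∀ e < x, β (Ccc_s β e) < Ccc_s β x := by
  induction x using WellFoundedLT.induction with
  | ind x ih =>
    obtain ⟨c, hc, hc'⟩ := Ccc_sup h x hx (fun e => β (Ccc_s β e))
      (fun i hi => hβ _ (ih i hi (hi.trans hx)).1)
    have hmem : c ∈ {y | ∀ e : Set.Iio x, β (Ccc_s β e.1) < y} := fun e => hc' e.1 e.2
    have h1 : Ccc_s β x = sInf {y | ∀ e : Set.Iio x, β (Ccc_s β e.1) < y} := by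
      conv_lhs => rw [Ccc_s]
    have h2 := csInf_mem (⟨c, hmem⟩ : {y | ∀ e : Set.Iio x, β (Ccc_s β e.1) < y}.Nonempty)
    rw [← h1] at h2
    refine ⟨?_, fun e he => h2 ⟨e, he⟩⟩
    rw [h1]
    exact (csInf_le (OrderBot.bddBelow _) hmem).trans_lt hc

/-- the combinatorial core -/
private theorem Ccc_core (h : St_Club.{u}) {P : Type v} [Preorder P] (hP : Ccc.{u, v} P)
    (q : Ordinal.{u} → P) (β : Ordinal.{u} → Ordinal.{u}) (hβ : ∀ c < w1, β c < w1) :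
    ∃ c c' : Ordinal.{u}, c < w1 ∧ c' < w1 ∧ β c < c' ∧ ∃ r, r ≤ q c ∧ r ≤ q c' := by
  obtain ⟨a, b, hab, hb, r, h1, h2⟩ := hP (fun x => q (Ccc_s β x))
  exact ⟨Ccc_s β a, Ccc_s β b, (Ccc_s_spec h β hβ a (hab.trans hb)).1,
    (Ccc_s_spec h β hβ b hb).1, (Ccc_s_spec h β hβ b hb).2 a hab, r, h1, h2⟩

/-- ccc posets preserve stationary sets -/
private theorem Ccc_ssp (h : St_Club.{u}) {P : Type v} [Preorder P] (hP : Ccc.{u, v} P) :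
    SSP.{u, v} P := by
  intro S hS R hmono htot p
  have key : ∀ a < w1, ∃ c < w1, ∀ r, ∃ s ≤ r, ∃ b < c, R s a b := by
    intro a ha
    by_contra hcon
    push Not at hcon
    have h1 : ∀ c : Ordinal.{u}, ∃ (r q : P) (b : Ordinal.{u}), c < w1 →
        ((∀ s ≤ r, ∀ b < c, ¬ R s a b) ∧ q ≤ r ∧ b < w1 ∧ R q a b) := by
      intro c
      by_cases hc : c < w1
      · obtain ⟨r, hr⟩ := hcon c hc
        obtain ⟨q, hq, b, hb, hR⟩ := htot r a ha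
        exact ⟨r, q, b, fun _ => ⟨hr, hq, hb, hR⟩⟩
      · exact ⟨p, p, 0, fun h => absurd h hc⟩
    choose r q b hh using h1
    obtain ⟨c, c', hc, hc', hlt, t, ht1, ht2⟩ := Ccc_core h hP q b (fun c hc => (hh c hc).2.2.1)
    exact (hh c' hc').1 t (ht2.trans (hh c' hc').2.1) (b c) hlt
      (hmono _ _ _ _ ht1 (hh c hc).2.2.2)
  have h2 : ∀ a : Ordinal.{u}, ∃ c : Ordinal.{u}, a < w1 → (c < w1 ∧ ∀ r, ∃ s ≤ r, ∃ b < c, R s a b) := by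
    intro a
    by_cases ha : a < w1
    · obtain ⟨c, hc⟩ := key a ha
      exact ⟨c, fun _ => hc⟩
    · exact ⟨0, fun h => absurd h ha⟩
  choose g hg using h2
  have hclub := h.fn (Cardinal.aleph 1) g Ccc_reg (by
    exact Cardinal.aleph0_lt_aleph_one) (fun a ha => (hg a ha).1)
  obtain ⟨d, hdS, hd, hdl, hdg⟩ := hS _ hclub
  refine ⟨p, le_rfl, d, hdS, hd, hdl, ?_⟩
  intro a ha r _
  obtain ⟨s, hs, b, hb, hR⟩ := (hg a (ha.trans hd)).2 r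
  exact ⟨s, hs, b, hb.trans (hdg a ha), hR⟩

theorem thm_Ccc (hMs : St_MMs.{u, v}) (hC : St_Club.{u}) : St_Ccc.{u, v} := by
  intro hMM P _ _ hP f D hD
  -- a good condition
  have hgood : ∃ p : P, ∀ q ≤ p, ∀ a < w1, ∃ b, a ≤ b ∧ b < w1 ∧ ∃ r, r ≤ q ∧ r ≤ f b := by
    by_contra hcon
    push Not at hcon
    have h1 : ∀ c : Ordinal.{u}, ∃ (q : P) (a : Ordinal.{u}), q ≤ f c ∧ a < w1 ∧
        ∀ b, a ≤ b → b < w1 → ∀ r, r ≤ q → ¬ r ≤ f b := by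
      intro c
      obtain ⟨q, hq, a, ha, hh⟩ := hcon (f c)
      exact ⟨q, a, hq, ha, hh⟩
    choose q β hh using h1
    obtain ⟨c, c', hc, hc', hlt, t, ht1, ht2⟩ := Ccc_core hC hP q β (fun c _ => (hh c).2.1)
    exact (hh c).2.2 c' hlt.le hc' t ht1 (ht2.trans (hh c').1)
  obtain ⟨p, hp⟩ := hgood
  have hQc : Ccc.{u, v} {x : P // x ≤ p} := by
    intro g
    obtain ⟨a, b, hab, hb, r, h1, h2⟩ := hP (fun x => (g x).1)
    exact ⟨a, b, hab, hb, ⟨r, h1.trans (g a).2⟩, h1, h2⟩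
  have : Nonempty {x : P // x ≤ p} := ⟨⟨p, le_rfl⟩⟩
  obtain ⟨G, hG, hGD⟩ := hMs hMM {x : P // x ≤ p} (Ccc_ssp hC hQc)
    (fun i => {q | (∃ p' ∈ D i, q.1 ≤ p') ∧ ∃ b, i ≤ b ∧ b < w1 ∧ q.1 ≤ f b}) (by
      intro i hi q
      obtain ⟨p', hp', hp'D⟩ := hD i hi q.1
      obtain ⟨b, hib, hb, r, hr1, hr2⟩ := hp p' (hp'.trans q.2) i hi
      exact ⟨⟨r, hr1.trans (hp'.trans q.2)⟩, hr1.trans hp', ⟨p', hp'D, hr1⟩, b, hib, hb, hr2⟩)
  refine ⟨{x | ∃ q ∈ G, q.1 ≤ x}, ⟨?_, ?_, ?_⟩, ?_, ?_⟩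
  · obtain ⟨q, hq⟩ := hG.1
    exact ⟨q.1, q, hq, le_rfl⟩
  · rintro x ⟨q, hq, hqx⟩ y hxy
    exact ⟨q, hq, hqx.trans hxy⟩
  · rintro x ⟨q, hq, hqx⟩ y ⟨q', hq', hqy⟩
    obtain ⟨r, hr, hr1, hr2⟩ := hG.2.2 q hq q' hq'
    exact ⟨r.1, ⟨r, hr, le_rfl⟩, le_trans hr1 hqx, le_trans hr2 hqy⟩
  · intro i hi
    obtain ⟨q, hq, ⟨p', hp', hqp⟩, _⟩ := hGD i hi
    exact ⟨p', ⟨q, hq, hqp⟩, hp'⟩
  · intro a ha
    obtain ⟨q, hq, _, b, hab, hb, hqb⟩ := hGD a ha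
    exact ⟨b, hab, hb, q, hq, hqb⟩

end Pool.Agent.HCO
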