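import Pool.Agent.HCO.St4

/-!
# HCO [Chain]: existence of a chain of clopen sets accumulating at `x`
-/

set_option autoImplicit false

open Set Topology Cardinal Ordinal Order Filter

universe u v w

namespace Pool.Agent.HCO

section

variable {X : Type u} [TopologicalSpace X]

private def ChainP (x : X) (κ : Cardinal.{u}) : Prop :=
  ∃ (ι : Type u) (A : ι → Set X), #ι = κ ∧ (∀ i, IsClosed (A i) ∧ x ∉ A i) ∧
    x ∈ closure (⋃ i, A i)

private noncomputable def chainK (x : X) (A : Ordinal.{u} → Set X) (i : Ordinal.{u}) : Set X :=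
  Classical.epsilon (fun V => IsClopen V ∧ x ∉ V ∧
    closure {z | ∃ j : Set.Iio i, z ∈ chainK x A j.1} ∪ A i ⊆ V)
termination_by i
decreasing_by exact j.2

private theorem chain_clopen [CompactSpace X] [T2Space X] [TotallyDisconnectedSpace X] {x : X}
    {F : Set X} (hF : IsClosed F) (hx : x ∉ F) : ∃ V : Set X, IsClopen V ∧ x ∉ V ∧ F ⊆ V := by
  obtain ⟨V, hV, hxV, hVF⟩ := compact_exists_isClopen_in_isOpen hF.isOpen_compl hx
  exact ⟨Vᶜ, hV.compl, fun h => h hxV, fun z hz hzV => hVF hzV hz⟩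

/-- fewer than `μ` closed sets -/
private theorem chain_small {x : X} {μ : Cardinal.{u}} (hmin : ∀ κ, ChainP x κ → μ ≤ κ)
    (i : Ordinal.{u}) (hi : i < μ.ord) (B : Ordinal.{u} → Set X)
    (hB : ∀ j < i, IsClosed (B j) ∧ x ∉ B j) : x ∉ closure (Uu B i) := by
  intro hx
  have h1 : μ ≤ i.card := by
    refine hmin _ ⟨i.ToType, fun j => B (Ordinal.ToType.mk.symm j).1, ?_, fun j => ?_, ?_⟩
    · exact Cardinal.mk_toType i
    · exact hB _ (Ordinal.ToType.mk.symm j).2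
    · refine closure_mono ?_ hx
      rintro z ⟨j, hj, hz⟩
      refine mem_iUnion.2 ⟨Ordinal.ToType.mk ⟨j, hj⟩, ?_⟩
      rw [OrderIso.symm_apply_apply]
      exact hz
  exact absurd (Cardinal.lt_ord.1 hi) (not_lt.2 h1)

private theorem chainK_spec [CompactSpace X] [T2Space X] [TotallyDisconnectedSpace X] {x : X}
    {μ : Cardinal.{u}} (hmin : ∀ κ, ChainP x κ → μ ≤ κ) (A : Ordinal.{u} → Set X)
    (hA : ∀ i < μ.ord, IsClosed (A i) ∧ x ∉ A i) (i : Ordinal.{u}) (hi : i < μ.ord) :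
    IsClopen (chainK x A i) ∧ x ∉ chainK x A i ∧
      closure (Uu (chainK x A) i) ∪ A i ⊆ chainK x A i := by
  induction i using WellFoundedLT.induction with
  | _ i ih =>
  have h0 : {z | ∃ j : Set.Iio i, z ∈ chainK x A j.1} = Uu (chainK x A) i := by
    ext z
    constructor
    · rintro ⟨j, hj⟩
      exact ⟨j.1, j.2, hj⟩
    · rintro ⟨j, hj, hz⟩
      exact ⟨⟨j, hj⟩, hz⟩
  have h1 : x ∉ closure (Uu (chainK x A) i) :=
    chain_small hmin i hi _ (fun j hj =>
      ⟨(ih j hj (hj.trans hi)).1.isClosed, (ih j hj (hj.trans hi)).2.1⟩)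
  have h2 : ∃ V : Set X, IsClopen V ∧ x ∉ V ∧
      closure {z | ∃ j : Set.Iio i, z ∈ chainK x A j.1} ∪ A i ⊆ V := by
    rw [h0]
    refine chain_clopen (isClosed_closure.union (hA i hi).1) ?_
    rintro (h | h)
    · exact h1 h
    · exact (hA i hi).2 h
  have h3 := Classical.epsilon_spec h2
  rw [← chainK, h0] at h3
  exact h3

end

theorem thm_Chain (hN : St_NSig.{u}) : St_Chain.{u} := by
  intro X _ _ _ _ x r hM hNB
  classical
  have hx : x ∈ closure ({x}ᶜ : Set X) := by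
    by_contra h
    refine hN X x r hM ⟨fun _ => closure ({x}ᶜ : Set X), fun _ => ⟨isClosed_closure, h⟩,
      fun z hz => ⟨0, subset_closure hz⟩⟩
  have hne : {κ : Cardinal.{u} | ChainP x κ}.Nonempty := by
    refine ⟨#{z : X // z ≠ x}, {z : X // z ≠ x}, fun z => {z.1}, rfl,
      fun z => ⟨isClosed_singleton, fun h => z.2 (mem_singleton_iff.1 h).symm⟩, ?_⟩
    refine closure_mono ?_ hx
    intro z hz
    exact mem_iUnion.2 ⟨⟨z, hz⟩, mem_singleton z⟩
  set μ : Cardinal.{u} := sInf {κ : Cardinal.{u} | ChainP x κ} with hμ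
  have hmin : ∀ κ, ChainP x κ → μ ≤ κ := fun κ hκ => csInf_le' hκ
  obtain ⟨ι, A, hι, hA, hxA⟩ : ChainP x μ := csInf_mem hne
  have hunc : ℵ₀ < μ := by
    by_contra h
    rw [not_lt, ← hι, Cardinal.mk_le_aleph0_iff] at h
    have hK : ∀ i, ∃ V : Set X, IsClopen V ∧ x ∉ V ∧ A i ⊆ V :=
      fun i => chain_clopen (hA i).1 (hA i).2
    choose V hV1 hV2 hV3 using hK
    rcases isEmpty_or_nonempty ι with hem | hem
    · rw [iUnion_of_empty, closure_empty] at hxA
      exact hxA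
    · obtain ⟨f, hf⟩ := exists_surjective_nat ι
      refine hNB (fun n => V (f n)) (fun n => ⟨hV1 _, hV2 _⟩) (closure_mono ?_ hxA)
      intro z hz
      obtain ⟨i, hi⟩ := mem_iUnion.1 hz
      obtain ⟨n, rfl⟩ := hf i
      exact mem_iUnion.2 ⟨n, hV3 _ hi⟩
  obtain ⟨g⟩ : Nonempty (μ.ord.ToType ≃ ι) := by
    rw [← Cardinal.eq, hι, Cardinal.mk_toType, Cardinal.card_ord]
  let A' : Ordinal.{u} → Set X := fun i =>
    if h : i < μ.ord then A (g (Ordinal.ToType.mk ⟨i, h⟩)) else ∅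
  have hA' : ∀ i < μ.ord, IsClosed (A' i) ∧ x ∉ A' i := by
    intro i hi
    simp only [A', dif_pos hi]
    exact hA _
  have hsp := chainK_spec hmin A' hA'
  have hmono : ∀ a b, a ≤ b → b < μ.ord → chainK x A' a ⊆ chainK x A' b := by
    intro a b hab hb
    rcases hab.eq_or_lt with rfl | hlt
    · exact subset_rfl
    · intro z hz
      exact (hsp b hb).2.2 (Or.inl (subset_closure ⟨a, hlt, hz⟩))
  have hxU : x ∈ closure (Uu (chainK x A') μ.ord) := by
    refine closure_mono ?_ hxA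
    intro z hz
    obtain ⟨i, hi⟩ := mem_iUnion.1 hz
    obtain ⟨j, rfl⟩ := g.surjective i
    have hj : (Ordinal.ToType.mk.symm j).1 < μ.ord := (Ordinal.ToType.mk.symm j).2
    refine ⟨(Ordinal.ToType.mk.symm j).1, hj, (hsp _ hj).2.2 (Or.inr ?_)⟩
    simp only [A', dif_pos hj]
    rw [Subtype.coe_eta, OrderIso.apply_symm_apply]
    exact hi
  refine ⟨μ, chainK x A', ⟨hunc.le, ?_⟩, hunc, ⟨fun a ha => (hsp a ha).1,
    fun a ha => (hsp a ha).2.1, hmono, fun l hl z hz => (hsp l hl).2.2 (Or.inl hz)⟩, hxU⟩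
  obtain ⟨ι', f, hf, hι'⟩ := Ordinal.exists_lsub_cof μ.ord
  rw [← hι']
  refine hmin _ ⟨ι', fun i => chainK x A' (f i), rfl, fun i => ?_, ?_⟩
  · have hi : f i < μ.ord := by
      rw [← hf]
      exact Ordinal.lt_lsub f i
    exact ⟨(hsp _ hi).1.isClosed, (hsp _ hi).2.1⟩
  · refine closure_mono ?_ hxU
    rintro z ⟨a, ha, hz⟩
    rw [← hf, Ordinal.lt_lsub_iff] at ha
    obtain ⟨i, hi⟩ := ha
    have hi' : f i < μ.ord := by
      rw [← hf]
      exact Ordinal.lt_lsub f i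
    exact mem_iUnion.2 ⟨i, hmono _ _ hi hi' hz⟩

end Pool.Agent.HCO
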