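import Pool.Agent.HCO.St4

/-!
# Club calculus
-/

set_option autoImplicit false

open Set Topology Cardinal Ordinal Order Filter

universe u v w

namespace Pool.Agent.HCO

private theorem Club_supT (o : Ordinal.{u}) (ι : Type u) (f : ι → Ordinal.{u}) (hc : #ι < o.cof)
    (hf : ∀ i, f i < o) : ∃ c < o, ∀ i, f i < c := by
  refine ⟨⨆ i, f i + 1, Ordinal.iSup_add_one_lt_of_lt_cof hc hf, fun i => ?_⟩
  exact Ordinal.lt_iSup_add_one f i

private theorem Club_sup (o b : Ordinal.{u}) (f : Ordinal.{u} → Ordinal.{u})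
    (hb : b.card < o.cof) (hf : ∀ i < b, f i < o) : ∃ c < o, ∀ i < b, f i < c := by
  refine ⟨⨆ i : Set.Iio b, f i.1 + 1, ?_, fun i hi => ?_⟩
  · apply Ordinal.lift_iSup_add_one_lt_of_lt_cof
    · rw [Cardinal.lift_id'.{u, u + 1}, Cardinal.mk_Iio_ordinal, ← Ordinal.lift_cof,
        Cardinal.lift_lt]
      exact hb
    · intro i
      exact hf i.1 i.2
  · exact Ordinal.lt_iSup_add_one (fun i : Set.Iio b => f i.1) ⟨i, hi⟩

private theorem Club_supN (o : Ordinal.{u}) (f : ℕ → Ordinal.{u}) (hc : ℵ₀ < o.cof)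
    (hf : ∀ i, f i < o) : ∃ c < o, ∀ i, f i < c := by
  obtain ⟨c, hco, h⟩ := Club_supT o (ULift.{u} ℕ) (fun n => f n.down) (by simpa using hc)
    (fun i => hf i.down)
  exact ⟨c, hco, fun i => h ⟨i⟩⟩

private theorem Club_iter (o : Ordinal.{u}) (ho : ℵ₀ < o.cof) (f : Ordinal.{u} → Ordinal.{u})
    (hf : ∀ x < o, f x < o) (b : Ordinal.{u}) (hb : b < o) :
    ∃ l < o, IsSuccLimit l ∧ l.cof = ℵ₀ ∧ b < l ∧ ∀ y < l, ∃ z, y < z ∧ z < l ∧ f z < l := by
  have hlim : IsSuccLimit o := Ordinal.one_lt_cof_iff.1 (Cardinal.one_lt_aleph0.trans ho)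
  let g : Ordinal.{u} → Ordinal.{u} := fun x => max (succ x) (f x)
  have hg : ∀ x < o, g x < o := fun x hx => max_lt (hlim.succ_lt hx) (hf x hx)
  have hit : ∀ n, g^[n] b < o := by
    intro n
    induction n with
    | zero => exact hb
    | succ n ih => rw [Function.iterate_succ_apply']; exact hg _ ih
  have hlt : ∀ n, g^[n] b < g^[n+1] b := by
    intro n
    rw [Function.iterate_succ_apply']
    exact (lt_succ _).trans_le (le_max_left _ _)
  have hmono : StrictMono (fun n => g^[n] b) := strictMono_nat_of_lt_succ hlt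
  obtain ⟨c, hco, hc⟩ := Club_supN o (fun n => g^[n] b) ho hit
  have hbdd : BddAbove (Set.range (fun n => g^[n] b)) := by
    refine ⟨c, ?_⟩
    rintro _ ⟨n, rfl⟩
    exact (hc n).le
  have hle : ∀ n, g^[n] b < ⨆ n, g^[n] b := fun n =>
    (hlt n).trans_le (le_ciSup hbdd (n+1))
  have hcof : (⨆ n, g^[n] b).cof = ℵ₀ := by
    have := Ordinal.lift_cof_iSup hmono
    simpa using this
  refine ⟨⨆ n, g^[n] b, (ciSup_le fun n => (hc n).le).trans_lt hco,
    Ordinal.one_lt_cof_iff.1 (by rw [hcof]; exact Cardinal.one_lt_aleph0), hcof, hle 0, fun y hy => ?_⟩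
  obtain ⟨n, hn⟩ := (lt_ciSup_iff hbdd).1 hy
  refine ⟨g^[n] b, hn, hle n, ?_⟩
  refine lt_of_le_of_lt ?_ (hle (n+1))
  rw [Function.iterate_succ_apply']
  exact le_max_right _ _

private theorem Club_next (o : Ordinal.{u}) (C : Set Ordinal.{u}) (hC : Club o C) :
    ∃ f : Ordinal.{u} → Ordinal.{u}, ∀ x < o, f x ∈ C ∧ x < f x := by
  classical
  have : ∀ x : Ordinal.{u}, ∃ c, x < o → c ∈ C ∧ x < c := by
    intro x
    by_cases hx : x < o
    · obtain ⟨c, hc, h⟩ := hC.2.1 x hx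
      exact ⟨c, fun _ => ⟨hc, h⟩⟩
    · exact ⟨0, fun h => (hx h).elim⟩
  choose f hf using this
  exact ⟨f, hf⟩

private theorem Club_intersT (o : Ordinal.{u}) (ι : Type u) (C : ι → Set Ordinal.{u})
    (ho : ℵ₀ < o.cof) (hι : #ι < o.cof) (hC : ∀ i, Club o (C i)) :
    Club o {a | a < o ∧ ∀ i, a ∈ C i} := by
  have hlim : IsSuccLimit o := Ordinal.one_lt_cof_iff.1 (Cardinal.one_lt_aleph0.trans ho)
  refine ⟨fun a ha => ha.1, ?_, ?_⟩
  · intro b hb
    choose nx hnx using fun i => Club_next o (C i) (hC i)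
    have : ∀ x : Ordinal.{u}, ∃ c, x < o → c < o ∧ ∀ i, nx i x < c := by
      intro x
      by_cases hx : x < o
      · obtain ⟨c, hc, h⟩ := Club_supT o ι (fun i => nx i x) hι
          (fun i => (hC i).1 _ (hnx i x hx).1)
        exact ⟨c, fun _ => ⟨hc, h⟩⟩
      · exact ⟨0, fun h => (hx h).elim⟩
    choose f hf using this
    obtain ⟨l, hlo, hl, _, hbl, h⟩ := Club_iter o ho f (fun x hx => (hf x hx).1) b hb
    refine ⟨l, ⟨hlo, fun i => (hC i).2.2 l hlo hl ?_⟩, hbl⟩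
    intro y hy
    obtain ⟨z, hyz, hzl, hfz⟩ := h y hy
    have hzo := hzl.trans hlo
    exact ⟨nx i z, (hnx i z hzo).1, hyz.trans (hnx i z hzo).2, ((hf z hzo).2 i).trans hfz⟩
  · intro l hlo hl h
    refine ⟨hlo, fun i => (hC i).2.2 l hlo hl ?_⟩
    intro b hb
    obtain ⟨c, hc, h1, h2⟩ := h b hb
    exact ⟨c, hc.2 i, h1, h2⟩

private theorem Club_inter (o : Ordinal.{u}) (C D : Set Ordinal.{u}) (ho : ℵ₀ < o.cof)
    (hC : Club o C) (hD : Club o D) : Club o (C ∩ D) := by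
  have := Club_intersT o (ULift.{u} Bool) (fun i => if i.down then C else D) ho
    ((by simp : #(ULift.{u} Bool) < ℵ₀).trans ho) (by
      intro i
      by_cases hi : i.down = true
      · simpa [hi] using hC
      · simpa [hi] using hD)
  have he : {a | a < o ∧ ∀ i : ULift.{u} Bool, a ∈ (if i.down = true then C else D)} = C ∩ D := by
    ext a
    constructor
    · rintro ⟨_, h⟩
      exact ⟨by simpa using h ⟨true⟩, by simpa using h ⟨false⟩⟩
    · rintro ⟨h1, h2⟩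
      refine ⟨hC.1 a h1, fun i => ?_⟩
      by_cases hi : i.down = true
      · simpa [hi] using h1
      · simpa [hi] using h2
  rw [he] at this
  exact this

private theorem Club_inters (o b : Ordinal.{u}) (C : Ordinal.{u} → Set Ordinal.{u})
    (ho : ℵ₀ < o.cof) (hb : b.card < o.cof) (hC : ∀ i < b, Club o (C i)) :
    Club o {a | a < o ∧ ∀ i < b, a ∈ C i} := by
  have := Club_intersT o b.ToType (fun i => C (Ordinal.ToType.mk.symm i).1) ho
    (by simpa using hb) (fun i => hC _ (Ordinal.ToType.mk.symm i).2)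
  have he : {a | a < o ∧ ∀ i : b.ToType, a ∈ C (Ordinal.ToType.mk.symm i).1} =
      {a | a < o ∧ ∀ i < b, a ∈ C i} := by
    ext a
    constructor
    · rintro ⟨h1, h2⟩
      refine ⟨h1, fun i hi => ?_⟩
      have := h2 (Ordinal.ToType.mk ⟨i, hi⟩)
      simpa using this
    · rintro ⟨h1, h2⟩
      exact ⟨h1, fun i => h2 _ (Ordinal.ToType.mk.symm i).2⟩
  rw [he] at this
  exact this

private theorem Club_intersN (o : Ordinal.{u}) (C : ℕ → Set Ordinal.{u}) (ho : ℵ₀ < o.cof)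
    (hC : ∀ i, Club o (C i)) : Club o {a | a < o ∧ ∀ i, a ∈ C i} := by
  have := Club_intersT o (ULift.{u} ℕ) (fun i => C i.down) ho (by simpa using ho)
    (fun i => hC i.down)
  have he : {a | a < o ∧ ∀ i : ULift.{u} ℕ, a ∈ C i.down} = {a | a < o ∧ ∀ i, a ∈ C i} := by
    ext a
    constructor
    · rintro ⟨h1, h2⟩
      exact ⟨h1, fun i => h2 ⟨i⟩⟩
    · rintro ⟨h1, h2⟩
      exact ⟨h1, fun i => h2 i.down⟩
  rw [he] at this
  exact this

private theorem Club_card {μ : Cardinal.{u}} (hμ : μ.IsRegular) {x : Ordinal.{u}}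
    (hx : x < μ.ord) : x.card < μ.ord.cof := by
  rw [hμ.cof_ord]
  exact Cardinal.lt_ord.1 hx

private theorem Club_diag (μ : Cardinal.{u}) (C : Ordinal.{u} → Set Ordinal.{u})
    (hμ : μ.IsRegular) (hu : ℵ₀ < μ) (hC : ∀ i < μ.ord, Club μ.ord (C i)) :
    Club μ.ord {a | a < μ.ord ∧ ∀ i < a, a ∈ C i} := by
  have ho : ℵ₀ < μ.ord.cof := by rw [hμ.cof_ord]; exact hu
  refine ⟨fun a ha => ha.1, ?_, ?_⟩
  · intro b hb
    have h0 : ∀ i : Ordinal.{u}, ∃ f : Ordinal.{u} → Ordinal.{u}, i < μ.ord →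
        ∀ x < μ.ord, f x ∈ C i ∧ x < f x := by
      intro i
      by_cases hi : i < μ.ord
      · obtain ⟨f, hf⟩ := Club_next μ.ord (C i) (hC i hi)
        exact ⟨f, fun _ => hf⟩
      · exact ⟨fun _ => 0, fun h => (hi h).elim⟩
    choose nx hnx using h0
    have : ∀ x : Ordinal.{u}, ∃ c, x < μ.ord → c < μ.ord ∧ ∀ i < x, nx i x < c := by
      intro x
      by_cases hx : x < μ.ord
      · obtain ⟨c, hc, h⟩ := Club_sup μ.ord x (fun i => nx i x) (Club_card hμ hx)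
          (fun i hi => (hC i (hi.trans hx)).1 _ (hnx i (hi.trans hx) x hx).1)
        exact ⟨c, fun _ => ⟨hc, h⟩⟩
      · exact ⟨0, fun h => (hx h).elim⟩
    choose f hf using this
    obtain ⟨l, hlo, hl, _, hbl, h⟩ := Club_iter μ.ord ho f (fun x hx => (hf x hx).1) b hb
    refine ⟨l, ⟨hlo, fun i hi => (hC i (hi.trans hlo)).2.2 l hlo hl ?_⟩, hbl⟩
    intro y hy
    obtain ⟨z, hyz, hzl, hfz⟩ := h (max y i) (max_lt hy hi)
    have hzo := hzl.trans hlo
    have hiz : i < z := (le_max_right _ _).trans_lt hyz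
    have h3 := hnx i (hi.trans hlo) z hzo
    exact ⟨nx i z, h3.1, ((le_max_left _ _).trans_lt hyz).trans h3.2,
      ((hf z hzo).2 i hiz).trans hfz⟩
  · intro l hlo hl h
    refine ⟨hlo, fun i hi => (hC i (hi.trans hlo)).2.2 l hlo hl ?_⟩
    intro b hb
    obtain ⟨c, hc, h1, h2⟩ := h (max b i) (max_lt hb hi)
    exact ⟨c, hc.2 i ((le_max_right _ _).trans_lt h1), (le_max_left _ _).trans_lt h1, h2⟩

private theorem Club_lim (o : Ordinal.{u}) (C : Set Ordinal.{u}) (ho : ℵ₀ < o.cof)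
    (hC : Club o C) : Club o {a | a < o ∧ IsSuccLimit a ∧ ∀ b < a, ∃ c ∈ C, b < c ∧ c < a} := by
  refine ⟨fun a ha => ha.1, ?_, ?_⟩
  · intro b hb
    obtain ⟨f, hf⟩ := Club_next o C hC
    obtain ⟨l, hlo, hl, _, hbl, h⟩ := Club_iter o ho f (fun x hx => hC.1 _ (hf x hx).1) b hb
    refine ⟨l, ⟨hlo, hl, fun y hy => ?_⟩, hbl⟩
    obtain ⟨z, hyz, hzl, hfz⟩ := h y hy
    have hzo := hzl.trans hlo
    exact ⟨f z, (hf z hzo).1, hyz.trans (hf z hzo).2, hfz⟩
  · intro l hlo hl h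
    refine ⟨hlo, hl, fun b hb => ?_⟩
    obtain ⟨c, hc, h1, h2⟩ := h b hb
    obtain ⟨d, hd, h3, h4⟩ := hc.2.2 b h1
    exact ⟨d, hd, h3, h4.trans h2⟩

private theorem Club_fnm (o : Ordinal.{u}) (f : Ordinal.{u} → Ordinal.{u}) (ho : ℵ₀ < o.cof)
    (hf : ∀ a < o, f a < o) (hm : ∀ a b, a ≤ b → b < o → f a ≤ f b) :
    Club o {a | a < o ∧ IsSuccLimit a ∧ ∀ b < a, f b < a} := by
  refine ⟨fun a ha => ha.1, ?_, ?_⟩
  · intro b hb
    obtain ⟨l, hlo, hl, _, hbl, h⟩ := Club_iter o ho f hf b hb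
    refine ⟨l, ⟨hlo, hl, fun y hy => ?_⟩, hbl⟩
    obtain ⟨z, hyz, hzl, hfz⟩ := h y hy
    exact (hm y z hyz.le (hzl.trans hlo)).trans_lt hfz
  · intro l hlo hl h
    refine ⟨hlo, hl, fun b hb => ?_⟩
    obtain ⟨c, hc, h1, h2⟩ := h b hb
    exact (hc.2.2 b h1).trans h2

private theorem Club_fn (μ : Cardinal.{u}) (f : Ordinal.{u} → Ordinal.{u}) (hμ : μ.IsRegular)
    (hu : ℵ₀ < μ) (hf : ∀ a < μ.ord, f a < μ.ord) :
    Club μ.ord {a | a < μ.ord ∧ IsSuccLimit a ∧ ∀ b < a, f b < a} := by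
  have ho : ℵ₀ < μ.ord.cof := by rw [hμ.cof_ord]; exact hu
  have hlim : IsSuccLimit μ.ord := Ordinal.one_lt_cof_iff.1 (Cardinal.one_lt_aleph0.trans ho)
  refine ⟨fun a ha => ha.1, ?_, ?_⟩
  · intro b hb
    have : ∀ x : Ordinal.{u}, ∃ c, x < μ.ord → c < μ.ord ∧ ∀ i < x, f i < c := by
      intro x
      by_cases hx : x < μ.ord
      · obtain ⟨c, hc, h⟩ := Club_sup μ.ord x f (Club_card hμ hx)
          (fun i hi => hf i (hi.trans hx))
        exact ⟨c, fun _ => ⟨hc, h⟩⟩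
      · exact ⟨0, fun h => (hx h).elim⟩
    choose g hg using this
    obtain ⟨l, hlo, hl, _, hbl, h⟩ := Club_iter μ.ord ho g (fun x hx => (hg x hx).1) b hb
    refine ⟨l, ⟨hlo, hl, fun y hy => ?_⟩, hbl⟩
    obtain ⟨z, hyz, hzl, hfz⟩ := h y hy
    exact ((hg z (hzl.trans hlo)).2 y hyz).trans hfz
  · intro l hlo hl h
    refine ⟨hlo, hl, fun b hb => ?_⟩
    obtain ⟨c, hc, h1, h2⟩ := h b hb
    exact (hc.2.2 b h1).trans h2

private theorem Club_cofw (o : Ordinal.{u}) (C : Set Ordinal.{u}) (ho : ℵ₀ < o.cof)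
    (hC : Club o C) : ∃ a ∈ C, a < o ∧ IsSuccLimit a ∧ a.cof = ℵ₀ := by
  obtain ⟨f, hf⟩ := Club_next o C hC
  have h0 : 0 < o := by
    have hlim : IsSuccLimit o := Ordinal.one_lt_cof_iff.1 (Cardinal.one_lt_aleph0.trans ho)
    exact hlim.bot_lt
  obtain ⟨l, hlo, hl, hcl, hbl, h⟩ := Club_iter o ho f (fun x hx => hC.1 _ (hf x hx).1) 0 h0
  refine ⟨l, hC.2.2 l hlo hl fun y hy => ?_, hlo, hl, hcl⟩
  obtain ⟨z, hyz, hzl, hfz⟩ := h y hy
  have hzo := hzl.trans hlo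
  exact ⟨f z, (hf z hzo).1, hyz.trans (hf z hzo).2, hfz⟩

private theorem Club_cofw1 (μ : Cardinal.{u}) (C : Set Ordinal.{u}) (hμ : μ.IsRegular)
    (hu : ℵ₁ < μ) (hC : Club μ.ord C) :
    ∃ a ∈ C, a < μ.ord ∧ IsSuccLimit a ∧ a.cof = ℵ₁ := by
  have ho : ℵ₀ < μ.ord.cof := by
    rw [hμ.cof_ord]; exact Cardinal.aleph0_lt_aleph_one.trans hu
  have hlim : IsSuccLimit μ.ord := Ordinal.one_lt_cof_iff.1 (Cardinal.one_lt_aleph0.trans ho)
  have h0 : 0 < μ.ord := hlim.bot_lt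
  obtain ⟨f, hf⟩ := Club_next μ.ord C hC
  have hsup : ∀ (b : Ordinal.{u}) (g : Ordinal.{u} → Ordinal.{u}), ∃ c, (b < μ.ord →
      (∀ i < b, g i < μ.ord) → c < μ.ord ∧ ∀ i < b, g i < c) := by
    intro b g
    by_cases h : b < μ.ord ∧ ∀ i < b, g i < μ.ord
    · obtain ⟨c, hc, h⟩ := Club_sup μ.ord b g (Club_card hμ h.1) h.2
      exact ⟨c, fun _ _ => ⟨hc, h⟩⟩
    · exact ⟨0, fun h1 h2 => (h ⟨h1, h2⟩).elim⟩
  choose s hs using hsup
  -- recursion
  have hrec : ∃ g : Ordinal.{u} → Ordinal.{u}, ∀ a, g a = f (s a (fun i => if i < a then g i else 0)) := by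
    refine ⟨fun a => WellFounded.fix (C := fun _ => Ordinal.{u}) Ordinal.lt_wf
      (fun a ih => f (s a (fun i => open Classical in if h : i < a then ih i h else 0))) a, ?_⟩
    intro a
    beta_reduce
    rw [WellFounded.fix_eq]
    congr 2
  obtain ⟨g, hg⟩ := hrec
  have key : ∀ a < μ.ord, g a ∈ C ∧ ∀ i < a, g i < g a := by
    intro a
    induction a using WellFoundedLT.induction with
    | _ a ih =>
      intro ha
      have hi : ∀ i < a, (fun i => if i < a then g i else 0) i < μ.ord := by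
        intro i hi
        simp only [hi, if_true]
        exact hC.1 _ (ih i hi (hi.trans ha)).1
      obtain ⟨h1, h2⟩ := hs a (fun i => if i < a then g i else 0) ha hi
      obtain ⟨h3, h4⟩ := hf _ h1
      rw [← hg a] at h3 h4
      refine ⟨h3, fun i hi => ?_⟩
      have := h2 i hi
      simp only [hi, if_true] at this
      exact this.trans h4
  have hw : (ω₁ : Ordinal.{u}) < μ.ord := by
    rw [← Cardinal.ord_aleph]
    exact Cardinal.ord_lt_ord.2 hu
  have hwl : IsSuccLimit (ω₁ : Ordinal.{u}) := by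
    rw [← Ordinal.one_lt_cof_iff, ← Cardinal.ord_aleph, Cardinal.isRegular_aleph_one.cof_ord]
    exact Cardinal.one_lt_aleph0.trans Cardinal.aleph0_lt_aleph_one
  obtain ⟨c, hco, hc⟩ := Club_sup μ.ord ω₁ g (Club_card hμ hw)
    (fun i hi => hC.1 _ (key i (hi.trans hw)).1)
  have hmono : StrictMono (fun i : Set.Iio (ω₁ : Ordinal.{u}) => g i.1) := by
    intro i j hij
    exact (key j.1 ((show j.1 < _ from j.2).trans hw)).2 i.1 hij
  have hbdd : BddAbove (Set.range (fun i : Set.Iio (ω₁ : Ordinal.{u}) => g i.1)) := by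
    refine ⟨c, ?_⟩
    rintro _ ⟨n, rfl⟩
    exact (hc n.1 n.2).le
  have hcof : (⨆ i : Set.Iio (ω₁ : Ordinal.{u}), g i.1).cof = ℵ₁ := by
    rw [Ordinal.cof_iSup_Iio hmono hwl.isSuccPrelimit, ← Cardinal.ord_aleph,
      Cardinal.isRegular_aleph_one.cof_ord]
  have hle : ∀ i : Set.Iio (ω₁ : Ordinal.{u}), g i.1 < ⨆ i : Set.Iio (ω₁ : Ordinal.{u}), g i.1 := by
    intro i
    have h1 : succ i.1 < ω₁ := hwl.succ_lt i.2
    exact lt_of_lt_of_le (hmono (show i < ⟨succ i.1, h1⟩ from lt_succ i.1)) (le_ciSup hbdd ⟨succ i.1, h1⟩)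
  have : Nonempty (Set.Iio (ω₁ : Ordinal.{u})) := ⟨⟨0, hwl.bot_lt⟩⟩
  have hlt : (⨆ i : Set.Iio (ω₁ : Ordinal.{u}), g i.1) < μ.ord :=
    (ciSup_le (fun n : Set.Iio (ω₁ : Ordinal.{u}) => (hc n.1 n.2).le)).trans_lt hco
  have hll : IsSuccLimit (⨆ i : Set.Iio (ω₁ : Ordinal.{u}), g i.1) :=
    Ordinal.one_lt_cof_iff.1 (by
      rw [hcof]; exact Cardinal.one_lt_aleph0.trans Cardinal.aleph0_lt_aleph_one)
  refine ⟨⨆ i : Set.Iio (ω₁ : Ordinal.{u}), g i.1, hC.2.2 _ hlt hll ?_, hlt, hll, hcof⟩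
  intro b hb
  obtain ⟨i, hi⟩ := (lt_ciSup_iff hbdd).1 hb
  exact ⟨g i.1, (key i.1 ((show i.1 < _ from i.2).trans hw)).1, hi, hle i⟩

private theorem Club_statInter (o : Ordinal.{u}) (S C : Set Ordinal.{u}) (ho : ℵ₀ < o.cof)
    (hS : Stat o S) (hC : Club o C) : Stat o (S ∩ C) := by
  intro D hD
  obtain ⟨a, h1, h2, h3⟩ := hS _ (Club_inter o C D ho hC hD)
  exact ⟨a, ⟨h1, h2⟩, h3⟩

private theorem Club_split (o : Ordinal.{u}) (S : ℕ → Set Ordinal.{u}) (ho : ℵ₀ < o.cof)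
    (hS : Stat o (⋃ n, S n)) : ∃ n, Stat o (S n) := by
  by_contra hcon
  push Not at hcon
  have h : ∀ n, ∃ D, Club o D ∧ ∀ a ∈ S n, a ∉ D := by
    intro n
    have := hcon n
    unfold Stat at this
    push Not at this
    exact this
  choose D hD hno using h
  obtain ⟨a, ha, has⟩ := hS _ (Club_intersN o D ho hD)
  obtain ⟨n, hn⟩ := Set.mem_iUnion.1 ha
  exact hno n a hn (has.2 n)

private theorem Club_fodor (μ : Cardinal.{u}) (S : Set Ordinal.{u})
    (f : Ordinal.{u} → Ordinal.{u}) (hμ : μ.IsRegular) (hu : ℵ₀ < μ) (hS : Stat μ.ord S)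
    (hf : ∀ a ∈ S, f a < a) : ∃ b < μ.ord, Stat μ.ord {a | a ∈ S ∧ f a = b} := by
  by_contra hcon
  push Not at hcon
  have h : ∀ b, ∃ D, b < μ.ord → Club μ.ord D ∧ ∀ a ∈ D, a ∈ S → f a ≠ b := by
    intro b
    by_cases hb : b < μ.ord
    · have := hcon b hb
      unfold Stat at this
      push Not at this
      obtain ⟨D, hD, h⟩ := this
      exact ⟨D, fun _ => ⟨hD, fun a ha hs' hfa => h a ⟨hs', hfa⟩ ha⟩⟩
    · exact ⟨∅, fun h => (hb h).elim⟩
  choose D hD using h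
  obtain ⟨a, has, ha⟩ := hS _ (Club_diag μ D hμ hu (fun b hb => (hD b hb).1))
  exact (hD (f a) ((hf a has).trans ha.1)).2 a (ha.2 (f a) (hf a has)) has rfl

theorem thm_Club : St_Club.{u} where
  sup := fun o b f hb hf _ => Club_sup o b f hb hf
  supT := fun o ι f hb hf _ => Club_supT o ι f hb hf
  supN := fun o f hb hf => Club_supN o f hb hf
  univ := fun o ho => by
    refine ⟨fun a ha => ha, fun b hb => ⟨succ b, ho.succ_lt hb, lt_succ b⟩, fun l hl _ _ => hl⟩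
  inter := Club_inter
  inters := Club_inters
  intersN := Club_intersN
  diag := Club_diag
  lim := Club_lim
  fn := Club_fn
  fnm := Club_fnm
  cofw := Club_cofw
  cofw1 := Club_cofw1
  statInter := Club_statInter
  split := Club_split
  fodor := Club_fodor

end Pool.Agent.HCO
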