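import Mathlib

/-!
# Hereditarily c.o. compact spaces (MP_5b5309_lc): definitions

Everything lives in `Type u`; ordinals and cardinals are `Ordinal.{u}`, `Cardinal.{u}`.
-/

set_option autoImplicit false

open Set Topology Cardinal Ordinal Order Filter

universe u v

namespace Pool.Agent.HCO

/-! ## Spaces -/

/-- the c.o. property: every closed subspace is homeomorphic to a clopen subspace -/
def IsCO (Z : Type u) [TopologicalSpace Z] : Prop :=
  ∀ F : Set Z, IsClosed F → ∃ U : Set Z, IsClopen U ∧ Nonempty (F ≃ₜ U)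

/-- every infinite closed subspace is a c.o. space -/
def HCO (X : Type u) [TopologicalSpace X] : Prop :=
  ∀ F : Set X, IsClosed F → F.Infinite → IsCO F

/-! ## Stationary sets -/

/-- `w1` is the ordinal `ω₁` -/
noncomputable def w1 : Ordinal.{u} := (Cardinal.aleph 1).ord

/-- `C` is closed and unbounded in the ordinal `o` -/
def Club (o : Ordinal.{u}) (C : Set Ordinal.{u}) : Prop :=
  (∀ a ∈ C, a < o) ∧ (∀ b < o, ∃ c ∈ C, b < c) ∧
    ∀ l < o, IsSuccLimit l → (∀ b < l, ∃ c ∈ C, b < c ∧ c < l) → l ∈ C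

/-- `S` meets every closed unbounded subset of `o` -/
def Stat (o : Ordinal.{u}) (S : Set Ordinal.{u}) : Prop :=
  ∀ C, Club o C → ∃ a ∈ S, a ∈ C

/-! ## Martin's Maximum -/

section Forcing

variable {P : Type v} [Preorder P]

/-- a dense set of conditions -/
def DenseP (D : Set P) : Prop := ∀ p, ∃ q ≤ p, q ∈ D

/-- a filter of conditions -/
def IsFilt (G : Set P) : Prop :=
  G.Nonempty ∧ (∀ p ∈ G, ∀ q, p ≤ q → q ∈ G) ∧ ∀ p ∈ G, ∀ q ∈ G, ∃ r ∈ G, r ≤ p ∧ r ≤ q

end Forcing

/-- `P` preserves stationary subsets of `ω₁`: let `S ⊆ ω₁` be stationary and let `R` be (a name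
for) a total relation on `ω₁`, where `R p a b` means that `p` forces that `a` and `b` are related
(so this passes to stronger conditions, and densely many conditions relate `a` to some `b < ω₁`);
then every condition `p` has an extension `q` and there is a limit `d ∈ S` such that `q` forces that
every `a < d` is related to some `b < d`. -/
def SSP (P : Type v) [Preorder P] : Prop :=
  ∀ S : Set Ordinal.{u}, Stat w1 S → ∀ R : P → Ordinal.{u} → Ordinal.{u} → Prop,
    (∀ p q a b, q ≤ p → R p a b → R q a b) →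
    (∀ p, ∀ a < w1, ∃ q ≤ p, ∃ b < w1, R q a b) →
    ∀ p, ∃ q ≤ p, ∃ d ∈ S, d < w1 ∧ IsSuccLimit d ∧
      ∀ a < d, ∀ r ≤ q, ∃ s ≤ r, ∃ b < d, R s a b

/-- Martin's Maximum, for posets in `Type u` -/
def MM : Prop :=
  ∀ (P : Type u) [Preorder P] [Nonempty P], SSP.{u, u} P →
    ∀ D : Ordinal.{u} → Set P, (∀ i < w1, DenseP (D i)) →
      ∃ G : Set P, IsFilt G ∧ ∀ i < w1, ∃ p ∈ G, p ∈ D i

/-! ## Derivatives and ordinal subspaces -/

section Top

variable {X : Type u} [TopologicalSpace X]

/-- the Cantor-Bendixson derivatives of a subset `F` of `X` -/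
noncomputable def der (F : Set X) (d : Ordinal.{u}) : Set X :=
  {z | z ∈ F ∧ ∀ e : Set.Iio d, AccPt z (𝓟 (der F e.1))}
termination_by d
decreasing_by exact e.2

/-- `f` well orders `F` and the closed initial segments are traces of clopen sets -/
def OrdOn (F : Set X) (f : X → Ordinal.{u}) : Prop :=
  Set.InjOn f F ∧ ∀ a ∈ F, ∃ O : Set X, IsClopen O ∧ ∀ z ∈ F, (z ∈ O ↔ f z ≤ f a)

/-- `F` carries a well order with clopen closed initial segments; for closed `F` in a zero
dimensional compact space: `F` is empty or homeomorphic to a successor ordinal -/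
def IsOrd (F : Set X) : Prop := ∃ f : X → Ordinal.{u}, OrdOn F f

/-- `p` is a point of countable character of `F` (for closed `F`) -/
def Cnt (F : Set X) (p : X) : Prop :=
  ∃ O : ℕ → Set X, (∀ n, IsClopen (O n) ∧ p ∈ O n) ∧ ∀ z ∈ F, (∀ n, z ∈ O n) → z = p

/-- every nonempty closed set has an isolated point -/
def Scat (X : Type u) [TopologicalSpace X] : Prop :=
  ∀ F : Set X, IsClosed F → F.Nonempty → ∃ z ∈ F, ¬ AccPt z (𝓟 F)

/-- a minimal counterexample -/
structure Min (X : Type u) [TopologicalSpace X] [CompactSpace X] [T2Space X]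
    [TotallyDisconnectedSpace X] (x : X) (r : Ordinal.{u}) : Prop where
  hco : HCO X
  scat : Scat X
  top : der (univ : Set X) r = {x}
  nord : ¬ IsOrd (univ : Set X)
  small : ∀ F : Set X, IsClosed F → x ∉ der F r → IsOrd F

/-- a countable family of compact open subsets of `X \ {x}` -/
def Sig (x : X) (K : ℕ → Set X) : Prop := ∀ n, IsClopen (K n) ∧ x ∉ K n

/-! ## Filtrations -/

/-- the union of the first `l` pieces -/
def Uu (K : Ordinal.{u} → Set X) (l : Ordinal.{u}) : Set X := {z | ∃ a < l, z ∈ K a}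

/-- the boundary of `Uu K l` -/
def Bd (K : Ordinal.{u} → Set X) (l : Ordinal.{u}) : Set X := closure (Uu K l) \ Uu K l

/-- the height of a point -/
noncomputable def ht (K : Ordinal.{u} → Set X) (z : X) : Ordinal.{u} := sInf {a | z ∈ K a}

/-- a filtration of length `o` of `X \ {x}` by compact open sets, not required to cover -/
structure PreFilt (x : X) (o : Ordinal.{u}) (K : Ordinal.{u} → Set X) : Prop where
  clopen : ∀ a < o, IsClopen (K a)
  notin : ∀ a < o, x ∉ K a
  mono : ∀ a b, a ≤ b → b < o → K a ⊆ K b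
  cl : ∀ l < o, closure (Uu K l) ⊆ K l

/-- a filtration of `X \ {x}` of length a regular uncountable cardinal `μ` -/
structure Filt (x : X) (μ : Cardinal.{u}) (K : Ordinal.{u} → Set X) : Prop
    extends PreFilt x μ.ord K where
  reg : μ.IsRegular
  unc : ℵ₀ < μ
  cover : ∀ z, z ≠ x → ∃ a < μ.ord, z ∈ K a

/-- a filtration with large differences -/
structure FFilt (x : X) (r : Ordinal.{u}) (μ : Cardinal.{u}) (K : Ordinal.{u} → Set X) : Prop
    extends Filt x μ K where
  strict : ∀ a < μ.ord, (K (a + 1) \ K a).Nonempty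
  full : ∀ s < r, ∃ b < μ.ord, ∀ a, b ≤ a → a < μ.ord →
    (der (univ : Set X) s ∩ (K (a + 1) \ K a)).Nonempty

/-- `c` retracts `closure (Uu K l)` continuously onto the finite boundary `Bd K l` -/
def Retr (K : Ordinal.{u} → Set X) (l : Ordinal.{u}) (c : X → X) : Prop :=
  (∀ p ∈ Bd K l, c p = p) ∧ (∀ z ∈ closure (Uu K l), c z ∈ Bd K l) ∧
    ∀ p ∈ Bd K l, ∃ N : Set X, IsClopen N ∧ ∀ z ∈ closure (Uu K l), (z ∈ N ↔ c z = p)

end Top

/-! ## Closed unbounded many countable sets -/

/-- `A` holds for all countable sets closed under some operation with countable values -/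
def ClubC (T : Type v) (A : Set T → Prop) : Prop :=
  ∃ F : List T → Set T, (∀ l, (F l).Countable) ∧
    ∀ M : Set T, M.Countable → (∀ l, (∀ x ∈ l, x ∈ M) → F l ⊆ M) → A M

end Pool.Agent.HCO
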