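import Pool.Agent.HCO.St4

/-!
# [Delta] the delta system lemma for finite subsets of the first uncountable ordinal
-/

set_option autoImplicit false

open Set Topology Cardinal Ordinal Order Filter

universe u v w

namespace Pool.Agent.HCO

private theorem delta_reg : (Cardinal.aleph.{u} 1).IsRegular := Cardinal.isRegular_aleph_one

private theorem delta_unc : ℵ₀ < Cardinal.aleph.{u} 1 := Cardinal.aleph0_lt_aleph_one

private theorem delta_cof : ℵ₀ < (w1.{u}).cof := by
  unfold w1
  rw [delta_reg.cof_ord]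
  exact delta_unc

private theorem delta_lim : IsSuccLimit (w1.{u}) :=
  Cardinal.isSuccLimit_ord delta_reg.aleph0_le

private theorem delta_ctbl (b : Ordinal.{u}) (hb : b < w1) : (Iic b).Countable := by
  have h1 : succ b < w1 := delta_lim.succ_lt hb
  have h2 : Iic b = Iio (succ b) := by
    ext z
    show z ≤ b ↔ z < succ b
    exact Order.lt_succ_iff.symm
  rw [h2, ← Cardinal.le_aleph0_iff_set_countable, Cardinal.mk_Iio_ordinal]
  have h3 : (succ b).card < Cardinal.aleph 1 := Cardinal.lt_ord.1 h1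
  have h4 : (succ b).card ≤ ℵ₀ := by
    rw [← Cardinal.succ_aleph0] at h3
    exact Order.lt_succ_iff.mp h3
  rw [← Cardinal.lift_aleph0.{u+1, u}]
  exact Cardinal.lift_le.mpr h4

private theorem delta_unb (h : St_Club.{u}) (S : Set Ordinal.{u}) (hS : ∀ a ∈ S, a < w1)
    (hst : Stat w1 S) : ¬ S.Countable := by
  intro hc
  have hne : S.Nonempty := by
    obtain ⟨a, ha, -⟩ := hst _ (h.univ w1 delta_lim)
    exact ⟨a, ha⟩
  obtain ⟨e, he⟩ := hc.exists_eq_range hne
  obtain ⟨c, hc1, hc2⟩ := h.supN w1 e delta_cof (fun i => hS _ (he ▸ Set.mem_range_self i))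
  have hclub : Club w1 {a | a < w1 ∧ c ≤ a} := by
    refine ⟨fun a ha => ha.1, fun b hb => ?_, fun l hl hlim hlt => ⟨hl, ?_⟩⟩
    · exact ⟨succ (max b c), ⟨delta_lim.succ_lt (max_lt hb hc1),
        (le_max_right b c).trans (Order.le_succ _)⟩,
        (le_max_left b c).trans_lt (Order.lt_succ _)⟩
    · obtain ⟨c', hc', -, hc''⟩ := hlt 0 (pos_of_ne_zero hlim.ne_bot)
      exact hc'.2.trans hc''.le
  obtain ⟨a, ha, hac⟩ := hst _ hclub
  rw [he] at ha
  obtain ⟨i, rfl⟩ := ha
  exact absurd (hc2 i) (not_lt.mpr hac.2)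

theorem thm_Delta (h : St_Club.{u}) : St_Delta.{u} := by
  intro f hf
  classical
  -- bounds
  have hsup : ∀ a < w1, succ ((f a).sup id) < w1 := by
    intro a ha
    refine delta_lim.succ_lt ?_
    rw [Finset.sup_lt_iff (pos_of_ne_zero delta_lim.ne_bot)]
    exact hf a ha
  have hC : Club w1 {a | a < w1 ∧ IsSuccLimit a ∧ ∀ b < a, succ ((f b).sup id) < a} :=
    h.fn (Cardinal.aleph 1) (fun a => succ ((f a).sup id)) delta_reg delta_unc hsup
  have hst0 : Stat w1 (Set.univ : Set Ordinal.{u}) := by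
    intro D hD
    obtain ⟨c, hc, -⟩ := hD.2.1 0 (pos_of_ne_zero delta_lim.ne_bot)
    exact ⟨c, trivial, hc⟩
  have hst1 := h.statInter w1 _ _ delta_cof hst0 hC
  obtain ⟨b, hb, hst2⟩ := h.fodor (Cardinal.aleph 1) _ (fun d => ((f d).filter (· < d)).sup id)
    delta_reg delta_unc hst1 (by
      intro d hd
      obtain ⟨-, -, hd2, -⟩ := hd
      rw [Finset.sup_lt_iff (pos_of_ne_zero hd2.ne_bot)]
      intro z hz
      exact (Finset.mem_filter.mp hz).2)
  -- countably many traces
  have hcn : (Set.range fun p : Finset (Iic b) × ℕ =>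
      ((p.1.map (Function.Embedding.subtype _) : Finset Ordinal.{u}), p.2)).Countable := by
    haveI : Countable (Iic b) := (delta_ctbl b hb).to_subtype
    exact Set.countable_range _
  obtain ⟨code, hcode⟩ := Set.countable_iff_exists_injOn.mp hcn
  have hmem : ∀ d ∈ {a | a ∈ Set.univ ∩ {a | a < w1 ∧ IsSuccLimit a ∧ ∀ b < a,
      succ ((f b).sup id) < a} ∧ ((f a).filter (· < a)).sup id = b},
      (((f d).filter (· < d), (f d).card) : Finset Ordinal.{u} × ℕ) ∈
      Set.range fun p : Finset (Iic b) × ℕ =>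
        ((p.1.map (Function.Embedding.subtype _) : Finset Ordinal.{u}), p.2) := by
    intro d hd
    have hle : ∀ z ∈ (f d).filter (· < d), z ∈ Iic b := by
      intro z hz
      have h5 := Finset.le_sup (f := id) hz
      rw [hd.2] at h5
      exact h5
    refine ⟨(((f d).filter (· < d)).subtype (· ∈ Iic b), (f d).card), ?_⟩
    rw [Prod.mk.injEq]
    exact ⟨Finset.subtype_map_of_mem hle, rfl⟩
  have hun : Stat w1 (⋃ n : ℕ, {a | (a ∈ Set.univ ∩ {a | a < w1 ∧ IsSuccLimit a ∧ ∀ b < a,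
      succ ((f b).sup id) < a} ∧ ((f a).filter (· < a)).sup id = b) ∧
      code ((f a).filter (· < a), (f a).card) = n}) := by
    intro D hD
    obtain ⟨a, ha, haD⟩ := hst2 D hD
    exact ⟨a, Set.mem_iUnion.mpr ⟨_, ha, rfl⟩, haD⟩
  obtain ⟨n, hn⟩ := h.split w1 _ delta_cof hun
  -- the set
  have hne := hn _ (h.univ w1 delta_lim)
  obtain ⟨a₀, ha₀, -⟩ := hne
  refine ⟨_, (f a₀).filter (· < a₀), (f a₀).card, fun a ha => ha.1.1.2.1,
    delta_unb h _ (fun a ha => ha.1.1.2.1) hn, ?_, ?_⟩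
  · intro a ha
    have h6 := hcode (hmem a ha.1) (hmem a₀ ha₀.1) (ha.2.trans ha₀.2.symm)
    rw [Prod.mk.injEq] at h6
    refine ⟨?_, h6.2⟩
    rw [← h6.1]
    exact Finset.filter_subset _ _
  · intro a ha c hc hac y hy hyr z hz hzr
    have h6 := hcode (hmem c hc.1) (hmem a₀ ha₀.1) (hc.2.trans ha₀.2.symm)
    rw [Prod.mk.injEq] at h6
    rw [← h6.1] at hzr
    have h7 : c ≤ z := by
      by_contra h8
      exact hzr (Finset.mem_filter.mpr ⟨hz, not_le.mp h8⟩)
    have h9 : succ ((f a).sup id) < c := hc.1.1.2.2.2 a hac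
    have h10 : y ≤ (f a).sup id := Finset.le_sup (f := id) hy
    exact ((h10.trans_lt (Order.lt_succ _)).trans h9).trans_le h7

end Pool.Agent.HCO
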