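import Pool.Agent.HCO.St4

set_option autoImplicit false

open Set Topology Cardinal Ordinal Order Filter

universe u v w

namespace Pool.Agent.HCO

section

variable {X : Type u} [TopologicalSpace X]

lemma Der_iff (F : Set X) (d : Ordinal.{u}) (z : X) :
    z ∈ der F d ↔ z ∈ F ∧ ∀ e < d, AccPt z (𝓟 (der F e)) := by
  rw [der]
  constructor
  · rintro ⟨h1, h2⟩
    exact ⟨h1, fun e he => h2 ⟨e, he⟩⟩
  · rintro ⟨h1, h2⟩
    exact ⟨h1, fun e => h2 e.1 e.2⟩

lemma Der_zero (F : Set X) : der F 0 = F := by
  ext z
  rw [Der_iff]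
  constructor
  · exact fun h => h.1
  · intro h
    exact ⟨h, fun e he => absurd he (not_lt.2 zero_le)⟩

lemma Der_sub (F : Set X) {a b : Ordinal.{u}} (h : a ≤ b) : der F b ⊆ der F a := by
  intro z hz
  rw [Der_iff] at hz ⊢
  exact ⟨hz.1, fun e he => hz.2 e (lt_of_lt_of_le he h)⟩

lemma Der_subF (F : Set X) (a : Ordinal.{u}) : der F a ⊆ F := fun z hz => ((Der_iff _ _ _).1 hz).1

lemma Der_acc {z : X} {S T : Set X} (h : AccPt z (𝓟 S)) (hST : S ⊆ T) : AccPt z (𝓟 T) :=
  h.mono (principal_mono.2 hST)

lemma Der_mono {F G : Set X} (h : F ⊆ G) (a : Ordinal.{u}) : der F a ⊆ der G a := by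
  induction a using WellFoundedLT.induction with
  | ind a ih =>
    intro z hz
    rw [Der_iff] at hz ⊢
    exact ⟨h hz.1, fun e he => Der_acc (hz.2 e he) (ih e he)⟩

lemma Der_closed [T1Space X] {F : Set X} (a : Ordinal.{u}) (hF : IsClosed F) :
    IsClosed (der F a) := by
  have h1 : der F a = F ∩ ⋂ e : Set.Iio a, derivedSet (der F e.1) := by
    ext z
    rw [Der_iff]
    simp only [mem_inter_iff, mem_iInter, mem_derivedSet]
    constructor
    · rintro ⟨h1, h2⟩
      exact ⟨h1, fun e => h2 e.1 e.2⟩
    · rintro ⟨h1, h2⟩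
      exact ⟨h1, fun e he => h2 ⟨e, he⟩⟩
  rw [h1]
  exact hF.inter (isClosed_iInter fun e => isClosed_derivedSet _)

lemma Der_union {F G : Set X} (a : Ordinal.{u}) (hF : IsClosed F) (hG : IsClosed G) :
    der (F ∪ G) a = der F a ∪ der G a := by
  induction a using WellFoundedLT.induction with
  | ind a ih =>
    apply Subset.antisymm
    · intro z hz
      rw [Der_iff] at hz
      obtain ⟨h1, h2⟩ := hz
      rcases eq_or_ne a 0 with rfl | ha
      · rw [Der_zero, Der_zero]; exact h1
      have ha' : 0 < a := pos_iff_ne_zero.2 ha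
      have h3 : ∀ e < a, AccPt z (𝓟 (der F e)) ∨ AccPt z (𝓟 (der G e)) := by
        intro e he
        have h4 := h2 e he
        rw [ih e he, ← sup_principal, accPt_sup] at h4
        exact h4
      by_cases hall : ∀ e < a, AccPt z (𝓟 (der F e))
      · left
        rw [Der_iff]
        refine ⟨?_, hall⟩
        have h4 := hall 0 ha'
        rw [Der_zero] at h4
        exact isClosed_iff_accPt.1 hF z h4
      · right
        push Not at hall
        obtain ⟨e1, he1, hn1⟩ := hall
        have hall' : ∀ e < a, AccPt z (𝓟 (der G e)) := by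
          intro e he
          rcases h3 (max e e1) (max_lt he he1) with h5 | h5
          · exact absurd (Der_acc h5 (Der_sub F (le_max_right _ _))) hn1
          · exact Der_acc h5 (Der_sub G (le_max_left _ _))
        rw [Der_iff]
        refine ⟨?_, hall'⟩
        have h4 := hall' 0 ha'
        rw [Der_zero] at h4
        exact isClosed_iff_accPt.1 hG z h4
    · exact union_subset (Der_mono subset_union_left a) (Der_mono subset_union_right a)

lemma Der_inter (F : Set X) {O : Set X} (a : Ordinal.{u}) (hO : IsOpen O) :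
    der (F ∩ O) a = der F a ∩ O := by
  induction a using WellFoundedLT.induction with
  | ind a ih =>
    ext z
    constructor
    · intro hz
      exact ⟨Der_mono inter_subset_left a hz, (Der_subF _ _ hz).2⟩
    · rintro ⟨hz, hzO⟩
      rw [Der_iff] at hz ⊢
      refine ⟨⟨hz.1, hzO⟩, fun e he => ?_⟩
      rw [ih e he, inter_comm]
      exact (hz.2 e he).nhds_inter (hO.mem_nhds hzO)

lemma Der_succ (F : Set X) (a : Ordinal.{u}) (z : X) :
    z ∈ der F (a + 1) ↔ z ∈ F ∧ AccPt z (𝓟 (der F a)) := by
  rw [Der_iff]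
  constructor
  · rintro ⟨h1, h2⟩
    exact ⟨h1, h2 a (lt_add_one a)⟩
  · rintro ⟨h1, h2⟩
    exact ⟨h1, fun e he => Der_acc h2 (Der_sub F (Order.lt_add_one_iff.1 he))⟩

lemma Der_add (F : Set X) (a b : Ordinal.{u}) : der (der F a) b = der F (a + b) := by
  induction b using WellFoundedLT.induction with
  | ind b ih =>
    ext z
    rw [Der_iff (der F a) b, Der_iff F (a + b)]
    constructor
    · rintro ⟨h1, h2⟩
      rw [Der_iff] at h1
      refine ⟨h1.1, fun e he => ?_⟩
      rcases lt_or_ge e a with h3 | h3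
      · exact h1.2 e h3
      · have h4 : a + (e - a) = e := Ordinal.add_sub_cancel_of_le h3
        have h5 : e - a < b := by
          rw [← h4] at he
          exact lt_of_add_lt_add_left he
        have h6 := h2 (e - a) h5
        rw [ih _ h5, h4] at h6
        exact h6
    · rintro ⟨h1, h2⟩
      refine ⟨?_, fun e he => ?_⟩
      · rw [Der_iff]
        exact ⟨h1, fun e he => h2 e (lt_of_lt_of_le he (le_self_add))⟩
      · rw [ih e he]
        exact h2 (a + e) ((add_lt_add_iff_left a).2 he)

lemma Der_limit (F : Set X) {l : Ordinal.{u}} (z : X) (hl : IsSuccLimit l) :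
    z ∈ der F l ↔ ∀ a < l, z ∈ der F a := by
  constructor
  · intro h a ha
    exact Der_sub F ha.le h
  · intro h
    have h0 : 0 < l := hl.bot_lt
    rw [Der_iff]
    refine ⟨?_, fun e he => ?_⟩
    · have h1 := h 0 h0
      rwa [Der_zero] at h1
    · have h1 := h (e + 1) (hl.add_one_lt he)
      rw [Der_succ] at h1
      exact h1.2

lemma Der_accEmb {Z : Type u} [TopologicalSpace Z] {f : X → Z} (hf : IsEmbedding f) (S : Set X)
    (z : X) : AccPt (f z) (𝓟 (f '' S)) ↔ AccPt z (𝓟 S) := by
  rw [accPt_principal_iff_nhdsWithin, accPt_principal_iff_nhdsWithin]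
  have h1 : f '' S \ {f z} = f '' (S \ {z}) := by
    rw [image_sdiff hf.injective, image_singleton]
  rw [h1, ← hf.map_nhdsWithin_eq, map_neBot_iff]

lemma Der_embG {Z : Type u} [TopologicalSpace Z] {f : X → Z} (hf : IsEmbedding f) (S : Set X)
    (a : Ordinal.{u}) : ∀ z : X, z ∈ der S a ↔ f z ∈ der (f '' S) a := by
  induction a using WellFoundedLT.induction with
  | ind a ih =>
    intro z
    have h0 : ∀ e < a, der (f '' S) e = f '' (der S e) := by
      intro e he
      ext w
      constructor
      · intro hw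
        obtain ⟨y, hy, rfl⟩ := Der_subF _ _ hw
        exact ⟨y, (ih e he y).2 hw, rfl⟩
      · rintro ⟨y, hy, rfl⟩
        exact (ih e he y).1 hy
    rw [Der_iff, Der_iff]
    refine and_congr (hf.injective.mem_set_image).symm ?_
    refine forall₂_congr fun e he => ?_
    rw [h0 e he, Der_accEmb hf]

lemma Der_compact [CompactSpace X] [T1Space X] {F : Set X} {l : Ordinal.{u}} (hF : IsClosed F)
    (hl : IsSuccLimit l) (h : der F l = ∅) : ∃ a < l, der F a = ∅ := by
  by_contra hcon
  push Not at hcon
  have : Nonempty (Set.Iio l) := ⟨⟨0, hl.bot_lt⟩⟩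
  have h1 := IsCompact.nonempty_iInter_of_directed_nonempty_isCompact_isClosed
    (fun a : Set.Iio l => der F a.1) (by
      intro a b
      rcases le_total a b with hab | hab
      · exact ⟨b, Der_sub F hab, Subset.rfl⟩
      · exact ⟨a, Subset.rfl, Der_sub F hab⟩) (fun a => hcon a.1 a.2)
    (fun a => (Der_closed a.1 hF).isCompact) (fun a => Der_closed a.1 hF)
  obtain ⟨z, hz⟩ := h1
  have h2 : z ∈ der F l := by
    rw [Der_limit F z hl]
    intro a ha
    exact mem_iInter.1 hz ⟨a, ha⟩
  rw [h] at h2
  exact h2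

end

theorem thm_Der : St_Der.{u} where
  iff := fun X _ F d z => Der_iff F d z
  zero := fun X _ F => Der_zero F
  sub := fun X _ F a b h => Der_sub F h
  mono := fun X _ F G a h => Der_mono h a
  closed := fun X _ _ F a h => Der_closed a h
  union := fun X _ F G a hF hG => Der_union a hF hG
  inter := fun X _ F O a hO => Der_inter F a hO
  add := fun X _ F a b => Der_add F a b
  succ := fun X _ F a z => Der_succ F a z
  limit := fun X _ F l z hl => Der_limit F z hl
  emb := fun X _ F G a z => Der_embG IsEmbedding.subtypeVal G a z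
  homeo := by
    intro X Z _ _ F G e a z
    have h1 := Der_embG (IsEmbedding.subtypeVal : IsEmbedding (Subtype.val : F → X))
      (Set.univ : Set F) a z
    have h2 := Der_embG (IsEmbedding.subtypeVal : IsEmbedding (Subtype.val : G → Z))
      (Set.univ : Set G) a (e z)
    have h3 := Der_embG e.isEmbedding (Set.univ : Set F) a z
    rw [image_univ, Subtype.range_coe] at h1 h2
    rw [image_univ, e.range_coe] at h3
    rw [← h1, ← h2, h3]
  compact := fun X _ _ _ F l hF hl h => Der_compact hF hl h

end Pool.Agent.HCO
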