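import Pool.Agent.HCO.Fin

/-!
# Minimal counterexamples inside a given closed set, and their ranks (no axiom needed)
-/

set_option autoImplicit false

open Set Topology Cardinal Ordinal Order Filter

universe u v w

namespace Pool.Agent.HCO

private theorem ExistsIn_co (Z W : Type u) [TopologicalSpace Z] [TopologicalSpace W] (e : Z ≃ₜ W)
    (h : IsCO Z) : IsCO W := by
  intro F hF
  obtain ⟨U, hU, ⟨f⟩⟩ := h (e ⁻¹' F) (hF.preimage e.continuous)
  refine ⟨e '' U, ⟨e.isClosedMap U hU.isClosed, e.isOpenMap U hU.isOpen⟩, ⟨?_⟩⟩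
  have h1 : e '' (e ⁻¹' F) = F := image_preimage_eq F e.surjective
  have g1 : F ≃ₜ (e '' (e ⁻¹' F) : Set W) := Homeomorph.setCongr h1.symm
  exact (g1.trans (e.isEmbedding.homeomorphImage (e ⁻¹' F)).symm).trans
    (f.trans (e.isEmbedding.homeomorphImage U))

private theorem ExistsIn_empty (X : Type u) [TopologicalSpace X] : IsOrd (∅ : Set X) :=
  ⟨fun _ => 0, injOn_empty _, fun a ha => absurd ha (notMem_empty a)⟩

/-- in a scattered space some derivative is empty -/
private theorem ExistsIn_der (hD : St_Der.{u}) (X : Type u) [TopologicalSpace X] [T1Space X]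
    (hs : Scat X) (F : Set X) (hF : IsClosed F) : ∃ a : Ordinal.{u}, der F a = ∅ := by
  by_contra hcon
  push Not at hcon
  have h1 : ∀ a : Ordinal.{u}, ∃ z ∈ der F a, ¬ AccPt z (𝓟 (der F a)) := fun a =>
    hs _ (hD.closed X F a hF) (hcon a)
  choose g hg hg' using h1
  have key : ∀ a b : Ordinal.{u}, a < b → g a ≠ g b := by
    intro a b hab h
    apply hg' a
    rw [h]
    exact ((hD.iff X F b (g b)).1 (hg b)).2 a hab
  apply not_injective_of_ordinal g
  intro a b hab
  rcases lt_trichotomy a b with h | h | h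
  · exact absurd hab (key a b h)
  · exact h
  · exact absurd hab.symm (key b a h)

theorem existsIn (hD : St_Der.{u}) (hS : St_Scat.{u}) (hH : St_OHomeo.{u}) (hU : St_OUnion.{u})
    (hT : St_OTr.{u}) (X : Type u) [TopologicalSpace X] [CompactSpace X] [T2Space X] (hco : HCO X)
    (F : Set X) (hF : IsClosed F) (hFn : F.Nonempty)
    (hFo : ¬ ∃ α : Ordinal.{u}, Nonempty (F ≃ₜ Set.Iic α)) :
    ∃ (_ : TotallyDisconnectedSpace X) (G : Set X) (r : Ordinal.{u}) (x : X) (hx : x ∈ G)
      (_ : CompactSpace G), IsClosed G ∧ G ⊆ F ∧ der G r = {x} ∧ ¬ IsOrd G ∧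
      (∀ H ⊆ G, IsClosed H → x ∉ der H r → IsOrd H) ∧ Min G ⟨x, hx⟩ r := by
  obtain ⟨hsc, hTD⟩ := hS X hco
  have hFnot : ¬ IsOrd F := fun h => hFo ((hH X F hF hFn).1 h)
  let P : Set Ordinal.{u} :=
    {d | ∃ G : Set X, IsClosed G ∧ G ⊆ F ∧ ¬ IsOrd G ∧ (der G d).Finite}
  have hPne : P.Nonempty := by
    obtain ⟨a, ha⟩ := ExistsIn_der hD X hsc F hF
    exact ⟨a, F, hF, subset_rfl, hFnot, by rw [ha]; exact finite_empty⟩
  obtain ⟨d, hdP, hdmin⟩ : ∃ d ∈ P, ∀ e < d, e ∉ P := by
    refine ⟨sInf P, csInf_mem hPne, fun e he heP => ?_⟩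
    exact absurd (csInf_le' heP) (not_le.2 he)
  have hA : ∀ H : Set X, IsClosed H → H ⊆ F → (∃ e < d, (der H e).Finite) → IsOrd H := by
    rintro H hH1 hHF ⟨e, he, hfin⟩
    by_contra hn
    exact hdmin e he ⟨H, hH1, hHF, hn, hfin⟩
  have hBB : ∀ H : Set X, IsClosed H → H ⊆ F → der H d = ∅ → IsOrd H := by
    intro H hH1 hHF hemp
    rcases H.eq_empty_or_nonempty with rfl | hne
    · exact ExistsIn_empty X
    rcases zero_or_succ_or_isSuccLimit d with h0 | ⟨e, he⟩ | hl
    · rw [h0, hD.zero] at hemp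
      exact absurd hemp hne.ne_empty
    · have he' : d = e + 1 := by rw [← he]; exact (Order.succ_eq_add_one e)
      apply hA H hH1 hHF
      refine ⟨e, by rw [he']; exact lt_add_one e, ?_⟩
      by_contra hinf
      have hcl : IsClosed (der H e) := hD.closed X H e hH1
      obtain ⟨z, hz⟩ := Set.Infinite.exists_accPt_principal hinf
      have hz1 : z ∈ der H e := hcl.closure_subset (mem_closure_iff_clusterPt.2 (AccPt.clusterPt hz))
      have hz2 : z ∈ der H (e + 1) := (hD.succ X H e z).2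
        ⟨((hD.iff X H e z).1 hz1).1, hz⟩
      rw [← he', hemp] at hz2
      exact hz2
    · obtain ⟨a, ha, ha'⟩ := hD.compact X H d hH1 hl hemp
      exact hA H hH1 hHF ⟨a, ha, by rw [ha']; exact finite_empty⟩
  -- minimal number of points
  let Q : Set ℕ := {k | ∃ G : Set X, IsClosed G ∧ G ⊆ F ∧ ¬ IsOrd G ∧ (der G d).Finite ∧
    (der G d).ncard = k}
  have hQne : Q.Nonempty := by
    obtain ⟨G, h1, h0, h2, h3⟩ := hdP
    exact ⟨_, G, h1, h0, h2, h3, rfl⟩
  obtain ⟨G, hG, hGF, hGn, hGf, hGk⟩ := Nat.sInf_mem hQne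
  have hGmin : ∀ H : Set X, IsClosed H → H ⊆ F → (der H d).Finite → (der H d).ncard < (der G d).ncard →
      IsOrd H := by
    intro H hH1 hHF hH2 hlt
    by_contra hn
    rw [hGk] at hlt
    exact absurd (Nat.sInf_le (show (der H d).ncard ∈ Q from ⟨H, hH1, hHF, hn, hH2, rfl⟩))
      (not_le.2 hlt)
  have hGne : (der G d).Nonempty := by
    by_contra hcon
    rw [not_nonempty_iff_eq_empty] at hcon
    exact hGn (hBB G hG hGF hcon)
  obtain ⟨p, hp⟩ := hGne
  have hsing : der G d = {p} := by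
    apply subset_antisymm _ (singleton_subset_iff.2 hp)
    intro q hq
    by_contra hqp
    have hqp' : p ≠ q := fun h => hqp h.symm
    obtain ⟨O, hO, hpO, hqO⟩ := exists_isClopen_of_totally_separated hqp'
    have h1 : der (G ∩ O) d = der G d ∩ O := hD.inter X G O d hO.isOpen
    have h2 : der (G ∩ Oᶜ) d = der G d ∩ Oᶜ := hD.inter X G Oᶜ d hO.compl.isOpen
    have h3 : IsOrd (G ∩ O) := by
      apply hGmin _ (hG.inter hO.isClosed) (inter_subset_left.trans hGF)
      · rw [h1]
        exact hGf.subset inter_subset_left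
      · rw [h1]
        apply ncard_lt_ncard _ hGf
        refine ⟨inter_subset_left, fun h => ?_⟩
        exact hqO (h hq).2
    have h4 : IsOrd (G ∩ Oᶜ) := by
      apply hGmin _ (hG.inter hO.compl.isClosed) (inter_subset_left.trans hGF)
      · rw [h2]
        exact hGf.subset inter_subset_left
      · rw [h2]
        apply ncard_lt_ncard _ hGf
        refine ⟨inter_subset_left, fun h => ?_⟩
        exact (h hp).2 hpO
    have h5 := hU X (G ∩ O) (G ∩ Oᶜ) (hG.inter hO.isClosed) (hG.inter hO.compl.isClosed)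
      (disjoint_compl_right.mono inter_subset_right inter_subset_right) h3 h4
    rw [← inter_union_distrib_left, union_compl_self, inter_univ] at h5
    exact hGn h5
  have hpG : p ∈ G := ((hD.iff X G d p).1 hp).1
  have hcG : CompactSpace G := isCompact_iff_compactSpace.1 hG.isCompact
  refine ⟨hTD, G, d, p, hpG, hcG, hG, hGF, hsing, hGn, ?_, ?_⟩
  · intro H hHG hH1 hxH
    apply hBB H hH1 (hHG.trans hGF)
    rw [eq_empty_iff_forall_notMem]
    intro z hz
    have h2 : z ∈ der G d := hD.mono X H G d hHG hz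
    rw [hsing] at h2
    have h3 : z = p := h2
    rw [h3] at hz
    exact hxH hz
  have hemb : IsEmbedding (Subtype.val : G → X) := IsEmbedding.subtypeVal
  have hcl : ∀ H : Set G, IsClosed H → IsClosed (Subtype.val '' H : Set X) := fun H hH1 =>
    hG.isClosedEmbedding_subtypeVal.isClosedMap H hH1
  refine ⟨?_, ?_, ?_, ?_, ?_⟩
  · intro H hH1 hHi
    have h1 : (Subtype.val '' H : Set X).Infinite :=
      hHi.image Subtype.val_injective.injOn
    exact ExistsIn_co _ _ (hemb.homeomorphImage H).symm (hco _ (hcl H hH1) h1)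
  · intro H hH1 hHn
    obtain ⟨z, hz, hacc⟩ := hsc _ (hcl H hH1) (hHn.image _)
    obtain ⟨y, hy, rfl⟩ := hz
    refine ⟨y, hy, fun h => hacc ?_⟩
    rw [accPt_iff_nhds] at h ⊢
    intro U hU
    obtain ⟨w, hw, hwy⟩ := h (Subtype.val ⁻¹' U) (continuous_subtype_val.continuousAt hU)
    exact ⟨w, ⟨hw.1, w, hw.2, rfl⟩, fun h => hwy (Subtype.ext h)⟩
  · ext z
    rw [hD.emb X G univ d z, image_univ, Subtype.range_coe, hsing, mem_singleton_iff,
      mem_singleton_iff]
    exact ⟨fun h => Subtype.ext h, fun h => congrArg Subtype.val h⟩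
  · intro h
    exact hGn (hT G X univ G isClosed_univ hG (Homeomorph.Set.univ G) h)
  · intro H hH1 hxH
    have h1 : der (Subtype.val '' H : Set X) d = ∅ := by
      rw [eq_empty_iff_forall_notMem]
      intro z hz
      have h2 : z ∈ der G d := hD.mono X _ G d (by
        rintro _ ⟨y, _, rfl⟩
        exact y.2) hz
      rw [hsing] at h2
      have h3 : z = p := h2
      rw [h3] at hz
      exact hxH ((hD.emb X G H d ⟨p, hpG⟩).2 hz)
    exact hT X G _ H (hcl H hH1) hH1 (hemb.homeomorphImage H).symm (hBB _ (hcl H hH1) (by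
      rintro _ ⟨y, _, rfl⟩
      exact hGF y.2) h1)

/-- a closed subspace of a hereditarily c.o. compact space which is not an ordinal contains a minimal
one, of rank `r` with `ω < cf r = |r|` -/
theorem minimalRank (X : Type u) [TopologicalSpace X] [CompactSpace X] [T2Space X]
    (hco : ∀ F : Set X, IsClosed F → F.Infinite → IsCO F) (F : Set X) (hF : IsClosed F)
    (hFn : F.Nonempty) (hFo : ¬ ∃ α : Ordinal.{u}, Nonempty (F ≃ₜ Set.Iic α)) :
    ∃ (G : Set X) (r : Ordinal.{u}) (x : X), IsClosed G ∧ G ⊆ F ∧ der G r = {x} ∧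
      (¬ ∃ α : Ordinal.{u}, Nonempty (G ≃ₜ Set.Iic α)) ∧
      (∀ H ⊆ G, IsClosed H → H.Nonempty → x ∉ der H r →
        ∃ α : Ordinal.{u}, Nonempty (H ≃ₜ Set.Iic α)) ∧ ℵ₀ < r.cof ∧ r.cof = r.card := by
  obtain ⟨hTD, G, r, x, hx, hcG, hG, hGF, hsing, hGn, hmin, hM⟩ :=
    existsIn fin_Der fin_Scat fin_OHomeo fin_OUnion fin_OTr X hco F hF hFn hFo
  obtain ⟨h1, h2⟩ := fin_Zfc G ⟨x, hx⟩ r hM
  refine ⟨G, r, x, hG, hGF, hsing, ?_, ?_, h1, h2⟩
  · intro h
    exact hGn ((fin_OHomeo X G hG ⟨x, hx⟩).2 h)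
  · intro H hHG hH hHn hxH
    exact (fin_OHomeo X H hH hHn).1 (hmin H hHG hH hxH)

end Pool.Agent.HCO
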