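import Pool.Agent.HCO.St4

/-!
# HCO [FB]: infinite subsets of boundaries of uncountable cofinality accumulate at `x`
-/

set_option autoImplicit false

open Set Topology Cardinal Ordinal Order Filter

universe u v w

namespace Pool.Agent.HCO

private lemma fb_der_sub {X : Type u} [TopologicalSpace X] (F : Set X) (d : Ordinal.{u}) :
    der F d ⊆ F := by
  intro z hz
  rw [der] at hz
  exact hz.1

private lemma fb_clopen {X : Type u} [TopologicalSpace X] [CompactSpace X] [T2Space X]
    [TotallyDisconnectedSpace X] {p x : X} (h : p ≠ x) : ∃ N : Set X, IsClopen N ∧ p ∈ N ∧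
    x ∉ N := by
  obtain ⟨N, hN, hp, hx⟩ := compact_exists_isClopen_in_isOpen
    (isOpen_compl_singleton (x := x)) (show p ∈ ({x} : Set X)ᶜ from h)
  exact ⟨N, hN, hp, fun h1 => hx h1 rfl⟩

theorem thm_FB (hO : St_OCnt.{u}) (hC : St_Club.{u}) : St_FB.{u} := by
  intro X _ _ _ _ x r hMin o K hK hcof A hA hinf
  by_contra hx
  -- a countable infinite subset and an accumulation point
  obtain ⟨g, hg⟩ : ∃ g : ℕ → X, Function.Injective g ∧ ∀ n, g n ∈ A := by
    have := hinf.to_subtype
    obtain ⟨e⟩ := Infinite.natEmbedding A |> fun e => (⟨e⟩ : Nonempty (ℕ ↪ A))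
    exact ⟨fun n => (e n : X), fun a b hab => e.injective (Subtype.ext hab), fun n => (e n).2⟩
  obtain ⟨hginj, hgA⟩ := hg
  have hrinf : (Set.range g).Infinite := Set.infinite_range_of_injective hginj
  obtain ⟨p, hp⟩ := hrinf.exists_accPt_principal
  have hrA : Set.range g ⊆ A := by
    rintro _ ⟨n, rfl⟩
    exact hgA n
  have hpcl : p ∈ closure A := closure_mono hrA hp.clusterPt.mem_closure
  -- the boundary is closed
  have hUo : IsOpen (Uu K o) := by
    have h : Uu K o = ⋃ a ∈ Iio o, K a := by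
      ext z
      simp [Uu]
    rw [h]
    exact isOpen_biUnion fun a ha => (hK.clopen a ha).isOpen
  have hBd : IsClosed (Bd K o) := isClosed_closure.sdiff hUo
  have hpB : p ∈ Bd K o := hBd.closure_subset_iff.2 hA hpcl
  have hpx : p ≠ x := by
    rintro rfl
    exact hx hpcl
  obtain ⟨N, hN, hpN, hxN⟩ := fb_clopen hpx
  have hNord : IsOrd N := hMin.small N hN.isClosed fun h => hxN (fb_der_sub N r h)
  -- countable character
  have hcnt : Cnt N p := by
    refine hO X N p (fun n => {g n} \ {p}) hN.isClosed hNord hpN (fun n => ⟨?_, fun h => h.2 rfl⟩)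
      ?_
    · by_cases h : g n = p
      · rw [h, sdiff_self]
        exact isClosed_empty
      · have : ({g n} : Set X) \ {p} = {g n} := by
          ext z
          simp only [Set.mem_sdiff, mem_singleton_iff]
          constructor
          · exact fun h1 => h1.1
          · rintro rfl
            exact ⟨rfl, h⟩
        rw [this]
        exact isClosed_singleton
    · rw [mem_closure_iff_nhds]
      intro U hU
      rw [accPt_iff_nhds] at hp
      obtain ⟨z, ⟨hz1, n, rfl⟩, hz3⟩ := hp (U ∩ N) (inter_mem hU (hN.isOpen.mem_nhds hpN))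
      exact ⟨g n, hz1.1, hz1.2, mem_iUnion.2 ⟨n, rfl, hz3⟩⟩
  obtain ⟨O, hO1, hO2⟩ := hcnt
  -- decreasing clopen neighbourhoods
  set W : ℕ → Set X := fun n => N ∩ ⋂ k ≤ n, O k with hW
  have hWc : ∀ n, IsClopen (W n) := by
    intro n
    refine hN.inter ?_
    exact (Set.finite_Iic n).isClopen_biInter fun k _ => (hO1 k).1
  have hWp : ∀ n, p ∈ W n := fun n => ⟨hpN, mem_iInter₂.2 fun k _ => (hO1 k).2⟩
  have hWm : ∀ n, W (n + 1) ⊆ W n := by
    rintro n z ⟨hz1, hz2⟩
    refine ⟨hz1, mem_iInter₂.2 fun k hk => mem_iInter₂.1 hz2 k (by omega)⟩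
  have h1 : ∀ n, ∃ a < o, ∃ z, z ∈ W n ∧ z ∈ K a := by
    intro n
    have h2 := hpB.1
    rw [mem_closure_iff_nhds] at h2
    obtain ⟨z, hz1, a, ha, hz2⟩ := h2 (W n) ((hWc n).isOpen.mem_nhds (hWp n))
    exact ⟨a, ha, z, hz1, hz2⟩
  choose a ha z hz1 hz2 using h1
  obtain ⟨c, hc, hac⟩ := hC.supN o a hcof ha
  have h3 : (⋂ n, (W n ∩ K c)).Nonempty := by
    refine IsCompact.nonempty_iInter_of_sequence_nonempty_isCompact_isClosed
      (fun n => W n ∩ K c) (fun n => inter_subset_inter_left _ (hWm n))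
      (fun n => ⟨z n, hz1 n, hK.mono _ _ (hac n).le hc (hz2 n)⟩) ?_ (fun n => ?_)
    · exact ((hWc 0).isClosed.inter (hK.clopen c hc).isClosed).isCompact
    · exact (hWc n).isClosed.inter (hK.clopen c hc).isClosed
  obtain ⟨y, hy⟩ := h3
  have hy' : ∀ n, y ∈ W n ∩ K c := mem_iInter.1 hy
  have hyp : y = p := hO2 y (hy' 0).1.1 fun n => mem_iInter₂.1 (hy' n).1.2 n le_rfl
  rw [hyp] at hy'
  exact hpB.2 ⟨c, hc, (hy' 0).2⟩

end Pool.Agent.HCO
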