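import Pool.Agent.HCO.St4

/-! If boundaries are points on a club, contradiction. -/

set_option autoImplicit false

open Set Topology Cardinal Ordinal Order Filter

universe u v w

namespace Pool.Agent.HCO

/-- If boundaries are points on a club, contradiction. -/
theorem thm_FB1 (hFC : St_FC.{u}) (hFi : St_Filt.{u}) (hCl : St_Club.{u}) (hD : St_Der.{u}) :
    St_FB1.{u} := by
  classical
  intro X _ _ _ _ x r μ K hM hF C hC hsub
  have hreg := hF.reg
  have hcof : ℵ₀ < μ.ord.cof := by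
    rw [hreg.cof_ord]
    exact hF.unc
  have hlimμ : IsSuccLimit μ.ord := Cardinal.isSuccLimit_ord hreg.aleph0_le
  have hs : ∀ a < μ.ord, a + 1 < μ.ord := by
    intro a ha
    rw [← Order.succ_eq_add_one]
    exact hlimμ.succ_lt ha
  let D : Set Ordinal.{u} := {a | a < μ.ord ∧ IsSuccLimit a ∧ ∀ b < a, ∃ c ∈ C, b < c ∧ c < a}
  have hDc : Club μ.ord D := hCl.lim μ.ord C hcof hC
  have hDC : ∀ a ∈ D, a ∈ C := fun a ha => hC.2.2 a ha.1 ha.2.1 ha.2.2
  have hne : ∀ l, ∃ e, l ∈ D → e ∈ Bd K l := by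
    intro l
    by_cases hl : l ∈ D
    · obtain ⟨e, he⟩ := hFi.ne X x r μ K hF l hl.1 hl.2.1
      exact ⟨e, fun _ => he⟩
    · exact ⟨x, fun h => absurd h hl⟩
  choose e he using hne
  have hTo : ∀ a < μ.ord, IsClopen (K (a + 1) \ K a) := fun a ha =>
    (hF.clopen _ (hs a ha)).diff (hF.clopen a ha)
  refine hFC X x r μ K hM hF.toFilt D (fun a => K (a + 1) \ K a) e hDc ?_ ?_ ?_ ?_
  · intro a ha
    exact ⟨(hTo a ha.1).1, hF.strict a ha.1, disjoint_sdiff_left⟩
  · intro a ha b hb hab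
    have h1 : a + 1 ≤ b := by
      rw [← Order.succ_eq_add_one]
      exact Order.succ_le_of_lt hab
    exact sdiff_subset.trans (hF.mono _ _ h1 hb.1)
  · intro l hl hlim _ O hO heO
    have h1 : closure (Uu K l) \ O ⊆ Uu K l := by
      intro z hz
      by_contra hc
      have h2 : z ∈ Bd K l := ⟨hz.1, hc⟩
      have h3 := hsub l (hDC l hl) h2 (he l hl)
      rw [h3] at hz
      exact hz.2 heO
    obtain ⟨b, hb, h2⟩ := hFi.bd X x μ.ord K hF.toPreFilt l hl.1.le hlim (closure (Uu K l) \ O)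
      (isClosed_closure.sdiff hO.2) h1
    refine ⟨b, hb, fun a ha hba hal z hz => ?_⟩
    by_contra hc
    have h3 : z ∈ Uu K l := ⟨a + 1, by
      rw [← Order.succ_eq_add_one]
      exact hlim.succ_lt hal, hz.1⟩
    exact hz.2 (hF.mono b a hba.le ha.1 (h2 ⟨subset_closure h3, hc⟩))
  · intro s hsr b hb
    obtain ⟨b0, hb0, h1⟩ := hF.full s hsr
    obtain ⟨a, ha, hab⟩ := hDc.2.1 (max b b0) (max_lt hb hb0)
    refine ⟨a, ha, (le_max_left _ _).trans_lt hab, ?_⟩
    have h2 := h1 a ((le_max_right _ _).trans hab.le) ha.1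
    have h3 := hD.inter X univ (K (a + 1) \ K a) s (hTo a ha.1).2
    rw [univ_inter] at h3
    rw [h3]
    exact h2

end Pool.Agent.HCO
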