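import Pool.Agent.HCO.St4

/-!
# HCO: the forbidden ordinal (module FC)
-/

set_option autoImplicit false

open Set Topology Cardinal Ordinal Order Filter

universe u v w

namespace Pool.Agent.HCO

section

variable {X : Type u} [TopologicalSpace X]

/-- limit points of `D` in `D` -/
private def FC_lp (D : Set Ordinal.{u}) (l : Ordinal.{u}) : Prop :=
  l ∈ D ∧ IsSuccLimit l ∧ ∀ b < l, ∃ c ∈ D, b < c ∧ c < l

/-- the data -/
private structure FC_S (x : X) (o : Ordinal.{u}) (K T : Ordinal.{u} → Set X)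
    (D : Set Ordinal.{u}) (e : Ordinal.{u} → X) : Prop where
  Dlt : ∀ a ∈ D, a < o
  Dunb : ∀ b < o, ∃ c ∈ D, b < c
  Dcl : ∀ l < o, IsSuccLimit l → (∀ b < l, ∃ c ∈ D, b < c ∧ c < l) → l ∈ D
  Kc : ∀ a < o, IsClopen (K a)
  Kx : ∀ a < o, x ∉ K a
  Km : ∀ a b, a ≤ b → b < o → K a ⊆ K b
  cover : ∀ z, z ≠ x → ∃ a < o, z ∈ K a
  Tc : ∀ a ∈ D, IsClosed (T a)
  Tne : ∀ a ∈ D, (T a).Nonempty
  Td : ∀ a ∈ D, ∀ z ∈ T a, z ∉ K a
  Ts : ∀ a ∈ D, ∀ b ∈ D, a < b → T a ⊆ K b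
  lim : ∀ l, FC_lp D l → ∀ O : Set X, IsClopen O → e l ∈ O →
    ∃ b < l, ∀ a ∈ D, b < a → a < l → T a ⊆ O

/-- the closed set -/
private def FC_F (x : X) (T : Ordinal.{u} → Set X) (D : Set Ordinal.{u}) (e : Ordinal.{u} → X) :
    Set X := {z | z = x ∨ (∃ a ∈ D, z ∈ T a) ∨ ∃ l, FC_lp D l ∧ z = e l}

variable {x : X} {o : Ordinal.{u}} {K T : Ordinal.{u} → Set X} {D : Set Ordinal.{u}}
  {e : Ordinal.{u} → X}

private theorem FC_elK (hS : FC_S x o K T D e) {l : Ordinal.{u}} (hl : FC_lp D l) :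
    e l ∈ K l := by
  by_contra hn
  have hlo := hS.Dlt l hl.1
  obtain ⟨b, hb, hO⟩ := hS.lim l hl (K l)ᶜ (hS.Kc l hlo).compl hn
  obtain ⟨c, hcD, hbc, hcl⟩ := hl.2.2 b hb
  obtain ⟨z, hz⟩ := hS.Tne c hcD
  exact hO c hcD hbc hcl hz (hS.Ts c hcD l hl.1 hcl hz)

private theorem FC_elU (hS : FC_S x o K T D e) {l : Ordinal.{u}} (hl : FC_lp D l)
    {c : Ordinal.{u}} (hc : c < l) : e l ∉ K c := by
  intro hn
  have hlo := hS.Dlt l hl.1
  obtain ⟨b, hb, hO⟩ := hS.lim l hl (K c) (hS.Kc c (hc.trans hlo)) hn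
  obtain ⟨a, haD, hba, hal⟩ := hl.2.2 (max b c) (max_lt hb hc)
  obtain ⟨z, hz⟩ := hS.Tne a haD
  refine hS.Td a haD z hz (hS.Km c a ((le_max_right b c).trans hba.le) (hS.Dlt a haD) ?_)
  exact hO a haD ((le_max_left b c).trans_lt hba) hal hz

private theorem FC_next (hS : FC_S x o K T D e) {a : Ordinal.{u}} (ha : a ∈ D) :
    ∃ b ∈ D, a < b ∧ ∀ c ∈ D, a < c → b ≤ c := by
  obtain ⟨c, hc, hac⟩ := hS.Dunb a (hS.Dlt a ha)
  have hne : {c | c ∈ D ∧ a < c}.Nonempty := ⟨c, hc, hac⟩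
  have hmem := csInf_mem hne
  exact ⟨_, hmem.1, hmem.2, fun c hc hac => csInf_le' ⟨hc, hac⟩⟩

private theorem FC_prev (hS : FC_S x o K T D e) {d : Ordinal.{u}} (hd : d ∈ D)
    (hl : ¬ FC_lp D d) : (∀ c ∈ D, ¬ c < d) ∨ ∃ d' ∈ D, d' < d ∧ ∀ c ∈ D, c < d → c ≤ d' := by
  by_cases h0 : ∀ c ∈ D, ¬ c < d
  · exact Or.inl h0
  right
  push Not at h0
  obtain ⟨c0, hc0, hc0d⟩ := h0
  by_contra hcon
  push Not at hcon
  -- `s` is the supremum of `D ∩ d`
  have hub : ∃ s, s ≤ d ∧ ∀ c ∈ D, c < d → c < s := ⟨d, le_rfl, fun c _ h => h⟩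
  have hmem := csInf_mem (s := {s | s ≤ d ∧ ∀ c ∈ D, c < d → c < s}) hub
  set s := sInf {s | s ≤ d ∧ ∀ c ∈ D, c < d → c < s} with hs
  have hmin : ∀ t, (t ≤ d ∧ ∀ c ∈ D, c < d → c < t) → s ≤ t := fun t ht => csInf_le' ht
  have hcof : ∀ b < s, ∃ c ∈ D, b < c ∧ c < s := by
    intro b hb
    by_contra hno
    push Not at hno
    have h1 : ∀ c ∈ D, c < d → c ≤ b := by
      intro c hc hcd
      by_contra hlt
      exact absurd (hmem.2 c hc hcd) (not_lt.2 (hno c hc (not_le.1 hlt)))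
    -- there is no largest element
    have h2 : s ≤ b := by
      refine hmin b ⟨(hb.trans_le hmem.1).le, fun c hc hcd => ?_⟩
      refine lt_of_le_of_ne (h1 c hc hcd) ?_
      rintro rfl
      obtain ⟨c', hc', hc'd, hlt⟩ := hcon c hc hcd
      exact absurd (h1 c' hc' hc'd) (not_le.2 hlt)
    exact absurd hb (not_lt.2 h2)
  have hs0 : s ≠ 0 := by
    intro h
    have := hmem.2 c0 hc0 hc0d
    rw [h] at this
    exact absurd this not_lt_zero
  have hslim : IsSuccLimit s := by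
    rw [Ordinal.isSuccLimit_iff]
    refine ⟨hs0, ?_⟩
    rw [isSuccPrelimit_iff_succ_lt]
    intro b hb
    obtain ⟨c, hc, hbc, hcs⟩ := hcof b hb
    exact (succ_le_of_lt hbc).trans_lt hcs
  have hsd : s < d := by
    refine lt_of_le_of_ne hmem.1 ?_
    intro h
    rw [h] at hslim hcof
    exact hl ⟨hd, hslim, hcof⟩
  have hsD : s ∈ D := hS.Dcl s (hsd.trans (hS.Dlt d hd)) hslim hcof
  exact absurd (hmem.2 s hsD hsd) (lt_irrefl _)

private theorem FC_mem (hS : FC_S x o K T D e) {z : X} (hz : z ∈ FC_F x T D e)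
    {d : Ordinal.{u}} (hd : d < o) (hzd : z ∈ K d) :
    (∃ a ∈ D, a < d ∧ z ∈ T a) ∨ ∃ l, FC_lp D l ∧ l ≤ d ∧ z = e l := by
  rcases hz with rfl | ⟨a, ha, hza⟩ | ⟨l, hl, rfl⟩
  · exact absurd hzd (hS.Kx d hd)
  · left
    refine ⟨a, ha, ?_, hza⟩
    by_contra hlt
    exact hS.Td a ha z hza (hS.Km d a (not_lt.1 hlt) (hS.Dlt a ha) hzd)
  · right
    refine ⟨l, hl, ?_, rfl⟩
    by_contra hlt
    exact FC_elU hS hl (not_le.1 hlt) hzd

private theorem FC_closed [CompactSpace X] [T2Space X] [TotallyDisconnectedSpace X]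
    (hS : FC_S x o K T D e) : IsClosed (FC_F x T D e) := by
  rw [← isOpen_compl_iff, isOpen_iff_forall_mem_open]
  intro z hz
  have hzF : z ∉ FC_F x T D e := hz
  have hzx : z ≠ x := fun h => hzF (Or.inl h)
  obtain ⟨a0, ha0, hza0⟩ := hS.cover z hzx
  obtain ⟨c0, hc0, hac0⟩ := hS.Dunb a0 ha0
  have hne : {d | d ∈ D ∧ z ∈ K d}.Nonempty :=
    ⟨c0, hc0, hS.Km a0 c0 hac0.le (hS.Dlt c0 hc0) hza0⟩
  have hmem := csInf_mem hne
  set d := sInf {d | d ∈ D ∧ z ∈ K d} with hd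
  have hmin : ∀ c ∈ D, c < d → z ∉ K c := fun c hc hcd hz =>
    absurd (csInf_le' (show c ∈ {d | d ∈ D ∧ z ∈ K d} from ⟨hc, hz⟩)) (not_le.2 hcd)
  have hdo := hS.Dlt d hmem.1
  by_cases hl : FC_lp D d
  · have hne' : e d ≠ z := fun h => hzF (Or.inr (Or.inr ⟨d, hl, h.symm⟩))
    obtain ⟨O, hO, heO, hzO⟩ := exists_isClopen_of_totally_separated hne'
    obtain ⟨b, hb, hbO⟩ := hS.lim d hl O hO heO
    obtain ⟨b', hb'D, hbb', hb'd⟩ := hl.2.2 b hb
    have hb'o := hS.Dlt b' hb'D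
    refine ⟨K d ∩ Oᶜ ∩ (K b')ᶜ, ?_, ((hS.Kc d hdo).2.inter hO.compl.2).inter
      (hS.Kc b' hb'o).compl.2, ⟨hmem.2, hzO⟩, hmin b' hb'D hb'd⟩
    rintro y ⟨⟨hyd, hyO⟩, hyb'⟩ hyF
    rcases FC_mem hS hyF hdo hyd with ⟨a, ha, had, hya⟩ | ⟨l, hl', hld, rfl⟩
    · rcases lt_or_ge a b' with h | h
      · exact hyb' (hS.Ts a ha b' hb'D h hya)
      · exact hyO (hbO a ha (hbb'.trans_le h) had hya)
    · rcases lt_or_ge b' l with h | h
      · obtain ⟨b2, hb2, hb2O⟩ := hS.lim l hl' Oᶜ hO.compl hyO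
        obtain ⟨a, ha, hlt, hal⟩ := hl'.2.2 (max b2 b') (max_lt hb2 h)
        obtain ⟨y, hy⟩ := hS.Tne a ha
        exact hb2O a ha ((le_max_left _ _).trans_lt hlt) hal hy
          (hbO a ha (hbb'.trans ((le_max_right _ _).trans_lt hlt)) (hal.trans_le hld) hy)
      · exact hyb' (hS.Km l b' h hb'o (FC_elK hS hl'))
  · rcases FC_prev hS hmem.1 hl with h | ⟨d', hd'D, hd'd, hmax⟩
    · refine ⟨K d, ?_, (hS.Kc d hdo).2, hmem.2⟩
      intro y hyd hyF
      rcases FC_mem hS hyF hdo hyd with ⟨a, ha, had, hya⟩ | ⟨l, hl', hld, rfl⟩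
      · exact h a ha had
      · rcases hld.lt_or_eq with h1 | h1
        · exact h l hl'.1 h1
        · rw [h1] at hl'
          exact hl hl'
    · have hd'o := hS.Dlt d' hd'D
      refine ⟨K d ∩ (K d')ᶜ ∩ (T d')ᶜ, ?_, ((hS.Kc d hdo).2.inter
        (hS.Kc d' hd'o).compl.2).inter (hS.Tc d' hd'D).isOpen_compl, ⟨hmem.2, hmin d' hd'D hd'd⟩,
        fun h => hzF (Or.inr (Or.inl ⟨d', hd'D, h⟩))⟩
      rintro y ⟨⟨hyd, hyd'⟩, hyT⟩ hyF
      rcases FC_mem hS hyF hdo hyd with ⟨a, ha, had, hya⟩ | ⟨l, hl', hld, rfl⟩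
      · rcases (hmax a ha had).lt_or_eq with h1 | h1
        · exact hyd' (hS.Ts a ha d' hd'D h1 hya)
        · rw [h1] at hya
          exact hyT hya
      · rcases hld.lt_or_eq with h1 | h1
        · exact hyd' (hS.Km l d' (hmax l hl'.1 h1) hd'o (FC_elK hS hl'))
        · rw [h1] at hl'
          exact hl hl'

/-- codes of the points of `F` -/
private def FC_code (x : X) (o : Ordinal.{u}) (T : Ordinal.{u} → Set X) (D : Set Ordinal.{u})
    (e : Ordinal.{u} → X) (g : Ordinal.{u} → X → Ordinal.{u}) (z : X) (i t : Ordinal.{u}) : Prop :=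
  (z = x ∧ i = o ∧ t = 0) ∨ (i ∈ D ∧ z ∈ T i ∧ t = 1 + g i z) ∨ (FC_lp D i ∧ z = e i ∧ t = 0)

variable {g : Ordinal.{u} → X → Ordinal.{u}}

private theorem FC_Tx (hS : FC_S x o K T D e) {a : Ordinal.{u}} (ha : a ∈ D) {z : X}
    (hz : z ∈ T a) : z ≠ x := by
  rintro rfl
  obtain ⟨b, hb, hab, -⟩ := FC_next hS ha
  exact hS.Kx b (hS.Dlt b hb) (hS.Ts a ha b hb hab hz)

private theorem FC_Tdisj (hS : FC_S x o K T D e) {a b : Ordinal.{u}} (ha : a ∈ D) (hb : b ∈ D)
    {z : X} (hza : z ∈ T a) (hzb : z ∈ T b) : a = b := by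
  rcases lt_trichotomy a b with h | h | h
  · exact absurd (hS.Ts a ha b hb h hza) (hS.Td b hb z hzb)
  · exact h
  · exact absurd (hS.Ts b hb a ha h hzb) (hS.Td a ha z hza)

private theorem FC_eT (hS : FC_S x o K T D e) {a l : Ordinal.{u}} (ha : a ∈ D)
    (hl : FC_lp D l) : e l ∉ T a := by
  intro h
  rcases lt_or_ge a l with h1 | h1
  · obtain ⟨c, hc, hac, hcl⟩ := hl.2.2 a h1
    exact FC_elU hS hl hcl (hS.Ts a ha c hc hac h)
  · exact hS.Td a ha _ h (hS.Km l a h1 (hS.Dlt a ha) (FC_elK hS hl))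

private theorem FC_ee (hS : FC_S x o K T D e) {l l' : Ordinal.{u}} (hl : FC_lp D l)
    (hl' : FC_lp D l') (h : e l = e l') : l = l' := by
  rcases lt_trichotomy l l' with h1 | h1 | h1
  · exact absurd (h ▸ FC_elK hS hl) (FC_elU hS hl' h1)
  · exact h1
  · exact absurd (h ▸ FC_elK hS hl' : e l ∈ K l') (FC_elU hS hl h1)

private theorem FC_ex (hS : FC_S x o K T D e) {l : Ordinal.{u}} (hl : FC_lp D l) : e l ≠ x := by
  intro h
  exact hS.Kx l (hS.Dlt l hl.1) (h ▸ FC_elK hS hl)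

private theorem FC_code_unique (hS : FC_S x o K T D e) {z : X} {i t i' t' : Ordinal.{u}}
    (h : FC_code x o T D e g z i t) (h' : FC_code x o T D e g z i' t') : i = i' ∧ t = t' := by
  rcases h with ⟨h1, h2, h3⟩ | ⟨h1, h2, h3⟩ | ⟨h1, h2, h3⟩ <;>
    rcases h' with ⟨k1, k2, k3⟩ | ⟨k1, k2, k3⟩ | ⟨k1, k2, k3⟩
  · exact ⟨h2.trans k2.symm, h3.trans k3.symm⟩
  · exact absurd h1 (FC_Tx hS k1 k2)
  · exact absurd (k2.symm.trans h1) (FC_ex hS k1)
  · exact absurd k1 (FC_Tx hS h1 h2)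
  · have := FC_Tdisj hS h1 k1 h2 k2
    subst this
    exact ⟨rfl, h3.trans k3.symm⟩
  · rw [k2] at h2
    exact absurd h2 (FC_eT hS h1 k1)
  · exact absurd (h2.symm.trans k1) (FC_ex hS h1)
  · rw [h2] at k2
    exact absurd k2 (FC_eT hS k1 h1)
  · exact ⟨FC_ee hS h1 k1 (h2.symm.trans k2), h3.trans k3.symm⟩

omit [TopologicalSpace X] in
private theorem FC_code_ex {z : X} (hz : z ∈ FC_F x T D e) :
    ∃ i t, FC_code x o T D e g z i t := by
  rcases hz with h | ⟨a, ha, hza⟩ | ⟨l, hl, h⟩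
  · exact ⟨o, 0, Or.inl ⟨h, rfl, rfl⟩⟩
  · exact ⟨a, 1 + g a z, Or.inr (Or.inl ⟨ha, hza, rfl⟩)⟩
  · exact ⟨l, 0, Or.inr (Or.inr ⟨hl, h, rfl⟩)⟩

private theorem FC_lex {G i j t t' : Ordinal.{u}} (ht : t < G) (ht' : t' < G) :
    G * i + t ≤ G * j + t' ↔ i < j ∨ (i = j ∧ t ≤ t') := by
  have hlt : ∀ i j t t' : Ordinal.{u}, t < G → i < j → G * i + t < G * j + t' := by
    intro i j t t' ht hij
    calc G * i + t < G * i + G := by
          exact (add_lt_add_iff_left _).2 ht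
      _ = G * (i + 1) := by rw [mul_add, mul_one]
      _ ≤ G * j := mul_le_mul_right (Order.add_one_le_of_lt hij) G
      _ ≤ G * j + t' := le_self_add
  constructor
  · intro h
    rcases lt_trichotomy i j with h1 | h1 | h1
    · exact Or.inl h1
    · right
      refine ⟨h1, ?_⟩
      subst h1
      exact (add_le_add_iff_left _).1 h
    · exact absurd h (not_le.2 (hlt j i t' t ht' h1))
  · rintro (h | ⟨rfl, h⟩)
    · exact (hlt i j t t' ht h).le
    · exact (add_le_add_iff_left _).2 h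

omit [TopologicalSpace X] in
private theorem FC_G (o : Ordinal.{u}) (g : Ordinal.{u} → X → Ordinal.{u}) :
    ∃ G : Ordinal.{u}, 0 < G ∧ ∀ a < o, ∀ z, 1 + g a z < G := by
  have h : BddAbove (Set.range (fun p : (Set.Iio o) × X => 1 + g p.1.1 p.2)) :=
    Ordinal.bddAbove_of_small
  obtain ⟨B, hB⟩ := h
  refine ⟨succ B, zero_le.trans_lt (Order.lt_succ B), fun a ha z => ?_⟩
  exact Order.lt_succ_of_le (hB ⟨(⟨a, ha⟩, z), rfl⟩)

private theorem FC_seg (hS : FC_S x o K T D e) (hg : ∀ a ∈ D, OrdOn (T a) (g a))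
    {w : X} {j t' : Ordinal.{u}} (hw : FC_code x o T D e g w j t') :
    ∃ O : Set X, IsClopen O ∧ ∀ z i t, FC_code x o T D e g z i t →
      (z ∈ O ↔ i < j ∨ (i = j ∧ t ≤ t')) := by
  rcases hw with ⟨-, hj, ht'⟩ | ⟨hj, hwT, ht'⟩ | ⟨hj, hwe, ht'⟩
  · refine ⟨univ, isClopen_univ, fun z i t hz => ⟨fun _ => ?_, fun _ => trivial⟩⟩
    rcases hz with ⟨-, h2, h3⟩ | ⟨h1, h2, h3⟩ | ⟨h1, h2, h3⟩
    · right
      rw [h2, h3, hj, ht']
      exact ⟨rfl, le_rfl⟩
    · left
      rw [hj]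
      exact hS.Dlt i h1
    · left
      rw [hj]
      exact hS.Dlt i h1.1
  · obtain ⟨b, hb, hjb, hmin⟩ := FC_next hS hj
    obtain ⟨O, hO, hOw⟩ := (hg j hj).2 w hwT
    have hbo := hS.Dlt b hb
    have hjo := hS.Dlt j hj
    refine ⟨K j ∪ (O ∩ K b), (hS.Kc j hjo).union (hO.inter (hS.Kc b hbo)), fun z i t hz => ?_⟩
    rcases hz with ⟨h1, h2, h3⟩ | ⟨h1, h2, h3⟩ | ⟨h1, h2, h3⟩
    · constructor
      · rintro (h | h)
        · rw [h1] at h
          exact absurd h (hS.Kx j hjo)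
        · have h' := h.2
          rw [h1] at h'
          exact absurd h' (hS.Kx b hbo)
      · rw [h2]
        rintro (h | h)
        · exact absurd h hjo.not_gt
        · exact absurd h.1 hjo.ne'
    · rcases lt_trichotomy i j with h | h | h
      · exact ⟨fun _ => Or.inl h, fun _ => Or.inl (hS.Ts i h1 j hj h h2)⟩
      · subst h
        have hz1 : z ∉ K i := hS.Td i h1 z h2
        have hz2 : z ∈ K b := hS.Ts i h1 b hb hjb h2
        rw [h3, ht']
        constructor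
        · rintro (h | h)
          · exact absurd h hz1
          · right
            exact ⟨rfl, (add_le_add_iff_left _).2 ((hOw z h2).1 h.1)⟩
        · rintro (h | h)
          · exact absurd h (lt_irrefl _)
          · exact Or.inr ⟨(hOw z h2).2 ((add_le_add_iff_left _).1 h.2), hz2⟩
      · have hz1 : z ∉ K i := hS.Td i h1 z h2
        have hio := hS.Dlt i h1
        constructor
        · rintro (h' | h')
          · exact absurd (hS.Km j i h.le hio h') hz1
          · exact absurd (hS.Km b i (hmin i h1 h) hio h'.2) hz1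
        · rintro (h' | h')
          · exact absurd h' h.not_gt
          · exact absurd h'.1 h.ne'
    · rcases lt_trichotomy i j with h | h | h
      · refine ⟨fun _ => Or.inl h, fun _ => Or.inl ?_⟩
        rw [h2]
        exact hS.Km i j h.le hjo (FC_elK hS h1)
      · subst h
        refine ⟨fun _ => Or.inr ⟨rfl, ?_⟩, fun _ => Or.inl ?_⟩
        · rw [h3]
          exact zero_le
        · rw [h2]
          exact FC_elK hS h1
      · have hbi : b < i := by
          refine lt_of_le_of_ne (hmin i h1.1 h) ?_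
          rintro rfl
          obtain ⟨c, hc, hjc, hcb⟩ := h1.2.2 j h
          exact absurd (hmin c hc hjc) (not_le.2 hcb)
        constructor
        · rintro (h' | h')
          · rw [h2] at h'
            exact absurd h' (FC_elU hS h1 h)
          · have h'' := h'.2
            rw [h2] at h''
            exact absurd h'' (FC_elU hS h1 hbi)
        · rintro (h' | h')
          · exact absurd h' h.not_gt
          · exact absurd h'.1 h.ne'
  · have hjo := hS.Dlt j hj.1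
    refine ⟨K j, hS.Kc j hjo, fun z i t hz => ?_⟩
    rcases hz with ⟨h1, h2, h3⟩ | ⟨h1, h2, h3⟩ | ⟨h1, h2, h3⟩
    · constructor
      · intro h
        rw [h1] at h
        exact absurd h (hS.Kx j hjo)
      · rw [h2]
        rintro (h | h)
        · exact absurd h hjo.not_gt
        · exact absurd h.1 hjo.ne'
    · rcases lt_or_ge i j with h | h
      · exact ⟨fun _ => Or.inl h, fun _ => hS.Ts i h1 j hj.1 h h2⟩
      · constructor
        · intro h'
          exact absurd (hS.Km j i h (hS.Dlt i h1) h') (hS.Td i h1 z h2)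
        · rintro (h' | h')
          · exact absurd h' h.not_gt
          · have h4 := h'.2
            rw [h3, ht'] at h4
            have h5 : (1 : Ordinal.{u}) ≤ 0 := le_self_add.trans h4
            exact absurd h5 (not_le.2 zero_lt_one)
    · rcases lt_or_ge j i with h | h
      · constructor
        · intro h'
          rw [h2] at h'
          exact absurd h' (FC_elU hS h1 h)
        · rintro (h' | h')
          · exact absurd h' h.not_gt
          · exact absurd h'.1 h.ne'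
      · constructor
        · intro _
          rcases h.lt_or_eq with h4 | h4
          · exact Or.inl h4
          · right
            refine ⟨h4, ?_⟩
            rw [h3]
            exact zero_le
        · intro _
          rw [h2]
          exact hS.Km i j h hjo (FC_elK hS h1)

private theorem FC_code_inj (hS : FC_S x o K T D e) (hg : ∀ a ∈ D, OrdOn (T a) (g a))
    {z w : X} {i t : Ordinal.{u}} (hz : FC_code x o T D e g z i t)
    (hw : FC_code x o T D e g w i t) : z = w := by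
  rcases hz with ⟨h1, h2, h3⟩ | ⟨h1, h2, h3⟩ | ⟨h1, h2, h3⟩ <;>
    rcases hw with ⟨k1, k2, k3⟩ | ⟨k1, k2, k3⟩ | ⟨k1, k2, k3⟩
  · exact h1.trans k1.symm
  · exact absurd h2 (hS.Dlt i k1).ne
  · exact absurd h2 (hS.Dlt i k1.1).ne
  · exact absurd k2 (hS.Dlt i h1).ne
  · have h4 : 1 + g i z = 1 + g i w := h3.symm.trans k3
    exact (hg i h1).1 h2 k2 ((add_right_inj 1).1 h4)
  · have h4 : 1 + g i z = 0 := h3.symm.trans k3
    have h5 : (1 : Ordinal.{u}) ≤ 0 := le_self_add.trans h4.le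
    exact absurd h5 (not_le.2 zero_lt_one)
  · exact absurd k2 (hS.Dlt i h1.1).ne
  · have h4 : 1 + g i w = 0 := k3.symm.trans h3
    have h5 : (1 : Ordinal.{u}) ≤ 0 := le_self_add.trans h4.le
    exact absurd h5 (not_le.2 zero_lt_one)
  · exact h2.trans k2.symm

private theorem FC_code_lt (hS : FC_S x o K T D e) {G : Ordinal.{u}} (hG : 0 < G)
    (hGg : ∀ a < o, ∀ z, 1 + g a z < G) {z : X} {i t : Ordinal.{u}}
    (hz : FC_code x o T D e g z i t) : t < G := by
  rcases hz with ⟨h1, h2, h3⟩ | ⟨h1, h2, h3⟩ | ⟨h1, h2, h3⟩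
  · rw [h3]
    exact hG
  · rw [h3]
    exact hGg i (hS.Dlt i h1) z
  · rw [h3]
    exact hG

private theorem FC_isOrd (hS : FC_S x o K T D e) (hg : ∀ a ∈ D, OrdOn (T a) (g a)) :
    IsOrd (FC_F x T D e) := by
  classical
  obtain ⟨G, hG, hGg⟩ := FC_G o g
  set f : X → Ordinal.{u} := fun z =>
    if h : ∃ p : Ordinal.{u} × Ordinal.{u}, FC_code x o T D e g z p.1 p.2 then
      G * h.choose.1 + h.choose.2 else 0 with hf
  have hspec : ∀ z i t, FC_code x o T D e g z i t → f z = G * i + t := by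
    intro z i t hz
    have h : ∃ p : Ordinal.{u} × Ordinal.{u}, FC_code x o T D e g z p.1 p.2 := ⟨(i, t), hz⟩
    have h1 : f z = G * h.choose.1 + h.choose.2 := by
      rw [hf]
      exact dif_pos h
    obtain ⟨h2, h3⟩ := FC_code_unique hS h.choose_spec hz
    rw [h1, h2, h3]
  refine ⟨f, ?_, ?_⟩
  · intro z hz w hw hzw
    obtain ⟨i, t, hzc⟩ := FC_code_ex (g := g) hz
    obtain ⟨j, t', hwc⟩ := FC_code_ex (g := g) hw
    have ht := FC_code_lt hS hG hGg hzc
    have ht' := FC_code_lt hS hG hGg hwc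
    rw [hspec z i t hzc, hspec w j t' hwc] at hzw
    have h1 := (FC_lex ht ht').1 hzw.le
    have h2 := (FC_lex ht' ht).1 hzw.ge
    have h3 : i = j ∧ t = t' := by
      rcases h1 with h1 | ⟨h1, h1'⟩
      · rcases h2 with h2 | ⟨h2, h2'⟩
        · exact absurd h1 h2.not_gt
        · exact absurd h2 h1.ne'
      · rcases h2 with h2 | ⟨h2, h2'⟩
        · exact absurd h1 h2.ne'
        · exact ⟨h1, le_antisymm h1' h2'⟩
    obtain ⟨rfl, rfl⟩ := h3
    exact FC_code_inj hS hg hzc hwc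
  · intro w hw
    obtain ⟨j, t', hwc⟩ := FC_code_ex (g := g) hw
    obtain ⟨O, hO, hO'⟩ := FC_seg hS hg hwc
    refine ⟨O, hO, fun z hz => ?_⟩
    obtain ⟨i, t, hzc⟩ := FC_code_ex (g := g) hz
    rw [hspec z i t hzc, hspec w j t' hwc, FC_lex (FC_code_lt hS hG hGg hzc)
      (FC_code_lt hS hG hGg hwc)]
    exact hO' z i t hzc

end

theorem thm_FC (hDer : St_Der.{u}) (hB : St_BigNot.{u}) (hF : St_Filt.{u}) : St_FC.{u} := by
  intro X _ _ _ _ x r μ K hmin hfilt D T e hD hT hTT hlim hbig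
  have hcpt := hF.cpt X x μ K hfilt
  have hS : FC_S x μ.ord K T D e :=
    { Dlt := hD.1
      Dunb := hD.2.1
      Dcl := hD.2.2
      Kc := hfilt.clopen
      Kx := hfilt.notin
      Km := hfilt.mono
      cover := hfilt.cover
      Tc := fun a ha => (hT a ha).1
      Tne := fun a ha => (hT a ha).2.1
      Td := fun a ha z hz hzK => Set.disjoint_left.1 (hT a ha).2.2 hz hzK
      Ts := hTT
      lim := fun l hl O hO he => hlim l hl.1 hl.2.1 hl.2.2 O hO he }
  have hcl := FC_closed hS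
  have hTord : ∀ a ∈ D, IsOrd (T a) := by
    intro a ha
    refine hmin.small (T a) (hT a ha).1 ?_
    intro hx
    have h1 := ((hDer.iff X (T a) r x).1 hx).1
    exact FC_Tx hS ha h1 rfl
  have hg : ∃ g : Ordinal.{u} → X → Ordinal.{u}, ∀ a ∈ D, OrdOn (T a) (g a) := by
    classical
    refine ⟨fun a => if h : a ∈ D then (hTord a h).choose else fun _ => 0, fun a ha => ?_⟩
    have h1 : (if h : a ∈ D then (hTord a h).choose else fun _ => 0) =
        (hTord a ha).choose := dif_pos ha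
    change OrdOn (T a) (if h : a ∈ D then (hTord a h).choose else fun _ => 0)
    rw [h1]
    exact (hTord a ha).choose_spec
  obtain ⟨g, hg⟩ := hg
  refine hB X x r hmin (FC_F x T D e) hcl ?_ (FC_isOrd hS hg)
  rw [hDer.iff]
  refine ⟨Or.inl rfl, fun s hs => ?_⟩
  rw [accPt_iff_nhds]
  intro U hU
  obtain ⟨V, hVU, hVo, hxV⟩ := mem_nhds_iff.1 hU
  obtain ⟨b, hb, hVb⟩ := hcpt Vᶜ hVo.isClosed_compl (fun h => h hxV)
  obtain ⟨a, ha, hba, y, hy⟩ := hbig s hs b hb
  have hyT : y ∈ T a := ((hDer.iff X (T a) s y).1 hy).1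
  refine ⟨y, ⟨hVU ?_, ?_⟩, FC_Tx hS ha hyT⟩
  · by_contra hyV
    exact hS.Td a ha y hyT (hS.Km b a hba.le (hS.Dlt a ha) (hVb hyV))
  · refine hDer.mono X (T a) (FC_F x T D e) s ?_ hy
    intro z hz
    exact Or.inr (Or.inl ⟨a, ha, hz⟩)

end Pool.Agent.HCO
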