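import Pool.Agent.HCO.St4

/-!
# HCO [Filt]: basic facts on filtrations
-/

set_option autoImplicit false

open Set Topology Cardinal Ordinal Order Filter

universe u v w

namespace Pool.Agent.HCO

private lemma filt_openU (X : Type u) [TopologicalSpace X] (x : X)
    (o : Ordinal.{u}) (K : Ordinal.{u} → Set X) (hK : PreFilt x o K) (l : Ordinal.{u})
    (hl : l ≤ o) : IsOpen (Uu K l) := by
  have h : Uu K l = ⋃ a ∈ Iio l, K a := by
    ext z
    simp [Uu]
  rw [h]
  exact isOpen_biUnion fun a ha => (hK.clopen a (lt_of_lt_of_le ha hl)).isOpen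

private lemma filt_bd (X : Type u) [TopologicalSpace X] [CompactSpace X] [T2Space X] (x : X)
    (o : Ordinal.{u}) (K : Ordinal.{u} → Set X) (hK : PreFilt x o K) (l : Ordinal.{u})
    (hl : l ≤ o) (hlim : IsSuccLimit l) (A : Set X) (hA : IsClosed A) (hAl : A ⊆ Uu K l) :
    ∃ a < l, A ⊆ K a := by
  have hne : Nonempty (Iio l) := by
    have : (⊥ : Ordinal.{u}) < l := hlim.bot_lt
    exact ⟨⟨⊥, this⟩⟩
  have hdir : Directed (· ⊆ ·) fun a : Iio l => K a.1 := by
    intro a b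
    rcases le_total a.1 b.1 with h | h
    · exact ⟨b, hK.mono _ _ h (lt_of_lt_of_le b.2 hl), subset_rfl⟩
    · exact ⟨a, subset_rfl, hK.mono _ _ h (lt_of_lt_of_le a.2 hl)⟩
  obtain ⟨a, ha⟩ := hA.isCompact.elim_directed_cover (fun a : Iio l => K a.1)
    (fun a => (hK.clopen a.1 (lt_of_lt_of_le a.2 hl)).isOpen) (fun z hz => by
      obtain ⟨a, ha, hza⟩ := hAl hz
      exact mem_iUnion.2 ⟨⟨a, ha⟩, hza⟩) hdir
  exact ⟨a.1, a.2, ha⟩

private lemma filt_lim {μ : Cardinal.{u}} (h : ℵ₀ < μ) : IsSuccLimit μ.ord :=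
  Cardinal.isSuccLimit_ord h.le

private lemma filt_cpt (X : Type u) [TopologicalSpace X] [CompactSpace X] [T2Space X] (x : X)
    (μ : Cardinal.{u}) (K : Ordinal.{u} → Set X) (hK : Filt x μ K) (A : Set X)
    (hA : IsClosed A) (hx : x ∉ A) : ∃ a < μ.ord, A ⊆ K a := by
  refine filt_bd X x μ.ord K hK.toPreFilt μ.ord le_rfl (filt_lim hK.unc) A hA ?_
  intro z hz
  obtain ⟨a, ha, hza⟩ := hK.cover z (fun h => hx (h ▸ hz))
  exact ⟨a, ha, hza⟩

theorem thm_Filt (hC : St_Club.{u}) : St_Filt.{u} where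
  cpt := fun X _ _ _ x μ K hK A hA hx => filt_cpt X x μ K hK A hA hx
  bd := fun X _ _ _ x o K hK l hl hlim A hA hAl => filt_bd X x o K hK l hl hlim A hA hAl
  closedBd := by
    intro X _ x o K hK l hl
    exact isClosed_closure.sdiff (filt_openU X x o K hK l hl)
  openU := fun X _ x o K hK l hl => filt_openU X x o K hK l hl
  nb := by
    intro X _ _ _ x μ K hK K' hS hx
    have h1 : ∀ n, ∃ a < μ.ord, K' n ⊆ K a := fun n =>
      filt_cpt X x μ K hK (K' n) (hS n).1.isClosed (hS n).2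
    choose f hf1 hf2 using h1
    have hcof : ℵ₀ < μ.ord.cof := by
      rw [hK.reg.cof_ord]
      exact hK.unc
    obtain ⟨c, hc, hfc⟩ := hC.supN μ.ord f hcof hf1
    have h2 : (⋃ n, K' n) ⊆ K c :=
      iUnion_subset fun n => (hf2 n).trans (hK.mono _ _ (hfc n).le hc)
    exact hK.notin c hc ((hK.clopen c hc).isClosed.closure_subset_iff.2 h2 hx)
  ne := by
    intro X _ _ _ x r μ K hK l hl hlim
    by_contra hne
    rw [Set.not_nonempty_iff_eq_empty] at hne
    have h1 : closure (Uu K l) ⊆ Uu K l := by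
      intro z hz
      by_contra h
      have : z ∈ Bd K l := ⟨hz, h⟩
      rw [hne] at this
      exact this
    obtain ⟨a, ha, hsub⟩ := filt_bd X x μ.ord K hK.toPreFilt l hl.le hlim (Uu K l)
      (isClosed_of_closure_subset h1) subset_rfl
    obtain ⟨z, hz1, hz2⟩ := hK.strict a (ha.trans hl)
    exact hz2 (hsub ⟨a + 1, hlim.add_one_lt ha, hz1⟩)
  acc := by
    intro X _ _ _ x μ K hK F hF
    have h1 : ∀ b : Ordinal.{u}, ∃ a, b < μ.ord → a < μ.ord ∧ ∃ z ∈ F, z ∈ K a ∧ z ∉ K b := by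
      intro b
      by_cases hb : b < μ.ord
      · rw [accPt_iff_nhds] at hF
        obtain ⟨z, ⟨hz1, hz2⟩, hz3⟩ := hF (K b)ᶜ
          ((hK.clopen b hb).isClosed.isOpen_compl.mem_nhds (hK.notin b hb))
        obtain ⟨a, ha, hza⟩ := hK.cover z hz3
        exact ⟨a, fun _ => ⟨ha, z, hz2, hza, hz1⟩⟩
      · exact ⟨0, fun h => absurd h hb⟩
    choose f hf using h1
    refine ⟨_, hC.fn μ f hK.reg hK.unc fun a ha => (hf a ha).1, ?_⟩
    rintro l ⟨hl, hlim, hfl⟩
    have h2 : ∀ b < l, ∃ z ∈ F, z ∈ Uu K l ∧ z ∉ K b := by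
      intro b hb
      obtain ⟨z, hz1, hz2, hz3⟩ := (hf b (hb.trans hl)).2
      exact ⟨z, hz1, ⟨f b, hfl b hb, hz2⟩, hz3⟩
    refine ⟨hlim, h2, ?_⟩
    by_contra hcon
    push Not at hcon
    have h3 : closure (F ∩ Uu K l) ⊆ Uu K l := by
      intro z hz
      by_contra h
      exact hcon z ⟨closure_mono inter_subset_right hz, h⟩ hz
    obtain ⟨a, ha, hsub⟩ := filt_bd X x μ.ord K hK.toPreFilt l hl.le hlim _
      isClosed_closure h3
    obtain ⟨z, hz1, hz2, hz3⟩ := h2 a ha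
    exact hz3 (hsub (subset_closure ⟨hz1, hz2⟩))

end Pool.Agent.HCO
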