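import Pool.Agent.HCO.St4

set_option autoImplicit false

open Set Topology Cardinal Ordinal Order Filter

universe u v w

namespace Pool.Agent.HCO

private theorem G_ex {T : Type v} (U : Ultrafilter T) {I : Type w} [Finite I] (p : I → T → Prop)
    (h : ∀ᶠ x in (U : Filter T), ∃ i, p i x) : ∃ i, ∀ᶠ x in (U : Filter T), p i x := by
  by_contra hcon
  push Not at hcon
  have h1 : ∀ i, ∀ᶠ x in (U : Filter T), ¬ p i x := hcon
  have h2 : ∀ᶠ x in (U : Filter T), ∀ i, ¬ p i x := eventually_all.2 h1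
  obtain ⟨x, ⟨i, hi⟩, hx⟩ := (h.and h2).exists
  exact hx i hi

theorem thm_G (hC : St_Club.{u}) : St_G.{u} := by
  intro μ S L hμ hμ0 hS htree hchain a haS hblock
  have hcof : μ.ord.cof = μ := hμ.cof_ord
  have hlim : IsSuccLimit μ.ord := Cardinal.isSuccLimit_ord hμ.aleph0_le
  -- the size k
  have hk : ∃ k : ℕ, ∀ b < μ.ord, ∃ x, b < x ∧ x < μ.ord ∧ (a x).card = k := by
    by_contra hcon
    push Not at hcon
    choose b hb hbb using hcon
    obtain ⟨c, hc, hcc⟩ := hC.supN μ.ord b (by rw [hcof]; exact hμ0) hb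
    exact hbb (a c).card c (hcc _) hc rfl
  obtain ⟨k, hk⟩ := hk
  let T := {x : Ordinal.{u} // x < μ.ord ∧ (a x).card = k}
  have h0 : (0 : Ordinal.{u}) < μ.ord := hlim.bot_lt
  have hne : Nonempty T := by
    obtain ⟨x, _, hx, hx'⟩ := hk 0 h0
    exact ⟨⟨x, hx, hx'⟩⟩
  let U : Ultrafilter T := Ultrafilter.of (atTop : Filter T)
  have hU : ∀ b < μ.ord, ∀ᶠ x : T in (U : Filter T), b < x.1 := by
    intro b hb
    obtain ⟨x, hbx, hx, hx'⟩ := hk b hb
    have : ∀ᶠ y : T in (atTop : Filter T), (⟨x, hx, hx'⟩ : T) ≤ y := eventually_ge_atTop _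
    exact (Ultrafilter.of_le (atTop : Filter T)) (this.mono fun y hy => hbx.trans_le hy)
  let z : T → Fin k → Ordinal.{u} := fun x j => (a x.1).orderEmbOfFin x.2.2 j
  have hz : ∀ x j, z x j ∈ a x.1 := fun x j => Finset.orderEmbOfFin_mem _ _ _
  have hzs : ∀ (x : T) (y : Ordinal.{u}), y ∈ a x.1 → ∃ j, z x j = y := by
    intro x y hy
    have : y ∈ Set.range ((a x.1).orderEmbOfFin x.2.2) := by
      rw [Finset.range_orderEmbOfFin]; exact hy
    exact this
  have hlt : ∀ (x y : T) i j, x < y → z x i < z y j := fun x y i j hxy =>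
    hblock x.1 y.1 hxy y.2.1 _ (hz x i) _ (hz y j)
  by_cases hcase : ∀ᶠ x : T in (U : Filter T), ∀ᶠ y : T in (U : Filter T),
      ∃ ij : Fin k × Fin k, L (z x ij.1) (z y ij.2)
  · exfalso
    have h1 : ∀ᶠ x : T in (U : Filter T), ∃ ij : Fin k × Fin k, ∀ᶠ y : T in (U : Filter T),
        L (z x ij.1) (z y ij.2) := hcase.mono fun x hx => G_ex U _ hx
    obtain ⟨⟨i, j⟩, hij⟩ := G_ex U _ h1
    simp only at hij
    refine hchain {w | ∃ x : T, (∀ᶠ y : T in (U : Filter T), L (z x i) (z y j)) ∧ z x i = w} ?_ ?_ ?_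
    · rintro w ⟨x, _, rfl⟩
      exact haS _ x.2.1 _ (hz x i)
    · intro b hb
      by_contra hcon
      push Not at hcon
      -- all values are at most b
      have hval : ∀ x : T, (∀ᶠ y : T in (U : Filter T), L (z x i) (z y j)) → z x i ≤ b :=
        fun x hx => hcon _ ⟨x, hx, rfl⟩
      classical
      let g : Ordinal.{u} → Ordinal.{u} := fun w =>
        if h : ∃ x : T, z x i = w then (h.choose).1 else 0
      have hg : ∀ w, g w < μ.ord := by
        intro w
        simp only [g]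
        split_ifs with h
        · exact (h.choose).2.1
        · exact h0
      have hb1 : b + 1 < μ.ord := hlim.add_one_lt hb
      obtain ⟨c, hc, hcc⟩ := hC.sup μ.ord (b + 1) g (by
        rw [hcof]; exact Cardinal.lt_ord.1 hb1) (fun w _ => hg w) hlim
      obtain ⟨x, hx1, hx2⟩ := (hij.and (hU c hc)).exists
      have h2 : z x i < b + 1 := Order.lt_add_one_iff.2 (hval x hx1)
      have h3 := hcc _ h2
      have hex : ∃ y : T, z y i = z x i := ⟨x, rfl⟩
      have h4 : g (z x i) = hex.choose.1 := by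
        simp only [g]
        rw [dif_pos hex]
      have h5 : hex.choose = x := by
        rcases lt_trichotomy hex.choose x with h | h | h
        · exact absurd hex.choose_spec (hlt _ _ i i h).ne
        · exact h
        · exact absurd hex.choose_spec.symm (hlt _ _ i i h).ne
      rw [h4, h5] at h3
      exact absurd h3 (not_lt.2 hx2.le)
    · rintro w ⟨x, hx, rfl⟩ w' ⟨x', hx', rfl⟩ hww
      obtain ⟨y, hy, hy'⟩ := (hx.and hx').exists
      exact htree _ (haS _ x.2.1 _ (hz x i)) _ (haS _ x'.2.1 _ (hz x' i)) _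
        (haS _ y.2.1 _ (hz y j)) hww hy hy'
  · rw [← Ultrafilter.eventually_not] at hcase
    have h1 : ∀ᶠ x : T in (U : Filter T), ∀ᶠ y : T in (U : Filter T),
        ¬ ∃ ij : Fin k × Fin k, L (z x ij.1) (z y ij.2) :=
      hcase.mono fun x hx => Ultrafilter.eventually_not.2 hx
    obtain ⟨f, hf1, hf2⟩ := exists_seq_of_forall_finset_exists
      (fun x : T => ∀ᶠ y : T in (U : Filter T), ¬ ∃ ij : Fin k × Fin k, L (z x ij.1) (z y ij.2))
      (fun x y : T => x < y ∧ ¬ ∃ ij : Fin k × Fin k, L (z x ij.1) (z y ij.2)) (by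
        intro s hs
        have h2 : ∀ᶠ y : T in (U : Filter T), ∀ x ∈ s,
            (x < y ∧ ¬ ∃ ij : Fin k × Fin k, L (z x ij.1) (z y ij.2)) := by
          rw [Filter.eventually_all_finset]
          intro x hx
          exact (hU x.1 x.2.1).and (hs x hx)
        obtain ⟨y, hy1, hy2⟩ := (h1.and h2).exists
        exact ⟨y, hy1, hy2⟩)
    refine ⟨fun n => (f n).1, ?_, fun n => (f n).2.1, ?_⟩
    · exact fun m n hmn => (hf2 m n hmn).1
    · intro m n hmn y hy w hw hL
      obtain ⟨i, rfl⟩ := hzs _ _ hy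
      obtain ⟨j, rfl⟩ := hzs _ _ hw
      exact (hf2 m n hmn).2 ⟨(i, j), hL⟩

end Pool.Agent.HCO
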