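import Pool.Agent.HCO.St4

/-!
# HCO [Gf]: neighbourhood assignments on positive sets
-/

set_option autoImplicit false

open Set Topology Cardinal Ordinal Order Filter

universe u v w

namespace Pool.Agent.HCO

private lemma gf_ht {X : Type u} [TopologicalSpace X] {x : X} {μ : Cardinal.{u}}
    {K : Ordinal.{u} → Set X} (hK : Filt x μ K) {z : X} (hz : z ≠ x) :
    ht K z < μ.ord ∧ z ∈ K (ht K z) := by
  obtain ⟨a, ha, hza⟩ := hK.cover z hz
  have hne : {a | z ∈ K a}.Nonempty := ⟨a, hza⟩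
  exact ⟨lt_of_le_of_lt (csInf_le' hza) ha, csInf_mem hne⟩

private lemma gf_ht_le {X : Type u} {K : Ordinal.{u} → Set X} {z : X} {a : Ordinal.{u}}
    (h : z ∈ K a) : ht K z ≤ a := csInf_le' h

private lemma gf_acc {X : Type u} [TopologicalSpace X] [CompactSpace X] [T2Space X]
    {x : X} {μ : Cardinal.{u}} {K : Ordinal.{u} → Set X} (hF : St_Filt.{u}) (hK : Filt x μ K)
    {H : Set X} (h : ∀ b < μ.ord, ∃ v ∈ H, v ≠ x ∧ v ∉ K b) : AccPt x (𝓟 H) := by
  rw [accPt_iff_nhds]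
  intro U hU
  obtain ⟨V, hVU, hV, hxV⟩ := mem_nhds_iff.1 hU
  obtain ⟨b, hb, hVb⟩ := hF.cpt X x μ K hK Vᶜ hV.isClosed_compl (fun h => h hxV)
  obtain ⟨v, hvH, hvx, hvb⟩ := h b hb
  refine ⟨v, ⟨hVU ?_, hvH⟩, hvx⟩
  by_contra hv
  exact hvb (hVb hv)

private lemma gf_closed {X : Type u} [TopologicalSpace X]
    {x : X} {μ : Cardinal.{u}} {K : Ordinal.{u} → Set X} (hK : Filt x μ K) (H : Set X) :
    IsClosed {z | z = x ∨ z ∈ closure (H ∩ Uu K (ht K z))} := by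
  refine isClosed_of_closure_subset ?_
  intro z hz
  by_cases hzx : z = x
  · exact Or.inl hzx
  refine Or.inr ?_
  obtain ⟨h1, h2⟩ := gf_ht hK hzx
  have hop := (hK.clopen _ h1).isOpen
  have h3 : z ∈ closure ({z | z = x ∨ z ∈ closure (H ∩ Uu K (ht K z))} ∩ K (ht K z)) := by
    rw [mem_closure_iff] at hz ⊢
    intro O hO hzO
    obtain ⟨w, hw1, hw2⟩ := hz (O ∩ K (ht K z)) (hO.inter hop) ⟨hzO, h2⟩
    exact ⟨w, hw1.1, hw2, hw1.2⟩
  have h4 : {z | z = x ∨ z ∈ closure (H ∩ Uu K (ht K z))} ∩ K (ht K z) ⊆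
      closure (H ∩ Uu K (ht K z)) := by
    rintro w ⟨hw1, hw2⟩
    rcases hw1 with rfl | hw1
    · exact absurd hw2 (hK.notin _ h1)
    · refine closure_mono ?_ hw1
      rintro t ⟨ht1, a, ha, hta⟩
      exact ⟨ht1, a, lt_of_lt_of_le ha (gf_ht_le hw2), hta⟩
  exact closure_minimal h4 isClosed_closure h3

private lemma gf_inter {X : Type u} [TopologicalSpace X] [CompactSpace X] [T2Space X]
    [TotallyDisconnectedSpace X] {x : X} {μ : Cardinal.{u}} {K : Ordinal.{u} → Set X}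
    (hN : St_N.{u}) (hK : Filt x μ K) (hO : OE1 X x) (H : Set X) (F : X → Set X)
    (hF : ∀ v ∈ H, IsClosed (F v) ∧ AccPt x (𝓟 (F v))) (hc : H.Countable) :
    AccPt x (𝓟 {z | ∀ v ∈ H, z ∈ F v}) := by
  rcases H.eq_empty_or_nonempty with rfl | hne
  · have : {z : X | ∀ v ∈ (∅ : Set X), z ∈ F v} = (Set.univ : Set X) := by
      ext z
      simp
    rw [this]
    exact hO.1
  obtain ⟨g, hg⟩ := hc.exists_eq_range hne
  have hgH : ∀ n, g n ∈ H := fun n => by rw [hg]; exact mem_range_self n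
  have hω : (ω : Ordinal.{u}) < μ.ord := by
    rw [← Cardinal.ord_aleph0]
    exact Cardinal.ord_lt_ord.2 hK.unc
  have key := hN.inters X x μ K hK hO ω hω (fun o => {z | ∀ n : ℕ, (n : Ordinal.{u}) = o → z ∈ F (g n)})
    (by
      intro i hi
      obtain ⟨n, rfl⟩ := Ordinal.lt_omega0.1 hi
      have : {z | ∀ m : ℕ, (m : Ordinal.{u}) = (n : Ordinal.{u}) → z ∈ F (g m)} = F (g n) := by
        ext z
        constructor
        · intro h
          exact h n rfl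
        · intro h m hm
          rw [Nat.cast_inj.1 hm]
          exact h
      simp only [this]
      exact hF _ (hgH n))
  refine key.mono ?_
  rw [principal_mono]
  intro z hz v hv
  rw [hg] at hv
  obtain ⟨n, rfl⟩ := hv
  exact hz n (Ordinal.natCast_lt_omega0 n) n rfl

theorem thm_Gf (hN : St_N.{u}) (hFi : St_Filt.{u}) : St_Gf.{u} := by
  intro X _ _ _ _ x K hK hct hO A f hA hf
  by_contra hcon
  push Not at hcon
  -- the bad points and the witnesses
  have hwit : ∀ v : X, ∃ F : Set X, ¬ Pos x {y | y ∈ A ∧ v ∈ f y} → IsClosed F ∧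
      AccPt x (𝓟 F) ∧ ∀ y ∈ A, y ∈ F → y ≠ x → v ∉ f y := by
    intro v
    by_cases hv : Pos x {y | y ∈ A ∧ v ∈ f y}
    · exact ⟨Set.univ, fun h => absurd hv h⟩
    · have hv' := hv
      unfold Pos at hv
      push Not at hv
      obtain ⟨F, hF1, hF2, hF3⟩ := hv
      refine ⟨F, fun _ => ⟨hF1, hF2, ?_⟩⟩
      intro y hyA hyF hyx hvy
      exact hyx (hF3 y ⟨hyA, hvy⟩ hyF)
  choose F hF using hwit
  set H : Set X := {v | ¬ Pos x {y | y ∈ A ∧ v ∈ f y}} with hH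
  have hacc : AccPt x (𝓟 H) := by
    refine gf_acc hFi hK ?_
    intro b hb
    obtain ⟨v, hv1, hv2, hv3⟩ := hcon b hb
    exact ⟨v, hv3, hv1, hv2⟩
  obtain ⟨G, hG1, hG2, hG3⟩ := hN.diag X x ℵ₁ K hK hO
    (fun i => {z | ∀ v ∈ H ∩ K i, z ∈ F v}) (by
      intro i hi
      refine ⟨?_, ?_⟩
      · have : {z | ∀ v ∈ H ∩ K i, z ∈ F v} = ⋂ v ∈ H ∩ K i, F v := by
          ext z
          simp
        rw [this]
        exact isClosed_biInter fun v hv => (hF v hv.1).1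
      · exact gf_inter hN hK hO (H ∩ K i) F (fun v hv => ⟨(hF v hv.1).1, (hF v hv.1).2.1⟩)
          ((hct i hi).mono inter_subset_right))
  obtain ⟨C, hC1, hC2⟩ := hFi.acc X x ℵ₁ K hK H hacc
  have hacc' : AccPt x (𝓟 {z | z = x ∨ z ∈ closure (H ∩ Uu K (ht K z))}) := by
    refine gf_acc hFi hK ?_
    intro b hb
    obtain ⟨l, hlC, hbl⟩ := hC1.2.1 b hb
    obtain ⟨hlim, -, z, hz1, hz2⟩ := hC2 l hlC
    have hl := hC1.1 l hlC
    have hzl : z ∈ K l := hK.cl l hl hz1.1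
    have hzn : ∀ a < l, z ∉ K a := fun a ha h => hz1.2 ⟨a, ha, h⟩
    have hht : ht K z = l := by
      refine le_antisymm (gf_ht_le hzl) ?_
      by_contra hlt
      push Not at hlt
      have hmem : z ∈ K (ht K z) := csInf_mem (s := {a | z ∈ K a}) ⟨l, hzl⟩
      exact hzn _ hlt hmem
    refine ⟨z, Or.inr ?_, ?_, hzn b hbl⟩
    · rw [hht]
      exact hz2
    · rintro rfl
      exact hK.notin l hl hzl
  have hint := hN.inter X x hO G _ hG1 (gf_closed hK H) hG2 hacc'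
  obtain ⟨y, hyA, ⟨hyG, hyH⟩, hyx⟩ := hA _ (hG1.inter (gf_closed hK H)) hint
  rcases hyH with h | hyH
  · exact hyx h
  obtain ⟨hfo, hfy⟩ := hf y hyA
  rw [mem_closure_iff] at hyH
  obtain ⟨v, hvf, hvH, a, ha, hva⟩ := hyH (f y) hfo hfy
  have h1 : y ∈ F v := hG3 y hyG hyx a ha v ⟨hvH, hva⟩
  exact (hF v hvH).2.2 y hyA h1 hyx hvf

end Pool.Agent.HCO
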