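import Pool.Agent.HCO.St4

/-!
# KU: if `μ = r.cof` and `μ.ord < r`, then `x` is not of countable character in small sets
-/

set_option autoImplicit false

universe u v w

open Set Topology Cardinal Ordinal Order Filter

namespace Pool.Agent.HCO

private theorem KU_acc {X : Type u} [TopologicalSpace X] (x : X) (C : Set X) :
    AccPt x (𝓟 C) ↔ x ∈ closure (C \ {x}) := by
  rw [accPt_principal_iff_clusterPt, mem_closure_iff_clusterPt]

/-- a cofinal family of order type `r.cof` -/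
private theorem KU_seq (r : Ordinal.{u}) :
    ∃ (ι : Type u) (ρ : ι → Ordinal.{u}), (∀ i, ρ i < r) ∧ (∀ t < r, ∃ i, t ≤ ρ i) ∧
      ∀ t < r, #{i | ρ i < t} < r.cof := by
  obtain ⟨s, hs, hs'⟩ := Ordinal.exists_ord_cof_eq r.ToType
  rw [Ordinal.cof_toType] at hs'
  have hco : ∀ t < r, ∃ i : s, t ≤ ((Ordinal.ToType.mk.symm i.1 : Iio r) : Ordinal.{u}) := by
    intro t ht
    obtain ⟨y, hy, hty⟩ := hs (Ordinal.ToType.mk ⟨t, ht⟩)
    refine ⟨⟨y, hy⟩, ?_⟩
    have : (⟨t, ht⟩ : Iio r) ≤ Ordinal.ToType.mk.symm y := by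
      rw [OrderIso.le_symm_apply]; exact hty
    exact this
  refine ⟨s, fun i => ((Ordinal.ToType.mk.symm i.1 : Iio r) : Ordinal.{u}), fun i => ?_, hco, ?_⟩
  · exact (Ordinal.ToType.mk.symm i.1 : Iio r).2
  · intro t ht
    obtain ⟨i0, hi0⟩ := hco t ht
    have h1 : ((Ordinal.typein (α := s) (· < ·)).toRelEmbedding i0).card < r.cof := by
      rw [← Cardinal.lt_ord, ← hs']
      exact Ordinal.typein_lt_type _ _
    rw [Ordinal.card_typein] at h1
    refine lt_of_le_of_lt ?_ h1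
    refine Cardinal.mk_le_mk_of_subset (α := s) (t := {i | i < i0}) ?_
    intro i hi
    have h2 : ((Ordinal.ToType.mk.symm i.1 : Iio r) : Ordinal.{u}) <
        ((Ordinal.ToType.mk.symm i0.1 : Iio r) : Ordinal.{u}) := lt_of_lt_of_le hi hi0
    have h3 : (Ordinal.ToType.mk.symm i.1 : Iio r) < (Ordinal.ToType.mk.symm i0.1 : Iio r) := h2
    exact (OrderIso.lt_iff_lt _).1 h3

theorem thm_KU (hD : St_Der.{u}) (hSm : St_Small.{u}) (hLS : St_LS.{u}) (hC : St_OClos.{u})
    (hO : St_OCnt.{u}) (hB : St_BigNot.{u}) (hZ : St_Z1.{u}) (hCl : St_Club.{u}) : St_KU.{u} := by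
  intro X _ _ _ _ x r hM hcof R hR hordR hacc hcnt
  have hcu : ℵ₀ < r.cof := hZ X x r hM
  obtain ⟨ι, ρ, hρ, hρc, hρs⟩ := KU_seq r
  -- derivatives
  have hxr : x ∈ der (univ : Set X) r := by rw [hM.top]; rfl
  have hy : ∀ i, ∃ y, y ∈ der (univ : Set X) (ρ i) ∧ y ≠ x := by
    intro i
    have h := ((hD.iff X univ r x).1 hxr).2 (ρ i) (hρ i)
    rw [KU_acc] at h
    have hne : (der (univ : Set X) (ρ i) \ {x}).Nonempty := by
      rw [← closure_nonempty_iff]; exact ⟨x, h⟩
    obtain ⟨y, hy1, hy2⟩ := hne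
    exact ⟨y, hy1, hy2⟩
  choose y hy1 hy2 using hy
  -- closed sets missing `x`
  have hbd : ∀ A : Set X, IsClosed A → x ∉ A → ∃ t < r, ∀ i, y i ∈ A → ρ i < t := by
    intro A hA hxA
    obtain ⟨t, ht, h1, -⟩ := hSm X x r hM A hA hxA
    refine ⟨t, ht, fun i hi => ?_⟩
    by_contra hlt
    exact h1 _ hi (hD.sub X univ _ _ (not_lt.1 hlt) (hy1 i))
  have hcard : ∀ A : Set X, IsClosed A → x ∉ A → #(range y ∩ A : Set X) < r.cof := by
    intro A hA hxA
    obtain ⟨t, ht, h1⟩ := hbd A hA hxA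
    have hsub : range y ∩ A ⊆ y '' {i | ρ i < t} := by
      rintro z ⟨⟨i, rfl⟩, hz⟩
      exact ⟨i, h1 i hz, rfl⟩
    exact lt_of_le_of_lt ((Cardinal.mk_le_mk_of_subset hsub).trans Cardinal.mk_image_le) (hρs t ht)
  -- `E`
  have hxE : x ∈ closure (closure (range y) \ {x}) := by
    rw [mem_closure_iff]
    intro V hV hxV
    obtain ⟨t, ht, h1⟩ := hbd Vᶜ hV.isClosed_compl (fun h => h hxV)
    obtain ⟨i, hi⟩ := hρc t ht
    refine ⟨y i, ?_, subset_closure ⟨i, rfl⟩, hy2 i⟩
    by_contra h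
    exact absurd (h1 i h) (not_lt.2 hi)
  have hsub : der (closure (range y)) r.cof.ord ⊆ {x} := by
    refine hLS X x (closure (range y)) r.cof hM.scat isClosed_closure ?_
    intro N hN hxN
    have hord : IsOrd N := hM.small N hN.isClosed (fun h => hxN ((hD.iff X N r x).1 h).1)
    have h1 : closure (range y) ∩ N ⊆ closure (range y ∩ N) := by
      rw [inter_comm, inter_comm (range y)]
      exact hN.isOpen.inter_closure
    have h2 : #(closure (range y ∩ N) : Set X) ≤ max #(range y ∩ N : Set X) ℵ₀ :=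
      hC X N (range y ∩ N) hN.isClosed hord inter_subset_right
    exact ((Cardinal.mk_le_mk_of_subset h1).trans h2).trans_lt
      (max_lt (hcard N hN.isClosed hxN) hcu)
  have hEs : x ∉ der (closure (range y)) r := by
    intro h
    have h1 : x ∈ der (closure (range y)) (r.cof.ord + 1) := hD.sub X _ _ _ (by
      rw [← Order.succ_eq_add_one]; exact Order.succ_le_of_lt hcof) h
    have h2 := ((hD.succ X _ _ _).1 h1).2
    rw [KU_acc] at h2
    have h3 : der (closure (range y)) r.cof.ord \ {x} = ∅ := by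
      rw [sdiff_eq_empty]; exact hsub
    rw [h3, closure_empty] at h2
    exact h2
  have hRs : x ∉ der R r := fun h => hB X x r hM R hR h hordR
  obtain ⟨O, hO1, hO2⟩ := hcnt
  have hU : IsClosed (R ∪ closure (range y)) := hR.union isClosed_closure
  have hordU : IsOrd (R ∪ closure (range y)) := by
    refine hM.small _ hU ?_
    rw [hD.union X R (closure (range y)) r hR isClosed_closure]
    rintro (h | h)
    · exact hRs h
    · exact hEs h
  have hxcl : x ∈ closure ((R ∪ closure (range y)) ∩ ⋃ n, (O n)ᶜ) := by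
    rw [KU_acc] at hacc
    refine closure_mono ?_ hacc
    rintro z ⟨hz, hzx⟩
    refine ⟨Or.inl hz, ?_⟩
    by_contra hcon
    refine hzx (hO2 z hz fun n => ?_)
    by_contra hn
    exact hcon (mem_iUnion.2 ⟨n, hn⟩)
  have hxU : x ∈ R ∪ closure (range y) := hU.closure_subset (closure_mono inter_subset_left hxcl)
  obtain ⟨O', hO1', hO2'⟩ := hO X (R ∪ closure (range y)) x (fun n => (O n)ᶜ) hU hordU hxU
    (fun n => ⟨(hO1 n).1.compl.isClosed, fun h => h (hO1 n).2⟩) hxcl
  have hb : ∀ n, ∃ t < r, ∀ i, y i ∈ (O' n)ᶜ → ρ i < t := fun n =>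
    hbd _ (hO1' n).1.compl.isClosed (fun h => h (hO1' n).2)
  choose t ht1 ht2 using hb
  obtain ⟨c, hc, htc⟩ := hCl.supN r t hcu ht1
  obtain ⟨i, hi⟩ := hρc c hc
  refine hy2 i (hO2' (y i) (Or.inr (subset_closure ⟨i, rfl⟩)) fun n => ?_)
  by_contra hn
  exact absurd (ht2 n i hn) (not_lt.2 ((htc n).le.trans hi))

end Pool.Agent.HCO
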