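import Pool.Agent.HCO.St4

/-!
# KU2: in a small set `x` is not in the closure of a countable union of closed sets missing `x`
-/

set_option autoImplicit false

universe u v w

open Set Topology Cardinal Ordinal Order Filter

namespace Pool.Agent.HCO

private theorem KU2_acc {X : Type u} [TopologicalSpace X] (x : X) (C : Set X) :
    AccPt x (𝓟 C) ↔ x ∈ closure (C \ {x}) := by
  rw [accPt_principal_iff_clusterPt, mem_closure_iff_clusterPt]

theorem thm_KU2 (hKU : St_KU.{u}) (hO : St_OCnt.{u}) : St_KU2.{u} := by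
  intro X _ _ _ _ x r hM hr R hR hxR A hA hx
  have hord := hM.small R hR hxR
  have hxR' : x ∈ R := hR.closure_subset (closure_mono inter_subset_left hx)
  have hcnt := hO X R x A hR hord hxR' hA hx
  refine hKU X x r hM hr R hR hord ?_ hcnt
  rw [KU2_acc]
  refine closure_mono ?_ hx
  rintro z ⟨hz, hzA⟩
  obtain ⟨n, hn⟩ := mem_iUnion.1 hzA
  refine ⟨hz, ?_⟩
  rintro rfl
  exact (hA n).2 hn

end Pool.Agent.HCO
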