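import Pool.Agent.HCO.St4

/-!
# KU3: countable subsets of `X \ {x}` do not accumulate at `x` if `r.cof = ℵ₁`, `w1 < r`
-/

set_option autoImplicit false

universe u v w

open Set Topology Cardinal Ordinal Order Filter

namespace Pool.Agent.HCO

private theorem KU3_acc {X : Type u} [TopologicalSpace X] (x : X) (C : Set X) :
    AccPt x (𝓟 C) ↔ x ∈ closure (C \ {x}) := by
  rw [accPt_principal_iff_clusterPt, mem_closure_iff_clusterPt]

theorem thm_KU3 (hKU2 : St_KU2.{u}) (hLS : St_LS.{u}) (hC : St_OClos.{u}) (hD : St_Der.{u}) :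
    St_KU3.{u} := by
  intro X _ _ _ _ x r hM hcof hr Q hQ hxQ hx
  have hsub : der (closure Q) w1 ⊆ {x} := by
    refine hLS X x (closure Q) ℵ₁ hM.scat isClosed_closure ?_
    intro N hN hxN
    have hord : IsOrd N := hM.small N hN.isClosed (fun h => hxN ((hD.iff X N r x).1 h).1)
    have h1 : closure Q ∩ N ⊆ closure (Q ∩ N) := by
      rw [inter_comm, inter_comm Q]
      exact hN.isOpen.inter_closure
    have h2 : #(closure (Q ∩ N) : Set X) ≤ max #(Q ∩ N : Set X) ℵ₀ :=
      hC X N (Q ∩ N) hN.isClosed hord inter_subset_right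
    have h3 : #(Q ∩ N : Set X) ≤ ℵ₀ :=
      Cardinal.le_aleph0_iff_set_countable.2 (hQ.mono inter_subset_left)
    calc #(closure Q ∩ N : Set X) ≤ #(closure (Q ∩ N) : Set X) := Cardinal.mk_le_mk_of_subset h1
      _ ≤ max #(Q ∩ N : Set X) ℵ₀ := h2
      _ = ℵ₀ := max_eq_right h3
      _ < ℵ₁ := Cardinal.aleph0_lt_aleph_one
  have hsm : x ∉ der (closure Q) r := by
    intro h
    have h1 : x ∈ der (closure Q) (w1 + 1) := hD.sub X _ _ _ (by
      rw [← Order.succ_eq_add_one]; exact Order.succ_le_of_lt hr) h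
    have h2 := ((hD.succ X _ _ _).1 h1).2
    rw [KU3_acc] at h2
    have h3 : der (closure Q) w1 \ {x} = ∅ := by
      rw [diff_eq_empty]; exact hsub
    rw [h3, closure_empty] at h2
    exact h2
  rcases Q.eq_empty_or_nonempty with rfl | hne
  · simp at hx
  · obtain ⟨q, hq⟩ := hQ.exists_eq_range hne
    have hr' : r.cof.ord < r := by rw [hcof]; exact hr
    refine hKU2 X x r hM hr' (closure Q) isClosed_closure hsm (fun n => {q n}) ?_ ?_
    · intro n
      refine ⟨isClosed_singleton, ?_⟩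
      rintro h
      rw [mem_singleton_iff] at h
      exact hxQ (by rw [hq]; exact ⟨n, h.symm⟩)
    · refine closure_mono ?_ hx
      intro z hz
      refine ⟨subset_closure hz, ?_⟩
      rw [hq] at hz
      obtain ⟨n, rfl⟩ := hz
      exact mem_iUnion.2 ⟨n, rfl⟩

end Pool.Agent.HCO
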