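import Pool.Agent.HCO.St4

/-! Locally small closed sets have small rank. -/

set_option autoImplicit false

open Set Topology Cardinal Ordinal Order Filter

universe u v w

namespace Pool.Agent.HCO

/-- In a scattered space a closed set which is locally (away from `x`) of size `< ν` has
`ν.ord`-th derivative `⊆ {x}`. -/
theorem thm_LS (hD : St_Der.{u}) : St_LS.{u} := by
  classical
  intro X _ _ _ _ x F ν hS hF hK z hz
  by_contra hne
  have hne' : z ≠ x := hne
  obtain ⟨K, hK1, hzK, hKx⟩ := compact_exists_isClopen_in_isOpen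
    (isOpen_compl_singleton : IsOpen ({x}ᶜ : Set X)) hne'
  have hxK : x ∉ K := fun h => hKx h rfl
  have hlt := hK K hK1 hxK
  have hGc : IsClosed (F ∩ K) := hF.inter hK1.1
  have hzG : z ∈ der (F ∩ K) ν.ord := by
    rw [hD.inter X F K _ hK1.2]
    exact ⟨hz, hzK⟩
  have h1 : ∀ e : Iio ν.ord, ∃ g ∈ der (F ∩ K) e.1,
      ¬ AccPt g (𝓟 (der (F ∩ K) e.1)) := by
    intro e
    exact hS _ (hD.closed X _ _ hGc) ⟨z, hD.sub X _ _ _ (le_of_lt e.2) hzG⟩
  choose g hg1 hg2 using h1
  have hinj : Function.Injective g := by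
    have hlt : ∀ e e' : Iio ν.ord, e.1 < e'.1 → g e ≠ g e' := by
      intro e e' he h
      apply hg2 e
      have h2 : e.1 + 1 ≤ e'.1 := by
        rw [← Order.succ_eq_add_one]
        exact Order.succ_le_of_lt he
      have h3 := hD.sub X (F ∩ K) _ _ h2 (hg1 e')
      rw [← h] at h3
      exact ((hD.succ X _ _ _).1 h3).2
    intro e e' h
    rcases lt_trichotomy e.1 e'.1 with h1 | h1 | h1
    · exact absurd h (hlt e e' h1)
    · exact Subtype.ext h1
    · exact absurd h.symm (hlt e' e h1)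
  have hmem : ∀ e, g e ∈ F ∩ K := fun e => by
    have h2 := hD.sub X (F ∩ K) 0 _ bot_le (hg1 e)
    rwa [hD.zero] at h2
  have h2 : lift.{u} #(Iio ν.ord) ≤ lift.{u + 1} #(F ∩ K : Set X) :=
    lift_mk_le'.2 ⟨⟨fun e => (⟨g e, hmem e⟩ : (F ∩ K : Set X)),
      fun a b h => hinj (congrArg Subtype.val h)⟩⟩
  rw [Cardinal.mk_Iio_ordinal, Cardinal.lift_lift, card_ord, Cardinal.lift_le] at h2
  exact absurd hlt (not_lt.2 h2)

end Pool.Agent.HCO
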