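import Pool.Agent.HCO.St4

set_option autoImplicit false

open Set Topology Cardinal Ordinal Order Filter

universe u v w

namespace Pool.Agent.HCO

theorem len_countable (a : Ordinal.{u}) (ha : a < w1) : (Iio a).Countable := by
  have h1 : a.card < Cardinal.aleph 1 := Cardinal.lt_ord.1 ha
  have h2 : a.card ≤ ℵ₀ := by
    rw [← Order.lt_succ_iff, Cardinal.succ_aleph0]
    exact h1
  rw [← Cardinal.le_aleph0_iff_set_countable, Cardinal.mk_Iio_ordinal]
  exact Cardinal.lift_le_aleph0.2 h2

theorem thm_Len : St_Len.{u, v} := by
  intro P _ len hmono hinc hdist a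
  induction a using WellFoundedLT.induction with
  | ind a ih =>
    intro ha
    rcases (Iio a).eq_empty_or_nonempty with h0 | h0
    · intro p
      refine ⟨p, le_rfl, ?_⟩
      have : a = 0 := by
        by_contra hne
        have : (0 : Ordinal.{u}) ∈ Iio a := pos_iff_ne_zero.2 hne
        rw [h0] at this
        exact this
      simp [this]
    · obtain ⟨f, hf⟩ := (len_countable a ha).exists_eq_range h0
      have hD : DenseP {p : P | ∀ n, p ∈ {q : P | f n < len q}} := by
        refine hdist (fun n => {q : P | f n < len q}) (fun n p => ?_) (fun n q hq r hr => ?_)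
        · have hn : f n < a := by
            have : f n ∈ Iio a := hf ▸ mem_range_self n
            exact this
          obtain ⟨q, hq, hq1⟩ := ih (f n) hn (hn.trans ha) p
          obtain ⟨r, hr, hr1⟩ := hinc q
          exact ⟨r, hr.trans hq, lt_of_le_of_lt hq1 hr1⟩
        · exact lt_of_lt_of_le hq (hmono q r hr)
      intro p
      obtain ⟨q, hq, hq1⟩ := hD p
      refine ⟨q, hq, ?_⟩
      show a ≤ len q
      refine le_of_forall_lt fun b hb => ?_
      have hb' : b ∈ range f := hf ▸ hb
      obtain ⟨n, rfl⟩ := hb'
      exact hq1 n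

end Pool.Agent.HCO
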