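import Pool.Agent.HCO.St4

set_option autoImplicit false

open Set Topology Cardinal Ordinal Order Filter

universe u v w

namespace Pool.Agent.HCO

theorem thm_MMs : St_MMs.{u, v} := by
  intro hMM P hsm hpre hne hssp D hD
  let e : P ≃ Shrink.{u} P := equivShrink.{u} P
  letI pre : Preorder (Shrink.{u} P) := Preorder.lift e.symm
  have hle : ∀ a b : Shrink.{u} P, a ≤ b ↔ e.symm a ≤ e.symm b := fun a b => Iff.rfl
  haveI : Nonempty (Shrink.{u} P) := ⟨e hne.some⟩
  have hs : SSP.{u, u} (Shrink.{u} P) := by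
    intro S hS R hR1 hR2 p
    obtain ⟨q, hq, d, hdS, hd1, hdl, hd⟩ := hssp S hS (fun p a b => R (e p) a b)
      (fun p q a b hqp h => hR1 (e p) (e q) a b (by
        rw [hle, e.symm_apply_apply, e.symm_apply_apply]; exact hqp) h)
      (fun p a ha => by
        obtain ⟨q, hq, b, hb, h⟩ := hR2 (e p) a ha
        refine ⟨e.symm q, ?_, b, hb, ?_⟩
        · rw [hle, e.symm_apply_apply] at hq; exact hq
        · rw [e.apply_symm_apply]; exact h) (e.symm p)
    refine ⟨e q, ?_, d, hdS, hd1, hdl, fun a ha r hr => ?_⟩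
    · rw [hle, e.symm_apply_apply]; exact hq
    · rw [hle, e.symm_apply_apply] at hr
      obtain ⟨s, hs, b, hb, h⟩ := hd a ha (e.symm r) hr
      refine ⟨e s, ?_, b, hb, h⟩
      rw [hle, e.symm_apply_apply]; exact hs
  obtain ⟨G, ⟨hG1, hG2, hG3⟩, hG⟩ := hMM (Shrink.{u} P) hs (fun i => e.symm ⁻¹' (D i))
    (fun i hi p => by
      obtain ⟨q, hq, hqD⟩ := hD i hi (e.symm p)
      refine ⟨e q, ?_, ?_⟩
      · rw [hle, e.symm_apply_apply]; exact hq
      · rw [mem_preimage, e.symm_apply_apply]; exact hqD)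
  refine ⟨e ⁻¹' G, ⟨?_, ?_, ?_⟩, ?_⟩
  · obtain ⟨g, hg⟩ := hG1
    exact ⟨e.symm g, by rw [mem_preimage, e.apply_symm_apply]; exact hg⟩
  · intro p hp q hpq
    refine hG2 (e p) hp (e q) ?_
    rw [hle, e.symm_apply_apply, e.symm_apply_apply]; exact hpq
  · intro p hp q hq
    obtain ⟨r, hr, hrp, hrq⟩ := hG3 (e p) hp (e q) hq
    refine ⟨e.symm r, ?_, ?_, ?_⟩
    · rw [mem_preimage, e.apply_symm_apply]; exact hr
    · rw [hle, e.symm_apply_apply] at hrp; exact hrp
    · rw [hle, e.symm_apply_apply] at hrq; exact hrq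
  · intro i hi
    obtain ⟨p, hp, hpD⟩ := hG i hi
    exact ⟨e.symm p, by rw [mem_preimage, e.apply_symm_apply]; exact hp, hpD⟩

end Pool.Agent.HCO
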