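import Pool.Agent.HCO.St4

/-!
# The main theorem from the case statements
-/

set_option autoImplicit false

open Set Topology Cardinal Ordinal Order Filter

universe u v w

namespace Pool.Agent.HCO

theorem thm_Main (hEx : St_Exists.{u}) (hA : St_A.{u}) (hB : St_B.{u}) (hTH : St_TH.{u})
    (hC4 : St_C4.{u}) (hC5 : St_C5.{u}) (hC6 : St_C6.{u}) (hC7 : St_C7.{u}) (hC8 : St_C8.{u}) :
    St_Main.{u} := by
  intro hMM X _ _ _ hX F hF hFne
  by_contra hcon
  obtain ⟨Z, iZ, iC, iT, iD, x, r, hmin⟩ := hEx X hX F hF hFne hcon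
  have hNB : NB Z x := fun K hK => hA hMM Z x r hmin K hK
  obtain ⟨Z', iZ', iC', iT', iD', z, μ, K, hmin', hK⟩ := hB Z x r hmin hNB
  have hcof : r.cof = μ := (hTH Z' z r μ K hmin' hK.toFilt).1
  have hμr : μ.ord ≤ r := by
    rw [Cardinal.ord_le, ← hcof]
    exact Ordinal.cof_le_card r
  have hμ0 : ℵ₀ < μ := hK.unc
  have hμ1 : ℵ₁ ≤ μ := by
    rw [← Cardinal.succ_aleph0]
    exact Order.succ_le_of_lt hμ0
  rcases hμr.lt_or_eq with hlt | heq
  · rcases hμ1.lt_or_eq with h1 | h1
    · exact hC6 hMM Z' z r μ K hmin' hK h1 hlt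
    · subst h1
      have h2 : ¬ r < (Cardinal.aleph 2).ord := hC5 hMM Z' z r K hmin' hK hlt
      have h3 : (Cardinal.aleph 2).ord ≤ r := not_lt.mp h2
      have hs : Order.succ (ℵ₁ : Cardinal.{u}) = Cardinal.aleph 2 := by
        rw [Cardinal.succ_aleph]
        congr 1
        exact one_add_one_eq_two
      have h4 : (Cardinal.aleph 2).ord ≠ r := by
        intro h
        rw [← h] at hcof
        have hreg : (Cardinal.aleph.{u} 2).IsRegular := by
          rw [← hs]
          exact Cardinal.isRegular_succ hμ0.le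
        rw [hreg.cof_ord] at hcof
        rw [← hs] at hcof
        exact absurd hcof (Order.lt_succ _).ne'
      have h5 : (Order.succ (ℵ₁ : Cardinal.{u})).ord < r := by
        rw [hs]
        exact lt_of_le_of_ne h3 h4
      exact hC8 Z' z r ℵ₁ K hmin' hK h5
  · rcases hμ1.lt_or_eq with h1 | h1
    · subst heq
      exact hC7 hMM Z' z μ K hmin' hK h1
    · subst h1
      subst heq
      exact hC4 hMM Z' z K hmin' hK

end Pool.Agent.HCO
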