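import Pool.Agent.HCO.St4

/-!
# HCO [N]
-/

set_option autoImplicit false

open Set Topology Cardinal Ordinal Order Filter

universe u v w

namespace Pool.Agent.HCO

section

variable {X : Type u} [TopologicalSpace X] [CompactSpace X] [T2Space X]
  [TotallyDisconnectedSpace X] {x : X}

/-- accumulation, tested by clopen neighbourhoods -/
private theorem n_acc (C : Set X) :
    AccPt x (𝓟 C) ↔ ∀ N : Set X, IsClopen N → x ∈ N → ∃ z ∈ C, z ∈ N ∧ z ≠ x := by
  rw [accPt_iff_nhds]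
  constructor
  · intro h N hN hx
    obtain ⟨y, hy, hyx⟩ := h N (hN.isOpen.mem_nhds hx)
    exact ⟨y, hy.2, hy.1, hyx⟩
  · intro h U hU
    obtain ⟨O, hOU, hO, hxO⟩ := mem_nhds_iff.1 hU
    obtain ⟨N, hN, hxN, hNO⟩ := compact_exists_isClopen_in_isOpen hO hxO
    obtain ⟨z, hz, hzN, hzx⟩ := h N hN hxN
    exact ⟨z, ⟨hOU (hNO hzN), hz⟩, hzx⟩

private theorem n_inter (h : OE1 X x) (F G : Set X) (hF : IsClosed F) (hG : IsClosed G)
    (hFx : AccPt x (𝓟 F)) (hGx : AccPt x (𝓟 G)) : AccPt x (𝓟 (F ∩ G)) := by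
  rw [n_acc] at hFx hGx ⊢
  intro N hN hx
  have h1 : ∀ C : Set X, (∀ N : Set X, IsClopen N → x ∈ N → ∃ z ∈ C, z ∈ N ∧ z ≠ x) →
      AccPt x (𝓟 (C ∩ N)) := by
    intro C hC
    rw [n_acc]
    intro N' hN' hx'
    obtain ⟨z, hz, hzN, hzx⟩ := hC (N ∩ N') (hN.inter hN') ⟨hx, hx'⟩
    exact ⟨z, ⟨hz, hzN.1⟩, hzN.2, hzx⟩
  obtain ⟨z, hz1, hz2, hzx⟩ := h.2 (F ∩ N) (G ∩ N) (hF.inter hN.isClosed) (hG.inter hN.isClosed)
    (h1 F hFx) (h1 G hGx)
  exact ⟨z, ⟨hz1.1, hz2.1⟩, hz1.2, hzx⟩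

private theorem n_ht {μ : Cardinal.{u}} {K : Ordinal.{u} → Set X} (hK : Filt x μ K)
    {l : Ordinal.{u}} (hl : l < μ.ord) {z : X} (hz : z ∈ Bd K l) :
    ht K z = l ∧ z ≠ x ∧ ∀ a < l, z ∉ K a := by
  have h1 : z ∈ K l := hK.cl l hl hz.1
  have h2 : ∀ a < l, z ∉ K a := fun a ha hza => hz.2 ⟨a, ha, hza⟩
  refine ⟨?_, ?_, h2⟩
  · apply le_antisymm
    · exact csInf_le' h1
    · refine le_csInf ⟨l, h1⟩ fun a ha => ?_
      by_contra hcon
      exact h2 a (not_le.1 hcon) ha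
  · rintro rfl
    exact hK.notin l hl h1

/-- points of high boundaries are near `x` -/
private theorem n_high (hFi : St_Filt.{u}) {μ : Cardinal.{u}} {K : Ordinal.{u} → Set X}
    (hK : Filt x μ K) {N : Set X} (hN : IsClopen N) (hx : x ∈ N) :
    ∃ b < μ.ord, ∀ l, b < l → l < μ.ord → ∀ z ∈ Bd K l, z ∈ N := by
  obtain ⟨b, hb, hNb⟩ := hFi.cpt X x μ K hK Nᶜ hN.compl.isClosed (fun h => h hx)
  refine ⟨b, hb, fun l hbl hl z hz => ?_⟩
  by_contra hzN
  exact (n_ht hK hl hz).2.2 b hbl (hNb hzN)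

/-- nested closed sets which meet a boundary have a common point there -/
private theorem n_nest (hFi : St_Filt.{u}) {μ : Cardinal.{u}} {K : Ordinal.{u} → Set X}
    (hK : Filt x μ K) {l : Ordinal.{u}} (hl : l < μ.ord) {b : Ordinal.{u}} (hb : IsSuccLimit b)
    (H : Ordinal.{u} → Set X) (hHc : ∀ c < b, IsClosed (H c)) (hH : ∀ c d, c ≤ d → H d ⊆ H c)
    (hne : ∀ c < b, ∃ z ∈ Bd K l, z ∈ H c) : ∃ z ∈ Bd K l, ∀ c < b, z ∈ H c := by
  have hBd : IsClosed (Bd K l) := hFi.closedBd X x μ.ord K hK.toPreFilt l hl.le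
  have hb0 : 0 < b := hb.bot_lt
  have hI : Nonempty (Iio b) := ⟨⟨0, hb0⟩⟩
  have h1 : (⋂ c : Iio b, (Bd K l ∩ H c.1)).Nonempty := by
    apply IsCompact.nonempty_iInter_of_directed_nonempty_isCompact_isClosed
    · intro c d
      refine ⟨⟨max c.1 d.1, mem_Iio.2 (max_lt (mem_Iio.1 c.2) (mem_Iio.1 d.2))⟩, ?_, ?_⟩
      · exact inter_subset_inter_right _ (hH _ _ (le_max_left _ _))
      · exact inter_subset_inter_right _ (hH _ _ (le_max_right _ _))
    · intro c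
      obtain ⟨z, hz, hz'⟩ := hne c.1 c.2
      exact ⟨z, hz, hz'⟩
    · intro c
      exact (hBd.inter (hHc c.1 c.2)).isCompact
    · intro c
      exact hBd.inter (hHc c.1 c.2)
  obtain ⟨z, hz⟩ := h1
  rw [mem_iInter] at hz
  exact ⟨z, (hz ⟨0, hb0⟩).1, fun c hc => (hz ⟨c, hc⟩).2⟩

private theorem n_closed (b : Ordinal.{u}) (F : Ordinal.{u} → Set X)
    (hF : ∀ i < b, IsClosed (F i)) : IsClosed {z | ∀ i < b, z ∈ F i} := by
  have h1 : {z | ∀ i < b, z ∈ F i} = ⋂ i ∈ Iio b, F i := by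
    ext z
    simp
  rw [h1]
  exact isClosed_biInter fun i hi => hF i hi

private theorem n_inters (hFi : St_Filt.{u}) (hCl : St_Club.{u}) {μ : Cardinal.{u}}
    {K : Ordinal.{u} → Set X} (hK : Filt x μ K) (h : OE1 X x) (b : Ordinal.{u}) :
    b < μ.ord → ∀ F : Ordinal.{u} → Set X, (∀ i < b, IsClosed (F i) ∧ AccPt x (𝓟 (F i))) →
    AccPt x (𝓟 {z | ∀ i < b, z ∈ F i}) := by
  have hcof : μ.ord.cof = μ := hK.reg.cof_ord
  induction b using Ordinal.limitRecOn with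
  | zero =>
    intro _ F _
    have h1 : {z : X | ∀ i < 0, z ∈ F i} = Set.univ := by
      ext z
      simp
    rw [h1]
    exact h.1
  | add_one b ih =>
    intro hb F hF
    have hbb : b < b + 1 := Order.lt_add_one_iff.2 le_rfl
    have hb' : b < μ.ord := hbb.trans hb
    have h1 : {z : X | ∀ i < b + 1, z ∈ F i} = {z | ∀ i < b, z ∈ F i} ∩ F b := by
      ext z
      constructor
      · intro hz
        exact ⟨fun i hi => hz i (hi.trans hbb), hz b hbb⟩
      · rintro ⟨hz1, hz2⟩ i hi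
        rcases (Order.lt_add_one_iff.1 hi).lt_or_eq with h2 | h2
        · exact hz1 i h2
        · rw [h2]; exact hz2
    rw [h1]
    exact n_inter h _ _ (n_closed b F fun i hi => (hF i (hi.trans hbb)).1)
      (hF b hbb).1 (ih hb' F fun i hi => hF i (hi.trans hbb))
      (hF b hbb).2
  | limit b hlim ih =>
    intro hb F hF
    rw [n_acc]
    intro N hN hx
    obtain ⟨b₀, hb₀, hhigh⟩ := n_high hFi hK hN hx
    have hacc : ∀ c < b, ∃ C, Club μ.ord C ∧ ∀ l ∈ C, ∃ z ∈ Bd K l, ∀ i < c, z ∈ F i := by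
      intro c hc
      obtain ⟨C, hC, hCl'⟩ := hFi.acc X x μ K hK {z | ∀ i < c, z ∈ F i}
        (ih c hc (hc.trans hb) F fun i hi => hF i (hi.trans hc))
      refine ⟨C, hC, fun l hl => ?_⟩
      obtain ⟨-, -, z, hz, hz'⟩ := hCl' l hl
      refine ⟨z, hz, ?_⟩
      have hcl := n_closed c F fun i hi => (hF i (hi.trans hc)).1
      exact (closure_minimal inter_subset_left hcl) hz'
    choose! C hC hCz using hacc
    have hclub := hCl.inters μ.ord b C (by rw [hcof]; exact hK.unc)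
      (by rw [hcof]; exact Cardinal.lt_ord.1 hb) hC
    obtain ⟨l, ⟨hlμ, hlC⟩, hb₀l⟩ := hclub.2.1 b₀ hb₀
    obtain ⟨z, hz, hzF⟩ := n_nest hFi hK hlμ hlim (fun c => {z | ∀ i < c, z ∈ F i})
      (fun c hc => n_closed c F fun i hi => (hF i (hi.trans hc)).1)
      (fun c d hcd z hz i hi => hz i (hi.trans_le hcd))
      (fun c hc => hCz c hc l (hlC c hc))
    refine ⟨z, fun i hi => hzF (Order.succ i) (hlim.succ_lt hi) i (lt_succ i),
      hhigh l hb₀l hlμ z hz, (n_ht hK hlμ hz).2.1⟩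

end

theorem thm_N (hFi : St_Filt.{u}) (hCl : St_Club.{u}) : St_N.{u} where
  inter := by
    intro X _ _ _ _ x h F G hF hG hFx hGx
    exact n_inter h F G hF hG hFx hGx
  inters := by
    intro X _ _ _ _ x μ K hK h b hb F hF
    exact n_inters hFi hCl hK h b hb F hF
  diag := by
    intro X _ _ _ _ x μ K hK h F hF
    have hcof : μ.ord.cof = μ := hK.reg.cof_ord
    refine ⟨{z | z ≠ x → ∀ i < ht K z, z ∈ F i}, ?_, ?_, fun z hz => hz⟩
    · rw [← closure_subset_iff_isClosed]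
      intro z hz hzx i hi
      obtain ⟨a, ha, hza⟩ := hK.cover z hzx
      have hta : ht K z ≤ a := csInf_le' hza
      have hiμ : i < μ.ord := hi.trans_le (hta.trans ha.le)
      have hzi : z ∉ K i := fun h' => absurd (csInf_le' h' : ht K z ≤ i) (not_le.2 hi)
      rw [← (hF i hiμ).1.closure_eq]
      rw [mem_closure_iff] at hz ⊢
      intro O hO hzO
      obtain ⟨w, hw1, hw2⟩ := hz (O ∩ ((K i)ᶜ ∩ {x}ᶜ))
        (hO.inter ((hK.clopen i hiμ).compl.isOpen.inter isOpen_compl_singleton))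
        ⟨hzO, hzi, hzx⟩
      have hwx : w ≠ x := hw1.2.2
      have hwi : w ∉ K i := hw1.2.1
      obtain ⟨c, hc, hwc⟩ := hK.cover w hwx
      refine ⟨w, hw1.1, hw2 hwx i ?_⟩
      by_contra hcon
      rw [not_lt] at hcon
      have hmem : w ∈ K (ht K w) := csInf_mem (s := {a | w ∈ K a}) ⟨c, hwc⟩
      exact hwi (hK.mono _ _ hcon hiμ hmem)
    · rw [n_acc]
      intro N hN hx
      obtain ⟨b₀, hb₀, hhigh⟩ := n_high hFi hK hN hx
      have hacc : ∀ c < μ.ord, ∃ C, Club μ.ord C ∧ ∀ l ∈ C, IsSuccLimit l ∧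
          ∃ z ∈ Bd K l, ∀ i < c, z ∈ F i := by
        intro c hc
        obtain ⟨C, hC, hCl'⟩ := hFi.acc X x μ K hK {z | ∀ i < c, z ∈ F i}
          (n_inters hFi hCl hK h c hc F fun i hi => hF i (hi.trans hc))
        refine ⟨C, hC, fun l hl => ?_⟩
        obtain ⟨hlim, -, z, hz, hz'⟩ := hCl' l hl
        refine ⟨hlim, z, hz, ?_⟩
        have hcl := n_closed c F fun i hi => (hF i (hi.trans hc)).1
        exact (closure_minimal inter_subset_left hcl) hz'
      choose! C hC hCz using hacc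
      have hclub := hCl.diag μ C hK.reg hK.unc hC
      obtain ⟨l, ⟨hlμ, hlC⟩, hb₀l⟩ := hclub.2.1 b₀ hb₀
      have hlim : IsSuccLimit l := (hCz b₀ hb₀ l (hlC b₀ hb₀l)).1
      obtain ⟨z, hz, hzF⟩ := n_nest hFi hK hlμ hlim (fun c => {z | ∀ i < c, z ∈ F i})
        (fun c hc => n_closed c F fun i hi => (hF i (hi.trans (hc.trans hlμ))).1)
        (fun c d hcd z hz i hi => hz i (hi.trans_le hcd))
        (fun c hc => (hCz c (hc.trans hlμ) l (hlC c hc)).2)
      have hht := n_ht hK hlμ hz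
      refine ⟨z, ?_, hhigh l hb₀l hlμ z hz, hht.2.1⟩
      intro _ i hi
      rw [hht.1] at hi
      exact hzF (Order.succ i) (hlim.succ_lt hi) i (lt_succ i)
  split := by
    intro X _ _ _ _ x μ K hK h A B hA hAB
    by_contra hcon
    push Not at hcon
    have h1 : ∀ n, ∃ F : Set X, IsClosed F ∧ AccPt x (𝓟 F) ∧ ∀ z ∈ B n, z ∈ F → z = x := by
      intro n
      have h2 := hcon n
      unfold Pos at h2
      push Not at h2
      exact h2
    choose F hFc hFa hFB using h1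
    classical
    have hω : ω < μ.ord := by
      rw [← Cardinal.ord_aleph0]
      exact Cardinal.ord_lt_ord.2 hK.unc
    let F' : Ordinal.{u} → Set X := fun i => if h : ∃ n : ℕ, i = n then F h.choose else Set.univ
    have hF'n : ∀ n : ℕ, F' n = F n := by
      intro n
      have h2 : ∃ m : ℕ, ((n : ℕ) : Ordinal.{u}) = m := ⟨n, rfl⟩
      have h3 : h2.choose = n := by
        have := h2.choose_spec
        exact_mod_cast this.symm
      show (if h : ∃ m : ℕ, ((n : ℕ) : Ordinal.{u}) = m then F h.choose else Set.univ) = F n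
      rw [dif_pos h2, h3]
    have hF' : ∀ i < ω, IsClosed (F' i) ∧ AccPt x (𝓟 (F' i)) := by
      intro i hi
      obtain ⟨n, rfl⟩ := Ordinal.lt_omega0.1 hi
      rw [hF'n]
      exact ⟨hFc n, hFa n⟩
    have h2 := n_inters hFi hCl hK h ω hω F' hF'
    obtain ⟨z, hzA, hz, hzx⟩ := hA _ (n_closed ω F' fun i hi => (hF' i hi).1) h2
    obtain ⟨n, hn⟩ := mem_iUnion.1 (hAB hzA)
    have h3 := hz n (Ordinal.natCast_lt_omega0 n)
    rw [hF'n] at h3
    exact hzx (hFB n z hn h3)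

end Pool.Agent.HCO
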