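import Pool.Agent.HCO.St4

set_option autoImplicit false

open Set Topology Cardinal Ordinal Order Filter

universe u v w

namespace Pool.Agent.HCO

private theorem NA_closed (X : Type u) [TopologicalSpace X] [CompactSpace X] [T2Space X]
    [TotallyDisconnectedSpace X] (x : X) (Z : Set X)
    (hZ : ∀ C : Set X, IsClosed C → x ∉ C → (Z ∩ C).Finite) : IsClosed (insert x Z) := by
  rw [← isOpen_compl_iff, isOpen_iff_mem_nhds]
  intro z hz
  have hzx : z ≠ x := fun h => hz (by rw [h]; exact mem_insert _ _)
  obtain ⟨C, hC, hzC, hCx⟩ := compact_exists_isClopen_in_isOpen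
    (isOpen_compl_singleton (x := x)) (show z ∈ ({x}ᶜ : Set X) from hzx)
  have hxC : x ∉ C := fun h => hCx h rfl
  have hfin := hZ C hC.isClosed hxC
  have hop : IsOpen (C \ (Z ∩ C)) := hC.isOpen.sdiff hfin.isClosed
  refine mem_of_superset (hop.mem_nhds ⟨hzC, fun h => hz (mem_insert_of_mem _ h.1)⟩) ?_
  intro w hw hw2
  rcases hw2 with rfl | hw2
  · exact hxC hw.1
  · exact hw.2 ⟨hw2, hw.1⟩

theorem thm_NA : St_NA.{u} := by
  intro X _ _ _ _ x hco Z hxZ hZ
  by_contra hunc
  have hinf : Z.Infinite := by
    intro h
    exact hunc h.countable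
  have hF := NA_closed X x Z hZ
  have hFinf : (insert x Z).Infinite := hinf.mono (subset_insert _ _)
  let f := hinf.natEmbedding
  let Z' : Set X := range (fun n => (f n : X))
  have hZ'Z : Z' ⊆ Z := by
    rintro _ ⟨n, rfl⟩
    exact (f n).2
  have hZ'c : Z'.Countable := countable_range _
  have hZ'i : Z'.Infinite := by
    apply infinite_range_of_injective
    intro a b hab
    exact f.injective (Subtype.ext hab)
  have hF' : IsClosed (insert x Z') := NA_closed X x Z' (fun C hC hx =>
    (hZ C hC hx).subset (inter_subset_inter_left _ hZ'Z))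
  let G : Set (insert x Z : Set X) := Subtype.val ⁻¹' (insert x Z')
  obtain ⟨V, hV, ⟨e⟩⟩ := hco _ hF hFinf G (hF'.preimage continuous_subtype_val)
  have hGc : G.Countable := by
    apply Set.Countable.preimage_of_injOn (hZ'c.insert x)
    exact Subtype.val_injective.injOn
  have hGi : G.Infinite := by
    intro hG
    apply hZ'i
    have h1 : (Subtype.val '' G : Set X).Finite := hG.image _
    apply h1.subset
    intro z hz
    exact ⟨⟨z, mem_insert_of_mem _ (hZ'Z hz)⟩, mem_insert_of_mem _ hz, rfl⟩
  have hVc : V.Countable := by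
    have : Countable G := hGc.to_subtype
    have : Countable V := e.symm.injective.countable
    exact Set.to_countable V
  have hVi : V.Infinite := by
    have h1 : Infinite G := hGi.to_subtype
    have h2 : Infinite V := Infinite.of_injective e e.injective
    exact Set.infinite_coe_iff.1 h2
  have key : ∀ W : Set (insert x Z : Set X), IsClosed W → (⟨x, mem_insert _ _⟩ : (insert x Z : Set X)) ∉ W →
      W.Finite := by
    intro W hW hxW
    have h1 : IsClosed (Subtype.val '' W : Set X) := hF.isClosedEmbedding_subtypeVal.isClosedMap W hW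
    have h2 : x ∉ (Subtype.val '' W : Set X) := by
      rintro ⟨y, hy, hyx⟩
      apply hxW
      have : y = ⟨x, mem_insert _ _⟩ := Subtype.ext hyx
      rw [← this]
      exact hy
    have h3 := hZ _ h1 h2
    have h4 : (Subtype.val '' W : Set X).Finite := by
      apply h3.subset
      rintro _ ⟨y, hy, rfl⟩
      refine ⟨?_, y, hy, rfl⟩
      rcases y.2 with h | h
      · exact absurd ⟨y, hy, h⟩ h2
      · exact h
    exact h4.of_finite_image Subtype.val_injective.injOn
  by_cases hxV : (⟨x, mem_insert _ _⟩ : (insert x Z : Set X)) ∈ V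
  · have h1 : Vᶜ.Finite := key _ hV.compl.isClosed (fun h => h hxV)
    have h2 : (univ : Set (insert x Z : Set X)).Countable := by
      rw [← union_compl_self V]
      exact hVc.union h1.countable
    apply hunc
    have h3 : (Subtype.val '' (univ : Set (insert x Z : Set X)) : Set X).Countable := h2.image _
    apply h3.mono
    intro z hz
    exact ⟨⟨z, mem_insert_of_mem _ hz⟩, mem_univ _, rfl⟩
  · exact hVi (key _ hV.isClosed hxV)

end Pool.Agent.HCO
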