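import Pool.Agent.HCO.St4

set_option autoImplicit false

open Set Topology Cardinal Ordinal Order Filter

universe u v w

namespace Pool.Agent.HCO

theorem thm_NSig (hOS : St_OSigma.{u}) (hD : St_Der.{u}) : St_NSig.{u} := by
  intro X _ _ _ _ x r hmin hex
  obtain ⟨A, hA, hcov⟩ := hex
  refine hmin.nord (hOS X x A hA hcov fun K hK hx => hmin.small K hK fun hc => hx ?_)
  exact ((hD.iff X K r x).1 hc).1

end Pool.Agent.HCO
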