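import Pool.Agent.HCO.St4

/-!
# HCO / OAcc: countably many closed sets accumulating at a point of uncountable character
-/

set_option autoImplicit false

open Set Topology Cardinal Ordinal Order Filter

universe u v w

namespace Pool.Agent.HCO

section OAcc

variable {X : Type u} [TopologicalSpace X] [CompactSpace X]

/-- a nonempty closed part of an ordinal space has a maximum -/
theorem OAcc_max {K : Set X} {f : X → Ordinal.{u}} (hK : IsClosed K) (hf : OrdOn K f)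
    (C : Set X) (hC : IsClosed C) (hne : (C ∩ K).Nonempty) :
    ∃ z ∈ C ∩ K, ∀ v ∈ C ∩ K, f v ≤ f z := by
  classical
  have hcp : IsCompact (C ∩ K) := (hC.inter hK).isCompact
  have hex : ∀ z : (C ∩ K : Set X), ∃ O : Set X, IsClopen O ∧ ∀ v ∈ K, (v ∈ O ↔ f v ≤ f z) :=
    fun z => hf.2 z.1 z.2.2
  choose O hO1 hO2 using hex
  obtain ⟨t, ht⟩ := hcp.elim_finite_subcover O (fun z => (hO1 z).isOpen) (by
    intro v hv
    rw [mem_iUnion]
    exact ⟨⟨v, hv⟩, (hO2 ⟨v, hv⟩ v hv.2).2 le_rfl⟩)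
  have htne : t.Nonempty := by
    obtain ⟨v, hv⟩ := hne
    have := ht hv
    rw [mem_iUnion₂] at this
    obtain ⟨z, hz, _⟩ := this
    exact ⟨z, hz⟩
  obtain ⟨z, hz, hmax⟩ := t.exists_max_image (fun z => f z.1) htne
  refine ⟨z.1, z.2, fun v hv => ?_⟩
  have := ht hv
  rw [mem_iUnion₂] at this
  obtain ⟨z', hz', hv'⟩ := this
  exact ((hO2 z' v hv.2).1 hv').trans (hmax z' hz')

/-- neighbourhoods of a point of an ordinal space -/
theorem OAcc_basis {K : Set X} {f : X → Ordinal.{u}} (hK : IsClosed K) (hf : OrdOn K f)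
    {w : X} (hw : w ∈ K) {U : Set X} (hU : U ∈ 𝓝 w) :
    (∀ v ∈ K, f v ≤ f w → v ∈ U) ∨
      ∃ z ∈ K, f z < f w ∧ ∀ v ∈ K, f z < f v → f v ≤ f w → v ∈ U := by
  obtain ⟨V, hVU, hVo, hwV⟩ := mem_nhds_iff.1 hU
  obtain ⟨O, hO1, hO2⟩ := hf.2 w hw
  by_cases hne : ((O \ V) ∩ K).Nonempty
  · right
    obtain ⟨z, hz, hmax⟩ := OAcc_max hK hf (O \ V) (hO1.isClosed.sdiff hVo) hne
    have hzw : f z ≤ f w := (hO2 z hz.2).1 hz.1.1
    refine ⟨z, hz.2, lt_of_le_of_ne hzw ?_, ?_⟩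
    · intro h
      have : z = w := hf.1 hz.2 hw h
      exact hz.1.2 (this ▸ hwV)
    · intro v hv h1 h2
      by_contra hvU
      have hvV : v ∉ V := fun h => hvU (hVU h)
      exact absurd (hmax v ⟨⟨(hO2 v hv).2 h2, hvV⟩, hv⟩) (not_le.2 h1)
  · left
    intro v hv hle
    by_contra hvU
    have hvV : v ∉ V := fun h => hvU (hVU h)
    exact hne ⟨v, ⟨(hO2 v hv).2 hle, hvV⟩, hv⟩

/-- no countable set of points below a point of uncountable character is cofinal -/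
theorem OAcc_bdd {E : Set X} {f : X → Ordinal.{u}} (hf : OrdOn E f) {p : X} (hp : p ∈ E)
    (hc : ¬ Cnt E p) (z : ℕ → X) (hz : ∀ k, z k ∈ E ∧ f (z k) < f p) :
    ∃ w ∈ E, f w < f p ∧ ∀ k, f (z k) < f w := by
  by_contra hcon
  push Not at hcon
  apply hc
  obtain ⟨P, hP1, hP2⟩ := hf.2 p hp
  have hex : ∀ k, ∃ O : Set X, IsClopen O ∧ ∀ v ∈ E, (v ∈ O ↔ f v ≤ f (z k)) :=
    fun k => hf.2 (z k) (hz k).1
  choose O hO1 hO2 using hex
  refine ⟨fun k => P \ O k, fun k => ⟨hP1.diff (hO1 k), (hP2 p hp).2 le_rfl, ?_⟩, ?_⟩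
  · intro h
    exact absurd ((hO2 k p hp).1 h) (not_le.2 (hz k).2)
  · intro v hv h
    by_contra hne
    have h1 : f v ≤ f p := (hP2 v hv).1 (h 0).1
    have h2 : f v < f p := lt_of_le_of_ne h1 fun h3 => hne (hf.1 hv hp h3)
    obtain ⟨k, hk⟩ := hcon v hv h2
    exact (h k).2 ((hO2 k v hv).2 hk)

/-- there is a point below a point of uncountable character -/
theorem OAcc_ne {E : Set X} {f : X → Ordinal.{u}} (hf : OrdOn E f) {p : X} (hp : p ∈ E)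
    (hc : ¬ Cnt E p) : ∃ z ∈ E, f z < f p := by
  by_contra hcon
  push Not at hcon
  apply hc
  obtain ⟨P, hP1, hP2⟩ := hf.2 p hp
  refine ⟨fun _ => P, fun _ => ⟨hP1, (hP2 p hp).2 le_rfl⟩, ?_⟩
  intro v hv h
  have h1 : f v ≤ f p := (hP2 v hv).1 (h 0)
  exact hf.1 hv hp (le_antisymm h1 (hcon v hv))

/-- the main construction -/
theorem OAcc_sup {E : Set X} {f : X → Ordinal.{u}} (hE : IsClosed E) (hf : OrdOn E f) {p : X}
    (hp : p ∈ E) (hc : ¬ Cnt E p) (G : ℕ → Set X) (hG : ∀ n, AccPt p (𝓟 (E ∩ G n)))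
    {U : Set X} (hU : U ∈ 𝓝 p) :
    ∃ w ∈ E, w ∈ U ∧ w ≠ p ∧ ∀ n, AccPt w (𝓟 (E ∩ G n)) := by
  classical
  -- the starting point
  obtain ⟨z₀, hz₀E, hz₀p, hz₀U⟩ : ∃ z ∈ E, f z < f p ∧
      ∀ v ∈ E, f z < f v → f v ≤ f p → v ∈ U := by
    rcases OAcc_basis hE hf hp hU with h | h
    · obtain ⟨z, hz, hzp⟩ := OAcc_ne hf hp hc
      exact ⟨z, hz, hzp, fun v hv _ h2 => h v hv h2⟩
    · exact h
  -- one step
  have hstep : ∀ (n : ℕ) (z : {z : X // z ∈ E ∧ f z < f p}),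
      ∃ g : {z : X // z ∈ E ∧ f z < f p}, g.1 ∈ G n ∧ f z.1 < f g.1 := by
    intro n z
    obtain ⟨P, hP1, hP2⟩ := hf.2 p hp
    obtain ⟨O, hO1, hO2⟩ := hf.2 z.1 z.2.1
    have hN : P \ O ∈ 𝓝 p := by
      refine (hP1.diff hO1).isOpen.mem_nhds ⟨(hP2 p hp).2 le_rfl, fun h => ?_⟩
      exact absurd ((hO2 p hp).1 h) (not_le.2 z.2.2)
    obtain ⟨g, ⟨hg1, hg2⟩, hg3⟩ := (accPt_iff_nhds.1 (hG n)) _ hN
    have h1 : f g ≤ f p := (hP2 g hg2.1).1 hg1.1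
    have h2 : f g < f p := lt_of_le_of_ne h1 fun h => hg3 (hf.1 hg2.1 hp h)
    refine ⟨⟨g, hg2.1, h2⟩, hg2.2, ?_⟩
    by_contra h3
    exact hg1.2 ((hO2 g hg2.1).2 (not_lt.1 h3))
  choose nx hnx1 hnx2 using hstep
  set z : ℕ → {z : X // z ∈ E ∧ f z < f p} := fun k =>
    Nat.rec ⟨z₀, hz₀E, hz₀p⟩ (fun k y => nx (Nat.unpair k).1 y) k with hz
  have hzs : ∀ k, z (k + 1) = nx (Nat.unpair k).1 (z k) := fun k => rfl
  have hzlt : ∀ k, f (z k).1 < f (z (k + 1)).1 := fun k => by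
    rw [hzs]
    exact hnx2 _ _
  have hzm : StrictMono fun k => f (z k).1 := strictMono_nat_of_lt_succ hzlt
  have hzG : ∀ n k₀, ∃ k, k₀ < k ∧ (z k).1 ∈ G n := by
    intro n k₀
    refine ⟨Nat.pair n k₀ + 1, ?_, ?_⟩
    · have := Nat.right_le_pair n k₀
      omega
    · rw [hzs]
      have := hnx1 (Nat.unpair (Nat.pair n k₀)).1 (z (Nat.pair n k₀))
      rw [Nat.unpair_pair] at this ⊢
      exact this
  -- the least upper bound
  obtain ⟨w', hw'E, hw'p, hw'z⟩ := OAcc_bdd hf hp hc (fun k => (z k).1) (fun k => (z k).2)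
  have hwf := wellFounded_lt (α := Ordinal.{u})
  set B : Set Ordinal.{u} := {a | ∃ w ∈ E, f w = a ∧ f w < f p ∧ ∀ k, f (z k).1 < f w} with hB
  have hBne : B.Nonempty := ⟨f w', w', hw'E, rfl, hw'p, hw'z⟩
  obtain ⟨w, hwE, hwa, hwp, hwz⟩ := hwf.min_mem B hBne
  have hwmin : ∀ v ∈ E, f v < f w → ∃ k, f v ≤ f (z k).1 := by
    intro v hv hvw
    by_contra hcon
    push Not at hcon
    have h1 : f v ∈ B := ⟨v, hv, rfl, hvw.trans hwp, hcon⟩
    have h2 := hwf.not_lt_min B h1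
    rw [← hwa] at h2
    exact h2 hvw
  refine ⟨w, hwE, hz₀U w hwE (hwz 0) hwp.le, ?_, ?_⟩
  · rintro rfl
    exact lt_irrefl _ hwp
  intro n
  rw [accPt_iff_nhds]
  intro V hV
  rcases OAcc_basis hE hf hwE hV with h | ⟨v, hv, hvw, h⟩
  · obtain ⟨k, _, hk⟩ := hzG n 0
    refine ⟨(z k).1, ⟨h _ (z k).2.1 (hwz k).le, (z k).2.1, hk⟩, ?_⟩
    intro h1
    have h2 := hwz k
    rw [h1] at h2
    exact lt_irrefl _ h2
  · obtain ⟨k₀, hk₀⟩ := hwmin v hv hvw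
    obtain ⟨k, hk, hkG⟩ := hzG n k₀
    refine ⟨(z k).1, ⟨h _ (z k).2.1 (hk₀.trans_lt (hzm hk)) (hwz k).le, (z k).2.1, hkG⟩, ?_⟩
    intro h1
    have h2 := hwz k
    rw [h1] at h2
    exact lt_irrefl _ h2

end OAcc

theorem thm_OAcc : St_OAcc.{u} := by
  intro X _ _ _ _ E p G hE hEo hp hc hG
  obtain ⟨f, hf⟩ := hEo
  rw [accPt_iff_nhds]
  intro U hU
  obtain ⟨w, hwE, hwU, hwp, hw⟩ := OAcc_sup hE hf hp hc G (fun n => (hG n).2) hU
  refine ⟨w, ⟨hwU, hwE, ?_⟩, hwp⟩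
  rw [mem_iInter]
  intro n
  have h1 : w ∈ closure (E ∩ G n) := by
    rw [mem_closure_iff_clusterPt]
    exact (hw n).clusterPt
  have h2 : closure (E ∩ G n) ⊆ G n :=
    closure_minimal inter_subset_right (hG n).1
  exact h2 h1

end Pool.Agent.HCO
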