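import Pool.Agent.HCO.St4
import Pool.Agent.HCO.OAcc

/-!
# HCO / OAcc1: the derivative of a closed set accumulating at a point of uncountable character
-/

set_option autoImplicit false

open Set Topology Cardinal Ordinal Order Filter

universe u v w

namespace Pool.Agent.HCO

theorem thm_OAcc1 : St_OAcc1.{u} := by
  intro X _ _ _ _ E p G hE hEo hp hc hG hGE hacc
  obtain ⟨f, hf⟩ := hEo
  have hEG : E ∩ G = G := inter_eq_right.2 hGE
  rw [accPt_iff_nhds]
  intro U hU
  obtain ⟨w, hwE, hwU, hwp, hw⟩ := OAcc_sup hE hf hp hc (fun _ => G)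
    (fun _ => by simp only [hEG]; exact hacc) hU
  simp only [hEG] at hw
  have hw0 := hw 0
  have hwG : w ∈ G := by
    have h1 : w ∈ closure G := by
      rw [mem_closure_iff_clusterPt]
      exact hw0.clusterPt
    rwa [hG.closure_eq] at h1
  refine ⟨w, ⟨hwU, ?_⟩, hwp⟩
  rw [der]
  refine ⟨hwG, ?_⟩
  rintro ⟨e, he⟩
  have he0 : e = 0 := by
    rw [mem_Iio] at he
    exact Ordinal.lt_one_iff_zero.1 he
  subst he0
  have h0 : der G (0 : Ordinal.{u}) = G := by
    rw [der]
    ext z
    constructor
    · exact fun h => h.1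
    · intro h
      refine ⟨h, ?_⟩
      rintro ⟨e, he⟩
      rw [mem_Iio] at he
      exact absurd he (not_lt_bot (α := Ordinal.{u}))
  simp only [h0]
  exact hw0

end Pool.Agent.HCO
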