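import Pool.Agent.HCO.St4

set_option autoImplicit false

open Set Topology Cardinal Ordinal Order Filter

universe u v w

namespace Pool.Agent.HCO

theorem thm_OClos : St_OClos.{u} := by
  classical
  intro X _ _ _ _ K A hK hO hAK
  obtain ⟨f, hf, hf'⟩ := hO
  have hcl : closure A ⊆ K := hK.closure_subset_iff.mpr hAK
  have hbet : ∀ b ∈ K, ∀ b' ∈ closure A, b' ∉ A → f b < f b' → ∃ a ∈ A, f b < f a ∧ f a < f b' := by
    intro b hb b' hb' hb'A hlt
    obtain ⟨O, hO, hO'⟩ := hf' b hb
    obtain ⟨O2, hO2, hO2'⟩ := hf' b' (hcl hb')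
    have h1 : b' ∈ Oᶜ ∩ O2 := by
      refine ⟨fun h => ?_, (hO2' b' (hcl hb')).mpr le_rfl⟩
      exact absurd ((hO' b' (hcl hb')).mp h) (not_le.mpr hlt)
    obtain ⟨a, ⟨ha1, ha2⟩, haA⟩ := mem_closure_iff.mp hb' (Oᶜ ∩ O2)
      (hO.compl.isOpen.inter hO2.isOpen) h1
    have haK := hAK haA
    refine ⟨a, haA, not_le.mp fun h => ha1 ((hO' a haK).mpr h), ?_⟩
    refine lt_of_le_of_ne ((hO2' a haK).mp ha2) fun h => hb'A ?_
    rw [← hf haK (hcl hb') h]
    exact haA
  have hmin : ∀ b, (∃ a ∈ A, f b < f a) → ∃ a ∈ A, f b < f a ∧ ∀ a' ∈ A, f b < f a' → f a ≤ f a' := by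
    rintro b ⟨a0, ha0, hb0⟩
    obtain ⟨o, ⟨a, ⟨ha1, ha2⟩, rfl⟩, hmin⟩ := (wellFounded_lt (α := Ordinal.{u})).has_min
      (f '' {a | a ∈ A ∧ f b < f a}) ⟨f a0, a0, ⟨ha0, hb0⟩, rfl⟩
    exact ⟨a, ha1, ha2, fun a' h1 h2 => not_lt.mp (hmin _ ⟨a', ⟨h1, h2⟩, rfl⟩)⟩
  choose! g hg1 hg2 hg3 using hmin
  let φ : closure A → Option (A × Bool) := fun b =>
    if h : (b : X) ∈ A then some (⟨b, h⟩, true)
    else if h' : ∃ a ∈ A, f b < f a then some (⟨g b, hg1 b h'⟩, false) else none
  have hφ : Function.Injective φ := by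
    rintro ⟨b, hb⟩ ⟨b', hb'⟩ he
    apply Subtype.ext
    show b = b'
    simp only [φ] at he
    by_cases h1 : b ∈ A
    · rw [dif_pos h1] at he
      by_cases h2 : b' ∈ A
      · rw [dif_pos h2] at he
        have h3 := congrArg (fun z : A × Bool => (z.1 : X)) (Option.some.inj he)
        exact h3
      · rw [dif_neg h2] at he
        by_cases h3 : ∃ a ∈ A, f b' < f a
        · rw [dif_pos h3] at he
          have h4 := congrArg Prod.snd (Option.some.inj he)
          exact absurd h4 (by simp)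
        · rw [dif_neg h3] at he
          exact absurd he (by simp)
    · rw [dif_neg h1] at he
      by_cases h2 : b' ∈ A
      · rw [dif_pos h2] at he
        by_cases h3 : ∃ a ∈ A, f b < f a
        · rw [dif_pos h3] at he
          have h4 := congrArg Prod.snd (Option.some.inj he)
          exact absurd h4 (by simp)
        · rw [dif_neg h3] at he
          exact absurd he (by simp)
      · rw [dif_neg h2] at he
        by_contra hne
        have hfne : f b ≠ f b' := fun h => hne (hf (hcl hb) (hcl hb') h)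
        have key : ∀ c c' : X, c ∈ closure A → c' ∈ closure A → c' ∉ A → f c < f c' →
            (∃ a ∈ A, f c < f a) ∧ ((∃ a ∈ A, f c' < f a) → f (g c) < f (g c')) := by
          intro c c' hc hc' hc'A hlt
          obtain ⟨a, haA, ha1, ha2⟩ := hbet c (hcl hc) c' hc' hc'A hlt
          refine ⟨⟨a, haA, ha1⟩, fun h => ?_⟩
          calc f (g c) ≤ f a := hg3 c ⟨a, haA, ha1⟩ a haA ha1
            _ < f c' := ha2
            _ < f (g c') := hg2 c' h
        rcases lt_or_gt_of_ne hfne with hlt | hlt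
        · obtain ⟨k1, k2⟩ := key b b' hb hb' h2 hlt
          rw [dif_pos k1] at he
          by_cases h3 : ∃ a ∈ A, f b' < f a
          · rw [dif_pos h3] at he
            have h4 : g b = g b' :=
              congrArg (fun z : A × Bool => (z.1 : X)) (Option.some.inj he)
            have h5 := k2 h3
            rw [h4] at h5
            exact lt_irrefl _ h5
          · rw [dif_neg h3] at he
            exact absurd he (by simp)
        · obtain ⟨k1, k2⟩ := key b' b hb' hb h1 hlt
          rw [dif_pos k1] at he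
          by_cases h3 : ∃ a ∈ A, f b < f a
          · rw [dif_pos h3] at he
            have h4 : g b = g b' :=
              congrArg (fun z : A × Bool => (z.1 : X)) (Option.some.inj he)
            have h5 := k2 h3
            rw [h4] at h5
            exact lt_irrefl _ h5
          · rw [dif_neg h3] at he
            exact absurd he (by simp)
  refine (Cardinal.mk_le_of_injective hφ).trans ?_
  rw [Cardinal.mk_option]
  have h1 : #(A × Bool) = #A * 2 := by
    rw [Cardinal.mk_prod, Cardinal.lift_uzero]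
    simp
  rw [h1]
  have hc : ℵ₀ ≤ max #A ℵ₀ := le_max_right _ _
  have h2 : (2 : Cardinal.{u}) ≤ max #A ℵ₀ := (Cardinal.natCast_lt_aleph0 (n := 2)).le.trans hc
  have h3 : (1 : Cardinal.{u}) ≤ max #A ℵ₀ := Cardinal.one_le_aleph0.trans hc
  calc #A * 2 + 1 ≤ max #A ℵ₀ * max #A ℵ₀ + max #A ℵ₀ :=
        add_le_add (mul_le_mul' (le_max_left _ _) h2) h3
    _ = max #A ℵ₀ := by rw [Cardinal.mul_eq_self hc, Cardinal.add_eq_self hc]

end Pool.Agent.HCO
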