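import Pool.Agent.HCO.St4
import Pool.Agent.HCO.OAcc

/-!
# HCO / OCnt: points in the closure of a countable union of closed sets
-/

set_option autoImplicit false

open Set Topology Cardinal Ordinal Order Filter

universe u v w

namespace Pool.Agent.HCO

theorem thm_OCnt : St_OCnt.{u} := by
  classical
  intro X _ _ _ _ K p A hK hKo hp hA hcl
  obtain ⟨f, hf⟩ := hKo
  obtain ⟨P, hP1, hP2⟩ := hf.2 p hp
  have hpP : p ∈ P := (hP2 p hp).2 le_rfl
  have hex : ∀ n, ∃ O : Set X, IsClopen O ∧ p ∈ O ∧ O ⊆ P ∧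
      ∀ v ∈ K, v ∈ A n → v ∈ P → ∀ w ∈ K, w ∈ O → f v < f w := by
    intro n
    by_cases hne : ((A n ∩ P) ∩ K).Nonempty
    · obtain ⟨z, hz, hmax⟩ := OAcc_max hK hf (A n ∩ P) ((hA n).1.inter hP1.isClosed) hne
      obtain ⟨O, hO1, hO2⟩ := hf.2 z hz.2
      have hzp : f z < f p := by
        refine lt_of_le_of_ne ((hP2 z hz.2).1 hz.1.2) fun h => ?_
        have : z = p := hf.1 hz.2 hp h
        exact (hA n).2 (this ▸ hz.1.1)
      refine ⟨P \ O, hP1.diff hO1, ⟨hpP, fun h => ?_⟩, diff_subset, ?_⟩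
      · exact absurd ((hO2 p hp).1 h) (not_le.2 hzp)
      · intro v hv hvA hvP w hw hwO
        refine (hmax v ⟨⟨hvA, hvP⟩, hv⟩).trans_lt ?_
        by_contra h
        exact hwO.2 ((hO2 w hw).2 (not_lt.1 h))
    · refine ⟨P, hP1, hpP, Subset.rfl, ?_⟩
      intro v hv hvA hvP
      exact absurd ⟨v, ⟨hvA, hvP⟩, hv⟩ hne
  choose O hO1 hO2 hO3 hO4 using hex
  refine ⟨O, fun n => ⟨hO1 n, hO2 n⟩, ?_⟩
  intro w hw hwO
  by_contra hne
  have hwp : f w < f p := by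
    refine lt_of_le_of_ne ((hP2 w hw).1 (hO3 0 (hwO 0))) fun h => hne (hf.1 hw hp h)
  obtain ⟨W, hW1, hW2⟩ := hf.2 w hw
  have hsub : K ∩ ⋃ n, A n ⊆ W ∪ Pᶜ := by
    rintro v ⟨hv, hvA⟩
    rw [mem_iUnion] at hvA
    obtain ⟨n, hn⟩ := hvA
    by_cases hvP : v ∈ P
    · left
      exact (hW2 v hv).2 (hO4 n v hv hn hvP w hw (hwO n)).le
    · right
      exact hvP
  have hcl' := closure_minimal hsub (hW1.isClosed.union hP1.compl.isClosed) hcl
  rcases hcl' with h | h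
  · exact absurd ((hW2 p hp).1 h) (not_le.2 hwp)
  · exact h hpP

end Pool.Agent.HCO
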