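import Pool.Agent.HCO.St4

set_option autoImplicit false

open Set Topology Cardinal Ordinal Order Filter

universe u v w

namespace Pool.Agent.HCO

/-- a nonempty closed subset of an ordinal space has a maximum -/
private theorem OCtble_max {X : Type u} [TopologicalSpace X] [CompactSpace X]
    (K : Set X) (f : X → Ordinal.{u}) (hf : OrdOn K f) (C : Set X) (hC : IsClosed C)
    (hCK : C ⊆ K) (hne : C.Nonempty) : ∃ a ∈ C, ∀ w ∈ C, f w ≤ f a := by
  classical
  have h1 : ∀ a : C, ∃ O : Set X, IsClopen O ∧ ∀ z ∈ K, (z ∈ O ↔ f z ≤ f a) :=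
    fun a => hf.2 a (hCK a.2)
  choose O hO hO' using h1
  have : Nonempty C := hne.to_subtype
  obtain ⟨a, ha⟩ := hC.isCompact.elim_directed_cover
    (fun a : C => ⋃ a' ∈ {a' : C | f a' ≤ f a}, O a')
    (fun a => isOpen_biUnion fun a' _ => (hO a').isOpen)
    (fun w hw => by
      simp only [mem_iUnion]
      exact ⟨⟨w, hw⟩, ⟨w, hw⟩, le_refl (f w), (hO' ⟨w, hw⟩ w (hCK hw)).mpr le_rfl⟩)
    (by
      intro a b
      rcases le_total (f a) (f b) with h | h
      · refine ⟨b, ?_, subset_rfl⟩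
        exact biUnion_subset_biUnion_left fun a' (h' : f a' ≤ f a) => h'.trans h
      · refine ⟨a, subset_rfl, ?_⟩
        exact biUnion_subset_biUnion_left fun a' (h' : f a' ≤ f b) => h'.trans h)
  refine ⟨a, a.2, fun w hw => ?_⟩
  have h2 := ha hw
  simp only [mem_iUnion] at h2
  obtain ⟨a', h3, h4⟩ := h2
  have h3 : f a' ≤ f a := h3
  exact ((hO' a' w (hCK hw)).mp h4).trans h3

theorem thm_OCtble : St_OCtble.{u} := by
  classical
  intro X _ _ _ _ A hA hO hCnt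
  obtain ⟨f, hf⟩ := hO
  by_contra hunc
  have hne : A.Nonempty := by
    by_contra h
    rw [not_nonempty_iff_eq_empty] at h
    rw [h] at hunc
    exact hunc countable_empty
  obtain ⟨m, hmA, hm⟩ := OCtble_max A f hf A hA subset_rfl hne
  have hex : ∃ o, o ∈ f '' {b | b ∈ A ∧ ¬ {z | z ∈ A ∧ f z ≤ f b}.Countable} := by
    refine ⟨f m, m, ⟨hmA, ?_⟩, rfl⟩
    have : {z | z ∈ A ∧ f z ≤ f m} = A := by
      ext z
      exact ⟨fun h => h.1, fun h => ⟨h, hm z h⟩⟩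
    rw [this]
    exact hunc
  obtain ⟨o, ⟨b, ⟨hb1, hb2⟩, rfl⟩, hmin⟩ := (wellFounded_lt (α := Ordinal.{u})).has_min _ hex
  have hsm : ∀ z ∈ A, f z < f b → {w | w ∈ A ∧ f w ≤ f z}.Countable := by
    intro z hz hlt
    by_contra h
    exact hmin _ ⟨z, ⟨hz, h⟩, rfl⟩ hlt
  obtain ⟨Ob, hOb, hOb'⟩ := hf.2 b hb1
  obtain ⟨O, hO1, hO2⟩ := hCnt b hb1
  apply hb2
  have hpc : ∀ n, (A ∩ Ob ∩ (O n)ᶜ).Countable := by
    intro n
    rcases (A ∩ Ob ∩ (O n)ᶜ).eq_empty_or_nonempty with h | h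
    · rw [h]
      exact countable_empty
    · obtain ⟨a, ⟨⟨ha1, ha2⟩, ha3⟩, ha4⟩ := OCtble_max A f hf (A ∩ Ob ∩ (O n)ᶜ)
        ((hA.inter hOb.isClosed).inter (hO1 n).1.compl.isClosed)
        (fun z hz => hz.1.1) h
      have hab : a ≠ b := by
        rintro rfl
        exact ha3 (hO1 n).2
      have hlt : f a < f b := lt_of_le_of_ne ((hOb' a ha1).mp ha2)
        fun h => hab (hf.1 ha1 hb1 h)
      refine (hsm a ha1 hlt).mono ?_
      intro z hz
      exact ⟨hz.1.1, ha4 z hz⟩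
  refine ((countable_singleton b).union (countable_iUnion hpc)).mono ?_
  rintro z ⟨hz1, hz2⟩
  by_cases h : ∀ n, z ∈ O n
  · exact Or.inl (hO2 z hz1 h)
  · push Not at h
    obtain ⟨n, hn⟩ := h
    exact Or.inr (mem_iUnion.mpr ⟨n, ⟨hz1, (hOb' z hz1).mpr hz2⟩, hn⟩)

end Pool.Agent.HCO
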