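import Pool.Agent.HCO.St4

/-!
# HCO / OE: one-endedness
-/

set_option autoImplicit false

open Set Topology Cardinal Ordinal Order Filter

universe u v w

namespace Pool.Agent.HCO

/-- splitting a closed set accumulating at `x` -/
theorem OE_split (hB : St_Big.{u}) (hC4 : St_C4b.{u}) (X : Type u) [TopologicalSpace X]
    [CompactSpace X] [T2Space X] [TotallyDisconnectedSpace X] (x : X) (μ : Cardinal.{u})
    (K : Ordinal.{u} → Set X) (hm : Min X x μ.ord) (hf : Filt x μ K) (A : Bool → Set X)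
    (hA : ∀ b, IsClosed (A b)) (hAx : ∀ b, AccPt x (𝓟 (A b)))
    (hAA : ∀ z, z ∈ A true → z ∈ A false → z = x)
    (H : Set X) (hH : IsClosed H) (hHx : AccPt x (𝓟 H)) :
    ∃ H' : Bool → Set X, (∀ b, H' b ⊆ H ∧ IsClosed (H' b) ∧ AccPt x (𝓟 (H' b))) ∧
      ∀ z, z ∈ H' true → z ∈ H' false → z = x := by
  have hxH : x ∈ H := isClosed_iff_accPt.1 hH x hHx
  obtain ⟨U, e, hU, hxU, hex⟩ := hB X x μ.ord hm H hH (hC4 X x μ K hf H hH hHx) hxH
  refine ⟨fun b => Subtype.val '' {z : H | ((e z : U) : X) ∈ A b}, fun b => ⟨?_, ?_, ?_⟩, ?_⟩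
  · rintro _ ⟨z, -, rfl⟩
    exact z.2
  · exact hH.isClosedEmbedding_subtypeVal.isClosedMap _
      ((hA b).preimage (continuous_subtype_val.comp e.continuous))
  · rw [accPt_iff_nhds]
    intro W hW
    have hcont : Continuous (fun u : U => ((e.symm u : H) : X)) :=
      continuous_subtype_val.comp e.symm.continuous
    have hsx : ((e.symm ⟨x, hxU⟩ : H) : X) = x := by
      have : e ⟨x, hxH⟩ = ⟨x, hxU⟩ := Subtype.ext hex
      rw [← this, e.symm_apply_apply]
    have h1 : (fun u : U => ((e.symm u : H) : X)) ⁻¹' W ∈ 𝓝 (⟨x, hxU⟩ : U) := by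
      apply hcont.continuousAt.preimage_mem_nhds
      rw [hsx]
      exact hW
    obtain ⟨V, hV, hVW⟩ := (mem_nhds_subtype _ _ _).1 h1
    obtain ⟨y, ⟨⟨hyV, hyU⟩, hyA⟩, hyx⟩ := accPt_iff_nhds.1 (hAx b) (V ∩ U)
      (Filter.inter_mem hV (hU.isOpen.mem_nhds hxU))
    refine ⟨((e.symm ⟨y, hyU⟩ : H) : X), ⟨hVW (show (⟨y, hyU⟩ : U) ∈ Subtype.val ⁻¹' V from hyV),
      ⟨e.symm ⟨y, hyU⟩, ?_, rfl⟩⟩, ?_⟩
    · change ((e (e.symm ⟨y, hyU⟩) : U) : X) ∈ A b
      rw [e.apply_symm_apply]
      exact hyA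
    · intro h
      apply hyx
      have h2 : e.symm ⟨y, hyU⟩ = ⟨x, hxH⟩ := Subtype.ext h
      have h3 := congrArg e h2
      rw [e.apply_symm_apply] at h3
      rw [← hex, ← h3]
  · rintro z ⟨z1, h1, rfl⟩ ⟨z2, h2, h3⟩
    have h4 : z2 = z1 := Subtype.ext h3
    subst h4
    have h5 := hAA _ h1 h2
    have h6 : e z2 = e ⟨x, hxH⟩ := Subtype.ext (by rw [h5, hex])
    rw [e.injective h6]

/-- the first terms of a sequence -/
def OE_pr (t : ℕ → Bool) : ℕ → List Bool
  | 0 => []
  | n + 1 => t n :: OE_pr t n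

/-- the tree of sets -/
def OE_T {X : Type u} (S : Set X → Bool → Set X) (F : Set X) : List Bool → Set X
  | [] => F
  | b :: s => S (OE_T S F s) b

theorem OE_pr_eq (t t' : ℕ → Bool) (n : ℕ) (h : ∀ m < n, t m = t' m) :
    OE_pr t n = OE_pr t' n := by
  induction n with
  | zero => rfl
  | succ n ih =>
    change t n :: OE_pr t n = t' n :: OE_pr t' n
    rw [h n (Nat.lt_succ_self n), ih (fun m hm => h m (hm.trans (Nat.lt_succ_self n)))]

theorem thm_OE (hB : St_Big.{u}) (hC4 : St_C4b.{u}) (hFi : St_Filt.{u}) (hC : St_Club.{u}) :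
    St_OE.{u} := by
  intro X _ _ _ _ x μ K hm hf hctb F G hF hG hFx hGx
  by_contra hno
  push Not at hno
  have hsplit := OE_split hB hC4 X x μ K hm hf (fun b => if b = true then F else G)
    (fun b => by cases b <;> simp [hF, hG]) (fun b => by cases b <;> simp [hFx, hGx])
    (fun z h1 h2 => by
      simp only [if_true, Bool.false_eq_true, if_false] at h1 h2
      exact hno z h1 h2)
  choose! S hS using hsplit
  set T : List Bool → Set X := OE_T S F with hTdef
  have hT : ∀ s, IsClosed (T s) ∧ AccPt x (𝓟 (T s)) := by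
    intro s
    induction s with
    | nil => exact ⟨hF, hFx⟩
    | cons b s ih => exact ((hS (T s) ih.1 ih.2).1 b).2
  have hTs : ∀ b s, T (b :: s) ⊆ T s := fun b s => ((hS (T s) (hT s).1 (hT s).2).1 b).1
  have hTi : ∀ s z, z ∈ T (true :: s) → z ∈ T (false :: s) → z = x :=
    fun s z => (hS (T s) (hT s).1 (hT s).2).2 z
  have hcl := fun s => hFi.acc X x μ K hf (T s) (hT s).2
  choose C hC1 hC2 using hcl
  obtain ⟨f, hfs⟩ := exists_surjective_nat (List Bool)
  have hμ : ℵ₀ < μ.ord.cof := by rw [hf.reg.cof_ord]; exact hf.unc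
  have hCi := hC.intersN μ.ord (fun n => C (f n)) hμ (fun n => hC1 (f n))
  obtain ⟨l, ⟨hlμ, hlC⟩, hlc⟩ := hctb _ hCi
  have hmeet : ∀ s, ∃ z ∈ Bd K l, z ∈ T s := by
    intro s
    obtain ⟨n, rfl⟩ := hfs s
    obtain ⟨-, -, z, hz1, hz2⟩ := hC2 (f n) l (hlC n)
    exact ⟨z, hz1, (hT (f n)).1.closure_subset ((closure_mono inter_subset_left) hz2)⟩
  have hBc : IsClosed (Bd K l) := hFi.closedBd X x μ.ord K hf.toPreFilt l hlμ.le
  have hxB : x ∉ Bd K l := fun h => hf.notin l hlμ (hf.cl l hlμ h.1)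
  have hz : ∀ t : ℕ → Bool, ∃ z ∈ Bd K l, ∀ n, z ∈ T (OE_pr t n) := by
    intro t
    have := IsCompact.nonempty_iInter_of_sequence_nonempty_isCompact_isClosed
      (fun n => T (OE_pr t n) ∩ Bd K l)
      (fun n => inter_subset_inter_left _ (hTs (t n) (OE_pr t n)))
      (fun n => by
        obtain ⟨z, hz1, hz2⟩ := hmeet (OE_pr t n)
        exact ⟨z, hz2, hz1⟩)
      ((hT _).1.inter hBc).isCompact (fun n => (hT _).1.inter hBc)
    obtain ⟨z, hz⟩ := this
    rw [mem_iInter] at hz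
    exact ⟨z, (hz 0).2, fun n => (hz n).1⟩
  choose z hz1 hz2 using hz
  have hinj : Function.Injective z := by
    intro t t' h
    by_contra hne
    have hex : ∃ n, t n ≠ t' n := by
      by_contra hc
      push Not at hc
      exact hne (funext hc)
    classical
    have h1 := Nat.find_spec hex
    have h2 : ∀ m < Nat.find hex, t m = t' m := fun m hm => by
      have := Nat.find_min hex hm
      push Not at this
      exact this
    set n := Nat.find hex
    have h3 : z t ∈ T (t n :: OE_pr t n) := hz2 t (n + 1)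
    have h4 : z t ∈ T (t' n :: OE_pr t n) := by
      rw [h, OE_pr_eq t t' n h2]
      exact hz2 t' (n + 1)
    have h5 : z t = x := by
      rcases Bool.eq_false_or_eq_true (t n) with h6 | h6 <;>
        rcases Bool.eq_false_or_eq_true (t' n) with h7 | h7
      · exact absurd (h6.trans h7.symm) h1
      · rw [h6] at h3; rw [h7] at h4
        exact hTi _ _ h3 h4
      · rw [h6] at h3; rw [h7] at h4
        exact hTi _ _ h4 h3
      · exact absurd (h6.trans h7.symm) h1
    exact hxB (h5 ▸ hz1 t)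
  have hcnt : Countable (Bd K l) := hlc
  obtain ⟨j, hj⟩ := exists_injective_nat (Bd K l)
  classical
  refine Function.cantor_injective
    (fun s : Set ℕ => j ⟨z (fun n => decide (n ∈ s)), hz1 _⟩) ?_
  intro s s' h
  have h1 := hinj (congrArg Subtype.val (hj h))
  ext n
  have h2 := congrFun h1 n
  simpa using h2

end Pool.Agent.HCO
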