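import Pool.Agent.HCO.St4

/-! `IsOrd` is the right notion. -/

set_option autoImplicit false

open Set Topology Cardinal Ordinal Order Filter

universe u v w

namespace Pool.Agent.HCO

private theorem OHomeo_ext {X : Type u} [TopologicalSpace X] [CompactSpace X] [T2Space X]
    [TotallyDisconnectedSpace X] {F : Set X} (hF : IsClosed F) {V : Set F} (hV : IsClopen V) :
    ∃ O : Set X, IsClopen O ∧ ∀ z, ∀ h : z ∈ F, (z ∈ O ↔ (⟨z, h⟩ : F) ∈ V) := by
  have h1 : IsClosed ((↑) '' V : Set X) := hF.isClosedEmbedding_subtypeVal.isClosedMap _ hV.1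
  have h2 : IsClosed ((↑) '' Vᶜ : Set X) :=
    hF.isClosedEmbedding_subtypeVal.isClosedMap _ hV.compl.1
  obtain ⟨O, hO, hO1, hO2⟩ := exists_clopen_of_closed_subset_open h1 h2.isOpen_compl (by
    rintro _ ⟨z, hz, rfl⟩ ⟨w, hw, h⟩
    rw [Subtype.ext h] at hw
    exact hw hz)
  refine ⟨O, hO, fun z h => ⟨fun hz => ?_, fun hz => hO1 ⟨⟨z, h⟩, hz, rfl⟩⟩⟩
  by_contra hc
  exact hO2 hz ⟨⟨z, h⟩, hc, rfl⟩

private theorem OHomeo_back {X : Type u} [TopologicalSpace X] [CompactSpace X] [T2Space X]
    [TotallyDisconnectedSpace X] {F : Set X} (hF : IsClosed F) {α : Ordinal.{u}}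
    (e : F ≃ₜ Set.Iic α) : IsOrd F := by
  classical
  refine ⟨fun z => if h : z ∈ F then (e ⟨z, h⟩ : Ordinal.{u}) else 0, ?_, ?_⟩
  · intro z hz w hw h
    simp only [dif_pos hz, dif_pos hw] at h
    exact congrArg Subtype.val (e.injective (Subtype.ext h))
  · intro a ha
    have hV : IsClopen {z : F | (e z : Ordinal.{u}) ≤ e ⟨a, ha⟩} := by
      have hc : Continuous fun z : F => (e z : Ordinal.{u}) :=
        continuous_subtype_val.comp e.continuous
      refine ⟨isClosed_Iic.preimage hc, ?_⟩
      have h1 : {z : F | (e z : Ordinal.{u}) ≤ e ⟨a, ha⟩} =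
          (fun z : F => (e z : Ordinal.{u})) ⁻¹' Iio (succ (e ⟨a, ha⟩ : Ordinal.{u})) := by
        ext z
        simp only [mem_ofPred_eq, mem_preimage, mem_Iio, Order.lt_succ_iff]
      rw [h1]
      exact isOpen_Iio.preimage hc
    obtain ⟨O', hO', h'⟩ := OHomeo_ext hF hV
    refine ⟨O', hO', fun z hz => ?_⟩
    rw [h' z hz]
    simp only [dif_pos hz, dif_pos ha, mem_ofPred_eq]

private theorem OHomeo_forth {X : Type u} [TopologicalSpace X] [CompactSpace X] [T2Space X]
    [TotallyDisconnectedSpace X] {F : Set X} (hF : IsClosed F) (hne : F.Nonempty)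
    (h : IsOrd F) : ∃ α : Ordinal.{u}, Nonempty (F ≃ₜ Set.Iic α) := by
  classical
  obtain ⟨f, hf, hO⟩ := h
  have : CompactSpace F := isCompact_iff_compactSpace.1 hF.isCompact
  have : Nonempty F := hne.to_subtype
  -- closed initial segments are clopen in F
  have hI : ∀ a : F, IsClopen {z : F | f z ≤ f a} := by
    intro a
    obtain ⟨O, hO1, hO2⟩ := hO a a.2
    have h1 : {z : F | f z ≤ f a} = (fun z : F => (z : X)) ⁻¹' O := by
      ext z
      simp only [mem_ofPred_eq, mem_preimage]
      exact (hO2 z z.2).symm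
    rw [h1]
    exact hO1.preimage continuous_subtype_val
  -- the maximum
  obtain ⟨m, hm⟩ : ∃ m : F, ∀ z : F, f z ≤ f m := by
    obtain ⟨t, ht⟩ := isCompact_univ.elim_finite_subcover (fun a : F => {z : F | f z ≤ f a})
      (fun a => (hI a).2) (fun z _ => mem_iUnion.2 ⟨z, le_refl (f z)⟩)
    have htn : t.Nonempty := by
      obtain ⟨z⟩ := (inferInstance : Nonempty F)
      have h1 := ht (mem_univ z)
      simp only [mem_iUnion] at h1
      obtain ⟨a, ha, _⟩ := h1
      exact ⟨a, ha⟩
    obtain ⟨m, hmt, hm⟩ := t.exists_max_image (fun a : F => f a) htn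
    refine ⟨m, fun z => ?_⟩
    have h1 := ht (mem_univ z)
    simp only [mem_iUnion] at h1
    obtain ⟨a, ha, hz⟩ := h1
    exact le_trans hz (hm a ha)
  let r : F → F → Prop := fun a b => f a < f b
  have : IsWellOrder F r :=
    { trichotomous := fun a b => by
        intro h1 h2
        exact Subtype.ext (hf a.2 b.2 (le_antisymm (not_lt.1 h2) (not_lt.1 h1)))
      wf := InvImage.wf (fun a : F => f a) Ordinal.lt_wf }
  have hle : ∀ a b : F, typein r a ≤ typein r b ↔ f a ≤ f b := by
    intro a b
    rw [← not_lt, typein_lt_typein, ← not_lt]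
  refine ⟨typein r m, ⟨?_⟩⟩
  let φ : F → Set.Iic (typein r m) := fun z => ⟨typein r z, (hle z m).2 (hm z)⟩
  have hinj : Function.Injective φ := by
    intro a b hab
    exact typein_injective r (congrArg Subtype.val hab)
  have hsur : Function.Surjective φ := by
    rintro ⟨c, hc⟩
    have h1 : c < type r := lt_of_le_of_lt hc (typein_lt_type r m)
    obtain ⟨a, ha⟩ := typein_surj r h1
    exact ⟨a, Subtype.ext ha⟩
  have hcont : Continuous φ := by
    refine Continuous.subtype_mk ?_ _
    rw [OrderTopology.continuous_iff]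
    intro c
    constructor
    · by_cases hc : c < type r
      · obtain ⟨a, ha⟩ := typein_surj r hc
        have h1 : (fun z : F => typein r z) ⁻¹' Ioi c = {z : F | f z ≤ f a}ᶜ := by
          ext z
          simp only [mem_preimage, mem_Ioi, mem_compl_iff, mem_ofPred_eq, not_le]
          rw [← ha, typein_lt_typein]
        rw [h1]
        exact (hI a).compl.2
      · have h1 : (fun z : F => typein r z) ⁻¹' Ioi c = ∅ := by
          ext z
          simp only [mem_preimage, mem_Ioi, mem_empty_iff_false, iff_false, not_lt]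
          exact ((typein_lt_type r z).trans_le (not_lt.1 hc)).le
        rw [h1]
        exact isOpen_empty
    · have h1 : (fun z : F => typein r z) ⁻¹' Iio c =
          ⋃ b : {b : F // typein r b < c}, {z : F | f z ≤ f b.1} := by
        ext z
        simp only [mem_preimage, mem_Iio, mem_iUnion, mem_ofPred_eq]
        constructor
        · intro hz
          exact ⟨⟨z, hz⟩, le_refl _⟩
        · rintro ⟨⟨b, hb⟩, hz⟩
          exact lt_of_le_of_lt ((hle z b).2 hz) hb
      rw [h1]
      exact isOpen_iUnion fun b => (hI b.1).2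
  exact hcont.homeoOfEquivCompactToT2 (f := Equiv.ofBijective φ ⟨hinj, hsur⟩)

/-- `IsOrd` is the right notion -/
theorem thm_OHomeo : St_OHomeo.{u} := by
  intro X _ _ _ _ F hF hne
  exact ⟨OHomeo_forth hF hne, fun ⟨α, ⟨e⟩⟩ => OHomeo_back hF e⟩

end Pool.Agent.HCO
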