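import Pool.Agent.HCO.St4

set_option autoImplicit false

open Set Topology Cardinal Ordinal Order Filter

universe u v w

namespace Pool.Agent.HCO

private theorem OSigma_aux {X : Type u} (f : ℕ → X → Ordinal.{u}) (V : ℕ → Set X) (x : X)
    (hx : ∀ n, x ∈ V n) (hz : ∀ z, z ≠ x → ∃ n, z ∉ V n) :
    ∃ F : X → Ordinal.{u},
      (∀ z z' n m, z ∉ V n → (∀ i < n, z ∈ V i) → z' ∉ V m → (∀ i < m, z' ∈ V i) → n < m →
        F z < F z') ∧
      (∀ z z' n, z ∉ V n → (∀ i < n, z ∈ V i) → z' ∉ V n → (∀ i < n, z' ∈ V i) →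
        (F z ≤ F z' ↔ f n z ≤ f n z')) ∧
      ∀ z, z ≠ x → F z < F x := by
  classical
  set Γ : Ordinal.{u} := ⨆ p : ℕ × X, (f p.1 p.2 + 1) with hΓ
  have hlt : ∀ n z, f n z < Γ := fun n z =>
    Ordinal.lt_iSup_add_one (fun p : ℕ × X => f p.1 p.2) (n, z)
  let F : X → Ordinal.{u} := fun z =>
    if h : ∃ n, z ∉ V n then Γ * ((Nat.find h : ℕ) : Ordinal.{u}) + f (Nat.find h) z else Γ * ω
  have hF : ∀ z n, z ∉ V n → (∀ i < n, z ∈ V i) → F z = Γ * (n : Ordinal.{u}) + f n z := by
    intro z n h1 h2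
    have h : ∃ n, z ∉ V n := ⟨n, h1⟩
    have hn : Nat.find h = n := by
      rw [Nat.find_eq_iff]
      exact ⟨h1, fun i hi => not_not.mpr (h2 i hi)⟩
    simp only [F]
    rw [dif_pos h, hn]
  have hFx : F x = Γ * ω := by
    simp only [F]
    rw [dif_neg]
    push Not
    exact hx
  have hstep : ∀ (z : X) (n : ℕ), Γ * (n : Ordinal.{u}) + f n z < Γ * ((n + 1 : ℕ) : Ordinal.{u}) := by
    intro z n
    rw [Nat.cast_add, Nat.cast_one, mul_add_one]
    exact (add_lt_add_iff_left _).mpr (hlt n z)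
  refine ⟨F, ?_, ?_, ?_⟩
  · intro z z' n m h1 h2 h3 h4 hnm
    rw [hF z n h1 h2, hF z' m h3 h4]
    calc Γ * (n : Ordinal.{u}) + f n z < Γ * ((n + 1 : ℕ) : Ordinal.{u}) := hstep z n
      _ ≤ Γ * (m : Ordinal.{u}) := by
          refine mul_le_mul_right ?_ Γ
          exact_mod_cast hnm
      _ ≤ Γ * (m : Ordinal.{u}) + f m z' := le_self_add
  · intro z z' n h1 h2 h3 h4
    rw [hF z n h1 h2, hF z' n h3 h4]
    exact add_le_add_iff_left _
  · intro z hzx
    have h := hz z hzx
    have h1 := Nat.find_spec h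
    have h2 : ∀ i < Nat.find h, z ∈ V i := fun i hi => not_not.mp (Nat.find_min h hi)
    rw [hF z _ h1 h2, hFx]
    refine (hstep z _).trans_le (mul_le_mul_right ?_ Γ)
    exact (Ordinal.natCast_lt_omega0 _).le

theorem thm_OSigma : St_OSigma.{u} := by
  classical
  intro X _ _ _ _ x A hA hcov hK
  have hV : ∀ n, ∃ V : Set X, IsClopen V ∧ x ∈ V ∧ V ⊆ (A n)ᶜ := fun n =>
    compact_exists_isClopen_in_isOpen (hA n).1.isOpen_compl (hA n).2
  choose V hVc hVx hVA using hV
  have hf : ∀ n, IsOrd ((V n)ᶜ) := fun n =>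
    hK _ (hVc n).isOpen.isClosed_compl (fun h => h (hVx n))
  choose f hf1 hf2 using hf
  have hz : ∀ z, z ≠ x → ∃ n, z ∉ V n := by
    intro z hzx
    obtain ⟨n, hn⟩ := hcov z hzx
    exact ⟨n, fun h => hVA n h hn⟩
  obtain ⟨F, g1, g2, g3⟩ := OSigma_aux f V x hVx hz
  have hfirst : ∀ z, z ≠ x → ∃ n, z ∉ V n ∧ ∀ i < n, z ∈ V i := by
    intro z hzx
    have h := hz z hzx
    exact ⟨Nat.find h, Nat.find_spec h, fun i hi => not_not.mp (Nat.find_min h hi)⟩
  refine ⟨F, ?_, ?_⟩
  · intro z _ z' _ he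
    by_cases hzx : z = x
    · by_cases hzx' : z' = x
      · rw [hzx, hzx']
      · rw [hzx] at he
        exact absurd he (g3 z' hzx').ne'
    · by_cases hzx' : z' = x
      · rw [hzx'] at he
        exact absurd he (g3 z hzx).ne
      · obtain ⟨n, a1, a2⟩ := hfirst z hzx
        obtain ⟨m, b1, b2⟩ := hfirst z' hzx'
        rcases lt_trichotomy n m with h | h | h
        · exact absurd he (g1 z z' n m a1 a2 b1 b2 h).ne
        · subst h
          have c1 := (g2 z z' n a1 a2 b1 b2).mp he.le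
          have c2 := (g2 z' z n b1 b2 a1 a2).mp he.ge
          exact hf1 n a1 b1 (le_antisymm c1 c2)
        · exact absurd he (g1 z' z m n b1 b2 a1 a2 h).ne'
  · intro a _
    by_cases hax : a = x
    · refine ⟨univ, isClopen_univ, fun z _ => ⟨fun _ => ?_, fun _ => mem_univ z⟩⟩
      by_cases hzx : z = x
      · rw [hzx, hax]
      · rw [hax]
        exact (g3 z hzx).le
    · obtain ⟨n, a1, a2⟩ := hfirst a hax
      obtain ⟨O, hO, hO'⟩ := hf2 n a a1
      refine ⟨(⋃ i ∈ Finset.range n, (V i)ᶜ) ∪ (O ∩ (V n)ᶜ), ?_, fun z _ => ?_⟩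
      · refine IsClopen.union ?_ (hO.inter (hVc n).compl)
        exact isClopen_biUnion_finset fun i _ => (hVc i).compl
      · simp only [mem_union, mem_iUnion, Finset.mem_range, mem_inter_iff, mem_compl_iff,
          exists_prop]
        by_cases hzx : z = x
        · constructor
          · rintro (⟨i, -, hi⟩ | ⟨-, hi⟩)
            · exact absurd (by rw [hzx]; exact hVx i) hi
            · exact absurd (by rw [hzx]; exact hVx n) hi
          · intro h
            rw [hzx] at h
            exact absurd h (not_le.mpr (g3 a hax))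
        · obtain ⟨m, b1, b2⟩ := hfirst z hzx
          rcases lt_trichotomy m n with h | h | h
          · exact ⟨fun _ => (g1 z a m n b1 b2 a1 a2 h).le, fun _ => Or.inl ⟨m, h, b1⟩⟩
          · subst h
            rw [g2 z a m b1 b2 a1 a2, ← hO' z b1]
            constructor
            · rintro (⟨i, hi, hi'⟩ | ⟨hi, -⟩)
              · exact absurd (b2 i hi) hi'
              · exact hi
            · intro hi
              exact Or.inr ⟨hi, b1⟩
          · constructor
            · rintro (⟨i, hi, hi'⟩ | ⟨-, hi⟩)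
              · exact absurd (b2 i (hi.trans h)) hi'
              · exact absurd (b2 n h) hi
            · intro hi
              exact absurd hi (not_le.mpr (g1 a z n m a1 a2 b1 b2 h))

end Pool.Agent.HCO
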