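import Pool.Agent.HCO.St4

/-!
# The size of ordinal spaces
-/

set_option autoImplicit false

open Set Topology Cardinal Ordinal Order Filter

universe u v w

namespace Pool.Agent.HCO

theorem thm_OSize (hD : St_Der.{u}) : St_OSize.{u} := by
  intro X _ _ _ _ K s hK hord hs
  obtain ⟨f, hinj, hO⟩ := hord
  by_contra hcon
  rw [not_le] at hcon
  set c : Cardinal.{u} := max s.card ℵ₀ with hc
  have hc0 : ℵ₀ ≤ c := le_max_right _ _
  have hcs : s.card ≤ c := le_max_left _ _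
  have hc1 : c + 1 = c := Cardinal.add_one_eq hc0
  have hmin : ∀ S : Set X, S.Nonempty → ∃ z ∈ S, ∀ v ∈ S, f z ≤ f v := by
    intro S hS
    obtain ⟨m, hm, hm2⟩ := (InvImage.wf f Ordinal.lt_wf).has_min S hS
    exact ⟨m, hm, fun v hv => not_lt.1 (hm2 v hv)⟩
  let L : Set X := {z | z ∈ K ∧ #{v | v ∈ K ∧ f v < f z} ≤ c}
  have hseg : ∀ a ∈ L, #{v | v ∈ K ∧ f v ≤ f a} ≤ c := by
    rintro a ⟨ha, hac⟩
    have h1 : {v | v ∈ K ∧ f v ≤ f a} ⊆ insert a {v | v ∈ K ∧ f v < f a} := by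
      rintro v ⟨hv, hva⟩
      rcases eq_or_lt_of_le hva with h | h
      · exact Or.inl (hinj hv ha h)
      · exact Or.inr ⟨hv, h⟩
    calc #{v | v ∈ K ∧ f v ≤ f a} ≤ #(insert a {v | v ∈ K ∧ f v < f a} : Set X) :=
          Cardinal.mk_le_mk_of_subset h1
      _ ≤ #{v | v ∈ K ∧ f v < f a} + 1 := Cardinal.mk_insert_le
      _ ≤ c + 1 := by gcongr
      _ = c := hc1
  have hbound : ∀ A : Set X, A ⊆ L → #A ≤ c → ∃ z ∈ L, ∀ a ∈ A, f a < f z := by
    intro A hAL hA
    let B : Set X := ⋃ a ∈ A, {v | v ∈ K ∧ f v ≤ f a}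
    have hB : #B ≤ c := by
      calc #B ≤ #A * ⨆ a : A, #{v | v ∈ K ∧ f v ≤ f a.1} := Cardinal.mk_biUnion_le _ _
        _ ≤ c * c := by
          gcongr
          exact ciSup_le' fun a => hseg a.1 (hAL a.2)
        _ = c := Cardinal.mul_eq_self hc0
    have hne : (K \ B).Nonempty := by
      by_contra h
      rw [Set.not_nonempty_iff_eq_empty, Set.diff_eq_empty] at h
      exact absurd ((Cardinal.mk_le_mk_of_subset h).trans hB) (not_le.2 hcon)
    obtain ⟨z, ⟨hzK, hzB⟩, hz⟩ := hmin _ hne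
    refine ⟨z, ⟨hzK, ?_⟩, ?_⟩
    · refine (Cardinal.mk_le_mk_of_subset ?_).trans hB
      rintro v ⟨hv, hvz⟩
      by_contra hvB
      exact absurd (hz v ⟨hv, hvB⟩) (not_le.2 hvz)
    · intro a ha
      by_contra h
      exact hzB (Set.mem_biUnion ha ⟨hzK, not_lt.1 h⟩)
  have hkey : ∀ d : Ordinal.{u}, d ≤ s → ∀ z₀ ∈ L, ∃ w ∈ L, f z₀ < f w ∧ w ∈ der K d := by
    intro d
    induction d using Ordinal.induction with
    | _ d ih =>
      intro hds z₀ hz₀
      have hdc : d.card ≤ c := (Ordinal.card_le_card hds).trans hcs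
      -- one step
      have hstep : ∀ z : L, ∃ z' : L, f z.1 < f z'.1 ∧ ∀ e < d, ∃ v ∈ der K e,
          f z.1 < f v ∧ f v < f z'.1 := by
        rintro ⟨z, hz⟩
        have h1 : ∀ e : Iio d, ∃ w ∈ L, f z < f w ∧ w ∈ der K e.1 := fun e =>
          ih e.1 e.2 (e.2.le.trans hds) z hz
        choose W hWL hWz hWd using h1
        let i : Iio d ≃ d.ToType := Ordinal.ToType.mk.toEquiv
        let A : Set X := insert z (Set.range fun j => W (i.symm j))
        have hA : #A ≤ c := by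
          calc #A ≤ #(Set.range fun j => W (i.symm j)) + 1 := Cardinal.mk_insert_le
            _ ≤ #d.ToType + 1 := by
              gcongr
              exact Cardinal.mk_range_le
            _ ≤ c + 1 := by
              gcongr
              rw [Cardinal.mk_toType]
              exact hdc
            _ = c := hc1
        obtain ⟨z', hz', hz'A⟩ := hbound A (by
          rintro a (rfl | ⟨j, rfl⟩)
          · exact hz
          · exact hWL _) hA
        refine ⟨⟨z', hz'⟩, hz'A z (Or.inl rfl), fun e he => ⟨W ⟨e, he⟩, hWd ⟨e, he⟩,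
          hWz ⟨e, he⟩, ?_⟩⟩
        refine hz'A _ (Or.inr ⟨i ⟨e, he⟩, ?_⟩)
        simp only [Equiv.symm_apply_apply]
      choose g hg1 hg2 using hstep
      let q : ℕ → L := fun n => Nat.rec ⟨z₀, hz₀⟩ (fun _ z => g z) n
      have hq0 : q 0 = ⟨z₀, hz₀⟩ := rfl
      have hqs : ∀ n, q (n + 1) = g (q n) := fun n => rfl
      have hqlt : ∀ n, f (q n).1 < f (q (n + 1)).1 := by
        intro n
        rw [hqs]
        exact hg1 _
      have hqmono : StrictMono fun n => f (q n).1 := strictMono_nat_of_lt_succ hqlt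
      -- the supremum
      obtain ⟨z', hz', hz'q⟩ := hbound (Set.range fun n => (q n).1) (by
        rintro _ ⟨n, rfl⟩
        exact (q n).2) (((Set.countable_range fun n => (q n).1).le_aleph0).trans hc0)
      have hne : {v | v ∈ K ∧ ∀ n, f (q n).1 < f v}.Nonempty :=
        ⟨z', hz'.1, fun n => hz'q _ ⟨n, rfl⟩⟩
      obtain ⟨w, ⟨hwK, hwq⟩, hwmin⟩ := hmin _ hne
      have hwL : w ∈ L := by
        refine ⟨hwK, (Cardinal.mk_le_mk_of_subset ?_).trans hz'.2⟩
        rintro v ⟨hv, hvw⟩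
        exact ⟨hv, hvw.trans_le (hwmin z' ⟨hz'.1, fun n => hz'q _ ⟨n, rfl⟩⟩)⟩
      refine ⟨w, hwL, hwq 0, ?_⟩
      rw [hD.iff]
      refine ⟨hwK, fun e he => ?_⟩
      rw [accPt_iff_nhds]
      intro U hU
      obtain ⟨Ow, hOw, hOw'⟩ := hO w hwK
      have hOn : ∀ n, ∃ O : Set X, IsClopen O ∧ ∀ z ∈ K, (z ∈ O ↔ f z ≤ f (q n).1) :=
        fun n => hO _ (q n).2.1
      choose O hOc hO' using hOn
      have hCcl : ∀ n, IsClosed (K ∩ Ow ∩ (O n)ᶜ) := fun n =>
        (hK.inter hOw.1).inter (hOc n).compl.1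
      have hanti : ∀ m n, m ≤ n → K ∩ Ow ∩ (O n)ᶜ ⊆ K ∩ Ow ∩ (O m)ᶜ := by
        rintro m n hmn v ⟨⟨hvK, hvO⟩, hvn⟩
        refine ⟨⟨hvK, hvO⟩, fun hvm => hvn ?_⟩
        rw [hO' n v hvK]
        exact ((hO' m v hvK).1 hvm).trans (hqmono.monotone hmn)
      obtain ⟨n, hn⟩ := exists_subset_nhds_of_isCompact' (V := fun n => K ∩ Ow ∩ (O n)ᶜ)
        (fun m n => ⟨max m n, hanti _ _ (le_max_left _ _), hanti _ _ (le_max_right _ _)⟩)
        (fun n => (hCcl n).isCompact) hCcl (U := U) (by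
          intro x hx
          rw [Set.mem_iInter] at hx
          have hxK : x ∈ K := (hx 0).1.1
          have h1 : f x ≤ f w := (hOw' x hxK).1 (hx 0).1.2
          have h2 : ∀ n, f (q n).1 < f x := by
            intro n
            by_contra h
            exact (hx n).2 ((hO' n x hxK).2 (not_lt.1 h))
          have h3 : x = w := hinj hxK hwK (le_antisymm h1 (hwmin x ⟨hxK, h2⟩))
          rw [h3]
          exact hU)
      obtain ⟨v, hvd, hv1, hv2⟩ := hg2 (q n) e he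
      have hvK : v ∈ K := ((hD.iff X K e v).1 hvd).1
      have hvw : f v < f w := hv2.trans (by rw [← hqs]; exact hwq (n + 1))
      refine ⟨v, ⟨hn ⟨⟨hvK, (hOw' v hvK).2 hvw.le⟩, fun h => ?_⟩, hvd⟩, ?_⟩
      · exact absurd ((hO' n v hvK).1 h) (not_le.2 hv1)
      · rintro rfl
        exact lt_irrefl _ hvw
  obtain ⟨z, hz, -⟩ := hbound ∅ (Set.empty_subset _) (by simp)
  obtain ⟨w, -, -, hw⟩ := hkey s le_rfl z hz
  rw [hs] at hw
  exact hw

end Pool.Agent.HCO
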