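import Pool.Agent.HCO.St4

/-! Transfer of ordinal subspaces along homeomorphisms. -/

set_option autoImplicit false

open Set Topology Cardinal Ordinal Order Filter

universe u v w

namespace Pool.Agent.HCO

/-- a relatively clopen subset of a closed set is the trace of a clopen set -/
theorem OTr_ext {X : Type u} [TopologicalSpace X] [CompactSpace X] [T2Space X]
    [TotallyDisconnectedSpace X] {F : Set X} (hF : IsClosed F) {V : Set F} (hV : IsClopen V) :
    ∃ O : Set X, IsClopen O ∧ ∀ z, ∀ h : z ∈ F, (z ∈ O ↔ (⟨z, h⟩ : F) ∈ V) := by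
  have h1 : IsClosed ((↑) '' V : Set X) := hF.isClosedEmbedding_subtypeVal.isClosedMap _ hV.1
  have h2 : IsClosed ((↑) '' Vᶜ : Set X) :=
    hF.isClosedEmbedding_subtypeVal.isClosedMap _ hV.compl.1
  obtain ⟨O, hO, hO1, hO2⟩ := exists_clopen_of_closed_subset_open h1 h2.isOpen_compl (by
    rintro _ ⟨z, hz, rfl⟩ ⟨w, hw, h⟩
    rw [Subtype.ext h] at hw
    exact hw hz)
  refine ⟨O, hO, fun z h => ⟨fun hz => ?_, fun hz => hO1 ⟨⟨z, h⟩, hz, rfl⟩⟩⟩
  by_contra hc
  exact hO2 hz ⟨⟨z, h⟩, hc, rfl⟩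

/-- transfer along homeomorphisms of closed subsets of two spaces -/
theorem thm_OTr : St_OTr.{u} := by
  classical
  intro X Z _ _ _ _ _ _ _ _ F G _ hG e ⟨f, hf, hO⟩
  refine ⟨fun z => if h : z ∈ G then f (e.symm ⟨z, h⟩) else 0, ?_, ?_⟩
  · intro z hz w hw h
    simp only [dif_pos hz, dif_pos hw] at h
    have h1 := hf (e.symm ⟨z, hz⟩).2 (e.symm ⟨w, hw⟩).2 h
    have h2 := e.symm.injective (Subtype.ext h1)
    exact congrArg Subtype.val h2
  · intro a ha
    obtain ⟨O, hO1, hO2⟩ := hO (e.symm ⟨a, ha⟩) (e.symm ⟨a, ha⟩).2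
    have hV : IsClopen {z : G | ((e.symm z : F) : X) ∈ O} :=
      hO1.preimage (continuous_subtype_val.comp e.symm.continuous)
    obtain ⟨O', hO', h'⟩ := OTr_ext hG hV
    refine ⟨O', hO', fun z hz => ?_⟩
    rw [h' z hz]
    simp only [dif_pos hz, dif_pos ha]
    exact hO2 _ (e.symm ⟨z, hz⟩).2

end Pool.Agent.HCO
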