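import Pool.Agent.HCO.St4

set_option autoImplicit false

open Set Topology Cardinal Ordinal Order Filter

universe u v w

namespace Pool.Agent.HCO

theorem thm_OUnion : St_OUnion.{u} := by
  classical
  intro X _ _ _ _ F G hF hG hdis ⟨f, hf1, hf2⟩ ⟨g, hg1, hg2⟩
  obtain ⟨C, hC, hFC, hCG⟩ := exists_clopen_of_closed_subset_open hF hG.isOpen_compl
    (fun z hz hz2 => hdis.le_bot ⟨hz, hz2⟩)
  obtain ⟨Γ, hΓ⟩ : ∃ Γ : Ordinal.{u}, ∀ z, f z < Γ :=
    ⟨⨆ z, Order.succ (f z), fun z => lt_of_lt_of_le (Order.lt_succ (f z))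
      (le_ciSup (f := fun z => Order.succ (f z)) Ordinal.bddAbove_of_small z)⟩
  have hFz : ∀ z ∈ F, (if z ∈ F then f z else Γ + g z) = f z := fun z hz => if_pos hz
  have hGF : ∀ z ∈ G, z ∉ F := fun z hz hz2 => hdis.le_bot ⟨hz2, hz⟩
  have hGz : ∀ z ∈ G, (if z ∈ F then f z else Γ + g z) = Γ + g z := fun z hz =>
    if_neg (hGF z hz)
  have hlt : ∀ y ∈ F, ∀ z ∈ G, f y < Γ + g z := fun y _ z _ =>
    lt_of_lt_of_le (hΓ y) (le_add_of_nonneg_right bot_le)
  refine ⟨fun z => if z ∈ F then f z else Γ + g z, ?_, ?_⟩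
  · intro y hy z hz h
    simp only at h
    rcases hy with hy | hy <;> rcases hz with hz | hz
    · rw [hFz y hy, hFz z hz] at h
      exact hf1 hy hz h
    · rw [hFz y hy, hGz z hz] at h
      exact absurd h (hlt y hy z hz).ne
    · rw [hGz y hy, hFz z hz] at h
      exact absurd h.symm (hlt z hz y hy).ne
    · rw [hGz y hy, hGz z hz] at h
      exact hg1 hy hz (add_left_cancel h)
  · intro a ha
    rcases ha with ha | ha
    · obtain ⟨O, hO, hO2⟩ := hf2 a ha
      refine ⟨O ∩ C, hO.inter hC, ?_⟩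
      intro z hz
      simp only
      rw [hFz a ha]
      rcases hz with hz | hz
      · rw [hFz z hz, ← hO2 z hz]
        exact ⟨fun h => h.1, fun h => ⟨h, hFC hz⟩⟩
      · rw [hGz z hz]
        exact ⟨fun h => absurd hz (hCG h.2), fun h => absurd h (not_le.2 (hlt a ha z hz))⟩
    · obtain ⟨O, hO, hO2⟩ := hg2 a ha
      refine ⟨O ∪ C, hO.union hC, ?_⟩
      intro z hz
      simp only
      rw [hGz a ha]
      rcases hz with hz | hz
      · rw [hFz z hz]
        exact ⟨fun _ => (hlt z hz a ha).le, fun _ => Or.inr (hFC hz)⟩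
      · rw [hGz z hz, add_le_add_iff_left, ← hO2 z hz]
        exact ⟨fun h => h.resolve_right fun hc => hCG hc hz, fun h => Or.inl h⟩

end Pool.Agent.HCO
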