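import Pool.Agent.HCO.St4

/-!
# P4one: one-point extensions in the poset `P4 x K`
-/

set_option autoImplicit false

universe u v w

open Set Topology Cardinal Ordinal Order Filter

namespace Pool.Agent.HCO

theorem thm_P4one (hGf : St_Gf.{u}) (hFilt : St_Filt.{u}) (hClub : St_Club.{u}) :
    St_P4one.{u} := by
  classical
  intro X _ _ _ _ x K hK hct hoe p b hb
  have hcof : (w1.{u}).cof = ℵ₁ := isRegular_aleph_one.cof_ord
  have hw : ℵ₀ < (w1.{u}).cof := by
    rw [hcof]
    exact aleph0_lt_aleph_one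
  -- bound for the promises
  have h1 : ∀ f : Set X × (X → Set X), ∃ β < w1.{u}, f ∈ p.Φ → ∀ v, v ≠ x → v ∉ K β →
      Pos x {y | y ∈ f.1 ∧ v ∈ f.2 y} := by
    intro f
    by_cases hf : f ∈ p.Φ
    · obtain ⟨hpos, hcl⟩ := p.pos f hf
      obtain ⟨β, hβ, h⟩ := hGf X x K hK hct hoe f.1 f.2 hpos
        (fun y hy => ⟨(hcl y hy).1.isOpen, (hcl y hy).2⟩)
      exact ⟨β, hβ, fun _ => h⟩
    · exact ⟨b, hb, fun h => absurd h hf⟩
  choose β hβ1 hβ2 using h1
  obtain ⟨g, hg⟩ := Set.countable_iff_exists_subset_range.1 p.pct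
  obtain ⟨B1, hB1, hB1'⟩ := hClub.supN w1 (fun n => β (g n)) hw (fun n => hβ1 (g n))
  -- bound for the heights
  obtain ⟨a, ha, hpa⟩ := hFilt.cpt X x ℵ₁ K hK p.c p.closed p.nx
  have ha' : a < w1 := ha
  -- the new point
  set B : Ordinal.{u} := max (max a b) B1 with hB
  have hBw : B < w1 := max_lt (max_lt ha' hb) hB1
  have hmono : ∀ c d, c ≤ d → d < w1 → K c ⊆ K d := hK.mono
  obtain ⟨v, ⟨hvB, -⟩, hvx⟩ := accPt_iff_nhds.1 hoe.1 (K B)ᶜ
    ((hK.clopen B hBw).compl.isOpen.mem_nhds (hK.notin B hBw))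
  have hvB' : ∀ c ≤ B, v ∉ K c := fun c hc h => hvB (hmono c B hc hBw h)
  have hht : B < ht K v := by
    obtain ⟨c, -, hc⟩ := hK.cover v hvx
    have h2 : ht K v ∈ {a | v ∈ K a} := csInf_mem ⟨c, hc⟩
    by_contra hle
    exact hvB' _ (not_lt.1 hle) h2
  have hlt : ∀ w ∈ p.c, ht K w < ht K v := by
    intro w hw
    have h2 : ht K w ≤ a := csInf_le' (show a ∈ {a | w ∈ K a} from hpa hw)
    exact (h2.trans ((le_max_left _ _).trans (le_max_left _ _))).trans_lt hht
  have hvc : v ∉ p.c := fun h => lt_irrefl _ (hlt v h)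
  have hdiff : insert v p.c \ p.c = {v} := by
    ext z
    simp only [Set.mem_sdiff, Set.mem_insert_iff, Set.mem_singleton_iff]
    constructor
    · rintro ⟨h | h, h'⟩
      · exact h
      · exact absurd h h'
    · rintro rfl
      exact ⟨Or.inl rfl, hvc⟩
  have hpos : ∀ f ∈ p.Φ, Pos x {y | y ∈ f.1 ∧ v ∈ f.2 y} := by
    intro f hf
    refine hβ2 f hf v hvx (hvB' _ ?_)
    obtain ⟨n, hn⟩ := hg hf
    have := (hB1' n).le
    rw [hn] at this
    exact this.trans (le_max_right _ _)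
  let q : P4 x K :=
    { c := insert v p.c
      Φ := p.Φ ∪ (fun f : Set X × (X → Set X) => ({y | y ∈ f.1 ∧ v ∈ f.2 y}, f.2)) '' p.Φ
      closed := by
        rw [insert_eq]
        exact isClosed_singleton.union p.closed
      ct := p.ct.insert v
      nx := by
        rintro (h | h)
        · exact hvx h.symm
        · exact p.nx h
      inj := by
        rintro z (rfl | hz) w (rfl | hw) h
        · rfl
        · exact absurd h (hlt w hw).ne'
        · exact absurd h (hlt z hz).ne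
        · exact p.inj hz hw h
      pct := p.pct.union (p.pct.image _)
      pos := by
        rintro f (hf | ⟨f, hf, rfl⟩)
        · exact p.pos f hf
        · exact ⟨hpos f hf, fun y hy => (p.pos f hf).2 y hy.1⟩ }
  refine ⟨q, ⟨subset_insert v p.c, ?_, subset_union_left, ?_⟩, v, mem_insert v p.c,
    hvB' b ((le_max_right _ _).trans (le_max_left _ _))⟩
  · rintro z (rfl | hz) hz' w hw
    · exact hlt w hw
    · exact absurd hz hz'
  · intro f hf
    refine Or.inr ⟨f, hf, ?_⟩
    have : ∀ y, (v ∈ f.2 y ↔ q.c \ p.c ⊆ f.2 y) := by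
      intro y
      change v ∈ f.2 y ↔ insert v p.c \ p.c ⊆ f.2 y
      rw [hdiff, singleton_subset_iff]
    simp only [this]

end Pool.Agent.HCO
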