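import Pool.Agent.HCO.St4

/-!
# HCO: the poset of countable closed sets with promises preserves stationary sets
-/

set_option autoImplicit false

open Set Topology Cardinal Ordinal Order Filter

universe u v w

namespace Pool.Agent.HCO

/-- countable initial segments -/
theorem P4ssp_ctbl {d : Ordinal.{u}} (hd : d < w1) : (Iio d).Countable := by
  have h1 : d.card < Cardinal.aleph 1 := Cardinal.lt_ord.1 hd
  rw [← Cardinal.succ_aleph0, Order.lt_succ_iff] at h1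
  have h2 : #(Iio d) ≤ ℵ₀ := by
    rw [Cardinal.mk_Iio_ordinal]
    exact Cardinal.lift_le_aleph0.2 h1
  exact Cardinal.le_aleph0_iff_set_countable.1 h2

/-- meeting countably many dense sets -/
theorem P4ssp_rs {Q : Type v} (le : Q → Q → Prop) (E : ℕ → Q → Prop)
    (h : ∀ (n : ℕ) (p : Q), ∃ q, le q p ∧ E n q) (p : Q) :
    ∃ s : ℕ → Q, s 0 = p ∧ ∀ n, le (s (n + 1)) (s n) ∧ E n (s (n + 1)) := by
  choose g hg using h
  refine ⟨fun n => Nat.rec p (fun m q => g m q) n, rfl, ?_⟩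
  intro n
  exact hg n _

/-- a countable decreasing base of clopen sets -/
theorem P4ssp_base {X : Type u} [TopologicalSpace X] [CompactSpace X] [T2Space X]
    [TotallyDisconnectedSpace X] (N : Set X) (hN : IsClopen N) (hc : N.Countable) (z : X)
    (hz : z ∈ N) : ∃ O : ℕ → Set X, Antitone O ∧ (∀ n, IsClopen (O n) ∧ z ∈ O n) ∧
      (∀ w, (∀ n, w ∈ O n) → w = z) ∧ ∀ V : Set X, IsOpen V → z ∈ V → ∃ n, O n ⊆ V := by
  classical
  have hsep : ∀ w : X, ∃ U : Set X, IsClopen U ∧ z ∈ U ∧ (w ≠ z → w ∉ U) := by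
    intro w
    by_cases h : w = z
    · exact ⟨univ, isClopen_univ, mem_univ z, fun h' => absurd h h'⟩
    · have hopen : IsOpen ({w}ᶜ : Set X) := isOpen_compl_singleton
      obtain ⟨U, hU, hzU, hUs⟩ := compact_exists_isClopen_in_isOpen hopen
        (show z ∈ ({w}ᶜ : Set X) from fun h' => h (h'.symm))
      exact ⟨U, hU, hzU, fun _ hw => hUs hw rfl⟩
  choose U hUc hUz hUw using hsep
  obtain ⟨g, hg⟩ := hc.exists_eq_range ⟨z, hz⟩
  set O : ℕ → Set X := fun n => N ∩ ⋂ i ∈ Finset.range n, U (g i) with hO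
  have hanti : Antitone O := by
    intro a b hab w hw
    refine ⟨hw.1, ?_⟩
    have h2 := hw.2
    rw [mem_iInter₂] at h2 ⊢
    intro i hi
    exact h2 i (Finset.mem_range.2 (lt_of_lt_of_le (Finset.mem_range.1 hi) hab))
  have hcl : ∀ n, IsClopen (O n) ∧ z ∈ O n := by
    intro n
    refine ⟨hN.inter ?_, hz, ?_⟩
    · exact (Finset.range n).finite_toSet.isClopen_biInter (fun i _ => hUc (g i))
    · rw [mem_iInter₂]
      intro i _
      exact hUz (g i)
  have hint : ∀ w, (∀ n, w ∈ O n) → w = z := by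
    intro w hw
    by_contra hne
    have hwN : w ∈ N := (hw 0).1
    rw [hg] at hwN
    obtain ⟨i, rfl⟩ := hwN
    have h2 := (hw (i + 1)).2
    rw [mem_iInter₂] at h2
    exact hUw (g i) hne (h2 i (Finset.mem_range.2 (Nat.lt_succ_self i)))
  refine ⟨O, hanti, hcl, hint, ?_⟩
  intro V hV hzV
  by_contra hno
  push Not at hno
  have hne : ∀ n, (O n ∩ Vᶜ).Nonempty := by
    intro n
    obtain ⟨w, hw, hwV⟩ := not_subset.1 (hno n)
    exact ⟨w, hw, hwV⟩
  have hmain : (⋂ n, (O n ∩ Vᶜ)).Nonempty := by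
    refine IsCompact.nonempty_iInter_of_directed_nonempty_isCompact_isClosed _ ?_ hne ?_ ?_
    · intro a b
      refine ⟨max a b, ?_, ?_⟩
      · exact inter_subset_inter_left _ (hanti (le_max_left a b))
      · exact inter_subset_inter_left _ (hanti (le_max_right a b))
    · intro n
      exact ((hcl n).1.isClosed.inter hV.isClosed_compl).isCompact
    · intro n
      exact (hcl n).1.isClosed.inter hV.isClosed_compl
  obtain ⟨w, hw⟩ := hmain
  rw [mem_iInter] at hw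
  have hwz : w = z := hint w (fun n => (hw n).1)
  exact (hw 0).2 (hwz ▸ hzV)

theorem P4ssp_posmono {X : Type u} [TopologicalSpace X] {x : X} {A B : Set X} (hA : Pos x A)
    (h : A ⊆ B) : Pos x B := by
  intro F hF hx
  obtain ⟨z, hz, hzF, hzx⟩ := hA F hF hx
  exact ⟨z, h hz, hzF, hzx⟩

/-- the generic condition -/
theorem P4ssp_gen {X : Type u} [TopologicalSpace X] [CompactSpace X] [T2Space X]
    [TotallyDisconnectedSpace X] (x : X) (K : Ordinal.{u} → Set X) (hK : Filt x ℵ₁ K)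
    (hsplit : ∀ (A : Set X) (B : ℕ → Set X), Pos x A → A ⊆ (⋃ n, B n) → ∃ n, Pos x (B n))
    (D : Ordinal.{u} → Set (P4 x K)) (MP : Set (P4 x K)) (hMP : MP.Countable)
    (d : Ordinal.{u}) (hd : d < w1) (hdl : IsSuccLimit d) (z : X) (hz : z ∈ Bd K d)
    (hkey : ∀ p ∈ MP, ∀ a < d, ∀ O : Set X, IsClopen O → z ∈ O →
      ∃ q ≤ p, q ∈ MP ∧ q ∈ D a ∧ q.c \ p.c ⊆ O)
    (hcov : ∀ p ∈ MP, ∃ a < d, p.c ⊆ K a)
    (hgf : ∀ p ∈ MP, ∀ f ∈ p.Φ, Pos x {y | y ∈ f.1 ∧ z ∈ f.2 y})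
    (hKd : (K d).Countable) (p : P4 x K) (hp : p ∈ MP) :
    ∃ q ≤ p, ∀ a < d, ∃ s ∈ MP, s ∈ D a ∧ q ≤ s := by
  classical
  have hzK : z ∈ K d := hK.cl d hd hz.1
  have hzx : z ≠ x := by
    rintro rfl
    exact hK.notin d hd hzK
  have hzU : ∀ a < d, z ∉ K a := fun a ha h => hz.2 ⟨a, ha, h⟩
  have hhz : ht K z = d := by
    refine le_antisymm (csInf_le' hzK) ?_
    refine le_csInf ⟨d, hzK⟩ ?_
    intro a ha
    by_contra hlt
    exact hzU a (not_le.1 hlt) ha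
  have hhw : ∀ q ∈ MP, ∀ w ∈ q.c, ht K w < d := by
    intro q hq w hw
    obtain ⟨a, ha, hs⟩ := hcov q hq
    exact lt_of_le_of_lt (csInf_le' (hs hw)) ha
  obtain ⟨O, hOanti, hOc, hOint, hObase⟩ := P4ssp_base (K d) (hK.clopen d hd) hKd z hzK
  -- enumerations
  obtain ⟨ea, hea⟩ := (P4ssp_ctbl hd).exists_eq_range
    ⟨0, show (0 : Ordinal.{u}) < d from hdl.bot_lt⟩
  set Pi : Set (P4 x K × (Set X × (X → Set X))) := ⋃ q ∈ MP, (fun f => (q, f)) '' q.Φ with hPi
  have hPic : Pi.Countable := hMP.biUnion (fun q _ => q.pct.image _)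
  obtain ⟨ep0, hep⟩ := (hPic.insert (p, ((∅ : Set X), fun _ : X => (∅ : Set X)))).exists_eq_range
    (insert_nonempty _ _)
  set ep : ℕ → P4 x K × (Set X × (X → Set X)) := fun n => ep0 (Nat.unpair n).1 with hepd
  -- the auxiliary order
  let le : MP × ℕ → MP × ℕ → Prop := fun q r =>
    (q.1 : P4 x K) ≤ r.1 ∧ r.2 ≤ q.2 ∧ (q.1 : P4 x K).c \ (r.1 : P4 x K).c ⊆ O r.2
  have le_refl' : ∀ q, le q q := fun q => ⟨le_refl _, le_refl _, by
    rw [sdiff_self]
    exact empty_subset _⟩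
  have le_trans' : ∀ q r s, le q r → le r s → le q s := by
    intro q r s h1 h2
    refine ⟨h1.1.trans h2.1, h2.2.1.trans h1.2.1, ?_⟩
    intro w hw
    by_cases hwr : w ∈ (r.1 : P4 x K).c
    · exact h2.2.2 ⟨hwr, hw.2⟩
    · exact hOanti h2.2.1 (h1.2.2 ⟨hw.1, hwr⟩)
  let E : ℕ → MP × ℕ → Prop := fun n q =>
    (q.1 : P4 x K) ∈ D (ea n) ∧ n ≤ q.2 ∧
      ((ep n).2 ∈ (ep n).1.Φ → (q.1 : P4 x K) ≤ (ep n).1 →
        Pos x {y | y ∈ (ep n).2.1 ∧ ((q.1 : P4 x K).c \ (ep n).1.c) ∪ O q.2 ⊆ (ep n).2.2 y})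
  have hdense : ∀ (n : ℕ) (r : MP × ℕ), ∃ q, le q r ∧ E n q := by
    rintro n ⟨⟨r, hr⟩, k⟩
    have hean : ea n < d := by
      have h : ea n ∈ Iio d := by
        rw [hea]
        exact mem_range_self n
      exact h
    obtain ⟨q, hqr, hqM, hqD, hqc⟩ := hkey r hr (ea n) hean (O k) (hOc k).1 (hOc k).2
    by_cases hcase : (ep n).2 ∈ (ep n).1.Φ ∧ q ≤ (ep n).1
    · obtain ⟨hf, hqe⟩ := hcase
      have hf' := hqe.2.2.2 _ hf
      have hpos := hgf q hqM _ hf'
      have hsub : {y | y ∈ ({y | y ∈ (ep n).2.1 ∧ q.c \ (ep n).1.c ⊆ (ep n).2.2 y} : Set X) ∧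
          z ∈ (ep n).2.2 y} ⊆
          ⋃ j, {y | y ∈ (ep n).2.1 ∧ (q.c \ (ep n).1.c) ∪ O j ⊆ (ep n).2.2 y} := by
        rintro y ⟨⟨hy1, hy2⟩, hy3⟩
        have hop : IsOpen ((ep n).2.2 y) := (((ep n).1.pos _ hf).2 y hy1).1.isOpen
        obtain ⟨j, hj⟩ := hObase _ hop hy3
        exact mem_iUnion.2 ⟨j, hy1, union_subset hy2 hj⟩
      obtain ⟨j, hj⟩ := hsplit _ _ hpos hsub
      refine ⟨(⟨q, hqM⟩, max j (max n k)), ⟨hqr, ?_, hqc⟩, hqD, ?_, ?_⟩
      · exact le_trans (le_max_right n k) (le_max_right j _)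
      · exact le_trans (le_max_left n k) (le_max_right j _)
      · intro _ _
        refine P4ssp_posmono hj ?_
        rintro y ⟨hy1, hy2⟩
        exact ⟨hy1, (union_subset_union_right _ (hOanti (le_max_left _ _))).trans hy2⟩
    · refine ⟨(⟨q, hqM⟩, max n k), ⟨hqr, le_max_right n k, hqc⟩, hqD, le_max_left n k, ?_⟩
      intro h1 h2
      exact absurd ⟨h1, h2⟩ hcase
  obtain ⟨s, hs0, hs⟩ := P4ssp_rs le E hdense (⟨p, hp⟩, 0)
  have hle : ∀ m n, m ≤ n → le (s n) (s m) := by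
    intro m n hmn
    induction n, hmn using Nat.le_induction with
    | base => exact le_refl' _
    | succ n _ ih => exact le_trans' _ _ _ (hs n).1 ih
  set P : ℕ → P4 x K := fun n => ((s n).1 : P4 x K) with hP
  have hPM : ∀ n, P n ∈ MP := fun n => (s n).1.2
  have hPle : ∀ m n, m ≤ n → P n ≤ P m := fun m n h => (hle m n h).1
  have hPO : ∀ m n, m ≤ n → (P n).c \ (P m).c ⊆ O (s m).2 := fun m n h => (hle m n h).2.2
  have hPO' : ∀ m n, (P n).c \ (P m).c ⊆ O (s m).2 := by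
    intro m n
    rcases le_total m n with h | h
    · exact hPO m n h
    · intro w hw
      exact absurd ((hPle n m h).1 hw.1) hw.2
  have hk : ∀ n, n ≤ (s (n + 1)).2 := fun n => (hs n).2.2.1
  set c : Set X := insert z (⋃ n, (P n).c) with hc
  have hcdiff : ∀ m, c \ (P m).c ⊆ O (s m).2 := by
    intro m w hw
    rcases hw.1 with rfl | h
    · exact (hOc _).2
    · obtain ⟨n, hn⟩ := mem_iUnion.1 h
      exact hPO' m n ⟨hn, hw.2⟩
  have hcsub : ∀ m, (P m).c ⊆ c := fun m w hw => Or.inr (mem_iUnion.2 ⟨m, hw⟩)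
  have hznot : ∀ m, z ∉ (P m).c := by
    intro m h
    have h1 := hhw (P m) (hPM m) z h
    rw [hhz] at h1
    exact lt_irrefl _ h1
  -- properties of `c`
  have hclosed : IsClosed c := by
    rw [← isOpen_compl_iff, isOpen_iff_mem_nhds]
    intro w hw
    have hwz : w ≠ z := fun h => hw (Or.inl h)
    have hex : ∃ n, w ∉ O n := by
      by_contra hall
      push Not at hall
      exact hwz (hOint w hall)
    obtain ⟨n, hn⟩ := hex
    have hn' : w ∉ O (s (n + 1)).2 := fun h => hn (hOanti (hk n) h)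
    have h1 : (O (s (n + 1)).2)ᶜ ∩ (P (n + 1)).cᶜ ∈ 𝓝 w := by
      refine (IsOpen.inter ?_ ?_).mem_nhds ⟨hn', ?_⟩
      · exact (hOc _).1.isClosed.isOpen_compl
      · exact (P (n + 1)).closed.isOpen_compl
      · exact fun h => hw (hcsub _ h)
    refine Filter.mem_of_superset h1 ?_
    rintro v ⟨hv1, hv2⟩ hvc
    exact hv1 (hcdiff (n + 1) ⟨hvc, hv2⟩)
  have hctb : c.Countable := (countable_iUnion (fun n => (P n).ct)).insert z
  have hnx : x ∉ c := by
    rintro (h | h)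
    · exact hzx h.symm
    · obtain ⟨n, hn⟩ := mem_iUnion.1 h
      exact (P n).nx hn
  have hinj : Set.InjOn (ht K) c := by
    have haux : ∀ w ∈ (⋃ n, (P n).c), ht K w < d := by
      intro w hw
      obtain ⟨n, hn⟩ := mem_iUnion.1 hw
      exact hhw _ (hPM n) w hn
    intro w hw v hv hwv
    rcases hw with rfl | hw
    · rcases hv with rfl | hv
      · rfl
      · rw [hhz] at hwv
        exact absurd (haux v hv) (by rw [← hwv]; exact lt_irrefl _)
    · rcases hv with rfl | hv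
      · rw [hhz] at hwv
        exact absurd (haux w hw) (by rw [hwv]; exact lt_irrefl _)
      · obtain ⟨n, hn⟩ := mem_iUnion.1 hw
        obtain ⟨m, hm⟩ := mem_iUnion.1 hv
        exact (P (max n m)).inj ((hPle n _ (le_max_left n m)).1 hn)
          ((hPle m _ (le_max_right n m)).1 hm) hwv
  set Ph : Set (Set X × (X → Set X)) := (⋃ n, (P n).Φ) ∪
    ⋃ n, (fun f : Set X × (X → Set X) =>
      (({y | y ∈ f.1 ∧ c \ (P n).c ⊆ f.2 y} : Set X), f.2)) '' (P n).Φ with hPh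
  have hPhc : Ph.Countable :=
    (countable_iUnion (fun n => (P n).pct)).union
      (countable_iUnion (fun n => (P n).pct.image _))
  have hpos : ∀ f ∈ Ph, Pos x f.1 ∧ ∀ y ∈ f.1, IsClopen (f.2 y) ∧ y ∈ f.2 y := by
    rintro f (h | h)
    · obtain ⟨n, hn⟩ := mem_iUnion.1 h
      exact (P n).pos f hn
    · obtain ⟨n, g, hg, rfl⟩ := mem_iUnion.1 h
      refine ⟨?_, fun y hy => ((P n).pos g hg).2 y hy.1⟩
      -- the stage treating this promise
      have hmem : ((P n, g) : P4 x K × (Set X × (X → Set X))) ∈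
          insert (p, ((∅ : Set X), fun _ : X => (∅ : Set X))) Pi := by
        refine Or.inr ?_
        rw [hPi, mem_iUnion₂]
        exact ⟨P n, hPM n, g, hg, rfl⟩
      rw [hep] at hmem
      obtain ⟨j, hj⟩ := hmem
      set m : ℕ := Nat.pair j n with hmdef
      have hmn : n ≤ m + 1 := (Nat.right_le_pair j n).trans (Nat.le_succ _)
      have hm : ep m = (P n, g) := by
        rw [hepd]
        show ep0 (Nat.unpair m).1 = _
        rw [hmdef, Nat.unpair_pair]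
        exact hj
      have h3 := (hs m).2.2.2
      rw [hm] at h3
      have h4 := h3 hg (hPle n (m + 1) hmn)
      refine P4ssp_posmono h4 ?_
      rintro y ⟨hy1, hy2⟩
      refine ⟨hy1, fun w hw => hy2 ?_⟩
      by_cases hwm : w ∈ (P (m + 1)).c
      · exact Or.inl ⟨hwm, hw.2⟩
      · exact Or.inr (hcdiff (m + 1) ⟨hw.1, hwm⟩)
  let q : P4 x K :=
    { c := c
      Φ := Ph
      closed := hclosed
      ct := hctb
      nx := hnx
      inj := hinj
      pct := hPhc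
      pos := hpos }
  have hqP : ∀ n, q ≤ P n := by
    intro n
    refine ⟨hcsub n, ?_, ?_, ?_⟩
    · intro w hw hwn v hv
      rcases hw with rfl | hw
      · rw [hhz]
        exact hhw _ (hPM n) v hv
      · obtain ⟨m, hm⟩ := mem_iUnion.1 hw
        rcases le_total n m with h | h
        · exact (hPle n m h).2.1 w hm hwn v hv
        · exact absurd ((hPle m n h).1 hm) hwn
    · intro f hf
      exact Or.inl (mem_iUnion.2 ⟨n, hf⟩)
    · intro f hf
      exact Or.inr (mem_iUnion.2 ⟨n, f, hf, rfl⟩)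
  refine ⟨q, ?_, ?_⟩
  · have h := hqP 0
    have h0 : P 0 = p := by
      rw [hP]
      show ((s 0).1 : P4 x K) = p
      rw [hs0]
    rw [h0] at h
    exact h
  · intro a ha
    have h : a ∈ Iio d := ha
    rw [hea] at h
    obtain ⟨n, rfl⟩ := h
    exact ⟨P (n + 1), hPM (n + 1), (hs n).2.1, hqP (n + 1)⟩

theorem thm_P4ssp (hkey : St_P4key.{u}) (hN : St_N.{u}) (hGf : St_Gf.{u}) (hFilt : St_Filt.{u})
    (hT : St_SSPT.{u, u, u + 1}) : St_P4ssp.{u} := by
  classical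
  intro X _ _ _ _ x K hK hct hoe
  refine hT (P4 x K) (Ordinal.{u} ⊕ P4 x K ⊕ Set X) (fun p => Sum.inr (Sum.inl p)) Sum.inl
    (fun _ _ h => Sum.inl_injective (Sum.inr_injective h)) Sum.inl_injective.injOn ?_
  intro D hD hDo
  obtain ⟨F1, hF1c, hF1⟩ := hkey X x K hK hct hoe D hD hDo
  -- clubs for closed sets
  have hacc : ∀ F : Set X, ∃ C : Set Ordinal.{u}, AccPt x (𝓟 F) →
      Club w1 C ∧ ∀ l ∈ C, ∃ z ∈ Bd K l, z ∈ closure (F ∩ Uu K l) := by
    intro F
    by_cases h : AccPt x (𝓟 F)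
    · obtain ⟨C, hC, hC2⟩ := hFilt.acc X x ℵ₁ K hK F h
      exact ⟨C, fun _ => ⟨hC, fun l hl => (hC2 l hl).2.2⟩⟩
    · exact ⟨∅, fun h' => absurd h' h⟩
  choose C hC using hacc
  have hnext : ∀ (F : Set X) (a : Ordinal.{u}), ∃ c : Ordinal.{u}, AccPt x (𝓟 F) → a < w1 →
      c ∈ C F ∧ a < c := by
    intro F a
    by_cases h : AccPt x (𝓟 F) ∧ a < w1
    · obtain ⟨c, hc, hac⟩ := (hC F h.1).1.2.1 a h.2
      exact ⟨c, fun _ _ => ⟨hc, hac⟩⟩
    · exact ⟨0, fun h1 h2 => absurd ⟨h1, h2⟩ h⟩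
  choose nx hnx using hnext
  have hcov : ∀ p : P4 x K, ∃ a < w1, p.c ⊆ K a := fun p =>
    hFilt.cpt X x ℵ₁ K hK p.c p.closed p.nx
  choose cov hcov1 hcov2 using hcov
  have hgf : ∀ f : Set X × (X → Set X), ∃ b : Ordinal.{u},
      (Pos x f.1 ∧ ∀ y ∈ f.1, IsClopen (f.2 y) ∧ y ∈ f.2 y) →
      b < w1 ∧ ∀ v, v ≠ x → v ∉ K b → Pos x {y | y ∈ f.1 ∧ v ∈ f.2 y} := by
    intro f
    by_cases h : Pos x f.1 ∧ ∀ y ∈ f.1, IsClopen (f.2 y) ∧ y ∈ f.2 y
    · obtain ⟨b, hb, hb2⟩ := hGf X x K hK hct hoe f.1 f.2 h.1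
        (fun y hy => ⟨(h.2 y hy).1.isOpen, (h.2 y hy).2⟩)
      exact ⟨b, fun _ => ⟨hb, hb2⟩⟩
    · exact ⟨0, fun h' => absurd h' h⟩
  choose gf hgf1 using hgf
  -- the operation
  let F2 : List (Ordinal.{u} ⊕ P4 x K ⊕ Set X) → Set (Ordinal.{u} ⊕ P4 x K ⊕ Set X) := fun l =>
    match l with
    | [] => {Sum.inr (Sum.inr (Set.univ : Set X))}
    | [Sum.inr (Sum.inr F), Sum.inr (Sum.inr G)] => {Sum.inr (Sum.inr (F ∩ G))}
    | [Sum.inr (Sum.inr F), Sum.inl a] => {Sum.inl (nx F a)}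
    | [Sum.inr (Sum.inl p)] => insert (Sum.inl (cov p)) ((fun f => Sum.inl (gf f)) '' p.Φ)
    | _ => ∅
  have hF2c : ∀ l, (F2 l).Countable := by
    intro l
    simp only [F2]
    split
    · exact countable_singleton _
    · exact countable_singleton _
    · exact countable_singleton _
    · rename_i p
      exact (p.pct.image _).insert _
    · exact countable_empty
  refine ⟨fun l => F1 l ∪ F2 l, fun l => (hF1c l).union (hF2c l), ?_⟩
  intro M hMc hMF d hd hdl hMd p hpM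
  have hM1 := hF1 M hMc (fun l hl => subset_union_left.trans (hMF l hl)) d hd hdl hMd
  have hM2 : ∀ l, (∀ t ∈ l, t ∈ M) → F2 l ⊆ M := fun l hl =>
    subset_union_right.trans (hMF l hl)
  have huniv : (Sum.inr (Sum.inr (Set.univ : Set X)) : Ordinal.{u} ⊕ P4 x K ⊕ Set X) ∈ M :=
    hM2 [] (by simp) rfl
  have hinter : ∀ F G : Set X, Sum.inr (Sum.inr F) ∈ M → Sum.inr (Sum.inr G) ∈ M →
      Sum.inr (Sum.inr (F ∩ G)) ∈ M := by
    intro F G hF hG
    refine hM2 [Sum.inr (Sum.inr F), Sum.inr (Sum.inr G)] ?_ rfl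
    intro t ht
    simp only [List.mem_cons, List.not_mem_nil, or_false] at ht
    rcases ht with rfl | rfl
    · exact hF
    · exact hG
  have hnxM : ∀ F : Set X, Sum.inr (Sum.inr F) ∈ M → ∀ a < d, (Sum.inl (nx F a) :
      Ordinal.{u} ⊕ P4 x K ⊕ Set X) ∈ M := by
    intro F hF a ha
    refine hM2 [Sum.inr (Sum.inr F), Sum.inl a] ?_ rfl
    intro t ht
    simp only [List.mem_cons, List.not_mem_nil, or_false] at ht
    rcases ht with rfl | rfl
    · exact hF
    · exact (hMd a (ha.trans hd)).2 ha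
  have hcovM : ∀ q : P4 x K, Sum.inr (Sum.inl q) ∈ M → cov q < d := by
    intro q hq
    have h : (Sum.inl (cov q) : Ordinal.{u} ⊕ P4 x K ⊕ Set X) ∈ M := by
      refine hM2 [Sum.inr (Sum.inl q)] ?_ (Or.inl rfl)
      intro t ht
      simp only [List.mem_cons, List.not_mem_nil, or_false] at ht
      rw [ht]
      exact hq
    exact (hMd _ (hcov1 q)).1 h
  have hgfM : ∀ q : P4 x K, Sum.inr (Sum.inl q) ∈ M → ∀ f ∈ q.Φ, gf f < d := by
    intro q hq f hf
    have h : (Sum.inl (gf f) : Ordinal.{u} ⊕ P4 x K ⊕ Set X) ∈ M := by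
      refine hM2 [Sum.inr (Sum.inl q)] ?_ (Or.inr ⟨f, hf, rfl⟩)
      intro t ht
      simp only [List.mem_cons, List.not_mem_nil, or_false] at ht
      rw [ht]
      exact hq
    exact (hMd _ (hgf1 f (q.pos f hf)).1).1 h
  -- closed sets in `M` meet the boundary
  have hmeet : ∀ F : Set X, Sum.inr (Sum.inr F) ∈ M → IsClosed F → AccPt x (𝓟 F) →
      (Bd K d ∩ F).Nonempty := by
    intro F hF hFc hFx
    have hdC : d ∈ C F := by
      refine (hC F hFx).1.2.2 d hd hdl ?_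
      intro b hb
      refine ⟨nx F b, (hnx F b hFx (hb.trans hd)).1, (hnx F b hFx (hb.trans hd)).2, ?_⟩
      have h1 : nx F b < w1 := (hC F hFx).1.1 _ (hnx F b hFx (hb.trans hd)).1
      exact (hMd _ h1).1 (hnxM F hF b hb)
    obtain ⟨z, hz, hzc⟩ := (hC F hFx).2 d hdC
    exact ⟨z, hz, hFc.closure_subset_iff.2 inter_subset_left hzc⟩
  obtain ⟨z, hz, hzF⟩ : ∃ z ∈ Bd K d, ∀ F : Set X, Sum.inr (Sum.inr F) ∈ M → IsClosed F →
      AccPt x (𝓟 F) → z ∈ F := by
    let ι := {F : Set X // Sum.inr (Sum.inr F) ∈ M ∧ IsClosed F ∧ AccPt x (𝓟 F)}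
    have hBc : IsCompact (Bd K d) := (hFilt.closedBd X x _ K hK.toPreFilt d hd.le).isCompact
    have hfin : ∀ u : Finset ι, ∃ G : Set X, Sum.inr (Sum.inr G) ∈ M ∧ IsClosed G ∧
        AccPt x (𝓟 G) ∧ G ⊆ ⋂ i ∈ u, (i : ι).1 := by
      intro u
      induction u using Finset.induction_on with
      | empty => exact ⟨univ, huniv, isClosed_univ, hoe.1, by simp⟩
      | insert i u hi ih =>
        obtain ⟨G, hG1, hG2, hG3, hG4⟩ := ih
        refine ⟨i.1 ∩ G, hinter _ _ i.2.1 hG1, i.2.2.1.inter hG2,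
          hN.inter X x hoe _ _ i.2.2.1 hG2 i.2.2.2 hG3, ?_⟩
        rw [Finset.set_biInter_insert]
        exact inter_subset_inter_right _ hG4
    have h := hBc.inter_iInter_nonempty (fun i : ι => i.1) (fun i => i.2.2.1) (by
      intro u
      obtain ⟨G, hG1, hG2, hG3, hG4⟩ := hfin u
      exact (hmeet G hG1 hG2 hG3).mono (inter_subset_inter_right _ hG4))
    obtain ⟨z, hz1, hz2⟩ := h
    refine ⟨z, hz1, fun F h1 h2 h3 => ?_⟩
    rw [mem_iInter] at hz2
    exact hz2 ⟨F, h1, h2, h3⟩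
  have hzK : z ∈ K d := hK.cl d hd hz.1
  have hzx : z ≠ x := by
    rintro rfl
    exact hK.notin d hd hzK
  obtain ⟨q, hq1, hq2⟩ := P4ssp_gen x K hK (hN.split X x ℵ₁ K hK hoe) D
    {q | Sum.inr (Sum.inl q) ∈ M}
    (hMc.preimage (fun a b h => by simpa using h)) d hd hdl z hz
    (fun p' hp' a ha O hO hzO => hM1 z hz hzF p' hp' a ha O hO hzO)
    (fun p' hp' => ⟨cov p', hcovM p' hp', hcov2 p'⟩)
    (fun p' hp' f hf => (hgf1 f (p'.pos f hf)).2 z hzx
      (fun h => hz.2 ⟨gf f, hgfM p' hp' f hf, h⟩))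
    (hct d hd) p hpM
  refine ⟨q, hq1, ?_⟩
  intro a ha r hr
  obtain ⟨s, hsM, hsD, hqs⟩ := hq2 a ha
  exact ⟨s, hsM, hsD, r, le_refl r, hr.trans hqs⟩

end Pool.Agent.HCO
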