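import Pool.Agent.HCO.St4

/-!
# The P-ideal dichotomy from the ingredients of part 4
-/

set_option autoImplicit false

open Set Topology Cardinal Ordinal Order Filter

universe u v w

namespace Pool.Agent.HCO

private theorem PID_clubC_mono {T : Type v} {A B : Set T → Prop} (h : ClubC T A)
    (hAB : ∀ M, A M → B M) : ClubC T B := by
  obtain ⟨F, hF, hM⟩ := h
  exact ⟨F, hF, fun M h1 h2 => hAB M (hM M h1 h2)⟩

private theorem PID_clubC_mem {T : Type v} {A : Set T → Prop} (h : ClubC T A) (t : T) :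
    ClubC T (fun M => A M ∧ t ∈ M) := by
  obtain ⟨F, hF, hM⟩ := h
  refine ⟨fun l => F l ∪ {t}, fun l => (hF l).union (Set.countable_singleton t), ?_⟩
  intro M h1 h2
  refine ⟨hM M h1 fun l hl => Set.subset_union_left.trans (h2 l hl), ?_⟩
  exact h2 [] (by simp) (Or.inr rfl)

private theorem PID_w1_cof : ℵ₀ < (w1.{u}).cof := by
  have h : (w1.{u}).cof = ℵ₁ := Cardinal.isRegular_aleph_one.cof_ord
  rw [h]
  exact Cardinal.aleph0_lt_aleph_one

private theorem PID_w1_pos : (0 : Ordinal.{u}) < w1 := by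
  have h : IsSuccLimit (w1.{u}) := Cardinal.isSuccLimit_ord (Cardinal.aleph0_le_aleph 1)
  exact h.bot_lt

private theorem PID_w1_succ (a : Ordinal.{u}) (ha : a < w1) : a + 1 < w1 := by
  have h : IsSuccLimit (w1.{u}) := Cardinal.isSuccLimit_ord (Cardinal.aleph0_le_aleph 1)
  rw [← Order.succ_eq_add_one]
  exact h.succ_lt ha

private theorem PID_stat : Stat (w1.{u}) (Iio w1) := by
  intro C hC
  obtain ⟨c, hc, -⟩ := hC.2.1 0 PID_w1_pos
  exact ⟨c, hC.1 c hc, hc⟩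

theorem thm_PID (hgen : St_PIDgen.{u}) (hone : St_PIDone.{u}) (hsmall : St_PIDsmall.{u})
    (hMMs : St_MMs.{u, u + 1}) (hSSPT : St_SSPT.{u, u + 1, u + 1}) (hCC : St_CCex.{u, u + 1})
    (hLen : St_Len.{u, u + 1}) (hClub : St_Club.{u}) : St_PID.{u} := by
  intro hMM Y J hct hsub hunion hsing hp
  by_cases h2 : ∃ S : ℕ → Set Y, (∀ y, ∃ n, y ∈ S n) ∧ ∀ n, ∀ A ∈ J, A ⊆ S n → A.Finite
  · exact Or.inr h2
  left
  have hJ : PIdeal J := ⟨hct, hsub, hunion, hsing, hp⟩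
  -- `Y` is nonempty
  have hY : Nonempty Y := by
    by_contra hY
    rw [not_nonempty_iff] at hY
    exact h2 ⟨fun _ => ∅, fun y => (hY.false y).elim, fun _ A _ _ => Set.toFinite A⟩
  obtain ⟨y₀⟩ := hY
  have hemp : ∅ ∈ J := hsub {y₀} (hsing y₀) ∅ (Set.empty_subset _)
  have hne : Nonempty (PC J) :=
    ⟨⟨0, fun _ => ∅, ∅, PID_w1_pos, fun _ _ => hemp,
      fun i j hij hj => absurd (hij.trans_le hj) (not_lt.2 (zero_le)),
      fun _ _ => rfl, Set.countable_empty, fun X hX => hX.elim⟩⟩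
  have := hsmall Y J
  let T := Ordinal.{u} ⊕ PC J ⊕ Set Y ⊕ Y
  have hi : Function.Injective (fun p : PC J => (Sum.inr (Sum.inl p) : T)) := by
    intro p q h
    exact Sum.inl.inj (Sum.inr.inj h)
  have he : Set.InjOn (fun a : Ordinal.{u} => (Sum.inl a : T)) (Iio w1) := by
    intro a _ b _ h
    exact Sum.inl.inj h
  have hSSP : SSP.{u, u + 1} (PC J) := by
    refine hSSPT (PC J) T (fun p : PC J => (Sum.inr (Sum.inl p) : T))
      (fun a : Ordinal.{u} => (Sum.inl a : T)) hi he ?_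
    intro D hD hDo
    refine PID_clubC_mono (hgen Y J hJ D hD hDo) ?_
    intro M hM d hd hdl hMd p hpM
    obtain ⟨q, hq, hq2⟩ := hM d hd hdl hMd p hpM
    refine ⟨q, hq, fun a ha r hr => ?_⟩
    obtain ⟨s, hsM, hsD, hqs⟩ := hq2 a ha
    exact ⟨s, hsM, hsD, r, le_rfl, hr.trans hqs⟩
  have hdist : ∀ D : ℕ → Set (PC J), (∀ n, DenseP (D n)) →
      (∀ n, ∀ q ∈ D n, ∀ r ≤ q, r ∈ D n) → DenseP {p | ∀ n, p ∈ D n} := by
    intro D hD hDo p
    let D' : Ordinal.{u} → Set (PC J) := fun a => {q | ∀ n : ℕ, a = n → q ∈ D n}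
    have hD' : ∀ a, DenseP (D' a) := by
      intro a q
      by_cases ha : ∃ n : ℕ, a = n
      · obtain ⟨n, rfl⟩ := ha
        obtain ⟨r, hr, hrD⟩ := hD n q
        refine ⟨r, hr, fun m hm => ?_⟩
        rw [← Nat.cast_injective hm]
        exact hrD
      · exact ⟨q, le_rfl, fun n hn => (ha ⟨n, hn⟩).elim⟩
    have hDo' : ∀ a, ∀ q ∈ D' a, ∀ r ≤ q, r ∈ D' a :=
      fun a q hq r hr n hn => hDo n q (hq n hn) r hr
    obtain ⟨M, hMc, ⟨hM1, hM2⟩, d, hdS, hd, hdl, hMd⟩ := hCC T _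
      (fun a : Ordinal.{u} => (Sum.inl a : T)) (Iio w1) he PID_stat
      (PID_clubC_mem (hgen Y J hJ D' hD' hDo') (Sum.inr (Sum.inl p) : T))
    obtain ⟨q, hq, hq2⟩ := hM1 d hd hdl hMd p hM2
    refine ⟨q, hq, fun n => ?_⟩
    have hnd : (n : Ordinal.{u}) < d := by
      have := Ordinal.omega0_le_of_isSuccLimit hdl
      exact (Ordinal.natCast_lt_omega0 n).trans_le this
    obtain ⟨s, -, hsD, hqs⟩ := hq2 n hnd
    exact hDo n s (hsD n rfl) q hqs
  have hlen := hLen (PC J) PC.len (fun p q h => h.1) (hone Y J hJ h2) hdist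
  obtain ⟨G, hG, hGD⟩ := hMMs hMM (PC J) hSSP (fun i => {p | i ≤ p.len}) hlen
  -- coherence
  have hcoh : ∀ p ∈ G, ∀ q ∈ G, ∀ i, i ≤ p.len → i ≤ q.len → p.A i = q.A i := by
    intro p hpG q hqG i hip hiq
    obtain ⟨r, -, hrp, hrq⟩ := hG.2.2 p hpG q hqG
    rw [← hrp.2.1 i hip, hrq.2.1 i hiq]
  have hmono : ∀ p : PC J, ∀ i j, i ≤ j → j ≤ p.len → p.A i ⊆ p.A j := by
    intro p i j hij hj
    rcases hij.lt_or_eq with h | h
    · exact (p.strict i j h hj).1
    · rw [h]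
  refine ⟨{z | ∃ p ∈ G, z ∈ p.A p.len}, ?_, ?_⟩
  · intro hZ
    choose! g hgG hgl using hGD
    have hz : ∀ i : Iio (w1.{u}), ∃ z, z ∈ (g (i.1 + 1)).A (i.1 + 1) ∧ z ∉ (g (i.1 + 1)).A i.1 := by
      rintro ⟨i, hi⟩
      have h1 := (g (i + 1)).strict i (i + 1) (lt_add_one i) (hgl _ (PID_w1_succ i hi))
      exact Set.exists_of_ssubset h1
    choose z hz1 hz2 using hz
    have hzinj : ∀ i j : Iio (w1.{u}), i.1 < j.1 → z i ≠ z j := by
      rintro ⟨i, hi⟩ ⟨j, hj⟩ hij h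
      have hi1 := PID_w1_succ i hi
      have hj1 := PID_w1_succ j hj
      have hij' : i + 1 ≤ j := Order.add_one_le_of_lt hij
      have h1 := hz1 ⟨i, hi⟩
      have h3 := hz2 ⟨j, hj⟩
      simp only at h1 h3
      rw [← h, hcoh _ (hgG _ hj1) _ (hgG _ hj1) j ((le_add_right le_rfl).trans (hgl _ hj1))
        ((le_add_right le_rfl).trans (hgl _ hj1))] at h3
      rw [hcoh _ (hgG _ hi1) _ (hgG _ hj1) (i + 1) (hgl _ hi1)
        ((hij'.trans (le_add_right le_rfl)).trans (hgl _ hj1))] at h1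
      exact h3 (hmono _ _ _ hij' ((le_add_right le_rfl).trans (hgl _ hj1)) h1)
    have hinj : Function.Injective z := by
      intro i j h
      rcases lt_trichotomy i.1 j.1 with h1 | h1 | h1
      · exact (hzinj i j h1 h).elim
      · exact Subtype.ext h1
      · exact (hzinj j i h1 h.symm).elim
    have hZ' : (Set.range z).Countable := by
      refine hZ.mono ?_
      rintro _ ⟨i, rfl⟩
      have hi1 := PID_w1_succ i.1 i.2
      exact ⟨g (i.1 + 1), hgG _ hi1, hmono _ _ _ (hgl _ hi1) le_rfl (hz1 i)⟩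
    have hcount : Countable (Iio (w1.{u})) := by
      have h6 : (z '' univ).Countable := by
        rw [Set.image_univ]
        exact hZ'
      exact Set.countable_univ_iff.1 (Set.countable_of_injective_of_countable_image
        hinj.injOn h6)
    have h5 : #(Iio (w1.{u})) ≤ ℵ₀ := Cardinal.mk_le_aleph0_iff.2 hcount
    rw [Cardinal.mk_Iio_ordinal, w1, Cardinal.card_ord, Cardinal.lift_le_aleph0] at h5
    exact absurd h5 (not_le.2 Cardinal.aleph0_lt_aleph_one)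
  · intro A hA hAc
    rcases A.eq_empty_or_nonempty with rfl | hAne
    · exact hemp
    obtain ⟨f, hf⟩ := hAc.exists_eq_range hAne
    have h3 : ∀ n, ∃ p ∈ G, f n ∈ p.A p.len := fun n => hA (by rw [hf]; exact ⟨n, rfl⟩)
    choose p hpG hpf using h3
    obtain ⟨c, hc, hcn⟩ := hClub.supN w1 (fun n => (p n).len) PID_w1_cof fun n => (p n).lenlt
    obtain ⟨q, hqG, hq⟩ := hGD c hc
    refine hsub (q.A q.len) (q.memJ _ le_rfl) A ?_
    rw [hf]
    rintro _ ⟨n, rfl⟩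
    have h4 : (p n).len ≤ q.len := (hcn n).le.trans hq
    have h5 := hpf n
    rw [hcoh _ (hpG n) _ hqG _ le_rfl h4] at h5
    exact hmono q _ _ h4 le_rfl h5

end Pool.Agent.HCO
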