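import Pool.Agent.HCO.St4

set_option autoImplicit false

universe u v w

open Set Topology Cardinal Ordinal Order Filter

namespace Pool.Agent.HCO

/-- the last set of a condition -/
private def PIDgen_top {Y : Type u} {J : Set (Set Y)} (p : PC J) : Set Y := p.A p.len

private theorem PIDgen_top_mem {Y : Type u} {J : Set (Set Y)} (p : PC J) : PIDgen_top p ∈ J :=
  p.memJ _ le_rfl

private theorem PIDgen_sub {Y : Type u} {J : Set (Set Y)} (p : PC J) {i j : Ordinal.{u}}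
    (hij : i ≤ j) (hj : j ≤ p.len) : p.A i ⊆ p.A j := by
  rcases hij.lt_or_eq with h | h
  · exact (p.strict _ _ h hj).1
  · rw [h]

private theorem PIDgen_top_le {Y : Type u} {J : Set (Set Y)} {p q : PC J} (h : q ≤ p) :
    PIDgen_top p ⊆ PIDgen_top q := by
  unfold PIDgen_top
  rw [← h.2.1 p.len le_rfl]
  exact PIDgen_sub q h.1 le_rfl

private theorem PIDgen_count {Y : Type u} {J : Set (Set Y)} (hJ : PIdeal J) (hne : J.Nonempty)
    {𝒜 : Set (Set Y)} (hc : 𝒜.Countable) (hs : 𝒜 ⊆ J) :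
    ∃ B ∈ J, ∀ A ∈ 𝒜, (A \ B).Finite := by
  rcases 𝒜.eq_empty_or_nonempty with h | h
  · obtain ⟨B, hB⟩ := hne
    exact ⟨B, hB, fun A hA => by rw [h] at hA; exact hA.elim⟩
  · obtain ⟨f, hf⟩ := hc.exists_eq_range h
    obtain ⟨B, hB, hB'⟩ := hJ.p f (fun n => hs (hf ▸ mem_range_self n))
    refine ⟨B, hB, fun A hA => ?_⟩
    rw [hf] at hA
    obtain ⟨n, rfl⟩ := hA
    exact hB' n

/-- a cofinal set which is covered by countably many sets has a cofinal piece -/
private theorem PIDgen_union {Y : Type u} {J : Set (Set Y)} (hJ : PIdeal J) (hne : J.Nonempty)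
    {ι : Type w} [Countable ι] {X : Set (Set Y)} (hX : CofJ J X) (Z : ι → Set (Set Y))
    (hZ : ∀ i, Z i ⊆ J) (hXZ : ∀ A ∈ X, ∃ i, A ∈ Z i) : ∃ i, CofJ J (Z i) := by
  by_contra hcon
  push Not at hcon
  have h1 : ∀ i, ∃ B ∈ J, ∀ A ∈ Z i, ¬ (B \ A).Finite := by
    intro i
    by_contra h2
    push Not at h2
    refine hcon i ⟨hZ i, fun B hB => ?_⟩
    obtain ⟨A, hA, hA'⟩ := h2 B hB
    exact ⟨A, hA, hA'⟩
  choose B hBJ hB using h1
  obtain ⟨C, hC, hC'⟩ := PIDgen_count hJ hne (countable_range B)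
    (by rintro _ ⟨i, rfl⟩; exact hBJ i)
  obtain ⟨A, hA, hAf⟩ := hX.2 C hC
  obtain ⟨i, hi⟩ := hXZ A hA
  refine hB i A hi ((hC' (B i) (mem_range_self i)).union hAf |>.subset ?_)
  rintro z ⟨hz1, hz2⟩
  by_cases hz : z ∈ C
  · exact Or.inr ⟨hz, hz2⟩
  · exact Or.inl ⟨hz1, hz⟩

/-- a promise can be restricted to the sets containing `B` minus a finite set -/
private theorem PIDgen_promise {Y : Type u} {J : Set (Set Y)} (hJ : PIdeal J)
    {X : Set (Set Y)} (hX : CofJ J X) {B : Set Y} (hB : B ∈ J) :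
    ∃ t : Set Y, t.Finite ∧ CofJ J {B' | B' ∈ X ∧ B \ t ⊆ B'} := by
  have hct : Countable B := (hJ.ct B hB).to_subtype
  have h1 : CofJ J {B' | B' ∈ X ∧ (B \ B').Finite} := by
    refine ⟨fun A hA => hX.1 hA.1, fun C hC => ?_⟩
    obtain ⟨A, hA, hA'⟩ := hX.2 (C ∪ B) (hJ.union C hC B hB)
    refine ⟨A, ⟨hA, hA'.subset ?_⟩, hA'.subset ?_⟩
    · exact sdiff_subset_sdiff_left subset_union_right
    · exact sdiff_subset_sdiff_left subset_union_left
  obtain ⟨t, ht⟩ := PIDgen_union hJ ⟨B, hB⟩ h1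
    (fun t : Finset B => {B' | B' ∈ X ∧ B \ ((fun y : B => (y : Y)) '' (t : Set B)) ⊆ B'})
    (fun t A hA => hX.1 hA.1) (by
      rintro A ⟨hA, hfin⟩
      have hfin' : ((fun y : B => (y : Y)) ⁻¹' (B \ A)).Finite :=
        hfin.preimage Subtype.val_injective.injOn
      refine ⟨hfin'.toFinset, hA, ?_⟩
      rintro z ⟨hz1, hz2⟩
      by_contra hz3
      apply hz2
      refine ⟨⟨z, hz1⟩, ?_, rfl⟩
      rw [Finite.coe_toFinset]
      exact ⟨hz1, hz3⟩)
  exact ⟨_, (Finset.finite_toSet t).image _, ht⟩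

/-- the set `E(p, a)` -/
private theorem PIDgen_E {Y : Type u} {J : Set (Set Y)} (hJ : PIdeal J) (p : PC J)
    {Da : Set (PC J)} (hD : DenseP Da) :
    ∃ E ∈ J, ∀ s : Set Y, s.Finite → ∃ q ≤ p, q ∈ Da ∧ PIDgen_top q \ PIDgen_top p ⊆ E \ s := by
  by_contra hcon
  push Not at hcon
  have hX0 : CofJ J {E | E ∈ J ∧ ∀ q ≤ p, q ∈ Da → ¬ PIDgen_top q \ PIDgen_top p ⊆ E} := by
    refine ⟨fun A hA => hA.1, fun B hB => ?_⟩
    obtain ⟨s, hs, hs'⟩ := hcon B hB
    refine ⟨B \ s, ⟨hJ.sub B hB _ sdiff_subset, hs'⟩, hs.subset ?_⟩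
    rintro z ⟨hz1, hz2⟩
    by_contra hz3
    exact hz2 ⟨hz1, hz3⟩
  set X0 : Set (Set Y) := {E | E ∈ J ∧ ∀ q ≤ p, q ∈ Da → ¬ PIDgen_top q \ PIDgen_top p ⊆ E}
    with hX0def
  let p' : PC J :=
    { len := p.len
      A := p.A
      𝒳 := insert X0 p.𝒳
      lenlt := p.lenlt
      memJ := p.memJ
      strict := p.strict
      stable := p.stable
      pct := p.pct.insert _
      cof := by
        rintro X (rfl | hX)
        · exact hX0
        · exact p.cof X hX }
  have hp' : p' ≤ p := by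
    refine ⟨le_rfl, fun _ _ => rfl, subset_insert _ _, ?_⟩
    intro X hX
    have : {B | B ∈ X ∧ p'.A p'.len \ p.A p.len ⊆ B} = X := by
      ext B
      constructor
      · exact fun h => h.1
      · exact fun h => ⟨h, by
          show p.A p.len \ p.A p.len ⊆ B
          rw [sdiff_self]
          exact empty_subset _⟩
    rw [this]
    exact Or.inr hX
  obtain ⟨q, hq, hqD⟩ := hD p'
  have hqp : q ≤ p := le_trans hq hp'
  have h1 := hq.2.2.2 X0 (Or.inl rfl)
  have h2 := q.cof _ h1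
  obtain ⟨A, hA, -⟩ := h2.2 _ (PIDgen_top_mem p)
  exact hA.1.2 q hqp hqD hA.2

private theorem PIDgen_w1 (f : ℕ → Ordinal.{u}) (hf : ∀ n, f n < w1) : (⨆ n, f n) < w1 := by
  unfold w1 at hf ⊢
  refine Ordinal.lift_iSup_lt_of_lt_cof ?_ hf
  rw [Ordinal.lift_uzero, Cardinal.isRegular_aleph_one.cof_ord]
  simp

private theorem PIDgen_Iio {d : Ordinal.{u}} (hd : d < w1) : (Iio d).Countable := by
  unfold w1 at hd
  rw [Cardinal.lt_ord] at hd
  rw [← Cardinal.le_aleph0_iff_set_countable, Cardinal.mk_Iio_ordinal, Cardinal.lift_le_aleph0]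
  rw [← Cardinal.succ_aleph0, Order.lt_succ_iff] at hd
  exact hd

/-- elements of a set as a list -/
private theorem PIDgen_list {Y : Type u} {Z : Type v} (g : Y → Z) (hg : Function.Injective g)
    {s : Set Y} (hs : s.Finite) : ∃ l : List Z, (∀ z ∈ l, ∃ y ∈ s, z = g y) ∧
      {y | g y ∈ l} = s := by
  refine ⟨hs.toFinset.toList.map g, ?_, ?_⟩
  · intro z hz
    rw [List.mem_map] at hz
    obtain ⟨y, hy, rfl⟩ := hz
    rw [Finset.mem_toList, Finite.mem_toFinset] at hy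
    exact ⟨y, hy, rfl⟩
  · ext y
    rw [mem_ofPred_eq, List.mem_map]
    constructor
    · rintro ⟨y', hy', h⟩
      rw [Finset.mem_toList, Finite.mem_toFinset] at hy'
      rwa [← hg h]
    · intro hy
      exact ⟨y, by rwa [Finset.mem_toList, Finite.mem_toFinset], rfl⟩

/-- the limit of a fusion sequence -/
private theorem PIDgen_limit {Y : Type u} {J : Set (Set Y)} (hJ : PIdeal J) (p : ℕ → PC J)
    (hp : ∀ n, p (n + 1) ≤ p n) {B : Set Y} (hB : B ∈ J)
    (hpB : ∀ n, PIDgen_top (p n) ⊆ PIDgen_top (p 0) ∪ B)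
    (hpr : ∀ n, ∀ X ∈ (p n).𝒳, CofJ J {B' | B' ∈ X ∧
      (⋃ m, PIDgen_top (p m)) \ PIDgen_top (p n) ⊆ B'}) : ∃ q : PC J, ∀ n, q ≤ p n := by
  have hanti : ∀ m n, m ≤ n → p n ≤ p m := fun m n h => by
    induction n, h using Nat.le_induction with
    | base => exact le_rfl
    | succ n _ ih => exact le_trans (hp n) ih
  set U : Set Y := ⋃ m, PIDgen_top (p m) with hU
  set L : Ordinal.{u} := ⨆ n, (p n).len with hL
  have hbdd : BddAbove (range fun n => (p n).len) := ⟨w1, by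
    rintro _ ⟨n, rfl⟩
    exact (p n).lenlt.le⟩
  have hle : ∀ n, (p n).len ≤ L := fun n => le_ciSup hbdd n
  have hLlt : L < w1 := PIDgen_w1 _ fun n => (p n).lenlt
  have hex : ∀ i, i < L → ∃ n, i < (p n).len := fun i hi => exists_lt_of_lt_ciSup hi
  have hagree : ∀ m n i, i ≤ (p m).len → i ≤ (p n).len → (p m).A i = (p n).A i := by
    intro m n i hm hn
    rcases le_total m n with h | h
    · exact ((hanti m n h).2.1 i hm).symm
    · exact (hanti n m h).2.1 i hn
  have hUJ : U ∈ J := by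
    refine hJ.sub _ (hJ.union _ (PIDgen_top_mem (p 0)) _ hB) _ ?_
    exact iUnion_subset hpB
  classical
  let A : Ordinal.{u} → Set Y := fun i => if h : i < L then (p (hex i h).choose).A i else U
  have hA1 : ∀ n i, i < L → i ≤ (p n).len → A i = (p n).A i := by
    intro n i hi hin
    show (if h : i < L then (p (hex i h).choose).A i else U) = _
    rw [dif_pos hi]
    exact hagree _ _ i (hex i hi).choose_spec.le hin
  have hA2 : ∀ i, L ≤ i → A i = U := by
    intro i hi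
    show (if h : i < L then (p (hex i h).choose).A i else U) = _
    rw [dif_neg (not_lt.2 hi)]
  have hA3 : ∀ n i, i ≤ (p n).len → A i = (p n).A i := by
    intro n i hi
    rcases (hi.trans (hle n)).lt_or_eq with h | h
    · exact hA1 n i h hi
    · rw [hA2 i h.ge]
      have hlen : (p n).len = L := le_antisymm (hle n) (h ▸ hi)
      refine le_antisymm (iUnion_subset fun m => ?_) ?_
      · rcases le_total m n with hmn | hmn
        · refine (PIDgen_top_le (hanti m n hmn)).trans ?_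
          unfold PIDgen_top
          rw [h, hlen]
        · have h1 : (p m).len = L := le_antisymm (hle m) (hlen ▸ (hanti n m hmn).1)
          unfold PIDgen_top
          rw [h1, h]
          exact (hagree m n L h1.ge hlen.ge).le
      · refine subset_trans ?_ (subset_iUnion (fun m => PIDgen_top (p m)) n)
        unfold PIDgen_top
        rw [h, hlen]
  let q : PC J :=
    { len := L
      A := A
      𝒳 := (⋃ n, (p n).𝒳) ∪ ⋃ n, (fun X : Set (Set Y) =>
        {B' | B' ∈ X ∧ U \ PIDgen_top (p n) ⊆ B'}) '' (p n).𝒳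
      lenlt := hLlt
      memJ := by
        intro i hi
        rcases hi.lt_or_eq with h | h
        · obtain ⟨n, hn⟩ := hex i h
          rw [hA3 n i hn.le]
          exact (p n).memJ i hn.le
        · rw [hA2 i h.ge]
          exact hUJ
      strict := by
        intro i j hij hj
        rcases hj.lt_or_eq with h | h
        · obtain ⟨n, hn⟩ := hex j h
          rw [hA3 n i (hij.le.trans hn.le), hA3 n j hn.le]
          exact (p n).strict i j hij hn.le
        · obtain ⟨n, hn⟩ := hex i (h ▸ hij)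
          rw [hA3 n i hn.le, hA2 j h.ge]
          exact ((p n).strict i _ hn le_rfl).trans_subset
            (subset_iUnion (fun m => PIDgen_top (p m)) n)
      stable := by
        intro i hi
        rw [hA2 i hi, hA2 L le_rfl]
      pct := (countable_iUnion fun n => (p n).pct).union
        (countable_iUnion fun n => (p n).pct.image _)
      cof := by
        rintro X (hX | hX)
        · obtain ⟨n, hn⟩ := mem_iUnion.1 hX
          exact (p n).cof X hn
        · obtain ⟨n, X', hX', rfl⟩ := mem_iUnion.1 hX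
          exact hpr n X' hX' }
  refine ⟨q, fun n => ⟨hle n, fun i hi => hA3 n i hi, ?_, ?_⟩⟩
  · exact (subset_iUnion (fun n => (p n).𝒳) n).trans subset_union_left
  · intro X hX
    have e : q.A q.len = U := hA2 L le_rfl
    rw [e]
    exact Or.inr (mem_iUnion.2 ⟨n, X, hX, rfl⟩)

/-- the fusion -/
private theorem PIDgen_fusion {Y : Type u} {J : Set (Set Y)} (hJ : PIdeal J)
    (D : Ordinal.{u} → Set (PC J)) (MP : Set (PC J)) (hMP : MP.Countable) {B : Set Y} (hB : B ∈ J)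
    {d : Ordinal.{u}} (hd : (Iio d).Countable) (hd0 : 0 < d)
    (hstep : ∀ p ∈ MP, ∀ a < d, ∀ t : Set Y, t.Finite → ∃ q ≤ p, q ∈ MP ∧ q ∈ D a ∧
      PIDgen_top q \ PIDgen_top p ⊆ B \ t) (p0 : PC J) (hp0 : p0 ∈ MP) :
    ∃ q ≤ p0, ∀ a < d, ∃ s ∈ MP, s ∈ D a ∧ q ≤ s := by
  obtain ⟨a, ha⟩ := hd.exists_eq_range ⟨0, hd0⟩
  have had : ∀ n, a n < d := fun n => by
    have : a n ∈ Iio d := by rw [ha]; exact mem_range_self n
    exact this
  -- the pairs of conditions and promises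
  set PP : Set (PC J × Set (Set Y)) := ⋃ p ∈ MP, (fun X => (p, X)) '' p.𝒳 with hPP
  have hPPc : (insert (p0, ∅) PP).Countable :=
    (hMP.biUnion fun p _ => p.pct.image _).insert _
  obtain ⟨e, he⟩ := hPPc.exists_eq_range ⟨_, mem_insert _ _⟩
  let Val : Type _ := {x : PC J × Set Y // x.1 ∈ MP ∧ x.2.Finite}
  let R : ℕ → Val → Val → Prop := fun m x y => y.1.1 ≤ x.1.1 ∧ y.1.1 ∈ D (a m) ∧
    x.1.2 ⊆ y.1.2 ∧ PIDgen_top y.1.1 \ PIDgen_top x.1.1 ⊆ B \ y.1.2 ∧
    (x.1.1 ≤ (e m.unpair.1).1 → (e m.unpair.1).2 ∈ (e m.unpair.1).1.𝒳 →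
      CofJ J {B' | B' ∈ {B' | B' ∈ (e m.unpair.1).2 ∧
        PIDgen_top x.1.1 \ PIDgen_top (e m.unpair.1).1 ⊆ B'} ∧ B \ y.1.2 ⊆ B'})
  have hR : ∀ m (x : Val), ∃ y : Val, R m x y := by
    rintro m ⟨⟨p, t⟩, hpM, ht⟩
    simp only at hpM ht
    have h1 : ∃ τ : Set Y, τ.Finite ∧ (p ≤ (e m.unpair.1).1 →
        (e m.unpair.1).2 ∈ (e m.unpair.1).1.𝒳 →
        CofJ J {B' | B' ∈ {B' | B' ∈ (e m.unpair.1).2 ∧
          PIDgen_top p \ PIDgen_top (e m.unpair.1).1 ⊆ B'} ∧ B \ τ ⊆ B'}) := by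
      by_cases h : p ≤ (e m.unpair.1).1 ∧ (e m.unpair.1).2 ∈ (e m.unpair.1).1.𝒳
      · obtain ⟨τ, hτ, hτ'⟩ := PIDgen_promise hJ (p.cof _ (h.1.2.2.2 _ h.2)) hB
        exact ⟨τ, hτ, fun _ _ => hτ'⟩
      · exact ⟨∅, finite_empty, fun h1 h2 => absurd ⟨h1, h2⟩ h⟩
    obtain ⟨τ, hτ, hτ'⟩ := h1
    obtain ⟨q, hq, hqM, hqD, hqB⟩ := hstep p hpM (a m) (had m) (t ∪ τ) (ht.union hτ)
    refine ⟨⟨(q, t ∪ τ), hqM, ht.union hτ⟩, hq, hqD, subset_union_left, hqB, ?_⟩
    intro h2 h3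
    refine ⟨fun A hA => (p.cof _ (h2.2.2.2 _ h3)).1 hA.1, fun C hC => ?_⟩
    obtain ⟨A, hA, hA'⟩ := (hτ' h2 h3).2 C hC
    exact ⟨A, ⟨hA.1, (sdiff_subset_sdiff_right subset_union_right).trans hA.2⟩, hA'⟩
  choose g hg using hR
  let x0 : Val := ⟨(p0, ∅), hp0, finite_empty⟩
  let sq : ℕ → Val := fun n => Nat.rec x0 (fun m x => g m x) n
  have hsq : ∀ n, R n (sq n) (sq (n + 1)) := fun n => hg n (sq n)
  obtain ⟨p, hpdef⟩ : ∃ p : ℕ → PC J, p = fun n => (sq n).1.1 := ⟨_, rfl⟩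
  obtain ⟨t, htdef⟩ : ∃ t : ℕ → Set Y, t = fun n => (sq n).1.2 := ⟨_, rfl⟩
  have hpM : ∀ n, p n ∈ MP := fun n => by rw [hpdef]; exact (sq n).2.1
  have hp00 : p 0 = p0 := by
    rw [hpdef]
    rfl
  have hp : ∀ n, p (n + 1) ≤ p n := fun n => by rw [hpdef]; exact (hsq n).1
  have hpD : ∀ n, p (n + 1) ∈ D (a n) := fun n => by rw [hpdef]; exact (hsq n).2.1
  have ht : ∀ n, t n ⊆ t (n + 1) := fun n => by rw [htdef]; exact (hsq n).2.2.1
  have hpt : ∀ n, PIDgen_top (p (n + 1)) \ PIDgen_top (p n) ⊆ B \ t (n + 1) := fun n => by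
    rw [hpdef, htdef]; exact (hsq n).2.2.2.1
  have hpc : ∀ n, p n ≤ (e n.unpair.1).1 → (e n.unpair.1).2 ∈ (e n.unpair.1).1.𝒳 →
      CofJ J {B' | B' ∈ {B' | B' ∈ (e n.unpair.1).2 ∧
        PIDgen_top (p n) \ PIDgen_top (e n.unpair.1).1 ⊆ B'} ∧ B \ t (n + 1) ⊆ B'} := fun n => by
    rw [hpdef, htdef]; exact (hsq n).2.2.2.2
  have hanti : ∀ m n, m ≤ n → p n ≤ p m := fun m n h => by
    induction n, h using Nat.le_induction with
    | base => exact le_rfl
    | succ n _ ih => exact le_trans (hp n) ih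
  have htmono : Monotone t := monotone_nat_of_le_succ ht
  have hnew : ∀ m j, m ≤ j → PIDgen_top (p j) ⊆ PIDgen_top (p m) ∪ (B \ t (m + 1)) := by
    intro m j hmj
    induction j, hmj using Nat.le_induction with
    | base => exact subset_union_left
    | succ j hmj ih =>
      intro z hz
      by_cases hzj : z ∈ PIDgen_top (p j)
      · exact ih hzj
      · have h1 := hpt j ⟨hz, hzj⟩
        exact Or.inr ⟨h1.1, fun h2 => h1.2 (htmono (by omega) h2)⟩
  obtain ⟨q, hq⟩ := PIDgen_limit hJ p hp hB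
    (fun n => (hnew 0 n (Nat.zero_le n)).trans (union_subset_union_right _ sdiff_subset)) (by
      intro n X hX
      have h1 : (p n, X) ∈ insert (p0, ∅) PP := by
        refine Or.inr ?_
        rw [hPP]
        exact mem_iUnion₂.2 ⟨p n, hpM n, X, hX, rfl⟩
      rw [he] at h1
      obtain ⟨i, hi⟩ := h1
      have h2 := hpc (Nat.pair i n)
      rw [Nat.unpair_pair] at h2
      simp only [hi] at h2
      have hnm : n ≤ Nat.pair i n := Nat.right_le_pair i n
      have h3 := h2 (hanti n _ hnm) hX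
      refine ⟨fun A hA => ((p n).cof X hX).1 hA.1, fun C hC => ?_⟩
      obtain ⟨A, hA, hA'⟩ := h3.2 C hC
      refine ⟨A, ⟨hA.1.1, ?_⟩, hA'⟩
      rintro z ⟨hz1, hz2⟩
      obtain ⟨j, hj⟩ := mem_iUnion.1 hz1
      have h4 : z ∈ PIDgen_top (p (max j (Nat.pair i n))) :=
        PIDgen_top_le (hanti _ _ (le_max_left _ _)) hj
      rcases hnew (Nat.pair i n) _ (le_max_right _ _) h4 with h5 | h5
      · exact hA.1.2 ⟨h5, hz2⟩
      · exact hA.2 h5)
  refine ⟨q, hp00 ▸ hq 0, ?_⟩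
  intro b hb
  have h1 : b ∈ range a := by rw [← ha]; exact hb
  obtain ⟨n, rfl⟩ := h1
  exact ⟨p (n + 1), hpM _, hpD n, hq _⟩

theorem thm_PIDgen : St_PIDgen.{u} := by
  classical
  intro Y J hJ D hD hDo
  choose E hEJ hE using fun (p : PC J) (a : Ordinal.{u}) => PIDgen_E hJ p (hD a)
  choose! Q hQle hQD hQs using hE
  let T : Type _ := Ordinal.{u} ⊕ PC J ⊕ Set Y ⊕ Y
  let g : Y → T := fun y => Sum.inr (Sum.inr (Sum.inr y))
  have hg : Function.Injective g := by
    intro y y' h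
    exact Sum.inr_injective (Sum.inr_injective (Sum.inr_injective h))
  let F1 : List T → Set T := fun l => {z | ∃ (p : PC J) (a : Ordinal.{u}),
    l = [Sum.inr (Sum.inl p), Sum.inl a] ∧ z = Sum.inr (Sum.inr (Sum.inl (E p a)))}
  let F2 : List T → Set T := fun l => {z | ∃ A ∈ J, l = [Sum.inr (Sum.inr (Sum.inl A))] ∧
    ∃ y ∈ A, z = g y}
  let F3 : List T → Set T := fun l => {z | ∃ (p : PC J) (a : Ordinal.{u}) (r : List T),
    l = Sum.inr (Sum.inl p) :: Sum.inl a :: r ∧ z = Sum.inr (Sum.inl (Q p a {y | g y ∈ r}))}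
  refine ⟨fun l => F1 l ∪ F2 l ∪ F3 l, ?_, ?_⟩
  · intro l
    refine ((Set.Subsingleton.countable ?_).union ?_).union (Set.Subsingleton.countable ?_)
    · rintro _ ⟨p, a, h1, rfl⟩ _ ⟨p', a', h2, rfl⟩
      rw [h1] at h2
      simp only [List.cons.injEq, Sum.inr.injEq, Sum.inl.injEq, and_true] at h2
      rw [h2.1, h2.2]
    · by_cases h : ∃ A ∈ J, l = [Sum.inr (Sum.inr (Sum.inl A))]
      · obtain ⟨A, hA, hl⟩ := h
        refine ((hJ.ct A hA).image g).mono ?_
        rintro _ ⟨A', hA', h1, y, hy, rfl⟩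
        rw [hl] at h1
        simp only [List.cons.injEq, Sum.inr.injEq, Sum.inl.injEq, and_true] at h1
        exact ⟨y, h1 ▸ hy, rfl⟩
      · have : F2 l = ∅ := by
          refine eq_empty_of_forall_notMem ?_
          rintro _ ⟨A, hA, h1, -⟩
          exact h ⟨A, hA, h1⟩
        rw [this]
        exact countable_empty
    · rintro _ ⟨p, a, r, h1, rfl⟩ _ ⟨p', a', r', h2, rfl⟩
      rw [h1] at h2
      simp only [List.cons.injEq, Sum.inr.injEq, Sum.inl.injEq] at h2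
      rw [h2.1, h2.2.1, h2.2.2]
  · intro M hMc hM d hd hdl hMa p hp
    have hM1 : ∀ (p : PC J) (a : Ordinal.{u}), (Sum.inr (Sum.inl p) : T) ∈ M →
        (Sum.inl a : T) ∈ M → (Sum.inr (Sum.inr (Sum.inl (E p a))) : T) ∈ M := by
      intro p a h1 h2
      refine hM [Sum.inr (Sum.inl p), Sum.inl a] ?_ (Or.inl (Or.inl ⟨p, a, rfl, rfl⟩))
      intro x hx
      simp only [List.mem_cons, List.not_mem_nil, or_false] at hx
      rcases hx with rfl | rfl
      · exact h1
      · exact h2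
    have hM2 : ∀ A ∈ J, (Sum.inr (Sum.inr (Sum.inl A)) : T) ∈ M → ∀ y ∈ A, g y ∈ M := by
      intro A hA h1 y hy
      refine hM [Sum.inr (Sum.inr (Sum.inl A))] ?_ (Or.inl (Or.inr ⟨A, hA, rfl, y, hy, rfl⟩))
      intro x hx
      simp only [List.mem_cons, List.not_mem_nil, or_false] at hx
      rw [hx]
      exact h1
    have hM3 : ∀ (p : PC J) (a : Ordinal.{u}) (s : Set Y), s.Finite →
        (Sum.inr (Sum.inl p) : T) ∈ M → (Sum.inl a : T) ∈ M → (∀ y ∈ s, g y ∈ M) →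
        (Sum.inr (Sum.inl (Q p a s)) : T) ∈ M := by
      intro p a s hs h1 h2 h3
      obtain ⟨r, hr1, hr2⟩ := PIDgen_list g hg hs
      refine hM (Sum.inr (Sum.inl p) :: Sum.inl a :: r) ?_ (Or.inr ⟨p, a, r, rfl, ?_⟩)
      · intro x hx
        rw [List.mem_cons, List.mem_cons] at hx
        rcases hx with rfl | rfl | hx
        · exact h1
        · exact h2
        · obtain ⟨y, hy, rfl⟩ := hr1 x hx
          exact h3 y hy
      · rw [hr2]
    set MP : Set (PC J) := {s | (Sum.inr (Sum.inl s) : T) ∈ M} with hMP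
    have hMPc : MP.Countable := hMc.preimage (Sum.inr_injective.comp Sum.inl_injective)
    set MJ : Set (Set Y) := {A | A ∈ J ∧ (Sum.inr (Sum.inr (Sum.inl A)) : T) ∈ M} with hMJ
    have hMJc : MJ.Countable := (hMc.preimage
      (Sum.inr_injective.comp (Sum.inr_injective.comp Sum.inl_injective))).mono fun A hA => hA.2
    obtain ⟨B, hB, hBf⟩ := PIDgen_count hJ ⟨_, PIDgen_top_mem p⟩ hMJc fun A hA => hA.1
    have hd0 : 0 < d := hdl.bot_lt
    obtain ⟨q, hq, hq'⟩ := PIDgen_fusion hJ D MP hMPc hB (PIDgen_Iio hd) hd0 (by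
      intro p hpM a ha t ht
      have haM : (Sum.inl a : T) ∈ M := (hMa a (ha.trans hd)).2 ha
      have hEf : (E p a \ B).Finite := hBf _ ⟨hEJ p a, hM1 p a hpM haM⟩
      have hsf : (E p a \ (B \ t)).Finite := by
        refine (hEf.union ht).subset ?_
        rintro z ⟨hz1, hz2⟩
        by_cases hz : z ∈ B
        · right
          by_contra h
          exact hz2 ⟨hz, h⟩
        · exact Or.inl ⟨hz1, hz⟩
      refine ⟨Q p a (E p a \ (B \ t)), hQle p a _ hsf, ?_, hQD p a _ hsf, ?_⟩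
      · refine hM3 p a _ hsf hpM haM ?_
        intro y hy
        exact hM2 _ (hEJ p a) (hM1 p a hpM haM) y hy.1
      · refine (hQs p a _ hsf).trans ?_
        rintro z ⟨hz1, hz2⟩
        by_contra h
        exact hz2 ⟨hz1, h⟩) p hp
    exact ⟨q, hq, fun a ha => hq' a ha⟩

end Pool.Agent.HCO
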