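import Pool.Agent.HCO.St4

/-!
# HCO [PIDone]: one-point extensions
-/

set_option autoImplicit false

open Set Topology Cardinal Ordinal Order Filter

universe u v w

namespace Pool.Agent.HCO

private theorem pidone_w1 : IsSuccLimit w1.{u} := Cardinal.isSuccLimit_ord (Cardinal.aleph0_le_aleph 1)

private theorem pidone_ext {Y : Type u} {J : Set (Set Y)} (hJ : PIdeal J) (p : PC J) (z : Y)
    (hz : z ∉ p.A p.len) (hc : ∀ X ∈ p.𝒳, CofJ J {B | B ∈ X ∧ z ∈ B}) :
    ∃ q ≤ p, p.len < q.len := by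
  classical
  have hEz : (p.A p.len ∪ {z}) \ p.A p.len = {z} := by
    ext y
    simp only [Set.mem_sdiff, Set.mem_union, mem_singleton_iff]
    constructor
    · rintro ⟨h | h, h'⟩
      · exact absurd h h'
      · exact h
    · rintro rfl
      exact ⟨Or.inr rfl, hz⟩
  have hlt : p.len < p.len + 1 := by
    rw [← Order.succ_eq_add_one]
    exact Order.lt_succ p.len
  have hle : ∀ i : Ordinal.{u}, p.len < i → p.len + 1 ≤ i := by
    intro i hi
    rw [← Order.succ_eq_add_one]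
    exact Order.succ_le_of_lt hi
  let A' : Ordinal.{u} → Set Y := fun i => if i ≤ p.len then p.A i else p.A p.len ∪ {z}
  have hA1 : ∀ i ≤ p.len, A' i = p.A i := fun i hi => if_pos hi
  have hA2 : ∀ i, p.len < i → A' i = p.A p.len ∪ {z} := fun i hi => if_neg (not_le.2 hi)
  refine ⟨{ len := p.len + 1
            A := A'
            𝒳 := p.𝒳 ∪ (fun X : Set (Set Y) => {B | B ∈ X ∧ z ∈ B}) '' p.𝒳
            lenlt := ?_
            memJ := ?_
            strict := ?_
            stable := ?_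
            pct := ?_
            cof := ?_ }, ⟨?_, ?_, ?_, ?_⟩, ?_⟩
  · rw [← Order.succ_eq_add_one]
    exact pidone_w1.succ_lt p.lenlt
  · intro i _
    rcases le_or_gt i p.len with h | h
    · rw [hA1 i h]; exact p.memJ i h
    · rw [hA2 i h]; exact hJ.union _ (p.memJ _ le_rfl) _ (hJ.sing z)
  · intro i j hij hj
    rcases le_or_gt j p.len with h | h
    · rw [hA1 j h, hA1 i (hij.le.trans h)]
      exact p.strict i j hij h
    · rw [hA2 j h]
      have hi : i ≤ p.len := by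
        by_contra hi
        exact absurd (hle i (not_le.1 hi)) (not_le.2 (hij.trans_le hj))
      rw [hA1 i hi]
      have h1 : p.A i ⊆ p.A p.len := by
        rcases hi.lt_or_eq with h2 | h2
        · exact (p.strict i p.len h2 le_rfl).1
        · rw [h2]
      refine ⟨fun y hy => Or.inl (h1 hy), fun h2 => hz (h1 (h2 (Or.inr rfl)))⟩
  · intro i hi
    rw [hA2 i (hlt.trans_le hi), hA2 (p.len + 1) hlt]
  · exact p.pct.union (p.pct.image _)
  · rintro X (hX | ⟨X', hX', rfl⟩)
    · exact p.cof X hX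
    · exact hc X' hX'
  · exact hlt.le
  · intro i hi
    exact hA1 i hi
  · exact fun X hX => Or.inl hX
  · intro X hX
    refine Or.inr ⟨X, hX, ?_⟩
    show {B | B ∈ X ∧ z ∈ B} = {B | B ∈ X ∧ A' (p.len + 1) \ p.A p.len ⊆ B}
    rw [hA2 _ hlt, hEz]
    ext B
    simp only [mem_ofPred_eq, singleton_subset_iff]
  · exact hlt

theorem thm_PIDone : St_PIDone.{u} := by
  intro Y J hJ hno p
  by_contra hcon
  have hcon' : ∀ z, z ∉ p.A p.len → ∃ X ∈ p.𝒳, ¬ CofJ J {B | B ∈ X ∧ z ∈ B} := by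
    intro z hz
    by_contra h
    apply hcon
    apply pidone_ext hJ p z hz
    intro X hX
    by_contra h'
    exact h ⟨X, hX, h'⟩
  apply hno
  -- the countable family
  set F : Set (Set Y) := {∅} ∪ ((fun e : Y => ({e} : Set Y)) '' p.A p.len ∪
    (fun X : Set (Set Y) => {z : Y | ¬ CofJ J {B | B ∈ X ∧ z ∈ B}}) '' p.𝒳) with hF
  have hFc : F.Countable :=
    (countable_singleton _).union (((hJ.ct _ (p.memJ _ le_rfl)).image _).union (p.pct.image _))
  obtain ⟨S, hS⟩ := hFc.exists_eq_range ⟨∅, Or.inl rfl⟩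
  refine ⟨S, ?_, ?_⟩
  · intro y
    by_cases hy : y ∈ p.A p.len
    · have : ({y} : Set Y) ∈ F := Or.inr (Or.inl ⟨y, hy, rfl⟩)
      rw [hS] at this
      obtain ⟨n, hn⟩ := this
      exact ⟨n, by rw [hn]; exact rfl⟩
    · obtain ⟨X, hX, hXy⟩ := hcon' y hy
      have : {z : Y | ¬ CofJ J {B | B ∈ X ∧ z ∈ B}} ∈ F := Or.inr (Or.inr ⟨X, hX, rfl⟩)
      rw [hS] at this
      obtain ⟨n, hn⟩ := this
      exact ⟨n, by rw [hn]; exact hXy⟩
  · intro n A hA hAS
    have hn : S n ∈ F := by rw [hS]; exact ⟨n, rfl⟩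
    rcases hn with hn | ⟨e, _, hn⟩ | ⟨X, hX, hn⟩
    · rw [mem_singleton_iff] at hn
      rw [hn] at hAS
      exact Set.finite_empty.subset hAS
    · rw [← hn] at hAS
      exact (Set.finite_singleton e).subset hAS
    · rw [← hn] at hAS
      by_contra hinf
      have hinf : A.Infinite := hinf
      obtain ⟨f, hf⟩ := (hJ.ct A hA).exists_eq_range hinf.nonempty
      have hfA : ∀ n, f n ∈ A := fun n => by rw [hf]; exact ⟨n, rfl⟩
      have hXJ : X ⊆ J := (p.cof X hX).1
      have key : ∀ n, ∃ B ∈ J, ∀ B' ∈ X, f n ∈ B' → ¬ (B \ B').Finite := by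
        intro n
        have h1 : ¬ CofJ J {B | B ∈ X ∧ f n ∈ B} := hAS (hfA n)
        by_contra h2
        apply h1
        refine ⟨fun B hB => hXJ hB.1, ?_⟩
        intro B hB
        by_contra h3
        apply h2
        exact ⟨B, hB, fun B' hB' hfB' hfin => h3 ⟨B', ⟨hB', hfB'⟩, hfin⟩⟩
      choose Bz hBz1 hBz2 using key
      obtain ⟨B1, hB1, hB1f⟩ := hJ.p Bz hBz1
      obtain ⟨B', hB'X, hB'f⟩ := (p.cof X hX).2 (B1 ∪ A) (hJ.union _ hB1 _ hA)
      have hAB : (A \ B').Finite := hB'f.subset fun y hy => ⟨Or.inr hy.1, hy.2⟩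
      have : (A ∩ B').Nonempty := by
        by_contra he
        apply hinf
        refine hAB.subset fun y hy => ⟨hy, fun hy' => he ⟨y, hy, hy'⟩⟩
      obtain ⟨z, hzA, hzB⟩ := this
      rw [hf] at hzA
      obtain ⟨m, rfl⟩ := hzA
      apply hBz2 m B' hB'X hzB
      refine ((hB1f m).union hB'f).subset ?_
      rintro y ⟨hy1, hy2⟩
      by_cases hy3 : y ∈ B1
      · exact Or.inr ⟨Or.inl hy3, hy2⟩
      · exact Or.inl ⟨hy1, hy3⟩

end Pool.Agent.HCO
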