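import Pool.Agent.HCO.St4

set_option autoImplicit false

open Set Topology Cardinal Ordinal Order Filter

universe u v w

namespace Pool.Agent.HCO

theorem thm_PIDsmall : St_PIDsmall.{u} := by
  intro Y J
  let F : PC J → (Iio (w1 : Ordinal.{u})) × ((Iio (w1 : Ordinal.{u})) → Set Y) ×
      Set (Set (Set Y)) := fun p => (⟨p.len, p.lenlt⟩, fun i => p.A i.1, p.𝒳)
  have hF : Function.Injective F := by
    intro p q h
    have h1 : p.len = q.len := congrArg (fun t => (t.1 : Ordinal.{u})) h
    have h2 : ∀ i : Iio (w1 : Ordinal.{u}), p.A i.1 = q.A i.1 := fun i =>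
      congrFun (congrArg (fun t => t.2.1) h) i
    have h3 : p.𝒳 = q.𝒳 := congrArg (fun t => t.2.2) h
    have h4 : p.A = q.A := by
      funext i
      rcases lt_or_ge i w1 with hi | hi
      · exact h2 ⟨i, hi⟩
      · rw [p.stable i (p.lenlt.le.trans hi), q.stable i (q.lenlt.le.trans hi), ← h1]
        exact h2 ⟨p.len, p.lenlt⟩
    cases p
    cases q
    simp only at h1 h3 h4
    subst h1 h3 h4
    rfl
  exact small_of_injective hF

end Pool.Agent.HCO
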