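import Pool.Agent.HCO.St4

/-!
# HCO / PL: coherence of the partitions below an `l` of uncountable cofinality
-/

set_option autoImplicit false

open Set Topology Cardinal Ordinal Order Filter

universe u v w

namespace Pool.Agent.HCO

/-- the class of `p` is closed -/
theorem PL_closed {X : Type u} [TopologicalSpace X] {K : Ordinal.{u} → Set X} {l : Ordinal.{u}}
    {c : X → X} (h : Retr K l c) (p : X) (hp : p ∈ Bd K l) :
    IsClosed {z | z ∈ closure (Uu K l) ∧ c z = p} := by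
  obtain ⟨N, hN, hNc⟩ := h.2.2 p hp
  have : {z | z ∈ closure (Uu K l) ∧ c z = p} = closure (Uu K l) ∩ N := by
    ext z
    constructor
    · rintro ⟨h1, h2⟩
      exact ⟨h1, (hNc z h1).2 h2⟩
    · rintro ⟨h1, h2⟩
      exact ⟨h1, (hNc z h1).1 h2⟩
  rw [this]
  exact isClosed_closure.inter hN.isClosed

/-- `p` is not isolated in its class -/
theorem PL_acc {X : Type u} [TopologicalSpace X] {K : Ordinal.{u} → Set X} {l : Ordinal.{u}}
    {c : X → X} (h : Retr K l c) (p : X) (hp : p ∈ Bd K l) :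
    AccPt p (𝓟 {z | z ∈ closure (Uu K l) ∧ c z = p}) := by
  obtain ⟨N, hN, hNc⟩ := h.2.2 p hp
  have hpN : p ∈ N := (hNc p hp.1).2 (h.1 p hp)
  rw [accPt_iff_nhds]
  intro W hW
  obtain ⟨y, hy1, hy2⟩ := mem_closure_iff_nhds.1 hp.1 (W ∩ N)
    (Filter.inter_mem hW (hN.isOpen.mem_nhds hpN))
  have hyc : y ∈ closure (Uu K l) := subset_closure hy2
  exact ⟨y, ⟨hy1.1, hyc, (hNc y hyc).1 hy1.2⟩, fun he => hp.2 (he ▸ hy2)⟩

theorem thm_PL (hCMP : St_CMP.{u}) (hBL : St_BL.{u}) (hFi : St_Filt.{u}) (hCl : St_Club.{u})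
    (hD : St_Der.{u}) : St_PL.{u} := by
  intro X _ _ _ _ x r μ K hm hf c hc l hl hlc
  have hfl : (Bd K l).Finite := hBL X x r μ K hm hf.toFilt l hl hlc
  have hll : IsSuccLimit l := Ordinal.one_lt_cof_iff.1 (Cardinal.one_lt_aleph0.trans hlc)
  have hR : Retr K l (c l) := hc l hl hll hfl
  have hxK : x ∉ K l := hf.notin l hl
  have hclK : closure (Uu K l) ⊆ K l := hf.cl l hl
  -- the clubs
  have hclub : ∀ p ∈ Bd K l, ∃ C, Club l C ∧ ∀ a ∈ C, IsSuccLimit a ∧
      ∃ e, closure ({z | z ∈ closure (Uu K l) ∧ c l z = p} ∩ Uu K a) \ Uu K a = {e} := by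
    intro p hp
    have hG := PL_closed hR p hp
    refine hCMP X p l K {z | z ∈ closure (Uu K l) ∧ c l z = p} hG ?_ ⟨hp.1, hR.1 p hp⟩
      (PL_acc hR p hp) hlc ?_ ?_
    · apply hm.small _ hG
      intro h
      have := hD.sub X _ 0 r zero_le h
      rw [hD.zero] at this
      exact hxK (hclK this.1)
    · exact { clopen := fun a ha => hf.clopen a (ha.trans hl)
              notin := fun a ha h => hp.2 ⟨a, ha, h⟩
              mono := fun a b hab hb => hf.mono a b hab (hb.trans hl)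
              cl := fun a ha => hf.cl a (ha.trans hl) }
    · rintro z ⟨hz1, hz2⟩ hzp
      by_contra hcon
      have hzB : z ∈ Bd K l := ⟨hz1, fun h => hcon h⟩
      exact hzp (by rw [← hz2, hR.1 z hzB])
  obtain ⟨f, hfr⟩ : ∃ f : ℕ → X, Bd K l = range f :=
    hfl.countable.exists_eq_range (hFi.ne X x r μ K hf l hl hll)
  have hfB : ∀ n, f n ∈ Bd K l := fun n => by rw [hfr]; exact mem_range_self n
  choose C hC1 hC2 using fun n => hclub (f n) (hfB n)
  refine ⟨_, hCl.intersN l C hlc hC1, ?_⟩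
  rintro a ⟨hal, haC⟩
  have haμ : a < μ.ord := hal.trans hl
  have hla : IsSuccLimit a := (hC2 0 a (haC 0)).1
  have hq : ∀ p, ∃ q, p ∈ Bd K l →
      closure ({z | z ∈ closure (Uu K l) ∧ c l z = p} ∩ Uu K a) \ Uu K a = {q} := by
    intro p
    by_cases hp : p ∈ Bd K l
    · obtain ⟨n, rfl⟩ : ∃ n, f n = p := by rw [hfr] at hp; exact hp
      obtain ⟨-, e, he⟩ := hC2 n a (haC n)
      exact ⟨e, fun _ => he⟩
    · exact ⟨p, fun h => absurd h hp⟩
  choose q hq using hq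
  have hUal : Uu K a ⊆ Uu K l := fun z ⟨b, hb, hz⟩ => ⟨b, hb.trans hal, hz⟩
  have hqG : ∀ p ∈ Bd K l, q p ∈ closure (Uu K l) ∧ c l (q p) = p := by
    intro p hp
    have h1 : q p ∈ closure ({z | z ∈ closure (Uu K l) ∧ c l z = p} ∩ Uu K a) \ Uu K a := by
      rw [hq p hp]; rfl
    exact (PL_closed hR p hp).closure_subset ((closure_mono inter_subset_left) h1.1)
  have hqB : ∀ p ∈ Bd K l, q p ∈ Bd K a := by
    intro p hp
    have h1 : q p ∈ closure ({z | z ∈ closure (Uu K l) ∧ c l z = p} ∩ Uu K a) \ Uu K a := by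
      rw [hq p hp]; rfl
    exact ⟨closure_mono inter_subset_right h1.1, h1.2⟩
  have hBa : Bd K a = q '' Bd K l := by
    apply Subset.antisymm
    · rintro z ⟨hz1, hz2⟩
      have h1 : Uu K a ⊆ ⋃ p ∈ Bd K l, ({z | z ∈ closure (Uu K l) ∧ c l z = p} ∩ Uu K a) := by
        intro w hw
        have hwl : w ∈ closure (Uu K l) := subset_closure (hUal hw)
        rw [mem_iUnion₂]
        exact ⟨c l w, hR.2.1 w hwl, ⟨hwl, rfl⟩, hw⟩
      have h2 := closure_mono h1 hz1
      rw [hfl.closure_biUnion, mem_iUnion₂] at h2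
      obtain ⟨p, hp, h3⟩ := h2
      have h4 : z ∈ closure ({z | z ∈ closure (Uu K l) ∧ c l z = p} ∩ Uu K a) \ Uu K a :=
        ⟨h3, hz2⟩
      rw [hq p hp] at h4
      exact ⟨p, hp, h4.symm⟩
    · rintro _ ⟨p, hp, rfl⟩
      exact hqB p hp
  have hqi : InjOn q (Bd K l) := by
    intro p hp p' hp' h
    rw [← (hqG p hp).2, h, (hqG p' hp').2]
  have hfa : (Bd K a).Finite := by rw [hBa]; exact hfl.image q
  refine ⟨hla, hfa, by rw [hBa, hqi.ncard_image], ?_⟩
  have hRa : Retr K a (c a) := hc a haμ hla hfa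
  -- the closed set of exceptional points
  set Z : Set X := ⋃ p ∈ Bd K l, ⋃ p' ∈ Bd K a \ {q p},
    ({z | z ∈ closure (Uu K l) ∧ c l z = p} ∩ {z | z ∈ closure (Uu K a) ∧ c a z = p'}) with hZ
  have hZc : IsClosed Z := by
    apply hfl.isClosed_biUnion
    intro p hp
    apply (hfa.subset sdiff_subset).isClosed_biUnion
    intro p' hp'
    exact (PL_closed hR p hp).inter (PL_closed hRa p' hp'.1)
  have hZU : Z ⊆ Uu K a := by
    intro z hz
    rw [hZ, mem_iUnion₂] at hz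
    obtain ⟨p, hp, hz⟩ := hz
    rw [mem_iUnion₂] at hz
    obtain ⟨p', ⟨hp', hpq⟩, ⟨-, hz2⟩, hz3, hz4⟩ := hz
    by_contra hcon
    have hzB : z ∈ Bd K a := ⟨hz3, hcon⟩
    have h1 : z = p' := by rw [← hz4, hRa.1 z hzB]
    rw [hBa] at hzB
    obtain ⟨p'', hp'', h2⟩ := hzB
    apply hpq
    have h3 : p'' = p := by rw [← hz2, ← h2, (hqG p'' hp'').2]
    rw [mem_singleton_iff, ← h1, ← h2, h3]
  obtain ⟨b, hb, hZb⟩ := hFi.bd X x μ.ord K hf.toPreFilt a haμ.le hla Z hZc hZU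
  refine ⟨b, hb, ?_⟩
  have key : ∀ z ∈ Uu K a, z ∉ K b → c a z = q (c l z) := by
    intro z hz hzb
    by_contra hcon
    apply hzb
    apply hZb
    have hzl : z ∈ closure (Uu K l) := subset_closure (hUal hz)
    have hza : z ∈ closure (Uu K a) := subset_closure hz
    rw [hZ, mem_iUnion₂]
    refine ⟨c l z, hR.2.1 z hzl, ?_⟩
    rw [mem_iUnion₂]
    exact ⟨c a z, ⟨hRa.2.1 z hza, hcon⟩, ⟨hzl, rfl⟩, hza, rfl⟩
  intro z hz w hw hzb hwb
  rw [key z hz hzb, key w hw hwb]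
  constructor
  · intro h
    exact hqi (hR.2.1 z (subset_closure (hUal hz))) (hR.2.1 w (subset_closure (hUal hw))) h
  · intro h
    rw [h]

end Pool.Agent.HCO
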