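import Pool.Agent.HCO.St4

/-!
# HCO / R1: closed sets all of whose points other than `x` are of countable character
-/

set_option autoImplicit false

open Set Topology Cardinal Ordinal Order Filter

universe u v w

namespace Pool.Agent.HCO

private theorem R1_lim : IsSuccLimit w1.{u} := by
  unfold w1
  exact Cardinal.isSuccLimit_ord (Cardinal.aleph0_le_aleph 1)

private theorem R1_cof : ℵ₀ < w1.{u}.cof := by
  unfold w1
  rw [Cardinal.isRegular_aleph_one.cof_ord]
  exact Cardinal.aleph0_lt_aleph_one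

theorem thm_R1 (hD : St_Der.{u}) (hC : St_Club.{u}) : St_R1.{u} := by
  classical
  intro X _ _ _ _ x F hS hF hcnt hx
  have hx1 := (hD.succ X F w1 x).1 hx
  have hDc : IsClosed (der F w1) := hD.closed X F w1 hF
  -- a point of the derivative different from `x`
  obtain ⟨z, ⟨_, hz⟩, hzx⟩ := (accPt_iff_nhds.1 hx1.2) univ univ_mem
  obtain ⟨N, hN, hzN, hNx⟩ := compact_exists_isClopen_in_isOpen
    (isOpen_compl_singleton (x := x)) (mem_compl_singleton_iff.2 hzx)
  have hxN : x ∉ N := fun h => hNx h rfl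
  obtain ⟨p, hp, hpacc⟩ := hS (der F w1 ∩ N) (hDc.inter hN.isClosed) ⟨z, hz, hzN⟩
  have hpF : p ∈ F := hD.sub X F 0 w1 zero_le hp.1 |> fun h => by
    rwa [hD.zero] at h
  have hpx : p ≠ x := by
    rintro rfl
    exact hxN hp.2
  obtain ⟨O', hO'1, hO'2⟩ := hcnt p hpF hpx
  rw [accPt_iff_nhds] at hpacc
  push Not at hpacc
  obtain ⟨V₀, hV₀, hV₀p⟩ := hpacc
  obtain ⟨V₁, hV₁V, hV₁o, hpV₁⟩ := mem_nhds_iff.1 hV₀
  obtain ⟨V, hV, hpV, hVV₁⟩ := compact_exists_isClopen_in_isOpen hV₁o hpV₁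
  -- the decreasing neighbourhoods
  set O : ℕ → Set X := fun n => N ∩ V ∩ ⋂ k ∈ Finset.range n, O' k with hO
  have hOc : ∀ n, IsClopen (O n) := by
    intro n
    refine (hN.inter hV).inter ?_
    exact isClopen_biInter_finset fun k _ => (hO'1 k).1
  have hpO : ∀ n, p ∈ O n := by
    intro n
    refine ⟨⟨hp.2, hpV⟩, ?_⟩
    rw [mem_iInter₂]
    exact fun k _ => (hO'1 k).2
  have hO0 : ∀ y ∈ der F w1, y ∈ O 0 → y = p := by
    intro y hy hyO
    exact hV₀p y ⟨hV₁V (hVV₁ hyO.1.2), hy, hyO.1.1⟩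
  have hOall : ∀ y ∈ F, (∀ n, y ∈ O n) → y = p := by
    intro y hy h
    refine hO'2 y hy fun n => ?_
    have := (h (n + 1)).2
    rw [mem_iInter₂] at this
    exact this n (Finset.mem_range.2 (Nat.lt_succ_self n))
  have hOmono : ∀ n, O n ⊆ O 0 := by
    intro n y hy
    refine ⟨hy.1, ?_⟩
    rw [mem_iInter₂]
    intro k hk
    exact absurd hk (by simp)
  -- ranks of the differences
  have hex : ∀ n, ∃ t < w1, der (F ∩ (O n \ O (n + 1))) t = ∅ := by
    intro n
    refine hD.compact X _ w1 (hF.inter ((hOc n).diff (hOc (n + 1))).isClosed) R1_lim ?_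
    rw [hD.inter X F _ w1 ((hOc n).diff (hOc (n + 1))).isOpen]
    rw [Set.eq_empty_iff_forall_notMem]
    rintro y ⟨hy, hyO⟩
    have := hO0 y hy (hOmono n hyO.1)
    subst this
    exact hyO.2 (hpO (n + 1))
  choose t ht1 ht2 using hex
  obtain ⟨c, hc, hct⟩ := hC.supN w1 t R1_cof ht1
  have hkey : ∀ y ∈ der F c, y ∈ O 0 → y = p := by
    intro y hy hy0
    have hyF : y ∈ F := by
      have := hD.sub X F 0 c zero_le hy
      rwa [hD.zero] at this
    by_contra hne
    have hex : ∃ n, y ∉ O n := by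
      by_contra hcon
      push Not at hcon
      exact hne (hOall y hyF hcon)
    have hfind := Nat.find_spec hex
    have hmin := fun m => Nat.find_min hex (m := m)
    rcases hn : Nat.find hex with _ | n
    · rw [hn] at hfind
      exact hfind hy0
    · rw [hn] at hfind
      have hyn : y ∈ O n := by
        have := hmin n (by omega)
        exact not_not.1 this
      have h1 : y ∈ der (F ∩ (O n \ O (n + 1))) c := by
        rw [hD.inter X F _ c ((hOc n).diff (hOc (n + 1))).isOpen]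
        exact ⟨hy, hyn, hfind⟩
      have h2 := hD.sub X _ _ _ (hct n).le h1
      rw [ht2 n] at h2
      exact h2
  have hpc : p ∈ der F (c + 1) := hD.sub X F (c + 1) w1 (Order.add_one_le_of_lt hc) hp.1
  have hpacc2 := ((hD.succ X F c p).1 hpc).2
  obtain ⟨y, ⟨hyO, hy⟩, hyp⟩ := (accPt_iff_nhds.1 hpacc2) (O 0) ((hOc 0).isOpen.mem_nhds (hpO 0))
  exact hyp (hkey y hy hyO)

end Pool.Agent.HCO
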