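import Pool.Agent.HCO.St4

set_option autoImplicit false

open Set Topology Cardinal Ordinal Order Filter

universe u v w

namespace Pool.Agent.HCO

theorem thm_RP (h : St_SP.{u}) : St_RP.{u} := by
  intro hMM μ S hμ hμ1 hS hlim
  obtain ⟨c, h1, h2, h3, -⟩ := h hMM μ S (fun _ _ _ => False) hμ hμ1 hS hlim
    (fun _ _ _ h => h.elim) (fun _ _ _ _ _ _ _ h _ => h.elim)
    (fun _ _ _ _ _ _ _ _ h _ => h.elim) (fun _ _ _ _ _ _ h _ _ => h.elim)
    (fun z hz A hAS hA hall => by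
      obtain ⟨a, ha, hza⟩ := hA z hz
      obtain ⟨b, hb, hab⟩ := hA a (hlim a (hAS ha)).1
      exact hall a ha b hb hza hab)
    (fun g _ b _ _ z hz => ⟨z, le_rfl, hz, fun _ _ _ _ h => h.elim⟩)
  exact ⟨c, h1, h2, h3⟩

end Pool.Agent.HCO
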