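import Pool.Agent.HCO.St4

/-!
# HCO [RP2]: a consequence of reflection
-/

set_option autoImplicit false

open Set Topology Cardinal Ordinal Order Filter

universe u v w

namespace Pool.Agent.HCO

private theorem RP2_cofw1 : (w1 : Ordinal.{u}).cof = Cardinal.aleph 1 :=
  Cardinal.isRegular_aleph_one.cof_ord

theorem thm_RP2 (hC : St_Club.{u}) (hRP : St_RP.{u}) : St_RP2.{u} := by
  intro hMM μ P C hreg hμ hCl hE
  have hμ0 : ℵ₀ < μ := Cardinal.aleph0_lt_aleph_one.trans hμ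
  have hcof : μ.ord.cof = μ := hreg.cof_ord
  have hcof0 : ℵ₀ < μ.ord.cof := by rw [hcof]; exact hμ0
  have hlim : IsSuccLimit μ.ord := Cardinal.isSuccLimit_ord hμ0.le
  by_contra hno
  have hno' : ∀ C', Club μ.ord C' → ∃ a ∈ C', a.cof = ℵ₀ ∧ ¬ P a := by
    intro C' hC'
    by_contra h1
    apply hno
    refine ⟨C', hC', fun a ha hcf => ?_⟩
    by_contra h2
    exact h1 ⟨a, ha, hcf, h2⟩
  have hstat : Stat μ.ord {a | a ∈ C ∧ a < μ.ord ∧ IsSuccLimit a ∧ a.cof = ℵ₀ ∧ ¬ P a} := by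
    intro D hD
    have h1 := hC.inter μ.ord C D hcof0 hCl hD
    have h2 := hC.lim μ.ord C hcof0 hCl
    have h3 := hC.inter μ.ord _ _ hcof0 h1 h2
    obtain ⟨a, ha, hcf, hP⟩ := hno' _ h3
    exact ⟨a, ⟨ha.1.1, ha.2.1, ha.2.2.1, hcf, hP⟩, ha.1.2⟩
  obtain ⟨c, hcS, hcm, hcc⟩ := hRP hMM μ _ hreg hμ hstat (fun a ha => ⟨ha.2.1, ha.2.2.1, ha.2.2.2.1⟩)
  have hw1 : IsSuccLimit (w1 : Ordinal.{u}) :=
    Cardinal.isSuccLimit_ord (Cardinal.aleph0_le_aleph 1)
  let f : Iio (w1 : Ordinal.{u}) → Ordinal.{u} := fun i => c i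
  have hf : StrictMono f := fun i j hij => hcm i j hij j.2
  let l : Ordinal.{u} := ⨆ i, f i
  have hle : ∀ i < w1, c i ≤ l := fun i hi => Ordinal.le_iSup f ⟨i, hi⟩
  have hsucc : ∀ i < w1, i + 1 < w1 := fun i hi => by
    have := hw1.succ_lt hi
    rwa [Order.succ_eq_add_one] at this
  have hlt : ∀ i < w1, c i < l := fun i hi =>
    (hcm i (i + 1) (lt_add_one i) (hsucc i hi)).trans_le (hle _ (hsucc i hi))
  have hex : ∀ b < l, ∃ i < w1, b < c i := by
    intro b hb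
    obtain ⟨i, hi⟩ := (Ordinal.lt_iSup_iff).1 hb
    exact ⟨i, i.2, hi⟩
  have hlcof : l.cof = Cardinal.aleph 1 := by
    rw [← RP2_cofw1]
    exact Ordinal.cof_iSup_Iio hf hw1.isSuccPrelimit
  have hllim : IsSuccLimit l := by
    rw [← Ordinal.one_lt_cof_iff, hlcof]
    exact Cardinal.one_lt_aleph0.trans Cardinal.aleph0_lt_aleph_one
  have hlμ : l < μ.ord := by
    obtain ⟨b, hb, hb'⟩ := hC.sup μ.ord w1 c (by
      rw [hcof]
      unfold w1
      rw [Cardinal.card_ord]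
      exact hμ) (fun i hi => (hcS i hi).2.1) hlim
    refine lt_of_le_of_lt ?_ hb
    exact Ordinal.iSup_le (fun i => (hb' i i.2).le)
  have hlC : l ∈ C := by
    refine hCl.2.2 l hlμ hllim (fun b hb => ?_)
    obtain ⟨i, hi, hbi⟩ := hex b hb
    exact ⟨c i, (hcS i hi).1, hbi, hlt i hi⟩
  obtain ⟨E, hEl, hEP⟩ := hE l hlC hlcof
  have hD : Club l {a | ∃ i < w1, c i = a} := by
    refine ⟨?_, ?_, ?_⟩
    · rintro a ⟨i, hi, rfl⟩
      exact hlt i hi
    · intro b hb
      obtain ⟨i, hi, hbi⟩ := hex b hb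
      exact ⟨c i, ⟨i, hi, rfl⟩, hbi⟩
    · intro a ha halim hac
      obtain ⟨i₀, hi₀, hai₀⟩ := hex a ha
      have hne : {j | j < w1 ∧ a ≤ c j}.Nonempty := ⟨i₀, hi₀, hai₀.le⟩
      obtain ⟨hj1, hj2⟩ := csInf_mem hne
      set j := sInf {j | j < w1 ∧ a ≤ c j} with hj
      have hmin : ∀ i < j, c i < a := by
        intro i hi
        by_contra h
        exact absurd (csInf_le' (show i ∈ {j | j < w1 ∧ a ≤ c j} from
          ⟨hi.trans hj1, not_lt.1 h⟩)) (not_le.2 hi)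
      have hmono : ∀ i k, i < w1 → c i < c k → i < k := by
        intro i k hi hik
        by_contra h
        rcases (not_lt.1 h).eq_or_lt with h | h
        · rw [h] at hik
          exact lt_irrefl _ hik
        · exact absurd (hik.trans (hcm k i h hi)) (lt_irrefl _)
      have hjlim : IsSuccLimit j := by
        rw [Ordinal.isSuccLimit_iff]
        refine ⟨?_, ?_⟩
        · intro h0
          obtain ⟨_, ⟨i, hi, rfl⟩, _, h2⟩ := hac 0 halim.bot_lt
          have := hmono i j hi (h2.trans_le hj2)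
          rw [h0] at this
          exact absurd this (not_lt.2 zero_le)
        · rw [isSuccPrelimit_iff_succ_lt]
          intro k hk
          rw [Order.succ_eq_add_one]
          obtain ⟨_, ⟨i, hi, rfl⟩, h1, h2⟩ := hac (c k) (hmin k hk)
          have h3 := hmono i j hi (h2.trans_le hj2)
          have h4 := hmono k i (hk.trans hj1) h1
          exact (Order.add_one_le_of_lt h4).trans_lt h3
      refine ⟨j, hj1, le_antisymm ?_ hj2⟩
      by_contra h
      obtain ⟨i, hi, hai⟩ := hcc j hj1 hjlim a (not_le.1 h)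
      exact absurd (hai.trans (hmin i hi)) (lt_irrefl _)
  have hED := hC.inter l E _ (by rw [hlcof]; exact Cardinal.aleph0_lt_aleph_one) hEl hD
  obtain ⟨a, ⟨haE, i, hi, rfl⟩, _⟩ := hED.2.1 0 hllim.bot_lt
  exact (hcS i hi).2.2.2.2 (hEP _ haE)

end Pool.Agent.HCO
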