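import Pool.Agent.HCO.St3

/-!
# Retractions onto finite boundaries
-/

set_option autoImplicit false

open Set Topology Cardinal Ordinal Order Filter

universe u v w

namespace Pool.Agent.HCO

private theorem Retr_fin (X : Type u) [TopologicalSpace X] [CompactSpace X] [T2Space X]
    [TotallyDisconnectedSpace X] (B : Set X) (hB : B.Finite) :
    B.Nonempty → ∃ c : X → X, (∀ p ∈ B, c p = p) ∧ (∀ z, c z ∈ B) ∧
      ∀ p ∈ B, IsClopen {z | c z = p} := by
  induction B, hB using Set.Finite.induction_on with
  | empty => exact fun h => absurd h Set.not_nonempty_empty
  | @insert a B ha hB ih =>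
    intro _
    rcases B.eq_empty_or_nonempty with hE | hE
    · subst hE
      refine ⟨fun _ => a, ?_, ?_, ?_⟩
      · rintro p (rfl | hp)
        · rfl
        · exact absurd hp (notMem_empty _)
      · exact fun _ => Or.inl rfl
      · rintro p (rfl | hp)
        · have : {z : X | (fun _ : X => p) z = p} = Set.univ := by
            ext z; exact ⟨fun _ => mem_univ _, fun _ => rfl⟩
          rw [this]; exact isClopen_univ
        · exact absurd hp (notMem_empty _)
    · obtain ⟨c, h1, h2, h3⟩ := ih hE
      obtain ⟨O, hO, haO, hOB⟩ : ∃ O : Set X, IsClopen O ∧ a ∈ O ∧ O ⊆ Bᶜ :=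
        compact_exists_isClopen_in_isOpen hB.isClosed.isOpen_compl ha
      classical
      refine ⟨fun z => if z ∈ O then a else c z, ?_, ?_, ?_⟩
      · rintro p (rfl | hp)
        · exact if_pos haO
        · have : p ∉ O := fun h => hOB h hp
          exact (if_neg this).trans (h1 p hp)
      · intro z
        by_cases hz : z ∈ O
        · exact Or.inl (if_pos hz)
        · have : (if z ∈ O then a else c z) = c z := if_neg hz
          change (if z ∈ O then a else c z) ∈ insert a B
          rw [this]; exact Or.inr (h2 z)
      · rintro p (rfl | hp)
        · have : {z : X | (if z ∈ O then p else c z) = p} = O := by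
            ext z
            constructor
            · intro hz
              by_contra hzO
              have hz' : (if z ∈ O then p else c z) = p := hz
              rw [if_neg hzO] at hz'
              exact ha (hz' ▸ h2 z)
            · intro hz
              change (if z ∈ O then p else c z) = p
              rw [if_pos hz]
          rw [this]; exact hO
        · have hap : a ≠ p := fun e => ha (e ▸ hp)
          have : {z : X | (if z ∈ O then a else c z) = p} = {z | c z = p} \ O := by
            ext z
            constructor
            · intro hz
              have hz' : (if z ∈ O then a else c z) = p := hz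
              by_cases hzO : z ∈ O
              · rw [if_pos hzO] at hz'
                exact absurd hz' hap
              · rw [if_neg hzO] at hz'
                exact ⟨hz', hzO⟩
            · rintro ⟨hz, hzO⟩
              change (if z ∈ O then a else c z) = p
              rw [if_neg hzO]; exact hz
          rw [this]
          exact (h3 p hp).diff hO

theorem thm_Retr (hFi : St_Filt.{u}) : St_Retr.{u} := by
  intro X _ _ _ _ x r μ K hK l hl hlim hfin
  obtain ⟨c, h1, h2, h3⟩ := Retr_fin X (Bd K l) hfin (hFi.ne X x r μ K hK l hl hlim)
  exact ⟨c, h1, fun z _ => h2 z, fun p hp => ⟨{z | c z = p}, h3 p hp, fun z _ => Iff.rfl⟩⟩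

end Pool.Agent.HCO
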