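import Pool.Agent.HCO.St4

/-! [SPdist] countable closed sequences in a stationary set: distributivity -/

set_option autoImplicit false

open Set Topology Cardinal Ordinal Order Filter

universe u v w

namespace Pool.Agent.HCO

private theorem SPdist_w1 : w1.{u} = ω₁ := by
  unfold w1
  exact Cardinal.ord_aleph 1

private theorem SPdist_w1lim : IsSuccLimit (w1.{u}) := by
  unfold w1
  exact Cardinal.isSuccLimit_ord (Cardinal.aleph0_le_aleph 1)

/-- a stationary set is unbounded -/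
private theorem SPdist_unb (μ : Cardinal.{u}) (S : Set Ordinal.{u}) (hμ : μ.IsRegular)
    (hS : Stat μ.ord S) (b : Ordinal.{u}) (hb : b < μ.ord) : ∃ s ∈ S, b < s := by
  have hlim : IsSuccLimit μ.ord := Cardinal.isSuccLimit_ord hμ.aleph0_le
  obtain ⟨a, ha, ha2⟩ := hS {a | b < a ∧ a < μ.ord} ⟨fun a ha => ha.2, fun c hc =>
    ⟨max b c + 1, ⟨lt_of_le_of_lt (le_max_left b c) (lt_add_one _),
      by
        have := hlim.succ_lt (max_lt hb hc)
        rwa [Order.succ_eq_add_one] at this⟩,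
      lt_of_le_of_lt (le_max_right b c) (lt_add_one _)⟩, fun l hl hll h => by
        obtain ⟨c, hc, -, hcl⟩ := h 0 hll.bot_lt
        exact ⟨hc.1.trans hcl, hl⟩⟩
  exact ⟨a, ha, ha2.1⟩

private theorem SPdist_jump (μ : Cardinal.{u}) (S : Set Ordinal.{u}) (hμ : μ.IsRegular)
    (hS : Stat μ.ord S) (hS2 : ∀ a ∈ S, a < μ.ord) (p : SPc S) (b : Ordinal.{u})
    (hb : b < μ.ord) : ∃ q ≤ p, p.len < q.len ∧ b < q.c q.len := by
  obtain ⟨s, hs, hbs⟩ := SPdist_unb μ S hμ hS (max b (p.c p.len))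
    (max_lt hb (hS2 _ (p.mem p.len le_rfl)))
  have h1 : p.len < p.len + 1 := lt_add_one _
  have hlt : ∀ i, i < p.len + 1 ↔ i ≤ p.len := fun i => by
    rw [← Order.succ_eq_add_one]
    exact Order.lt_succ_iff
  let q : SPc S :=
    { len := p.len + 1
      c := fun i => if i ≤ p.len then p.c i else if i = p.len + 1 then s else 0
      lenlt := by
        have := SPdist_w1lim.succ_lt p.lenlt
        rwa [Order.succ_eq_add_one] at this
      zero := by
        intro i hi
        rw [if_neg (not_le.2 (h1.trans hi)), if_neg hi.ne']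
      mem := by
        intro i hi
        rcases hi.lt_or_eq with h | h
        · rw [if_pos ((hlt i).1 h)]
          exact p.mem i ((hlt i).1 h)
        · rw [if_neg (by rw [h]; exact not_le.2 h1), if_pos h]
          exact hs
      mono := by
        intro i j hij hj
        have hi : i ≤ p.len := (hlt i).1 (lt_of_lt_of_le hij hj)
        rw [if_pos hi]
        rcases hj.lt_or_eq with h | h
        · rw [if_pos ((hlt j).1 h)]
          exact p.mono i j hij ((hlt j).1 h)
        · rw [if_neg (by rw [h]; exact not_le.2 h1), if_pos h]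
          refine lt_of_le_of_lt ?_ (lt_of_le_of_lt (le_max_right _ _) hbs)
          rcases hi.lt_or_eq with h2 | h2
          · exact (p.mono i p.len h2 le_rfl).le
          · rw [h2]
      cont := by
        intro l hl hll b' hb'
        have hl2 : l ≤ p.len := by
          rcases hl.lt_or_eq with h | h
          · exact (hlt l).1 h
          · exfalso
            rw [h, ← Order.succ_eq_add_one] at hll
            exact Order.not_isSuccLimit_succ p.len hll
        rw [if_pos hl2] at hb'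
        obtain ⟨i, hi, hbi⟩ := p.cont l hl2 hll b' hb'
        refine ⟨i, hi, ?_⟩
        rw [if_pos (hi.le.trans hl2)]
        exact hbi }
  refine ⟨q, ⟨h1.le, fun i hi => if_pos hi⟩, h1, ?_⟩
  have h2 : q.c q.len = s := by
    change (if p.len + 1 ≤ p.len then p.c (p.len + 1) else
      if p.len + 1 = p.len + 1 then s else 0) = s
    rw [if_neg (not_le.2 h1), if_pos rfl]
  rw [h2]
  exact lt_of_le_of_lt (le_max_left _ _) hbs

/-- the closing operation -/
private def SPdist_F {S : Set Ordinal.{u}} (p : SPc S) (ext : ℕ → SPc S → SPc S)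
    (jump : SPc S → Ordinal.{u} → SPc S) :
    List (Ordinal.{u} ⊕ SPc S) → Set (Ordinal.{u} ⊕ SPc S)
  | [] => {Sum.inr p}
  | [Sum.inr q] => range (fun n => (Sum.inr (ext n q) : Ordinal.{u} ⊕ SPc S)) ∪
      {Sum.inl (q.c q.len)}
  | [Sum.inr q, Sum.inl b] => {Sum.inr (jump q b)}
  | _ => ∅

private theorem SPdist_limit {S : Set Ordinal.{u}} (P : ℕ → SPc S)
    (hP : ∀ n, P (n + 1) ≤ P n) (hlen : ∀ n, (P n).len < (P (n + 1)).len) (g : Ordinal.{u})
    (hg : g ∈ S) (hlt : ∀ n, (P n).c (P n).len < g)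
    (hcof : ∀ b < g, ∃ n, b < (P n).c (P n).len) : ∃ q : SPc S, ∀ n, q ≤ P n := by
  classical
  have hanti : ∀ n m, n ≤ m → P m ≤ P n := fun n m h => antitone_nat_of_succ_le hP h
  set δ : Ordinal.{u} := ⨆ n, (P n).len with hδ
  have hle : ∀ n, (P n).len ≤ δ := fun n => Ordinal.le_iSup (fun n => (P n).len) n
  have hlt' : ∀ n, (P n).len < δ := fun n => lt_of_lt_of_le (hlen n) (hle (n + 1))
  have hex : ∀ i, i < δ → ∃ n, i ≤ (P n).len := by
    intro i hi
    obtain ⟨n, hn⟩ := (Ordinal.lt_iSup_iff).1 hi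
    exact ⟨n, hn.le⟩
  set cc : Ordinal.{u} → Ordinal.{u} := fun i =>
    if h : ∃ n, i ≤ (P n).len then (P (Nat.find h)).c i else if i = δ then g else 0 with hcc
  have hc : ∀ n i, i ≤ (P n).len → cc i = (P n).c i := by
    intro n i hi
    have h : ∃ n, i ≤ (P n).len := ⟨n, hi⟩
    have h1 : cc i = (P (Nat.find h)).c i := by
      rw [hcc]
      exact dif_pos h
    rw [h1]
    exact ((hanti _ _ (Nat.find_min' h hi)).2 i (Nat.find_spec h)).symm
  have hnδ : ∀ i, δ ≤ i → ¬ ∃ n, i ≤ (P n).len := by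
    rintro i hi ⟨n, hn⟩
    exact absurd (lt_of_lt_of_le (hlt' n) hi) (not_lt.2 hn)
  have hcδ : cc δ = g := by
    have h1 : cc δ = if δ = δ then g else 0 := by
      rw [hcc]
      exact dif_neg (hnδ δ le_rfl)
    rw [h1, if_pos rfl]
  refine ⟨{ len := δ, c := cc, lenlt := ?_, zero := ?_, mem := ?_, mono := ?_, cont := ?_ },
    fun n => ⟨hle n, fun i hi => hc n i hi⟩⟩
  · rw [SPdist_w1]
    apply Ordinal.iSup_lt_omega_one
    intro n
    rw [← SPdist_w1]
    exact (P n).lenlt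
  · intro i hi
    have h1 : cc i = if i = δ then g else 0 := by
      rw [hcc]
      exact dif_neg (hnδ i hi.le)
    rw [h1, if_neg hi.ne']
  · intro i hi
    rcases hi.lt_or_eq with h | h
    · obtain ⟨n, hn⟩ := hex i h
      rw [hc n i hn]
      exact (P n).mem i hn
    · rw [h, hcδ]
      exact hg
  · intro i j hij hj
    rcases hj.lt_or_eq with h | h
    · obtain ⟨n, hn⟩ := hex j h
      rw [hc n j hn, hc n i (hij.le.trans hn)]
      exact (P n).mono i j hij hn
    · rw [h] at hij ⊢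
      obtain ⟨n, hn⟩ := hex i hij
      rw [hcδ, hc n i hn]
      refine lt_of_le_of_lt ?_ (hlt n)
      rcases hn.lt_or_eq with h2 | h2
      · exact ((P n).mono i _ h2 le_rfl).le
      · rw [h2]
  · intro l hl hll b hb
    rcases hl.lt_or_eq with h | h
    · obtain ⟨n, hn⟩ := hex l h
      rw [hc n l hn] at hb
      obtain ⟨i, hi, hbi⟩ := (P n).cont l hn hll b hb
      exact ⟨i, hi, by rw [hc n i (hi.le.trans hn)]; exact hbi⟩
    · rw [h, hcδ] at hb
      obtain ⟨n, hn⟩ := hcof b hb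
      refine ⟨(P n).len, ?_, ?_⟩
      · rw [h]
        exact hlt' n
      · rw [hc n _ le_rfl]
        exact hn

theorem thm_SPdist (hCC : St_CCex2.{u, u + 1}) : St_SPdist.{u} := by
  intro μ S hμ hμ1 hS hS2
  have hjump := fun (p : SPc S) (b : Ordinal.{u}) (hb : b < μ.ord) =>
    SPdist_jump μ S hμ hS (fun a ha => (hS2 a ha).1) p b hb
  refine ⟨hjump, ?_⟩
  intro D hD hDo p
  choose! jump hj1 hj2 hj3 using hjump
  choose ext he1 he2 using fun (n : ℕ) (q : SPc S) => hD n q
  obtain ⟨M, hMct, ⟨hMp, hMe, hMj, hMc⟩, -, g, hgS, -, hgM, hgc⟩ := hCC (Ordinal.{u} ⊕ SPc S)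
    (fun M => (Sum.inr p : Ordinal.{u} ⊕ SPc S) ∈ M ∧
      (∀ (n : ℕ) (q : SPc S), (Sum.inr q : Ordinal.{u} ⊕ SPc S) ∈ M →
        (Sum.inr (ext n q) : Ordinal.{u} ⊕ SPc S) ∈ M) ∧
      (∀ (q : SPc S) (b : Ordinal.{u}), (Sum.inr q : Ordinal.{u} ⊕ SPc S) ∈ M →
        (Sum.inl b : Ordinal.{u} ⊕ SPc S) ∈ M → (Sum.inr (jump q b) : Ordinal.{u} ⊕ SPc S) ∈ M) ∧
      ∀ q : SPc S, (Sum.inr q : Ordinal.{u} ⊕ SPc S) ∈ M →
        (Sum.inl (q.c q.len) : Ordinal.{u} ⊕ SPc S) ∈ M)
    Sum.inl Sum.inl μ (Iio w1) S Sum.inl_injective.injOn Sum.inl_injective.injOn hμ hμ1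
    (by
      intro C hC
      obtain ⟨c, hc, -⟩ := hC.2.1 0 SPdist_w1lim.bot_lt
      exact ⟨c, hC.1 c hc, hc⟩) hS (fun a ha => (hS2 a ha).2)
    ⟨SPdist_F p ext jump, by
      intro l
      unfold SPdist_F
      split
      · exact countable_singleton _
      · exact (countable_range _).union (countable_singleton _)
      · exact countable_singleton _
      · exact countable_empty, by
      intro M _ hM
      refine ⟨?_, ?_, ?_, ?_⟩
      · exact hM [] (by simp) rfl
      · intro n q hq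
        exact hM [Sum.inr q] (by simpa using hq) (Or.inl ⟨n, rfl⟩)
      · intro q b hq hb
        exact hM [Sum.inr q, Sum.inl b] (by
          intro y hy
          rcases List.mem_cons.1 hy with rfl | hy
          · exact hq
          · rw [List.mem_singleton.1 hy]
            exact hb) rfl
      · intro q hq
        exact hM [Sum.inr q] (by simpa using hq) (Or.inr rfl)⟩
  have hBct : {a : Ordinal.{u} | a < μ.ord ∧ (Sum.inl a : Ordinal.{u} ⊕ SPc S) ∈ M}.Countable :=
    (hMct.preimage_of_injOn (f := Sum.inl) (Sum.inl_injective.injOn)).mono fun a ha => ha.2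
  have hcμ : ∀ q : SPc S, q.c q.len < μ.ord := fun q => (hS2 _ (q.mem _ le_rfl)).1
  obtain ⟨b, hb⟩ := hBct.exists_eq_range ⟨p.c p.len, hcμ p, hMc p hMp⟩
  have hbM : ∀ n, b n < μ.ord ∧ (Sum.inl (b n) : Ordinal.{u} ⊕ SPc S) ∈ M := by
    intro n
    have : b n ∈ {a : Ordinal.{u} | a < μ.ord ∧ (Sum.inl a : Ordinal.{u} ⊕ SPc S) ∈ M} := by
      rw [hb]
      exact mem_range_self n
    exact this
  let P : ℕ → {q : SPc S // (Sum.inr q : Ordinal.{u} ⊕ SPc S) ∈ M} := fun n =>
    Nat.rec ⟨p, hMp⟩ (fun n q => ⟨ext n (jump q.1 (b n)),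
      hMe n _ (hMj q.1 (b n) q.2 (hbM n).2)⟩) n
  have hP : ∀ n, (P (n + 1)).1 = ext n (jump (P n).1 (b n)) := fun n => rfl
  have hP1 : ∀ n, (P (n + 1)).1 ≤ jump (P n).1 (b n) := by
    intro n
    rw [hP]
    exact he1 n _
  have hP2 : ∀ n, (P (n + 1)).1 ≤ (P n).1 := fun n =>
    (hP1 n).trans (hj1 (P n).1 (b n) (hbM n).1)
  have hPlen : ∀ n, (P n).1.len < (P (n + 1)).1.len := fun n =>
    lt_of_lt_of_le (hj2 (P n).1 (b n) (hbM n).1) (hP1 n).1
  obtain ⟨q, hq⟩ := SPdist_limit (fun n => (P n).1) hP2 hPlen g hgS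
    (fun n => hgM _ (hcμ _) (hMc _ (P n).2)) (by
      intro c hc
      obtain ⟨a, hca, hag, haM⟩ := hgc c hc
      have hgμ : g < μ.ord := (hS2 g hgS).1
      have h1 : a ∈ {a : Ordinal.{u} | a < μ.ord ∧ (Sum.inl a : Ordinal.{u} ⊕ SPc S) ∈ M} :=
        ⟨hag.trans hgμ, haM⟩
      rw [hb] at h1
      obtain ⟨n, rfl⟩ := h1
      refine ⟨n + 1, hca.trans ?_⟩
      have h2 := hj3 (P n).1 (b n) (hbM n).1
      have h3 := (hP1 n).2 _ le_rfl
      rw [← h3] at h2
      refine lt_of_lt_of_le h2 ?_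
      rcases (hP1 n).1.lt_or_eq with h4 | h4
      · exact ((P (n + 1)).1.mono _ _ h4 le_rfl).le
      · rw [h4])
  refine ⟨q, hq 0, fun n => ?_⟩
  have h1 : (P (n + 1)).1 ∈ D n := by
    rw [hP]
    exact he2 n _
  exact hDo n _ h1 q (hq (n + 1))

end Pool.Agent.HCO
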