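import Pool.Agent.HCO.St4

set_option autoImplicit false

open Set Topology Cardinal Ordinal Order Filter

universe u v w

namespace Pool.Agent.HCO

private theorem SPfin_reg : (Cardinal.aleph.{u} 1).IsRegular := Cardinal.isRegular_aleph_one

private theorem SPfin_lim : IsSuccLimit w1.{u} :=
  Cardinal.isSuccLimit_ord SPfin_reg.aleph0_le

private theorem SPfin_ctbl (j : Ordinal.{u}) (hj : j < w1) : (Iio j).Countable := by
  rw [← Cardinal.le_aleph0_iff_set_countable, Cardinal.mk_Iio_ordinal, Cardinal.lift_le_aleph0]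
  have h1 : j.card < Cardinal.aleph 1 := Cardinal.lt_ord.1 hj
  rwa [← Cardinal.succ_aleph0, Order.lt_succ_iff] at h1

/-- a pairing -/
private theorem SPfin_pair : ∃ π : Ordinal.{u} → Ordinal.{u} × Ordinal.{u},
    ∀ j < w1.{u}, ∀ i < w1.{u}, ∃ a < w1.{u}, π a = (j, i) := by
  have hinf : ℵ₀ ≤ #(Iio w1.{u}) := by
    rw [Cardinal.mk_Iio_ordinal]
    unfold w1
    rw [Cardinal.card_ord]
    simp
  have h1 : #(Iio w1.{u} × Iio w1.{u}) = #(Iio w1.{u}) := by
    rw [Cardinal.mk_prod, Cardinal.lift_id, Cardinal.mul_eq_self hinf]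
  obtain ⟨e⟩ := Cardinal.eq.1 h1
  classical
  refine ⟨fun a => if h : a < w1 then ((e.symm ⟨a, h⟩).1.1, (e.symm ⟨a, h⟩).2.1) else (0, 0), ?_⟩
  intro j hj i hi
  refine ⟨(e (⟨j, hj⟩, ⟨i, hi⟩)).1, (e (⟨j, hj⟩, ⟨i, hi⟩)).2, ?_⟩
  have h2 : (e (⟨j, hj⟩, ⟨i, hi⟩)).1 < w1 := (e (⟨j, hj⟩, ⟨i, hi⟩)).2
  have h3 : (⟨(e (⟨j, hj⟩, ⟨i, hi⟩)).1, h2⟩ : Iio w1.{u}) = e (⟨j, hj⟩, ⟨i, hi⟩) := rfl
  simp only [dif_pos h2]
  rw [h3, Equiv.symm_apply_apply]

section

variable {S : Set Ordinal.{u}} {R : Ordinal.{u} → Ordinal.{u} → Ordinal.{u} → Prop}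

/-- keep the nodes, lengthen the sequence -/
private def SPfin_ext (p : SPp S R) (r : SPc S) (h : r ≤ p.toSPc) : SPp S R where
  toSPc := r
  q := p.q
  fn := p.fn
  dom := fun e he => ⟨(p.dom e he).1, (p.dom e he).2.trans h.1⟩
  good := by
    intro e he e' he' h1 h2
    refine p.good e he e' he' h1 ?_
    have h3 := p.dom e he
    have h4 := p.dom e' he'
    rw [h.2 _ (h3.1.le.trans h3.2), h.2 _ h3.2, h.2 _ h4.2] at h2
    exact h2

private theorem SPfin_add (hR : ∀ z a b, R z a b → z < a ∧ a < b) (p : SPp S R)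
    (j i : Ordinal.{u}) (hji : j < i) (hi : i ≤ p.len) :
    ∃ q ≤ p, ∃ n, ((j, i), n) ∈ q.q := by
  classical
  by_cases hex : ∃ n, ((j, i), n) ∈ p.q
  · obtain ⟨n, hn⟩ := hex
    exact ⟨p, ⟨⟨le_rfl, fun _ _ => rfl⟩, subset_rfl⟩, n, hn⟩
  · push Not at hex
    obtain ⟨n, hn⟩ := Infinite.exists_notMem_finset (p.q.image Prod.snd)
    have hn' : ∀ e ∈ p.q, e.2 ≠ n := by
      intro e he h
      exact hn (Finset.mem_image.2 ⟨e, he, h⟩)
    refine ⟨⟨p.toSPc, insert ((j, i), n) p.q, ?_, ?_, ?_⟩,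
      ⟨⟨le_rfl, fun _ _ => rfl⟩, Finset.subset_insert _ _⟩, n, Finset.mem_insert_self _ _⟩
    · intro e he e' he' h
      rcases Finset.mem_insert.1 he with rfl | he1
      · rcases Finset.mem_insert.1 he' with rfl | he2
        · rfl
        · exfalso
          obtain ⟨a, b⟩ := e'
          simp only at h
          subst h
          exact hex b he2
      · rcases Finset.mem_insert.1 he' with rfl | he2
        · exfalso
          obtain ⟨a, b⟩ := e
          simp only at h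
          subst h
          exact hex b he1
        · exact p.fn e he1 e' he2 h
    · intro e he
      rcases Finset.mem_insert.1 he with rfl | he1
      · exact ⟨hji, hi⟩
      · exact p.dom e he1
    · intro e he e' he' h1 h2
      rcases Finset.mem_insert.1 he with rfl | he1
      · rcases Finset.mem_insert.1 he' with rfl | he2
        · exact absurd (hR _ _ _ h2).2 (lt_irrefl _)
        · exact (hn' e' he2).symm
      · rcases Finset.mem_insert.1 he' with rfl | he2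
        · exact hn' e he1
        · exact p.good e he1 e' he2 h1 h2

end

theorem thm_SPfin (hMs : St_MMs.{u, u + 1}) (hLen : St_Len.{u, u + 1}) (hC : St_Club.{u}) :
    St_SPfin.{u} := by
  intro hssp hdist hsmall hMM μ S R hμ hμ1 hStat hS hR1 hR2 hR3 hR4 hR5 hR6
  have hSm : Small.{u} (SPp S R) := hsmall μ S R (fun a ha => (hS a ha).1)
  have hSSP : SSP.{u, u + 1} (SPp S R) := hssp μ S R hμ hμ1 hStat hS hR1 hR2 hR3 hR4 hR5 hR6
  obtain ⟨hd1, hd2⟩ := hdist μ S hμ hμ1 hStat hS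
  have hμlim : IsSuccLimit μ.ord := Cardinal.isSuccLimit_ord hμ.aleph0_le
  -- nonempty
  obtain ⟨s0, hs0, _⟩ := hStat _ (hC.univ μ.ord hμlim)
  have hne : Nonempty (SPp S R) := by
    refine ⟨⟨⟨0, fun i => if i = 0 then s0 else 0, SPfin_lim.bot_lt, ?_, ?_, ?_, ?_⟩, ∅, ?_, ?_, ?_⟩⟩
    · intro i hi
      rw [if_neg hi.ne']
    · intro i hi
      rw [if_pos (le_antisymm hi (zero_le))]
      exact hs0
    · intro i j hij hj
      exact absurd (hij.trans_le hj) (not_lt.2 (zero_le))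
    · intro l hl hlim
      exact absurd (hlim.bot_lt.trans_le hl) (lt_irrefl _)
    · intro e he; exact absurd he (Finset.notMem_empty _)
    · intro e he; exact absurd he (Finset.notMem_empty _)
    · intro e he; exact absurd he (Finset.notMem_empty _)
  -- lengths
  have hlen : ∀ a < w1, ∀ p : SPp S R, ∃ q ≤ p, a ≤ q.len := by
    intro a ha p
    have hmon : ∀ p q : SPc S, q ≤ p → p.len ≤ q.len := fun p q h => h.1
    have h1 := hLen (SPc S) SPc.len hmon (by
      intro p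
      obtain ⟨q, hq, hq1, _⟩ := hd1 p 0 hμlim.bot_lt
      exact ⟨q, hq, hq1⟩) hd2 a ha
    obtain ⟨r, hr, hra⟩ := h1 p.toSPc
    exact ⟨SPfin_ext p r hr, ⟨hr, subset_rfl⟩, hra⟩
  obtain ⟨π, hπ⟩ := SPfin_pair.{u}
  obtain ⟨G, hG, hGD⟩ := hMs hMM (SPp S R) hSSP
    (fun a => {p | a ≤ p.len ∧ ((π a).1 < (π a).2 → (π a).2 < w1 →
      ∃ n, (((π a).1, (π a).2), n) ∈ p.q)}) (by
      intro a ha p
      obtain ⟨q, hq, hqa⟩ := hlen a ha p
      by_cases h : (π a).1 < (π a).2 ∧ (π a).2 < w1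
      · obtain ⟨r, hr, hra⟩ := hlen _ h.2 q
        obtain ⟨t, ht, n, hn⟩ := SPfin_add hR1 r _ _ h.1 hra
        refine ⟨t, ?_, ?_, fun _ _ => ⟨n, hn⟩⟩
        · exact ht.trans (hr.trans hq)
        · exact hqa.trans (hr.1.1.trans ht.1.1)
      · refine ⟨q, hq, hqa, fun h1 h2 => absurd ⟨h1, h2⟩ h⟩)
  -- the sequence
  have hlenG : ∀ a < w1, ∃ p ∈ G, a ≤ p.len := by
    intro a ha
    obtain ⟨p, hp, hp1, _⟩ := hGD a ha
    exact ⟨p, hp, hp1⟩
  classical
  let c : Ordinal.{u} → Ordinal.{u} := fun i =>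
    if h : ∃ p ∈ G, i ≤ p.len then h.choose.c i else 0
  have hc : ∀ p ∈ G, ∀ i ≤ p.len, c i = p.c i := by
    intro p hp i hi
    have hex : ∃ p ∈ G, i ≤ p.len := ⟨p, hp, hi⟩
    have h1 : c i = hex.choose.c i := by
      simp only [c]
      rw [dif_pos hex]
    obtain ⟨r, _, hr1, hr2⟩ := hG.2.2 p hp hex.choose hex.choose_spec.1
    rw [h1, ← hr1.1.2 i hi, hr2.1.2 i hex.choose_spec.2]
  refine ⟨c, ?_, ?_, ?_, ?_⟩
  · intro i hi
    obtain ⟨p, hp, hpi⟩ := hlenG i hi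
    rw [hc p hp i hpi]
    exact p.mem i hpi
  · intro i j hij hj
    obtain ⟨p, hp, hpj⟩ := hlenG j hj
    rw [hc p hp i (hij.le.trans hpj), hc p hp j hpj]
    exact p.mono i j hij hpj
  · intro l hl hlim b hb
    obtain ⟨p, hp, hpl⟩ := hlenG l hl
    rw [hc p hp l hpl] at hb
    obtain ⟨i, hi, hbi⟩ := p.cont l hpl hlim b hb
    refine ⟨i, hi, ?_⟩
    rw [hc p hp i (hi.le.trans hpl)]
    exact hbi
  · intro z A hA hAc hAll
    have hcS : ∀ i < w1, c i ∈ S := by
      intro i hi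
      obtain ⟨p, hp, hpi⟩ := hlenG i hi
      rw [hc p hp i hpi]
      exact p.mem i hpi
    have hcm : ∀ i j, i < j → j < w1 → c i < c j := by
      intro i j hij hj
      obtain ⟨p, hp, hpj⟩ := hlenG j hj
      rw [hc p hp i (hij.le.trans hpj), hc p hp j hpj]
      exact p.mono i j hij hpj
    have hAn : A.Nonempty := by
      rw [Set.nonempty_iff_ne_empty]
      rintro rfl
      exact hAc Set.countable_empty
    obtain ⟨j0, hj0⟩ := hAn
    have hj0w := hA hj0
    have hsplit : A ⊆ Iio (j0 + 1) ∪ (A ∩ Ioi j0) := by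
      intro x hx
      rcases lt_or_ge j0 x with h | h
      · exact Or.inr ⟨hx, h⟩
      · exact Or.inl (Order.lt_add_one_iff.2 h)
    have hcnt1 : (Iio (j0 + 1)).Countable := SPfin_ctbl _ (SPfin_lim.add_one_lt hj0w)
    -- colours
    have hcol : ∀ i : Ordinal.{u}, ∃ n : ℕ, i ∈ A ∩ Ioi j0 → ∃ p ∈ G, ((j0, i), n) ∈ p.q := by
      intro i
      by_cases hi : i ∈ A ∩ Ioi j0
      · obtain ⟨a, ha, hπa⟩ := hπ j0 hj0w i (hA hi.1)
        obtain ⟨p, hp, _, hp2⟩ := hGD a ha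
        rw [hπa] at hp2
        obtain ⟨n, hn⟩ := hp2 hi.2 (hA hi.1)
        exact ⟨n, fun _ => ⟨p, hp, hn⟩⟩
      · exact ⟨0, fun h => absurd h hi⟩
    choose col hcol using hcol
    have hinj : ∀ i ∈ A ∩ Ioi j0, ∀ i' ∈ A ∩ Ioi j0, i < i' → col i ≠ col i' := by
      intro i hi i' hi' hii
      obtain ⟨p, hp, hpn⟩ := hcol i hi
      obtain ⟨p', hp', hpn'⟩ := hcol i' hi'
      obtain ⟨r, hr, hr1, hr2⟩ := hG.2.2 p hp p' hp'
      have e1 := hr1.2 hpn
      have e2 := hr2.2 hpn'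
      refine r.good _ e1 _ e2 rfl ?_
      have d1 := r.dom _ e1
      have d2 := r.dom _ e2
      simp only at d1 d2 ⊢
      rw [← hc r hr j0 (d1.1.le.trans d1.2), ← hc r hr i d1.2, ← hc r hr i' d2.2]
      have hz : z < c j0 := (hR1 _ _ _ (hAll j0 hj0 i hi.1 hi.2)).1
      exact hR4 z (c j0) (c i) (hcS i (hA hi.1)) (c i') (hcS i' (hA hi'.1))
        (hAll i hi.1 i' hi'.1 hii) hz.le (hcm _ _ hi.2 (hA hi.1))
    have hcnt2 : (A ∩ Ioi j0).Countable := by
      refine Set.MapsTo.countable_of_injOn (f := col) (t := Set.univ) (fun _ _ => Set.mem_univ _) ?_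
        Set.countable_univ
      intro i hi i' hi' h
      rcases lt_trichotomy i i' with h1 | h1 | h1
      · exact absurd h (hinj i hi i' hi' h1)
      · exact h1
      · exact absurd h.symm (hinj i' hi' i hi h1)
    exact hAc ((hcnt1.union hcnt2).mono hsplit)

end Pool.Agent.HCO
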