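import Pool.Agent.HCO.St4

/-!
# SPsmall: the poset `SPp S R` is small
-/

set_option autoImplicit false

universe u v w

open Set Topology Cardinal Ordinal Order Filter

namespace Pool.Agent.HCO

/-- conditions are determined by `len`, `c` and `q` -/
private theorem SPsmall_ext {S : Set Ordinal.{u}}
    {R : Ordinal.{u} → Ordinal.{u} → Ordinal.{u} → Prop} (p p' : SPp S R)
    (h1 : p.len = p'.len) (h2 : p.c = p'.c) (h3 : p.q = p'.q) : p = p' := by
  obtain ⟨⟨len, c, a1, a2, a3, a4, a5⟩, q, b1, b2, b3⟩ := p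
  obtain ⟨⟨len', c', a1', a2', a3', a4', a5'⟩, q', b1', b2', b3'⟩ := p'
  simp only at h1 h2 h3
  subst h1 h2 h3
  rfl

theorem thm_SPsmall : St_SPsmall.{u} := by
  intro μ S R hS
  have key : ∀ p : SPp S R, ∀ i, p.c i ≤ μ.ord := by
    intro p i
    rcases le_or_gt i p.len with h | h
    · exact (hS _ (p.mem i h)).le
    · rw [p.zero i h]; exact bot_le
  let F : SPp S R → (Iio (w1 : Ordinal.{u})) × ((Iio (w1 : Ordinal.{u})) → Iic μ.ord) ×
      Set (((Iio (w1 : Ordinal.{u})) × (Iio (w1 : Ordinal.{u}))) × ℕ) :=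
    fun p => (⟨p.len, p.lenlt⟩, fun i => ⟨p.c i.1, key p i.1⟩,
      {e | (((e.1.1.1, e.1.2.1), e.2) : (Ordinal.{u} × Ordinal.{u}) × ℕ) ∈ p.q})
  have hF : Function.Injective F := by
    intro p p' h
    have e1 : p.len = p'.len := congrArg (fun t => t.1.1) h
    have e2 : ∀ i : Iio (w1 : Ordinal.{u}), p.c i.1 = p'.c i.1 := fun i =>
      congrArg (fun t => ((t.2.1 i).1 : Ordinal.{u})) h
    have e3 : ∀ e : ((Iio (w1 : Ordinal.{u})) × (Iio (w1 : Ordinal.{u}))) × ℕ,
        (((e.1.1.1, e.1.2.1), e.2) : (Ordinal.{u} × Ordinal.{u}) × ℕ) ∈ p.q ↔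
        (((e.1.1.1, e.1.2.1), e.2) : (Ordinal.{u} × Ordinal.{u}) × ℕ) ∈ p'.q := by
      intro e
      have := congrArg (fun t => (e ∈ t.2.2)) h
      exact Iff.of_eq this
    refine SPsmall_ext p p' e1 (funext fun i => ?_) (Finset.ext fun e => ?_)
    · by_cases hi : i < w1
      · exact e2 ⟨i, hi⟩
      · rw [p.zero i (p.lenlt.trans_le (not_lt.1 hi)), p'.zero i (p'.lenlt.trans_le (not_lt.1 hi))]
    · obtain ⟨⟨j, i⟩, n⟩ := e
      constructor
      · intro he
        have h1 := p.dom _ he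
        have hi : i < w1 := h1.2.trans_lt p.lenlt
        exact (e3 ((⟨j, h1.1.trans hi⟩, ⟨i, hi⟩), n)).1 he
      · intro he
        have h1 := p'.dom _ he
        have hi : i < w1 := h1.2.trans_lt p'.lenlt
        exact (e3 ((⟨j, h1.1.trans hi⟩, ⟨i, hi⟩), n)).2 he
  exact small_of_injective hF

end Pool.Agent.HCO
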