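import Pool.Agent.HCO.St4

/-!
# HCO [SPssp]: the poset `SPp S R` preserves stationary subsets of `ω₁`
-/

set_option autoImplicit false

open Set Topology Cardinal Ordinal Order Filter

universe u v w

namespace Pool.Agent.HCO

/-! ### closure operations -/

private theorem SPssp_ex (T : Type v) (ι : Type) [Countable ι] (Q : ι → List T → T → Prop) :
    ClubC T (fun M => ∀ i l, (∀ x ∈ l, x ∈ M) → (∃ t, Q i l t) → ∃ t ∈ M, Q i l t) := by
  refine ⟨fun l => {t | ∃ (i : ι) (h : ∃ t, Q i l t), t = h.choose}, fun l => ?_, ?_⟩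
  · have : {t | ∃ (i : ι) (h : ∃ t, Q i l t), t = h.choose} ⊆
        Set.range (fun i : {i // ∃ t, Q i l t} => i.2.choose) := by
      rintro t ⟨i, h, rfl⟩
      exact ⟨⟨i, h⟩, rfl⟩
    exact (Set.countable_range _).mono this
  · intro M _ hM i l hl h
    exact ⟨h.choose, hM l hl ⟨i, h, rfl⟩, h.choose_spec⟩

private theorem SPssp_and (T : Type v) (A B : Set T → Prop) (hA : ClubC T A) (hB : ClubC T B) :
    ClubC T (fun M => A M ∧ B M) := by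
  obtain ⟨F, hF, hF'⟩ := hA
  obtain ⟨G, hG, hG'⟩ := hB
  exact ⟨fun l => F l ∪ G l, fun l => (hF l).union (hG l), fun M hM hc =>
    ⟨hF' M hM fun l hl => subset_union_left.trans (hc l hl),
      hG' M hM fun l hl => subset_union_right.trans (hc l hl)⟩⟩

private theorem SPssp_mono (T : Type v) (A B : Set T → Prop) (h : ∀ M, A M → B M)
    (hA : ClubC T A) : ClubC T B := by
  obtain ⟨F, hF, hF'⟩ := hA
  exact ⟨F, hF, fun M hM hc => h M (hF' M hM hc)⟩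

private theorem SPssp_exP (P : Type v)
    (ψ : ℕ → P → P → Ordinal.{u} → Ordinal.{u} → P → Prop) :
    ClubC (Ordinal.{u} ⊕ P) (fun M => ∀ n s r a z, Sum.inr s ∈ M → Sum.inr r ∈ M →
      Sum.inl a ∈ M → Sum.inl z ∈ M → (∃ t, ψ n s r a z t) →
        ∃ t, Sum.inr t ∈ M ∧ ψ n s r a z t) := by
  refine SPssp_mono _ _ _ ?_ (SPssp_ex (Ordinal.{u} ⊕ P) ℕ (fun n l t => ∃ s r a z t',
    l = [Sum.inr s, Sum.inr r, Sum.inl a, Sum.inl z] ∧ t = Sum.inr t' ∧ ψ n s r a z t'))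
  intro M hM n s r a z hs hr ha hz ⟨t, ht⟩
  obtain ⟨t₁, h1, s', r', a', z', t', hl, rfl, h2⟩ :=
    hM n [Sum.inr s, Sum.inr r, Sum.inl a, Sum.inl z] (by
      intro x hx
      simp only [List.mem_cons, List.not_mem_nil, or_false] at hx
      rcases hx with rfl | rfl | rfl | rfl <;> assumption)
      ⟨_, s, r, a, z, t, rfl, rfl, ht⟩
  simp only [List.cons.injEq, Sum.inr.injEq, Sum.inl.injEq, and_true] at hl
  obtain ⟨rfl, rfl, rfl, rfl⟩ := hl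
  exact ⟨t', h1, h2⟩

private theorem SPssp_exO (P : Type v)
    (ψ : ℕ → P → P → Ordinal.{u} → Ordinal.{u} → Ordinal.{u} → Prop) :
    ClubC (Ordinal.{u} ⊕ P) (fun M => ∀ n s r a z, Sum.inr s ∈ M → Sum.inr r ∈ M →
      Sum.inl a ∈ M → Sum.inl z ∈ M → (∃ t, ψ n s r a z t) →
        ∃ t, Sum.inl t ∈ M ∧ ψ n s r a z t) := by
  refine SPssp_mono _ _ _ ?_ (SPssp_ex (Ordinal.{u} ⊕ P) ℕ (fun n l t => ∃ s r a z t',
    l = [Sum.inr s, Sum.inr r, Sum.inl a, Sum.inl z] ∧ t = Sum.inl t' ∧ ψ n s r a z t'))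
  intro M hM n s r a z hs hr ha hz ⟨t, ht⟩
  obtain ⟨t₁, h1, s', r', a', z', t', hl, rfl, h2⟩ :=
    hM n [Sum.inr s, Sum.inr r, Sum.inl a, Sum.inl z] (by
      intro x hx
      simp only [List.mem_cons, List.not_mem_nil, or_false] at hx
      rcases hx with rfl | rfl | rfl | rfl <;> assumption)
      ⟨_, s, r, a, z, t, rfl, rfl, ht⟩
  simp only [List.cons.injEq, Sum.inr.injEq, Sum.inl.injEq, and_true] at hl
  obtain ⟨rfl, rfl, rfl, rfl⟩ := hl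
  exact ⟨t', h1, h2⟩

private theorem SPssp_ex1 (P : Type v) (p : P) :
    ClubC (Ordinal.{u} ⊕ P) (fun M => Sum.inr p ∈ M) := by
  refine SPssp_mono _ _ _ ?_ (SPssp_ex (Ordinal.{u} ⊕ P) ℕ (fun _ _ t => t = Sum.inr p))
  intro M hM
  obtain ⟨t, h1, rfl⟩ := hM 0 [] (by simp) ⟨_, rfl⟩
  exact h1

/-! ### basic facts on conditions -/

section Cond

variable {S : Set Ordinal.{u}} {R : Ordinal.{u} → Ordinal.{u} → Ordinal.{u} → Prop}

private theorem SPssp_le {r s : SPp S R} : r ≤ s ↔ r.toSPc ≤ s.toSPc ∧ s.q ⊆ r.q := Iff.rfl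

private theorem SPssp_lec {q p : SPc S} :
    q ≤ p ↔ p.len ≤ q.len ∧ ∀ i ≤ p.len, q.c i = p.c i := Iff.rfl

private theorem SPssp_ext {s t : SPp S R} (h : s.toSPc = t.toSPc) (h' : s.q = t.q) : s = t := by
  cases s
  cases t
  simp only at h h'
  subst h
  subst h'
  rfl

/-- the condition `(c, s.q)` -/
private def SPssp_mk (c : SPc S) (s : SPp S R) (h : c ≤ s.toSPc) : SPp S R where
  toSPc := c
  q := s.q
  fn := s.fn
  dom e he := ⟨(s.dom e he).1, (s.dom e he).2.trans (SPssp_lec.mp h).1⟩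
  good := by
    intro e he e' he' h1 h2
    have hc := (SPssp_lec.mp h).2
    obtain ⟨h3, h4⟩ := s.dom e he
    obtain ⟨h5, h6⟩ := s.dom e' he'
    rw [hc _ (h3.le.trans h4), hc _ h4, hc _ h6] at h2
    exact s.good e he e' he' h1 h2

/-- the condition `(s.c, q')` -/
private def SPssp_sub (s : SPp S R) (q' : Finset ((Ordinal.{u} × Ordinal.{u}) × ℕ))
    (h : q' ⊆ s.q) : SPp S R where
  toSPc := s.toSPc
  q := q'
  fn e he e' he' := s.fn e (h he) e' (h he')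
  dom e he := s.dom e (h he)
  good e he e' he' := s.good e (h he) e' (h he')

private def SPssp_Phi (Da : Set (SPp S R)) (s : SPp S R) (z : Ordinal.{u}) : Prop :=
  ∃ r ∈ Da, r ≤ s ∧ ∀ e ∈ r.q, e ∉ s.q → z < r.c e.1.2

private def SPssp_Pair (Da : Set (SPp S R)) (s : SPp S R) (z : Ordinal.{u})
    (r r' : SPp S R) : Prop :=
  r ∈ Da ∧ r' ∈ Da ∧ r ≤ s ∧ r' ≤ s ∧ (∀ e ∈ r.q, e ∉ s.q → z < r.c e.1.2) ∧
    (∀ e ∈ r'.q, e ∉ s.q → z < r'.c e.1.2) ∧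
    ∀ e ∈ r.q, e ∉ s.q → ∀ e' ∈ r'.q, e' ∉ s.q →
      r.c e.1.2 < r'.c e'.1.2 ∧ ¬ R z (r.c e.1.2) (r'.c e'.1.2)

private noncomputable def SPssp_zeta (F : Ordinal.{u} → Ordinal.{u}) (z0 : Ordinal.{u})
    (ξ : Ordinal.{u}) : Ordinal.{u} :=
  sInf {z | z0 ≤ z ∧ ∀ η : Set.Iio ξ, F (SPssp_zeta F z0 η.1) ≤ z}
termination_by ξ
decreasing_by exact η.2

private theorem SPssp_zeta_spec (hClub : St_Club.{u}) (μ : Cardinal.{u}) (hμ : μ.IsRegular)
    (F : Ordinal.{u} → Ordinal.{u}) (hF : ∀ z < μ.ord, F z < μ.ord) (z0 : Ordinal.{u})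
    (hz0 : z0 < μ.ord) : ∀ ξ < μ.ord, SPssp_zeta F z0 ξ < μ.ord ∧ z0 ≤ SPssp_zeta F z0 ξ ∧
      ∀ η < ξ, F (SPssp_zeta F z0 η) ≤ SPssp_zeta F z0 ξ := by
  have hlim : IsSuccLimit μ.ord := Cardinal.isSuccLimit_ord hμ.aleph0_le
  intro ξ
  induction ξ using WellFoundedLT.induction with
  | ind ξ ih =>
    intro hξ
    have h1 : ξ.card < μ.ord.cof := by
      rw [hμ.cof_ord]
      exact Cardinal.lt_ord.mp hξ
    obtain ⟨c, hc, hc'⟩ := hClub.sup μ.ord ξ (fun η => F (SPssp_zeta F z0 η)) h1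
      (fun η hη => hF _ (ih η hη (hη.trans hξ)).1) hlim
    have hmem : max z0 c ∈ {z | z0 ≤ z ∧ ∀ η : Set.Iio ξ, F (SPssp_zeta F z0 η.1) ≤ z} :=
      ⟨le_max_left _ _, fun η => (hc' η.1 η.2).le.trans (le_max_right _ _)⟩
    have h2 : SPssp_zeta F z0 ξ ∈
        {z | z0 ≤ z ∧ ∀ η : Set.Iio ξ, F (SPssp_zeta F z0 η.1) ≤ z} := by
      rw [SPssp_zeta]
      exact csInf_mem ⟨_, hmem⟩
    have h3 : SPssp_zeta F z0 ξ ≤ max z0 c := by
      rw [SPssp_zeta]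
      exact csInf_le' hmem
    exact ⟨h3.trans_lt (max_lt hz0 hc), h2.1, fun η hη => h2.2 ⟨η, hη⟩⟩

private theorem SPssp_pair (hG : St_G.{u}) (hClub : St_Club.{u}) (μ : Cardinal.{u})
    (hμ : μ.IsRegular) (hμ1 : ℵ₁ < μ) (hS1 : ∀ a ∈ S, a < μ.ord)
    (hR3 : ∀ z, ∀ a ∈ S, ∀ b ∈ S, ∀ c ∈ S, a < b → R z a c → R z b c → R z a b)
    (hR5 : ∀ z < μ.ord, ∀ A ⊆ S, (∀ b < μ.ord, ∃ a ∈ A, b < a) →
      ¬ ∀ a ∈ A, ∀ b ∈ A, z < a → a < b → R z a b)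
    (Da : Set (SPp S R)) (s : SPp S R) (hs : ∀ z < μ.ord, SPssp_Phi Da s z)
    (z0 : Ordinal.{u}) (hz0 : z0 < μ.ord) : ∃ r r', SPssp_Pair Da s z0 r r' := by
  classical
  have hω : ℵ₀ < μ := (Cardinal.aleph0_lt_aleph_one).trans hμ1
  have hpos : 0 < μ.ord := lt_of_le_of_lt bot_le hz0
  have : Nonempty (SPp S R) := ⟨s⟩
  choose! ρ hρ using hs
  let nw : SPp S R → Finset Ordinal.{u} := fun r =>
    (r.q.filter (fun e => e ∉ s.q)).image (fun e => r.c e.1.2)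
  have hnw : ∀ r : SPp S R, ∀ y, y ∈ nw r ↔ ∃ e ∈ r.q, e ∉ s.q ∧ r.c e.1.2 = y := by
    intro r y
    simp only [nw, Finset.mem_image, Finset.mem_filter, and_assoc]
  have hnwS : ∀ r : SPp S R, ∀ y ∈ nw r, y ∈ S := by
    intro r y hy
    obtain ⟨e, he, -, rfl⟩ := (hnw r y).mp hy
    exact r.mem _ (r.dom e he).2
  let F : Ordinal.{u} → Ordinal.{u} := fun z => (nw (ρ z)).sup id
  have hF : ∀ z < μ.ord, F z < μ.ord := by
    intro z _
    exact (Finset.sup_lt_iff (by exact hpos)).mpr fun y hy => hS1 y (hnwS _ y hy)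
  have hζ := SPssp_zeta_spec hClub μ hμ F hF z0 hz0
  obtain ⟨f, hf1, hf2, hf3⟩ := hG μ S (R z0) hμ hω hS1 (hR3 z0)
    (fun A hA hA' hA'' => hR5 z0 hz0 A hA hA' fun a ha b hb _ hab => hA'' a ha b hb hab)
    (fun ξ => nw (ρ (SPssp_zeta F z0 ξ))) (fun ξ _ y hy => hnwS _ y hy) (by
      intro ξ η hξη hη y hy z hz
      have h1 : y ≤ F (SPssp_zeta F z0 ξ) := Finset.le_sup (f := id) hy
      have h2 := (hζ η hη).2.2 ξ hξη
      obtain ⟨e, he, he', rfl⟩ := (hnw _ z).mp hz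
      exact (h1.trans h2).trans_lt ((hρ _ (hζ η hη).1).2.2 e he he'))
  have h0 := hζ (f 0) (hf2 0)
  have h1 := hζ (f 1) (hf2 1)
  have h01 : f 0 < f 1 := hf1 Nat.zero_lt_one
  refine ⟨ρ (SPssp_zeta F z0 (f 0)), ρ (SPssp_zeta F z0 (f 1)), (hρ _ h0.1).1, (hρ _ h1.1).1,
    (hρ _ h0.1).2.1, (hρ _ h1.1).2.1, fun e he he' => h0.2.1.trans_lt ((hρ _ h0.1).2.2 e he he'),
    fun e he he' => h1.2.1.trans_lt ((hρ _ h1.1).2.2 e he he'), ?_⟩
  intro e he he' e₁ he₁ he₁'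
  have hy := (hnw (ρ (SPssp_zeta F z0 (f 0))) _).mpr ⟨e, he, he', rfl⟩
  have hz := (hnw (ρ (SPssp_zeta F z0 (f 1))) _).mpr ⟨e₁, he₁, he₁', rfl⟩
  refine ⟨?_, hf3 0 1 Nat.zero_lt_one _ hy _ hz⟩
  have h2 : (ρ (SPssp_zeta F z0 (f 0))).c e.1.2 ≤ F (SPssp_zeta F z0 (f 0)) :=
    Finset.le_sup (f := id) hy
  exact (h2.trans (h1.2.2 _ h01)).trans_lt ((hρ _ h1.1).2.2 e₁ he₁ he₁')

/-! ### the closed countable sets -/

private def SPssp_psi (μ : Cardinal.{u}) (D : Ordinal.{u} → Set (SPp S R)) :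
    ℕ → SPp S R → SPp S R → Ordinal.{u} → Ordinal.{u} → SPp S R → Prop
  | 0, s, _, _, _, t => t.toSPc = s.toSPc ∧ t.q = ∅
  | 1, s, _, _, z, t => t.toSPc ≤ s.toSPc ∧ s.len < t.len ∧ z < t.c t.len
  | 2, s, _, a, _, t => t ≤ s ∧ t.q = s.q ∧ ∃ z < μ.ord, ¬ SPssp_Phi (D a) t z
  | 3, s, _, a, z, t => ∃ r', SPssp_Pair (D a) s z t r'
  | 4, s, r, a, z, t => SPssp_Pair (D a) s z r t
  | n + 5, s, _, j, i, t => t.toSPc = s.toSPc ∧ ∀ e, e ∈ t.q ↔ e = ((j, i), n) ∨ e ∈ s.q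

private def SPssp_chi (μ : Cardinal.{u}) (D : Ordinal.{u} → Set (SPp S R))
    (h : SPp S R → Ordinal.{u} → Ordinal.{u}) :
    ℕ → SPp S R → SPp S R → Ordinal.{u} → Ordinal.{u} → Ordinal.{u} → Prop
  | 0, s, _, _, _, t => t = s.len
  | 1, s, _, _, _, t => t = s.c s.len
  | 2, s, _, a, _, t => t = h s a
  | _, s, _, a, _, t => t < μ.ord ∧ ¬ SPssp_Phi (D a) s t

private structure SPssp_Cl (μ : Cardinal.{u}) (D : Ordinal.{u} → Set (SPp S R))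
    (h : SPp S R → Ordinal.{u} → Ordinal.{u}) (p : SPp S R) (M : Set (Ordinal.{u} ⊕ SPp S R)) :
    Prop where
  P : ∀ n s r a z, Sum.inr s ∈ M → Sum.inr r ∈ M → Sum.inl a ∈ M → Sum.inl z ∈ M →
    (∃ t, SPssp_psi μ D n s r a z t) → ∃ t, Sum.inr t ∈ M ∧ SPssp_psi μ D n s r a z t
  O : ∀ n s r a z, Sum.inr s ∈ M → Sum.inr r ∈ M → Sum.inl a ∈ M → Sum.inl z ∈ M →
    (∃ t, SPssp_chi μ D h n s r a z t) → ∃ t, Sum.inl t ∈ M ∧ SPssp_chi μ D h n s r a z t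
  p : Sum.inr p ∈ M

private theorem SPssp_club (μ : Cardinal.{u}) (D : Ordinal.{u} → Set (SPp S R))
    (h : SPp S R → Ordinal.{u} → Ordinal.{u}) (p : SPp S R) :
    ClubC (Ordinal.{u} ⊕ SPp S R) (SPssp_Cl μ D h p) :=
  SPssp_mono _ _ _ (fun _ hM => ⟨hM.1, hM.2.1, hM.2.2⟩)
    (SPssp_and _ _ _ (SPssp_exP _ (SPssp_psi μ D)) (SPssp_and _ _ _
      (SPssp_exO _ (SPssp_chi μ D h)) (SPssp_ex1 _ p)))

/-- a closed countable set with its traces -/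
private structure SPssp_Mod (μ : Cardinal.{u}) (D : Ordinal.{u} → Set (SPp S R))
    (h : SPp S R → Ordinal.{u} → Ordinal.{u}) (p : SPp S R) (N : Set (SPp S R))
    (G0 : Set Ordinal.{u}) (d g : Ordinal.{u}) : Prop where
  p : p ∈ N
  len : ∀ s ∈ N, s.len < d
  top : ∀ s ∈ N, s.c s.len < g
  q : ∀ s ∈ N, ∀ t : SPp S R, t.toSPc = s.toSPc → t ∈ N
  h : ∀ s ∈ N, ∀ a < d, h s a < d
  ext : ∀ s ∈ N, ∀ z ∈ G0, ∃ t ∈ N, t.toSPc ≤ s.toSPc ∧ s.len < t.len ∧ z < t.c t.len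
  neg : ∀ s ∈ N, ∀ a < d, (∃ t ≤ s, t.q = s.q ∧ ∃ z < μ.ord, ¬ SPssp_Phi (D a) t z) →
    ∃ t ∈ N, t ≤ s ∧ t.q = s.q ∧ ∃ z < g, ¬ SPssp_Phi (D a) t z
  pair : ∀ s ∈ N, ∀ a < d, (∀ z < μ.ord, SPssp_Phi (D a) s z) → ∀ z ∈ G0,
    ∃ r ∈ N, ∃ r' ∈ N, SPssp_Pair (D a) s z r r'

private theorem SPssp_mod (hG : St_G.{u}) (hClub : St_Club.{u}) (μ : Cardinal.{u})
    (hμ : μ.IsRegular) (hμ1 : ℵ₁ < μ) (hS1 : ∀ a ∈ S, a < μ.ord)
    (hR3 : ∀ z, ∀ a ∈ S, ∀ b ∈ S, ∀ c ∈ S, a < b → R z a c → R z b c → R z a b)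
    (hR5 : ∀ z < μ.ord, ∀ A ⊆ S, (∀ b < μ.ord, ∃ a ∈ A, b < a) →
      ¬ ∀ a ∈ A, ∀ b ∈ A, z < a → a < b → R z a b)
    (hext : ∀ (p : SPc S), ∀ b < μ.ord, ∃ q ≤ p, p.len < q.len ∧ b < q.c q.len)
    (D : Ordinal.{u} → Set (SPp S R))
    (h : SPp S R → Ordinal.{u} → Ordinal.{u}) (hh : ∀ q a, h q a < w1) (p : SPp S R)
    (M : Set (Ordinal.{u} ⊕ SPp S R)) (hM : SPssp_Cl μ D h p M) (d : Ordinal.{u})
    (hdw : d < w1) (hdl : IsSuccLimit d)
    (hdM : ∀ a < w1, ((Sum.inl a : Ordinal.{u} ⊕ SPp S R) ∈ M ↔ a < d)) (g : Ordinal.{u})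
    (hgM : ∀ a < μ.ord, (Sum.inl a : Ordinal.{u} ⊕ SPp S R) ∈ M → a < g) :
    SPssp_Mod μ D h p {s | Sum.inr s ∈ M} {z | z < μ.ord ∧ Sum.inl z ∈ M} d g := by
  classical
  have hd : ∀ a < d, (Sum.inl a : Ordinal.{u} ⊕ SPp S R) ∈ M := fun a ha =>
    (hdM a (ha.trans hdw)).mpr ha
  have h0 : (Sum.inl 0 : Ordinal.{u} ⊕ SPp S R) ∈ M := hd 0 hdl.bot_lt
  have hlen : ∀ s : SPp S R, Sum.inr s ∈ M → s.len < d := by
    intro s hs
    obtain ⟨t, ht, ht'⟩ := hM.O 0 s s 0 0 hs hs h0 h0 ⟨_, rfl⟩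
    have ht'' : t = s.len := ht'
    rw [ht''] at ht
    exact (hdM _ s.lenlt).mp ht
  refine ⟨hM.p, hlen, ?_, ?_, ?_, ?_, ?_, ?_⟩
  · intro s hs
    obtain ⟨t, ht, ht'⟩ := hM.O 1 s s 0 0 hs hs h0 h0 ⟨_, rfl⟩
    have ht'' : t = s.c s.len := ht'
    rw [ht''] at ht
    exact hgM _ (hS1 _ (s.mem _ le_rfl)) ht
  · intro s hs t hts
    have key : ∀ (q' : Finset ((Ordinal.{u} × Ordinal.{u}) × ℕ)) (hq : q' ⊆ t.q),
        Sum.inr (SPssp_sub t q' hq) ∈ M := by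
      intro q'
      induction q' using Finset.induction_on with
      | empty =>
        intro hq
        obtain ⟨t', h1, h2⟩ := hM.P 0 s s 0 0 hs hs h0 h0 ⟨SPssp_sub t ∅ hq, hts, rfl⟩
        have h3 : t' = SPssp_sub t ∅ hq := SPssp_ext (h2.1.trans hts.symm) h2.2
        rw [h3] at h1
        exact h1
      | insert e q' he ih =>
        intro hq
        have hq' : q' ⊆ t.q := (Finset.subset_insert e q').trans hq
        have heq : e ∈ t.q := hq (Finset.mem_insert_self e q')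
        have h1 := ih hq'
        obtain ⟨h2, h3⟩ := t.dom e heq
        have h4 : t.len < d := by
          rw [hts]
          exact hlen s hs
        obtain ⟨t', h5, h6⟩ := hM.P (e.2 + 5) _ _ e.1.1 e.1.2 h1 h1
          (hd _ ((h2.trans_le h3).trans h4)) (hd _ (h3.trans_lt h4))
          ⟨SPssp_sub t (insert e q') hq, rfl, fun e' => Finset.mem_insert⟩
        have h7 : t' = SPssp_sub t (insert e q') hq :=
          SPssp_ext h6.1 (Finset.ext fun e' => (h6.2 e').trans Finset.mem_insert.symm)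
        rw [h7] at h5
        exact h5
    have := key t.q subset_rfl
    exact this
  · intro s hs a ha
    obtain ⟨t, ht, ht'⟩ := hM.O 2 s s a 0 hs hs (hd a ha) h0 ⟨_, rfl⟩
    have ht'' : t = h s a := ht'
    rw [ht''] at ht
    exact (hdM _ (hh s a)).mp ht
  · rintro s hs z ⟨hz, hz'⟩
    obtain ⟨q, hq, h1, h2⟩ := hext s.toSPc z hz
    obtain ⟨t, ht, ht'⟩ := hM.P 1 s s 0 z hs hs h0 hz' ⟨SPssp_mk q s hq, hq, h1, h2⟩
    exact ⟨t, ht, ht'⟩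
  · rintro s hs a ha ⟨t, h1, h2, h3⟩
    obtain ⟨t', ht', h4, h5, h6⟩ := hM.P 2 s s a 0 hs hs (hd a ha) h0 ⟨t, h1, h2, h3⟩
    obtain ⟨z, hz, h7, h8⟩ := hM.O 3 t' t' a 0 ht' ht' (hd a ha) h0 h6
    exact ⟨t', ht', h4, h5, z, hgM z h7 hz, h8⟩
  · rintro s hs a ha h1 z ⟨hz, hz'⟩
    obtain ⟨r, h2⟩ := SPssp_pair hG hClub μ hμ hμ1 hS1 hR3 hR5 (D a) s h1 z hz
    obtain ⟨r, hr, h3⟩ := hM.P 3 s s a z hs hs (hd a ha) hz' ⟨r, h2⟩
    obtain ⟨r', hr', h4⟩ := hM.P 4 s r a z hs hr (hd a ha) hz' h3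
    exact ⟨r, hr, r', hr', h4⟩

/-- one step of the construction -/
private theorem SPssp_step {μ : Cardinal.{u}} {D : Ordinal.{u} → Set (SPp S R)}
    {h : SPp S R → Ordinal.{u} → Ordinal.{u}} {p : SPp S R} {N : Set (SPp S R)}
    {G0 : Set Ordinal.{u}} {d g : Ordinal.{u}} (hM : SPssp_Mod μ D h p N G0 d g) (hgS : g ∈ S)
    (hR3 : ∀ z, ∀ a ∈ S, ∀ b ∈ S, ∀ c ∈ S, a < b → R z a c → R z b c → R z a b)
    (c : SPc S) (hc : ∃ s ∈ N, s.toSPc = c) (a : Ordinal.{u}) (ha : a < d)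
    (q : Finset ((Ordinal.{u} × Ordinal.{u}) × ℕ)) (γ : Ordinal.{u}) (hγ : γ ∈ G0) :
    ∃ c' : SPc S, (∃ s ∈ N, s.toSPc = c') ∧ c' ≤ c ∧ c.len < c'.len ∧ γ < c'.c c'.len ∧
      ∀ s : SPp S R, s.toSPc = c → s.q = q →
        (∃ s' : SPp S R, s'.q = s.q ∧ c' ≤ s'.toSPc ∧ ∃ z < g, ¬ SPssp_Phi (D a) s' z) ∨
        (∃ r ∈ N, r ∈ D a ∧ r ≤ s ∧ c' ≤ r.toSPc ∧
          ∀ e ∈ r.q, e ∉ s.q → γ < r.c e.1.2 ∧ ¬ R γ (r.c e.1.2) g) := by
  obtain ⟨t0, ht0, rfl⟩ := hc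
  by_cases hs : ∃ s : SPp S R, s.toSPc = t0.toSPc ∧ s.q = q
  · obtain ⟨s, hs1, rfl⟩ := hs
    have hsN : s ∈ N := hM.q t0 ht0 s hs1
    by_cases hneg : ∃ t ≤ s, t.q = s.q ∧ ∃ z < μ.ord, ¬ SPssp_Phi (D a) t z
    · obtain ⟨t, htN, hts, htq, htz⟩ := hM.neg s hsN a ha hneg
      obtain ⟨t', ht'N, ht', hlen, htop⟩ := hM.ext t htN γ hγ
      have hts' : t.toSPc ≤ t0.toSPc := by
        rw [← hs1]
        exact (SPssp_le.mp hts).1
      refine ⟨t'.toSPc, ⟨t', ht'N, rfl⟩, ht'.trans hts', (SPssp_lec.mp hts').1.trans_lt hlen,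
        htop, ?_⟩
      intro s₂ hs₂ hs₂'
      left
      exact ⟨t, htq.trans hs₂'.symm, ht', htz⟩
    · have hphi : ∀ z < μ.ord, SPssp_Phi (D a) s z := by
        intro z hz
        by_contra hcon
        exact hneg ⟨s, le_rfl, rfl, z, hz, hcon⟩
      obtain ⟨r, hr, r', hr', h1, h2, h3, h4, h5, h6, h7⟩ := hM.pair s hsN a ha hphi γ hγ
      have key : ∃ r₂ ∈ N, r₂ ∈ D a ∧ r₂ ≤ s ∧
          ∀ e ∈ r₂.q, e ∉ s.q → γ < r₂.c e.1.2 ∧ ¬ R γ (r₂.c e.1.2) g := by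
        by_cases hgood : ∀ e ∈ r.q, e ∉ s.q → ¬ R γ (r.c e.1.2) g
        · exact ⟨r, hr, h1, h3, fun e he he' => ⟨h5 e he he', hgood e he he'⟩⟩
        · push Not at hgood
          obtain ⟨e, he, he', hR⟩ := hgood
          refine ⟨r', hr', h2, h4, fun e₁ he₁ he₁' => ⟨h6 e₁ he₁ he₁', fun hR' => ?_⟩⟩
          obtain ⟨h8, h9⟩ := h7 e he he' e₁ he₁ he₁'
          exact h9 (hR3 γ _ (r.mem _ (r.dom e he).2) _ (r'.mem _ (r'.dom e₁ he₁).2) g hgS h8 hR hR')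
      obtain ⟨r₂, hr₂N, hr₂D, hr₂s, hr₂⟩ := key
      obtain ⟨t', ht'N, ht', hlen, htop⟩ := hM.ext r₂ hr₂N γ hγ
      have hts' : r₂.toSPc ≤ t0.toSPc := by
        rw [← hs1]
        exact (SPssp_le.mp hr₂s).1
      refine ⟨t'.toSPc, ⟨t', ht'N, rfl⟩, ht'.trans hts', (SPssp_lec.mp hts').1.trans_lt hlen,
        htop, ?_⟩
      intro s₂ hs₂ hs₂'
      right
      have hs₂s : s₂ = s := SPssp_ext (hs₂.trans hs1.symm) hs₂'
      rw [hs₂s]
      exact ⟨r₂, hr₂N, hr₂D, hr₂s, ht', hr₂⟩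
  · obtain ⟨t', ht'N, ht', hlen, htop⟩ := hM.ext t0 ht0 γ hγ
    exact ⟨t'.toSPc, ⟨t', ht'N, rfl⟩, ht', hlen, htop, fun s h1 h2 => (hs ⟨s, h1, h2⟩).elim⟩

/-- unions of sequences with a point on top -/
private theorem SPssp_union {d g : Ordinal.{u}} (hgS : g ∈ S) (c : ℕ → SPc S)
    (hle : ∀ k, c (k + 1) ≤ c k) (hlen : ∀ k, (c k).len < (c (k + 1)).len)
    (htop : ∀ k, (c k).c (c k).len < g) (hcof : ∀ b < g, ∃ k, b < (c k).c (c k).len)
    (hd : ∀ k, (c k).len < d) (hdw : d < w1) :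
    ∃ cs : SPc S, (∀ k, cs ≤ c k) ∧ cs.c cs.len = g ∧ (∀ i < cs.len, ∃ k, i < (c k).len) ∧
      (∀ k, (c k).len < cs.len) ∧ cs.len ≤ d := by
  classical
  have hanti : ∀ m n, m ≤ n → c n ≤ c m := by
    intro m n hmn
    induction hmn with
    | refl => exact le_rfl
    | step _ ih => exact (hle _).trans ih
  have hcoh : ∀ k l i, i ≤ (c k).len → i ≤ (c l).len → (c k).c i = (c l).c i := by
    intro k l i hk hl
    rcases le_total k l with h | h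
    · exact ((SPssp_lec.mp (hanti k l h)).2 i hk).symm
    · exact (SPssp_lec.mp (hanti l k h)).2 i hl
  obtain ⟨δ, hδ⟩ : ∃ δ, δ = sSup (Set.range fun k => (c k).len) := ⟨_, rfl⟩
  have hbdd : BddAbove (Set.range fun k => (c k).len) := by
    refine ⟨d, ?_⟩
    rintro _ ⟨k, rfl⟩
    exact (hd k).le
  have hlt : ∀ k, (c k).len < δ := by
    intro k
    refine (hlen k).trans_le ?_
    rw [hδ]
    exact le_csSup hbdd ⟨k + 1, rfl⟩
  have hlt' : ∀ i < δ, ∃ k, i < (c k).len := by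
    intro i hi
    rw [hδ] at hi
    obtain ⟨_, ⟨k, rfl⟩, hk⟩ := exists_lt_of_lt_csSup (Set.range_nonempty _) hi
    exact ⟨k, hk⟩
  have hδd : δ ≤ d := by
    rw [hδ]
    refine csSup_le (Set.range_nonempty _) ?_
    rintro _ ⟨k, rfl⟩
    exact (hd k).le
  obtain ⟨f, hf⟩ : ∃ f : Ordinal.{u} → Ordinal.{u}, f = fun i =>
      if h : ∃ k, i ≤ (c k).len then (c (Nat.find h)).c i else if i = δ then g else 0 := ⟨_, rfl⟩
  have hf1 : ∀ k i, i ≤ (c k).len → f i = (c k).c i := by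
    intro k i hi
    have h : ∃ k, i ≤ (c k).len := ⟨k, hi⟩
    rw [hf]
    simp only [h, dif_pos]
    exact hcoh _ _ i (Nat.find_spec h) hi
  have hno : ∀ i, δ ≤ i → ¬ ∃ k, i ≤ (c k).len := by
    rintro i hi ⟨k, hk⟩
    exact absurd (hi.trans hk) (not_le.mpr (hlt k))
  have hf2 : f δ = g := by
    rw [hf]
    simp only [hno δ le_rfl, dif_neg, not_false_eq_true, if_true]
  have hf3 : ∀ i, δ < i → f i = 0 := by
    intro i hi
    rw [hf]
    simp only [hno i hi.le, dif_neg, not_false_eq_true, hi.ne', if_false]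
  have mem : ∀ i ≤ δ, f i ∈ S := by
    intro i hi
    rcases hi.lt_or_eq with h | h
    · obtain ⟨k, hk⟩ := hlt' i h
      rw [hf1 k i hk.le]
      exact (c k).mem i hk.le
    · rw [h, hf2]
      exact hgS
  have mono : ∀ i j, i < j → j ≤ δ → f i < f j := by
    intro i j hij hj
    rcases hj.lt_or_eq with h | h
    · obtain ⟨k, hk⟩ := hlt' j h
      rw [hf1 k i (hij.le.trans hk.le), hf1 k j hk.le]
      exact (c k).mono i j hij hk.le
    · rw [h, hf2]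
      rw [h] at hij
      obtain ⟨k, hk⟩ := hlt' i hij
      rw [hf1 k i hk.le]
      exact ((c k).mono i _ hk le_rfl).trans (htop k)
  have cont : ∀ l ≤ δ, IsSuccLimit l → ∀ b < f l, ∃ i < l, b < f i := by
    intro l hl hlim b hb
    rcases hl.lt_or_eq with h | h
    · obtain ⟨k, hk⟩ := hlt' l h
      rw [hf1 k l hk.le] at hb
      obtain ⟨i, hi, hi'⟩ := (c k).cont l hk.le hlim b hb
      refine ⟨i, hi, ?_⟩
      rw [hf1 k i (hi.le.trans hk.le)]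
      exact hi'
    · rw [h, hf2] at hb
      obtain ⟨k, hk⟩ := hcof b hb
      refine ⟨(c k).len, by rw [h]; exact hlt k, ?_⟩
      rw [hf1 k _ le_rfl]
      exact hk
  exact ⟨⟨δ, f, hδd.trans_lt hdw, hf3, mem, mono, cont⟩,
    fun k => SPssp_lec.mpr ⟨(hlt k).le, fun i hi => hf1 k i hi⟩, hf2, hlt', hlt, hδd⟩

private theorem SPssp_fin {X : Type v} (Q : Finset X) (K : X → Ordinal.{u} → Prop)
    {g : Ordinal.{u}} (hg : 0 < g) (hK : ∀ e ∈ Q, ∃ y < g, K e y)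
    (hmono : ∀ e ∈ Q, ∀ y z, y ≤ z → z < g → K e y → K e z) : ∃ y < g, ∀ e ∈ Q, K e y := by
  classical
  induction Q using Finset.induction_on with
  | empty => exact ⟨0, hg, by simp⟩
  | insert e Q he ih =>
    obtain ⟨y, hy, hy'⟩ := ih (fun e' he' => hK e' (Finset.mem_insert_of_mem he'))
      (fun e' he' => hmono e' (Finset.mem_insert_of_mem he'))
    obtain ⟨z, hz, hz'⟩ := hK e (Finset.mem_insert_self e Q)
    refine ⟨max y z, max_lt hy hz, fun e' he' => ?_⟩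
    rcases Finset.mem_insert.mp he' with rfl | h
    · exact hmono _ he' z _ (le_max_right _ _) (max_lt hy hz) hz'
    · exact hmono _ he' y _ (le_max_left _ _) (max_lt hy hz) (hy' e' h)

private theorem SPssp_countable {d : Ordinal.{u}} (hd : d < w1) : (Set.Iio d).Countable := by
  rw [← Cardinal.le_aleph0_iff_set_countable, Cardinal.mk_Iio_ordinal]
  have h1 : d.card < ℵ₁ := Cardinal.lt_ord.mp hd
  have h2 : d.card ≤ ℵ₀ := by
    rw [← Order.lt_succ_iff, Cardinal.succ_aleph0]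
    exact h1
  exact Cardinal.lift_le_aleph0.mpr h2

/-- the final argument -/
private theorem SPssp_generic {μ : Cardinal.{u}} {D : Ordinal.{u} → Set (SPp S R)}
    {h : SPp S R → Ordinal.{u} → Ordinal.{u}} {p : SPp S R} {N : Set (SPp S R)}
    {G0 : Set Ordinal.{u}} {d g : Ordinal.{u}} (hM : SPssp_Mod μ D h p N G0 d g) (hgS : g ∈ S)
    (hdw : d < w1) (hd0 : 0 < d) (hG0 : G0.Countable) (hG0g : ∀ b < g, ∃ γ ∈ G0, b < γ)
    (hG0g' : ∀ γ ∈ G0, γ < g) (hg0 : 0 < g)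
    (hR1 : ∀ z a b, R z a b → z < a ∧ a < b)
    (hR3 : ∀ z, ∀ a ∈ S, ∀ b ∈ S, ∀ c ∈ S, a < b → R z a c → R z b c → R z a b)
    (hR4 : ∀ z z', ∀ a ∈ S, ∀ b ∈ S, R z a b → z ≤ z' → z' < a → R z' a b)
    (hR6 : ∀ g ∈ S, ∀ b ∈ S, g ≤ b → ∀ z < g, ∃ z', z ≤ z' ∧ z' < g ∧
      ∀ a ∈ S, z' < a → a < g → R z a b → R z' a g)
    (hD : ∀ i, DenseP (D i)) :
    ∃ q ≤ p, ∀ a < d, ∀ r ≤ q, ∃ s ∈ N, s ∈ D a ∧ ∃ t, t ≤ r ∧ t ≤ s := by
  classical
  obtain ⟨γ0, hγ0, -⟩ := hG0g 0 hg0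
  -- the countable set of tasks
  let Tk : Set (Ordinal.{u} × Finset ((Ordinal.{u} × Ordinal.{u}) × ℕ) × Ordinal.{u}) :=
    Set.Iio d ×ˢ ({q : Finset ((Ordinal.{u} × Ordinal.{u}) × ℕ) |
      (q : Set ((Ordinal.{u} × Ordinal.{u}) × ℕ)) ⊆
        (Set.Iio d ×ˢ Set.Iio d) ×ˢ (Set.univ : Set ℕ)} ×ˢ G0)
  have hdc := SPssp_countable hdw
  have hTk : Tk.Countable := by
    refine hdc.prod (Set.Countable.prod ?_ hG0)
    have h1 := Set.countable_ofPred_finite_subset ((hdc.prod hdc).prod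
      (Set.countable_univ (α := ℕ)))
    refine (h1.preimage_of_injOn (f := fun q : Finset ((Ordinal.{u} × Ordinal.{u}) × ℕ) =>
      (q : Set ((Ordinal.{u} × Ordinal.{u}) × ℕ))) Finset.coe_injective.injOn).mono ?_
    intro q hq
    exact ⟨q.finite_toSet, hq⟩
  have hTkn : Tk.Nonempty := ⟨(0, ∅, γ0), hd0, fun e he => absurd he (Finset.notMem_empty e), hγ0⟩
  have : Countable Tk := hTk.to_subtype
  have : Nonempty Tk := hTkn.to_subtype
  obtain ⟨en, hen⟩ := exists_surjective_nat Tk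
  -- the sequence
  let X := {c : SPc S // ∃ s ∈ N, s.toSPc = c}
  have hstep : ∀ (x : X) (τ : Tk), ∃ x' : X, x'.1 ≤ x.1 ∧ x.1.len < x'.1.len ∧
      τ.1.2.2 < x'.1.c x'.1.len ∧ ∀ s : SPp S R, s.toSPc = x.1 → s.q = τ.1.2.1 →
        (∃ s' : SPp S R, s'.q = s.q ∧ x'.1 ≤ s'.toSPc ∧
          ∃ z < g, ¬ SPssp_Phi (D τ.1.1) s' z) ∨
        (∃ r ∈ N, r ∈ D τ.1.1 ∧ r ≤ s ∧ x'.1 ≤ r.toSPc ∧
          ∀ e ∈ r.q, e ∉ s.q → τ.1.2.2 < r.c e.1.2 ∧ ¬ R τ.1.2.2 (r.c e.1.2) g) := by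
    intro x τ
    obtain ⟨c', h1, h2⟩ := SPssp_step hM hgS hR3 x.1 x.2 τ.1.1 τ.2.1 τ.1.2.1 τ.1.2.2 τ.2.2.2
    exact ⟨⟨c', h1⟩, h2⟩
  choose st hst using hstep
  let x : ℕ → X := fun k => Nat.rec ⟨p.toSPc, p, hM.p, rfl⟩
    (fun k y => st y (en (Nat.unpair k).1)) k
  have hx0 : (x 0).1 = p.toSPc := rfl
  have hx : ∀ k, x (k + 1) = st (x k) (en (Nat.unpair k).1) := fun k => rfl
  have hxle : ∀ k, (x (k + 1)).1 ≤ (x k).1 := fun k => by rw [hx]; exact (hst _ _).1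
  have hxlen : ∀ k, (x k).1.len < (x (k + 1)).1.len := fun k => by
    rw [hx]; exact (hst _ _).2.1
  have hxN : ∀ k, ∃ s ∈ N, s.toSPc = (x k).1 := fun k => (x k).2
  have hxtop : ∀ k, (x k).1.c (x k).1.len < g := by
    intro k
    obtain ⟨s, hs, hs'⟩ := hxN k
    rw [← hs']
    exact hM.top s hs
  have hxd : ∀ k, (x k).1.len < d := by
    intro k
    obtain ⟨s, hs, hs'⟩ := hxN k
    rw [← hs']
    exact hM.len s hs
  have hxcof : ∀ b < g, ∃ k, b < (x k).1.c (x k).1.len := by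
    intro b hb
    obtain ⟨γ, hγ, hbγ⟩ := hG0g b hb
    have hτ : ((0 : Ordinal.{u}), (∅ : Finset ((Ordinal.{u} × Ordinal.{u}) × ℕ)), γ) ∈ Tk :=
      ⟨hd0, fun e he => absurd he (Finset.notMem_empty e), hγ⟩
    obtain ⟨n, hn⟩ := hen ⟨_, hτ⟩
    refine ⟨Nat.pair n 0 + 1, hbγ.trans ?_⟩
    have h1 := (hst (x (Nat.pair n 0)) (en n)).2.2.1
    have h2 : x (Nat.pair n 0 + 1) = st (x (Nat.pair n 0)) (en n) := by
      rw [hx, Nat.unpair_pair]
    rw [h2]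
    rw [hn] at h1 ⊢
    exact h1
  obtain ⟨cs, hcs, hcsg, hcs1, hcs2, hcsd⟩ := SPssp_union hgS (fun k => (x k).1) hxle hxlen hxtop
    hxcof hxd hdw
  have hcsp : cs ≤ p.toSPc := hcs 0
  refine ⟨SPssp_mk cs p hcsp, ⟨hcsp, subset_rfl⟩, ?_⟩
  intro a ha r hr
  obtain ⟨r₁, hr₁, hr₁D⟩ := hD a r
  have hr₁cs : r₁.toSPc ≤ cs := (SPssp_le.mp (hr₁.trans hr)).1
  have hr₁g : r₁.c cs.len = g := by
    rw [(SPssp_lec.mp hr₁cs).2 _ le_rfl, hcsg]
  have hr₁len : cs.len ≤ r₁.len := (SPssp_lec.mp hr₁cs).1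
  have hbig : ∀ i, cs.len ≤ i → i ≤ r₁.len → g ≤ r₁.c i := by
    intro i hi hi'
    rcases hi.lt_or_eq with h1 | h1
    · rw [← hr₁g]
      exact (r₁.mono _ _ h1 hi').le
    · rw [← h1, hr₁g]
  have hsm : ∀ i, i < cs.len → r₁.c i < g := by
    intro i hi
    rw [← hr₁g]
    exact r₁.mono _ _ hi hr₁len
  let q := r₁.q.filter (fun e => e.1.2 < cs.len)
  have hq : ∀ e, e ∈ q ↔ e ∈ r₁.q ∧ e.1.2 < cs.len := fun e => Finset.mem_filter
  -- the bound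
  have hγ : ∃ γ ∈ G0, ∀ e ∈ r₁.q, e.1.1 < cs.len → cs.len ≤ e.1.2 → ∀ α ∈ S, γ < α → α < g →
      R (r₁.c e.1.1) α (r₁.c e.1.2) → R γ α g := by
    have hmono : ∀ e ∈ r₁.q, ∀ y z, y ≤ z → z < g →
        (e.1.1 < cs.len → cs.len ≤ e.1.2 → ∀ α ∈ S, y < α → α < g →
          R (r₁.c e.1.1) α (r₁.c e.1.2) → R y α g) →
        (e.1.1 < cs.len → cs.len ≤ e.1.2 → ∀ α ∈ S, z < α → α < g →
          R (r₁.c e.1.1) α (r₁.c e.1.2) → R z α g) := by
      intro e he y z hyz hz hy h1 h2 α hα hzα hαg hR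
      exact hR4 y z α hα g hgS (hy h1 h2 α hα (hyz.trans_lt hzα) hαg hR) hyz hzα
    obtain ⟨y, hy, hy'⟩ := SPssp_fin r₁.q (fun e y => e.1.1 < cs.len → cs.len ≤ e.1.2 →
      ∀ α ∈ S, y < α → α < g → R (r₁.c e.1.1) α (r₁.c e.1.2) → R y α g) hg0 (by
        intro e he
        by_cases h1 : e.1.1 < cs.len ∧ cs.len ≤ e.1.2
        · obtain ⟨z', -, h3, h4⟩ := hR6 g hgS (r₁.c e.1.2) (r₁.mem _ (r₁.dom e he).2)
            (hbig _ h1.2 (r₁.dom e he).2) (r₁.c e.1.1) (hsm _ h1.1)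
          exact ⟨z', h3, fun _ _ => h4⟩
        · exact ⟨0, hg0, fun h2 h3 => (h1 ⟨h2, h3⟩).elim⟩) hmono
    obtain ⟨γ, hγ, hyγ⟩ := hG0g y hy
    exact ⟨γ, hγ, fun e he => hmono e he y γ hyγ.le (hG0g' γ hγ) (hy' e he)⟩
  obtain ⟨γ, hγ, hγ'⟩ := hγ
  -- the stage
  have hqd : ∀ e ∈ q, e.1.1 < d ∧ e.1.2 < d := by
    intro e he
    have h1 := (hq e).mp he
    have h2 : e.1.2 < d := h1.2.trans_le hcsd
    exact ⟨(r₁.dom e h1.1).1.trans h2, h2⟩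
  have hτ : (a, q, γ) ∈ Tk := ⟨ha, fun e he => ⟨hqd e he, Set.mem_univ _⟩, hγ⟩
  have hK : ∃ K, ∀ e ∈ q, e.1.2 ≤ (x K).1.len := by
    have hxm : ∀ m n, m ≤ n → (x m).1.len ≤ (x n).1.len := by
      intro m n hmn
      induction hmn with
      | refl => exact le_rfl
      | step _ ih => exact ih.trans (hxlen _).le
    have key : ∀ Q : Finset ((Ordinal.{u} × Ordinal.{u}) × ℕ), Q ⊆ q →
        ∃ K, ∀ e ∈ Q, e.1.2 ≤ (x K).1.len := by
      intro Q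
      induction Q using Finset.induction_on with
      | empty => exact fun _ => ⟨0, by simp⟩
      | insert e Q he ih =>
        intro hQ
        obtain ⟨K, hK⟩ := ih ((Finset.subset_insert e Q).trans hQ)
        obtain ⟨K', hK'⟩ := hcs1 _ ((hq e).mp (hQ (Finset.mem_insert_self e Q))).2
        refine ⟨max K K', fun e' he' => ?_⟩
        rcases Finset.mem_insert.mp he' with rfl | h1
        · exact hK'.le.trans (hxm _ _ (le_max_right _ _))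
        · exact (hK e' h1).trans (hxm _ _ (le_max_left _ _))
    exact key q subset_rfl
  obtain ⟨K, hK⟩ := hK
  obtain ⟨n, hn⟩ := hen ⟨_, hτ⟩
  obtain ⟨k, hk⟩ : ∃ k, k = Nat.pair n K := ⟨_, rfl⟩
  have hKk : K ≤ k := by
    rw [hk]
    exact Nat.right_le_pair n K
  have hxm : ∀ m n, m ≤ n → (x m).1.len ≤ (x n).1.len := by
    intro m n hmn
    induction hmn with
    | refl => exact le_rfl
    | step _ ih => exact ih.trans (hxlen _).le
  have hqk : ∀ e ∈ q, e.1.2 ≤ (x k).1.len := fun e he => (hK e he).trans (hxm _ _ hKk)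
  have hagr : ∀ i ≤ (x k).1.len, r₁.c i = (x k).1.c i := by
    intro i hi
    exact (SPssp_lec.mp (hr₁cs.trans (hcs k))).2 i hi
  let s : SPp S R :=
    { toSPc := (x k).1
      q := q
      fn := fun e he e' he' => r₁.fn e ((hq e).mp he).1 e' ((hq e').mp he').1
      dom := fun e he => ⟨(r₁.dom e ((hq e).mp he).1).1, hqk e he⟩
      good := by
        intro e he e' he' h1 h2
        have h3 := (r₁.dom e ((hq e).mp he).1).1
        rw [← hagr _ (h3.le.trans (hqk e he)), ← hagr _ (hqk e he), ← hagr _ (hqk e' he')] at h2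
        exact r₁.good e ((hq e).mp he).1 e' ((hq e').mp he').1 h1 h2 }
  have hxk : x (k + 1) = st (x k) ⟨_, hτ⟩ := by
    rw [hx, hk, Nat.unpair_pair, ← hn]
  have hcase := (hst (x k) ⟨_, hτ⟩).2.2.2 s rfl rfl
  rw [← hxk] at hcase
  rcases hcase with ⟨s', hs'q, hs'c, z, hz, hs'z⟩ | ⟨r₂, hr₂N, hr₂D, hr₂s, hr₂c, hr₂⟩
  · exfalso
    refine hs'z ⟨r₁, hr₁D, ⟨(hr₁cs.trans (hcs (k + 1))).trans hs'c, ?_⟩, ?_⟩
    · rw [hs'q]
      exact fun e he => ((hq e).mp he).1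
    · intro e he he'
      rw [hs'q] at he'
      have h1 : cs.len ≤ e.1.2 := by
        by_contra hcon
        exact he' ((hq e).mpr ⟨he, not_le.mp hcon⟩)
      exact hz.trans_le (hbig _ h1 (r₁.dom e he).2)
  · have hr₁r₂ : r₁.toSPc ≤ r₂.toSPc := (hr₁cs.trans (hcs (k + 1))).trans hr₂c
    have hr₂len : r₂.len < cs.len := (SPssp_lec.mp hr₂c).1.trans_lt (hcs2 (k + 1))
    have hagr₂ : ∀ i ≤ r₂.len, r₁.c i = r₂.c i := (SPssp_lec.mp hr₁r₂).2
    have hqr₂ : q ⊆ r₂.q := (SPssp_le.mp hr₂s).2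
    have hgood₂ : ∀ e ∈ r₂.q, ∀ e' ∈ r₂.q, e.1.1 = e'.1.1 →
        R (r₁.c e.1.1) (r₁.c e.1.2) (r₁.c e'.1.2) → e.2 ≠ e'.2 := by
      intro e he e' he' h1 h2
      obtain ⟨h3, h4⟩ := r₂.dom e he
      obtain ⟨h5, h6⟩ := r₂.dom e' he'
      rw [hagr₂ _ (h3.le.trans h4), hagr₂ _ h4, hagr₂ _ h6] at h2
      exact r₂.good e he e' he' h1 h2
    let t : SPp S R :=
      { toSPc := r₁.toSPc
        q := r₂.q ∪ r₁.q
        fn := by
          intro e he e' he' h1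
          rcases Finset.mem_union.mp he with h2 | h2
          · rcases Finset.mem_union.mp he' with h3 | h3
            · exact r₂.fn e h2 e' h3 h1
            · have h4 : e' ∈ q := (hq e').mpr ⟨h3, by
                rw [← h1]
                exact (r₂.dom e h2).2.trans_lt hr₂len⟩
              exact r₂.fn e h2 e' (hqr₂ h4) h1
          · rcases Finset.mem_union.mp he' with h3 | h3
            · have h4 : e ∈ q := (hq e).mpr ⟨h2, by
                rw [h1]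
                exact (r₂.dom e' h3).2.trans_lt hr₂len⟩
              exact r₂.fn e (hqr₂ h4) e' h3 h1
            · exact r₁.fn e h2 e' h3 h1
        dom := by
          intro e he
          rcases Finset.mem_union.mp he with h2 | h2
          · exact ⟨(r₂.dom e h2).1, (r₂.dom e h2).2.trans (SPssp_lec.mp hr₁r₂).1⟩
          · exact r₁.dom e h2
        good := by
          intro e he e' he' h1 hR
          rcases Finset.mem_union.mp he with h2 | h2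
          · rcases Finset.mem_union.mp he' with h3 | h3
            · exact hgood₂ e h2 e' h3 h1 hR
            · by_cases h4 : e ∈ q
              · exact r₁.good e ((hq e).mp h4).1 e' h3 h1 hR
              · by_cases h5 : e'.1.2 < cs.len
                · exact hgood₂ e h2 e' (hqr₂ ((hq e').mpr ⟨h3, h5⟩)) h1 hR
                · exfalso
                  obtain ⟨h6, h7⟩ := r₂.dom e h2
                  obtain ⟨h8, h9⟩ := hr₂ e h2 h4
                  rw [h1] at hR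
                  have h10 := hγ' e' h3 (by
                    rw [← h1]
                    exact (h6.trans_le h7).trans hr₂len) (not_lt.mp h5) (r₁.c e.1.2)
                    (by rw [hagr₂ _ h7]; exact r₂.mem _ h7)
                    (by rw [hagr₂ _ h7]; exact h8) (hsm _ (h7.trans_lt hr₂len)) hR
                  rw [hagr₂ _ h7] at h10
                  exact h9 h10
          · rcases Finset.mem_union.mp he' with h3 | h3
            · by_cases h4 : e' ∈ q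
              · exact r₁.good e h2 e' ((hq e').mp h4).1 h1 hR
              · by_cases h5 : e.1.2 < cs.len
                · exact hgood₂ e (hqr₂ ((hq e).mpr ⟨h2, h5⟩)) e' h3 h1 hR
                · exfalso
                  have h6 := (hR1 _ _ _ hR).2
                  have h7 := hbig _ (not_lt.mp h5) (r₁.dom e h2).2
                  have h8 := hsm _ ((r₂.dom e' h3).2.trans_lt hr₂len)
                  exact absurd (h7.trans_lt h6) (not_lt.mpr h8.le)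
            · exact r₁.good e h2 e' h3 h1 hR }
    refine ⟨r₂, hr₂N, hr₂D, t, ?_, ?_⟩
    · exact le_trans (SPssp_le.mpr ⟨le_rfl, Finset.subset_union_right⟩ : t ≤ r₁) hr₁
    · exact SPssp_le.mpr ⟨hr₁r₂, Finset.subset_union_left⟩

end Cond

theorem thm_SPssp (hG : St_G.{u}) (hCC : St_CCex2.{u, u + 1}) (hdist : St_SPdist.{u})
    (hSSP : St_SSPc.{u, u + 1}) (hClub : St_Club.{u}) : St_SPssp.{u} := by
  intro μ S R hμ hμ1 hS hS1 hR1 hR2 hR3 hR4 hR5 hR6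
  refine hSSP (SPp S R) ?_
  intro D h S' p hD hDo hh hS'
  obtain ⟨M, hMc, hM, ⟨d, hdS, hdw, hdl, hdM⟩, g, hgS, hgμ, hgM, hgc⟩ :=
    hCC (Ordinal.{u} ⊕ SPp S R) (SPssp_Cl μ D h p) Sum.inl Sum.inl μ S' S
      Sum.inl_injective.injOn Sum.inl_injective.injOn hμ hμ1 hS' hS
      (fun a ha => (hS1 a ha).2) (SPssp_club μ D h p)
  have hMod := SPssp_mod hG hClub μ hμ hμ1 (fun a ha => (hS1 a ha).1) hR3 hR5
    (hdist μ S hμ hμ1 hS hS1).1 D h hh p M hM d hdw hdl hdM g hgM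
  refine ⟨{s | Sum.inr s ∈ M}, d, hdS, hdw, hdl, hMod.h, ?_⟩
  refine SPssp_generic hMod hgS hdw hdl.bot_lt ?_ ?_ ?_ ((hS1 g hgS).2.1.bot_lt) hR1 hR3 hR4 hR6 hD
  · refine (hMc.preimage_of_injOn (f := (Sum.inl : Ordinal.{u} → Ordinal.{u} ⊕ SPp S R))
      Sum.inl_injective.injOn).mono ?_
    exact fun z hz => hz.2
  · intro b hb
    obtain ⟨a, hba, hag, ha⟩ := hgc b hb
    exact ⟨a, ⟨hag.trans hgμ, ha⟩, hba⟩
  · exact fun γ hγ => hgM γ hγ.1 hγ.2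

end Pool.Agent.HCO
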