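import Pool.Agent.HCO.St4

set_option autoImplicit false

open Set Topology Cardinal Ordinal Order Filter

universe u v w

namespace Pool.Agent.HCO

theorem thm_SSPT (h1 : St_SSPc.{u, v}) (h2 : St_CCex.{u, w}) : St_SSPT.{u, v, w} := by
  intro P _ T i e hi he H
  refine h1 P fun D h S p hD hopen hh hS => ?_
  obtain ⟨F0, hF0c, hF0⟩ := H D hD hopen
  let G : List T → Set T := fun l => {y | ∃ s a, l = [i s, e a] ∧ a < w1 ∧ y = e (h s a)}
  have hG : ∀ l, (G l).Subsingleton := by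
    rintro l y ⟨s, a, hl, ha, rfl⟩ y' ⟨s', a', hl', ha', rfl⟩
    have h3 := hl.symm.trans hl'
    simp only [List.cons.injEq, and_true] at h3
    have h4 : s = s' := hi h3.1
    have h5 : a = a' := he ha ha' h3.2
    rw [h4, h5]
  have hA : ClubC T (fun M => (∀ d < w1, IsSuccLimit d → (∀ a < w1, (e a ∈ M ↔ a < d)) →
        ∀ p, i p ∈ M → ∃ q ≤ p, ∀ a < d, ∀ r ≤ q, ∃ s, i s ∈ M ∧ s ∈ D a ∧
          ∃ t, t ≤ r ∧ t ≤ s) ∧ i p ∈ M ∧
        ∀ s a, i s ∈ M → a < w1 → e a ∈ M → e (h s a) ∈ M) := by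
    refine ⟨fun l => F0 l ∪ {i p} ∪ G l, fun l => ?_, fun M hM hcl => ⟨?_, ?_, ?_⟩⟩
    · exact ((hF0c l).union (Set.countable_singleton _)).union (hG l).countable
    · refine hF0 M hM fun l hl => ?_
      exact (subset_union_left.trans subset_union_left).trans (hcl l hl)
    · exact hcl [] (by simp) (Or.inl (Or.inr rfl))
    · intro s a hs ha hea
      refine hcl [i s, e a] (by simp [hs, hea]) (Or.inr ⟨s, a, rfl, ha, rfl⟩)
  obtain ⟨M, hM, ⟨hAM, hpM, hcl⟩, d, hdS, hd1, hdl, hd⟩ := h2 T _ e S he hS hA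
  refine ⟨{s | i s ∈ M}, d, hdS, hd1, hdl, fun s hs a ha => ?_, ?_⟩
  · exact (hd _ (hh s a)).1 (hcl s a hs (ha.trans hd1) ((hd a (ha.trans hd1)).2 ha))
  · obtain ⟨q, hq, hq2⟩ := hAM d hd1 hdl hd p hpM
    exact ⟨q, hq, fun a ha r hr => hq2 a ha r hr⟩

end Pool.Agent.HCO
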