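import Pool.Agent.HCO.St4

set_option autoImplicit false

open Set Topology Cardinal Ordinal Order Filter

universe u v w

namespace Pool.Agent.HCO

theorem thm_Scat : St_Scat.{u} := by
  intro X _ _ _ h
  have hs : Scat X := by
    intro F hF hne
    by_cases hfin : F.Finite
    · obtain ⟨z, hz⟩ := hne
      refine ⟨z, hz, ?_⟩
      intro hacc
      rw [accPt_iff_nhds] at hacc
      have hfin2 : (F \ {z}).Finite := hfin.subset sdiff_subset
      have hop : IsOpen (F \ {z})ᶜ := hfin2.isClosed.isOpen_compl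
      obtain ⟨y, hy, hyz⟩ := hacc _ (hop.mem_nhds (by simp))
      exact hy.1 ⟨hy.2, hyz⟩
    · obtain ⟨z, hz⟩ := hne
      obtain ⟨U, hU, ⟨e⟩⟩ := h F hF hfin {⟨z, hz⟩} isClosed_singleton
      have hu : ∀ v ∈ U, v = (e ⟨⟨z, hz⟩, rfl⟩ : U).1 := by
        intro v hv
        have h1 : (⟨v, hv⟩ : U) = e (e.symm ⟨v, hv⟩) := by simp
        have h2 : e.symm ⟨v, hv⟩ = ⟨⟨z, hz⟩, rfl⟩ := Subtype.ext (e.symm ⟨v, hv⟩).2
        rw [h2] at h1
        exact congrArg Subtype.val h1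
      obtain ⟨O, hO, hOU⟩ := isOpen_induced_iff.1 hU.isOpen
      refine ⟨(e ⟨⟨z, hz⟩, rfl⟩ : U).1.1, (e ⟨⟨z, hz⟩, rfl⟩ : U).1.2, ?_⟩
      intro hacc
      rw [accPt_iff_nhds] at hacc
      have hmem : (e ⟨⟨z, hz⟩, rfl⟩ : U).1.1 ∈ O := by
        have h5 : U ⊆ Subtype.val ⁻¹' O := hOU.symm.subset
        exact h5 (e ⟨⟨z, hz⟩, rfl⟩ : U).2
      obtain ⟨y, hy, hyz⟩ := hacc _ (hO.mem_nhds hmem)
      apply hyz
      have h3 : (⟨y, hy.2⟩ : F) ∈ U := by
        rw [← hOU]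
        exact hy.1
      exact congrArg Subtype.val (hu _ h3)
  refine ⟨hs, ⟨?_⟩⟩
  intro t _ ht
  have hcl : IsPreconnected (closure t) := ht.closure
  rcases t.eq_empty_or_nonempty with rfl | hne
  · exact subsingleton_empty
  obtain ⟨z, hz, hacc⟩ := hs (closure t) isClosed_closure (hne.mono subset_closure)
  rw [accPt_iff_nhds] at hacc
  push Not at hacc
  obtain ⟨N, hN, hNz⟩ := hacc
  obtain ⟨O, hON, hO, hzO⟩ := mem_nhds_iff.1 hN
  have hsub : closure t ⊆ {z} := by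
    intro y hy
    by_contra hyz
    obtain ⟨w, hw1, hw2, hw3⟩ := hcl O {z}ᶜ hO isOpen_compl_singleton
      (by
        intro w hw
        by_cases hwz : w = z
        · left
          rw [hwz]
          exact hzO
        · right
          exact hwz)
      ⟨z, hz, hzO⟩ ⟨y, hy, hyz⟩
    exact hw3 (hNz w ⟨hON hw2, hw1⟩)
  exact (subsingleton_singleton.anti hsub).anti subset_closure

end Pool.Agent.HCO
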