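import Pool.Agent.HCO.St4

/-!
# Small: closed sets missing `x` have small rank and small size
-/

set_option autoImplicit false

universe u v w

open Set Topology Cardinal Ordinal Order Filter

namespace Pool.Agent.HCO

/-- a closed set missing `x` is contained in a clopen set missing `x` -/
private theorem Small_clopen {X : Type u} [TopologicalSpace X] [CompactSpace X] [T2Space X]
    [TotallyDisconnectedSpace X] (x : X) (A : Set X) (hA : IsClosed A) (hx : x ∉ A) :
    ∃ K : Set X, IsClopen K ∧ A ⊆ K ∧ x ∉ K := by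
  obtain ⟨V, hV, hxV, hVA⟩ := compact_exists_isClopen_in_isOpen hA.isOpen_compl hx
  exact ⟨Vᶜ, hV.compl, fun z hz hzV => hVA hzV hz, fun h => h hxV⟩

theorem thm_Small (hD : St_Der.{u}) (hS : St_OSize.{u}) (hZ : St_Z1.{u}) : St_Small.{u} := by
  intro X _ _ _ _ x r hM A hA hx
  obtain ⟨K, hK, hAK, hxK⟩ := Small_clopen x A hA hx
  have hr : IsSuccLimit r := Ordinal.aleph0_le_cof.1 (hZ X x r hM).le
  have hin : ∀ s, der K s = der (univ : Set X) s ∩ K := by
    intro s
    have := hD.inter X univ K s hK.isOpen
    rwa [univ_inter] at this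
  have hKr : der K r = ∅ := by
    rw [hin, hM.top]
    ext z
    simp only [mem_inter_iff, mem_singleton_iff, mem_empty_iff_false, iff_false, not_and]
    rintro rfl
    exact hxK
  obtain ⟨s, hs, hse⟩ := hD.compact X K r hK.isClosed hr hKr
  have hord : IsOrd K := hM.small K hK.isClosed (by rw [hKr]; exact notMem_empty _)
  refine ⟨s, hs, fun z hz hzs => ?_,
    (Cardinal.mk_le_mk_of_subset hAK).trans (hS X K s hK.isClosed hord hse)⟩
  have h := hin s
  rw [hse] at h
  have : z ∈ (∅ : Set X) := by rw [h]; exact ⟨hzs, hAK hz⟩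
  exact this

end Pool.Agent.HCO
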