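import Pool.Agent.HCO.St4

/-!
# HCO [Szm]
-/

set_option autoImplicit false

open Set Topology Cardinal Ordinal Order Filter

universe u v w

namespace Pool.Agent.HCO

private theorem szm_Iic {c : Ordinal.{u}} (hc : c < w1) : (Iic c).Countable := by
  have h1 : c.card < ℵ₁ := Cardinal.lt_ord.1 hc
  have h2 : c.card ≤ ℵ₀ := by
    rw [← Order.lt_succ_iff, succ_aleph0]
    exact h1
  have h3 : (Iio c).Countable := by
    rw [← Cardinal.le_aleph0_iff_set_countable, Cardinal.mk_Iio_ordinal, Cardinal.lift_le_aleph0]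
    exact h2
  have h4 : Iic c = insert c (Iio c) := by
    ext x
    simp only [mem_Iic, mem_insert_iff, mem_Iio]
    exact le_iff_eq_or_lt
  rw [h4]
  exact h3.insert c

private theorem szm_Iio : ¬ (Iio (w1.{u})).Countable := by
  intro h
  rw [← Cardinal.le_aleph0_iff_set_countable, Cardinal.mk_Iio_ordinal, Cardinal.lift_le_aleph0]
    at h
  unfold w1 at h
  rw [Cardinal.card_ord] at h
  exact absurd h (not_le.2 Cardinal.aleph0_lt_aleph_one)

/-- countably many countable ordinals are exceeded by a member of an uncountable set -/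
private theorem szm_above {I : Set Ordinal.{u}} (hI : ¬ I.Countable) {T : Type v} (A : Set T)
    (hA : A.Countable) (j : T → Ordinal.{u}) (hj : ∀ t ∈ A, j t < w1) :
    ∃ i ∈ I, ∀ t ∈ A, j t < i := by
  by_contra hcon
  push Not at hcon
  apply hI
  have h1 : (⋃ t ∈ A, Iic (j t)).Countable := hA.biUnion fun t ht => szm_Iic (hj t ht)
  refine h1.mono fun i hi => ?_
  obtain ⟨t, ht, hti⟩ := hcon i hi
  exact mem_biUnion ht hti

section

variable {X : Type u} [TopologicalSpace X] (y : Ordinal.{u} → X) (V : Ordinal.{u} → Set X)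

/-- the poset of finite relatively discrete sets -/
private def SzmP : Type (u + 1) :=
  {p : Finset Ordinal.{u} // (∀ a ∈ p, a < w1) ∧ ∀ a ∈ p, ∀ b ∈ p, a < b → y a ∉ V b}

private instance szm_pre : Preorder (SzmP y V) where
  le p q := q.1 ⊆ p.1
  le_refl _ := Finset.Subset.refl _
  le_trans _ _ _ h h' := Finset.Subset.trans h' h

private instance szm_small : Small.{u} (SzmP y V) := by
  refine small_of_injective
    (f := fun p : SzmP y V => ({x : Iio w1.{u} | x.1 ∈ p.1} : Set (Iio w1.{u}))) ?_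
  intro p q h
  apply Subtype.ext
  ext a
  constructor
  · intro ha
    have h1 : (⟨a, p.2.1 a ha⟩ : Iio w1.{u}) ∈ ({x : Iio w1.{u} | x.1 ∈ p.1} : Set _) := ha
    have h2 : ({x : Iio w1.{u} | x.1 ∈ p.1} : Set (Iio w1.{u})) = {x | x.1 ∈ q.1} := h
    rw [h2] at h1
    exact h1
  · intro ha
    have h1 : (⟨a, q.2.1 a ha⟩ : Iio w1.{u}) ∈ ({x : Iio w1.{u} | x.1 ∈ q.1} : Set _) := ha
    have h2 : ({x : Iio w1.{u} | x.1 ∈ p.1} : Set (Iio w1.{u})) = {x | x.1 ∈ q.1} := h
    rw [← h2] at h1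
    exact h1

end

/-- the topological core -/
private theorem szm_core {X : Type u} [TopologicalSpace X] [CompactSpace X] [T2Space X]
    (k : ℕ) (hCT : CTp (Fin k → X)) (I : Set Ordinal.{u}) (hI : I ⊆ Iio w1)
    (hIu : ¬ I.Countable) (z : Ordinal.{u} → Fin k → X) (W : Ordinal.{u} → Set (Fin k → X))
    (hW : ∀ j ∈ I, IsClopen (W j)) (h1 : ∀ i ∈ I, ∀ j ∈ I, i < j → z i ∈ W j)
    (h2 : ∀ j ∈ I, ∀ m ∈ I, j < m → z m ∉ W j) : False := by
  have habove : ∀ c < w1, ∃ i ∈ I, c < i := by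
    intro c hc
    obtain ⟨i, hi, h⟩ := szm_above hIu ({()} : Set Unit) (countable_singleton _)
      (fun _ => c) (fun _ _ => hc)
    exact ⟨i, hi, h () rfl⟩
  let F : Set (Fin k → X) := {u | ∃ j ∈ I, u ∈ closure (z '' {i | i ∈ I ∧ i < j})}
  have hF : IsClosed F := by
    apply hCT
    intro A hAF hA
    choose! j hj using hAF
    obtain ⟨j', hj', hjj⟩ := szm_above hIu A hA j fun t ht => hI (hj ht).1
    intro u hu
    refine ⟨j', hj', ?_⟩
    refine closure_minimal ?_ isClosed_closure hu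
    intro t ht
    refine closure_mono ?_ (hj ht).2
    refine image_mono ?_
    rintro i ⟨hi, hij⟩
    exact ⟨hi, hij.trans (hjj t ht)⟩
  have hzF : ∀ i ∈ I, z i ∈ F := by
    intro i hi
    obtain ⟨j, hj, hij⟩ := habove i (hI hi)
    exact ⟨j, hj, subset_closure ⟨i, ⟨hi, hij⟩, rfl⟩⟩
  have hne : (⋂ j : I, closure (z '' {m | m ∈ I ∧ j.1 < m})).Nonempty := by
    have hIne : Nonempty I := by
      by_contra hcon
      rw [not_nonempty_iff, isEmpty_coe_sort] at hcon
      exact hIu (by rw [hcon]; exact countable_empty)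
    apply IsCompact.nonempty_iInter_of_directed_nonempty_isCompact_isClosed
    · intro j j'
      refine ⟨⟨max j.1 j'.1, ?_⟩, ?_, ?_⟩
      · rcases le_total j.1 j'.1 with h | h
        · rw [max_eq_right h]; exact j'.2
        · rw [max_eq_left h]; exact j.2
      · exact closure_mono (image_mono fun m hm => ⟨hm.1, (le_max_left _ _).trans_lt hm.2⟩)
      · exact closure_mono (image_mono fun m hm => ⟨hm.1, (le_max_right _ _).trans_lt hm.2⟩)
    · intro j
      obtain ⟨m, hm, hjm⟩ := habove j.1 (hI j.2)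
      exact ⟨z m, subset_closure ⟨m, ⟨hm, hjm⟩, rfl⟩⟩
    · intro j
      exact isClosed_closure.isCompact
    · intro j
      exact isClosed_closure
  obtain ⟨u, hu⟩ := hne
  rw [mem_iInter] at hu
  have huF : u ∈ F := by
    have hIne : ∃ j, j ∈ I := by
      by_contra hcon
      push Not at hcon
      apply hIu
      have : I = ∅ := eq_empty_of_forall_notMem hcon
      rw [this]
      exact countable_empty
    obtain ⟨j, hj⟩ := hIne
    refine closure_minimal ?_ hF (hu ⟨j, hj⟩)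
    rintro _ ⟨m, hm, rfl⟩
    exact hzF m hm.1
  obtain ⟨j, hj, huj⟩ := huF
  have h3 : u ∈ W j := by
    refine closure_minimal ?_ (hW j hj).isClosed huj
    rintro _ ⟨i, hi, rfl⟩
    exact h1 i hi.1 j hj hi.2
  have h4 : u ∈ (W j)ᶜ := by
    refine closure_minimal ?_ (hW j hj).compl.isClosed (hu ⟨j, hj⟩)
    rintro _ ⟨m, hm, rfl⟩
    exact h2 j hj m hm.1 hm.2
  exact h4 h3

private theorem szm_ccc (hD : St_Delta.{u}) {X : Type u} [TopologicalSpace X] [CompactSpace X]
    [T2Space X] (hCT : ∀ n : ℕ, CTp (Fin n → X)) (y : Ordinal.{u} → X) (V : Ordinal.{u} → Set X)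
    (hV : ∀ a < w1, IsClopen (V a) ∧ y a ∈ V a) (hr : ∀ a b, a < b → b < w1 → y b ∉ V a) :
    Ccc.{u, u + 1} (SzmP y V) := by
  classical
  intro f
  by_contra hcon
  push Not at hcon
  obtain ⟨I, r, n, hI, hIu, hIr, hIlt⟩ := hD (fun a => (f a).1) (fun a _ => (f a).2.1)
  -- incompatibility
  have hinc : ∀ i ∈ I, ∀ j ∈ I, i < j →
      ∃ a ∈ (f i).1 \ r, ∃ b ∈ (f j).1 \ r, y a ∈ V b := by
    intro i hi j hj hij
    by_contra hno
    push Not at hno
    have hcond : (∀ a ∈ (f i).1 ∪ (f j).1, a < w1) ∧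
        ∀ a ∈ (f i).1 ∪ (f j).1, ∀ b ∈ (f i).1 ∪ (f j).1, a < b → y a ∉ V b := by
      refine ⟨?_, ?_⟩
      · intro a ha
        rcases Finset.mem_union.1 ha with ha | ha
        · exact (f i).2.1 a ha
        · exact (f j).2.1 a ha
      · intro a ha b hb hab
        by_cases har : a ∈ r
        · rcases Finset.mem_union.1 hb with hb | hb
          · exact (f i).2.2 a ((hIr i hi).1 har) b hb hab
          · exact (f j).2.2 a ((hIr j hj).1 har) b hb hab
        · by_cases hbr : b ∈ r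
          · rcases Finset.mem_union.1 ha with ha | ha
            · exact (f i).2.2 a ha b ((hIr i hi).1 hbr) hab
            · exact (f j).2.2 a ha b ((hIr j hj).1 hbr) hab
          · rcases Finset.mem_union.1 ha with ha | ha
            · rcases Finset.mem_union.1 hb with hb | hb
              · exact (f i).2.2 a ha b hb hab
              · exact hno a (Finset.mem_sdiff.2 ⟨ha, har⟩) b (Finset.mem_sdiff.2 ⟨hb, hbr⟩)
            · rcases Finset.mem_union.1 hb with hb | hb
              · exact absurd (hIlt i hi j hj hij b hb hbr a ha har) (not_lt.2 hab.le)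
              · exact (f j).2.2 a ha b hb hab
    exact hcon i j hij (hI hj) ⟨(f i).1 ∪ (f j).1, hcond⟩ Finset.subset_union_left
      Finset.subset_union_right
  -- enumeration
  have henum : ∀ i ∈ I, ∃ z : Fin (n - r.card) → X, (∀ t, ∃ a ∈ (f i).1 \ r, z t = y a) ∧
      ∀ a ∈ (f i).1 \ r, ∃ t, z t = y a := by
    intro i hi
    have hcard : ((f i).1 \ r).card = n - r.card := by
      rw [Finset.card_sdiff_of_subset (hIr i hi).1, (hIr i hi).2]
    let e := ((f i).1 \ r).equivFinOfCardEq hcard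
    refine ⟨fun t => y (e.symm t).1, fun t => ⟨_, (e.symm t).2, rfl⟩, fun a ha => ⟨e ⟨a, ha⟩, ?_⟩⟩
    simp
  have hXne : Nonempty X := ⟨y 0⟩
  choose! z hz1 hz2 using henum
  have hlt : ∀ i ∈ I, ∀ a ∈ (f i).1 \ r, a < w1 := fun i _ a ha =>
    (f i).2.1 a (Finset.mem_sdiff.1 ha).1
  refine szm_core (n - r.card) (hCT _) I hI hIu z
    (fun j => ⋃ t : Fin (n - r.card), ⋃ b ∈ (f j).1 \ r, (fun u : Fin (n - r.card) → X => u t) ⁻¹' V b)
    ?_ ?_ ?_
  · intro j hj
    refine isClopen_iUnion_of_finite fun t => ?_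
    refine Set.Finite.isClopen_biUnion (Finset.finite_toSet _) fun b hb => ?_
    exact (hV b (hlt j hj b hb)).1.preimage (continuous_apply t)
  · intro i hi j hj hij
    obtain ⟨a, ha, b, hb, hab⟩ := hinc i hi j hj hij
    obtain ⟨t, ht⟩ := hz2 i hi a ha
    simp only [mem_iUnion, mem_preimage]
    refine ⟨t, b, hb, ?_⟩
    rw [ht]
    exact hab
  · intro j hj m hm hjm hmem
    simp only [mem_iUnion, mem_preimage] at hmem
    obtain ⟨t, b, hb, hab⟩ := hmem
    obtain ⟨a, ha, hta⟩ := hz1 m hm t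
    rw [hta] at hab
    have hba : b < a := hIlt j hj m hm hjm b (Finset.mem_sdiff.1 hb).1 (Finset.mem_sdiff.1 hb).2 a
      (Finset.mem_sdiff.1 ha).1 (Finset.mem_sdiff.1 ha).2
    exact hr b a hba (hlt m hm a ha) hab

theorem thm_Szm (hD : St_Delta.{u}) (hC : St_Ccc.{u, u + 1}) : St_Szm.{u} := by
  classical
  intro hMM X _ _ _ hCT y V hV hr
  have hccc := szm_ccc hD hCT y V hV hr
  let f : Ordinal.{u} → SzmP y V := fun a =>
    if h : a < w1 then ⟨{a}, by
      refine ⟨fun b hb => ?_, fun b hb c hc hbc => ?_⟩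
      · rw [Finset.mem_singleton.1 hb]
        exact h
      · rw [Finset.mem_singleton.1 hb, Finset.mem_singleton.1 hc] at hbc
        exact absurd hbc (lt_irrefl _)⟩
    else ⟨∅, by
      refine ⟨fun b hb => absurd hb (Finset.notMem_empty b), fun b hb => absurd hb
        (Finset.notMem_empty b)⟩⟩
  have hf : ∀ a < w1, (f a).1 = {a} := by
    intro a ha
    have h1 : f a = _ := dif_pos ha
    rw [h1]
  obtain ⟨G, hG, -, hGf⟩ := hC hMM (SzmP y V) hccc f (fun _ => univ)
    (fun i _ p => ⟨p, le_rfl, mem_univ p⟩)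
  refine ⟨{a | a < w1 ∧ f a ∈ G}, fun a ha => ha.1, fun hA => ?_, ?_⟩
  · obtain ⟨c, hc, hcA⟩ := szm_above szm_Iio.{u} {a | a < w1 ∧ f a ∈ G} hA id (fun t ht => ht.1)
    obtain ⟨b, hcb, hb, hbG⟩ := hGf c hc
    exact absurd (hcA b ⟨hb, hbG⟩) (not_lt.2 hcb)
  · rintro a ⟨ha, haG⟩ b ⟨hb, hbG⟩ hab
    obtain ⟨r, -, hra, hrb⟩ := hG.2.2 _ haG _ hbG
    have h1 : a ∈ r.1 := hra (by rw [hf a ha]; exact Finset.mem_singleton_self a)
    have h2 : b ∈ r.1 := hrb (by rw [hf b hb]; exact Finset.mem_singleton_self b)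
    exact r.2.2 a h1 b h2 hab

end Pool.Agent.HCO
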