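import Pool.Agent.HCO.St4

/-!
# HCO / TH: thinning out a filtration
-/

set_option autoImplicit false

open Set Topology Cardinal Ordinal Order Filter

universe u v w

namespace Pool.Agent.HCO

/-- a strictly increasing function with `TH_N g (a + 1) ≥ g (TH_N g a)` -/
noncomputable def TH_N (g : Ordinal.{u} → Ordinal.{u}) (a : Ordinal.{u}) : Ordinal.{u} :=
  ⨆ b : Set.Iio a, max (TH_N g b.1 + 1) (g (TH_N g b.1))
termination_by a
decreasing_by all_goals exact b.2

theorem TH_N_le (g : Ordinal.{u} → Ordinal.{u}) {b a : Ordinal.{u}} (h : b < a) :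
    max (TH_N g b + 1) (g (TH_N g b)) ≤ TH_N g a := by
  rw [TH_N.eq_1 g a]
  exact le_ciSup (f := fun b : Set.Iio a => max (TH_N g b.1 + 1) (g (TH_N g b.1)))
    bddAbove_of_small ⟨b, h⟩

theorem TH_N_mono (g : Ordinal.{u} → Ordinal.{u}) : StrictMono (TH_N g) := by
  intro b a h
  exact lt_of_lt_of_le (lt_add_one _) (le_trans (le_max_left _ _) (TH_N_le g h))

theorem TH_N_self (g : Ordinal.{u} → Ordinal.{u}) (a : Ordinal.{u}) : a ≤ TH_N g a := by
  induction a using WellFoundedLT.induction with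
  | _ a ih =>
    by_contra hc
    push Not at hc
    exact absurd (ih _ hc) (not_le.2 (TH_N_mono g hc))

theorem TH_N_lt (hC : St_Club.{u}) (g : Ordinal.{u} → Ordinal.{u}) (μ : Cardinal.{u})
    (hr : μ.IsRegular) (hg : ∀ a < μ.ord, g a < μ.ord) (a : Ordinal.{u}) (ha : a < μ.ord) :
    TH_N g a < μ.ord := by
  have hl : IsSuccLimit μ.ord := Cardinal.isSuccLimit_ord hr.aleph0_le
  induction a using WellFoundedLT.induction with
  | _ a ih =>
    obtain ⟨c, hc, h⟩ := hC.sup μ.ord a (fun b => max (TH_N g b + 1) (g (TH_N g b)))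
      (by rw [hr.cof_ord]; exact Cardinal.lt_ord.1 ha)
      (fun b hb => max_lt (hl.add_one_lt (ih b hb (hb.trans ha)))
        (hg _ (ih b hb (hb.trans ha)))) hl
    refine lt_of_le_of_lt ?_ hc
    rw [TH_N.eq_1 g a]
    exact ciSup_le' fun b => (h b.1 b.2).le

theorem thm_TH (hS : St_Small.{u}) (hC : St_Club.{u}) (hD : St_Der.{u}) : St_TH.{u} := by
  intro X _ _ _ _ x r μ K hm hf
  have hl : IsSuccLimit μ.ord := Cardinal.isSuccLimit_ord hf.reg.aleph0_le
  -- the least rank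
  have hex : ∀ a, a < μ.ord → ∃ s < r, ∀ z ∈ K a, z ∉ der (univ : Set X) s := by
    intro a ha
    obtain ⟨s, hs, h, -⟩ := hS X x r hm (K a) (hf.clopen a ha).1 (hf.notin a ha)
    exact ⟨s, hs, h⟩
  obtain ⟨s, hs⟩ : ∃ s : Ordinal.{u} → Ordinal.{u}, ∀ a, a < μ.ord → s a < r ∧
      (∀ z ∈ K a, z ∉ der (univ : Set X) (s a)) ∧
      ∀ t, (∀ z ∈ K a, z ∉ der (univ : Set X) t) → s a ≤ t := by
    refine ⟨fun a => sInf {t | ∀ z ∈ K a, z ∉ der (univ : Set X) t}, fun a ha => ?_⟩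
    obtain ⟨t, ht, h⟩ := hex a ha
    have hne : {t | ∀ z ∈ K a, z ∉ der (univ : Set X) t}.Nonempty := ⟨t, h⟩
    exact ⟨lt_of_le_of_lt (csInf_le' h) ht, csInf_mem hne, fun t h => csInf_le' h⟩
  have hsm : ∀ a b, a ≤ b → b < μ.ord → s a ≤ s b := by
    intro a b hab hb
    exact (hs a (lt_of_le_of_lt hab hb)).2.2 _ fun z hz =>
      (hs b hb).2.1 z (hf.mono a b hab hb hz)
  have hx : ∀ t < r, AccPt x (𝓟 (der (univ : Set X) t)) := by
    intro t ht
    have : x ∈ der (univ : Set X) r := by rw [hm.top]; rfl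
    exact ((hD.iff X univ r x).1 this).2 t ht
  have hpt : ∀ t < r, ∃ z ∈ der (univ : Set X) t, z ≠ x := by
    intro t ht
    obtain ⟨z, hz, hzx⟩ := (accPt_iff_nhds.1 (hx t ht)) univ univ_mem
    exact ⟨z, hz.2, hzx⟩
  have hcof : ∀ t < r, ∃ a < μ.ord, t < s a := by
    intro t ht
    obtain ⟨z, hz, hzx⟩ := hpt t ht
    obtain ⟨a, ha, hza⟩ := hf.cover z hzx
    refine ⟨a, ha, ?_⟩
    by_contra hc
    push Not at hc
    exact (hs a ha).2.1 z hza (hD.sub X univ _ _ hc hz)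
  -- the next step
  have hg : ∀ a, ∃ d, a < μ.ord → d < μ.ord ∧
      (der (univ : Set X) (s a) ∩ (K d \ K a)).Nonempty := by
    intro a
    by_cases ha : a < μ.ord
    · obtain ⟨z, hz, hzx⟩ := hpt _ (hs a ha).1
      obtain ⟨d, hd, hzd⟩ := hf.cover z hzx
      exact ⟨d, fun _ => ⟨hd, z, hz, hzd, fun h => (hs a ha).2.1 z h hz⟩⟩
    · exact ⟨0, fun h => absurd h ha⟩
  choose g hg using hg
  have hN : ∀ a < μ.ord, TH_N g a < μ.ord :=
    TH_N_lt hC g μ hf.reg (fun a ha => (hg a ha).1)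
  have hstep : ∀ a < μ.ord, (der (univ : Set X) (s (TH_N g a)) ∩
      (K (TH_N g (a + 1)) \ K (TH_N g a))).Nonempty := by
    intro a ha
    obtain ⟨z, hz1, hz2, hz3⟩ := (hg (TH_N g a) (hN a ha)).2
    exact ⟨z, hz1, hf.mono _ _ (le_trans (le_max_right _ _) (TH_N_le g (lt_add_one a)))
      (hN _ (hl.add_one_lt ha)) hz2, hz3⟩
  have hstrict : ∀ a < μ.ord, s (TH_N g a) < s (TH_N g (a + 1)) := by
    intro a ha
    obtain ⟨z, hz1, hz2, hz3⟩ := hstep a ha
    by_contra hc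
    push Not at hc
    exact (hs _ (hN _ (hl.add_one_lt ha))).2.1 z hz2 (hD.sub X univ _ _ hc hz1)
  refine ⟨?_, fun a => K (TH_N g a), ?_⟩
  · -- cofinality
    have hst : StrictMono (fun a : Iio μ.ord => s (TH_N g a.1)) := by
      intro a b hab
      have hab' : a.1 < b.1 := hab
      exact lt_of_lt_of_le (hstrict a.1 a.2) (hsm _ _
        ((TH_N_mono g).monotone (Order.add_one_le_of_lt hab')) (hN _ b.2))
    have h1 := Ordinal.cof_iSup_Iio hst hl.isSuccPrelimit
    have h2 : (⨆ a : Iio μ.ord, s (TH_N g a.1)) = r := by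
      apply le_antisymm
      · exact ciSup_le' fun a => (hs _ (hN _ a.2)).1.le
      · by_contra hc
        push Not at hc
        obtain ⟨a, ha, h⟩ := hcof _ hc
        have h3 : s (TH_N g a) ≤ ⨆ a : Iio μ.ord, s (TH_N g a.1) :=
          le_ciSup (f := fun a : Iio μ.ord => s (TH_N g a.1)) bddAbove_of_small ⟨a, ha⟩
        exact absurd (lt_of_lt_of_le h (hsm _ _ (TH_N_self g a) (hN a ha))) (not_lt.2 h3)
    rw [← h2, h1, hf.reg.cof_ord]
  · refine { clopen := fun a ha => hf.clopen _ (hN a ha), notin := fun a ha => hf.notin _ (hN a ha),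
             mono := fun a b hab hb => hf.mono _ _ ((TH_N_mono g).monotone hab) (hN b hb),
             cl := ?_, reg := hf.reg, unc := hf.unc, cover := ?_, strict := ?_, full := ?_ }
    · intro l hl'
      have : Uu (fun a => K (TH_N g a)) l ⊆ Uu K (TH_N g l) := by
        rintro z ⟨a, ha, hz⟩
        exact ⟨TH_N g a, TH_N_mono g ha, hz⟩
      exact (closure_mono this).trans (hf.cl _ (hN l hl'))
    · intro z hz
      obtain ⟨a, ha, h⟩ := hf.cover z hz
      exact ⟨a, ha, hf.mono _ _ (TH_N_self g a) (hN a ha) h⟩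
    · intro a ha
      obtain ⟨z, -, hz2⟩ := hstep a ha
      exact ⟨z, hz2⟩
    · intro t ht
      obtain ⟨b, hb, h⟩ := hcof t ht
      refine ⟨b, hb, fun a hba ha => ?_⟩
      obtain ⟨z, hz1, hz2⟩ := hstep a ha
      refine ⟨z, hD.sub X univ _ _ ?_ hz1, hz2⟩
      exact (lt_of_lt_of_le h (hsm _ _ (hba.trans (TH_N_self g a)) (hN a ha))).le

end Pool.Agent.HCO
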