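import Pool.Agent.HCO.St4

set_option autoImplicit false

open Set Topology Cardinal Ordinal Order Filter

universe u v w

namespace Pool.Agent.HCO

private theorem Z1_zero {X : Type u} [TopologicalSpace X] : der (Set.univ : Set X) 0 = Set.univ := by
  ext z
  rw [der]
  constructor
  · intro _
    exact mem_univ _
  · intro _
    exact ⟨mem_univ _, fun e => absurd (Set.mem_Iio.1 e.2) not_lt_bot⟩

theorem thm_Z1 (ha : St_Z1a.{u}) (hb : St_Z1b.{u}) : St_Z1.{u} := by
  intro X _ _ _ _ x r hmin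
  have hr : r ≠ 0 := by
    intro h0
    have h1 := hmin.top
    rw [h0, Z1_zero] at h1
    apply hmin.nord
    refine ⟨fun _ => 0, ?_, ?_⟩
    · intro a h2 b h3 _
      rw [h1] at h2 h3
      rw [mem_singleton_iff.1 h2, mem_singleton_iff.1 h3]
    · intro a _
      exact ⟨univ, isClopen_univ, fun z _ => ⟨fun _ => le_rfl, fun _ => mem_univ _⟩⟩
  have hex : ∃ t : Ordinal.{u}, 0 < t ∧ ∃ a, r = a + t :=
    ⟨r, pos_iff_ne_zero.2 hr, 0, (zero_add r).symm⟩
  obtain ⟨t, ⟨ht0, a, hat⟩, hmint⟩ : ∃ t : Ordinal.{u}, (0 < t ∧ ∃ a, r = a + t) ∧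
      ∀ s, (0 < s ∧ ∃ a, r = a + s) → t ≤ s := by
    refine ⟨sInf {t | 0 < t ∧ ∃ a, r = a + t}, csInf_mem hex, fun s hs => csInf_le' hs⟩
  have hind : ∀ b < t, ∀ c < t, b + c < t := by
    intro b hbt c hct
    by_contra hle
    rw [not_lt] at hle
    have h1 : b + (t - b) = t := Ordinal.add_sub_cancel_of_le hbt.le
    have h2 : 0 < t - b := by
      rw [pos_iff_ne_zero]
      intro h3
      rw [h3, add_zero] at h1
      exact hbt.ne h1
    have h3 : t ≤ t - b := hmint (t - b) ⟨h2, a + b, by rw [add_assoc, h1]; exact hat⟩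
    have h4 : b + t ≤ t := by
      calc b + t ≤ b + (t - b) := by gcongr
        _ = t := h1
    have h5 : b + c < b + t := by gcongr
    exact absurd hle (not_le.2 (lt_of_lt_of_le h5 h4))
  by_cases hrt : t = r
  · have h1 := ha X x r hmin (by rw [← hrt]; exact hind)
    exact not_le.1 h1
  · have htr : t < r := lt_of_le_of_ne (by rw [hat]; exact le_add_of_nonneg_left bot_le) hrt
    have h1 := hb X x r a t hmin hat ht0 htr hind
    have h2 : r.cof = t.cof := by
      rw [hat]
      exact Ordinal.cof_add a ht0.ne'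
    rw [h2]
    exact not_le.1 h1

end Pool.Agent.HCO
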