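import Pool.Agent.HCO.St4

/-! [Z1a] the rank of a minimal counterexample: indecomposable of countable cofinality -/

set_option autoImplicit false

open Set Topology Cardinal Ordinal Order Filter

universe u v w

namespace Pool.Agent.HCO

private theorem Z1a_seq (r : Ordinal.{u}) (hr : 0 < r) (hc : r.cof ≤ ℵ₀) :
    ∃ τ : ℕ → Ordinal.{u}, Monotone τ ∧ (∀ n, τ n < r) ∧ ∀ a < r, ∃ n, a ≤ τ n := by
  obtain ⟨S, hS, hcard⟩ := Order.exists_cof_eq (Iio r)
  have h1 : #S ≤ ℵ₀ := by
    rw [hcard, Ordinal.cof_Iio, ← Ordinal.lift_cof]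
    exact Cardinal.lift_le_aleph0.2 hc
  have hne : S.Nonempty := by
    obtain ⟨b, hb, -⟩ := hS ⟨0, hr⟩
    exact ⟨b, hb⟩
  obtain ⟨f, hf⟩ := (Cardinal.le_aleph0_iff_set_countable.1 h1).exists_eq_range hne
  refine ⟨fun n => (Finset.range (n + 1)).sup (fun i => (f i).1), ?_, ?_, ?_⟩
  · intro n m hnm
    exact Finset.sup_mono (Finset.range_subset_range.2 (by omega))
  · intro n
    rw [Finset.sup_lt_iff (show ⊥ < r from hr)]
    intro i _
    exact (f i).2
  · intro a ha
    obtain ⟨b, hb, hab⟩ := hS ⟨a, ha⟩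
    rw [hf] at hb
    obtain ⟨n, rfl⟩ := hb
    refine ⟨n, ?_⟩
    have h2 : a ≤ (f n).1 := hab
    exact h2.trans (Finset.le_sup (f := fun i => (f i).1) (Finset.mem_range.2 (Nat.lt_succ_self n)))

/-- a countable complement is impossible -/
private theorem Z1a_one (hDer : St_Der.{u}) (hNA : St_NA.{u}) (hNS : St_NSig.{u})
    (X : Type u) [TopologicalSpace X] [CompactSpace X] [T2Space X] [TotallyDisconnectedSpace X]
    (x : X) (hM : Min X x 1) : False := by
  have hiso : ∀ z, z ≠ x → ¬ AccPt z (𝓟 (univ : Set X)) := by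
    intro z hz hacc
    have h1 : z ∈ der (univ : Set X) (0 + 1) := by
      rw [hDer.succ, hDer.zero]
      exact ⟨mem_univ z, hacc⟩
    rw [zero_add, hM.top] at h1
    exact hz h1
  have hcount : ({x}ᶜ : Set X).Countable := by
    apply hNA X x hM.hco
    · intro h
      exact h rfl
    · intro C hC hxC
      by_contra hinf
      have hinf' : ({x}ᶜ ∩ C : Set X).Infinite := hinf
      obtain ⟨z, hzC, hz⟩ := hinf'.exists_accPt_of_subset_isCompact hC.isCompact
        inter_subset_right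
      have hzx : z ≠ x := by
        rintro rfl
        exact hxC hzC
      exact hiso z hzx (hz.mono (principal_mono.2 (subset_univ _)))
  have : Nonempty X := ⟨x⟩
  obtain ⟨f, hf⟩ := countable_iff_exists_subset_range.1 hcount
  refine hNS X x 1 hM ⟨fun n => {f n} \ {x}, fun n => ⟨?_, ?_⟩, ?_⟩
  · exact ((finite_singleton (f n)).subset sdiff_subset).isClosed
  · rintro ⟨-, h⟩
    exact h rfl
  · intro z hz
    obtain ⟨n, hn⟩ := hf (show z ∈ ({x}ᶜ : Set X) from hz)
    exact ⟨n, hn.symm, hz⟩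

private theorem Z1a_lim (hDer : St_Der.{u}) (hBN : St_BigNot.{u})
    (hOS : St_OSigma.{u}) (hOTr : St_OTr.{u})
    (X : Type u) [TopologicalSpace X] [CompactSpace X] [T2Space X] [TotallyDisconnectedSpace X]
    (x : X) (r : Ordinal.{u}) (hM : Min X x r) (hr : IsSuccLimit r)
    (hadd : ∀ a < r, ∀ b < r, a + b < r) (hc : r.cof ≤ ℵ₀) : False := by
  have hr0 : 0 < r := hr.bot_lt
  obtain ⟨τ, hτm, hτr, hτc⟩ := Z1a_seq r hr0 hc
  set ρ : ℕ → Ordinal.{u} := fun n => Nat.rec (τ 0) (fun n a => a + τ (n + 1)) n with hρ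
  have hρs : ∀ n, ρ (n + 1) = ρ n + τ (n + 1) := fun n => rfl
  have hρr : ∀ n, ρ n < r := by
    intro n
    induction n with
    | zero => exact hτr 0
    | succ n ih =>
      rw [hρs]
      exact hadd _ ih _ (hτr _)
  have hρτ : ∀ n, τ n ≤ ρ n := by
    intro n
    cases n with
    | zero => exact le_rfl
    | succ n =>
      rw [hρs]
      exact le_add_self
  have hxr : x ∈ der (univ : Set X) r := by
    rw [hM.top]
    rfl
  -- points
  have hpts : ∀ n, ∃ z, z ∈ der (univ : Set X) (ρ n) ∧ z ≠ x := by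
    intro n
    have h1 := ((hDer.iff X univ r x).1 hxr).2 (ρ n) (hρr n)
    rw [accPt_iff_nhds] at h1
    obtain ⟨z, hz, hzx⟩ := h1 univ univ_mem
    exact ⟨z, hz.2, hzx⟩
  choose z hz hzx using hpts
  have hW : ∀ n, ∃ W : Set X, IsClopen W ∧ z n ∈ W ∧ x ∉ W := by
    intro n
    obtain ⟨V, hV, hzV, hsub⟩ := compact_exists_isClopen_in_isOpen
      (isOpen_compl_singleton (x := x)) (show z n ∈ ({x}ᶜ : Set X) from hzx n)
    exact ⟨V, hV, hzV, fun h => hsub h rfl⟩
  choose W hWc hzW hxW using hW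
  -- compactness
  have hcpt : ∀ C : Set X, IsClosed C → x ∉ C →
      ∃ m, ∀ n, m ≤ n → C ∩ der (univ : Set X) (ρ n) = ∅ := by
    intro C hC hxC
    obtain ⟨V, hV, hxV, hsub⟩ := compact_exists_isClopen_in_isOpen hC.isOpen_compl
      (show x ∈ Cᶜ from hxC)
    have h1 : ∀ a, der Vᶜ a = der (univ : Set X) a ∩ Vᶜ := by
      intro a
      have := hDer.inter X univ Vᶜ a hV.compl.isOpen
      rwa [univ_inter] at this
    have h2 : der Vᶜ r = ∅ := by
      rw [h1, hM.top]
      ext y
      constructor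
      · rintro ⟨rfl, hy⟩
        exact hy hxV
      · intro hy
        exact absurd hy (notMem_empty y)
    obtain ⟨a, ha, ha0⟩ := hDer.compact X Vᶜ r hV.compl.isClosed hr h2
    obtain ⟨m, hm⟩ := hτc a ha
    refine ⟨m, fun n hn => ?_⟩
    rw [eq_empty_iff_forall_notMem]
    rintro y ⟨hyC, hy⟩
    have h3 : y ∈ der Vᶜ a := by
      rw [h1]
      refine ⟨hDer.sub X univ a (ρ n) ((hm.trans (hτm hn)).trans (hρτ n)) hy, ?_⟩
      intro hyV
      exact hsub hyV hyC
    rw [ha0] at h3
    exact h3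
  set Pc : ℕ → Set X := fun n => W (n + 1) ∩ der (univ : Set X) (ρ n) with hPc
  have hPcc : ∀ n, IsClosed (Pc n) := fun n =>
    (hWc (n + 1)).isClosed.inter (hDer.closed X univ (ρ n) isClosed_univ)
  have hPx : ∀ n, x ∉ Pc n := fun n h => hxW _ h.1
  set Z : Set X := {x} ∪ ⋃ n, Pc n with hZdef
  have hxZ : x ∈ Z := Or.inl rfl
  have hZc : IsClosed Z := by
    rw [← isOpen_compl_iff, isOpen_iff_forall_mem_open]
    intro y hy
    have hyx : y ≠ x := by
      rintro rfl
      exact hy hxZ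
    obtain ⟨V, hV, hyV, hsub⟩ := compact_exists_isClopen_in_isOpen
      (isOpen_compl_singleton (x := x)) (show y ∈ ({x}ᶜ : Set X) from hyx)
    have hxV : x ∉ V := fun h => hsub h rfl
    obtain ⟨m, hm⟩ := hcpt V hV.isClosed hxV
    have hfin : IsClosed (⋃ n ∈ Finset.range m, Pc n) :=
      Set.Finite.isClosed_biUnion (Finset.finite_toSet _) fun n _ => hPcc n
    refine ⟨V \ ⋃ n ∈ Finset.range m, Pc n, ?_, hV.isOpen.sdiff hfin, hyV, ?_⟩
    · rintro w ⟨hwV, hw⟩ (hwx | hwP)
      · have : w = x := hwx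
        rw [this] at hwV
        exact hxV hwV
      · obtain ⟨n, hn⟩ := mem_iUnion.1 hwP
        rcases lt_or_ge n m with h1 | h1
        · exact hw (mem_biUnion (Finset.mem_coe.2 (Finset.mem_range.2 h1)) hn)
        · have h2 : w ∈ V ∩ der (univ : Set X) (ρ n) := ⟨hwV, hn.2⟩
          rw [hm n h1] at h2
          exact h2
    · intro h
      obtain ⟨n, hn, hyn⟩ := mem_iUnion₂.1 h
      exact hy (Or.inr (mem_iUnion.2 ⟨n, hyn⟩))
  have hbig : ∀ n, z (n + 1) ∈ der Z (τ (n + 1)) := by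
    intro n
    have h1 : Pc n ⊆ Z := fun y hy => Or.inr (mem_iUnion.2 ⟨n, hy⟩)
    apply hDer.mono X (Pc n) Z _ h1
    have h2 : Pc n = der (univ : Set X) (ρ n) ∩ W (n + 1) := inter_comm _ _
    rw [h2, hDer.inter X _ _ _ (hWc (n + 1)).isOpen, hDer.add, ← hρs]
    exact ⟨hz (n + 1), hzW (n + 1)⟩
  have hxZr : x ∈ der Z r := by
    rw [hDer.limit X Z r x hr]
    intro a ha
    by_contra hcon
    have hcl : IsClosed (der Z a) := hDer.closed X Z a hZc
    obtain ⟨m, hm⟩ := hcpt (der Z a) hcl hcon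
    obtain ⟨k, hk⟩ := hτc a ha
    have h1 : z (max m k + 1) ∈ der Z a :=
      hDer.sub X Z a _ (hk.trans (hτm (by omega))) (hbig (max m k))
    have h2 : z (max m k + 1) ∈ der Z a ∩ der (univ : Set X) (ρ (max m k + 1)) :=
      ⟨h1, hz (max m k + 1)⟩
    have h3 := hm (max m k + 1) (by omega)
    rw [h3] at h2
    exact h2
  apply hBN X x r hM Z hZc hxZr
  have hcompZ : CompactSpace Z := isCompact_iff_compactSpace.1 hZc.isCompact
  have huniv : IsOrd (univ : Set Z) := by
    refine hOS Z ⟨x, hxZ⟩ (fun n => {y : Z | (y : X) ∈ Pc n}) (fun n => ⟨?_, ?_⟩) ?_ ?_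
    · exact (hPcc n).preimage continuous_subtype_val
    · exact hPx n
    · rintro ⟨y, hy⟩ hyx
      rcases hy with hy | hy
      · exfalso
        apply hyx
        exact Subtype.ext hy
      · obtain ⟨n, hn⟩ := mem_iUnion.1 hy
        exact ⟨n, hn⟩
    · intro K hK hxK
      have hcl : IsClosed ((Subtype.val '' K : Set X)) :=
        hZc.isClosedEmbedding_subtypeVal.isClosedMap K hK
      have hxF : x ∉ (Subtype.val '' K : Set X) := by
        rintro ⟨y, hy, hyx⟩
        have : y = ⟨x, hxZ⟩ := Subtype.ext hyx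
        rw [this] at hy
        exact hxK hy
      have hsm : IsOrd (Subtype.val '' K : Set X) := by
        apply hM.small _ hcl
        intro h
        exact hxF ((hDer.iff X _ r x).1 h).1
      exact hOTr X Z _ K hcl hK
        (Topology.IsEmbedding.subtypeVal.homeomorphImage K).symm hsm
  exact hOTr Z X univ Z isClosed_univ hZc (Homeomorph.Set.univ Z) huniv

theorem thm_Z1a (hDer : St_Der.{u}) (hNA : St_NA.{u}) (hNS : St_NSig.{u})
    (hBN : St_BigNot.{u}) (hOS : St_OSigma.{u}) (hOTr : St_OTr.{u}) : St_Z1a.{u} := by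
  intro X _ _ _ _ x r hM hadd hc
  rcases zero_or_succ_or_isSuccLimit r with h0 | ⟨a, ha⟩ | hlim
  · have h1 : (univ : Set X) = {x} := by
      rw [← hM.top, h0, hDer.zero]
    apply hM.nord
    refine ⟨fun _ => 0, ?_, ?_⟩
    · rw [h1]
      intro y hy w hw _
      rw [mem_singleton_iff.1 hy, mem_singleton_iff.1 hw]
    · intro a _
      exact ⟨univ, isClopen_univ, fun z _ => ⟨fun _ => le_rfl, fun _ => mem_univ z⟩⟩
  · rcases eq_or_ne a 0 with h0 | h0
    · have h1 : r = 1 := by
        rw [← ha, h0]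
        exact zero_add 1
      subst h1
      exact Z1a_one hDer hNA hNS X x hM
    · have h1 : a < r := by
        rw [← ha]
        exact Order.lt_succ a
      have h2 : (1 : Ordinal.{u}) < r := by
        refine lt_of_le_of_lt ?_ h1
        exact Order.one_le_iff_ne_zero.2 h0
      have h3 := hadd a h1 1 h2
      rw [← ha] at h3
      exact absurd h3 (lt_irrefl _)
  · exact Z1a_lim hDer hBN hOS hOTr X x r hM hlim hadd hc

end Pool.Agent.HCO
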