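import Pool.Agent.HCO.St4

/-! `r = a + t`, `t < r` indecomposable of countable cofinality is impossible. -/

set_option autoImplicit false

open Set Topology Cardinal Ordinal Order Filter

universe u v w

namespace Pool.Agent.HCO

private theorem Z1b_seq {t : Ordinal.{u}} (ht : 0 < t) (hc : t.cof ≤ ℵ₀) :
    ∃ s : ℕ → Ordinal.{u}, (∀ n, s n < t) ∧ ∀ b < t, ∃ n, b ≤ s n := by
  obtain ⟨s, hs, hs'⟩ := Order.exists_cof_eq (Iio t)
  have hcs : s.Countable := by
    rw [← Cardinal.le_aleph0_iff_set_countable, hs', cof_Iio, ← lift_cof, lift_le_aleph0]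
    exact hc
  have hne : s.Nonempty := by
    obtain ⟨a, ha, _⟩ := hs ⟨0, ht⟩
    exact ⟨a, ha⟩
  obtain ⟨f, hf⟩ := hcs.exists_eq_range hne
  refine ⟨fun n => (f n).1, fun n => (f n).2, fun b hb => ?_⟩
  obtain ⟨a, ha, hba⟩ := hs ⟨b, hb⟩
  rw [hf] at ha
  obtain ⟨n, rfl⟩ := ha
  exact ⟨n, hba⟩

private theorem Z1b_not {X : Type u} [TopologicalSpace X] {x : X} {A : Set X} (hA : A ⊆ {x}) :
    ¬ AccPt x (𝓟 A) := by
  intro h
  rw [accPt_iff_nhds] at h
  obtain ⟨y, hy, hne⟩ := h univ univ_mem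
  exact hne (hA hy.2)

/-- `r = a + t` with `0 < t < r` and `t` indecomposable of cofinality `≤ ω` is impossible -/
theorem thm_Z1b (hD : St_Der.{u}) (hA : St_OAcc.{u}) (hA1 : St_OAcc1.{u}) (hC : St_OCnt.{u})
    (hN : St_NSig.{u}) : St_Z1b.{u} := by
  classical
  intro X _ _ _ _ x r a t hM hr ht0 htr hind hcof
  have hEc : IsClosed (der (univ : Set X) a) := hD.closed X _ _ isClosed_univ
  set E : Set X := der (univ : Set X) a with hE
  have hEt : der E t = {x} := by
    rw [hE, hD.add, ← hr]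
    exact hM.top
  have hxt : x ∈ der E t := by
    rw [hEt]
    exact rfl
  have hEr : x ∉ der E r := by
    intro h
    have h1 : x ∈ der E (t + 1) := hD.sub X E _ _ (by
      rw [← Order.succ_eq_add_one]
      exact Order.succ_le_of_lt htr) h
    have h2 := ((hD.succ X E t x).1 h1).2
    rw [hEt] at h2
    exact Z1b_not (le_refl _) h2
  have hEo : IsOrd E := hM.small E hEc hEr
  have hxE : x ∈ E := by
    have h1 := hD.sub X E 0 t bot_le hxt
    rwa [hD.zero] at h1
  have hacc : AccPt x (𝓟 E) := by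
    have h1 := ((hD.iff X E t x).1 hxt).2 0 ht0
    rwa [hD.zero] at h1
  -- the point `x` is of countable character in `E`
  have hcnt : Cnt E x := by
    by_contra hnc
    by_cases h1 : t = 1
    · have h2 := hA1 X E x E hEc hEo hxE hnc hEc (le_refl _) hacc
      rw [← h1, hEt] at h2
      exact Z1b_not (le_refl _) h2
    · obtain ⟨s, hs1, hs2⟩ := Z1b_seq ht0 hcof
      have hlim : IsSuccLimit t := by
        rw [Ordinal.isSuccLimit_iff]
        refine ⟨ht0.ne', ?_⟩
        rw [Order.isSuccPrelimit_iff_succ_lt]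
        intro b hb
        rw [Order.succ_eq_add_one]
        refine hind b hb 1 ?_
        have h3 : 1 ≤ t := by
          rw [Order.one_le_iff_pos]
          exact ht0
        exact lt_of_le_of_ne h3 (Ne.symm h1)
      have h3 := hA X E x (fun n => der E (s n)) hEc hEo hxE hnc (fun n => by
        refine ⟨hD.closed X _ _ hEc, ?_⟩
        have h4 : E ∩ der E (s n) = der E (s n) := by
          refine inter_eq_right.2 ?_
          have h5 := hD.sub X E 0 (s n) bot_le
          rwa [hD.zero] at h5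
        rw [h4]
        exact ((hD.iff X E t x).1 hxt).2 _ (hs1 n))
      refine Z1b_not (fun z hz => ?_) h3
      rw [← hEt, hD.limit X E t z hlim]
      intro b hb
      obtain ⟨n, hn⟩ := hs2 b hb
      exact hD.sub X E _ _ hn (mem_iInter.1 hz.2 n)
  obtain ⟨O, hO1, hO2⟩ := hcnt
  set R : Set X := ⋂ n, O n with hR
  have hRc : IsClosed R := isClosed_iInter fun n => (hO1 n).1.1
  have hRE : ∀ z, z ∈ R → z ∈ E → z = x := fun z h1 h2 => hO2 z h2 (mem_iInter.1 h1)
  have hRr : x ∉ der R r := by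
    intro h
    have h1 : x ∈ der R (a + 1) := hD.sub X R _ _ (by
      rw [hr]
      refine (add_le_add_iff_left a).2 ?_
      rw [Order.one_le_iff_pos]
      exact ht0) h
    have h2 := ((hD.succ X R a x).1 h1).2
    refine Z1b_not (fun z hz => ?_) h2
    refine hRE z ?_ (hD.mono X R univ a (subset_univ _) hz)
    have h3 := hD.sub X R 0 a bot_le hz
    rwa [hD.zero] at h3
  have hREc : IsClosed (R ∪ E) := hRc.union hEc
  have hREo : IsOrd (R ∪ E) := by
    refine hM.small _ hREc ?_
    rw [hD.union X R E r hRc hEc]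
    rintro (h | h)
    · exact hRr h
    · exact hEr h
  have hcnt2 : Cnt (R ∪ E) x := by
    refine hC X (R ∪ E) x (fun n => (O n)ᶜ) hREc hREo (Or.inr hxE)
      (fun n => ⟨(hO1 n).1.compl.1, fun h => h (hO1 n).2⟩) ?_
    rw [mem_closure_iff_nhds]
    intro U hU
    rw [accPt_iff_nhds] at hacc
    obtain ⟨y, hy, hne⟩ := hacc U hU
    refine ⟨y, hy.1, Or.inr hy.2, ?_⟩
    by_contra hc
    apply hne
    refine hO2 y hy.2 fun n => ?_
    by_contra hc2
    exact hc (mem_iUnion.2 ⟨n, hc2⟩)
  obtain ⟨O', hO1', hO2'⟩ := hcnt2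
  refine hN X x r hM ⟨fun n => (O n)ᶜ ∪ (O' n)ᶜ, fun n => ⟨(hO1 n).1.compl.1.union
    (hO1' n).1.compl.1, ?_⟩, fun z hz => ?_⟩
  · rintro (h | h)
    · exact h (hO1 n).2
    · exact h (hO1' n).2
  · by_contra hc
    apply hz
    have h1 : ∀ n, z ∈ O n ∧ z ∈ O' n := by
      intro n
      constructor
      · by_contra h2
        exact hc ⟨n, Or.inl h2⟩
      · by_contra h2
        exact hc ⟨n, Or.inr h2⟩
    exact hO2' z (Or.inl (mem_iInter.2 fun n => (h1 n).1)) fun n => (h1 n).2

end Pool.Agent.HCO
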