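import Pool.Agent.HCO.St3

/-!
# The part of the argument which needs no axiom: the rank of a minimal counterexample
-/

set_option autoImplicit false

open Set Topology Cardinal Ordinal Order Filter

universe u v w

namespace Pool.Agent.HCO

/-- the rank `r` of a minimal counterexample satisfies `ω < cf r = |r|` -/
def St_Zfc : Prop :=
  ∀ (X : Type u) [TopologicalSpace X] [CompactSpace X] [T2Space X] [TotallyDisconnectedSpace X]
    (x : X) (r : Ordinal.{u}), Min X x r → ℵ₀ < r.cof ∧ r.cof = r.card

theorem thm_Zfc (hZ1 : St_Z1.{u}) (hB : St_B.{u}) (hTH : St_TH.{u}) (hC8 : St_C8.{u})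
    (hC2a : St_C2a.{u}) (hKU : St_KU.{u}) (hBM : St_BigMin.{u}) (hA1 : St_A1cof.{u})
    (hAc : St_A1cnt.{u}) (hR1 : St_R1.{u}) (hCs : St_C3size.{u}) (hLS : St_LS.{u})
    (hD : St_Der.{u}) (hCl : St_Club.{u}) : St_Zfc.{u} := by
  intro X _ _ _ _ x r hmin
  have hcof : ℵ₀ < r.cof := hZ1 X x r hmin
  refine ⟨hcof, le_antisymm (Ordinal.cof_le_card r) ?_⟩
  by_contra hlt
  rw [not_le] at hlt
  have hrl : IsSuccLimit r := Ordinal.one_lt_cof_iff.mp (Cardinal.one_lt_aleph0.trans hcof)
  have hreg : r.cof.IsRegular := Cardinal.isRegular_cof hrl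
  have hs1 : (Order.succ r.cof).ord ≤ r := by
    rw [Cardinal.ord_le]
    exact Order.succ_le_of_lt hlt
  have hsr : (Order.succ r.cof).IsRegular := Cardinal.isRegular_succ hcof.le
  have hs2 : (Order.succ r.cof).ord ≠ r := by
    intro h
    have h1 := hsr.cof_ord
    rw [h] at h1
    exact absurd h1 (Order.lt_succ _).ne
  have hs : (Order.succ r.cof).ord < r := lt_of_le_of_ne hs1 hs2
  have hlt' : r.cof.ord < r := lt_of_le_of_lt (Cardinal.ord_le_ord.mpr (Order.le_succ _)) hs
  by_cases hNB : NB X x
  · obtain ⟨Z, _, _, _, _, z, μ, K, hm, hK⟩ := hB X x r hmin hNB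
    have h1 : r.cof = μ := (hTH Z z r μ K hm hK.toFilt).1
    subst h1
    exact hC8 Z z r _ K hm hK hs
  · rw [NB] at hNB
    push Not at hNB
    obtain ⟨K, hK, hx⟩ := hNB
    by_cases hall : ∀ K : ℕ → Set X, Sig x K → x ∉ der (closure (⋃ n, K n)) r
    · have hcnt := hC2a X x r hmin ⟨K, hK, hx⟩ hall (closure (⋃ n, K n)) isClosed_closure
        (hall K hK)
      have hxU : x ∉ ⋃ n, K n := by
        intro h
        obtain ⟨n, hn⟩ := mem_iUnion.mp h
        exact (hK n).2 hn
      have hacc : AccPt x (𝓟 (closure (⋃ n, K n))) := by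
        rw [accPt_iff_frequently]
        rw [mem_closure_iff_frequently] at hx
        refine hx.mono ?_
        intro y hy
        exact ⟨fun e => hxU (e ▸ hy), subset_closure hy⟩
      exact hKU X x r hmin hlt' _ isClosed_closure
        (hmin.small _ isClosed_closure (hall K hK)) hacc hcnt
    · push Not at hall
      obtain ⟨K0, hK0, hbig⟩ := hall
      set K1 : ℕ → Set X := fun n => ⋃ m ∈ Finset.range (n + 1), K0 m with hK1
      have hK1u : (⋃ n, K1 n) = ⋃ n, K0 n := by
        ext z
        simp only [hK1, mem_iUnion, Finset.mem_range]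
        constructor
        · rintro ⟨n, m, _, hm⟩
          exact ⟨m, hm⟩
        · rintro ⟨n, hn⟩
          exact ⟨n, n, Nat.lt_succ_self n, hn⟩
      have hK1s : Sig x K1 := by
        intro n
        constructor
        · exact (Finset.range (n + 1)).finite_toSet.isClopen_biUnion (fun m _ => (hK0 m).1)
        · simp only [hK1, mem_iUnion, Finset.mem_range]
          rintro ⟨m, _, hm⟩
          exact (hK0 m).2 hm
      have hK1m : Monotone K1 := by
        intro a b hab z hz
        simp only [hK1, mem_iUnion, Finset.mem_range] at hz ⊢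
        obtain ⟨m, hm, hz⟩ := hz
        exact ⟨m, by omega, hz⟩
      rw [← hK1u] at hbig
      set F : Set X := closure (⋃ n, K1 n) with hF
      have hFc : IsClosed F := isClosed_closure
      have hxF : x ∈ F := by
        have := hbig
        rw [der] at this
        exact this.1
      have : CompactSpace F := isCompact_iff_compactSpace.mp hFc.isCompact
      have hminF : Min F ⟨x, hxF⟩ r := hBM X x r hmin F hFc hbig hxF
      set K2 : ℕ → Set F := fun n => Subtype.val ⁻¹' (K1 n) with hK2
      have hK2s : Sig (⟨x, hxF⟩ : F) K2 := fun n =>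
        ⟨(hK1s n).1.preimage continuous_subtype_val, (hK1s n).2⟩
      have hK2m : Monotone K2 := fun a b hab z hz => hK1m hab hz
      have hdense : Dense (⋃ n, K2 n) := by
        intro z
        rw [mem_closure_iff]
        rintro O hO hzO
        obtain ⟨O', hO', rfl⟩ := isOpen_induced_iff.mp hO
        have hz : (z : X) ∈ closure (⋃ n, K1 n) := z.2
        obtain ⟨y, hyO, hy⟩ := mem_closure_iff.mp hz O' hO' hzO
        refine ⟨⟨y, subset_closure hy⟩, hyO, ?_⟩
        obtain ⟨n, hn⟩ := mem_iUnion.mp hy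
        exact mem_iUnion.mpr ⟨n, hn⟩
      have hcof1 : r.cof = ℵ₁ := hA1 F ⟨x, hxF⟩ r hminF K2 hK2s hdense
      have hw : w1 < r := by rw [w1, ← hcof1]; exact hlt'
      have hsize := hCs F ⟨x, hxF⟩ r hminF hw K2 hK2s hK2m hdense
      set ν : Cardinal.{u} := Order.succ ℵ₁ with hν
      have hνr : ν.ord < r := by rw [hν, ← hcof1]; exact hs
      have hνreg : ν.IsRegular := by rw [hν, ← hcof1]; exact hsr
      -- the ranks of the `K2 n` are small
      have hrk : ∀ n, ∃ s < ν.ord, der (K2 n) s = ∅ := by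
        intro n
        have h1 : der (K2 n) ν.ord ⊆ {(⟨x, hxF⟩ : F)} := by
          refine hLS F ⟨x, hxF⟩ (K2 n) ν hminF.scat (hK2s n).1.isClosed ?_
          intro L _ _
          have h2 : #(K2 n ∩ L : Set F) ≤ #(⋃ n, K2 n : Set F) := by
            refine Cardinal.mk_le_mk_of_subset ?_
            intro z hz
            exact mem_iUnion.mpr ⟨n, hz.1⟩
          exact lt_of_le_of_lt (h2.trans hsize) (Order.lt_succ _)
        have h2 : der (K2 n) ν.ord = ∅ := by
          rw [eq_empty_iff_forall_notMem]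
          intro z hz
          have h3 : z = ⟨x, hxF⟩ := h1 hz
          have h4 : z ∈ K2 n := ((hD.iff F (K2 n) ν.ord z).mp hz).1
          rw [h3] at h4
          exact (hK2s n).2 h4
        exact hD.compact F (K2 n) ν.ord (hK2s n).1.isClosed
          (Cardinal.isSuccLimit_ord hνreg.aleph0_le) h2
      choose s hs' hsd using hrk
      have hsup : ∃ c < ν.ord, ∀ n, s n ≤ c := by
        obtain ⟨c, hc, h⟩ := hCl.supN ν.ord s
          (by rw [hνreg.cof_ord]; exact lt_of_le_of_lt hcof.le (hcof1 ▸ Order.lt_succ _)) hs'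
        exact ⟨c, hc, fun n => (h n).le⟩
      obtain ⟨c, hc, hsc⟩ := hsup
      have hpt : ∀ p ∈ der (univ : Set F) c, p ≠ ⟨x, hxF⟩ → Cnt (der (univ : Set F) c) p := by
        intro p hp hpx
        have hpK : p ∉ ⋃ n, K2 n := by
          intro h
          obtain ⟨n, hn⟩ := mem_iUnion.mp h
          have h1 : p ∈ der (univ ∩ K2 n) c := by
            rw [hD.inter F univ (K2 n) c (hK2s n).1.isOpen]
            exact ⟨hp, hn⟩
          rw [univ_inter] at h1
          have h2 := hD.sub F (K2 n) (s n) c (hsc n) h1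
          rw [hsd n] at h2
          exact h2
        obtain ⟨O, hO, hO'⟩ := hAc F ⟨x, hxF⟩ r hminF K2 hK2s hdense p hpK hpx
        exact ⟨O, hO, fun z _ hz => hO' z (mem_univ _) hz⟩
      have hR := hR1 F ⟨x, hxF⟩ (der (univ : Set F) c) hminF.scat (hD.closed F univ c isClosed_univ)
        hpt
      rw [hD.add] at hR
      apply hR
      have h5 : c + (w1 + 1) ≤ r := by
        refine le_of_lt (lt_of_lt_of_le ?_ hνr.le)
        have hω : w1 < ν.ord := by
          rw [w1]; exact Cardinal.ord_lt_ord.mpr (Order.lt_succ _)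
        have hlim := Cardinal.isSuccLimit_ord hνreg.aleph0_le
        have h6 : w1 + 1 < ν.ord := by
          rw [← Order.succ_eq_add_one]; exact hlim.succ_lt hω
        rw [Cardinal.lt_ord, Ordinal.card_add]
        exact Cardinal.add_lt_of_lt hνreg.aleph0_le (Cardinal.lt_ord.mp hc) (Cardinal.lt_ord.mp h6)
      have h7 : (⟨x, hxF⟩ : F) ∈ der (univ : Set F) r := by
        rw [hminF.top]; exact mem_singleton _
      exact hD.sub F univ _ _ h5 h7

end Pool.Agent.HCO
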