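import Pool.Agent.HCO.A
import Pool.Agent.HCO.A1cnt
import Pool.Agent.HCO.A1cof
import Pool.Agent.HCO.B
import Pool.Agent.HCO.B2
import Pool.Agent.HCO.B3
import Pool.Agent.HCO.BL
import Pool.Agent.HCO.Big
import Pool.Agent.HCO.BigMin
import Pool.Agent.HCO.BigNot
import Pool.Agent.HCO.C1
import Pool.Agent.HCO.C1ct
import Pool.Agent.HCO.C2
import Pool.Agent.HCO.C2a
import Pool.Agent.HCO.C2b
import Pool.Agent.HCO.C3
import Pool.Agent.HCO.C3B
import Pool.Agent.HCO.C3mm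
import Pool.Agent.HCO.C3pc
import Pool.Agent.HCO.C3size
import Pool.Agent.HCO.C4
import Pool.Agent.HCO.C4b
import Pool.Agent.HCO.C5
import Pool.Agent.HCO.C5a
import Pool.Agent.HCO.C5b
import Pool.Agent.HCO.C6
import Pool.Agent.HCO.C6a
import Pool.Agent.HCO.C7
import Pool.Agent.HCO.C7n
import Pool.Agent.HCO.C7t4
import Pool.Agent.HCO.C7t5
import Pool.Agent.HCO.C8
import Pool.Agent.HCO.CCex
import Pool.Agent.HCO.CCex2
import Pool.Agent.HCO.CMP
import Pool.Agent.HCO.CTpow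
import Pool.Agent.HCO.CV
import Pool.Agent.HCO.Ccc
import Pool.Agent.HCO.Chain
import Pool.Agent.HCO.Club
import Pool.Agent.HCO.Delta
import Pool.Agent.HCO.Der
import Pool.Agent.HCO.Exists
import Pool.Agent.HCO.FB
import Pool.Agent.HCO.FB1
import Pool.Agent.HCO.FC
import Pool.Agent.HCO.Filt
import Pool.Agent.HCO.G
import Pool.Agent.HCO.Gf
import Pool.Agent.HCO.KU
import Pool.Agent.HCO.KU2
import Pool.Agent.HCO.KU3
import Pool.Agent.HCO.LS
import Pool.Agent.HCO.LU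
import Pool.Agent.HCO.Len
import Pool.Agent.HCO.MMs
import Pool.Agent.HCO.Main
import Pool.Agent.HCO.N
import Pool.Agent.HCO.NA
import Pool.Agent.HCO.NSig
import Pool.Agent.HCO.OAcc
import Pool.Agent.HCO.OAcc1
import Pool.Agent.HCO.OClos
import Pool.Agent.HCO.OCnt
import Pool.Agent.HCO.OCtble
import Pool.Agent.HCO.OE
import Pool.Agent.HCO.OHomeo
import Pool.Agent.HCO.OSigma
import Pool.Agent.HCO.OSize
import Pool.Agent.HCO.OTr
import Pool.Agent.HCO.OUnion
import Pool.Agent.HCO.P4key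
import Pool.Agent.HCO.P4one
import Pool.Agent.HCO.P4ssp
import Pool.Agent.HCO.PID
import Pool.Agent.HCO.PIDgen
import Pool.Agent.HCO.PIDone
import Pool.Agent.HCO.PIDsmall
import Pool.Agent.HCO.PL
import Pool.Agent.HCO.R1
import Pool.Agent.HCO.RP
import Pool.Agent.HCO.RP2
import Pool.Agent.HCO.Retr
import Pool.Agent.HCO.SPdist
import Pool.Agent.HCO.SPfin
import Pool.Agent.HCO.SPsmall
import Pool.Agent.HCO.SPssp
import Pool.Agent.HCO.SSPT
import Pool.Agent.HCO.SSPc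
import Pool.Agent.HCO.Scat
import Pool.Agent.HCO.Small
import Pool.Agent.HCO.Szm
import Pool.Agent.HCO.TH
import Pool.Agent.HCO.Z1
import Pool.Agent.HCO.Z1a
import Pool.Agent.HCO.Z1b
import Pool.Agent.HCO.Zfc

/-!
# Assembly: all statements of parts 1 to 4 are theorems
-/

set_option autoImplicit false

open Set Topology Cardinal Ordinal Order Filter

universe u v w

namespace Pool.Agent.HCO

theorem fin_Der : St_Der.{u} := thm_Der

theorem fin_Scat : St_Scat.{u} := thm_Scat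

theorem fin_OHomeo : St_OHomeo.{u} := thm_OHomeo

theorem fin_OUnion : St_OUnion.{u} := thm_OUnion

theorem fin_OTr : St_OTr.{u} := thm_OTr

theorem fin_Exists : St_Exists.{u} := thm_Exists fin_Der fin_Scat fin_OHomeo fin_OUnion fin_OTr

theorem fin_Big : St_Big.{u} := thm_Big fin_Der

theorem fin_BigNot : St_BigNot.{u} := thm_BigNot fin_Der fin_Big fin_OTr fin_OUnion

theorem fin_BigMin : St_BigMin.{u} := thm_BigMin fin_Der fin_BigNot fin_OTr

theorem fin_OSize : St_OSize.{u} := thm_OSize fin_Der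

theorem fin_NA : St_NA.{u} := thm_NA

theorem fin_OSigma : St_OSigma.{u} := thm_OSigma

theorem fin_NSig : St_NSig.{u} := thm_NSig fin_OSigma fin_Der

theorem fin_Z1a : St_Z1a.{u} := thm_Z1a fin_Der fin_NA fin_NSig fin_BigNot fin_OSigma fin_OTr

theorem fin_OAcc : St_OAcc.{u} := thm_OAcc

theorem fin_OAcc1 : St_OAcc1.{u} := thm_OAcc1

theorem fin_OCnt : St_OCnt.{u} := thm_OCnt

theorem fin_Z1b : St_Z1b.{u} := thm_Z1b fin_Der fin_OAcc fin_OAcc1 fin_OCnt fin_NSig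

theorem fin_Z1 : St_Z1.{u} := thm_Z1 fin_Z1a fin_Z1b

theorem fin_Small : St_Small.{u} := thm_Small fin_Der fin_OSize fin_Z1

theorem fin_A1cnt : St_A1cnt.{u} := thm_A1cnt fin_Der fin_OCnt

theorem fin_Club : St_Club.{u} := thm_Club

theorem fin_R1 : St_R1.{u} := thm_R1 fin_Der fin_Club

theorem fin_A1cof : St_A1cof.{u} := thm_A1cof fin_Der fin_Small fin_A1cnt fin_R1 fin_Z1 fin_Club

theorem fin_C1ct : St_C1ct.{u} := thm_C1ct fin_Der fin_Small fin_OSize fin_Big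

theorem fin_CTpow : St_CTpow.{u} := thm_CTpow

theorem fin_Delta : St_Delta.{u} := thm_Delta fin_Club

theorem fin_MMs : St_MMs.{u, v} := thm_MMs

theorem fin_Ccc : St_Ccc.{u, v} := thm_Ccc fin_MMs fin_Club

theorem fin_Szm : St_Szm.{u} := thm_Szm fin_Delta fin_Ccc

theorem fin_C1 : St_C1.{u} := thm_C1 fin_C1ct fin_CTpow fin_Szm fin_Small fin_NSig fin_Big fin_Der
    fin_OSize

theorem fin_OCtble : St_OCtble.{u} := thm_OCtble

theorem fin_LS : St_LS.{u} := thm_LS fin_Der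

theorem fin_OClos : St_OClos.{u} := thm_OClos

theorem fin_KU : St_KU.{u} := thm_KU fin_Der fin_Small fin_LS fin_OClos fin_OCnt fin_BigNot fin_Z1
    fin_Club

theorem fin_KU2 : St_KU2.{u} := thm_KU2 fin_KU fin_OCnt

theorem fin_KU3 : St_KU3.{u} := thm_KU3 fin_KU2 fin_LS fin_OClos fin_Der

theorem fin_C3B : St_C3B.{u} := thm_C3B fin_A1cnt fin_A1cof fin_NSig fin_OCtble fin_KU3 fin_Der

theorem fin_C3size : St_C3size.{u} := thm_C3size fin_C3B fin_KU2 fin_LS fin_OClos fin_Small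
    fin_A1cof fin_Der

theorem fin_C3pc : St_C3pc.{u} := thm_C3pc fin_C3B fin_C3size fin_KU3 fin_A1cof fin_Club

theorem fin_C3mm : St_C3mm.{u} := thm_C3mm fin_Club fin_Delta fin_Ccc

theorem fin_C3 : St_C3.{u} := thm_C3 fin_C3pc fin_C3mm fin_KU2 fin_KU3 fin_Big fin_A1cof fin_Club

theorem fin_C2a : St_C2a.{u} := thm_C2a fin_OCnt fin_Der

theorem fin_C2b : St_C2b.{u} := thm_C2b fin_C2a fin_Big fin_Der

theorem fin_PIDgen : St_PIDgen.{u} := thm_PIDgen

theorem fin_PIDone : St_PIDone.{u} := thm_PIDone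

theorem fin_PIDsmall : St_PIDsmall.{u} := thm_PIDsmall

theorem fin_SSPc : St_SSPc.{u, v} := thm_SSPc

theorem fin_CCex : St_CCex.{u, v} := thm_CCex fin_Club

theorem fin_SSPT : St_SSPT.{u, v, w} := thm_SSPT fin_SSPc fin_CCex

theorem fin_Len : St_Len.{u, v} := thm_Len

theorem fin_PID : St_PID.{u} := thm_PID fin_PIDgen fin_PIDone fin_PIDsmall fin_MMs fin_SSPT
    fin_CCex fin_Len fin_Club

theorem fin_C2 : St_C2.{u} := thm_C2 fin_C2a fin_C2b fin_PID fin_NA fin_NSig fin_Der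

theorem fin_A : St_A.{u} := thm_A fin_BigMin fin_A1cof fin_C1 fin_C3 fin_C2

theorem fin_B2 : St_B2.{u} := thm_B2 fin_Der fin_Big fin_OAcc

theorem fin_Chain : St_Chain.{u} := thm_Chain fin_NSig

theorem fin_FB : St_FB.{u} := thm_FB fin_OCnt fin_Club

theorem fin_B3 : St_B3.{u} := thm_B3 fin_Chain fin_FB

theorem fin_TH : St_TH.{u} := thm_TH fin_Small fin_Club fin_Der

theorem fin_B : St_B.{u} := thm_B fin_BigMin fin_B2 fin_B3 fin_TH

theorem fin_Filt : St_Filt.{u} := thm_Filt fin_Club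

theorem fin_P4key : St_P4key.{u} := thm_P4key fin_Filt

theorem fin_N : St_N.{u} := thm_N fin_Filt fin_Club

theorem fin_Gf : St_Gf.{u} := thm_Gf fin_N fin_Filt

theorem fin_P4ssp : St_P4ssp.{u} := thm_P4ssp fin_P4key fin_N fin_Gf fin_Filt fin_SSPT

theorem fin_P4one : St_P4one.{u} := thm_P4one fin_Gf fin_Filt fin_Club

theorem fin_C4b : St_C4b.{u} := thm_C4b fin_Filt fin_Club fin_Der

theorem fin_OE : St_OE.{u} := thm_OE fin_Big fin_C4b fin_Filt fin_Club

theorem fin_C4 : St_C4.{u} := thm_C4 fin_P4ssp fin_P4one fin_OE fin_C4b fin_Small fin_BigNot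
    fin_Filt fin_Der

theorem fin_CMP : St_CMP.{u} := thm_CMP fin_Club

theorem fin_CV : St_CV.{u} := thm_CV fin_CMP fin_LS fin_OClos fin_Filt fin_Club fin_Der

theorem fin_LU : St_LU.{u} := thm_LU fin_MMs fin_SSPT

theorem fin_C5a : St_C5a.{u} := thm_C5a fin_CV fin_LU fin_Club

theorem fin_C5b : St_C5b.{u} := thm_C5b fin_Der fin_OCnt fin_Club

theorem fin_FC : St_FC.{u} := thm_FC fin_Der fin_BigNot fin_Filt

theorem fin_C5 : St_C5.{u} := thm_C5 fin_C5a fin_C5b fin_FC fin_Small fin_OCnt fin_Club fin_Der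

theorem fin_BL : St_BL.{u} := thm_BL fin_FB fin_Filt

theorem fin_PL : St_PL.{u} := thm_PL fin_CMP fin_BL fin_Filt fin_Club fin_Der

theorem fin_Retr : St_Retr.{u} := thm_Retr fin_Filt

theorem fin_C6a : St_C6a.{u} := thm_C6a fin_PL fin_CMP fin_BL fin_Retr fin_LS fin_OClos fin_Filt
    fin_Der

theorem fin_SPfin : St_SPfin.{u} := thm_SPfin fin_MMs fin_Len fin_Club

theorem fin_G : St_G.{u} := thm_G fin_Club

theorem fin_CCex2 : St_CCex2.{u, v} := thm_CCex2 fin_Club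

theorem fin_SPdist : St_SPdist.{u} := thm_SPdist fin_CCex2

theorem fin_SPssp : St_SPssp.{u} := thm_SPssp fin_G fin_CCex2 fin_SPdist fin_SSPc fin_Club

theorem fin_SPsmall : St_SPsmall.{u} := thm_SPsmall

theorem fin_SP : St_SP.{u} := fin_SPfin fin_SPssp fin_SPdist fin_SPsmall

theorem fin_RP : St_RP.{u} := thm_RP fin_SP

theorem fin_RP2 : St_RP2.{u} := thm_RP2 fin_Club fin_RP

theorem fin_FB1 : St_FB1.{u} := thm_FB1 fin_FC fin_Filt fin_Club fin_Der

theorem fin_C6 : St_C6.{u} := thm_C6 fin_Club fin_C6a fin_PL fin_RP2 fin_FB1 fin_Retr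

theorem fin_C7t4 : St_C7t4.{u} := thm_C7t4 fin_Filt

theorem fin_C7t5 : St_C7t5.{u} := thm_C7t5 fin_Filt

theorem fin_C7n : St_C7n.{u} := thm_C7n fin_SP fin_C7t4 fin_C7t5 fin_PL fin_Retr fin_Club

theorem fin_C7 : St_C7.{u} := thm_C7 fin_C7n fin_OE fin_RP2 fin_PL fin_BL fin_FB1 fin_Retr fin_Club

theorem fin_C8 : St_C8.{u} := thm_C8 fin_CV fin_FC fin_Club fin_Der

theorem fin_Main : St_Main.{u} := thm_Main fin_Exists fin_A fin_B fin_TH fin_C4 fin_C5 fin_C6
    fin_C7 fin_C8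

theorem fin_Zfc : St_Zfc.{u} := thm_Zfc fin_Z1 fin_B fin_TH fin_C8 fin_C2a fin_KU fin_BigMin
    fin_A1cof fin_A1cnt fin_R1 fin_C3size fin_LS fin_Der fin_Club

end Pool.Agent.HCO
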