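import Pool.Agent.HCO.St4

/-!
# HCO [LU]: ladder uniformisation
-/

set_option autoImplicit false

open Set Topology Cardinal Ordinal Order Filter

universe u v w

namespace Pool.Agent.HCO

private theorem LU_lim : IsSuccLimit (w1 : Ordinal.{u}) :=
  Cardinal.isSuccLimit_ord (Cardinal.aleph0_le_aleph 1)

private theorem LU_succ {b : Ordinal.{u}} (h : b < w1) : b + 1 < w1 := by
  have := (LU_lim.{u}).succ_lt h
  rwa [Order.succ_eq_add_one] at this

private theorem LU_pos : (0 : Ordinal.{u}) < w1 := LU_lim.bot_lt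

private theorem LU_ctble {b : Ordinal.{u}} (h : b < w1) : (Iio b).Countable := by
  have h1 : b.card < Cardinal.aleph 1 := (Cardinal.lt_ord).1 h
  have h2 : b.card ≤ ℵ₀ := by
    have e : Cardinal.aleph 1 = Order.succ (ℵ₀ : Cardinal.{u}) := by
      rw [← Cardinal.aleph_zero, Cardinal.succ_aleph, zero_add]
    rw [e] at h1
    exact Order.lt_succ_iff.1 h1
  rw [← Cardinal.le_aleph0_iff_set_countable, Cardinal.mk_Iio_ordinal]
  have h3 := Cardinal.lift_le.{u + 1}.2 h2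
  simpa using h3

section

variable (S : Set Ordinal.{u}) (d m : Ordinal.{u} → ℕ → Ordinal.{u})

/-- conditions -/
private def LUC (p : Ordinal.{u} × (Ordinal.{u} → Ordinal.{u}) × Set Ordinal.{u}) : Prop :=
  p.1 < w1 ∧ (∀ x, p.2.1 x < w1) ∧ (∀ x, p.1 ≤ x → p.2.1 x = 0) ∧ (∀ x ∈ p.2.2, x ≤ p.1) ∧
    (∀ l ≤ p.1, IsSuccLimit l → (∀ b < l, ∃ c ∈ p.2.2, b < c ∧ c < l) → l ∈ p.2.2) ∧
    p.1 ∈ p.2.2 ∧ ∀ l ∈ p.2.2, l ∈ S → ∀ n, ∃ k ≥ n, m l k ≤ p.2.1 (d l k)

private def LUP : Type (u + 1) := {p // LUC S d m p}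

private instance : Preorder (LUP S d m) where
  le q p := p.1.1 ≤ q.1.1 ∧ (∀ x < p.1.1, q.1.2.1 x = p.1.2.1 x) ∧
    ∀ x ≤ p.1.1, (x ∈ q.1.2.2 ↔ x ∈ p.1.2.2)
  le_refl p := ⟨le_rfl, fun _ _ => rfl, fun _ _ => Iff.rfl⟩
  le_trans r q p h1 h2 := ⟨h2.1.trans h1.1,
    fun x hx => (h1.2.1 x (hx.trans_le h2.1)).trans (h2.2.1 x hx),
    fun x hx => (h1.2.2 x (hx.trans h2.1)).trans (h2.2.2 x hx)⟩

private theorem LU_le (q p : LUP S d m) : q ≤ p ↔ p.1.1 ≤ q.1.1 ∧
    (∀ x < p.1.1, q.1.2.1 x = p.1.2.1 x) ∧ ∀ x ≤ p.1.1, (x ∈ q.1.2.2 ↔ x ∈ p.1.2.2) := Iff.rfl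

private instance : Small.{u} (LUP S d m) := by
  let W := Iio (w1 : Ordinal.{u})
  have hW : Small.{u} W := inferInstance
  let f : LUP S d m → W × (W → W) × Set W := fun p =>
    (⟨p.1.1, p.2.1⟩, fun x => ⟨p.1.2.1 x, p.2.2.1 x⟩, {x | (x : Ordinal.{u}) ∈ p.1.2.2})
  refine small_of_injective (f := f) ?_
  intro p q h
  have h1 : p.1.1 = q.1.1 := congrArg (fun z : W × (W → W) × Set W => (z.1 : Ordinal.{u})) h
  have h2 : ∀ x < w1, p.1.2.1 x = q.1.2.1 x := fun x hx =>
    congrArg (fun z : W × (W → W) × Set W => ((z.2.1 ⟨x, hx⟩ : W) : Ordinal.{u})) h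
  have h3 : ∀ x < w1, (x ∈ p.1.2.2 ↔ x ∈ q.1.2.2) := fun x hx => by
    have := congrArg (fun z : W × (W → W) × Set W => (⟨x, hx⟩ : W) ∈ z.2.2) h
    exact iff_of_eq this
  apply Subtype.ext
  refine Prod.ext h1 (Prod.ext ?_ ?_)
  · funext x
    by_cases hx : x < w1
    · exact h2 x hx
    · have hp := p.2.1
      have hq := q.2.1
      rw [p.2.2.2.1 x (hp.le.trans (not_lt.1 hx)), q.2.2.2.1 x (hq.le.trans (not_lt.1 hx))]
  · ext x
    by_cases hx : x < w1
    · exact h3 x hx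
    · constructor
      · intro h4
        exact absurd ((p.2.2.2.2.1 x h4).trans_lt p.2.1) hx
      · intro h4
        exact absurd ((q.2.2.2.2.1 x h4).trans_lt q.2.1) hx

variable (hS : ∀ l ∈ S, l < w1 → IsSuccLimit l ∧ StrictMono (d l) ∧ (∀ n, d l n < l) ∧
      (∀ b < l, ∃ n, b < d l n) ∧ ∀ n, m l n < l)

include hS in
private theorem LU_pt (p : LUP S d m) (b v : Ordinal.{u}) (hb : p.1.1 ≤ b) (hb' : b < w1)
    (hv : v < w1) : ∃ q ≤ p, q.1.1 = b + 1 ∧ q.1.2.1 b = v := by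
  classical
  obtain ⟨⟨len, g, a⟩, hp⟩ := p
  have hlen : len < w1 := hp.1
  have hg : ∀ x, g x < w1 := hp.2.1
  have ha : ∀ x ∈ a, x ≤ len := hp.2.2.2.1
  have hcl : ∀ l ≤ len, IsSuccLimit l → (∀ b < l, ∃ c ∈ a, b < c ∧ c < l) → l ∈ a :=
    hp.2.2.2.2.1
  have hC : ∀ l ∈ a, l ∈ S → ∀ n, ∃ k ≥ n, m l k ≤ g (d l k) := hp.2.2.2.2.2.2
  have hb1 : len ≤ b := hb
  have hbb : b < b + 1 := lt_add_one b
  have hnl : ¬ IsSuccLimit (b + 1) := by
    intro h
    rw [← Order.succ_eq_add_one] at h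
    exact Order.not_isSuccLimit_succ b h
  let g' : Ordinal.{u} → Ordinal.{u} := fun x => if x < len then g x else if x = b then v else 0
  have hg'1 : ∀ x < len, g' x = g x := fun x hx => if_pos hx
  have hq : LUC S d m (b + 1, g', insert (b + 1) a) := by
    refine ⟨LU_succ hb', ?_, ?_, ?_, ?_, ?_, ?_⟩
    · intro x
      show (if x < len then g x else if x = b then v else 0) < w1
      split_ifs
      · exact hg x
      · exact hv
      · exact LU_pos
    · intro x hx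
      have hx' : b + 1 ≤ x := hx
      show (if x < len then g x else if x = b then v else 0) = 0
      rw [if_neg (not_lt.2 ((hb1.trans hbb.le).trans hx')), if_neg]
      rintro rfl
      exact absurd hx' (not_le.2 hbb)
    · intro x hx
      rcases hx with rfl | hx
      · exact le_rfl
      · exact ((ha x hx).trans hb1).trans hbb.le
    · intro l hl hlim hcof
      have hlb : l ≠ b + 1 := by
        rintro rfl
        exact hnl hlim
      have hlb' : l < b + 1 := lt_of_le_of_ne hl hlb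
      have hcof' : ∀ b' < l, ∃ c ∈ a, b' < c ∧ c < l := by
        intro b' hb''
        obtain ⟨c, hc, h1, h2⟩ := hcof b' hb''
        rcases hc with rfl | hc
        · exact absurd (h2.trans hlb') (lt_irrefl _)
        · exact ⟨c, hc, h1, h2⟩
      right
      refine hcl l ?_ hlim hcof'
      by_contra hlen'
      obtain ⟨c, hc, h1, h2⟩ := hcof' len (not_le.1 hlen')
      exact absurd (ha c hc) (not_le.2 h1)
    · exact Or.inl rfl
    · intro l hl hlS n
      rcases hl with rfl | hl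
      · exact absurd (hS _ hlS (LU_succ hb')).1 hnl
      · obtain ⟨k, hk, hk'⟩ := hC l hl hlS n
        refine ⟨k, hk, ?_⟩
        have h1 : d l k < l := (hS l hlS ((ha l hl).trans_lt hlen)).2.2.1 k
        show m l k ≤ g' (d l k)
        rw [hg'1 _ (h1.trans_le (ha l hl))]
        exact hk'
  refine ⟨⟨(b + 1, g', insert (b + 1) a), hq⟩, ⟨hb1.trans hbb.le, hg'1, ?_⟩, rfl, ?_⟩
  · intro x hx
    have hx' : x ≤ len := hx
    constructor
    · rintro (h | h)
      · rw [h] at hx'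
        exact absurd (hb1.trans_lt hbb) (not_lt.2 hx')
      · exact h
    · exact fun h => Or.inr h
  · show (if b < len then g b else if b = b then v else 0) = v
    rw [if_neg (not_lt.2 hb1), if_pos rfl]

private theorem LU_init (hS : ∀ l ∈ S, l < w1 → IsSuccLimit l ∧ StrictMono (d l) ∧
    (∀ n, d l n < l) ∧ (∀ b < l, ∃ n, b < d l n) ∧ ∀ n, m l n < l) : Nonempty (LUP S d m) := by
  refine ⟨⟨(0, fun _ => 0, {0}), LU_pos, fun _ => LU_pos, fun _ _ => rfl, ?_, ?_, rfl, ?_⟩⟩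
  · rintro x rfl
    exact le_rfl
  · intro l hl hlim _
    have hl' : l ≤ 0 := hl
    exact absurd hlim.bot_lt (not_lt.2 hl')
  · rintro l rfl hlS
    exact absurd (hS 0 hlS LU_pos).1.bot_lt (lt_irrefl _)

include hS in
/-- the limit step -/
private theorem LU_limit (p : ℕ → LUP S d m) (hp : ∀ n, p (n + 1) ≤ p n) (δ : Ordinal.{u})
    (hδ : δ < w1) (hlim : IsSuccLimit δ) (hlt : ∀ n, (p n).1.1 < δ)
    (hcof : ∀ b < δ, ∃ n, b < (p n).1.1)
    (hSδ : δ ∈ S → ∀ n, ∃ k ≥ n, ∃ j, d δ k < (p j).1.1 ∧ m δ k ≤ (p j).1.2.1 (d δ k)) :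
    ∃ q : LUP S d m, (∀ n, q ≤ p n) ∧ q.1.1 = δ := by
  classical
  have hmono : ∀ i j, i ≤ j → p j ≤ p i := by
    intro i j hij
    induction j, hij using Nat.le_induction with
    | base => exact le_rfl
    | succ j _ ih => exact (hp j).trans ih
  have hlen : ∀ i j, i ≤ j → (p i).1.1 ≤ (p j).1.1 := fun i j hij => (hmono i j hij).1
  -- the union of the functions
  have hgc : ∀ i j x, x < (p i).1.1 → x < (p j).1.1 → (p i).1.2.1 x = (p j).1.2.1 x := by
    intro i j x hi hj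
    rcases le_total i j with h | h
    · exact ((hmono i j h).2.1 x hi).symm
    · exact (hmono j i h).2.1 x hj
  have hac : ∀ i j x, x ≤ (p i).1.1 → x ≤ (p j).1.1 → (x ∈ (p i).1.2.2 ↔ x ∈ (p j).1.2.2) := by
    intro i j x hi hj
    rcases le_total i j with h | h
    · exact ((hmono i j h).2.2 x hi).symm
    · exact (hmono j i h).2.2 x hj
  let g : Ordinal.{u} → Ordinal.{u} := fun x =>
    if h : ∃ n, x < (p n).1.1 then (p h.choose).1.2.1 x else 0
  have hg : ∀ n x, x < (p n).1.1 → g x = (p n).1.2.1 x := by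
    intro n x hx
    have h : ∃ n, x < (p n).1.1 := ⟨n, hx⟩
    show (if h : ∃ n, x < (p n).1.1 then (p h.choose).1.2.1 x else 0) = _
    rw [dif_pos h]
    exact hgc _ _ x h.choose_spec hx
  let a : Set Ordinal.{u} := {x | x = δ ∨ ∃ n, x ∈ (p n).1.2.2}
  have ha : ∀ n x, x ≤ (p n).1.1 → (x ∈ a ↔ x ∈ (p n).1.2.2) := by
    intro n x hx
    constructor
    · rintro (h | ⟨j, h⟩)
      · rw [h] at hx
        exact absurd (hlt n) (not_lt.2 hx)
      · exact (hac j n x ((p j).2.2.2.2.1 x h) hx).1 h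
    · exact fun h => Or.inr ⟨n, h⟩
  have hq : LUC S d m (δ, g, a) := by
    refine ⟨hδ, ?_, ?_, ?_, ?_, Or.inl rfl, ?_⟩
    · intro x
      show (if h : ∃ n, x < (p n).1.1 then (p h.choose).1.2.1 x else 0) < w1
      split_ifs with h
      · exact (p h.choose).2.2.1 x
      · exact LU_pos
    · intro x hx
      have hx' : δ ≤ x := hx
      show (if h : ∃ n, x < (p n).1.1 then (p h.choose).1.2.1 x else 0) = 0
      rw [dif_neg]
      rintro ⟨n, hn⟩
      exact absurd ((hx'.trans_lt hn).trans (hlt n)) (lt_irrefl _)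
    · rintro x (h | ⟨n, h⟩)
      · exact h.le
      · exact ((p n).2.2.2.2.1 x h).trans (hlt n).le
    · intro l hl hll hcof'
      have hl' : l ≤ δ := hl
      rcases hl'.eq_or_lt with h | h
      · exact Or.inl h
      · obtain ⟨n, hn⟩ := hcof l h
        rw [show (δ, g, a).2.2 = a from rfl, ha n l hn.le]
        refine (p n).2.2.2.2.2.1 l hn.le hll (fun b hb => ?_)
        obtain ⟨c, hc, h1, h2⟩ := hcof' b hb
        exact ⟨c, (ha n c (h2.trans hn).le).1 hc, h1, h2⟩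
    · intro l hl hlS n
      have hla : l ∈ a := hl
      show ∃ k ≥ n, m l k ≤ g (d l k)
      rcases hla with h | ⟨j, h⟩
      · subst h
        obtain ⟨k, hk, j, hj, hj'⟩ := hSδ hlS n
        exact ⟨k, hk, by rw [hg j _ hj]; exact hj'⟩
      · obtain ⟨k, hk, hk'⟩ := (p j).2.2.2.2.2.2.2 l h hlS n
        refine ⟨k, hk, ?_⟩
        have h1 : l ≤ (p j).1.1 := (p j).2.2.2.2.1 l h
        have h2 : d l k < l := (hS l hlS (h1.trans_lt (p j).2.1)).2.2.1 k
        rw [hg j _ (h2.trans_le h1)]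
        exact hk'
  exact ⟨⟨(δ, g, a), hq⟩, fun n => ⟨(hlt n).le, fun x hx => hg n x hx, fun x hx => ha n x hx⟩, rfl⟩

end

theorem thm_LU (hM : St_MMs.{u, u + 1}) (hP : St_SSPT.{u, u + 1, u + 1}) : St_LU.{u} := by
  classical
  intro hMM S d m hS
  -- extensions to dense sets
  have hne := LU_init S d m hS
  let pt : LUP S d m → Ordinal.{u} → Ordinal.{u} → LUP S d m := fun p b v =>
    if h : p.1.1 ≤ b ∧ b < w1 ∧ v < w1 then (LU_pt S d m hS p b v h.1 h.2.1 h.2.2).choose else p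
  have hpt : ∀ p b v, p.1.1 ≤ b → b < w1 → v < w1 → pt p b v ≤ p ∧ (pt p b v).1.1 = b + 1 ∧
      (pt p b v).1.2.1 b = v := by
    intro p b v h1 h2 h3
    have h : p.1.1 ≤ b ∧ b < w1 ∧ v < w1 := ⟨h1, h2, h3⟩
    have e : pt p b v = (LU_pt S d m hS p b v h.1 h.2.1 h.2.2).choose := dif_pos h
    rw [e]
    exact (LU_pt S d m hS p b v h.1 h.2.1 h.2.2).choose_spec
  have hSSP : SSP.{u, u + 1} (LUP S d m) := by
    refine hP (LUP S d m) (Ordinal.{u} ⊕ LUP S d m) Sum.inr Sum.inl Sum.inr_injective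
      (fun a _ b _ h => Sum.inl_injective h) ?_
    intro D hD hD'
    let ext : LUP S d m → Ordinal.{u} → LUP S d m := fun p a => (hD a p).choose
    have hext : ∀ p a, ext p a ≤ p ∧ ext p a ∈ D a := fun p a => (hD a p).choose_spec
    let F : List (Ordinal.{u} ⊕ LUP S d m) → Set (Ordinal.{u} ⊕ LUP S d m) := fun l =>
      match l with
      | [Sum.inr p] => {Sum.inl p.1.1}
      | [Sum.inr p, Sum.inl a] => {Sum.inr (ext p a)}
      | [Sum.inr p, Sum.inl b, Sum.inl v] => {Sum.inr (pt p b v)}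
      | _ => ∅
    refine ⟨F, ?_, ?_⟩
    · intro l
      show (match l with
        | [Sum.inr p] => {Sum.inl p.1.1}
        | [Sum.inr p, Sum.inl a] => {Sum.inr (ext p a)}
        | [Sum.inr p, Sum.inl b, Sum.inl v] => {Sum.inr (pt p b v)}
        | _ => ∅ : Set (Ordinal.{u} ⊕ LUP S d m)).Countable
      split
      · exact Set.countable_singleton _
      · exact Set.countable_singleton _
      · exact Set.countable_singleton _
      · exact Set.countable_empty
    · intro M _ hMF δ hδ hlim hMδ p hpM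
      have f1 : ∀ p : LUP S d m, Sum.inr p ∈ M → p.1.1 < δ := by
        intro p hp
        rw [← hMδ _ p.2.1]
        exact hMF [Sum.inr p] (by
          intro x hx
          rw [List.mem_singleton] at hx
          rw [hx]
          exact hp) rfl
      have f2 : ∀ (p : LUP S d m) (a : Ordinal.{u}), Sum.inr p ∈ M → a < δ →
          Sum.inr (ext p a) ∈ M := by
        intro p a hp ha
        refine hMF [Sum.inr p, Sum.inl a] (fun x hx => ?_) rfl
        rcases List.mem_cons.1 hx with rfl | hx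
        · exact hp
        · rw [List.mem_singleton] at hx
          rw [hx]
          exact (hMδ a (ha.trans hδ)).2 ha
      have f3 : ∀ (p : LUP S d m) (b v : Ordinal.{u}), Sum.inr p ∈ M → b < δ → v < δ →
          Sum.inr (pt p b v) ∈ M := by
        intro p b v hp hb hv
        refine hMF [Sum.inr p, Sum.inl b, Sum.inl v] (fun x hx => ?_) rfl
        rcases List.mem_cons.1 hx with rfl | hx
        · exact hp
        · rcases List.mem_cons.1 hx with rfl | hx
          · exact (hMδ b (hb.trans hδ)).2 hb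
          · rw [List.mem_singleton] at hx
            rw [hx]
            exact (hMδ v (hv.trans hδ)).2 hv
      -- enumeration of `δ`
      obtain ⟨en, hen⟩ := (LU_ctble hδ).exists_eq_range ⟨0, hlim.bot_lt⟩
      have hen1 : ∀ n, en n < δ := fun n => by
        have : en n ∈ Iio δ := by
          rw [hen]
          exact ⟨n, rfl⟩
        exact this
      have hen2 : ∀ a < δ, ∃ n, en n = a := fun a ha => by
        have : a ∈ Iio δ := ha
        rw [hen] at this
        exact this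
      -- one step
      have hstep : ∀ (n : ℕ) (s : {s : LUP S d m // Sum.inr s ∈ M}),
          ∃ t : {s : LUP S d m // Sum.inr s ∈ M}, t.1 ≤ s.1 ∧ t.1 ∈ D (en n) ∧ en n < t.1.1.1 ∧
            (δ ∈ S → ∃ k ≥ n, d δ k < t.1.1.1 ∧ m δ k ≤ t.1.1.2.1 (d δ k)) := by
        rintro n ⟨s, hs⟩
        have hsδ := f1 s hs
        -- choice of the point and the value
        have hbv : ∃ b v, b < δ ∧ v < δ ∧ s.1.1 ≤ b ∧ en n ≤ b ∧
            (δ ∈ S → ∃ k ≥ n, b = d δ k ∧ v = m δ k) := by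
          by_cases hδS : δ ∈ S
          · obtain ⟨_, h1, h2, h3, h4⟩ := hS δ hδS hδ
            obtain ⟨k₁, hk₁⟩ := h3 (max s.1.1 (en n)) (max_lt hsδ (hen1 n))
            have h5 : d δ k₁ ≤ d δ (max k₁ n) := h1.monotone (le_max_left _ _)
            refine ⟨d δ (max k₁ n), m δ (max k₁ n), h2 _, h4 _,
              ((le_max_left _ _).trans hk₁.le).trans h5,
              ((le_max_right _ _).trans hk₁.le).trans h5,
              fun _ => ⟨max k₁ n, le_max_right _ _, rfl, rfl⟩⟩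
          · exact ⟨max s.1.1 (en n), 0, max_lt hsδ (hen1 n), hlim.bot_lt, le_max_left _ _,
              le_max_right _ _, fun h => absurd h hδS⟩
        obtain ⟨b, v, hb, hv, hsb, heb, hk⟩ := hbv
        obtain ⟨g1, g2, g3⟩ := hpt s b v hsb (hb.trans hδ) (hv.trans hδ)
        have hM1 := f3 s b v hs hb hv
        obtain ⟨g4, g5⟩ := hext (pt s b v) (en n)
        have g6 : b < (ext (pt s b v) (en n)).1.1 := by
          have := g4.1
          rw [g2] at this
          exact (lt_add_one b).trans_le this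
        refine ⟨⟨ext (pt s b v) (en n), f2 _ _ hM1 (hen1 n)⟩, g4.trans g1, g5,
          heb.trans_lt g6, fun h => ?_⟩
        obtain ⟨k, hk1, hk2, hk3⟩ := hk h
        refine ⟨k, hk1, by rw [← hk2]; exact g6, ?_⟩
        have g7 : (ext (pt s b v) (en n)).1.2.1 b = (pt s b v).1.2.1 b :=
          g4.2.1 b (by rw [g2]; exact lt_add_one b)
        show m δ k ≤ (ext (pt s b v) (en n)).1.2.1 (d δ k)
        rw [← hk2, g7, g3, hk3]
      choose nx hnx using hstep
      let sq : ℕ → {s : LUP S d m // Sum.inr s ∈ M} := fun n =>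
        Nat.rec ⟨p, hpM⟩ (fun n s => nx n s) n
      have hsq : ∀ n, sq (n + 1) = nx n (sq n) := fun n => rfl
      have hsq0 : (sq 0).1 = p := rfl
      obtain ⟨q, hq, _⟩ := LU_limit S d m hS (fun n => (sq n).1)
        (fun n => by
          show (sq (n + 1)).1 ≤ (sq n).1
          rw [hsq]
          exact (hnx n (sq n)).1) δ hδ hlim (fun n => f1 _ (sq n).2)
        (fun b hb => by
          obtain ⟨n, hn⟩ := hen2 b hb
          refine ⟨n + 1, ?_⟩
          show b < (sq (n + 1)).1.1.1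
          rw [hsq, ← hn]
          exact (hnx n (sq n)).2.2.1)
        (fun hδS n => by
          obtain ⟨k, hk, h1, h2⟩ := (hnx n (sq n)).2.2.2 hδS
          refine ⟨k, hk, n + 1, ?_, ?_⟩
          · show d δ k < (sq (n + 1)).1.1.1
            rw [hsq]
            exact h1
          · show m δ k ≤ (sq (n + 1)).1.1.2.1 (d δ k)
            rw [hsq]
            exact h2)
      refine ⟨q, hq 0, fun a ha r hr => ?_⟩
      obtain ⟨n, hn⟩ := hen2 a ha
      refine ⟨(sq (n + 1)).1, (sq (n + 1)).2, ?_, r, le_rfl, hr.trans (hq (n + 1))⟩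
      rw [hsq, ← hn]
      exact (hnx n (sq n)).2.1
  -- the filter
  obtain ⟨G, hG, hGD⟩ := hM hMM (LUP S d m) hSSP (fun b => {p | b ≤ p.1.1}) (by
    intro b hb p
    obtain ⟨h1, h2, _⟩ := hpt p (max p.1.1 b) 0 (le_max_left _ _) (max_lt p.2.1 hb) LU_pos
    refine ⟨pt p (max p.1.1 b) 0, h1, ?_⟩
    show b ≤ (pt p (max p.1.1 b) 0).1.1
    rw [h2]
    exact (le_max_right _ _).trans (lt_add_one _).le)
  obtain ⟨_, _, hGc⟩ := hG
  have hgc : ∀ p ∈ G, ∀ q ∈ G, ∀ x, x < p.1.1 → x < q.1.1 → p.1.2.1 x = q.1.2.1 x := by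
    intro p hp q hq x h1 h2
    obtain ⟨r, _, hrp, hrq⟩ := hGc p hp q hq
    rw [← hrp.2.1 x h1, ← hrq.2.1 x h2]
  have hac : ∀ p ∈ G, ∀ q ∈ G, ∀ x, x ≤ p.1.1 → x ∈ q.1.2.2 → x ∈ p.1.2.2 := by
    intro p hp q hq x h1 h2
    obtain ⟨r, _, hrp, hrq⟩ := hGc p hp q hq
    rw [← hrp.2.2 x h1, hrq.2.2 x (q.2.2.2.2.1 x h2)]
    exact h2
  let g : Ordinal.{u} → Ordinal.{u} := fun x =>
    if h : ∃ p, p ∈ G ∧ x < p.1.1 then h.choose.1.2.1 x else 0
  have hg : ∀ p ∈ G, ∀ x, x < p.1.1 → g x = p.1.2.1 x := by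
    intro p hp x hx
    have h : ∃ p, p ∈ G ∧ x < p.1.1 := ⟨p, hp, hx⟩
    have e : g x = h.choose.1.2.1 x := dif_pos h
    rw [e]
    exact hgc _ h.choose_spec.1 _ hp x h.choose_spec.2 hx
  refine ⟨g, {x | ∃ p ∈ G, x ∈ p.1.2.2}, ?_, ⟨?_, ?_, ?_⟩, ?_⟩
  · intro x hx
    obtain ⟨p, hp, h1⟩ := hGD (x + 1) (LU_succ hx)
    have h1' : x + 1 ≤ p.1.1 := h1
    rw [hg p hp x ((lt_add_one x).trans_le h1')]
    exact p.2.2.1 x
  · rintro x ⟨p, _, hx⟩
    exact (p.2.2.2.2.1 x hx).trans_lt p.2.1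
  · intro b hb
    obtain ⟨p, hp, h1⟩ := hGD (b + 1) (LU_succ hb)
    have h1' : b + 1 ≤ p.1.1 := h1
    exact ⟨p.1.1, ⟨p, hp, p.2.2.2.2.2.2.1⟩, (lt_add_one b).trans_le h1'⟩
  · intro l hl hlim hcof
    obtain ⟨p, hp, h1⟩ := hGD l hl
    have h1' : l ≤ p.1.1 := h1
    refine ⟨p, hp, p.2.2.2.2.2.1 l h1' hlim (fun b hb => ?_)⟩
    obtain ⟨c, ⟨q, hq, hcq⟩, h2, h3⟩ := hcof b hb
    exact ⟨c, hac p hp q hq c (h3.le.trans h1') hcq, h2, h3⟩
  · rintro l ⟨p, hp, hlp⟩ hlS n
    obtain ⟨k, hk, hk'⟩ := p.2.2.2.2.2.2.2 l hlp hlS n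
    have h1 : l ≤ p.1.1 := p.2.2.2.2.1 l hlp
    have h2 : d l k < l := (hS l hlS (h1.trans_lt p.2.1)).2.2.1 k
    refine ⟨k, hk, ?_⟩
    rw [hg p hp _ (h2.trans_le h1)]
    exact hk'

end Pool.Agent.HCO
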