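import Pool.Agent.HCO.St4

set_option autoImplicit false

open Set Topology Cardinal Ordinal Order Filter

universe u v w

namespace Pool.Agent.HCO

section

variable {X : Type u} [TopologicalSpace X] [CompactSpace X] [T2Space X]
  [TotallyDisconnectedSpace X]

private theorem P4key_sep (a b : X) : ∃ C : Set X, a ≠ b → IsClopen C ∧ a ∈ C ∧ b ∉ C := by
  have : TotallySeparatedSpace X := inferInstance
  by_cases h : a = b
  · exact ⟨univ, fun h' => absurd h h'⟩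
  · obtain ⟨C, hC, ha, hb⟩ := exists_isClopen_of_totally_separated h
    exact ⟨C, fun _ => ⟨hC, ha, hb⟩⟩

/-- a countable clopen set has only countably many clopen subsets -/
private theorem P4key_clopen (Y : Set X) (hY : IsClopen Y) (hc : Y.Countable) :
    {O : Set X | IsClopen O ∧ O ⊆ Y}.Countable := by
  classical
  choose C hC using (P4key_sep (X := X))
  have hcY : Countable Y := hc.to_subtype
  have hcomp : IsCompact Y := hY.1.isCompact
  let Θ : Finset (Y × Finset Y) → Set X := fun s =>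
    {z | ∃ e ∈ s, (∀ v ∈ e.2, z ∈ C e.1.1 v.1) ∧ z ∈ Y}
  have hr : (Set.range Θ).Countable := Set.countable_range Θ
  refine hr.mono ?_
  rintro O ⟨hO, hOY⟩
  -- separation of one point from the complement
  have h1 : ∀ a ∈ O, ∃ V : Finset Y, (∀ v ∈ V, v.1 ∉ O) ∧
      ∀ z ∈ Y, (∀ v ∈ V, z ∈ C a v.1) → z ∈ O := by
    intro a ha
    have hk : IsCompact (Y \ O) := hcomp.diff hO.2
    have hcov : Y \ O ⊆ ⋃ v : {v : Y // v.1 ∉ O}, (C a v.1.1)ᶜ := by
      intro v hv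
      have hne : a ≠ v := fun h => hv.2 (h ▸ ha)
      exact Set.mem_iUnion.2 ⟨⟨⟨v, hv.1⟩, hv.2⟩, (hC a v hne).2.2⟩
    obtain ⟨t, ht⟩ := hk.elim_finite_subcover _ (fun v : {v : Y // v.1 ∉ O} => by
      have hne : a ≠ v.1.1 := fun h => v.2 (h ▸ ha)
      exact (hC a v.1.1 hne).1.1.isOpen_compl) hcov
    refine ⟨t.image Subtype.val, ?_, ?_⟩
    · intro v hv
      obtain ⟨w, _, rfl⟩ := Finset.mem_image.1 hv
      exact w.2
    · intro z hz hzv
      by_contra hzO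
      obtain ⟨w, hw, hzw⟩ := Set.mem_iUnion₂.1 (ht ⟨hz, hzO⟩)
      exact hzw (hzv w.1 (Finset.mem_image_of_mem _ hw))
  have h1' : ∀ a : X, ∃ V : Finset Y, a ∈ O → (∀ v ∈ V, v.1 ∉ O) ∧
      ∀ z ∈ Y, (∀ v ∈ V, z ∈ C a v.1) → z ∈ O := by
    intro a
    by_cases ha : a ∈ O
    · obtain ⟨V, hV⟩ := h1 a ha
      exact ⟨V, fun _ => hV⟩
    · exact ⟨∅, fun h => absurd h ha⟩
  choose V hV using h1'
  have hkO : IsCompact O := hO.1.isCompact
  have hne : ∀ a ∈ O, ∀ v ∈ V a, a ≠ v.1 := fun a ha v hv h => (hV a ha).1 v hv (h ▸ ha)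
  obtain ⟨t, ht⟩ := hkO.elim_finite_subcover
    (fun a : {a : X // a ∈ O} => ⋂ v ∈ V a.1, C a.1 v.1) (fun a => by
      apply isOpen_biInter_finset
      intro v hv
      exact (hC a.1 v.1 (hne a.1 a.2 v hv)).1.2) (by
      intro a ha
      refine Set.mem_iUnion.2 ⟨⟨a, ha⟩, ?_⟩
      refine Set.mem_iInter₂.2 fun v hv => ?_
      exact (hC a v.1 (hne a ha v hv)).2.1)
  refine ⟨t.image (fun a => (⟨a.1, hOY a.2⟩, V a.1)), ?_⟩
  ext z
  constructor
  · rintro ⟨e, he, hz, hzY⟩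
    obtain ⟨a, ha, rfl⟩ := Finset.mem_image.1 he
    exact (hV a.1 a.2).2 z hzY hz
  · intro hz
    obtain ⟨a, ha, hza⟩ := Set.mem_iUnion₂.1 (ht hz)
    refine ⟨_, Finset.mem_image_of_mem _ ha, ?_, hOY hz⟩
    intro v hv
    exact Set.mem_iInter₂.1 hza v hv

/-- the bad points -/
private def P4key_bad (x : X) (K : Ordinal.{u} → Set X) (D : Ordinal.{u} → Set (P4 x K))
    (p : P4 x K) (a : Ordinal.{u}) : Set X :=
  {y | y ≠ x ∧ ∃ O : Set X, IsClopen O ∧ y ∈ O ∧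
    ∀ q ≤ p, q ∈ D a → ¬ (q.c \ p.c ⊆ O ∩ Uu K (ht K y))}

omit [CompactSpace X] [T2Space X] [TotallyDisconnectedSpace X] in
private theorem P4key_ht {x : X} {K : Ordinal.{u} → Set X} (hK : Filt x ℵ₁ K) {y : X}
    (hy : y ≠ x) {b : Ordinal.{u}} (hb : b < w1) (hyb : y ∉ K b) : b < ht K y := by
  obtain ⟨a, _, hya⟩ := hK.cover y hy
  have h1 : ht K y ∈ {a | y ∈ K a} := csInf_mem ⟨a, hya⟩
  by_contra hcon
  exact hyb (hK.mono _ _ (not_lt.1 hcon) hb h1)

private theorem P4key_notpos (hF : St_Filt.{u}) {x : X} {K : Ordinal.{u} → Set X}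
    (hK : Filt x ℵ₁ K) (hOE : OE1 X x) (D : Ordinal.{u} → Set (P4 x K))
    (hD : ∀ a, DenseP (D a)) (p : P4 x K) (a : Ordinal.{u}) :
    ¬ Pos x (P4key_bad x K D p a) := by
  classical
  intro hpos
  have h1 : ∀ y : X, ∃ O : Set X, y ∈ P4key_bad x K D p a → (IsClopen O ∧ y ∈ O ∧
      ∀ q ≤ p, q ∈ D a → ¬ (q.c \ p.c ⊆ O ∩ Uu K (ht K y))) := by
    intro y
    by_cases hy : y ∈ P4key_bad x K D p a
    · obtain ⟨O, hO⟩ := hy.2
      exact ⟨O, fun _ => hO⟩
    · exact ⟨univ, fun h => absurd h hy⟩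
  choose O hO using h1
  let p' : P4 x K :=
    { c := p.c
      Φ := p.Φ ∪ {(P4key_bad x K D p a, O)}
      closed := p.closed
      ct := p.ct
      nx := p.nx
      inj := p.inj
      pct := p.pct.union (Set.countable_singleton _)
      pos := by
        rintro f (hf | hf)
        · exact p.pos f hf
        · rw [Set.mem_singleton_iff] at hf
          subst hf
          exact ⟨hpos, fun y hy => ⟨(hO y hy).1, (hO y hy).2.1⟩⟩ }
  have hp'p : p' ≤ p := by
    refine ⟨subset_rfl, fun z hz hz' => absurd hz hz', Set.subset_union_left, ?_⟩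
    intro f hf
    have e : ({y | y ∈ f.1 ∧ p'.c \ p.c ⊆ f.2 y} : Set X) = f.1 := by
      ext y
      constructor
      · exact fun h => h.1
      · intro h
        refine ⟨h, ?_⟩
        rintro z ⟨hz, hz'⟩
        exact absurd hz hz'
    rw [e]
    exact Or.inl hf
  obtain ⟨q, hq, hqD⟩ := hD a p'
  have hqp : q ≤ p := le_trans hq hp'p
  have h2 := hq.2.2.2 (P4key_bad x K D p a, O) (Or.inr rfl)
  have h3 := (q.pos _ h2).1
  simp only at h3
  -- all of q.c is below some b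
  obtain ⟨b, hb, hqb⟩ := hF.cpt X x ℵ₁ K hK q.c q.closed q.nx
  have hKb := hK.clopen b hb
  have hacc : AccPt x (𝓟 (K b)ᶜ) := by
    have h4 : (K b)ᶜ ∈ 𝓝 x := hKb.compl.2.mem_nhds (hK.notin b hb)
    have h5 := hOE.1
    rw [accPt_iff_frequently] at h5 ⊢
    exact (h5.and_eventually h4).mono fun y hy => ⟨hy.1.1, hy.2⟩
  obtain ⟨y, ⟨hy1, hy2⟩, hyb, hyx⟩ := h3 (K b)ᶜ hKb.compl.1 hacc
  refine (hO y hy1).2.2 q hqp hqD ?_
  intro z hz
  exact ⟨hy2 hz, b, P4key_ht hK hyx hb hyb, hqb hz.1⟩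

end

theorem thm_P4key (hF : St_Filt.{u}) : St_P4key.{u} := by
  intro X _ _ _ _ x K hK hct hOE D hD hDo
  classical
  -- the closed sets
  have h1 : ∀ (p : P4 x K) (a : Ordinal.{u}), ∃ F : Set X, IsClosed F ∧ AccPt x (𝓟 F) ∧
      ∀ z ∈ P4key_bad x K D p a, z ∉ F := by
    intro p a
    have h := P4key_notpos hF hK hOE D hD p a
    unfold Pos at h
    push Not at h
    obtain ⟨F, hF1, hF2, hF3⟩ := h
    exact ⟨F, hF1, hF2, fun z hz hzF => hz.1 (hF3 z hz hzF)⟩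
  choose Fp hFp1 hFp2 hFp3 using h1
  have h2 : ∀ p : P4 x K, ∃ b < w1.{u}, p.c ⊆ K b := fun p =>
    hF.cpt X x ℵ₁ K hK p.c p.closed p.nx
  choose bp hbp1 hbp2 using h2
  have h3 : ∀ (p : P4 x K) (a : Ordinal.{u}) (O : Set X), ∃ q : P4 x K,
      (∃ q ≤ p, q ∈ D a ∧ q.c \ p.c ⊆ O) → (q ≤ p ∧ q ∈ D a ∧ q.c \ p.c ⊆ O) := by
    intro p a O
    by_cases h : ∃ q ≤ p, q ∈ D a ∧ q.c \ p.c ⊆ O
    · obtain ⟨q, hq⟩ := h
      exact ⟨q, fun _ => hq⟩
    · exact ⟨p, fun h' => absurd h' h⟩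
  choose qf hqf using h3
  let S1 : List (Ordinal.{u} ⊕ P4 x K ⊕ Set X) → Set (Ordinal.{u} ⊕ P4 x K ⊕ Set X) := fun l =>
    {t | ∃ (p : P4 x K) (a : Ordinal.{u}), l = [Sum.inr (Sum.inl p), Sum.inl a] ∧
      t = Sum.inr (Sum.inr (Fp p a))}
  let S2 : List (Ordinal.{u} ⊕ P4 x K ⊕ Set X) → Set (Ordinal.{u} ⊕ P4 x K ⊕ Set X) := fun l =>
    {t | ∃ (b : Ordinal.{u}), l = [Sum.inl b] ∧ b < w1 ∧ ∃ O : Set X, IsClopen O ∧ O ⊆ K b ∧
      t = Sum.inr (Sum.inr O)}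
  let S3 : List (Ordinal.{u} ⊕ P4 x K ⊕ Set X) → Set (Ordinal.{u} ⊕ P4 x K ⊕ Set X) := fun l =>
    {t | ∃ (p : P4 x K) (a : Ordinal.{u}) (O : Set X),
      l = [Sum.inr (Sum.inl p), Sum.inl a, Sum.inr (Sum.inr O)] ∧
      t = Sum.inr (Sum.inl (qf p a O))}
  let S4 : List (Ordinal.{u} ⊕ P4 x K ⊕ Set X) → Set (Ordinal.{u} ⊕ P4 x K ⊕ Set X) := fun l =>
    {t | ∃ (p : P4 x K), l = [Sum.inr (Sum.inl p)] ∧ t = Sum.inl (bp p)}
  refine ⟨fun l => (S1 l ∪ S2 l) ∪ (S3 l ∪ S4 l), ?_, ?_⟩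
  · intro l
    refine Set.Countable.union (Set.Countable.union ?_ ?_) (Set.Countable.union ?_ ?_)
    · apply Set.Subsingleton.countable
      rintro t ⟨p, a, hl, rfl⟩ t' ⟨p', a', hl', rfl⟩
      rw [hl] at hl'
      simp only [List.cons.injEq, Sum.inr.injEq, Sum.inl.injEq, and_true] at hl'
      rw [hl'.1, hl'.2]
    · by_cases h : ∃ b : Ordinal.{u}, l = [Sum.inl b] ∧ b < w1
      · obtain ⟨b, hl, hb⟩ := h
        have hc := P4key_clopen (K b) (hK.clopen b hb) (hct b hb)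
        refine (hc.image (fun O => (Sum.inr (Sum.inr O) : Ordinal.{u} ⊕ P4 x K ⊕ Set X))).mono ?_
        rintro t ⟨b', hl', hb', O, hO, hOK, rfl⟩
        rw [hl] at hl'
        simp only [List.cons.injEq, Sum.inl.injEq, and_true] at hl'
        subst hl'
        exact ⟨O, ⟨hO, hOK⟩, rfl⟩
      · refine Set.countable_empty.mono ?_
        rintro t ⟨b', hl', hb', _⟩
        exact h ⟨b', hl', hb'⟩
    · apply Set.Subsingleton.countable
      rintro t ⟨p, a, O, hl, rfl⟩ t' ⟨p', a', O', hl', rfl⟩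
      rw [hl] at hl'
      simp only [List.cons.injEq, Sum.inr.injEq, Sum.inl.injEq, and_true] at hl'
      rw [hl'.1, hl'.2.1, hl'.2.2]
    · apply Set.Subsingleton.countable
      rintro t ⟨p, hl, rfl⟩ t' ⟨p', hl', rfl⟩
      rw [hl] at hl'
      simp only [List.cons.injEq, Sum.inr.injEq, Sum.inl.injEq, and_true] at hl'
      rw [hl']
  · intro M _ hM d hd hdl hMd z hz hzF p hp a ha O hO hzO
    have hd' : d < (ℵ₁ : Cardinal.{u}).ord := hd
    -- closure properties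
    have c1 : ∀ (p : P4 x K) (a : Ordinal.{u}), Sum.inr (Sum.inl p) ∈ M → Sum.inl a ∈ M →
        Sum.inr (Sum.inr (Fp p a)) ∈ M := by
      intro p a h1 h2
      refine hM [Sum.inr (Sum.inl p), Sum.inl a] ?_ (Or.inl (Or.inl ⟨p, a, rfl, rfl⟩))
      intro t ht
      simp only [List.mem_cons, List.not_mem_nil, or_false] at ht
      rcases ht with rfl | rfl
      · exact h1
      · exact h2
    have c2 : ∀ (b : Ordinal.{u}) (O : Set X), Sum.inl b ∈ M → b < w1 → IsClopen O → O ⊆ K b →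
        Sum.inr (Sum.inr O) ∈ M := by
      intro b O h1 h2 h3 h4
      refine hM [Sum.inl b] ?_ (Or.inl (Or.inr ⟨b, rfl, h2, O, h3, h4, rfl⟩))
      intro t ht
      simp only [List.mem_cons, List.not_mem_nil, or_false] at ht
      rcases ht with rfl
      exact h1
    have c3 : ∀ (p : P4 x K) (a : Ordinal.{u}) (O : Set X), Sum.inr (Sum.inl p) ∈ M →
        Sum.inl a ∈ M → Sum.inr (Sum.inr O) ∈ M → Sum.inr (Sum.inl (qf p a O)) ∈ M := by
      intro p a O h1 h2 h3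
      refine hM [Sum.inr (Sum.inl p), Sum.inl a, Sum.inr (Sum.inr O)] ?_
        (Or.inr (Or.inl ⟨p, a, O, rfl, rfl⟩))
      intro t ht
      simp only [List.mem_cons, List.not_mem_nil, or_false] at ht
      rcases ht with rfl | rfl | rfl
      · exact h1
      · exact h2
      · exact h3
    have c4 : ∀ (p : P4 x K), Sum.inr (Sum.inl p) ∈ M → Sum.inl (bp p) ∈ M := by
      intro p h1
      refine hM [Sum.inr (Sum.inl p)] ?_ (Or.inr (Or.inr ⟨p, rfl, rfl⟩))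
      intro t ht
      simp only [List.mem_cons, List.not_mem_nil, or_false] at ht
      rcases ht with rfl
      exact h1
    have haM : Sum.inl a ∈ M := (hMd a (ha.trans hd)).2 ha
    have hzK : z ∈ K d := hK.cl d hd' hz.1
    have hzx : z ≠ x := by
      rintro rfl
      exact hK.notin d hd' hzK
    have hht : ht K z = d := by
      apply le_antisymm
      · exact csInf_le (OrderBot.bddBelow _) hzK
      · by_contra hcon
        have h1 : ht K z ∈ {a | z ∈ K a} := csInf_mem ⟨d, hzK⟩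
        exact hz.2 ⟨ht K z, not_le.1 hcon, h1⟩
    have hzFp : z ∈ Fp p a := hzF _ (c1 p a hp haM) (hFp1 p a) (hFp2 p a)
    have hzb : z ∉ P4key_bad x K D p a := fun h => hFp3 p a z h hzFp
    have hex : ∃ q ≤ p, q ∈ D a ∧ q.c \ p.c ⊆ O ∩ Uu K d := by
      by_contra hcon
      push Not at hcon
      refine hzb ⟨hzx, O, hO, hzO, ?_⟩
      intro q hq hqD
      rw [hht]
      exact hcon q hq hqD
    obtain ⟨q, hq, hqD, hqO⟩ := hex
    -- q.c is below some b < d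
    have hbpd : bp p < d := (hMd _ (hbp1 p)).1 (c4 p hp)
    have hqU : q.c ⊆ Uu K d := by
      intro y hy
      by_cases hyp : y ∈ p.c
      · exact ⟨bp p, hbpd, hbp2 p hyp⟩
      · exact (hqO ⟨hy, hyp⟩).2
    obtain ⟨b, hb, hqb⟩ := hF.bd X x (ℵ₁ : Cardinal.{u}).ord K hK.toPreFilt d hd'.le hdl q.c
      q.closed hqU
    have hbw : b < w1 := hb.trans hd
    have hO' : IsClopen (O ∩ K b) := hO.inter (hK.clopen b hbw)
    have hO'M := c2 b (O ∩ K b) ((hMd b hbw).2 hb) hbw hO' Set.inter_subset_right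
    have hw := hqf p a (O ∩ K b) ⟨q, hq, hqD, fun y hy => ⟨(hqO hy).1, hqb hy.1⟩⟩
    exact ⟨qf p a (O ∩ K b), hw.1, c3 p a _ hp haM hO'M, hw.2.1,
      hw.2.2.trans Set.inter_subset_left⟩

end Pool.Agent.HCO
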