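import Pool.Agent.HCO.St4

set_option autoImplicit false

open Set Topology Cardinal Ordinal Order Filter

universe u v w

namespace Pool.Agent.HCO

theorem thm_SSPc : St_SSPc.{u, v} := by
  classical
  intro P _ H S hS R hR1 hR2 p
  have hw : (0 : Ordinal.{u}) < w1 := by
    unfold w1
    rw [Cardinal.lt_ord, Ordinal.card_zero]
    exact Cardinal.aleph_pos 1
  obtain ⟨N, d, hdS, hdw, hdl, hN, q, hqp, hq⟩ := H
    (fun a => if a < w1 then {q | ∃ b < w1, R q a b} else univ)
    (fun q a => if h : ∃ b < w1, R q a b then h.choose else 0) S p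
    (fun i => by
      by_cases hi : i < w1
      · simp only [if_pos hi]
        intro p
        exact hR2 p i hi
      · simp only [if_neg hi]
        intro p
        exact ⟨p, le_rfl, mem_univ _⟩)
    (fun i q hq r hr => by
      by_cases hi : i < w1
      · simp only [if_pos hi] at hq ⊢
        obtain ⟨b, hb, hb2⟩ := hq
        exact ⟨b, hb, hR1 q r i b hr hb2⟩
      · simp only [if_neg hi]
        exact mem_univ _)
    (fun q a => by
      by_cases h : ∃ b < w1, R q a b
      · simp only [dif_pos h]
        exact h.choose_spec.1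
      · simp only [dif_neg h]
        exact hw) hS
  refine ⟨q, hqp, d, hdS, hdw, hdl, ?_⟩
  intro a ha r hr
  obtain ⟨s, hsN, hsD, t, htr, hts⟩ := hq a ha r hr
  simp only [if_pos (ha.trans hdw)] at hsD
  have hsD' : ∃ b < w1, R s a b := hsD
  have h1 := hN s hsN a ha
  simp only [dif_pos hsD'] at h1
  exact ⟨t, htr, hsD'.choose, h1, hR1 s t a _ hts hsD'.choose_spec.2⟩

end Pool.Agent.HCO
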