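import Pool.Agent.HCO.Defs

/-!
# Statements, part 1: library, derivatives, ordinal subspaces, the minimal counterexample

Every `St_...` is proved in its own module as `theorem thm_... : St_...` (possibly from other
`St_...`).  The docstrings contain the proofs.
Conventions: `TD` = `TotallyDisconnectedSpace`; all spaces compact Hausdorff `TD` unless said
otherwise, so clopen sets form a basis and disjoint closed sets are separated by a clopen set.
-/

set_option autoImplicit false

open Set Topology Cardinal Ordinal Order Filter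

universe u v w

namespace Pool.Agent.HCO

/-! ## Library: clubs -/

/-- Standard facts on clubs of ordinals of uncountable cofinality (copy/generalise
`Pool/Agent/Helper4/KSq/Fodor.lean`, which is for `Ordinal.{0}`). -/
structure St_Club : Prop where
  /-- every bounded part: fewer than `cof o` ordinals below `o` are bounded in `o` -/
  sup : ∀ (o b : Ordinal.{u}) (f : Ordinal.{u} → Ordinal.{u}), b.card < o.cof →
    (∀ i < b, f i < o) → IsSuccLimit o → ∃ c < o, ∀ i < b, f i < c
  supT : ∀ (o : Ordinal.{u}) (ι : Type u) (f : ι → Ordinal.{u}), #ι < o.cof →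
    (∀ i, f i < o) → IsSuccLimit o → ∃ c < o, ∀ i, f i < c
  supN : ∀ (o : Ordinal.{u}) (f : ℕ → Ordinal.{u}), ℵ₀ < o.cof →
    (∀ i, f i < o) → ∃ c < o, ∀ i, f i < c
  univ : ∀ o : Ordinal.{u}, IsSuccLimit o → Club o (Iio o)
  inter : ∀ (o : Ordinal.{u}) (C D : Set Ordinal.{u}), ℵ₀ < o.cof → Club o C → Club o D →
    Club o (C ∩ D)
  inters : ∀ (o b : Ordinal.{u}) (C : Ordinal.{u} → Set Ordinal.{u}), ℵ₀ < o.cof →
    b.card < o.cof → (∀ i < b, Club o (C i)) → Club o {a | a < o ∧ ∀ i < b, a ∈ C i}
  intersN : ∀ (o : Ordinal.{u}) (C : ℕ → Set Ordinal.{u}), ℵ₀ < o.cof →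
    (∀ i, Club o (C i)) → Club o {a | a < o ∧ ∀ i, a ∈ C i}
  diag : ∀ (μ : Cardinal.{u}) (C : Ordinal.{u} → Set Ordinal.{u}), μ.IsRegular → ℵ₀ < μ →
    (∀ i < μ.ord, Club μ.ord (C i)) → Club μ.ord {a | a < μ.ord ∧ ∀ i < a, a ∈ C i}
  /-- limit points -/
  lim : ∀ (o : Ordinal.{u}) (C : Set Ordinal.{u}), ℵ₀ < o.cof → Club o C →
    Club o {a | a < o ∧ IsSuccLimit a ∧ ∀ b < a, ∃ c ∈ C, b < c ∧ c < a}
  /-- closure points of a function -/
  fn : ∀ (μ : Cardinal.{u}) (f : Ordinal.{u} → Ordinal.{u}), μ.IsRegular → ℵ₀ < μ →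
    (∀ a < μ.ord, f a < μ.ord) → Club μ.ord {a | a < μ.ord ∧ IsSuccLimit a ∧ ∀ b < a, f b < a}
  /-- closure points of a monotone function, any `o` of uncountable cofinality -/
  fnm : ∀ (o : Ordinal.{u}) (f : Ordinal.{u} → Ordinal.{u}), ℵ₀ < o.cof → (∀ a < o, f a < o) →
    (∀ a b, a ≤ b → b < o → f a ≤ f b) → Club o {a | a < o ∧ IsSuccLimit a ∧ ∀ b < a, f b < a}
  /-- a club contains an ordinal of countable cofinality -/
  cofw : ∀ (o : Ordinal.{u}) (C : Set Ordinal.{u}), ℵ₀ < o.cof → Club o C →
    ∃ a ∈ C, a < o ∧ IsSuccLimit a ∧ a.cof = ℵ₀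
  /-- a club in a regular `μ > ℵ₁` contains an ordinal of cofinality `ℵ₁` -/
  cofw1 : ∀ (μ : Cardinal.{u}) (C : Set Ordinal.{u}), μ.IsRegular → ℵ₁ < μ → Club μ.ord C →
    ∃ a ∈ C, a < μ.ord ∧ IsSuccLimit a ∧ a.cof = ℵ₁
  statInter : ∀ (o : Ordinal.{u}) (S C : Set Ordinal.{u}), ℵ₀ < o.cof → Stat o S → Club o C →
    Stat o (S ∩ C)
  split : ∀ (o : Ordinal.{u}) (S : ℕ → Set Ordinal.{u}), ℵ₀ < o.cof →
    Stat o (⋃ n, S n) → ∃ n, Stat o (S n)
  /-- Fodor -/
  fodor : ∀ (μ : Cardinal.{u}) (S : Set Ordinal.{u}) (f : Ordinal.{u} → Ordinal.{u}),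
    μ.IsRegular → ℵ₀ < μ → Stat μ.ord S → (∀ a ∈ S, f a < a) →
    ∃ b < μ.ord, Stat μ.ord {a | a ∈ S ∧ f a = b}

/-- Existence of countable closed `M` with `M ∩ ω₁ ∈ S` (`e` embeds `ω₁` in `T`).
Proof: `M(ξ)` := closure of `e '' Iio ξ` under the operation `F` of `ClubC` (countable for `ξ < ω₁`,
increasing, continuous at limits because lists are finite); `ξ ↦ sup {a + 1 | e a ∈ M(ξ)} < ω₁`, so
for a club of `ξ` one has `e a ∈ M(ξ) ↔ a < ξ`; pick `d = ξ ∈ S` in that club. -/
def St_CCex : Prop :=
  ∀ (T : Type v) (A : Set T → Prop) (e : Ordinal.{u} → T) (S : Set Ordinal.{u}),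
    Set.InjOn e (Iio w1) → Stat w1 S → ClubC T A →
    ∃ M : Set T, M.Countable ∧ A M ∧
      ∃ d ∈ S, d < w1 ∧ IsSuccLimit d ∧ ∀ a < w1, (e a ∈ M ↔ a < d)

/-- The version with two cardinals: also `sup (M ∩ μ) ∈ S2`.
Proof: for `ξ < μ` let `N(ξ)` := closure under `F` of `e2 '' Iio ξ ∪ e '' Iio w1`, of size `< μ`;
for a club of `ξ < μ`: `e2 a ∈ N(ξ) → a < ξ` (all `a < μ.ord`). Take `g ∈ S2` in this club, `g_n`
increasing to `g` and, for `α < ω₁`, `M(α)` := closure of `{e2 g_n} ∪ e '' Iio α`; it is contained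
in `N(g)`, so the `a` with `e2 a ∈ M(α)` are `< g` and cofinal in `g`; for a club of `α < ω₁`
one has `e a ∈ M(α) ↔ a < α`; take `d = α ∈ S` there. -/
def St_CCex2 : Prop :=
  ∀ (T : Type v) (A : Set T → Prop) (e e2 : Ordinal.{u} → T) (μ : Cardinal.{u})
    (S S2 : Set Ordinal.{u}), Set.InjOn e (Iio w1) → Set.InjOn e2 (Iio μ.ord) → μ.IsRegular →
    ℵ₁ < μ → Stat w1 S → Stat μ.ord S2 → (∀ a ∈ S2, IsSuccLimit a ∧ a.cof = ℵ₀) → ClubC T A →
    ∃ M : Set T, M.Countable ∧ A M ∧
      (∃ d ∈ S, d < w1 ∧ IsSuccLimit d ∧ ∀ a < w1, (e a ∈ M ↔ a < d)) ∧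
      ∃ g ∈ S2, g < μ.ord ∧ (∀ a < μ.ord, e2 a ∈ M → a < g) ∧
        ∀ b < g, ∃ a, b < a ∧ a < g ∧ e2 a ∈ M

/-! ## Library: forcing -/

/-- Transfer of `MM` to posets in any universe which are `u`-small (transport the order to
`Shrink P`). -/
def St_MMs : Prop :=
  MM.{u} → ∀ (P : Type v) [Small.{u} P] [Preorder P] [Nonempty P], SSP.{u, v} P →
    ∀ D : Ordinal.{u} → Set P, (∀ i < w1, DenseP (D i)) →
      ∃ G : Set P, IsFilt G ∧ ∀ i < w1, ∃ p ∈ G, p ∈ D i

/-- Criterion for `SSP`.  Proof: given `S`, `R`, `p` as in the definition of `SSP`, let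
`D a := {q | ∃ b < w1, R q a b}` (open dense for `a < w1`; put `D a := univ` otherwise) and `h q a` a
witness `b` (or `0`); apply the hypothesis: `s ∈ N ∩ D a`, `t ≤ r, s` gives `R t a (h s a)` with
`h s a < d`. -/
def St_SSPc : Prop :=
  ∀ (P : Type v) [Preorder P],
    (∀ (D : Ordinal.{u} → Set P) (h : P → Ordinal.{u} → Ordinal.{u}) (S : Set Ordinal.{u}) (p : P),
      (∀ i, DenseP (D i)) → (∀ i, ∀ q ∈ D i, ∀ r ≤ q, r ∈ D i) → (∀ q a, h q a < w1) →
      Stat w1 S →
      ∃ (N : Set P) (d : Ordinal.{u}), d ∈ S ∧ d < w1 ∧ IsSuccLimit d ∧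
        (∀ s ∈ N, ∀ a < d, h s a < d) ∧
        ∃ q ≤ p, ∀ a < d, ∀ r ≤ q, ∃ s ∈ N, s ∈ D a ∧ ∃ t, t ≤ r ∧ t ≤ s) →
    SSP.{u, v} P

/-- The usual form of the criterion (from `St_SSPc` and `St_CCex`): `P` is `SSP` if for every
family of dense open sets, for club many countable `M ⊆ T` every `p ∈ M` has an `(M,P)`-generic
extension. Here `i : P → T` and `e : ω₁ → T` are used to speak of the elements of `P` and of `ω₁`
in `M`. (Add to `M` closure under `h` and that `i p ∈ M`.) -/
def St_SSPT : Prop :=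
  ∀ (P : Type v) [Preorder P] (T : Type w) (i : P → T) (e : Ordinal.{u} → T),
    Function.Injective i → Set.InjOn e (Iio w1) →
    (∀ D : Ordinal.{u} → Set P, (∀ a, DenseP (D a)) → (∀ a, ∀ q ∈ D a, ∀ r ≤ q, r ∈ D a) →
      ClubC T (fun M => ∀ d < w1, IsSuccLimit d → (∀ a < w1, (e a ∈ M ↔ a < d)) →
        ∀ p, i p ∈ M → ∃ q ≤ p, ∀ a < d, ∀ r ≤ q, ∃ s, i s ∈ M ∧ s ∈ D a ∧
          ∃ t, t ≤ r ∧ t ≤ s)) →
    SSP.{u, v} P

/-- countable chain condition: among `ω₁` many conditions two are compatible -/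
def Ccc (P : Type v) [Preorder P] : Prop :=
  ∀ f : Ordinal.{u} → P, ∃ a b, a < b ∧ b < w1 ∧ ∃ r, r ≤ f a ∧ r ≤ f b

/-- `MM` for ccc posets, with an uncountable part of a given family in the filter.
Proof. (1) A ccc poset is `SSP`: given `S, R, p` choose for `a < w1` a maximal antichain (countable,
by ccc) inside `{q | ∃ b < w1, R q a b}`, let `h a < w1` bound the chosen witnesses `b`; take a limit
`d ∈ S` closed under `h` and `q = p`. (2) There is `p` such that for all `q ≤ p` and `a < w1` some
`b ∈ [a, w1)` has `f b` compatible with `q`: otherwise densely many `q` are incompatible with all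
`f b`, `b ≥ a(q)`; a maximal antichain of such `q` is countable, so `b := sup a(q) < w1` gives `f b`
incompatible with all of it, contradiction. (3) The poset `{q // q ≤ p}` is ccc and small; apply
`MM` (`St_MMs`) to the dense sets `D i` and `{q | ∃ b ≥ a, q ≤ f b}`, and take the upward closure
of the filter. -/
def St_Ccc : Prop :=
  MM.{u} → ∀ (P : Type v) [Small.{u} P] [Preorder P], Ccc.{u, v} P →
    ∀ (f : Ordinal.{u} → P) (D : Ordinal.{u} → Set P), (∀ i < w1, DenseP (D i)) →
      ∃ G : Set P, IsFilt G ∧ (∀ i < w1, ∃ p ∈ G, p ∈ D i) ∧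
        ∀ a < w1, ∃ b, a ≤ b ∧ b < w1 ∧ f b ∈ G

/-! ## Derivatives -/

/-- Calculus of derivatives; any topological space. All by (transfinite) induction from the
definition `z ∈ der F d ↔ z ∈ F ∧ ∀ e < d, AccPt z (𝓟 (der F e))`. -/
structure St_Der : Prop where
  iff : ∀ (X : Type u) [TopologicalSpace X] (F : Set X) (d : Ordinal.{u}) (z : X),
    z ∈ der F d ↔ z ∈ F ∧ ∀ e < d, AccPt z (𝓟 (der F e))
  zero : ∀ (X : Type u) [TopologicalSpace X] (F : Set X), der F 0 = F
  sub : ∀ (X : Type u) [TopologicalSpace X] (F : Set X) (a b : Ordinal.{u}), a ≤ b →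
    der F b ⊆ der F a
  mono : ∀ (X : Type u) [TopologicalSpace X] (F G : Set X) (a : Ordinal.{u}), F ⊆ G →
    der F a ⊆ der G a
  closed : ∀ (X : Type u) [TopologicalSpace X] [T1Space X] (F : Set X) (a : Ordinal.{u}),
    IsClosed F → IsClosed (der F a)
  union : ∀ (X : Type u) [TopologicalSpace X] (F G : Set X) (a : Ordinal.{u}), IsClosed F →
    IsClosed G → der (F ∪ G) a = der F a ∪ der G a
  inter : ∀ (X : Type u) [TopologicalSpace X] (F O : Set X) (a : Ordinal.{u}), IsOpen O →
    der (F ∩ O) a = der F a ∩ O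
  add : ∀ (X : Type u) [TopologicalSpace X] (F : Set X) (a b : Ordinal.{u}),
    der (der F a) b = der F (a + b)
  succ : ∀ (X : Type u) [TopologicalSpace X] (F : Set X) (a : Ordinal.{u}) (z : X),
    z ∈ der F (a + 1) ↔ z ∈ F ∧ AccPt z (𝓟 (der F a))
  limit : ∀ (X : Type u) [TopologicalSpace X] (F : Set X) (l : Ordinal.{u}) (z : X),
    IsSuccLimit l → (z ∈ der F l ↔ ∀ a < l, z ∈ der F a)
  /-- subspaces -/
  emb : ∀ (X : Type u) [TopologicalSpace X] (F : Set X) (G : Set F) (a : Ordinal.{u}) (z : F),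
    z ∈ der G a ↔ (z : X) ∈ der ((↑) '' G : Set X) a
  /-- homeomorphisms -/
  homeo : ∀ (X Z : Type u) [TopologicalSpace X] [TopologicalSpace Z] (F : Set X) (G : Set Z)
    (e : F ≃ₜ G) (a : Ordinal.{u}) (z : F), (z : X) ∈ der F a ↔ ((e z : G) : Z) ∈ der G a
  /-- compactness at limits -/
  compact : ∀ (X : Type u) [TopologicalSpace X] [CompactSpace X] [T1Space X] (F : Set X)
    (l : Ordinal.{u}), IsClosed F → IsSuccLimit l → der F l = ∅ → ∃ a < l, der F a = ∅

/-! ## Ordinal subspaces -/

/-- `IsOrd` is the right notion. (→) order `F` by `f`, let `α + 1` be its order type (it has a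
maximum by compactness, since the sets `{z | f z ≤ f a}` form an increasing open cover); the
order isomorphism `F → Iic α` is a bijection, continuous because the sets `{z | f z ≤ f a}` are
clopen in `F` (so rays `{z | f z < f a} = ⋃_{b<a} {z | f z ≤ f b}` and `{z | f z > f a}` are open);
compact to Hausdorff. (←) pull back; initial segments `Iic a` are clopen in `Iic α`; a relatively
clopen subset of a closed `F` is the trace of a clopen subset of `X`. -/
def St_OHomeo : Prop :=
  ∀ (X : Type u) [TopologicalSpace X] [CompactSpace X] [T2Space X] [TotallyDisconnectedSpace X]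
    (F : Set X), IsClosed F → F.Nonempty →
    (IsOrd F ↔ ∃ α : Ordinal.{u}, Nonempty (F ≃ₜ Set.Iic α))

/-- transfer along homeomorphisms of closed subsets of two spaces -/
def St_OTr : Prop :=
  ∀ (X Z : Type u) [TopologicalSpace X] [CompactSpace X] [T2Space X] [TotallyDisconnectedSpace X]
    [TopologicalSpace Z] [CompactSpace Z] [T2Space Z] [TotallyDisconnectedSpace Z]
    (F : Set X) (G : Set Z), IsClosed F → IsClosed G → (F ≃ₜ G) → IsOrd F → IsOrd G

/-- disjoint unions: put `G` after `F` -/
def St_OUnion : Prop :=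
  ∀ (X : Type u) [TopologicalSpace X] [CompactSpace X] [T2Space X] [TotallyDisconnectedSpace X]
    (F G : Set X), IsClosed F → IsClosed G → Disjoint F G → IsOrd F → IsOrd G → IsOrd (F ∪ G)

/-- countable unions: if `X \ {x}` is a countable union of closed sets, each closed set missing
`x` being ordinal, then `X` is ordinal. Proof: make the closed sets clopen (cover `A n` by a clopen
set missing `x`), increasing, and take differences `W n` (disjoint clopen sets covering `X \ {x}`);
order `X` by `f z = Γ * n + f_n z` for `z ∈ W n` (`Γ` above all values), `f x = Γ * ω`. -/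
def St_OSigma : Prop :=
  ∀ (X : Type u) [TopologicalSpace X] [CompactSpace X] [T2Space X] [TotallyDisconnectedSpace X]
    (x : X) (A : ℕ → Set X), (∀ n, IsClosed (A n) ∧ x ∉ A n) → (∀ z, z ≠ x → ∃ n, z ∈ A n) →
    (∀ K : Set X, IsClosed K → x ∉ K → IsOrd K) → IsOrd (univ : Set X)

/-- if a point `p` of an ordinal space `K` is in the closure of a countable union of closed sets
missing `p`, then `p` has countable character in `K`.
Proof: order `K` by `f`; let `O` be clopen with `z ∈ O ↔ f z ≤ f p` on `K`. `A n ∩ K ∩ O` is compact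
and covered by the increasing relatively open sets `I_z = {w ∈ K | f w ≤ f z}`, `f z < f p`, so it is
empty or contained in one `I_{z_n}` (trace of the clopen `O_{z_n}`). Put `O_n := O \ O_{z_n}` (or
`O`). If `w ∈ K` is in all `O_n` and `w ≠ p` then `f w < f p` and `f w > f z_n` for all `n`, so
`K ∩ ⋃ A n ⊆ I_w ∪ Oᶜ`, a closed set missing `p`; contradiction. -/
def St_OCnt : Prop :=
  ∀ (X : Type u) [TopologicalSpace X] [CompactSpace X] [T2Space X] [TotallyDisconnectedSpace X]
    (K : Set X) (p : X) (A : ℕ → Set X), IsClosed K → IsOrd K → p ∈ K →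
    (∀ n, IsClosed (A n) ∧ p ∉ A n) → p ∈ closure (K ∩ ⋃ n, A n) → Cnt K p

/-- if `p` is not of countable character in the ordinal space `E`, then countably many closed sets
accumulating at `p` have an intersection accumulating at `p`.
Proof: order `E` by `f`, `L = {z ∈ E | f z < f p}`. Given `z_0 ∈ L` choose `z_k ∈ L` with increasing
`f z_k` such that each `G n` contains infinitely many `z_k`. The `z_k` are not cofinal in `L` (else
`Cnt E p`), so let `w ∈ L` be the `f`-least point of `L` with `f w > f z_k` for all `k`. The sets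
`{v | f z_k < f v ≤ f w}` form a basis at `w`, so `z_k → w`, `w ∈ ⋂ G n`, `f z_0 < f w < f p`. Such
`w` exist for every `z_0 ∈ L`, and `L` is cofinal at `p` (as `p` is not isolated in `E`). -/
def St_OAcc : Prop :=
  ∀ (X : Type u) [TopologicalSpace X] [CompactSpace X] [T2Space X] [TotallyDisconnectedSpace X]
    (E : Set X) (p : X) (G : ℕ → Set X), IsClosed E → IsOrd E → p ∈ E → ¬ Cnt E p →
    (∀ n, IsClosed (G n) ∧ AccPt p (𝓟 (E ∩ G n))) → AccPt p (𝓟 (E ∩ ⋂ n, G n))

/-- with the notation of `St_OAcc`: the derivative of a closed set accumulating at `p`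
accumulates at `p` (same proof: `w` is the limit of the increasing sequence `z_k ∈ G`). -/
def St_OAcc1 : Prop :=
  ∀ (X : Type u) [TopologicalSpace X] [CompactSpace X] [T2Space X] [TotallyDisconnectedSpace X]
    (E : Set X) (p : X) (G : Set X), IsClosed E → IsOrd E → p ∈ E → ¬ Cnt E p →
    IsClosed G → G ⊆ E → AccPt p (𝓟 G) → AccPt p (𝓟 (der G 1))

/-- an ordinal space all of whose points are of countable character is countable.
Proof: otherwise (`A` has an `f`-maximum by compactness) there is an `f`-least `b ∈ A` with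
uncountably many points below; all initial segments `I_z`, `f z < f b`, are countable, but
`Cnt A b` gives clopen `O_n ∋ b` with `A ∩ ⋂ O_n = {b}` and each compact set `{z ≤ b} \ O_n` is in
some countable `I_z`; contradiction. -/
def St_OCtble : Prop :=
  ∀ (X : Type u) [TopologicalSpace X] [CompactSpace X] [T2Space X] [TotallyDisconnectedSpace X]
    (A : Set X), IsClosed A → IsOrd A → (∀ p ∈ A, Cnt A p) → A.Countable

/-- closures in ordinal spaces do not increase infinite cardinality.
Proof: map `b ∈ closure A \ A` to the `f`-least `a ∈ A` with `f a > f b` if there is one; this is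
injective (for `b < b'` there is `a ∈ A` strictly between); at most one `b` has no such `a`. -/
def St_OClos : Prop :=
  ∀ (X : Type u) [TopologicalSpace X] [CompactSpace X] [T2Space X] [TotallyDisconnectedSpace X]
    (K A : Set X), IsClosed K → IsOrd K → A ⊆ K → #(closure A : Set X) ≤ max #A ℵ₀

/-- size bound: an ordinal space with empty `s`-th derivative has size `≤ max |s| ℵ₀`.
Proof: put `c = max |s| ℵ₀` and suppose `#K > c`. `K` ordered by `f` has a maximum and size `> c`, so
there is `b ∈ K` such that `{z ∈ K | f z < f b}` has order type `(succ c).ord` (initial segments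
`I_z`, `f z < f b`, have size `≤ c`, and no family of `≤ c` points is cofinal below `b`). By induction
on `d < (succ c).ord` the closed set `der K d` is cofinal below `b`: for `d + 1` and `z_0 < b` take an
increasing sequence of points of `der K d` above `z_0` and its supremum `w < b`; for limit `d` (so
`|d| ≤ c`) iterate `ω` times: `z_{n+1} > z_n` such that between `z_n` and `z_{n+1}` there are points of
all `der K e`, `e < d` (possible: `≤ c` many choices), the supremum `w < b` is in `⋂ der K e`.
As `s < (succ c).ord`, `der K s ≠ ∅`. -/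
def St_OSize : Prop :=
  ∀ (X : Type u) [TopologicalSpace X] [CompactSpace X] [T2Space X] [TotallyDisconnectedSpace X]
    (K : Set X) (s : Ordinal.{u}), IsClosed K → IsOrd K → der K s = ∅ →
    #K ≤ max s.card ℵ₀

/-! ## Scattered spaces -/

/-- hereditarily c.o. compact spaces are scattered and totally disconnected.
Proof: for `F` closed infinite, `F` is c.o. and a one-point closed subset of `F` is homeomorphic to a
clopen subset of `F`, so `F` has an isolated point; finite sets have isolated points. A connected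
component `F` is closed and connected and has an isolated point, so it is a point. -/
def St_Scat : Prop :=
  ∀ (X : Type u) [TopologicalSpace X] [CompactSpace X] [T2Space X], HCO X →
    Scat X ∧ TotallyDisconnectedSpace X

/-- In a scattered space a closed set which is locally (away from `x`) of size `< ν` has
`ν.ord`-th derivative `⊆ {x}`. Proof: let `z ≠ x` be in `der F ν.ord`, `K ∋ z` clopen, `x ∉ K`,
`G = F ∩ K`. For `e < ν.ord` the set `der G e` is closed and nonempty (contains `z`); choose
`g e` isolated in it; then `g e ∉ der G (e+1)`, so `g` is injective on `Iio ν.ord` with values in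
`G`, so `#G ≥ ν`. -/
def St_LS : Prop :=
  ∀ (X : Type u) [TopologicalSpace X] [CompactSpace X] [T2Space X] [TotallyDisconnectedSpace X]
    (x : X) (F : Set X) (ν : Cardinal.{u}), Scat X → IsClosed F →
    (∀ K : Set X, IsClopen K → x ∉ K → #(F ∩ K : Set X) < ν) → der F ν.ord ⊆ {x}

/-- A closed `F` all of whose points other than `x` are of countable character in `F` has
`x ∉ der F (w1 + 1)`. Proof: otherwise `der F w1` has `x` as accumulation point; take a clopen
`N ∌ x` with `G := der F w1 ∩ N ≠ ∅` and `p` isolated in `G`. Let `O_n ∋ p` be decreasing clopen sets,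
`O_0 ⊆ N`, `O_0 ∩ der F w1 = {p}`, `F ∩ ⋂ O_n = {p}`. The closed set
`F ∩ O_n \ O_{n+1}` has empty `w1`-th derivative, hence empty `t_n`-th derivative for some
`t_n < w1`; let `t = sup t_n < w1`; then `der F t ∩ O_0 ⊆ {p}` (use `inter`), contradicting
`p ∈ der F (t+1)`. -/
def St_R1 : Prop :=
  ∀ (X : Type u) [TopologicalSpace X] [CompactSpace X] [T2Space X] [TotallyDisconnectedSpace X]
    (x : X) (F : Set X), Scat X → IsClosed F → (∀ p ∈ F, p ≠ x → Cnt F p) →
    x ∉ der F (w1 + 1)

/-! ## The minimal counterexample -/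

/-- Existence of a minimal counterexample. Proof: by `St_Scat` `X` is scattered and `TD`. Let `d` be
least such that some closed `G ⊆ X` is not ordinal and has `der G d` finite (exists: `F` is not
ordinal by `St_OHomeo`; and `der F a = ∅` for large `a`). If `der G d = ∅` then `G ≠ ∅`, `d ≠ 0`, and by
compactness or discreteness `der G e` is finite for some `e < d`, contradiction. So
`der G d = {p_1..p_k}`, `k ≥ 1`; partition `G` into relatively clopen `G_i ∋ p_i`; by `St_OUnion` some
`G_i` is not ordinal. Take `Z = G_i`, `x = p_i`, `r = d`. If `F' ⊆ G_i` is closed and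
`p_i ∉ der F' d` then `der F' d = ∅`, so `der F' e` is finite for some `e < d` (or `F' = ∅`), so `F'` is
ordinal by minimality of `d`. -/
def St_Exists : Prop :=
  ∀ (X : Type u) [TopologicalSpace X] [CompactSpace X] [T2Space X], HCO X →
    ∀ F : Set X, IsClosed F → F.Nonempty → (¬ ∃ α : Ordinal.{u}, Nonempty (F ≃ₜ Set.Iic α)) →
    ∃ (Z : Type u) (_ : TopologicalSpace Z) (_ : CompactSpace Z) (_ : T2Space Z)
      (_ : TotallyDisconnectedSpace Z) (x : Z) (r : Ordinal.{u}), Min Z x r

/-- Big closed sets are homeomorphic to clopen neighbourhoods of `x`, with `x ↦ x`.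
Proof: `X` infinite (else ordinal), so c.o.; let `U` clopen, `e : F ≃ₜ U`. By `St_Der.homeo`, `e`
maps `der F r = {x}` onto `der U r = U ∩ {x}` (`inter`). -/
def St_Big : Prop :=
  ∀ (X : Type u) [TopologicalSpace X] [CompactSpace X] [T2Space X] [TotallyDisconnectedSpace X]
    (x : X) (r : Ordinal.{u}), Min X x r → ∀ F : Set X, IsClosed F → ∀ _ : x ∈ der F r,
    ∀ hx : x ∈ F, ∃ (U : Set X) (e : F ≃ₜ U), IsClopen U ∧ x ∈ U ∧ ((e ⟨x, hx⟩ : U) : X) = x

/-- Big closed sets are not ordinal: otherwise (notation of `St_Big`) `U` and `Uᶜ` are ordinal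
(`Uᶜ` is small), hence `X` (`St_OTr`, `St_OUnion`). -/
def St_BigNot : Prop :=
  ∀ (X : Type u) [TopologicalSpace X] [CompactSpace X] [T2Space X] [TotallyDisconnectedSpace X]
    (x : X) (r : Ordinal.{u}), Min X x r → ∀ F : Set X, IsClosed F → x ∈ der F r → ¬ IsOrd F

/-- A big closed subspace is again a minimal counterexample (`St_Der.emb`, `St_OTr`,
`St_BigNot`). -/
def St_BigMin : Prop :=
  ∀ (X : Type u) [TopologicalSpace X] [CompactSpace X] [T2Space X] [TotallyDisconnectedSpace X]
    (x : X) (r : Ordinal.{u}), Min X x r → ∀ F : Set X, IsClosed F → x ∈ der F r →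
    ∀ (hx : x ∈ F) [CompactSpace F], Min F ⟨x, hx⟩ r

/-- `X \ {x}` is not `σ`-compact (`St_OSigma`) -/
def St_NSig : Prop :=
  ∀ (X : Type u) [TopologicalSpace X] [CompactSpace X] [T2Space X] [TotallyDisconnectedSpace X]
    (x : X) (r : Ordinal.{u}), Min X x r →
    ¬ ∃ A : ℕ → Set X, (∀ n, IsClosed (A n) ∧ x ∉ A n) ∧ ∀ z, z ≠ x → ∃ n, z ∈ A n

/-- `X \ {x}` has no closed (in `X \ {x}`) uncountable subset all of whose countable subsets
converge to `x`: that is, no uncountable `Z ∌ x` such that every closed set missing `x` meets `Z`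
in a finite set.
Proof: `F = Z ∪ {x}` is closed (`z ≠ x` has a clopen neighbourhood missing `x`, which meets `Z` in a
finite set) and infinite, hence c.o. For a countable infinite `Z' ⊆ Z` the closed set `Z' ∪ {x}` is
homeomorphic to a clopen `V ⊆ F`; if `x ∉ V` then `V` is finite, if `x ∈ V` then `F \ V` is finite, so `V`
is uncountable; both impossible. -/
def St_NA : Prop :=
  ∀ (X : Type u) [TopologicalSpace X] [CompactSpace X] [T2Space X] [TotallyDisconnectedSpace X]
    (x : X), HCO X → ∀ Z : Set X, x ∉ Z → (∀ C : Set X, IsClosed C → x ∉ C → (Z ∩ C).Finite) →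
    Z.Countable

/-- `r` additively indecomposable of countable cofinality (or `r = 1`) is impossible.
Proof. `r ≠ 0` since a point is ordinal. If `r = 1` then `X \ {x}` is discrete, so countable by
`St_NA`, contradicting `St_NSig`. Otherwise `r` is a limit with `τ_n` increasing to `r`; put
`ρ_0 = τ_0`, `ρ_{n+1} = ρ_n + τ_{n+1} < r`. Choose disjoint clopen `W_n ∌ x` with
`W_n ∩ der univ ρ_n ≠ ∅` (possible: `x` is an accumulation point of `der univ ρ_n`). Let
`Z = {x} ∪ ⋃ (W_{n+1} ∩ der univ ρ_n)`. `Z` is closed, because a closed `C ∌ x` has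
`C ∩ der univ ρ_m = ∅` for some `m` (compactness), so `C` meets only finitely many pieces.
`der Z τ_{n+1} ⊇ W_{n+1} ∩ der univ (ρ_n + τ_{n+1}) ≠ ∅`, so `x ∈ der Z r`. But `Z` is ordinal, by
`St_OSigma` applied in the space `Z` (or directly). Contradiction with `St_BigNot`. -/
def St_Z1a : Prop :=
  ∀ (X : Type u) [TopologicalSpace X] [CompactSpace X] [T2Space X] [TotallyDisconnectedSpace X]
    (x : X) (r : Ordinal.{u}), Min X x r → (∀ a < r, ∀ b < r, a + b < r) → ¬ r.cof ≤ ℵ₀

/-- `r = a + t` with `0 < t < r` and `t` of cofinality `≤ ω` (so `t` a successor or a limit of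
cofinality `ω`), `t` indecomposable, is impossible. Proof. `E := der univ a` is closed,
`der E t = {x}`, `E` is small (`der E r ⊆ der E (t+1) = ∅`), so ordinal. Claim: `Cnt E x`. Otherwise:
if `t` is a limit, `t = sup t_n`, `St_OAcc` for `G n = der E t_n` gives that `{x} = der E t`
accumulates at `x`, absurd; if `t = 1`, `St_OAcc1` for `G = E` gives that `der E 1 = {x}` accumulates
at `x`. So there are clopen `O_n ∋ x` with `E ∩ ⋂ O_n = {x}`. Let `K_n = O_nᶜ` (clopen, misses `x`) and
`R = ⋂ O_n` (closed), so `R ∩ E = {x}` and `der R a ⊆ {x}`, `R` is small, so is `R ∪ E`, so `R ∪ E` is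
ordinal. `x` is an accumulation point of `E` and `E \ {x} ⊆ ⋃ K_n`, so `Cnt (R ∪ E) x` by `St_OCnt`,
hence `R \ {x}` is a countable union of closed sets missing `x`. Together with `K_n` they cover
`X \ {x}`: contradiction with `St_NSig`. -/
def St_Z1b : Prop :=
  ∀ (X : Type u) [TopologicalSpace X] [CompactSpace X] [T2Space X] [TotallyDisconnectedSpace X]
    (x : X) (r a t : Ordinal.{u}), Min X x r → r = a + t → 0 < t → t < r →
    (∀ b < t, ∀ c < t, b + c < t) → ¬ t.cof ≤ ℵ₀

/-- the rank has uncountable cofinality. Proof: `r ≠ 0`; let `t > 0` be least with `r = a + t` for some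
`a`; then `t` is indecomposable and `r.cof = t.cof`; apply `St_Z1a` (`t = r`) or `St_Z1b`. -/
def St_Z1 : Prop :=
  ∀ (X : Type u) [TopologicalSpace X] [CompactSpace X] [T2Space X] [TotallyDisconnectedSpace X]
    (x : X) (r : Ordinal.{u}), Min X x r → ℵ₀ < r.cof

end Pool.Agent.HCO
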