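import Pool.Agent.HCO.St1

/-!
# Statements, part 2: some countable union of compact subsets of `X \ {x}` accumulates at `x`

Notation in the docstrings: `D s = der univ s`, `Y = X \ {x}`, small = closed `F` with
`x ∉ der F r` (so ordinal), big = closed with `x ∈ der F r`, clopen `K` with `x ∉ K` are the compact
open subsets of `Y`.
-/

set_option autoImplicit false

open Set Topology Cardinal Ordinal Order Filter

universe u v w

namespace Pool.Agent.HCO

/-- Closed sets missing `x` have small rank and small size.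
Proof: cover `A` by a clopen `K ∌ x`; `der K r = D r ∩ K = ∅`; compactness (`r` is a limit) gives
`s < r` with `der K s = ∅`; `K` is ordinal (small), use `St_OSize`. -/
def St_Small : Prop :=
  ∀ (X : Type u) [TopologicalSpace X] [CompactSpace X] [T2Space X] [TotallyDisconnectedSpace X]
    (x : X) (r : Ordinal.{u}), Min X x r → ∀ A : Set X, IsClosed A → x ∉ A →
    ∃ s < r, (∀ z ∈ A, z ∉ der (univ : Set X) s) ∧ #A ≤ max s.card ℵ₀

/-- If `μ = r.cof` and `μ.ord < r`, then `x` is not of countable character in small sets.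
Proof. `i ↦ ρ_i` (`i < μ.ord`) increasing cofinal in `r`, `y_i ∈ D ρ_i`, `y_i ≠ x` (`x` accumulates
`D ρ_i`). A closed `A ∌ x` misses some `D s`, `s < r`, so contains `y_i` only for boundedly many `i`.
`E = closure {y_i}`: `x ∈ E` is an accumulation point; for clopen `N ∌ x`, `E ∩ N` is the closure
of fewer than `μ` points of the ordinal space `N`, so `#(E ∩ N) < μ` (`St_OClos`), so
`der E μ.ord ⊆ {x}` (`St_LS`), so `E` is small since `μ.ord + 1 ≤ r`. If `Cnt R x`, then `R ∪ E` is small,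
ordinal, and `Cnt (R ∪ E) x` by `St_OCnt` (`A n` = complements of the clopen sets of `Cnt R x`), so
`Cnt E x`; then all `y_i` are in countably many closed sets missing `x`, each containing boundedly
many of them; contradiction as `μ` has uncountable cofinality (`St_Z1`). -/
def St_KU : Prop :=
  ∀ (X : Type u) [TopologicalSpace X] [CompactSpace X] [T2Space X] [TotallyDisconnectedSpace X]
    (x : X) (r : Ordinal.{u}), Min X x r → r.cof.ord < r → ∀ R : Set X, IsClosed R → IsOrd R →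
    AccPt x (𝓟 R) → ¬ Cnt R x

/-- Corollary of `St_KU` (and `St_OCnt`): in a small `R`, `x` is not in the closure of a countable
union of closed sets missing `x`. -/
def St_KU2 : Prop :=
  ∀ (X : Type u) [TopologicalSpace X] [CompactSpace X] [T2Space X] [TotallyDisconnectedSpace X]
    (x : X) (r : Ordinal.{u}), Min X x r → r.cof.ord < r → ∀ R : Set X, IsClosed R →
    x ∉ der R r → ∀ A : ℕ → Set X, (∀ n, IsClosed (A n) ∧ x ∉ A n) →
    x ∉ closure (R ∩ ⋃ n, A n)

/-- Corollary: if `r.cof = ℵ₁`, `w1 < r` then countable subsets of `Y` do not accumulate at `x`.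
Proof: `closure Q` is locally countable (`St_OClos`), so `der (closure Q) w1 ⊆ {x}` (`St_LS`,
`ν = ℵ₁`), so it is small; use `St_KU2` with the singletons. -/
def St_KU3 : Prop :=
  ∀ (X : Type u) [TopologicalSpace X] [CompactSpace X] [T2Space X] [TotallyDisconnectedSpace X]
    (x : X) (r : Ordinal.{u}), Min X x r → r.cof = ℵ₁ → w1 < r → ∀ Q : Set X, Q.Countable →
    x ∉ Q → x ∉ closure Q

/-- Let `⋃ K n` be dense. Points of `Y` outside it are of countable character: `p` has a clopen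
`N ∌ x`, ordinal; `p ∈ closure (N ∩ ⋃ K n)`; `St_OCnt`. -/
def St_A1cnt : Prop :=
  ∀ (X : Type u) [TopologicalSpace X] [CompactSpace X] [T2Space X] [TotallyDisconnectedSpace X]
    (x : X) (r : Ordinal.{u}), Min X x r → ∀ K : ℕ → Set X, Sig x K → Dense (⋃ n, K n) →
    ∀ p, p ∉ (⋃ n, K n) → p ≠ x → Cnt (univ : Set X) p

/-- Let `⋃ K n` be dense. Then `r.cof = ℵ₁`.
Proof: by `St_Small` and `ℵ₀ < r.cof` there is `s < r` with `D s ∩ K n = ∅` for all `n`. So the points
`≠ x` of `F = D s` are `Cnt` by `St_A1cnt`; `St_R1` gives `x ∉ der F (w1+1) = D (s + (w1 + 1))`, so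
`r ≤ s + w1`; as `s < r` and `ℵ₀ < r.cof`, `r = s + w1`. -/
def St_A1cof : Prop :=
  ∀ (X : Type u) [TopologicalSpace X] [CompactSpace X] [T2Space X] [TotallyDisconnectedSpace X]
    (x : X) (r : Ordinal.{u}), Min X x r → ∀ K : ℕ → Set X, Sig x K → Dense (⋃ n, K n) →
    r.cof = ℵ₁

/-! ## Case C1: `r = ω₁` -/

/-- every `ω`-closed set is closed (for compact spaces: countable tightness) -/
def CTp (Z : Type u) [TopologicalSpace Z] : Prop :=
  ∀ F : Set Z, (∀ A ⊆ F, A.Countable → closure A ⊆ F) → IsClosed F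

/-- Malyhin. Proof for `X × Z`: let `F` be `ω`-closed and `(u,w) ∈ closure F \ F`. The fibre
`{z | (u,z) ∈ F}` is `ω`-closed, so closed, so there is a closed neighbourhood `N` of `w` missing it.
`F ∩ (X × N)` is `ω`-closed, hence so is its projection `G` to `X` (lift a countable set, take the
compact closure, project), so `G` is closed; `u ∉ G`; so a neighbourhood `V` of `u` misses `G`, and
`V × N` misses `F`. Then induct for `Fin n → X`. -/
def St_CTpow : Prop :=
  ∀ (X : Type u) [TopologicalSpace X] [CompactSpace X] [T2Space X], CTp X →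
    ∀ n : ℕ, CTp (Fin n → X)

/-- Delta system lemma for finite subsets of `ω₁`, in increasing form. Proof: for limit `d < ω₁`
press down `f d ∩ d` (bounded by some `g(d) < d`, and only countably many finite subsets of a
countable ordinal): stationary many `d` have the same `f d ∩ d = r` and card `n`; thin out so that
`max (f a) < b` for `a < b` in `I`. -/
def St_Delta : Prop :=
  ∀ f : Ordinal.{u} → Finset Ordinal.{u}, (∀ a < w1, ∀ z ∈ f a, z < w1) →
    ∃ (I : Set Ordinal.{u}) (r : Finset Ordinal.{u}) (n : ℕ), I ⊆ Iio w1 ∧ ¬ I.Countable ∧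
      (∀ a ∈ I, r ⊆ f a ∧ (f a).card = n) ∧
      ∀ a ∈ I, ∀ b ∈ I, a < b → ∀ y ∈ f a, y ∉ r → ∀ z ∈ f b, z ∉ r → y < z

/-- Szentmiklossy. Let all finite powers of `X` be countably tight and `y a` right separated by
`V a`. Under `MM` (`MA_{ω₁}`) there is an uncountable set on which it is also left separated.
Proof. `P` := finite `p ⊆ ω₁` with `y a ∉ V b` for `a < b` in `p`, ordered by `⊇`. `P` is ccc:
otherwise (`St_Delta`) there are `f i = r ∪ s_i` (`i ∈ I` uncountable), `|s_i| = n`, `s_i < s_j` for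
`i < j`, pairwise incompatible, i.e. for `i < j` some `a ∈ s_i`, `b ∈ s_j` have `y a ∈ V b`. Let
`z_i ∈ X^n` be the points `y a`, `a ∈ s_i`, and `W_j = {u ∈ X^n | ∃ k, ∃ b ∈ s_j, u_k ∈ V b}`, clopen. Then
`z_i ∈ W_j` for `i < j` and `z_k ∉ W_j` for `k > j`. `F = ⋃_j closure {z_i | i < j}` is `ω`-closed, hence
closed. By compactness there is `u ∈ ⋂_j closure {z_k | k > j}`; `u ∈ F` as `F` is closed and contains all
`z_i`; so `u ∈ closure {z_i | i < j} ⊆ W_j` for some `j` but `u ∈ closure {z_k | k > j} ⊆ (W_j)ᶜ`.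
Now apply `St_Ccc` with `f a = {a}`; `A := {a | {a} ∈ G}`. -/
def St_Szm : Prop :=
  MM.{u} → ∀ (X : Type u) [TopologicalSpace X] [CompactSpace X] [T2Space X],
    (∀ n : ℕ, CTp (Fin n → X)) → ∀ (y : Ordinal.{u} → X) (V : Ordinal.{u} → Set X),
    (∀ a < w1, IsClopen (V a) ∧ y a ∈ V a) → (∀ a b, a < b → b < w1 → y b ∉ V a) →
    ∃ A : Set Ordinal.{u}, A ⊆ Iio w1 ∧ ¬ A.Countable ∧ ∀ a ∈ A, ∀ b ∈ A, a < b → y a ∉ V b

/-- For `r = ω₁` and `⋃ K n` dense, `X` is countably tight.
Proof. Closed sets missing `x` are countable (`St_Small`), so `X` has a countable dense set, and so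
has every clopen subset. Let `F` be `ω`-closed. Points `p ≠ x` of `closure F` have a countable clopen
neighbourhood, so are in `F`. Suppose `x ∈ closure F \ F`; `F' = F ∪ {x}` is closed. If `F'` is small, then
`x ∉ der F' w1`, `der F' w1 = ∅`, so `der F' s = ∅` for some `s < w1` and `F'` is countable
(`St_OSize`), so `closure F ⊆ F`, contradiction. If `F'` is big it is homeomorphic to a clopen
neighbourhood of `x` (`St_Big`), hence has a countable dense set `A`; `A \ {x}` is a countable subset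
of `F`, and `x ∈ closure (A \ {x})` since `x` is not isolated in `F'`; contradiction. -/
def St_C1ct : Prop :=
  ∀ (X : Type u) [TopologicalSpace X] [CompactSpace X] [T2Space X] [TotallyDisconnectedSpace X]
    (x : X), Min X x w1 → ∀ K : ℕ → Set X, Sig x K → Dense (⋃ n, K n) → CTp X

/-- Case C1 is impossible. Proof: closed sets missing `x` are countable and `Y` is not
`σ`-compact, so one can choose `y a ∈ V a` (`a < ω₁`), `V a ∌ x` clopen, `y a ∉ ⋃_{b<a} V b` (a countable
set). `St_C1ct`, `St_CTpow`, `St_Szm` give an uncountable `A` such that `{y a | a ∈ A}` is relatively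
discrete: `V b ∩ {y a | a ∈ A} = {y b}`. `F = closure {y a | a ∈ A}` is uncountable, has
uncountably many isolated points. `F ∪ {x}`, is big (small would be countable), so homeomorphic
to a clopen subset of `X`, so separable (`⋃ K n` is countable and dense), but a dense subset contains
all isolated points: contradiction. -/
def St_C1 : Prop :=
  MM.{u} → ∀ (X : Type u) [TopologicalSpace X] [CompactSpace X] [T2Space X]
    [TotallyDisconnectedSpace X] (x : X), Min X x w1 → ∀ K : ℕ → Set X, Sig x K →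
    ¬ Dense (⋃ n, K n)

/-! ## Case C3: `ω₁ < r` -/

/-- The isolated points of `B = (⋃ K n)ᶜ`. Proof: `B` is closed, its points `≠ x` are `Cnt`
(`St_A1cnt`), so `x ∉ der B (w1 + 1)` (`St_R1`), so `B` is small, ordinal. `x` is not isolated in `B`
(else `Y` is `σ`-compact, `St_NSig`). For closed `A ∌ x`, `A ∩ B` is countable by `St_OCtble`.
The set `I` of points `≠ x` isolated in `B` accumulates at `x` (`X` scattered), so it is uncountable by
`St_KU3` (`r.cof = ℵ₁` by `St_A1cof`). Take an injection `b : ω₁ → I`. -/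
def St_C3B : Prop :=
  ∀ (X : Type u) [TopologicalSpace X] [CompactSpace X] [T2Space X] [TotallyDisconnectedSpace X]
    (x : X) (r : Ordinal.{u}), Min X x r → w1 < r → ∀ K : ℕ → Set X, Sig x K →
    Dense (⋃ n, K n) → ∃ b : Ordinal.{u} → X, Set.InjOn b (Iio w1) ∧
      (∀ a < w1, b a ∉ (⋃ n, K n) ∧ b a ≠ x ∧ ¬ AccPt (b a) (𝓟 (⋃ n, K n)ᶜ)) ∧
      ∀ A : Set X, IsClosed A → x ∉ A → {a | a < w1 ∧ b a ∈ A}.Countable

/-- `#(⋃ K n) ≤ ℵ₁`. Proof. `b` from `St_C3B`, `B = (⋃ K n)ᶜ`; clopen `D_a ∋ b a`, `x ∉ D_a`,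
`D_a ∩ B = {b a}`. Choose `y_{a,n} ∈ D_a ∩ ⋃ K m \ K n` and `T = closure {y_{a,n} | a < ω₁, n}`.
For fixed `a` every cluster point of `(y_{a,n})_n` is in `D_a` and in no `K m` (`K` monotone), so
it is `b a`; so `b a ∈ T`, `x ∈ T`, indeed `x ∈ closure {y_{a,n}}`. For clopen `N ∌ x`,
`#(T ∩ N) ≤ ℵ₁`. Suppose `ℵ₂.ord ≤ r`; as `r.cof = ℵ₁`, `ℵ₂.ord < r`, and `der T ℵ₂.ord ⊆ {x}`
(`St_LS`), so `T` is small, contradicting `St_KU2` with `A n = K n`. So `r < ℵ₂.ord` and `St_Small`
gives `#(K n) ≤ ℵ₁`. -/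
def St_C3size : Prop :=
  ∀ (X : Type u) [TopologicalSpace X] [CompactSpace X] [T2Space X] [TotallyDisconnectedSpace X]
    (x : X) (r : Ordinal.{u}), Min X x r → w1 < r → ∀ K : ℕ → Set X, Sig x K → Monotone K →
    Dense (⋃ n, K n) → #(⋃ n, K n : Set X) ≤ ℵ₁

/-- Point-countable choice. Proof. `b, D_a` as in `St_C3size`. Claim: for some `l` every countable
`A ⊆ ⋃ K n \ K l` is missed by uncountably many `D_a`. Otherwise choose countable `A_l` missed by only
countably many `D_a`; `Q = ⋃ A_l`; for all but countably many `a`, `D_a` meets every `A_l`, and a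
cluster point of points of `D_a ∩ A_l` (`l → ∞`) is `b a`, so `b a ∈ closure Q`; then
`x ∈ closure Q`, contradicting `St_KU3`. Fix `l`; enumerate `⋃ K n \ K l` as `u_ν`, `ν < ω₁`
(`St_C3size`), choose `g : ω₁ → ω₁` strictly increasing with `D_{g ν} ∩ {u_ν' | ν' < ν} = ∅`; take
`b ∘ g`, `D ∘ g`. -/
def St_C3pc : Prop :=
  ∀ (X : Type u) [TopologicalSpace X] [CompactSpace X] [T2Space X] [TotallyDisconnectedSpace X]
    (x : X) (r : Ordinal.{u}), Min X x r → w1 < r → ∀ K : ℕ → Set X, Sig x K → Monotone K →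
    Dense (⋃ n, K n) → ∃ (b : Ordinal.{u} → X) (D : Ordinal.{u} → Set X) (l : ℕ),
      Set.InjOn b (Iio w1) ∧ (∀ a < w1, b a ∉ (⋃ n, K n) ∧ b a ≠ x) ∧
      (∀ A : Set X, IsClosed A → x ∉ A → {a | a < w1 ∧ b a ∈ A}.Countable) ∧
      (∀ a < w1, IsClopen (D a) ∧ x ∉ D a ∧ ∀ z, z ∉ (⋃ n, K n) → (z ∈ D a ↔ z = b a)) ∧
      ∀ z ∈ (⋃ n, K n), z ∉ K l → {a | a < w1 ∧ z ∈ D a}.Countable

/-- The combinatorial application of `MM` (`MA_{ω₁}`) in case C3.
Proof. `P` := pairs `(s, J)`, `s ⊆ ω₁` finite, `J ⊆ ω₁ × ℕ` finite, such that `t a k ∉ D b` for `b ∈ s`,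
`(a,k) ∈ J`, `b < a`; ordered by reverse inclusion. Ccc: let `supp = s ∪ dom J`. Given `ω₁` conditions,
by `St_Delta` and pigeonhole there are an uncountable `I` and `r` with increasing
`supp_i \ r`, with `s_i ∩ r` and `J_i ∩ (r × ℕ)` constant, with `J_i \ (r × ℕ)` of constant size `p`, all
its points `t a k` in `C m` for a fixed `m`. For `i < j` in `I` the union is a condition unless some
`(a,k) ∈ J_j \ (r × ℕ)`, `b ∈ s_i \ r` have `t a k ∈ D b`. If this happens for all `i < j`: let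
`z_j ∈ (C m)^p` be the points of `J_j \ (r × ℕ)`, `O_i = ⋃_{b ∈ s_i \ r} D b`, `W_i = {u | ∃ k, u_k ∈ O_i}`;
`z_j ∈ W_i` for `i < j`, so the closed sets `W_i ∩ (C m)^p` have the finite intersection property; let `u`
be in all of them; some coordinate `u_k ∈ C m` is in `O_i` for uncountably many `i`, so in
uncountably many `D b` (the `s_i \ r` are disjoint): contradiction. Dense sets: `∃ k ≥ m, (a,k) ∈ J`
(for `a < ω₁`, `m ∈ ℕ`; use the last hypothesis), indexed by `ω * a + m`; apply `St_Ccc` with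
`f a = ({a}, ∅)`. -/
def St_C3mm : Prop :=
  MM.{u} → ∀ (X : Type u) [TopologicalSpace X] [CompactSpace X] [T2Space X]
    (D : Ordinal.{u} → Set X) (C : ℕ → Set X) (t : Ordinal.{u} → ℕ → X),
    (∀ a < w1, IsClopen (D a)) → (∀ n, IsClosed (C n)) → Monotone C →
    (∀ a < w1, ∀ k, ∃ n, t a k ∈ C n) →
    (∀ n, ∀ z ∈ C n, {a | a < w1 ∧ z ∈ D a}.Countable) →
    (∀ a < w1, ∀ b < w1, a ≠ b → ∃ m : ℕ, ∀ k ≥ m, t a k ∉ D b) →
    ∃ (A : Set Ordinal.{u}) (J : Ordinal.{u} → Set ℕ), A ⊆ Iio w1 ∧ ¬ A.Countable ∧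
      (∀ a < w1, (J a).Infinite) ∧ ∀ b ∈ A, ∀ a < w1, b < a → ∀ k ∈ J a, t a k ∉ D b

/-- Case C3 is impossible. Proof. `b, D, l` from `St_C3pc`; choose
`t a k ∈ D a ∩ ⋃ K n \ K (max k l)`; for fixed `a`, `t a k → b a` as `k → ∞` (cluster points are in
`D a \ ⋃ K n = {b a}`), so for `b' ≠ a` eventually `t a k ∉ D b'`. `St_C3mm` with `C n = K n \ K l`
gives `A, J`. For `a < ω₁` let `Q_a = {t a' k | a' < a}` (countable), `φ(a) < ω₁` a bound of the
countable set `{a' | b a' ∈ closure Q_a}` (`x ∉ closure Q_a` by `St_KU3`). Let `C'` be a club of `a`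
with `φ(a') < a` for `a' < a`, and thin it so that every interval `(φ(c), next c)`, `c ∈ C'`, contains some
`ξ_c ∈ A` and some `η_c > ξ_c`. `T = {t η_c k | c ∈ C', k ∈ J η_c}`, `F = closure T ∪ B`,
`B = (⋃ K n)ᶜ`. (i) `b ξ_c` is isolated in `F`: `D ξ_c ∩ B = {b ξ_c}`; for `c' ≥ c`,
`t η_{c'} k ∉ D ξ_c` for `k ∈ J η_{c'}`; for `c' < c`, `t η_{c'} k ∈ Q_c` and `b ξ_c ∉ closure Q_c`. (ii)
`b η_c ∈ closure T`, so `x ∈ closure T`; if `F` were small this would contradict `St_KU2` (`A n = K n`,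
`T ⊆ ⋃ K n`). So `F` is big, homeomorphic to a clopen neighbourhood `V` of `x` with `x ↦ x`; `V` has the
dense subset `⋃ (V ∩ K n)`, so `F` is the closure of `⋃ G n`, `G n` closed, `x ∉ G n`; the
isolated points `b ξ_c` are in `⋃ G n`, so some `G n` contains uncountably many `b a`: contradiction
with the third clause of `St_C3pc`. -/
def St_C3 : Prop :=
  MM.{u} → ∀ (X : Type u) [TopologicalSpace X] [CompactSpace X] [T2Space X]
    [TotallyDisconnectedSpace X] (x : X) (r : Ordinal.{u}), Min X x r → w1 < r →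
    ∀ K : ℕ → Set X, Sig x K → Monotone K → ¬ Dense (⋃ n, K n)

/-! ## Case C2: all closures of countable unions are small -/

/-- `x` is of countable character in all small sets. Proof: let `K` be as in the first hypothesis,
`S = closure (⋃ K n)`, small. For small `R`, `R ∪ S` is small, ordinal, `Cnt (R ∪ S) x` by `St_OCnt`, so
`Cnt R x`. -/
def St_C2a : Prop :=
  ∀ (X : Type u) [TopologicalSpace X] [CompactSpace X] [T2Space X] [TotallyDisconnectedSpace X]
    (x : X) (r : Ordinal.{u}), Min X x r →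
    (∃ K : ℕ → Set X, Sig x K ∧ x ∈ closure (⋃ n, K n)) →
    (∀ K : ℕ → Set X, Sig x K → x ∉ der (closure (⋃ n, K n)) r) →
    ∀ R : Set X, IsClosed R → x ∉ der R r → Cnt R x

/-- sequences converging to `x`. Proof. If `S' = closure S` is small, `Cnt S' x` gives decreasing
clopen `O_n ∋ x` with `S' ∩ ⋂ O_n = {x}`; choose `s_n ∈ S ∩ O_n`; for closed `C ∌ x` compactness gives
`n` with `S' ∩ C ∩ O_n = ∅`. If `S'` is big, `e : S' ≃ₜ V`, `V` a clopen neighbourhood of `x`,
`e x = x`; with `K` as in the hypothesis `G n = e⁻¹ (V ∩ K n)` is closed, relatively open in `S'`, misses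
`x`, and `R = closure (⋃ G n) ∋ x` is small (`e` maps it onto `closure (⋃ (V ∩ K n))`); `S` is dense in
`S'`, so `x ∈ closure (S ∩ ⋃ G n)`, and this set has small closure; use the first case. -/
def St_C2b : Prop :=
  ∀ (X : Type u) [TopologicalSpace X] [CompactSpace X] [T2Space X] [TotallyDisconnectedSpace X]
    (x : X) (r : Ordinal.{u}), Min X x r →
    (∃ K : ℕ → Set X, Sig x K ∧ x ∈ closure (⋃ n, K n)) →
    (∀ K : ℕ → Set X, Sig x K → x ∉ der (closure (⋃ n, K n)) r) →
    ∀ S : Set X, x ∉ S → x ∈ closure S →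
      ∃ A ⊆ S, A.Countable ∧ A.Infinite ∧ ∀ C : Set X, IsClosed C → x ∉ C → (A ∩ C).Finite

/-- Case C2 is impossible. Proof. On `Y = {z // z ≠ x}` let `J` be the countable `A` such that every
closed `C ∌ x` meets `A` in a finite set. P-ideal: let `A n ∈ J`, `R = closure (⋃ A n)`. `R` is small:
`⋃ A n` is a countable union of points, cover them by clopen sets `K n ∌ x`, `R ⊆ closure (⋃ K n)`, which
is small. By `St_C2a` there are decreasing clopen `O_n ∋ x` with `R ∩ ⋂ O_n ⊆ {x}`, so every closed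
`C ∌ x` has `R ∩ C ∩ O_m = ∅` for some `m`. Put `B = ⋃ (A n ∩ O_n)`; `A n \ B ⊆ A n \ O_n` is finite
and `B ∈ J` since `B \ O_m ⊆ ⋃_{n<m} (A n \ O_m)`. `St_PID`: alternative 1 contradicts `St_NA`; in
alternative 2, `Y = ⋃ S n` and by `St_C2b` `x ∉ closure (S n)`, so `Y` is `σ`-compact, contradicting
`St_NSig`. -/
def St_C2 : Prop :=
  MM.{u} → ∀ (X : Type u) [TopologicalSpace X] [CompactSpace X] [T2Space X]
    [TotallyDisconnectedSpace X] (x : X) (r : Ordinal.{u}), Min X x r →
    (∃ K : ℕ → Set X, Sig x K ∧ x ∈ closure (⋃ n, K n)) →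
    ¬ ∀ K : ℕ → Set X, Sig x K → x ∉ der (closure (⋃ n, K n)) r

/-- The P-ideal dichotomy for the ideal `J` (Todorcevic), from `MM`; see `St4`. -/
def St_PID : Prop :=
  MM.{u} → ∀ (Y : Type u) (J : Set (Set Y)), (∀ A ∈ J, A.Countable) →
    (∀ A ∈ J, ∀ B ⊆ A, B ∈ J) → (∀ A ∈ J, ∀ B ∈ J, A ∪ B ∈ J) → (∀ y, {y} ∈ J) →
    (∀ A : ℕ → Set Y, (∀ n, A n ∈ J) → ∃ B ∈ J, ∀ n, (A n \ B).Finite) →
    (∃ Z : Set Y, ¬ Z.Countable ∧ ∀ A ⊆ Z, A.Countable → A ∈ J) ∨
    ∃ S : ℕ → Set Y, (∀ y, ∃ n, y ∈ S n) ∧ ∀ n, ∀ A ∈ J, A ⊆ S n → A.Finite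

/-- Case A: no countable union of closed sets missing `x` accumulates at `x`.
Proof. Let `x ∈ closure (⋃ K n)`, `Sig x K`, WLOG (finite unions) for a given `K` it may be made
monotone. If all closures `closure (⋃ K n)` are small: `St_C2`. Otherwise fix `K` monotone with
`F = closure (⋃ K n)` big; the space `F` is a minimal counterexample (`St_BigMin`) with the dense
union of the clopen sets `K n ∩ F`; `r.cof = ℵ₁` (`St_A1cof`) so `w1 ≤ r`: `St_C1` or `St_C3`. -/
def St_A : Prop :=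
  MM.{u} → ∀ (X : Type u) [TopologicalSpace X] [CompactSpace X] [T2Space X]
    [TotallyDisconnectedSpace X] (x : X) (r : Ordinal.{u}), Min X x r →
    ∀ K : ℕ → Set X, Sig x K → x ∉ closure (⋃ n, K n)

end Pool.Agent.HCO
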