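import Pool.Agent.HCO.St2

/-!
# Statements, part 3: filtrations

From now on no countable union of clopen sets missing `x` accumulates at `x` (case B, see `St_A`).
Notation: `U_l = Uu K l`, `B_l = Bd K l`, `W_a = K (a+1) \ K a`, `D s = der univ s`, `Y = X \ {x}`, small,
big as in part 2.
-/

set_option autoImplicit false

open Set Topology Cardinal Ordinal Order Filter

universe u v w

namespace Pool.Agent.HCO

/-- case B: countable unions of compact subsets of `X \ {x}` do not accumulate at `x` -/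
def NB (X : Type u) [TopologicalSpace X] (x : X) : Prop :=
  ∀ K : ℕ → Set X, Sig x K → x ∉ closure (⋃ n, K n)

/-! ## Existence of filtrations -/

/-- Basic facts on filtrations. `cpt`: the sets `K a` are an increasing open cover of the compact
set `A`. `bd`: compactness again (`A ⊆ U_l`, `l` a limit). `closedBd`: `U_l` is open. -/
structure St_Filt : Prop where
  cpt : ∀ (X : Type u) [TopologicalSpace X] [CompactSpace X] [T2Space X] (x : X)
    (μ : Cardinal.{u}) (K : Ordinal.{u} → Set X), Filt x μ K → ∀ A : Set X, IsClosed A → x ∉ A →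
    ∃ a < μ.ord, A ⊆ K a
  bd : ∀ (X : Type u) [TopologicalSpace X] [CompactSpace X] [T2Space X] (x : X)
    (o : Ordinal.{u}) (K : Ordinal.{u} → Set X), PreFilt x o K → ∀ l ≤ o, IsSuccLimit l →
    ∀ A : Set X, IsClosed A → A ⊆ Uu K l → ∃ a < l, A ⊆ K a
  closedBd : ∀ (X : Type u) [TopologicalSpace X] (x : X)
    (o : Ordinal.{u}) (K : Ordinal.{u} → Set X), PreFilt x o K → ∀ l ≤ o, IsClosed (Bd K l)
  openU : ∀ (X : Type u) [TopologicalSpace X] (x : X)
    (o : Ordinal.{u}) (K : Ordinal.{u} → Set X), PreFilt x o K → ∀ l ≤ o, IsOpen (Uu K l)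
  nb : ∀ (X : Type u) [TopologicalSpace X] [CompactSpace X] [T2Space X] (x : X)
    (μ : Cardinal.{u}) (K : Ordinal.{u} → Set X), Filt x μ K → NB X x
  /-- boundaries are nonempty in strict filtrations -/
  ne : ∀ (X : Type u) [TopologicalSpace X] [CompactSpace X] [T2Space X] (x : X)
    (r : Ordinal.{u}) (μ : Cardinal.{u}) (K : Ordinal.{u} → Set X), FFilt x r μ K →
    ∀ l < μ.ord, IsSuccLimit l → (Bd K l).Nonempty
  /-- if a closed `F` accumulates at `x` then for club many `l` it meets the boundary `B_l`, in the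
  closure of `F ∩ U_l` (`F ∩ U_l` is not contained in any `K b`, `b < l`, for club many `l`) -/
  acc : ∀ (X : Type u) [TopologicalSpace X] [CompactSpace X] [T2Space X] (x : X)
    (μ : Cardinal.{u}) (K : Ordinal.{u} → Set X), Filt x μ K → ∀ F : Set X, AccPt x (𝓟 F) →
    ∃ C, Club μ.ord C ∧ ∀ l ∈ C, IsSuccLimit l ∧ (∀ b < l, ∃ z ∈ F, z ∈ Uu K l ∧ z ∉ K b) ∧
      ∃ z ∈ Bd K l, z ∈ closure (F ∩ Uu K l)

/-- No small noncompact clopen piece of `Y`. Proof. Suppose `x ∉ der G r`; `G' = (G \ {x})ᶜ` is closed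
and `G ∪ G' = univ`, so `G'` is big (`St_Der.union`); `e : G' ≃ₜ U`, `U` a clopen neighbourhood of `x`,
`e x = x`. `G'' := e⁻¹ (G ∩ U) ⊆ G'` is closed, small, accumulates at `x`, and `G'' ∩ G = {x}`.
`H = G ∪ G''` is small, so ordinal, and `¬ Cnt H x` by `NB`. `St_OAcc` gives that
`H ∩ G ∩ G'' = {x}` accumulates at `x`: absurd. -/
def St_B2 : Prop :=
  ∀ (X : Type u) [TopologicalSpace X] [CompactSpace X] [T2Space X] [TotallyDisconnectedSpace X]
    (x : X) (r : Ordinal.{u}), Min X x r → NB X x → ∀ G : Set X, IsClosed G →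
    IsOpen (G \ {x}) → AccPt x (𝓟 G) → x ∈ der G r

/-- A chain. Proof: let `μ` be the least cardinality of a family (indexed by a type in `Type u`) of
closed sets missing `x` with `x` in the closure of the union (the family of all points `≠ x` is one,
since `x` is not isolated). `μ > ℵ₀` by `NB` (cover closed sets by clopen sets missing `x`). Let
`A_i`, `i < μ.ord`, be such a family; by recursion let `K i` be a clopen set missing `x` and containing
the closed set `closure (⋃_{j<i} K j) ∪ A_i`, which misses `x` by minimality of `μ`. `μ` is regular: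
otherwise fewer than `μ` of the `K i` are cofinal. -/
def St_Chain : Prop :=
  ∀ (X : Type u) [TopologicalSpace X] [CompactSpace X] [T2Space X] [TotallyDisconnectedSpace X]
    (x : X) (r : Ordinal.{u}), Min X x r → NB X x →
    ∃ (μ : Cardinal.{u}) (K : Ordinal.{u} → Set X), μ.IsRegular ∧ ℵ₀ < μ ∧ PreFilt x μ.ord K ∧
      x ∈ closure (Uu K μ.ord)

/-- Infinite subsets of boundaries of uncountable cofinality accumulate only at `x`.
Proof. WLOG `A` countable; suppose `x ∉ closure A`. `closure A` is compact, so there is `p` with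
`p ∈ closure (A \ {p})`; `p ∈ B_o` (closed), `p ≠ x`. Let `N ∋ p` be clopen, `x ∉ N`; `N` is ordinal;
`St_OCnt` gives decreasing clopen `O_n ∋ p`, `O_n ⊆ N`, `⋂ O_n = {p}`. As
`p ∈ closure U_o` choose `u_n ∈ O_n ∩ K a_n`, `a_n < o`; `a_n ≤ c < o` for all `n`. A cluster point of
`(u_n)` is in `⋂ O_n ∩ K c`, so `p ∈ K c ⊆ U_o`, contradiction. -/
def St_FB : Prop :=
  ∀ (X : Type u) [TopologicalSpace X] [CompactSpace X] [T2Space X] [TotallyDisconnectedSpace X]
    (x : X) (r : Ordinal.{u}), Min X x r → ∀ (o : Ordinal.{u}) (K : Ordinal.{u} → Set X),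
    PreFilt x o K → ℵ₀ < o.cof → ∀ A ⊆ Bd K o, A.Infinite → x ∈ closure A

/-- Boundaries of uncountable cofinality in filtrations are finite (`St_FB` with `o = l`; `B_l ⊆ K l`
misses `x`). -/
def St_BL : Prop :=
  ∀ (X : Type u) [TopologicalSpace X] [CompactSpace X] [T2Space X] [TotallyDisconnectedSpace X]
    (x : X) (r : Ordinal.{u}) (μ : Cardinal.{u}) (K : Ordinal.{u} → Set X), Min X x r →
    Filt x μ K → ∀ l < μ.ord, ℵ₀ < l.cof → (Bd K l).Finite

/-- A closed chain. Proof: take `μ, K` from `St_Chain`; `B_μ \ {x}` is finite (a countable infinite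
subset would, by `St_FB` and clopen neighbourhoods of its points, contradict `NB`); let `N ∌ x` be
clopen containing it and put `K' a = K a \ N`. -/
def St_B3 : Prop :=
  ∀ (X : Type u) [TopologicalSpace X] [CompactSpace X] [T2Space X] [TotallyDisconnectedSpace X]
    (x : X) (r : Ordinal.{u}), Min X x r → NB X x →
    ∃ (μ : Cardinal.{u}) (K : Ordinal.{u} → Set X), μ.IsRegular ∧ ℵ₀ < μ ∧ PreFilt x μ.ord K ∧
      x ∈ closure (Uu K μ.ord) ∧ IsClosed (insert x (Uu K μ.ord))

/-- Thinning out. Proof: for `a < μ.ord` let `s_a < r` be least with `D s_a ∩ K a = ∅`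
(`St_Small`); `s_a` is increasing and cofinal in `r` (if `s_a ≤ s < r` for all `a` then `D s ⊆ {x}`, but
`x` accumulates `D s`). There is `g a ∈ (a, μ.ord)` with `D s_a ∩ K (g a) \ K a ≠ ∅`. Let `N` be the
normal function `N 0 = 0`, `N (a+1) = g (N a)`, and `K' a = K (N a)`. Also `r.cof = μ`. -/
def St_TH : Prop :=
  ∀ (X : Type u) [TopologicalSpace X] [CompactSpace X] [T2Space X] [TotallyDisconnectedSpace X]
    (x : X) (r : Ordinal.{u}) (μ : Cardinal.{u}) (K : Ordinal.{u} → Set X), Min X x r →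
    Filt x μ K → r.cof = μ ∧ ∃ K' : Ordinal.{u} → Set X, FFilt x r μ K'

/-- Case B: there is a minimal counterexample (with the same rank) with a filtration. Proof: `μ, K`
from `St_B3`; `G = insert x U` is closed, `G \ {x} = U` is open, so `G` is big (`St_B2`); the space `Z = G`
is a minimal counterexample (`St_BigMin`), with the filtration `K a ∩ G`; apply `St_TH`. -/
def St_B : Prop :=
  ∀ (X : Type u) [TopologicalSpace X] [CompactSpace X] [T2Space X] [TotallyDisconnectedSpace X]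
    (x : X) (r : Ordinal.{u}), Min X x r → NB X x →
    ∃ (Z : Type u) (_ : TopologicalSpace Z) (_ : CompactSpace Z) (_ : T2Space Z)
      (_ : TotallyDisconnectedSpace Z) (z : Z) (μ : Cardinal.{u}) (K : Ordinal.{u} → Set Z),
      Min Z z r ∧ FFilt z r μ K

/-! ## General facts on filtrations -/

/-- Comparison of an ordinal set with a filtration; `o` is any ordinal of uncountable cofinality.
Proof: order `G` by `f`, `L = {z ∈ G | f z < f p}`, `I_z = {w ∈ G | f w ≤ f z}`. The set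
`{z ∈ G | f z > f p}` is closed, misses `p`, so it is `⊆ K ξ0` for some `ξ0 < o`. For `ξ < o` the set
`L ∩ K ξ` is compact (`= G ∩ K ξ ∩ {f ≤ f p}`) so contained in some `I_z`, `z ∈ L`; `I_z ⊆ K η` for some
`η < o`; moreover `L ⊄ K ξ`. Let `φ ξ` be the least `η > ξ` such that for some `z ∈ L`
`L ∩ K ξ ⊆ I_z ⊆ K η`, and `L ∩ K η ⊄ K ξ`; `φ` is monotone. Let `C` = limit `l > ξ0` closed under `φ`
(`St_Club.fnm`). For `l ∈ C`: `L ∩ U_l` is a union of sets `I_z`, an initial segment of `L`, proper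
(else `p ∈ closure U_l ⊆ K l`); let `e` be its least strict upper bound in `L`. Then
`L ∩ U_l = I_e \ {e}`, `closure (L ∩ U_l) ⊆ I_e`, and `closure (L ∩ U_l) ⊄ U_l` (otherwise it is
contained in `K ξ`, `ξ < l`). So `closure (G ∩ U_l) \ U_l = {e}`. -/
def St_CMP : Prop :=
  ∀ (X : Type u) [TopologicalSpace X] [CompactSpace X] [T2Space X] [TotallyDisconnectedSpace X]
    (p : X) (o : Ordinal.{u}) (K : Ordinal.{u} → Set X) (G : Set X), IsClosed G → IsOrd G →
    p ∈ G → AccPt p (𝓟 G) → ℵ₀ < o.cof → PreFilt p o K → (∀ z ∈ G, z ≠ p → ∃ a < o, z ∈ K a) →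
    ∃ C, Club o C ∧ ∀ l ∈ C, IsSuccLimit l ∧ ∃ e, closure (G ∩ Uu K l) \ Uu K l = {e}

/-- Retractions onto finite boundaries exist. Proof: separate the points of `B_l` by disjoint clopen
sets `N_p`; the rest of `closure U_l` is assigned to one of them (`B_l ≠ ∅`). -/
def St_Retr : Prop :=
  ∀ (X : Type u) [TopologicalSpace X] [CompactSpace X] [T2Space X] [TotallyDisconnectedSpace X]
    (x : X) (r : Ordinal.{u}) (μ : Cardinal.{u}) (K : Ordinal.{u} → Set X), FFilt x r μ K →
    ∀ l < μ.ord, IsSuccLimit l → (Bd K l).Finite → ∃ c, Retr K l c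

/-- Coherence of the partitions below an `l` of uncountable cofinality. Proof: for `p ∈ B_l` let
`G_p = {z ∈ closure U_l | c l z = p}`, closed; `G_p ∩ B_l = {p}`; `G_p` is ordinal (closed, misses `x`) and
`p` is not isolated in it; apply `St_CMP` (with `p`, `o = l`, `K`, `G_p`) for each of the finitely many
`p`, intersect the clubs to get `C`; for `a ∈ C` let `closure (G_p ∩ U_a) \ U_a = {q_p}`; so
`B_a = {q_p | p ∈ B_l}`, the `q_p ∈ G_p` are distinct. The set of `z ∈ closure U_a` with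
`c a z ≠ q_{c l z}` is relatively clopen in `closure U_a` and contains no `q_p`, so it is a compact
subset of `U_a`, contained in some `K b`, `b < a`. -/
def St_PL : Prop :=
  ∀ (X : Type u) [TopologicalSpace X] [CompactSpace X] [T2Space X] [TotallyDisconnectedSpace X]
    (x : X) (r : Ordinal.{u}) (μ : Cardinal.{u}) (K : Ordinal.{u} → Set X), Min X x r →
    FFilt x r μ K → ∀ c : Ordinal.{u} → X → X,
    (∀ a < μ.ord, IsSuccLimit a → (Bd K a).Finite → Retr K a (c a)) →
    ∀ l < μ.ord, ℵ₀ < l.cof → ∃ C, Club l C ∧ ∀ a ∈ C, IsSuccLimit a ∧ (Bd K a).Finite ∧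
      (Bd K a).ncard = (Bd K l).ncard ∧
      ∃ b < a, ∀ z ∈ Uu K a, ∀ w ∈ Uu K a, z ∉ K b → w ∉ K b → (c a z = c a w ↔ c l z = c l w)

/-- The main construction of a forbidden ordinal. Proof: `F = ⋃_{a∈D} T a ∪ {e l | l limit point of D}
∪ {x}`. For a limit point `l ∈ D` of `D`, `e l ∈ K l \ U_l` (it is in the closure of `T a`'s, `a → l`,
and `T a` misses `K a`). `F` is closed: let `z ∈ closure F`, `z ≠ x`, `δ ∈ D` least with `z ∈ K δ`
(`D` unbounded). If `δ = next δ'` in `D`, then `F ∩ (K δ \ K δ') = T δ'` is closed; `δ = min D` is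
impossible (`F ∩ K δ = ∅`); if `δ` is a limit point of `D`, `z ∉ U_δ`, and if `z ≠ e δ` separate by a clopen
`O ∋ e δ`, `z ∉ O`: `F ∩ U_δ ⊆ O ∪ K b` for some `b < δ`, contradiction. `F` is ordinal: if `f_a` orders
`T a` and `Γ` bounds all values `f_a z + 1`, order `F` by `f z = Γ * a + 1 + f_a z` on `T a`,
`f (e l) = Γ * l`, `f x = Γ * μ.ord`; initial segments are `F ∩ K a ∪ {z ∈ T a | f_a z ≤ f_a w}` or
`F ∩ K l`. (`T a` is ordinal since it misses `x`.) `F` is big: every closed `C ∌ x` is `⊆ K b` and for `s < r`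
there is `a > b` with `der (T a) s ≠ ∅`, so `x` accumulates `der F s`. Contradiction with
`St_BigNot`. -/
def St_FC : Prop :=
  ∀ (X : Type u) [TopologicalSpace X] [CompactSpace X] [T2Space X] [TotallyDisconnectedSpace X]
    (x : X) (r : Ordinal.{u}) (μ : Cardinal.{u}) (K : Ordinal.{u} → Set X), Min X x r →
    Filt x μ K → ∀ (D : Set Ordinal.{u}) (T : Ordinal.{u} → Set X) (e : Ordinal.{u} → X),
    Club μ.ord D →
    (∀ a ∈ D, IsClosed (T a) ∧ (T a).Nonempty ∧ Disjoint (T a) (K a)) →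
    (∀ a ∈ D, ∀ b ∈ D, a < b → T a ⊆ K b) →
    (∀ l ∈ D, IsSuccLimit l → (∀ b < l, ∃ c ∈ D, b < c ∧ c < l) →
      ∀ O : Set X, IsClopen O → e l ∈ O → ∃ b < l, ∀ a ∈ D, b < a → a < l → T a ⊆ O) →
    ¬ ∀ s < r, ∀ b < μ.ord, ∃ a ∈ D, b < a ∧ (der (T a) s).Nonempty

/-- If boundaries are points on a club, contradiction. Proof: `St_FC` with `D` = limit elements of
`C`, `T a = W_a`, `e l` the point of `B_l`. For clopen `O ∋ e l`, `closure U_l \ O` is a compact subset
of `U_l`, so `⊆ K b`, `b < l`; `W_a ⊆ U_l \ K a` for `a < l`. Ranks: `FFilt.full`, `St_Der.inter`. -/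
def St_FB1 : Prop :=
  ∀ (X : Type u) [TopologicalSpace X] [CompactSpace X] [T2Space X] [TotallyDisconnectedSpace X]
    (x : X) (r : Ordinal.{u}) (μ : Cardinal.{u}) (K : Ordinal.{u} → Set X), Min X x r →
    FFilt x r μ K → ∀ C, Club μ.ord C → ¬ ∀ l ∈ C, (Bd K l).Subsingleton

/-- Closed sets accumulating at `x` have large rank. Proof: by induction on `d < μ.ord`, `x`
accumulates `der F d`. For `d + 1`: `St_Filt.acc` for `der F d` gives points of
`closure (der F d ∩ U_l) \ U_l ⊆ der F (d+1)`, outside `K b` for `b < l`. For limit `d` intersect fewer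
than `μ` clubs: `l` such that for all `e < d` the compact set `closure (der F e ∩ U_l) \ U_l` is not
empty; these decrease, so some `z ∈ B_l` is in `der F d`. -/
def St_C4b : Prop :=
  ∀ (X : Type u) [TopologicalSpace X] [CompactSpace X] [T2Space X] [TotallyDisconnectedSpace X]
    (x : X) (μ : Cardinal.{u}) (K : Ordinal.{u} → Set X), Filt x μ K →
    ∀ F : Set X, IsClosed F → AccPt x (𝓟 F) → x ∈ der F μ.ord

/-- One-endedness, for `r = μ.ord`. Proof. Every closed set accumulating at `x` is big (`St_C4b`).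
Suppose `F ∩ G ⊆ {x}`. `F ∪ G` is big, `e : F ∪ G ≃ₜ O` clopen, `e x = x`; `X_0 = e '' F ∪ {x}`,
`X_1 = e '' G ∪ Oᶜ` are closed, cover `X`, meet only in `x`, accumulate at `x`. Hence (via `St_Big`) every
closed `H` accumulating at `x` splits as `H = H_0 ∪ H_1`, closed, `H_0 ∩ H_1 = {x}`, both accumulating
at `x`. Build `H_s`, `s ∈ List Bool`. For a club of `l`, all `H_s` meet `B_l` (`St_Filt.acc`). Take such an
`l` with `B_l` countable. For `t : ℕ → Bool` the compact sets `H_{t|n} ∩ B_l` decrease and are nonempty,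
so their intersection is; for different `t` these are disjoint; so `B_l` is uncountable. -/
def St_OE : Prop :=
  ∀ (X : Type u) [TopologicalSpace X] [CompactSpace X] [T2Space X] [TotallyDisconnectedSpace X]
    (x : X) (μ : Cardinal.{u}) (K : Ordinal.{u} → Set X), Min X x μ.ord → Filt x μ K →
    (∀ C, Club μ.ord C → ∃ l ∈ C, (Bd K l).Countable) →
    ∀ F G : Set X, IsClosed F → IsClosed G → AccPt x (𝓟 F) → AccPt x (𝓟 G) →
      ∃ z, z ∈ F ∧ z ∈ G ∧ z ≠ x

/-- Convergence, for `μ.ord < r`. Proof. Choose `y_a ∈ W_a`, `E = closure {y_a | a < μ.ord}`. For clopen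
`N ∌ x`, `N ⊆ K b`, `E ∩ N` is the closure of `≤ |b|` points, so `#(E ∩ N) < μ` (`St_OClos`), so
`der E μ.ord ⊆ {x}` (`St_LS`), so `E` is small, ordinal, accumulates at `x`. `St_CMP` (`p = x`) gives a
club `C_E` and points `e l` with `closure (E ∩ U_l) \ U_l = {e l}`. Given `A` let
`T = closure (⋃ A a ∪ {y_a})`; for clopen `N ⊆ K b`, `#(T ∩ N) < ν` (`ν` regular, `|b| < μ ≤ ν`), so
`der T ν.ord ⊆ {x}` and `T` is small; `St_CMP` gives a club `C_T` with
`closure (T ∩ U_l) \ U_l = {e'}`; `e' = e l` on `C_E ∩ C_T`. For clopen `O ∋ e l`,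
`closure (T ∩ U_l) \ O` is a compact subset of `U_l`, so `⊆ K b` for some `b < l`; and
`A a ⊆ T ∩ U_l \ K a` for `a < l`. -/
def St_CV : Prop :=
  ∀ (X : Type u) [TopologicalSpace X] [CompactSpace X] [T2Space X] [TotallyDisconnectedSpace X]
    (x : X) (r : Ordinal.{u}) (μ : Cardinal.{u}) (K : Ordinal.{u} → Set X), Min X x r →
    FFilt x r μ K → μ.ord < r → ∃ e : Ordinal.{u} → X,
    ∀ (ν : Cardinal.{u}) (A : Ordinal.{u} → Set X), ν.IsRegular → μ ≤ ν → ν.ord < r →
      (∀ a < μ.ord, A a ⊆ K (a + 1) \ K a ∧ #(A a) < ν) →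
      ∃ C, Club μ.ord C ∧ ∀ l ∈ C, IsSuccLimit l ∧ e l ∈ Bd K l ∧
        ∀ O : Set X, IsClopen O → e l ∈ O → ∃ b < l, ∀ a, b ≤ a → a < l → A a ⊆ O

/-- Case C8: `μ⁺ < r` is impossible. Proof. `e` from `St_CV`. Let `S` be the set of `l < μ.ord` such that
some clopen `O_l ∋ e l` has `{a < l | W_a ⊄ O_l}` unbounded in `l`. If `S` is stationary: choose
`v_{l,a} ∈ W_a \ O_l` for these, `A a = {v_{l,a} | l ∈ S, a < l}`, of size `≤ μ < ν := succ μ`; `St_CV` gives
a contradiction at any `l ∈ S ∩ C`. So there is a club on which `W_a → e l`; apply `St_FC` with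
`T a = W_a` (`D` = limit elements of the club). -/
def St_C8 : Prop :=
  ∀ (X : Type u) [TopologicalSpace X] [CompactSpace X] [T2Space X] [TotallyDisconnectedSpace X]
    (x : X) (r : Ordinal.{u}) (μ : Cardinal.{u}) (K : Ordinal.{u} → Set X), Min X x r →
    FFilt x r μ K → ¬ (succ μ).ord < r

/-! ## Case C6: `μ.ord < r`, `ℵ₁ < μ` -/

/-- Boundaries of uncountable cofinality are points on a club, if `μ.ord < r`.
Proof. `R = closure (⋃ {B_a | a < μ.ord limit, B_a finite})`. For clopen `N ∌ x`, `N ⊆ K b`,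
`N ∩ B_a = ∅` for `a > b`, so `#(R ∩ N) < μ`, `der R μ.ord ⊆ {x}`, `R` small. If `x` does not accumulate
`R` then `R \ {x} ⊆ K b` for some `b`, so no `a > b` has a finite nonempty boundary; with `St_BL` there
is nothing to prove beyond `b`. Otherwise `St_CMP` gives a club `C` with
`closure (R ∩ U_l) \ U_l = {e}` for `l ∈ C`. Let `l ∈ C`, `ℵ₀ < l.cof`, `p ∈ B_l` (finite, `St_BL`). By
`St_PL` for club many `a < l`, `B_a` is finite of the same cardinality and
`c a z = c a w ↔ c l z = c l w` on `U_a \ K b`; by continuity `p' ↦ c l p'` is injective from `B_a` to `B_l`,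
so onto: there is `p' ∈ B_a ⊆ R`, `c l p' = p`. These `p'` (`a → l`) leave every `K ξ`, `ξ < l`, so
their cluster points are in `{z ∈ closure U_l | c l z = p} \ U_l = {p}`; so
`p ∈ closure (R ∩ U_l)`, `p = e`. -/
def St_C6a : Prop :=
  ∀ (X : Type u) [TopologicalSpace X] [CompactSpace X] [T2Space X] [TotallyDisconnectedSpace X]
    (x : X) (r : Ordinal.{u}) (μ : Cardinal.{u}) (K : Ordinal.{u} → Set X), Min X x r →
    FFilt x r μ K → μ.ord < r →
    ∃ C, Club μ.ord C ∧ ∀ l ∈ C, ℵ₀ < l.cof → (Bd K l).Subsingleton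

/-- Reflection (from `MM`; a consequence of `St_SP` with `R = False`): stationary sets of ordinals of
cofinality `ω` below a regular `μ > ℵ₁` contain closed copies of `ω₁`. -/
def St_RP : Prop :=
  MM.{u} → ∀ (μ : Cardinal.{u}) (S : Set Ordinal.{u}), μ.IsRegular → ℵ₁ < μ → Stat μ.ord S →
    (∀ a ∈ S, a < μ.ord ∧ IsSuccLimit a ∧ a.cof = ℵ₀) →
    ∃ c : Ordinal.{u} → Ordinal.{u}, (∀ i < w1, c i ∈ S) ∧ (∀ i j, i < j → j < w1 → c i < c j) ∧
      ∀ l < w1, IsSuccLimit l → ∀ b < c l, ∃ i < l, b < c i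

/-- Consequence of `St_RP`: let `P` be a property of ordinals `< μ.ord`. If for club many `l` with
`l.cof = ℵ₁` club many `a < l` have `P a`, then club many `a < μ.ord` of cofinality `ω` have `P a`.
Proof: otherwise `S = {a ∈ C | IsSuccLimit a, a.cof = ℵ₀, ¬ P a}` is stationary (`C` the given club);
`c` from `St_RP`, `l = sup c i` has cofinality `ℵ₁`, `l < μ.ord`, `l ∈ C`; `{c i | i limit}` is a club in
`l` disjoint from `{a | P a}`; contradiction (two clubs in `l` meet). -/
def St_RP2 : Prop :=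
  MM.{u} → ∀ (μ : Cardinal.{u}) (P : Ordinal.{u} → Prop) (C : Set Ordinal.{u}), μ.IsRegular →
    ℵ₁ < μ → Club μ.ord C →
    (∀ l ∈ C, l.cof = ℵ₁ → ∃ E, Club l E ∧ ∀ a ∈ E, P a) →
    ∃ C', Club μ.ord C' ∧ ∀ a ∈ C', a.cof = ℵ₀ → P a

/-- Case C6 is impossible. Proof: for `l` in the club of `St_C6a` with `l.cof = ℵ₁`, `B_l` is a point, so
by `St_PL` club many `a < l` have `B_a` a point; `St_RP2` gives a club on which cofinality `ω` boundaries
are points; with `St_C6a` all boundaries on a club are points (limit ordinals have cofinality `ω` or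
uncountable); `St_FB1`. -/
def St_C6 : Prop :=
  MM.{u} → ∀ (X : Type u) [TopologicalSpace X] [CompactSpace X] [T2Space X]
    [TotallyDisconnectedSpace X] (x : X) (r : Ordinal.{u}) (μ : Cardinal.{u})
    (K : Ordinal.{u} → Set X), Min X x r → FFilt x r μ K → ℵ₁ < μ → ¬ μ.ord < r

/-! ## Case C7: `r = μ.ord`, `ℵ₁ < μ` -/

/-- `Coh K c z a b`: the partitions of `U_a \ K z` given by `c a` and `c b` are equal -/
def Coh {X : Type u} (K : Ordinal.{u} → Set X) (c : Ordinal.{u} → X → X)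
    (z a b : Ordinal.{u}) : Prop :=
  z < a ∧ a < b ∧ ∀ v ∈ Uu K a, ∀ w ∈ Uu K a, v ∉ K z → w ∉ K z → (c a v = c a w ↔ c b v = c b w)

/-- No cofinal coherent sequence of partitions into `n ≥ 2` pieces. Proof. Let `A` be as in the
statement, `a0 ∈ A`, `a0 > z`, `p ≠ p' ∈ B_{a0}`; `u, u' ∈ U_{a0} \ K z` with `c a0 u = p`, `c a0 u' = p'` (near `p`,
`p'`). `H = {v ∉ K z | v ≠ x, ∃ b ∈ A, b > a0, v ∈ U_b, c b v = c b u}`; by coherence this does not depend on
`b`; `H` is clopen in `Y` (its complement in `Y \ K z` is a union of similar sets) and unbounded: for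
every `b` it contains points of `U_b` near `c b u ∈ B_b`. The same for `H'` from `u'`; `H ∩ H' = ∅` since
`c b u ≠ c b u'`. So `insert x H`, `insert x H'` contradict one-endedness. -/
def St_C7t4 : Prop :=
  ∀ (X : Type u) [TopologicalSpace X] [CompactSpace X] [T2Space X] [TotallyDisconnectedSpace X]
    (x : X) (r : Ordinal.{u}) (μ : Cardinal.{u}) (K : Ordinal.{u} → Set X), FFilt x r μ K →
    (∀ F G : Set X, IsClosed F → IsClosed G → AccPt x (𝓟 F) → AccPt x (𝓟 G) →
      ∃ z, z ∈ F ∧ z ∈ G ∧ z ≠ x) →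
    ∀ (c : Ordinal.{u} → X → X) (A : Set Ordinal.{u}) (z : Ordinal.{u}),
      (∀ a ∈ A, a < μ.ord ∧ IsSuccLimit a ∧ (Bd K a).Finite ∧ 2 ≤ (Bd K a).ncard ∧
        Retr K a (c a)) → (∀ b < μ.ord, ∃ a ∈ A, b < a) → z < μ.ord →
      ¬ ∀ a ∈ A, ∀ b ∈ A, z < a → a < b → Coh K c z a b

/-- Local countability of branches. Proof. If `b = g` take `z' = z` (restrict coherence). Let `g < b`;
`closure U_g ⊆ K g ⊆ U_b`. The set of `v ∈ closure U_g` with `c b v ≠ c b (c g v)` is clopen in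
`closure U_g` and misses `B_g`, so it is `⊆ K z1`, `z1 < g`; `z' := max z z1`. If `c b` is injective on
`B_g`, then on `U_g \ K z'` the partitions of `c b` and `c g` agree, and `Coh K c z a b` implies
`Coh K c z' a g`. If not, `c b` takes at most `n - 1` values on `U_g \ K z'`; but if `z' < a < g` and
`Coh K c z a b` then `c b` takes `n` values on `U_a \ K z'` (each of the `n` classes of `c a` is
unbounded in `U_a`); so there is no such `a`. -/
def St_C7t5 : Prop :=
  ∀ (X : Type u) [TopologicalSpace X] [CompactSpace X] [T2Space X] [TotallyDisconnectedSpace X]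
    (x : X) (r : Ordinal.{u}) (μ : Cardinal.{u}) (K : Ordinal.{u} → Set X), FFilt x r μ K →
    ∀ (c : Ordinal.{u} → X → X) (S : Set Ordinal.{u}) (n : ℕ),
      (∀ a ∈ S, a < μ.ord ∧ IsSuccLimit a ∧ (Bd K a).Finite ∧ (Bd K a).ncard = n ∧
        Retr K a (c a)) →
      ∀ g ∈ S, ∀ b ∈ S, g ≤ b → ∀ z < g, ∃ z', z ≤ z' ∧ z' < g ∧
        ∀ a ∈ S, z' < a → a < g → Coh K c z a b → Coh K c z' a g

/-- The abstract application of `MM` for cofinality `> ω₁`: `R z a b` are tree orders on `S`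
without cofinal branches and with countably many branches at each `g ∈ S` (last hypothesis).
See part 4 for the proof. -/
def St_SP : Prop :=
  MM.{u} → ∀ (μ : Cardinal.{u}) (S : Set Ordinal.{u})
    (R : Ordinal.{u} → Ordinal.{u} → Ordinal.{u} → Prop), μ.IsRegular → ℵ₁ < μ →
    Stat μ.ord S → (∀ a ∈ S, a < μ.ord ∧ IsSuccLimit a ∧ a.cof = ℵ₀) →
    (∀ z a b, R z a b → z < a ∧ a < b) →
    (∀ z, ∀ a ∈ S, ∀ b ∈ S, ∀ c ∈ S, R z a b → R z b c → R z a c) →
    (∀ z, ∀ a ∈ S, ∀ b ∈ S, ∀ c ∈ S, a < b → R z a c → R z b c → R z a b) →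
    (∀ z z', ∀ a ∈ S, ∀ b ∈ S, R z a b → z ≤ z' → z' < a → R z' a b) →
    (∀ z < μ.ord, ∀ A ⊆ S, (∀ b < μ.ord, ∃ a ∈ A, b < a) →
      ¬ ∀ a ∈ A, ∀ b ∈ A, z < a → a < b → R z a b) →
    (∀ g ∈ S, ∀ b ∈ S, g ≤ b → ∀ z < g, ∃ z', z ≤ z' ∧ z' < g ∧
      ∀ a ∈ S, z' < a → a < g → R z a b → R z' a g) →
    ∃ c : Ordinal.{u} → Ordinal.{u}, (∀ i < w1, c i ∈ S) ∧ (∀ i j, i < j → j < w1 → c i < c j) ∧
      (∀ l < w1, IsSuccLimit l → ∀ b < c l, ∃ i < l, b < c i) ∧
      ∀ z, ∀ A : Set Ordinal.{u}, A ⊆ Iio w1 → ¬ A.Countable →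
        ¬ ∀ i ∈ A, ∀ j ∈ A, i < j → R z (c i) (c j)

/-- Boundaries with a fixed number `n ≥ 2` of points are not stationary in cofinality `ω`.
Proof: let `S` = those `a` (a stationary set), `c a` retractions (`St_Retr`), `R = Coh K c`. The
hypotheses of `St_SP`: tree properties are immediate, `St_C7t4`, `St_C7t5`. Let `c'` be the sequence
obtained and `l = sup c' i < μ.ord`, of cofinality `ℵ₁`; `B_l` finite (`St_BL`), `St_PL` gives a club
`C` in `l` on which `c a` and `c l` give the same partition of `U_a \ K (b a)`, `b a < a`. For limit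
`i < ω₁` in a club `c' i ∈ C`, and `b (c' i) < c' (j i)` with `j i < i`; Fodor gives a stationary (so
uncountable) `A ⊆ ω₁` with `j i = j` constant; for `i < i'` in `A`, `Coh K c (c' j) (c' i) (c' i')`.
Contradiction. -/
def St_C7n : Prop :=
  MM.{u} → ∀ (X : Type u) [TopologicalSpace X] [CompactSpace X] [T2Space X]
    [TotallyDisconnectedSpace X] (x : X) (μ : Cardinal.{u})
    (K : Ordinal.{u} → Set X), Min X x μ.ord → FFilt x μ.ord μ K → ℵ₁ < μ →
    (∀ F G : Set X, IsClosed F → IsClosed G → AccPt x (𝓟 F) → AccPt x (𝓟 G) →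
      ∃ z, z ∈ F ∧ z ∈ G ∧ z ≠ x) → ∀ n, 2 ≤ n →
    ¬ Stat μ.ord {a | a < μ.ord ∧ IsSuccLimit a ∧ a.cof = ℵ₀ ∧ (Bd K a).Finite ∧
      (Bd K a).ncard = n}

/-- Case C7 is impossible. Proof: one-endedness by `St_OE` (`St_Club.cofw1`, `St_BL`). By `St_RP2` with
`P a = (B_a finite)` (`St_PL`, `St_BL`), and by `St_C7n` for all `n ≥ 2` and `St_Club.intersN`, there is a
club `C` such that `B_a` is a point for all limit `a ∈ C` of cofinality `ω`. If `l` is a limit point of
`C` with `ℵ₀ < l.cof`, `St_PL` and `St_Club.cofw` give `a ∈ C` of cofinality `ω` with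
`(B_a).ncard = (B_l).ncard`, so `B_l` is a point. `St_FB1`. -/
def St_C7 : Prop :=
  MM.{u} → ∀ (X : Type u) [TopologicalSpace X] [CompactSpace X] [T2Space X]
    [TotallyDisconnectedSpace X] (x : X) (μ : Cardinal.{u})
    (K : Ordinal.{u} → Set X), Min X x μ.ord → FFilt x μ.ord μ K → ¬ ℵ₁ < μ

/-! ## Case C5: `μ = ℵ₁`, `ω₁ < r < ω₂` -/

/-- Ladder uniformisation (from `MM`). Proof. Conditions `p = (len, g, a)`: `len < ω₁`,
`g : Iio len → ω₁` (`0` elsewhere), `a ⊆ Iic len` closed (contains its limit points `≤ len`), `len ∈ a`,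
and for `l ∈ a ∩ S` there are infinitely many `k` with `m l k ≤ g (d l k)`. `q ≤ p` iff
`p.len ≤ q.len`, `q.g = p.g` on `Iio p.len`, `q.a ∩ Iic p.len = p.a`. One can always extend `p` by giving `g`
any value at a given `b ≥ p.len` (`0` between): new `len = b + 1`, `a ∪ {b+1}` (`b + 1 ∉ S` since elements
of `S` below `w1` are limits). So `{p | b ≤ p.len}` is dense. The poset is small. `SSP` by `St_SSPT`
(`T = Ordinal ⊕ P`): `M ∩ ω₁ = δ`, `p ∈ M`; build `p_n ∈ M` decreasing, `p_{n+1} ∈ D a_n` (`a_n`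
enumerates `δ`), lengths cofinal in `δ`; if `δ ∈ S`, before each step first extend `p_n` so that
`g (d δ k) = m δ k` for a ladder point `d δ k ≥ p_n.len` (these ordinals are `< δ`, hence in `M`; `k`
increasing). `q = (δ, ⋃ g, ⋃ a ∪ {δ})` is a condition below all `p_n`. A filter meeting all
`{p | b ≤ p.len}` gives `g` and the club `C = ⋃ a`. -/
def St_LU : Prop :=
  MM.{u} → ∀ (S : Set Ordinal.{u}) (d m : Ordinal.{u} → ℕ → Ordinal.{u}),
    (∀ l ∈ S, l < w1 → IsSuccLimit l ∧ StrictMono (d l) ∧ (∀ n, d l n < l) ∧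
      (∀ b < l, ∃ n, b < d l n) ∧ ∀ n, m l n < l) →
    ∃ (g : Ordinal.{u} → Ordinal.{u}) (C : Set Ordinal.{u}), (∀ a < w1, g a < w1) ∧ Club w1 C ∧
      ∀ l ∈ C, l ∈ S → ∀ n, ∃ k ≥ n, m l k ≤ g (d l k)

/-- Strong convergence. Proof. `e` from `St_CV`. Let `S` be the set of limits `l < ω₁` with
`e l ∈ B_l` such that some clopen `O_l ∋ e l` has: for all `b < l` there are `a ∈ [b,l)`, `i < l` with
`q a i ∉ O_l`. For `l ∈ S` choose `a_n` increasing to `l` and `i_n < l` with `q a_n i_n ∉ O_l`; apply `St_LU` to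
`d l n = a_n`, `m l n = i_n + 1` and get `g`, `C`. Apply `St_CV` to `A a = {q a i | i < g a}`
(countable, `ν = ℵ₁`), get `C'`. `S ∩ C ∩ C' = ∅`: for `l` in it take `b` for `O_l`, and `k` with
`a_k ≥ b`, `i_k + 1 ≤ g a_k`; `q a_k i_k ∈ A a_k ⊆ O_l`, contradiction. -/
def St_C5a : Prop :=
  MM.{u} → ∀ (X : Type u) [TopologicalSpace X] [CompactSpace X] [T2Space X]
    [TotallyDisconnectedSpace X] (x : X) (r : Ordinal.{u}) (K : Ordinal.{u} → Set X),
    Min X x r → FFilt x r ℵ₁ K → w1 < r → ∃ e : Ordinal.{u} → X,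
    ∀ q : Ordinal.{u} → Ordinal.{u} → X, (∀ a < w1, ∀ i < w1, q a i ∈ K (a + 1) \ K a) →
      ∃ C, Club w1 C ∧ ∀ l ∈ C, IsSuccLimit l ∧ e l ∈ Bd K l ∧
        ∀ O : Set X, IsClopen O → e l ∈ O → ∃ b < l, ∀ a, b ≤ a → a < l → ∀ i < l, q a i ∈ O

/-- Removing `ω₁` many clopen sets from a compact ordinal `W` of size `≤ ℵ₁` without decreasing the
rank of `q 0`. Proof. Order `W` by `f`. For `w ∈ W` with `Cnt W w` fix decreasing clopen `O_n ∋ w` with
`W ∩ ⋂ O_n = {w}` and, when `W ∩ O_n \ O_{n+1} ≠ ∅`, a point `w_n` of maximal rank of this compact set; then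
for every `t` such that `w` accumulates `D t`, infinitely many `w_n` are in `D t`.
Build `D = {d_j | j < ω₁} ⊆ C \ {0}`, increasing, continuous, with the following closure properties, where
`Z_j = closure (⋃_{j' ≤ j} V d_j')`: (a) for `i, k, v < d_j`: if there is `w' ∈ W` with
`f (q k) < f w' < f (q i)`, `w' ∉ Z_j` and `∀ s, q v ∈ D s → w' ∈ D s`, then there is such a `w' = q i'` with
`i' < d_{j+1}`; (b) if `i < d_j` and `Cnt W (q i)`, the points `w_n` fixed for `w = q i` are of the form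
`q i'`, `i' < d_j`. For `w ∈ W` let `j(w)` be the least `j` with `w ∈ {q i | i < d_j}` (`0` or a
successor). Call `w` good if `w ∉ closure (⋃_{j' < j(w)} V d_j')`. Good points are in
`T = W \ ⋃_{l∈D} V l`. Claim: `w` good, `w ∈ D s` implies `w ∈ der T s`; by induction on `s`. Let
`s* ≥ s` be the exact rank of `w` (`w ∈ D s* \ D (s*+1)`, `X` scattered) and `N` a clopen neighbourhood
of `w`, `N ∩ D s* = {w}`, and `t < s`; we find a good `w' ∈ N ∩ D t`, `w' ≠ w`. If `Cnt W w`: take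
`w' = w_n ∈ D t` for a large `n`: `j(w_n) ≤ j(w)` by (b) and `w_n ∉ closure (⋃_{j' < j(w)} V d_j')`, so it
is good. If `¬ Cnt W w`: there is `q k` with `f (q k) < f w` and
`{z ∈ W | f (q k) < f z ≤ f w} ⊆ N`, and `w1 = q v ∈ D t` with `f (q k) < f w1 < f w`; its exact rank is
`< s*`. Let `j` be large with `i, k, v < d_j` (`w = q i`), `j ≥ j(w)`. `w ∉ Z_j`: `w` is not in
`closure (⋃_{j' < j(w)} V d_j')`, nor in the countably many clopen sets `V d_j'`, `j(w) ≤ j' ≤ j` (as
`i < d_j'`), so by `St_OCnt` and `¬ Cnt W w` it is not in the closure of the union. As `w` accumulates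
the points of rank at least that of `q v`, (a) gives `w' = q i'`, `i' < d_{j+1}`, `w' ∉ Z_j`, so `w'` is
good. Finally `q 0` is good (`j(q 0) = 0`). -/
def St_C5b : Prop :=
  ∀ (X : Type u) [TopologicalSpace X] [CompactSpace X] [T2Space X] [TotallyDisconnectedSpace X]
    (W : Set X) (q : Ordinal.{u} → X) (V : Ordinal.{u} → Set X) (C : Set Ordinal.{u}),
    Scat X → IsClopen W → IsOrd W → (∀ i < w1, q i ∈ W) → (∀ z ∈ W, ∃ i < w1, q i = z) →
    Club w1 C → (∀ l ∈ C, IsClopen (V l) ∧ ∀ i < l, q i ∉ V l) →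
    ∃ D ⊆ C, Club w1 D ∧ ∀ s, q 0 ∈ der (univ : Set X) s →
      q 0 ∈ der (W \ ⋃ l ∈ D, V l) s

/-- Case C5 is impossible. Proof. `#(K a) ≤ ℵ₁` (`St_Small`). For `a < ω₁` let `q a : ω₁ → W_a` be onto,
with `q a 0 ∈ D s` for all `s` with `D s ∩ W_a ≠ ∅` (a point of maximal rank). `e`, `C` from `St_C5a`. For
`l ∈ C` let `O_{l,k}` be decreasing clopen with `⋂ O_{l,k} ∩ K l = {e l}` (`e l ∈ closure (⋃ K l_n)`,
`l_n` increasing to `l`; `St_OCnt` in `K l`), and let
`V l a = W_a \ O_{l,k}` for the largest `k ≤ #{n | l_n ≤ a}` such that `q a i ∈ O_{l,k}` for all `i < l`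
(`∅` if none); then `V l a` is clopen, `q a i ∉ V l a` for `i < l`, and for every clopen `O ∋ e l`
there is `b < l` with `W_a \ V l a ⊆ O` for `a ∈ [b, l)`. For each `a`, `St_C5b` with `W = W_a`, `q a`,
`V · a`, `C \ (a+1)` gives a club `D_a`; `D` = the limit `l ∈ C` with `l ∈ D_a` for all `a < l`
(diagonal intersection). `T a = W_a \ ⋃_{l ∈ D, l > a} V l a` contains `q a 0` and
`q a 0 ∈ der (T a) s` whenever `D s ∩ W_a ≠ ∅`, and `T a → e l` for `l ∈ D`. `St_FC`. -/
def St_C5 : Prop :=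
  MM.{u} → ∀ (X : Type u) [TopologicalSpace X] [CompactSpace X] [T2Space X]
    [TotallyDisconnectedSpace X] (x : X) (r : Ordinal.{u})
    (K : Ordinal.{u} → Set X), Min X x r → FFilt x r ℵ₁ K → w1 < r → ¬ r < (Cardinal.aleph 2).ord

end Pool.Agent.HCO
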