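import Pool.Agent.HCO.St3

/-!
# Statements, part 4: the posets (case C4, P-ideal dichotomy, ladders, cofinality `> ω₁`)
-/

set_option autoImplicit false

open Set Topology Cardinal Ordinal Order Filter

universe u v w

namespace Pool.Agent.HCO

/-! ## Case C4: `r = ω₁`, `μ = ℵ₁` -/

/-- one-endedness: two closed sets accumulating at `x` meet outside `x`; and `x` is not isolated -/
def OE1 (X : Type u) [TopologicalSpace X] (x : X) : Prop :=
  AccPt x (𝓟 (univ : Set X)) ∧ ∀ F G : Set X, IsClosed F → IsClosed G → AccPt x (𝓟 F) →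
    AccPt x (𝓟 G) → ∃ z, z ∈ F ∧ z ∈ G ∧ z ≠ x

/-- `A` meets (outside `x`) every closed set accumulating at `x` -/
def Pos {X : Type u} [TopologicalSpace X] (x : X) (A : Set X) : Prop :=
  ∀ F : Set X, IsClosed F → AccPt x (𝓟 F) → ∃ z ∈ A, z ∈ F ∧ z ≠ x

/-- The closed sets accumulating at `x` form a `μ`-complete normal filter base. Proofs.
`inter`: otherwise a clopen `N ∋ x` has `N ∩ F ∩ G ⊆ {x}`, apply one-endedness to `N ∩ F`, `N ∩ G`.
`inters`: for every finite `s ⊆ b`, `F_s = ⋂_{i∈s} F i` accumulates at `x`; for `l` in a club (fewer than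
`μ` clubs, `St_Filt.acc`) all `F_s` meet the compact `B_l`, so `⋂_{i<b} F i` meets `B_l`.
`diag`: `G = {x} ∪ {z | ∀ i < ht K z, z ∈ F i}` is closed: if `z ≠ x` is in its closure and
`i < ht K z`, then `K i` is a clopen set missing `z`, so points of `G` near `z` are outside `K i`, hence in
`F i`. For `l` in the diagonal intersection of the clubs for `b < l`, `⋂_{i<l} F i` meets `B_l`, and points
of `B_l` have height `l`.
`split`: otherwise closed `F n` accumulating at `x` miss `A n`; use `inters`. -/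
structure St_N : Prop where
  inter : ∀ (X : Type u) [TopologicalSpace X] [CompactSpace X] [T2Space X]
    [TotallyDisconnectedSpace X] (x : X), OE1 X x → ∀ F G : Set X, IsClosed F → IsClosed G →
    AccPt x (𝓟 F) → AccPt x (𝓟 G) → AccPt x (𝓟 (F ∩ G))
  inters : ∀ (X : Type u) [TopologicalSpace X] [CompactSpace X] [T2Space X]
    [TotallyDisconnectedSpace X] (x : X) (μ : Cardinal.{u}) (K : Ordinal.{u} → Set X),
    Filt x μ K → OE1 X x → ∀ b < μ.ord, ∀ F : Ordinal.{u} → Set X,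
    (∀ i < b, IsClosed (F i) ∧ AccPt x (𝓟 (F i))) → AccPt x (𝓟 {z | ∀ i < b, z ∈ F i})
  diag : ∀ (X : Type u) [TopologicalSpace X] [CompactSpace X] [T2Space X]
    [TotallyDisconnectedSpace X] (x : X) (μ : Cardinal.{u}) (K : Ordinal.{u} → Set X),
    Filt x μ K → OE1 X x → ∀ F : Ordinal.{u} → Set X,
    (∀ i < μ.ord, IsClosed (F i) ∧ AccPt x (𝓟 (F i))) →
    ∃ G : Set X, IsClosed G ∧ AccPt x (𝓟 G) ∧ ∀ z ∈ G, z ≠ x → ∀ i < ht K z, z ∈ F i
  split : ∀ (X : Type u) [TopologicalSpace X] [CompactSpace X] [T2Space X]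
    [TotallyDisconnectedSpace X] (x : X) (μ : Cardinal.{u}) (K : Ordinal.{u} → Set X),
    Filt x μ K → OE1 X x → ∀ (A : Set X) (B : ℕ → Set X), Pos x A → A ⊆ (⋃ n, B n) →
    ∃ n, Pos x (B n)

/-- Neighbourhood assignments on positive sets. Proof. Let `H` be the set of `v ≠ x` such that
`{y ∈ A | v ∈ f y}` is not positive, with witness `F_v` (closed, accumulating at `x`,
`v ∉ f y` for `y ∈ A ∩ F_v`, `y ≠ x`). If the conclusion fails, `x` accumulates `H`. By `inters` (the sets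
`K a` are countable) and `diag` there is a closed `F`, accumulating at `x`, such that
`y ∈ F_v` for `y ∈ F`, `y ≠ x`, `v ∈ H ∩ U_{ht y}`. `H' = {x} ∪ {z | z ∈ closure (H ∩ U_{ht z})}` is closed
(if `z ≠ x` is in the closure of `H'`, use `K (ht z)` as a neighbourhood) and accumulates at `x`
(`St_Filt.acc`). As `A` is positive, there is `y ∈ A ∩ F ∩ H'`, `y ≠ x`; `f y` is a neighbourhood of `y`, so it
contains some `v ∈ H ∩ U_{ht y}`; but `y ∈ F_v`: contradiction. -/
def St_Gf : Prop :=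
  ∀ (X : Type u) [TopologicalSpace X] [CompactSpace X] [T2Space X] [TotallyDisconnectedSpace X]
    (x : X) (K : Ordinal.{u} → Set X), Filt x ℵ₁ K → (∀ a < w1, (K a).Countable) → OE1 X x →
    ∀ (A : Set X) (f : X → Set X), Pos x A → (∀ y ∈ A, IsOpen (f y) ∧ y ∈ f y) →
      ∃ b < w1, ∀ v, v ≠ x → v ∉ K b → Pos x {y | y ∈ A ∧ v ∈ f y}

/-- Conditions for a closed copy of `ω₁`: a countable closed set `c` on which the height is
injective, and countably many promises: neighbourhood assignments on positive sets. -/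
structure P4 {X : Type u} [TopologicalSpace X] (x : X) (K : Ordinal.{u} → Set X) where
  c : Set X
  Φ : Set (Set X × (X → Set X))
  closed : IsClosed c
  ct : c.Countable
  nx : x ∉ c
  inj : Set.InjOn (ht K) c
  pct : Φ.Countable
  pos : ∀ f ∈ Φ, Pos x f.1 ∧ ∀ y ∈ f.1, IsClopen (f.2 y) ∧ y ∈ f.2 y

/-- new points are higher and, for each old promise `f`, the set of `y` such that all new points are
in `f y` is positive and promised -/
instance {X : Type u} [TopologicalSpace X] (x : X) (K : Ordinal.{u} → Set X) :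
    Preorder (P4 x K) where
  le q p := p.c ⊆ q.c ∧ (∀ z ∈ q.c, z ∉ p.c → ∀ w ∈ p.c, ht K w < ht K z) ∧ p.Φ ⊆ q.Φ ∧
    ∀ f ∈ p.Φ, ({y | y ∈ f.1 ∧ q.c \ p.c ⊆ f.2 y}, f.2) ∈ q.Φ
  le_refl p := ⟨subset_rfl, fun z hz hz' => (hz' hz).elim, subset_rfl, by
    intro f hf
    have : {y | y ∈ f.1 ∧ p.c \ p.c ⊆ f.2 y} = f.1 := by
      ext y; simp
    rw [this]; exact hf⟩
  le_trans r q p := by
    rintro ⟨h1, h2, h3, h4⟩ ⟨k1, k2, k3, k4⟩
    refine ⟨k1.trans h1, ?_, k3.trans h3, ?_⟩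
    · intro z hz hzp w hw
      by_cases hzq : z ∈ q.c
      · exact k2 z hzq hzp w hw
      · exact h2 z hz hzq w (k1 hw)
    · intro f hf
      have := h4 _ (k4 f hf)
      have e : {y | y ∈ {y | y ∈ f.1 ∧ q.c \ p.c ⊆ f.2 y} ∧ r.c \ q.c ⊆ f.2 y} =
          {y | y ∈ f.1 ∧ r.c \ p.c ⊆ f.2 y} := by
        ext y
        constructor
        · rintro ⟨⟨a, b⟩, c⟩
          refine ⟨a, fun z hz => ?_⟩
          by_cases hzq : z ∈ q.c
          · exact b ⟨hzq, hz.2⟩
          · exact c ⟨hz.1, hzq⟩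
        · rintro ⟨a, b⟩
          exact ⟨⟨a, fun z hz => b ⟨h1 hz.1, hz.2⟩⟩, fun z hz => b ⟨hz.1, fun hp => hz.2 (k1 hp)⟩⟩
      rw [e] at this
      exact this

/-- One-point extensions. Proof: `max (ht '' p.c) < ω₁`; by `St_Gf` (countably many promises) all
`v` high enough have `{y ∈ A | v ∈ f y}` positive for all promises `(A, f)`; add such a `v` (and the
promises `({y ∈ A | v ∈ f y}, f)`). -/
def St_P4one : Prop :=
  ∀ (X : Type u) [TopologicalSpace X] [CompactSpace X] [T2Space X] [TotallyDisconnectedSpace X]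
    (x : X) (K : Ordinal.{u} → Set X), Filt x ℵ₁ K → (∀ a < w1, (K a).Countable) → OE1 X x →
    ∀ (p : P4 x K) (b : Ordinal.{u}), b < w1 → ∃ q ≤ p, ∃ z ∈ q.c, z ∉ K b

/-- The key lemma. Proof. For a condition `p` and `a < ω₁` call `y ≠ x` bad if there is a clopen
`O_y ∋ y` such that no `q ≤ p` in `D a` has `q.c \ p.c ⊆ O_y ∩ U_{ht y}`. Claim: the set `Bad(p,a)` is not
positive. Otherwise `p' = (p.c, p.Φ ∪ {(Bad, y ↦ O_y)})` is a condition `≤ p`; let `q ≤ p'`, `q ∈ D a`; the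
set of `y ∈ Bad` with `q.c \ p.c ⊆ O_y` is positive, so it contains `y` with `ht y` so large that
`q.c ⊆ U_{ht y}` (`q.c` is compact): contradiction. So choose a closed `F(p,a)`, accumulating at `x`,
disjoint from `Bad(p,a)`. Let `M` be closed under: `(p,a) ↦ F(p,a)`; `b ↦` all clopen subsets of `K b`
(`b < ω₁`; countably many, since `K b` is countable and compact, so a clopen subset is a finite union
of members of a countable basis); `(p, a, O) ↦` some `q ≤ p` in `D a` with `q.c \ p.c ⊆ O`, if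
there is one. Let `z, p, a, O` be as in the statement; `z ∈ F(p,a)` so `z` is not bad, so there is `q ≤ p` in
`D a` with `q.c \ p.c ⊆ O ∩ U_d`; by compactness `q.c \ p.c` (closed: it is `q.c` minus a clopen `K b`
or all of the heights above) is `⊆ O ∩ K b` for some `b < d`; this is a clopen subset of `K b`, so in `M`,
so there is such a `q` in `M`. -/
def St_P4key : Prop :=
  ∀ (X : Type u) [TopologicalSpace X] [CompactSpace X] [T2Space X] [TotallyDisconnectedSpace X]
    (x : X) (K : Ordinal.{u} → Set X), Filt x ℵ₁ K → (∀ a < w1, (K a).Countable) → OE1 X x →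
    ∀ D : Ordinal.{u} → Set (P4 x K), (∀ a, DenseP (D a)) →
      (∀ a, ∀ q ∈ D a, ∀ r ≤ q, r ∈ D a) →
      ClubC (Ordinal.{u} ⊕ P4 x K ⊕ Set X) (fun M => ∀ d < w1, IsSuccLimit d →
        (∀ a < w1, (Sum.inl a ∈ M ↔ a < d)) → ∀ z ∈ Bd K d,
        (∀ F : Set X, Sum.inr (Sum.inr F) ∈ M → IsClosed F → AccPt x (𝓟 F) → z ∈ F) →
        ∀ p : P4 x K, Sum.inr (Sum.inl p) ∈ M → ∀ a < d, ∀ O : Set X, IsClopen O → z ∈ O →
          ∃ q ≤ p, Sum.inr (Sum.inl q) ∈ M ∧ q ∈ D a ∧ q.c \ p.c ⊆ O)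

/-- Genericity. Proof. `T = Ordinal ⊕ P4 ⊕ Set X`; let `M` be as in `St_P4key` and moreover closed
under countable intersections of finitely many closed sets accumulating at `x` (`St_N.inter`), such
that for `F ∈ M` closed accumulating at `x`, `F` meets `B_d` (`St_Filt.acc`, the club for `F` is in `M`),
for `p ∈ M`: `p.c ⊆ U_d`, and for a promise `(A,f) ∈ p.Φ` the ordinal `b` of `St_Gf` is `< d`. By
compactness there is `z ∈ B_d` in all closed `F ∈ M` accumulating at `x`. `K d` is countable,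
so `z` has a decreasing base of clopen `O_n` in `K d`. Build `p_0 = p`, `p_{n+1} ≤ p_n` in `M`, in `D a_n`
(`a_n` enumerates `d`) with `p_{n+1}.c \ p_n.c ⊆ O_{k_n}`, `k_n` increasing; and take care of promises: if
`(A,f)` is a promise of `p_n`, then `{y ∈ A | z ∈ f y}` is positive (as `z ∉ K b`, `b < d`), so by `split`
for some `k` `{y ∈ A | O_k ∩ K d ⊆ f y}` is positive; make all later `k_m ≥ k`; by bookkeeping every
promise of every `p_n` (in its version restricted to the current stage) is treated. Let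
`q.c = ⋃ p_n.c ∪ {z}` (closed, as the new points converge to `z`; `ht z = d` is above all) and `q.Φ` = all
promises of all `p_n` together with their restrictions to `{y | q.c \ p_n.c ⊆ f y}` (positive by
construction). `q ≤ p_n` for all `n`. Use `St_SSPT`. -/
def St_P4ssp : Prop :=
  ∀ (X : Type u) [TopologicalSpace X] [CompactSpace X] [T2Space X] [TotallyDisconnectedSpace X]
    (x : X) (K : Ordinal.{u} → Set X), Filt x ℵ₁ K → (∀ a < w1, (K a).Countable) → OE1 X x →
    SSP.{u, u} (P4 x K)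

/-- Case C4 is impossible. Proof. The sets `K a` are countable (`St_Small`), one-endedness by `St_OE`.
`MM` gives a filter `G` on `P4 x K` meeting the dense open sets `{q | ∃ z ∈ q.c, z ∉ K b}`. Let
`C = {x} ∪ ⋃_{p∈G} p.c`. For `p ∈ G` with a point outside `K b`, `C ∩ K b = p.c ∩ K b` (new points in
extensions are higher), so `C` is closed; `x` accumulates `C`; the height is injective on `C \ {x}`; order
`C` by the height (`x` last): initial segments are `C ∩ K a`. So `C` is ordinal, but big by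
`St_C4b`: contradiction with `St_BigNot`. -/
def St_C4 : Prop :=
  MM.{u} → ∀ (X : Type u) [TopologicalSpace X] [CompactSpace X] [T2Space X]
    [TotallyDisconnectedSpace X] (x : X) (K : Ordinal.{u} → Set X), Min X x w1 →
    ¬ FFilt x w1 ℵ₁ K

/-! ## Lengths -/

/-- A `σ`-distributive poset with a length function with values `< ω₁` which can always be
increased has dense sets of conditions of length `≥ a`, for `a < ω₁`. Induction on `a`. -/
def St_Len : Prop :=
  ∀ (P : Type v) [Preorder P] (len : P → Ordinal.{u}), (∀ p q, q ≤ p → len p ≤ len q) →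
    (∀ p, ∃ q ≤ p, len p < len q) →
    (∀ D : ℕ → Set P, (∀ n, DenseP (D n)) → (∀ n, ∀ q ∈ D n, ∀ r ≤ q, r ∈ D n) →
      DenseP {p | ∀ n, p ∈ D n}) →
    ∀ a < w1, DenseP {p | a ≤ len p}

/-! ## P-ideal dichotomy -/

/-- a P-ideal of countable sets containing the singletons -/
structure PIdeal {Y : Type u} (J : Set (Set Y)) : Prop where
  ct : ∀ A ∈ J, A.Countable
  sub : ∀ A ∈ J, ∀ B ⊆ A, B ∈ J
  union : ∀ A ∈ J, ∀ B ∈ J, A ∪ B ∈ J
  sing : ∀ y, {y} ∈ J
  p : ∀ A : ℕ → Set Y, (∀ n, A n ∈ J) → ∃ B ∈ J, ∀ n, (A n \ B).Finite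

/-- `X` is cofinal in `(J, ⊆*)` -/
def CofJ {Y : Type u} (J X : Set (Set Y)) : Prop :=
  X ⊆ J ∧ ∀ B ∈ J, ∃ A ∈ X, (B \ A).Finite

/-- Conditions: a strictly increasing sequence `A i`, `i ≤ len < ω₁`, of members of `J` and countably
many cofinal sets (promises) -/
structure PC {Y : Type u} (J : Set (Set Y)) where
  len : Ordinal.{u}
  A : Ordinal.{u} → Set Y
  𝒳 : Set (Set (Set Y))
  lenlt : len < w1
  memJ : ∀ i ≤ len, A i ∈ J
  strict : ∀ i j, i < j → j ≤ len → A i ⊂ A j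
  stable : ∀ i, len ≤ i → A i = A len
  pct : 𝒳.Countable
  cof : ∀ X ∈ 𝒳, CofJ J X

instance {Y : Type u} (J : Set (Set Y)) : Preorder (PC J) where
  le q p := p.len ≤ q.len ∧ (∀ i ≤ p.len, q.A i = p.A i) ∧ p.𝒳 ⊆ q.𝒳 ∧
    ∀ X ∈ p.𝒳, {B | B ∈ X ∧ q.A q.len \ p.A p.len ⊆ B} ∈ q.𝒳
  le_refl p := ⟨le_rfl, fun _ _ => rfl, subset_rfl, by
    intro X hX
    have : {B | B ∈ X ∧ p.A p.len \ p.A p.len ⊆ B} = X := by ext B; simp
    rw [this]; exact hX⟩
  le_trans r q p := by
    rintro ⟨h1, h2, h3, h4⟩ ⟨k1, k2, k3, k4⟩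
    refine ⟨k1.trans h1, fun i hi => (h2 i (hi.trans k1)).trans (k2 i hi), k3.trans h3, ?_⟩
    intro X hX
    have := h4 _ (k4 X hX)
    have hqr : q.A q.len ⊆ r.A r.len := by
      rw [← h2 q.len le_rfl]
      rcases h1.lt_or_eq with h | h
      · exact (r.strict _ _ h le_rfl).1
      · rw [h]
    have hpq : p.A p.len ⊆ q.A q.len := by
      rw [← k2 p.len le_rfl]
      rcases k1.lt_or_eq with h | h
      · exact (q.strict _ _ h le_rfl).1
      · rw [h]
    have e : {B | B ∈ {B | B ∈ X ∧ q.A q.len \ p.A p.len ⊆ B} ∧ r.A r.len \ q.A q.len ⊆ B} =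
        {B | B ∈ X ∧ r.A r.len \ p.A p.len ⊆ B} := by
      ext B
      constructor
      · rintro ⟨⟨a, b⟩, c⟩
        refine ⟨a, fun z hz => ?_⟩
        by_cases hzq : z ∈ q.A q.len
        · exact b ⟨hzq, hz.2⟩
        · exact c ⟨hz.1, hzq⟩
      · rintro ⟨a, b⟩
        exact ⟨⟨a, fun z hz => b ⟨hqr hz.1, hz.2⟩⟩, fun z hz => b ⟨hz.1, fun hp => hz.2 (hpq hp)⟩⟩
    rw [e] at this
    exact this

/-- Smallness: a condition is determined by `len`, `A` on `Iio w1`, and `𝒳`. -/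
def St_PIDsmall : Prop :=
  ∀ (Y : Type u) (J : Set (Set Y)), Small.{u} (PC J)

/-- Totally generic conditions. Proof. (1) A cofinal set which is a countable union of sets has a
cofinal member (P-ideal: otherwise a `⊆*`-upper bound of the counterexamples `B_n ∈ J` gives a
contradiction). (2) For `p`, `a` either (A) there is `E = E(p,a) ∈ J` such that for every finite `s` there
is `q = q(p,a,s) ≤ p` in `D a` with `q.A q.len \ p.A p.len ⊆ E \ s`, or (B) for every `E ∈ J` there is a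
finite `s_E` such that there is no such `q`; (B) is impossible: the set
`X_0 = {E ∈ J | no q ≤ p in D a has q.A q.len \ p.A p.len ⊆ E}` would be cofinal (`E \ s_E ∈ X_0`), so
`p' = p` with the promise `X_0` added is a condition; take `q ≤ p'` in `D a`; the set
`{B ∈ X_0 | q.A q.len \ p.A p.len ⊆ B}` is cofinal, so nonempty: contradiction. (3) Let `M` be closed
under `E`, `q`, elements of members of `J`, and `B := ` a member of `J` with `A' ⊆* B` for all `A' ∈ J ∩ M`. So
for `p ∈ M`, `a ∈ M`, finite `t` there is `q ≤ p` in `M ∩ D a` with `q.A q.len \ p.A p.len ⊆ B \ t` (take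
`s = E \ (B \ t)`). (4) For a promise `X` the set `{B' ∈ X | B ⊆* B'}` is cofinal, so by (1) there is
a finite `t` with `{B' ∈ X | B \ t ⊆ B'}` cofinal. (5) Build `p_n ∈ M` decreasing, in `D a_n`, with new
elements in `B \ t_n`, `t_n` increasing finite, such that every promise `X` of every `p_n` is treated at
some stage `m ≥ n` (i.e. for its restriction `X' = {B' ∈ X | p_m.A p_m.len \ p_n.A p_n.len ⊆ B'}`,
`{B' ∈ X' | B \ t_m ⊆ B'}` is cofinal). If the lengths are eventually constant take `q` = that condition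
with all promises; otherwise `q.len = sup`, `q.A q.len = ⋃` (in `J`, as it is `⊆ p_0.A p_0.len ∪ B`), and
the promises `⋃ p_n.𝒳` with their restrictions. -/
def St_PIDgen : Prop :=
  ∀ (Y : Type u) (J : Set (Set Y)), PIdeal J → ∀ D : Ordinal.{u} → Set (PC J),
    (∀ a, DenseP (D a)) → (∀ a, ∀ q ∈ D a, ∀ r ≤ q, r ∈ D a) →
    ClubC (Ordinal.{u} ⊕ PC J ⊕ Set Y ⊕ Y) (fun M => ∀ d < w1, IsSuccLimit d →
      (∀ a < w1, (Sum.inl a ∈ M ↔ a < d)) →
      ∀ p : PC J, Sum.inr (Sum.inl p) ∈ M → ∃ q ≤ p, ∀ a < d, ∃ s, Sum.inr (Sum.inl s) ∈ M ∧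
        s ∈ D a ∧ q ≤ s)

/-- One-point extensions. Proof. Let `E = p.A p.len`. If for some `z ∉ E` all
`{B ∈ X | z ∈ B}`, `X ∈ p.𝒳`, are cofinal, put `q.len = p.len + 1`, `q.A q.len = E ∪ {z}`. Otherwise `Y` is
the union of countably many singletons (`E`) and the countably many sets
`Y_X = {z | {B ∈ X | z ∈ B} not cofinal}`, `X ∈ p.𝒳`; the latter are orthogonal to `J`: let
`A ∈ J`, `A ⊆ Y_X` be infinite (countable), `B_z ∈ J` witnesses for `z ∈ A`; let `B ∈ J` contain mod finite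
all `B_z` and `A`; take `B' ∈ X` with `B ⊆* B'`; some `z ∈ A` is in `B'`, and `B_z ⊆* B'`:
contradiction. -/
def St_PIDone : Prop :=
  ∀ (Y : Type u) (J : Set (Set Y)), PIdeal J →
    (¬ ∃ S : ℕ → Set Y, (∀ y, ∃ n, y ∈ S n) ∧ ∀ n, ∀ A ∈ J, A ⊆ S n → A.Finite) →
    ∀ p : PC J, ∃ q ≤ p, p.len < q.len

/-! ## Cofinality `> ω₁` -/

/-- countable closed increasing sequences in `S` -/
structure SPc (S : Set Ordinal.{u}) where
  len : Ordinal.{u}
  c : Ordinal.{u} → Ordinal.{u}
  lenlt : len < w1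
  zero : ∀ i, len < i → c i = 0
  mem : ∀ i ≤ len, c i ∈ S
  mono : ∀ i j, i < j → j ≤ len → c i < c j
  cont : ∀ l ≤ len, IsSuccLimit l → ∀ b < c l, ∃ i < l, b < c i

instance (S : Set Ordinal.{u}) : Preorder (SPc S) where
  le q p := p.len ≤ q.len ∧ ∀ i ≤ p.len, q.c i = p.c i
  le_refl p := ⟨le_rfl, fun _ _ => rfl⟩
  le_trans _ _ _ h k := ⟨k.1.trans h.1, fun i hi => (h.2 i (hi.trans k.1)).trans (k.2 i hi)⟩

/-- a sequence together with a finite partial specialising function on the nodes `(j, i)`,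
`j < i ≤ len`; nodes `(j,i)`, `(j,i')` are comparable if `R (c j) (c i) (c i')` -/
structure SPp (S : Set Ordinal.{u}) (R : Ordinal.{u} → Ordinal.{u} → Ordinal.{u} → Prop) extends
    SPc S where
  q : Finset ((Ordinal.{u} × Ordinal.{u}) × ℕ)
  fn : ∀ e ∈ q, ∀ e' ∈ q, e.1 = e'.1 → e = e'
  dom : ∀ e ∈ q, e.1.1 < e.1.2 ∧ e.1.2 ≤ len
  good : ∀ e ∈ q, ∀ e' ∈ q, e.1.1 = e'.1.1 → R (c e.1.1) (c e.1.2) (c e'.1.2) → e.2 ≠ e'.2

instance (S : Set Ordinal.{u}) (R : Ordinal.{u} → Ordinal.{u} → Ordinal.{u} → Prop) :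
    Preorder (SPp S R) where
  le q p := q.toSPc ≤ p.toSPc ∧ p.q ⊆ q.q
  le_refl p := ⟨le_rfl, subset_rfl⟩
  le_trans _ _ _ h k := ⟨h.1.trans k.1, k.2.trans h.2⟩

/-- Smallness (`S` bounded by `μ.ord`): a condition is determined by `len`, the values of `c` at
`i ≤ len < w1`, which are `< μ.ord`, and `q`. -/
def St_SPsmall : Prop :=
  ∀ (μ : Cardinal.{u}) (S : Set Ordinal.{u})
    (R : Ordinal.{u} → Ordinal.{u} → Ordinal.{u} → Prop), (∀ a ∈ S, a < μ.ord) →
    Small.{u} (SPp S R)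

/-- `SPc S` is `σ`-distributive for stationary `S`. Proof: given `p` and `D n`, apply `St_CCex2`
(`T = Ordinal ⊕ SPc S`, first stationary set `Iio w1`) to get a countable `M ∋ p`, closed under
`(p, n) ↦` an extension in `D n` and `(p, b) ↦` an extension with `c len > b` (for `b < μ.ord`; jump to an
element of `S` above `b`: `len + 1`), and with `sup (M ∩ μ) = g ∈ S`. Build `p_n ∈ M` with `p_{n+1} ∈ D n`,
with lengths increasing and `p_n.c p_n.len` cofinal in `g`; the union with the value `g` at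
`sup len` is a condition. -/
def St_SPdist : Prop :=
  ∀ (μ : Cardinal.{u}) (S : Set Ordinal.{u}), μ.IsRegular → ℵ₁ < μ →
    Stat μ.ord S → (∀ a ∈ S, a < μ.ord ∧ IsSuccLimit a ∧ a.cof = ℵ₀) →
    (∀ (p : SPc S), ∀ b < μ.ord, ∃ q ≤ p, p.len < q.len ∧ b < q.c q.len) ∧
    ∀ D : ℕ → Set (SPc S), (∀ n, DenseP (D n)) → (∀ n, ∀ q ∈ D n, ∀ r ≤ q, r ∈ D n) →
      DenseP {p | ∀ n, p ∈ D n}

/-- Pairwise incomparable blocks. `L` is a tree order on `S` (for fixed `z`) without cofinal chains,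
`a ξ ⊆ S` (`ξ < μ.ord`) finite (possibly empty) sets, increasing blocks. Proof. Choose `k` such that
`{ξ | #(a ξ) = k}` is cofinal in `μ.ord` (regular uncountable) and let `𝓤` be an ultrafilter containing
this set and all final segments of `Iio μ.ord`; write `a ξ = {a ξ 1 < ... < a ξ k}` (`k = 0` is trivial). If
for `𝓤`-many `ξ` the set of `ξ' > ξ` such that some element of `a ξ` is below (`L`) some element of `a ξ'` is in
`𝓤`: there are `i, j` and `B ∈ 𝓤` with `{ξ' | L (a ξ i) (a ξ' j)} ∈ 𝓤` for `ξ ∈ B`; for `ξ < η` in `B` some `ξ'`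
works for both, so `L (a ξ i) (a η i)` (tree): a cofinal chain, contradiction. Otherwise for `ξ` in
some `B ∈ 𝓤` the set `B_ξ` of `ξ' > ξ` with no `L`-comparability between `a ξ` and `a ξ'` is in `𝓤`; choose
`ξ_0 ∈ B`, `ξ_{n+1} ∈ B ∩ B_{ξ_0} ∩ ... ∩ B_{ξ_n}`. -/
def St_G : Prop :=
  ∀ (μ : Cardinal.{u}) (S : Set Ordinal.{u}) (L : Ordinal.{u} → Ordinal.{u} → Prop),
    μ.IsRegular → ℵ₀ < μ → (∀ a ∈ S, a < μ.ord) →
    (∀ a ∈ S, ∀ b ∈ S, ∀ c ∈ S, a < b → L a c → L b c → L a b) →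
    (∀ A ⊆ S, (∀ b < μ.ord, ∃ a ∈ A, b < a) → ¬ ∀ a ∈ A, ∀ b ∈ A, a < b → L a b) →
    ∀ a : Ordinal.{u} → Finset Ordinal.{u}, (∀ ξ < μ.ord, ∀ y ∈ a ξ, y ∈ S) →
      (∀ ξ η, ξ < η → η < μ.ord → ∀ y ∈ a ξ, ∀ z ∈ a η, y < z) →
      ∃ f : ℕ → Ordinal.{u}, StrictMono f ∧ (∀ n, f n < μ.ord) ∧
        ∀ m n, m < n → ∀ y ∈ a (f m), ∀ z ∈ a (f n), ¬ L y z

/-- `SPp S R` is `SSP` (hypotheses as in `St_SP`).
Proof. Let `D a` (`a < ω₁`) be dense open. For `c ∈ SPc S`, a finite `q` (with nodes `≤ c.len`), `a < ω₁`,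
`z < μ.ord` let `Φ(c,q,a,z)`: there is `r ∈ D a` with `r.toSPc ≤ c`, `q ⊆ r.q` and all nodes `(j,i)` of
`r.q \ q` have `r.c i > z`. Call `c` negative (for `q, a`) if `¬ Φ(c,q,a,z)` for some `z`; extensions of
negative `c` are negative. If no extension of `c` is negative (`c` positive), then for
every `z` there are `r_ξ ∈ D a`, `ξ < μ.ord`, as in `Φ`, `r_ξ.toSPc ≤ c`, whose sets of new node values
`a ξ = {r_ξ.c i | (j,i) new}` are increasing blocks above `z`; by `St_G` (`L = R z`), there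
is an infinite sequence `r_n(c,q,a,z)` of them with no `R z`-comparabilities between new node values of
different `r_n` (and these are different). Let `T = Ordinal ⊕ SPp S R`; let `M` be closed under all these
functions (witness `z` of negativity, a negative extension, `(r_n)`), the operations of
`St_SPdist`, changing `q`, with `d = M ∩ ω₁ ∈ S'` (the given stationary set) and
`sup (M ∩ μ) = g ∈ S` (`St_CCex2`). Let `g_m` increase to `g`, `b_m = {α ∈ S | g_m < α < g, R g_m α g}`.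
Given `p ∈ M` build sequences `c_0 = p.toSPc ≥ c_1 ≥ ...` in `M`, lengths increasing, last
values cofinal in `g`; at stage `k` treat `(a, q, m)`, `a < d`, `q` a finite function with nodes `≤ c_k.len`,
each triple infinitely often: if `c_k` has a negative extension take one in `M`; otherwise choose
`z ∈ M`, `z ≥ g_m, c_k.c c_k.len`, and among the `r_n(c_k,q,a,z)` one with no new node value in
`b_0 ∪ ... ∪ b_m`: each `b_m' \ Iic z` is an `R z`-chain so it meets the new node values of at most one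
`r_n`; `c_{k+1} := r_n.toSPc`. Let `c*` be the union with the value `g` on top, length `δ ≤ d`.
Claim: `(c*, p.q)` is generic. Let `r ≤ (c*, p.q)`, `a < d`, WLOG `r ∈ D a`; `q` = part of `r.q` with nodes
`(j,i)`, `i < δ`. For the finitely many `(j,i') ∈ r.q`, `i' ≥ δ > j`, the last hypothesis (with `g`,
`b = r.c i'`, `z = r.c j`) gives `m` (common) with
`{α ∈ S | g_m < α < g, R (r.c j) α (r.c i')} ⊆ b_0 ∪ ... ∪ b_m`. Let `k` be a stage
treating `(a,q,m)` with `q` below `c_k` and `g_m < c_k.c c_k.len`. `c_k` has no negative extension: otherwise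
`c_{k+1}` is negative, with witness `z ∈ M`, `z < g`, but `r` shows `Φ(c_{k+1},q,a,z)`. So
`c_{k+1} = s.toSPc` with `s = r_n ∈ D a ∩ M`; then `t = (r.toSPc, s.q ∪ r.q)` is a condition: a
new node `(j,i)` of `s` and a node `(j,i')` of `r`, `i' ≥ δ`, are incomparable. `t ≤ r`, `t ≤ s`.
Finish with `St_SSPc`. -/
def St_SPssp : Prop :=
  ∀ (μ : Cardinal.{u}) (S : Set Ordinal.{u})
    (R : Ordinal.{u} → Ordinal.{u} → Ordinal.{u} → Prop), μ.IsRegular → ℵ₁ < μ →
    Stat μ.ord S → (∀ a ∈ S, a < μ.ord ∧ IsSuccLimit a ∧ a.cof = ℵ₀) →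
    (∀ z a b, R z a b → z < a ∧ a < b) →
    (∀ z, ∀ a ∈ S, ∀ b ∈ S, ∀ c ∈ S, R z a b → R z b c → R z a c) →
    (∀ z, ∀ a ∈ S, ∀ b ∈ S, ∀ c ∈ S, a < b → R z a c → R z b c → R z a b) →
    (∀ z z', ∀ a ∈ S, ∀ b ∈ S, R z a b → z ≤ z' → z' < a → R z' a b) →
    (∀ z < μ.ord, ∀ A ⊆ S, (∀ b < μ.ord, ∃ a ∈ A, b < a) →
      ¬ ∀ a ∈ A, ∀ b ∈ A, z < a → a < b → R z a b) →
    (∀ g ∈ S, ∀ b ∈ S, g ≤ b → ∀ z < g, ∃ z', z ≤ z' ∧ z' < g ∧
      ∀ a ∈ S, z' < a → a < g → R z a b → R z' a g) →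
    SSP.{u, u + 1} (SPp S R)

/-- `St_SP` from the above. `MM` (`St_MMs`) for the dense sets `{p | a ≤ p.len}` (`St_Len` and
`St_SPdist` for `SPc`, then keep `q`) and `{p | (j,i) ∈ dom p.q}`, `j < i < w1` (give the new node a new
colour; index pairs by ordinals `< w1`). The union of the sequences is `c`, the union of the `q` a
function `h` with `h (j,i) ≠ h (j,i')` when `R (c j) (c i) (c i')`. If `A` is uncountable and
`R z (c i) (c j)` for `i < j` in `A`: `z < sup c`, take `j0` with `z ≤ c j0`; for `i < i'` in `A`, `i > j0`,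
`R (c j0) (c i) (c i')` so `h (j0, ·)` is injective on an uncountable set: contradiction. -/
def St_SPfin : Prop := St_SPssp.{u} → St_SPdist.{u} → St_SPsmall.{u} → St_SP.{u}

/-! ## The theorem -/

/-- the main theorem -/
def St_Main : Prop :=
  MM.{u} → ∀ (X : Type u) [TopologicalSpace X] [CompactSpace X] [T2Space X],
    (∀ F : Set X, IsClosed F → F.Infinite → IsCO F) →
    ∀ F : Set X, IsClosed F → F.Nonempty → ∃ α : Ordinal.{u}, Nonempty (F ≃ₜ Set.Iic α)

end Pool.Agent.HCO
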